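import Pool.Agent.SGP.Defs

/-!
# TST: test functions, their derivatives and `LL φ` as bounded continuous functions

Proofs. `fderiv ℝ φ · v` is again smooth with compact support (`ContDiff.fderiv_right`, `HasCompactSupport.fderiv`,
`.fderiv_apply`); `LL u μ φ` is continuous because `u` is (from `LocallyLipschitz.continuous`) and vanishes off
`tsupport φ`.
-/

open MeasureTheory ProbabilityTheory Set Filter Topology
open scoped ENNReal NNReal BoundedContinuousFunction

namespace Pool.Agent.SGP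

open Pool.Agent.OYG

variable {n : ℕ} {μ : Fin (n + 1) → ℝ} {u : ℝ → ℝ} {φ ψ : (Fin n → ℝ) → ℝ}

theorem IsTest.cont (hφ : IsTest φ) : Continuous φ := hφ.1.continuous

theorem IsTest.dcont (hφ : IsTest φ) (v : Fin n → ℝ) : Continuous fun x => fderiv ℝ φ x v :=
  (hφ.1.continuous_fderiv (by simp)).clm_apply continuous_const

theorem IsTest.dsupp (hφ : IsTest φ) (v : Fin n → ℝ) : HasCompactSupport fun x => fderiv ℝ φ x v :=
  hφ.2.fderiv_apply ℝ v

theorem IsTest.deriv (hφ : IsTest φ) (v : Fin n → ℝ) : IsTest fun x => fderiv ℝ φ x v := by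
  refine ⟨?_, hφ.dsupp v⟩
  have h1 : ContDiff ℝ ((⊤ : ℕ∞) : WithTop ℕ∞) (fderiv ℝ φ) := hφ.1.fderiv_right (by simp)
  exact h1.clm_apply contDiff_const

theorem IsTest.diff (hφ : IsTest φ) : Differentiable ℝ φ := hφ.1.differentiable (by simp)

theorem IsTest.lin (hφ : IsTest φ) (hψ : IsTest ψ) (a b : ℝ) : IsTest fun x => a * φ x + b * ψ x := by
  refine ⟨(contDiff_const.mul hφ.1).add (contDiff_const.mul hψ.1), ?_⟩
  exact (hφ.2.mul_left (f := fun _ => a)).add (hψ.2.mul_left (f := fun _ => b))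

theorem LL_cont (hu : Continuous u) (hφ : IsTest φ) : Continuous (LL u μ φ) := by
  unfold LL
  refine continuous_finsetSum _ fun i _ => ?_
  refine ((hφ.deriv (dv i)).dcont (ev i)).sub ?_
  refine Continuous.mul ?_ (hφ.dcont (dv i))
  exact continuous_const.sub (hu.comp (continuous_apply i))

theorem LL_supp (hφ : IsTest φ) : HasCompactSupport (LL u μ φ) := by
  refine HasCompactSupport.intro' (K := tsupport φ) hφ.2 (isClosed_tsupport φ) fun x hx => ?_
  unfold LL
  refine Finset.sum_eq_zero fun i _ => ?_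
  have h0 : ∀ᶠ y in 𝓝 x, φ y = 0 := by
    have : (tsupport φ)ᶜ ∈ 𝓝 x := (isClosed_tsupport φ).isOpen_compl.mem_nhds hx
    filter_upwards [this] with y hy
    exact image_eq_zero_of_notMem_tsupport hy
  have h1 : ∀ᶠ y in 𝓝 x, fderiv ℝ φ y = 0 := by
    filter_upwards [h0.eventually_nhds] with y hy
    have : φ =ᶠ[𝓝 y] fun _ => (0 : ℝ) := hy
    rw [this.fderiv_eq]
    simp
  have h2 : (fun y => fderiv ℝ φ y (dv i)) =ᶠ[𝓝 x] fun _ => (0 : ℝ) := by
    filter_upwards [h1] with y hy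
    rw [hy]; rfl
  rw [h2.fderiv_eq, h1.self_of_nhds]
  simp

theorem LL_lin (hφ : IsTest φ) (hψ : IsTest ψ) (a b : ℝ) (x : Fin n → ℝ) :
    LL u μ (fun y => a * φ y + b * ψ y) x = a * LL u μ φ x + b * LL u μ ψ x := by
  have key : ∀ {φ ψ : (Fin n → ℝ) → ℝ}, IsTest φ → IsTest ψ → ∀ (y v : Fin n → ℝ),
      fderiv ℝ (fun z => a * φ z + b * ψ z) y v = a * fderiv ℝ φ y v + b * fderiv ℝ ψ y v := by
    intro φ ψ hφ hψ y v
    have h1 : HasFDerivAt (fun z => a * φ z + b * ψ z) (a • fderiv ℝ φ y + b • fderiv ℝ ψ y) y :=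
      ((hφ.diff y).hasFDerivAt.const_mul a).add ((hψ.diff y).hasFDerivAt.const_mul b)
    rw [h1.fderiv]
    simp
  unfold LL
  rw [Finset.mul_sum, Finset.mul_sum, ← Finset.sum_add_distrib]
  refine Finset.sum_congr rfl fun i _ => ?_
  have h2 : (fun y => fderiv ℝ (fun z => a * φ z + b * ψ z) y (dv i)) =
      fun y => a * fderiv ℝ φ y (dv i) + b * fderiv ℝ ψ y (dv i) := by
    funext y
    exact key hφ hψ y (dv i)
  rw [h2, key (hφ.deriv (dv i)) (hψ.deriv (dv i)) x (ev i), key hφ hψ x (dv i)]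
  ring

/-- `φ` as a bounded continuous function -/
noncomputable def tb (hφ : IsTest φ) : (Fin n → ℝ) →ᵇ ℝ := cb φ hφ.cont hφ.2

/-- `Dφ(v)` as a bounded continuous function -/
noncomputable def db (hφ : IsTest φ) (v : Fin n → ℝ) : (Fin n → ℝ) →ᵇ ℝ := cb _ (hφ.dcont v) (hφ.dsupp v)

/-- `LL φ` as a bounded continuous function -/
noncomputable def Lb (hu : Pot u) (μ : Fin (n + 1) → ℝ) (hφ : IsTest φ) : (Fin n → ℝ) →ᵇ ℝ :=
  cb (LL u μ φ) (LL_cont hu.lip.continuous hφ) (LL_supp hφ)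

@[simp] theorem tb_apply (hφ : IsTest φ) (x : Fin n → ℝ) : tb hφ x = φ x := rfl

@[simp] theorem db_apply (hφ : IsTest φ) (v x : Fin n → ℝ) : db hφ v x = fderiv ℝ φ x v := rfl

@[simp] theorem Lb_apply (hu : Pot u) (hφ : IsTest φ) (x : Fin n → ℝ) : Lb hu μ hφ x = LL u μ φ x := rfl

end Pool.Agent.SGP
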