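import Pool.Agent.SGP.DN1
import Pool.Agent.SGP.TST

/-!
# DN2: the product measure

Proofs. `μ` is strictly decreasing, so `rel μ i > 0` and `rel μ` is strictly increasing
(`Fin.strictAnti_iff_succ_lt`). `PI` is a product of probability measures. `PI = volume.withDensity (ofReal ∘ RH)`:
`Measure.pi_eq` on boxes: `∫⁻_{box} ofReal (∏ dn) = ∏ ∫⁻ ofReal dn` (`lintegral_fin_nat_prod_eq_prod`-like, or
`MeasureTheory.Measure.pi_withDensity`-like lemma if Mathlib has it; search `withDensity` with `pi`). `RH` is a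
product of `C^1` functions of one coordinate: `ContDiff ℝ 1`: `contDiff_prod`, `dn` is `C^1`
(`contDiff_one_iff_deriv`, derivative continuous); derivative in direction `ev i`: only the factor `i` is
differentiated (`HasDerivAt` of `s ↦ RH (x + s • ev i)`, `Function.update`, `Finset.prod_update_of_mem`).
-/

open MeasureTheory ProbabilityTheory Set Filter Topology
open scoped ENNReal NNReal BoundedContinuousFunction

namespace Pool.Agent.SGP

variable {n : ℕ} {μ : Fin (n + 1) → ℝ} {u : ℝ → ℝ}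

theorem rel_pos (hμ : ∀ i : Fin n, μ i.succ < μ i.castSucc) (i : Fin n) : 0 < rel μ i := by
  have h : StrictAnti μ := Fin.strictAnti_iff_succ_lt.mpr hμ
  have := h (Fin.succ_pos i)
  rw [rel]
  linarith

theorem rel_strictMono (hμ : ∀ i : Fin n, μ i.succ < μ i.castSucc) : StrictMono (rel μ) := by
  have h : StrictAnti μ := Fin.strictAnti_iff_succ_lt.mpr hμ
  intro i j hij
  have := h (Fin.succ_lt_succ_iff.mpr hij)
  rw [rel, rel]
  linarith

theorem PI_prob (hu : Pot u) (hμ : ∀ i : Fin n, μ i.succ < μ i.castSucc) : IsProbabilityMeasure (PI u μ) := by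
  have : ∀ i, IsProbabilityMeasure (nu u (rel μ i)) := fun i => nu_prob hu (rel_pos hμ i)
  unfold PI
  infer_instance

theorem RH_pos (hu : Pot u) (hμ : ∀ i : Fin n, μ i.succ < μ i.castSucc) (x : Fin n → ℝ) : 0 < RH u μ x :=
  Finset.prod_pos fun i _ => dn_pos hu (rel_pos hμ i) (x i)

theorem dn_contDiff (hu : Pot u) (m : ℝ) : ContDiff ℝ 1 (dn u m) := by
  rw [contDiff_one_iff_deriv]
  refine ⟨fun g => (dn_hasDerivAt hu m g).differentiableAt, ?_⟩
  have h : deriv (dn u m) = fun g => -(m - u g) * dn u m g :=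
    funext fun g => (dn_hasDerivAt hu m g).deriv
  rw [h]
  exact ((continuous_const.sub hu.lip.continuous).neg).mul (dn_cont hu m)

theorem RH_contDiff (hu : Pot u) : ContDiff ℝ 1 (RH u μ) := by
  unfold RH
  exact contDiff_prod fun i _ => (dn_contDiff hu (rel μ i)).comp (contDiff_apply ℝ ℝ i)

theorem RH_cont (hu : Pot u) : Continuous (RH u μ) := (RH_contDiff hu).continuous

theorem RH_fderiv (hu : Pot u) (x : Fin n → ℝ) (i : Fin n) :
    fderiv ℝ (RH u μ) x (ev i) = -(rel μ i - u (x i)) * RH u μ x := by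
  classical
  have h1 : ∀ j : Fin n, HasFDerivAt (fun x : Fin n → ℝ => dn u (rel μ j) (x j))
      ((-(rel μ j - u (x j)) * dn u (rel μ j) (x j)) •
        (ContinuousLinearMap.proj (R := ℝ) (φ := fun _ : Fin n => ℝ) j)) x := fun j => by
    have hp : HasFDerivAt (fun x : Fin n → ℝ => x j)
        (ContinuousLinearMap.proj (R := ℝ) (φ := fun _ : Fin n => ℝ) j) x :=
      (ContinuousLinearMap.proj (R := ℝ) (φ := fun _ : Fin n => ℝ) j).hasFDerivAt
    exact (dn_hasDerivAt hu (rel μ j) (x j)).comp_hasFDerivAt x hp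
  have h2 : HasFDerivAt (RH u μ) (∑ j ∈ Finset.univ, (∏ k ∈ Finset.univ.erase j, dn u (rel μ k) (x k)) •
      ((-(rel μ j - u (x j)) * dn u (rel μ j) (x j)) •
        (ContinuousLinearMap.proj (R := ℝ) (φ := fun _ : Fin n => ℝ) j))) x :=
    HasFDerivAt.finsetProd (u := Finset.univ) fun j _ => h1 j
  rw [h2.fderiv, sum_apply, Finset.sum_eq_single i]
  · have h3 : RH u μ x = dn u (rel μ i) (x i) * ∏ k ∈ Finset.univ.erase i, dn u (rel μ k) (x k) := by
      rw [RH]
      exact (Finset.mul_prod_erase _ _ (Finset.mem_univ i)).symm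
    rw [h3]
    simp only [smul_apply, ContinuousLinearMap.proj_apply, smul_eq_mul, ev,
      Pi.single_eq_same]
    ring
  · intro j _ hj
    simp only [smul_apply, ContinuousLinearMap.proj_apply, smul_eq_mul, ev,
      Pi.single_eq_of_ne hj, mul_zero]
  · intro h
    exact absurd (Finset.mem_univ i) h

theorem nu_apply (hu : Pot u) {m : ℝ} (hm : 0 < m) {s : Set ℝ} (hs : MeasurableSet s) :
    nu u m s = ENNReal.ofReal (∫ g in s, dn u m g) := by
  rw [nu, withDensity_apply _ hs, ofReal_integral_eq_lintegral_ofReal (dn_integrable hu hm).integrableOn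
    (Eventually.of_forall fun g => (dn_pos hu hm g).le)]

theorem PI_eq (hu : Pot u) (hμ : ∀ i : Fin n, μ i.succ < μ i.castSucc) :
    PI u μ = volume.withDensity fun x => ENNReal.ofReal (RH u μ x) := by
  have : ∀ i, IsProbabilityMeasure (nu u (rel μ i)) := fun i => nu_prob hu (rel_pos hμ i)
  unfold PI
  refine Measure.pi_eq fun s hs => ?_
  have hbox : MeasurableSet (Set.pi univ s) := MeasurableSet.univ_pi hs
  rw [withDensity_apply _ hbox]
  have e1 : (volume : Measure (Fin n → ℝ)).restrict (Set.pi univ s) =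
      Measure.pi fun i => (volume : Measure ℝ).restrict (s i) := by
    rw [volume_pi]
    exact Measure.restrict_pi_pi _ s
  rw [e1]
  have hint : Integrable (fun x : Fin n → ℝ => ∏ i, dn u (rel μ i) (x i))
      (Measure.pi fun i => (volume : Measure ℝ).restrict (s i)) :=
    Integrable.fintype_prod fun i => (dn_integrable hu (rel_pos hμ i)).integrableOn
  have e2 : ∫⁻ x, ENNReal.ofReal (RH u μ x) ∂(Measure.pi fun i => (volume : Measure ℝ).restrict (s i)) =
      ENNReal.ofReal (∫ x, RH u μ x ∂(Measure.pi fun i => (volume : Measure ℝ).restrict (s i))) :=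
    (ofReal_integral_eq_lintegral_ofReal hint
      (Eventually.of_forall fun x => (RH_pos hu hμ x).le)).symm
  rw [e2]
  have e3 : ∫ x, RH u μ x ∂(Measure.pi fun i => (volume : Measure ℝ).restrict (s i)) =
      ∏ i, ∫ g in s i, dn u (rel μ i) g :=
    integral_fintype_prod_eq_prod (fun i => dn u (rel μ i))
  rw [e3, ENNReal.ofReal_prod_of_nonneg fun i _ =>
    setIntegral_nonneg (hs i) fun g _ => (dn_pos hu (rel_pos hμ i) g).le]
  exact Finset.prod_congr rfl fun i _ => (nu_apply hu (rel_pos hμ i) (hs i)).symm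

theorem PI_eq' (hu : Pot u) (hμ : ∀ i : Fin n, μ i.succ < μ i.castSucc) :
    PI u μ = volume.withDensity fun x => ((RH u μ x).toNNReal : ℝ≥0∞) := PI_eq hu hμ

theorem integral_PI (hu : Pot u) (hμ : ∀ i : Fin n, μ i.succ < μ i.castSucc) (f : (Fin n → ℝ) → ℝ) :
    ∫ x, f x ∂(PI u μ) = ∫ x, f x * RH u μ x := by
  have hmeas : Measurable fun x => (RH u μ x).toNNReal := (RH_cont hu).measurable.real_toNNReal
  rw [PI_eq' hu hμ, integral_withDensity_eq_integral_smul hmeas]
  refine integral_congr_ae (Eventually.of_forall fun x => ?_)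
  show (RH u μ x).toNNReal • f x = f x * RH u μ x
  rw [NNReal.smul_def, Real.coe_toNNReal _ (RH_pos hu hμ x).le, smul_eq_mul, mul_comm]

theorem integrable_PI (hu : Pot u) (hμ : ∀ i : Fin n, μ i.succ < μ i.castSucc) {f : (Fin n → ℝ) → ℝ} :
    Integrable f (PI u μ) ↔ Integrable fun x => f x * RH u μ x := by
  have hmeas : Measurable fun x => (RH u μ x).toNNReal := (RH_cont hu).measurable.real_toNNReal
  rw [PI_eq' hu hμ, integrable_withDensity_iff_integrable_smul hmeas]
  refine integrable_congr (Eventually.of_forall fun x => ?_)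
  show (RH u μ x).toNNReal • f x = f x * RH u μ x
  rw [NNReal.smul_def, Real.coe_toNNReal _ (RH_pos hu hμ x).le, smul_eq_mul, mul_comm]

/-- on balls the density is bounded below -/
theorem PI_lower (hu : Pot u) (hμ : ∀ i : Fin n, μ i.succ < μ i.castSucc) (R : ℝ) : ∃ c : ℝ, 0 < c ∧
    ∀ A : Set (Fin n → ℝ), MeasurableSet A → A ⊆ Metric.closedBall 0 R →
      ENNReal.ofReal c * volume A ≤ PI u μ A := by
  have hc : ∃ c : ℝ, 0 < c ∧ ∀ x ∈ Metric.closedBall (0 : Fin n → ℝ) R, c ≤ RH u μ x := by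
    rcases (Metric.closedBall (0 : Fin n → ℝ) R).eq_empty_or_nonempty with h0 | hne
    · exact ⟨1, one_pos, fun x hx => by rw [h0] at hx; exact absurd hx (Set.notMem_empty x)⟩
    · obtain ⟨x0, _, hx0⟩ := (isCompact_closedBall (0 : Fin n → ℝ) R).exists_isMinOn hne
        (RH_cont (μ := μ) hu).continuousOn
      exact ⟨RH u μ x0, RH_pos hu hμ x0, fun x hx => hx0 hx⟩
  obtain ⟨c, hc0, hc⟩ := hc
  refine ⟨c, hc0, fun A hA hAR => ?_⟩
  rw [PI_eq hu hμ, withDensity_apply _ hA, ← setLIntegral_const]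
  refine setLIntegral_mono_ae' hA (Eventually.of_forall fun x hx => ?_)
  exact ENNReal.ofReal_le_ofReal (hc x (hAR hx))

/-- a non-empty open set has positive measure -/
theorem PI_open (hu : Pot u) (hμ : ∀ i : Fin n, μ i.succ < μ i.castSucc) (O : Set (Fin n → ℝ)) (hO : IsOpen O)
    (hne : O.Nonempty) : 0 < PI u μ O := by
  obtain ⟨x, hx⟩ := hne
  obtain ⟨r, hr, hball⟩ := Metric.isOpen_iff.mp hO x hx
  obtain ⟨c, hc, hlow⟩ := PI_lower hu hμ (‖x‖ + r)
  have hsub : Metric.ball x r ⊆ Metric.closedBall 0 (‖x‖ + r) := by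
    intro y hy
    rw [Metric.mem_ball, dist_eq_norm] at hy
    rw [mem_closedBall_zero_iff]
    have := norm_le_norm_add_norm_sub' y x
    linarith
  have h1 := hlow (Metric.ball x r) measurableSet_ball hsub
  have h2 : 0 < ENNReal.ofReal c * volume (Metric.ball x r) :=
    ENNReal.mul_pos (ENNReal.ofReal_pos.mpr hc).ne' (Metric.measure_ball_pos volume x hr).ne'
  exact lt_of_lt_of_le h2 (h1.trans (measure_mono hball))

end Pool.Agent.SGP
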