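import Pool.Agent.SGP.Defs

/-!
# EXH: a potential with long plateaus

`xq j = j² + j`, `xG j x = max (xq j) (2 x - xq j)` (monotone, `2`-Lipschitz), `xh x = inf_j xG j x + min x 0`.
`x ≤ xh x ≤ x + √x + 1` for `x ≥ 0`, `xh x ≤ x` for `x ≤ 0`, `xh x = k² + k` for `x ∈ [k², k² + k]`. `u y = 2 ^ (xh (-y))`.
-/

open MeasureTheory ProbabilityTheory Set Filter Topology
open scoped ENNReal NNReal

namespace Pool.Agent.SGP

private noncomputable def xq (j : ℕ) : ℝ := (j : ℝ) ^ 2 + j

private noncomputable def xG (j : ℕ) (x : ℝ) : ℝ := max (xq j) (2 * x - xq j)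

private noncomputable def xh (x : ℝ) : ℝ := (⨅ j : ℕ, xG j x) + min x 0

private theorem xq_nonneg (j : ℕ) : 0 ≤ xq j := by
  unfold xq
  positivity

private theorem xq_mono {i j : ℕ} (h : i ≤ j) : xq i ≤ xq j := by
  have h1 : (i : ℝ) ≤ j := by exact_mod_cast h
  have h2 : (0 : ℝ) ≤ i := Nat.cast_nonneg i
  unfold xq
  nlinarith

private theorem xG_bdd (x : ℝ) : BddBelow (range fun j : ℕ => xG j x) := by
  refine ⟨0, ?_⟩
  rintro _ ⟨j, rfl⟩
  exact (xq_nonneg j).trans (le_max_left _ _)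

private theorem xG_mono (j : ℕ) : Monotone (xG j) := by
  intro x y h
  exact max_le_max le_rfl (by linarith)

private theorem xG_lip (j : ℕ) (x y : ℝ) : xG j x ≤ xG j y + 2 * |x - y| := by
  have h1 : x - y ≤ |x - y| := le_abs_self _
  have h2 : 0 ≤ |x - y| := abs_nonneg _
  refine max_le ?_ ?_
  · have := le_max_left (xq j) (2 * y - xq j)
    show xq j ≤ max (xq j) (2 * y - xq j) + 2 * |x - y|
    linarith
  · have := le_max_right (xq j) (2 * y - xq j)
    show 2 * x - xq j ≤ max (xq j) (2 * y - xq j) + 2 * |x - y|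
    linarith

private theorem xI_mono : Monotone fun x => ⨅ j : ℕ, xG j x := fun _ _ h =>
  ciInf_mono (xG_bdd _) fun j => xG_mono j h

private theorem xh_mono : Monotone xh := by
  intro x y h
  exact add_le_add (xI_mono h) (min_le_min h le_rfl)

private theorem xI_lip (x y : ℝ) : (⨅ j : ℕ, xG j x) ≤ (⨅ j : ℕ, xG j y) + 2 * |x - y| := by
  have h : (⨅ j : ℕ, xG j x) - 2 * |x - y| ≤ ⨅ j : ℕ, xG j y := by
    refine le_ciInf fun j => ?_
    have h1 := ciInf_le (xG_bdd x) j
    have h2 := xG_lip j x y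
    linarith
  linarith

private theorem xh_lip : LipschitzWith 3 xh := by
  refine LipschitzWith.of_le_add_mul 3 fun x y => ?_
  have h1 := xI_lip x y
  have h2 : min x 0 ≤ min y 0 + |x - y| := by
    have h3 : x - y ≤ |x - y| := le_abs_self _
    have h4 : 0 ≤ |x - y| := abs_nonneg _
    rcases le_total y 0 with h | h
    · rw [min_eq_left h]
      exact (min_le_left _ _).trans (by linarith)
    · rw [min_eq_right h]
      exact (min_le_right _ _).trans (by linarith)
  rw [Real.dist_eq]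
  show (⨅ j : ℕ, xG j x) + min x 0 ≤ (⨅ j : ℕ, xG j y) + min y 0 + ((3 : ℝ≥0) : ℝ) * |x - y|
  have e : ((3 : ℝ≥0) : ℝ) = 3 := rfl
  rw [e]
  linarith

private theorem xI_ge (x : ℝ) : x ≤ ⨅ j : ℕ, xG j x := by
  refine le_ciInf fun j => ?_
  have h1 := le_max_left (xq j) (2 * x - xq j)
  have h2 := le_max_right (xq j) (2 * x - xq j)
  show x ≤ max (xq j) (2 * x - xq j)
  linarith

private theorem xh_ge {x : ℝ} (hx : 0 ≤ x) : x ≤ xh x := by
  have := xI_ge x
  rw [xh, min_eq_right hx]
  linarith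

private theorem xh_le {x : ℝ} (hx : 0 ≤ x) : xh x ≤ x + √x + 1 := by
  rw [xh, min_eq_right hx, add_zero]
  set k := ⌊√x⌋₊ with hk
  have hs := Real.sqrt_nonneg x
  have h1 : (k : ℝ) ≤ √x := Nat.floor_le hs
  have h2 : √x < k + 1 := Nat.lt_floor_add_one _
  have h3 : √x ^ 2 = x := Real.sq_sqrt hx
  have hk0 : (0 : ℝ) ≤ k := Nat.cast_nonneg k
  refine (ciInf_le (xG_bdd x) k).trans (max_le ?_ ?_)
  · unfold xq
    nlinarith
  · unfold xq
    nlinarith

private theorem xh_neg {x : ℝ} (hx : x ≤ 0) : xh x ≤ x := by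
  rw [xh, min_eq_left hx]
  have h1 := ciInf_le (xG_bdd x) 0
  have h2 : xG 0 x ≤ 0 := by
    refine max_le ?_ ?_
    · simp [xq]
    · simp only [xq]
      norm_num
      linarith
  linarith

private theorem xh_plateau (k : ℕ) {x : ℝ} (h1 : (k : ℝ) ^ 2 ≤ x) (h2 : x ≤ (k : ℝ) ^ 2 + k) : xh x = xq k := by
  have h0 : 0 ≤ x := le_trans (by positivity) h1
  rw [xh, min_eq_right h0, add_zero]
  refine le_antisymm ?_ ?_
  · refine (ciInf_le (xG_bdd x) k).trans (max_le le_rfl ?_)
    unfold xq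
    linarith
  · refine le_ciInf fun j => ?_
    rcases le_or_gt k j with h | h
    · exact (xq_mono h).trans (le_max_left _ _)
    · refine le_trans ?_ (le_max_right _ _)
      have h3 : (j : ℝ) + 1 ≤ k := by exact_mod_cast h
      have h4 : (0 : ℝ) ≤ j := Nat.cast_nonneg j
      unfold xq
      nlinarith

/-- there is a potential satisfying all hypotheses of the problem with plateaus of height `2 ^ (k² + k)` and length `k` -/
theorem exh : ∃ u : ℝ → ℝ, Pot u ∧ (∀ a b : ℝ, 0 < b → b < a → Tendsto (fun y => u (a * y) / u (b * y)) atBot atTop) ∧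
    ∀ k : ℕ, ∀ y ∈ Icc (-((k : ℝ) ^ 2 + k)) (-((k : ℝ) ^ 2 + k) + k), u y = ((2 ^ (k ^ 2 + k) : ℕ) : ℝ) := by
  refine ⟨fun y => (2 : ℝ) ^ xh (-y), ⟨?_, ?_, ?_, ?_, ?_⟩, ?_, ?_⟩
  · have h1 : LocallyLipschitz fun t : ℝ => (2 : ℝ) ^ t := by
      have : ContDiff ℝ 1 fun t : ℝ => (2 : ℝ) ^ t := by
        have e : (fun t : ℝ => (2 : ℝ) ^ t) = fun t : ℝ => Real.exp (Real.log 2 * t) := by
          funext t
          rw [Real.rpow_def_of_pos two_pos]
        rw [e]
        exact (contDiff_const.mul contDiff_id).exp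
      exact this.locallyLipschitz
    have h2 : LipschitzWith 1 fun y : ℝ => -y := LipschitzWith.id.neg
    exact h1.comp ((xh_lip.comp h2).locallyLipschitz)
  · intro y
    positivity
  · intro x _ y _ h
    exact Real.rpow_le_rpow_of_exponent_le one_le_two (xh_mono (by linarith))
  · have h1 : Tendsto (fun y : ℝ => (2 : ℝ) ^ (-y)) atTop (𝓝 0) :=
      (tendsto_rpow_atBot_of_base_gt_one 2 one_lt_two).comp tendsto_neg_atTop_atBot
    refine squeeze_zero' (Eventually.of_forall fun y => by positivity) ?_ h1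
    filter_upwards [eventually_ge_atTop (0 : ℝ)] with y hy
    exact Real.rpow_le_rpow_of_exponent_le one_le_two (xh_neg (by linarith))
  · refine (tendsto_rpow_atTop_of_base_gt_one 2 one_lt_two).comp ?_
    refine tendsto_atTop_mono' atBot ?_ tendsto_neg_atBot_atTop
    filter_upwards [eventually_le_atBot (0 : ℝ)] with y hy
    exact xh_ge (by linarith)
  · intro a b hb hab
    have e : (fun y : ℝ => (2 : ℝ) ^ xh (-(a * y)) / (2 : ℝ) ^ xh (-(b * y))) =
        fun y : ℝ => (2 : ℝ) ^ (xh (-(a * y)) - xh (-(b * y))) := by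
      funext y
      rw [Real.rpow_sub two_pos]
    show Tendsto (fun y : ℝ => (2 : ℝ) ^ xh (-(a * y)) / (2 : ℝ) ^ xh (-(b * y))) atBot atTop
    rw [e]
    refine (tendsto_rpow_atTop_of_base_gt_one 2 one_lt_two).comp ?_
    have hd : 0 < a - b := by linarith
    have h1 : Tendsto (fun y : ℝ => (a - b) / 2 * (-y) + -(b / (2 * (a - b)) + 1)) atBot atTop :=
      tendsto_atTop_add_const_right _ _ (tendsto_neg_atBot_atTop.const_mul_atTop (by positivity))
    refine tendsto_atTop_mono' atBot ?_ h1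
    filter_upwards [eventually_le_atBot (0 : ℝ)] with y hy
    have ha : 0 < a := hb.trans hab
    have h2 : 0 ≤ -(a * y) := by nlinarith
    have h3 : 0 ≤ -(b * y) := by nlinarith
    have h4 := xh_ge h2
    have h5 := xh_le h3
    have h6 : √(-(b * y)) ≤ (a - b) / 2 * (-y) + b / (2 * (a - b)) := by
      refine Real.sqrt_le_iff.mpr ⟨?_, ?_⟩
      · have : 0 ≤ (a - b) / 2 * (-y) := mul_nonneg (by positivity) (by linarith)
        positivity
      · have h7 : ((a - b) / 2 * (-y) + b / (2 * (a - b))) ^ 2 - -(b * y) =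
            ((a - b) / 2 * (-y) - b / (2 * (a - b))) ^ 2 := by
          field_simp
          ring
        nlinarith [sq_nonneg ((a - b) / 2 * (-y) - b / (2 * (a - b)))]
    linarith
  · intro k y hy
    have h1 := xh_plateau k (x := -y) (by linarith [hy.2]) (by linarith [hy.1])
    show (2 : ℝ) ^ xh (-y) = _
    rw [h1]
    have e : xq k = ((k ^ 2 + k : ℕ) : ℝ) := by
      unfold xq
      push_cast
      ring
    rw [e, Real.rpow_natCast]
    push_cast
    ring

end Pool.Agent.SGP
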