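import Pool.Agent.SGP.HDY

/-!
# PLT: a plateau of `U'` at height `m` makes the gap small

Proof. Fix `φ : ℝ → ℝ` smooth, support in `[0, 1]`, `∫ φ = 0`, `c1 = ∫ φ^2 > 0`, `c2 = ∫ φ'^2` (a difference of two translated
bumps). For `u = m` on `[A, A + L]` the density `dn u m` is constant there, `= K`. Test function `f x = φ ((x - A)/L)`:
`∫ f'^2 dν = K L⁻¹ c2`, `∫ f^2 dν = K L c1`, `∫ f dν = 0`, so `gap K L c1 ≤ K L⁻¹ c2` (`poincare`).
-/

open MeasureTheory ProbabilityTheory Set Filter Topology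
open scoped ENNReal NNReal

namespace Pool.Agent.SGP

private noncomputable def pB : ContDiffBump (1 / 4 : ℝ) := ⟨1 / 8, 1 / 4, by norm_num, by norm_num⟩

private noncomputable def pf (t : ℝ) : ℝ := pB t - pB (t - 1 / 2)

private theorem pB_zero {t : ℝ} (h : t ≤ 0 ∨ 1 / 2 ≤ t) : pB t = 0 := by
  refine pB.zero_of_le_dist ?_
  rw [Real.dist_eq]
  have : pB.rOut = 1 / 4 := rfl
  rw [this]
  rcases h with h | h
  · rw [abs_of_neg (by linarith)]
    linarith
  · rw [abs_of_pos (by linarith)]
    linarith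

private theorem pf_zero {t : ℝ} (h : t ≤ 0 ∨ 1 ≤ t) : pf t = 0 := by
  have h1 : pB t = 0 := pB_zero (h.imp id fun h => by linarith)
  have h2 : pB (t - 1 / 2) = 0 := pB_zero (h.imp (fun h => by linarith) fun h => by linarith)
  rw [pf, h1, h2, sub_zero]

private theorem pf_diff : ContDiff ℝ 1 pf := by
  have h1 : ContDiff ℝ 1 fun t => pB t := pB.contDiff
  exact h1.sub (h1.comp (contDiff_id.sub contDiff_const))

private theorem pf_cs : HasCompactSupport pf := by
  refine HasCompactSupport.intro (isCompact_Icc (a := (0 : ℝ)) (b := 1)) fun t ht => pf_zero ?_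
  rw [mem_Icc, not_and_or, not_le, not_le] at ht
  exact ht.imp le_of_lt le_of_lt

private theorem pf_int : ∫ t, pf t = 0 := by
  have h1 : Integrable fun t => pB t := pB.integrable
  have h2 : Integrable fun t => pB (t - 1 / 2) := h1.comp_sub_right (1 / 2)
  have h3 : ∫ t, pB (t - 1 / 2) = ∫ t, pB t := integral_sub_right_eq_self (fun t => pB t) (1 / 2)
  show ∫ t, (pB t - pB (t - 1 / 2)) = 0
  rw [integral_sub h1 h2, h3, sub_self]

private theorem pf_sq : 0 < ∫ t, pf t ^ 2 := by
  have hc : Continuous fun t => pf t ^ 2 := pf_diff.continuous.pow 2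
  have hs : HasCompactSupport fun t => pf t ^ 2 := pf_cs.comp_left (g := fun x : ℝ => x ^ 2) (by norm_num)
  refine hc.integral_pos_of_hasCompactSupport_nonneg_nonzero hs (fun g => sq_nonneg _) (x := 1 / 4) ?_
  have h1 : pB (1 / 4) = 1 := pB.one_of_mem_closedBall (Metric.mem_closedBall_self pB.rIn_pos.le)
  have h2 : pB (1 / 4 - 1 / 2) = 0 := pB_zero (Or.inl (by norm_num))
  rw [pf, h1, h2]
  norm_num

theorem plateau : ∃ C : ℝ, 0 < C ∧ ∀ (u : ℝ → ℝ) (_ : Pot u) (m A L : ℝ), 0 < m → 0 < L →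
    (∀ x ∈ Icc A (A + L), u x = m) → gap u m ≤ C / L ^ 2 := by
  have hc1 := pf_sq
  set c1 := ∫ t, pf t ^ 2 with hc1d
  set c2 := ∫ t, deriv pf t ^ 2 with hc2d
  have hc2 : 0 ≤ c2 := integral_nonneg fun t => sq_nonneg _
  refine ⟨c2 / c1 + 1, by positivity, ?_⟩
  intro u hu m A L hm hL hA
  have hprob := nu_prob hu hm
  set K := dn u m A with hK
  have hKpos : 0 < K := dn_pos hu hm A
  have hconst : ∀ x ∈ Icc A (A + L), dn u m x = K := by
    refine constant_of_has_deriv_right_zero (dn_cont hu m).continuousOn fun x hx => ?_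
    have h1 := (dn_hasDerivAt hu m x).hasDerivWithinAt (s := Ici x)
    rw [hA x ⟨hx.1, hx.2.le⟩] at h1
    simpa using h1
  set f : ℝ → ℝ := fun x => pf ((x - A) / L) with hf
  have hfd : ∀ x, HasDerivAt f (deriv pf ((x - A) / L) / L) x := by
    intro x
    have h1 : HasDerivAt pf (deriv pf ((x - A) / L)) ((x - A) / L) :=
      (pf_diff.differentiable one_ne_zero _).hasDerivAt
    have h2 : HasDerivAt (fun x : ℝ => (x - A) / L) (1 / L) x := ((hasDerivAt_id x).sub_const A).div_const L
    have h3 := h1.comp x h2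
    have e : deriv pf ((x - A) / L) * (1 / L) = deriv pf ((x - A) / L) / L := by ring
    rw [← e]
    exact h3
  have hfC : ContDiff ℝ 1 f := pf_diff.comp ((contDiff_id.sub contDiff_const).div_const L)
  have hfz : ∀ x, x ∉ Icc A (A + L) → f x = 0 := by
    intro x hx
    rw [mem_Icc, not_and_or, not_le, not_le] at hx
    refine pf_zero (hx.imp (fun h => ?_) fun h => ?_)
    · exact div_nonpos_of_nonpos_of_nonneg (by linarith) hL.le
    · rw [le_div_iff₀ hL]
      linarith
  have hfcs : HasCompactSupport f := HasCompactSupport.intro (isCompact_Icc (a := A) (b := A + L)) hfz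
  have hfz' : ∀ x, x ∉ Icc A (A + L) → deriv f x = 0 := by
    intro x hx
    have h1 : ∀ᶠ y in 𝓝 x, f y = 0 := by
      filter_upwards [isClosed_Icc.isOpen_compl.mem_nhds hx] with y hy
      exact hfz y hy
    have h2 : f =ᶠ[𝓝 x] fun _ => (0 : ℝ) := h1
    rw [h2.deriv_eq]
    exact deriv_const x 0
  -- integrals
  have sc : ∀ h : ℝ → ℝ, ∫ x, h ((x - A) / L) = L * ∫ t, h t := by
    intro h
    have h1 := integral_sub_right_eq_self (μ := volume) (fun x => h (x / L)) A
    have h2 := Measure.integral_comp_div h L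
    rw [h1, h2, abs_of_pos hL, smul_eq_mul]
  have hw : ∀ h : ℝ → ℝ, (∀ x, x ∉ Icc A (A + L) → h x = 0) → ∫ x, h x ∂(nu u m) = K * ∫ x, h x := by
    intro h hz
    rw [integral_nu hu hm, ← integral_const_mul]
    refine integral_congr_ae (Eventually.of_forall fun x => ?_)
    show h x * dn u m x = K * h x
    by_cases hx : x ∈ Icc A (A + L)
    · rw [hconst x hx, mul_comm]
    · rw [hz x hx]
      ring
  have hm0 : ∫ x, f x ∂(nu u m) = 0 := by
    rw [hw f hfz, hf, sc pf, pf_int]
    ring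
  have hv : vr (nu u m) f = K * (L * c1) := by
    unfold vr
    rw [hm0]
    simp only [sub_zero]
    rw [hw (fun x => f x ^ 2) fun x hx => by rw [hfz x hx]; ring, hf, sc (fun t => pf t ^ 2)]
  have hd : ∫ x, deriv f x ^ 2 ∂(nu u m) = K * (c2 / L) := by
    rw [hw (fun x => deriv f x ^ 2) fun x hx => by rw [hfz' x hx]; ring]
    congr 1
    have e : ∀ x, deriv f x ^ 2 = (fun t => (deriv pf t / L) ^ 2) ((x - A) / L) := by
      intro x
      rw [(hfd x).deriv]
    simp only [e]
    rw [sc (fun t => (deriv pf t / L) ^ 2)]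
    simp only [div_pow]
    rw [integral_div, ← hc2d]
    field_simp
  have hP := poincare u m hfC hfcs
  rw [hv, hd] at hP
  have h1 : gap u m * (L * c1) ≤ c2 / L := by
    have : K * (gap u m * (L * c1)) ≤ K * (c2 / L) := by linarith
    exact le_of_mul_le_mul_left this hKpos
  have h2 : gap u m ≤ c2 / c1 / L ^ 2 := by
    rw [div_div, le_div_iff₀ (by positivity)]
    have h3 : gap u m * (L * c1) * L ≤ c2 / L * L := mul_le_mul_of_nonneg_right h1 hL.le
    rw [div_mul_cancel₀ _ hL.ne'] at h3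
    linarith
  refine h2.trans ?_
  gcongr
  linarith

end Pool.Agent.SGP
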