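import Pool.Agent.SGP.MON
import Pool.Agent.SGP.PLT
import Pool.Agent.SGP.EXH
import Pool.Agent.SGP.DN2

/-!
# FIX: dependence on the number of particles
-/

open MeasureTheory ProbabilityTheory Set Filter Topology
open scoped ENNReal NNReal

namespace Pool.Agent.SGP

/-- for convex `U'` the minimum of the gaps is attained at the first gap -/
theorem inf_convex {n : ℕ} (hn : 0 < n) {μ : Fin (n + 1) → ℝ} (hμ : ∀ i : Fin n, μ i.succ < μ i.castSucc)
    {u : ℝ → ℝ} (hu : Pot u) (hc : ConvexOn ℝ univ u) :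
    (⨅ i : Fin n, gap u (rel μ i)) = gap u (rel μ ⟨0, hn⟩) := by
  have : Nonempty (Fin n) := ⟨⟨0, hn⟩⟩
  apply le_antisymm
  · exact ciInf_le (Set.finite_range _).bddBelow _
  · refine le_ciInf fun i => ?_
    refine gap_mono hu hc (rel_pos hμ _) ((rel_strictMono hμ).monotone ?_)
    exact Fin.mk_le_of_le_val (Nat.zero_le _)

/-- there is a potential for which, with all relative drifts equal to `-1`, the minimum of the gaps tends to `0` as the
number of particles tends to infinity -/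
theorem inf_to_zero : ∃ u : ℝ → ℝ, Pot u ∧
    (∀ a b : ℝ, 0 < b → b < a → Tendsto (fun y => u (a * y) / u (b * y)) atBot atTop) ∧
    Tendsto (fun n : ℕ => ⨅ i : Fin n, gap u (rel (fun j : Fin (n + 1) => -(j : ℝ)) i)) atTop (𝓝 0) := by
  obtain ⟨u, hu, hr, hp⟩ := exh
  obtain ⟨C, hC, hpl⟩ := plateau
  refine ⟨u, hu, hr, ?_⟩
  have hμ : ∀ n : ℕ, ∀ i : Fin n, (fun j : Fin (n + 1) => -(j : ℝ)) i.succ <
      (fun j : Fin (n + 1) => -(j : ℝ)) i.castSucc := by
    intro n i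
    simp
  have hrel : ∀ (n : ℕ) (i : Fin n), rel (fun j : Fin (n + 1) => -(j : ℝ)) i = (i : ℝ) + 1 := by
    intro n i
    simp [rel]
  rw [Metric.tendsto_atTop]
  intro ε hε
  obtain ⟨k, hk⟩ := exists_nat_gt (C / ε + 1)
  have hk1 : (1 : ℝ) < k := by
    have : 0 < C / ε := by positivity
    linarith
  have hk0 : (0 : ℝ) < k := by linarith
  refine ⟨2 ^ (k ^ 2 + k), fun n hn => ?_⟩
  have h1n : 1 ≤ 2 ^ (k ^ 2 + k) := Nat.one_le_two_pow
  have hn0 : 0 < n := by omega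
  have : Nonempty (Fin n) := ⟨⟨0, hn0⟩⟩
  have hi : 2 ^ (k ^ 2 + k) - 1 < n := by omega
  have h0 : 0 ≤ ⨅ i : Fin n, gap u (rel (fun j : Fin (n + 1) => -(j : ℝ)) i) :=
    le_ciInf fun i => (gap_pos hu (rel_pos (hμ n) i)).le
  have h1 : (⨅ i : Fin n, gap u (rel (fun j : Fin (n + 1) => -(j : ℝ)) i)) ≤ C / (k : ℝ) ^ 2 := by
    refine (ciInf_le (Set.finite_range _).bddBelow (⟨2 ^ (k ^ 2 + k) - 1, hi⟩ : Fin n)).trans ?_
    have h2 : rel (fun j : Fin (n + 1) => -(j : ℝ)) (⟨2 ^ (k ^ 2 + k) - 1, hi⟩ : Fin n) =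
        ((2 ^ (k ^ 2 + k) : ℕ) : ℝ) := by
      rw [hrel]
      rw [Nat.cast_sub h1n]
      push_cast
      ring
    rw [h2]
    exact hpl u hu _ _ _ (by positivity) hk0 (hp k)
  have h3 : C / (k : ℝ) ^ 2 < ε := by
    rw [div_lt_iff₀ (by positivity)]
    have h4 : C < ε * k := by
      have : C / ε < k := by linarith
      rwa [div_lt_iff₀ hε, mul_comm] at this
    have h5 : ε * k ≤ ε * k ^ 2 := by
      have : (k : ℝ) ≤ k ^ 2 := by nlinarith
      nlinarith
    linarith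
  rw [Real.dist_eq, sub_zero, abs_of_nonneg h0]
  linarith

end Pool.Agent.SGP
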