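import Pool.Agent.SGP.DN1

/-!
# PO1: the Poincaré inequality with the constant `gap`

Proofs. The set defining `gap` is bounded below by `0`. `gap ≤ ∫ f'^2 / Var f` for every `C^1` function `f` with compact
support and `Var f > 0` (`csInf_le`); if `Var f = 0` the inequality is trivial (`Var f ≥ 0`, `∫ f'^2 ≥ 0`). With a constant:
`vr (f + c) = vr f` (`ν` is a probability measure, `f` integrable).
-/

open MeasureTheory ProbabilityTheory Set Filter Topology
open scoped ENNReal NNReal BoundedContinuousFunction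

namespace Pool.Agent.SGP

variable {u : ℝ → ℝ} {m : ℝ}

theorem vr_nonneg (ν : Measure ℝ) (f : ℝ → ℝ) : 0 ≤ vr ν f :=
  integral_nonneg fun _ => sq_nonneg _

theorem gap_nonneg (u : ℝ → ℝ) (m : ℝ) : 0 ≤ gap u m := by
  refine Real.sInf_nonneg ?_
  rintro r ⟨f, -, -, hv, rfl⟩
  exact div_nonneg (integral_nonneg fun x => sq_nonneg _) hv.le

theorem vr_add_const {ν : Measure ℝ} [IsProbabilityMeasure ν] {f : ℝ → ℝ} (hf : Integrable f ν) (c : ℝ) :
    vr ν (fun x => f x + c) = vr ν f := by
  unfold vr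
  have h : ∫ y, (f y + c) ∂ν = (∫ y, f y ∂ν) + c := by
    rw [integral_add hf (integrable_const c), integral_const]
    simp
  rw [h]
  refine integral_congr_ae (Filter.Eventually.of_forall fun x => ?_)
  ring

theorem vr_eq {ν : Measure ℝ} [IsProbabilityMeasure ν] {f : ℝ → ℝ} (hf : MemLp f 2 ν) :
    vr ν f = ∫ x, f x ^ 2 ∂ν - (∫ x, f x ∂ν) ^ 2 := by
  unfold vr
  set M := ∫ y, f y ∂ν with hM
  have h1 : Integrable f ν := hf.integrable (by norm_num)
  have h2 : Integrable (fun x => f x ^ 2) ν := hf.integrable_sq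
  have e : (fun x => (f x - M) ^ 2) = fun x => (f x ^ 2 - 2 * M * f x) + M ^ 2 := by
    funext x
    ring
  have e1 : ∫ x, (f x ^ 2 - 2 * M * f x) ∂ν = ∫ x, f x ^ 2 ∂ν - 2 * M * M := by
    rw [integral_sub h2 (h1.const_mul (2 * M)), integral_const_mul, ← hM]
  have i1 : Integrable (fun x => f x ^ 2 - 2 * M * f x) ν := h2.sub (h1.const_mul (2 * M))
  rw [e, integral_add i1 (integrable_const _), e1, integral_const]
  simp
  ring

theorem poincare (u : ℝ → ℝ) (m : ℝ) {f : ℝ → ℝ} (hf : ContDiff ℝ 1 f)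
    (hc : HasCompactSupport f) : gap u m * vr (nu u m) f ≤ ∫ x, deriv f x ^ 2 ∂(nu u m) := by
  rcases (vr_nonneg (nu u m) f).eq_or_lt with h | h
  · rw [← h, mul_zero]
    exact integral_nonneg fun x => sq_nonneg _
  · have hb : BddBelow {r | ∃ f : ℝ → ℝ, ContDiff ℝ 1 f ∧ HasCompactSupport f ∧ 0 < vr (nu u m) f ∧
        r = (∫ x, (deriv f x) ^ 2 ∂(nu u m)) / vr (nu u m) f} := by
      refine ⟨0, ?_⟩
      rintro r ⟨g, -, -, hv, rfl⟩
      exact div_nonneg (integral_nonneg fun x => sq_nonneg _) hv.le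
    have := csInf_le hb ⟨f, hf, hc, h, rfl⟩
    exact (le_div_iff₀ h).1 this

/-- version with a constant outside of a compact set -/
theorem poincare' (hu : Pot u) (hm : 0 < m) {f : ℝ → ℝ} (hf : ContDiff ℝ 1 f) {c R : ℝ}
    (hc : ∀ s, R ≤ |s| → f s = c) : gap u m * vr (nu u m) f ≤ ∫ x, deriv f x ^ 2 ∂(nu u m) := by
  have := nu_prob hu hm
  have g1 : ContDiff ℝ 1 fun x => f x - c := hf.sub contDiff_const
  have g2 : HasCompactSupport fun x => f x - c := by
    refine HasCompactSupport.intro (isCompact_closedBall (0 : ℝ) |R|) fun x hx => ?_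
    rw [Metric.mem_closedBall, dist_zero_right, Real.norm_eq_abs, not_le] at hx
    rw [hc x ((le_abs_self R).trans hx.le), sub_self]
  have h := poincare u m g1 g2
  have h3 : Integrable (fun x => f x - c) (nu u m) := g1.continuous.integrable_of_hasCompactSupport g2
  have h4 := vr_add_const h3 c
  have e1 : (fun x => f x - c + c) = f := by
    funext x
    ring
  rw [e1] at h4
  rw [h4]
  have e2 : deriv (fun x => f x - c) = deriv f := by
    funext x
    rw [deriv_sub_const]
  rwa [e2] at h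

end Pool.Agent.SGP
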