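import Pool.Agent.SGP.HL1
import Pool.Agent.SGP.PO1

/-!
# HDY: Hardy inequality far out, positivity of the gap

`ρ = dn u m`, `w = m - u`, `ρ' = -w ρ` (`dn_hasDerivAt`), `ρ → 0` at `±∞` (`den_right`, `den_left`).

Proofs. (`hardy`) right: `half_right` with `a = R`, `c = m/2`, `c' = 0`: `c w - c^2 = (m/2)(m - u) - m²/4 = m²/4 - (m/2) u ≥
m²/4 - ε` for `g ≥ R` (`u → 0`). Left: `half_left` with `a = -R`, `c = -m/2`: `c w - c^2 = (m/2)(u - m) - m²/4 ≥ m²/4` when
`u ≥ 2m` (`u → ∞` at `-∞`). On `[-R,R]`: `ψ = 0`. Add up (`ψ' ^2 ≥ 0`), `integral_nu`.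
(`gap_pos`) there is `κ > 0` with `κ ∫ (f - f 0)^2 dν ≤ ∫ f'^2 dν` for every `C^1` function `f` with compact support: right half:
`half_right` with `a = 0`, `ψ = f - f 0`, `c g = η (1 + exp (K (R' - g)))`, where `w ≥ m/2` for `g ≥ R`, `|w| ≤ W` on `[0, R]`,
`R' = R + 1`, `K = 2 W + 1`, `E = exp (K (R' - g))`, `E_max = exp (K R')`, `η` with `8 η E_max ≤ 1`, `8 η E_max ≤ m`:
for `0 ≤ g ≤ R` (`E ≥ 1`) `c w - c' - c² ≥ -W η (1 + E) + K η E - η² (1+E)² ≥ η E (K - 2 W) - 4 η² E² ≥ η E / 2 ≥ η/2`; for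
`g ≥ R` (`-c' ≥ 0`, `c ≤ 2 η E_max ≤ m/4`, `c ≥ η`) `c w - c' - c² ≥ c (m/2 - c) ≥ η m / 4`. Left half: the same with reflected
functions (`u - m ≥ m/2` for `g ≤ -R`), `c g = -η (1 + exp (K (R' + g)))`. Then `Var f ≤ ∫ (f - f 0)^2`, so `κ Var f ≤ ∫ f'^2`;
`gap ≥ κ` by `le_csInf`; the set is non-empty: a bump function has `Var > 0` (it is `1` near `0` and `0` far out, and `ν`
charges every non-empty open set).
-/

open MeasureTheory ProbabilityTheory Set Filter Topology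
open scoped ENNReal NNReal BoundedContinuousFunction

namespace Pool.Agent.SGP

variable {u : ℝ → ℝ} {m : ℝ}

theorem dn_tendsto_top (hu : Pot u) (hm : 0 < m) : Tendsto (dn u m) atTop (𝓝 0) := by
  obtain ⟨C, R, hC, hR, h⟩ := den_right hu hm
  have hZ := Zc_pos hu hm
  have h1 : Tendsto (fun g : ℝ => C * Real.exp (-(m / 2) * g) / Zc u m) atTop (𝓝 0) := by
    have h2 : Tendsto (fun g : ℝ => -(m / 2) * g) atTop atBot :=
      Tendsto.const_mul_atTop_of_neg (by linarith) tendsto_id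
    have h3 := ((Real.tendsto_exp_atBot.comp h2).const_mul C).div_const (Zc u m)
    simpa using h3
  refine squeeze_zero' (Eventually.of_forall fun g => (dn_pos hu hm g).le) ?_ h1
  filter_upwards [eventually_ge_atTop R] with g hg
  exact div_le_div_of_nonneg_right (h g hg) hZ.le

theorem dn_tendsto_bot (hu : Pot u) (hm : 0 < m) : Tendsto (dn u m) atBot (𝓝 0) := by
  obtain ⟨C, R, hC, hR, h⟩ := den_left hu m
  have hZ := Zc_pos hu hm
  have h1 : Tendsto (fun g : ℝ => C * Real.exp g / Zc u m) atBot (𝓝 0) := by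
    have h3 := (Real.tendsto_exp_atBot.const_mul C).div_const (Zc u m)
    simpa using h3
  refine squeeze_zero' (Eventually.of_forall fun g => (dn_pos hu hm g).le) ?_ h1
  filter_upwards [eventually_le_atBot (-R)] with g hg
  exact div_le_div_of_nonneg_right (h g hg) hZ.le

private theorem hdy_integrable (hu : Pot u) (hm : 0 < m) {ψ : ℝ → ℝ} (hψ : Continuous ψ)
    (hb : ∃ K, ∀ g, |ψ g| ≤ K) : Integrable fun g => ψ g ^ 2 * dn u m g := by
  obtain ⟨K, hK⟩ := hb
  refine Integrable.mono' ((dn_integrable hu hm).const_mul (K ^ 2))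
    ((hψ.pow 2).mul (dn_cont hu m)).aestronglyMeasurable (Eventually.of_forall fun g => ?_)
  have h1 := dn_pos hu hm g
  rw [Real.norm_eq_abs, abs_mul, abs_of_pos h1, abs_pow]
  exact mul_le_mul_of_nonneg_right (pow_le_pow_left₀ (abs_nonneg _) (hK g) 2) h1.le

theorem hardy (hu : Pot u) (hm : 0 < m) {ε : ℝ} (hε : 0 < ε) : ∃ R : ℝ, 0 < R ∧ ∀ ψ : ℝ → ℝ, ContDiff ℝ 1 ψ →
    (∃ K, ∀ g, |ψ g| ≤ K) → (∃ K, ∀ g, |deriv ψ g| ≤ K) → (∀ g, |g| ≤ R → ψ g = 0) →
    (m ^ 2 / 4 - ε) * ∫ g, ψ g ^ 2 ∂(nu u m) ≤ ∫ g, deriv ψ g ^ 2 ∂(nu u m) := by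
  have h1 := hu.top.eventually (ge_mem_nhds (show (0 : ℝ) < 2 * ε / m by positivity))
  obtain ⟨R0, hR0⟩ := eventually_atTop.mp h1
  obtain ⟨R1, hR1⟩ := eventually_atBot.mp (hu.bot.eventually (eventually_ge_atTop (2 * m)))
  set R : ℝ := max (max R0 (-R1)) 1 with hR
  have hRpos : 0 < R := lt_of_lt_of_le one_pos (le_max_right _ _)
  have hRR0 : R0 ≤ R := (le_max_left _ _).trans (le_max_left _ _)
  have hRR1 : -R1 ≤ R := (le_max_right _ _).trans (le_max_left _ _)
  have hwc : Continuous fun g => m - u g := continuous_const.sub hu.lip.continuous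
  refine ⟨R, hRpos, fun ψ hψ hb hb' h0 => ?_⟩
  have hr := half_right (ρ := dn u m) (w := fun g => m - u g) (c := fun _ => m / 2) (c' := fun _ => 0)
    (a := R) (κ := m ^ 2 / 4 - ε) (dn_hasDerivAt hu m) (dn_pos hu hm) hwc (fun g => hasDerivAt_const g _)
    continuous_const ⟨|m / 2|, fun g _ => le_refl _⟩ (fun g hg => by
      have h2 : u g ≤ 2 * ε / m := hR0 g (hRR0.trans hg)
      have h3 : m * u g ≤ 2 * ε := by
        have h4 := mul_le_mul_of_nonneg_left h2 hm.le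
        rwa [mul_div_cancel₀ _ hm.ne'] at h4
      show m ^ 2 / 4 - ε ≤ m / 2 * (m - u g) - 0 - (m / 2) ^ 2
      nlinarith) (dn_integrable hu hm).integrableOn (dn_tendsto_top hu hm) hψ hb hb'
    (h0 R (by rw [abs_of_pos hRpos]))
  have hl := half_left (ρ := dn u m) (w := fun g => m - u g) (c := fun _ => -(m / 2)) (c' := fun _ => 0)
    (a := -R) (κ := m ^ 2 / 4 - ε) (dn_hasDerivAt hu m) (dn_pos hu hm) hwc (fun g => hasDerivAt_const g _)
    continuous_const ⟨|-(m / 2)|, fun g _ => le_refl _⟩ (fun g hg => by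
      have h2 : 2 * m ≤ u g := hR1 g (by linarith)
      show m ^ 2 / 4 - ε ≤ -(m / 2) * (m - u g) - 0 - (-(m / 2)) ^ 2
      nlinarith) (dn_integrable hu hm).integrableOn (dn_tendsto_bot hu hm) hψ hb hb'
    (h0 (-R) (by rw [abs_neg, abs_of_pos hRpos]))
  have hF : Integrable fun g => ψ g ^ 2 * dn u m g := hdy_integrable hu hm hψ.continuous hb
  have hG : Integrable fun g => deriv ψ g ^ 2 * dn u m g :=
    hdy_integrable hu hm (hψ.continuous_deriv le_rfl) hb'
  rw [integral_nu hu hm, integral_nu hu hm]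
  have e1 : ∫ g, ψ g ^ 2 * dn u m g = (∫ g in Iic (-R), ψ g ^ 2 * dn u m g) +
      ∫ g in Ioi R, ψ g ^ 2 * dn u m g := by
    rw [← intervalIntegral.integral_Iic_add_Ioi (b := -R) hF.integrableOn hF.integrableOn]
    congr 1
    refine setIntegral_eq_of_subset_of_forall_sdiff_eq_zero measurableSet_Ioi
      (Ioi_subset_Ioi (by linarith)) fun g hg => ?_
    have h2 : ψ g = 0 := h0 g (abs_le.mpr ⟨(mem_Ioi.mp hg.1).le, not_lt.mp fun h => hg.2 h⟩)
    rw [h2]
    ring
  have e2 : (∫ g in Iic (-R), deriv ψ g ^ 2 * dn u m g) + ∫ g in Ioi R, deriv ψ g ^ 2 * dn u m g ≤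
      ∫ g, deriv ψ g ^ 2 * dn u m g := by
    rw [← intervalIntegral.integral_Iic_add_Ioi (b := -R) hG.integrableOn hG.integrableOn]
    refine add_le_add (le_refl _) ?_
    refine setIntegral_mono_set hG.integrableOn (Eventually.of_forall fun g =>
      mul_nonneg (sq_nonneg _) (dn_pos hu hm g).le) ?_
    exact (Ioi_subset_Ioi (by linarith)).eventuallyLE
  rw [e1, mul_add]
  linarith

theorem gap_set_nonempty (hu : Pot u) (hm : 0 < m) : {r | ∃ f : ℝ → ℝ, ContDiff ℝ 1 f ∧ HasCompactSupport f ∧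
    0 < vr (nu u m) f ∧ r = (∫ x, (deriv f x) ^ 2 ∂(nu u m)) / vr (nu u m) f}.Nonempty := by
  let b : ContDiffBump (0 : ℝ) := ⟨1, 2, one_pos, one_lt_two⟩
  have hb1 : ContDiff ℝ 1 (b : ℝ → ℝ) := b.contDiff
  have hb2 : HasCompactSupport (b : ℝ → ℝ) := b.hasCompactSupport
  refine ⟨_, b, hb1, hb2, ?_, rfl⟩
  unfold vr
  set M := ∫ y, b y ∂(nu u m) with hM
  rw [integral_nu hu hm]
  have hbc : Continuous fun g => b g - M := hb1.continuous.sub continuous_const
  have hint : Integrable fun g => (b g - M) ^ 2 * dn u m g :=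
    hdy_integrable hu hm hbc ⟨1 + |M|, fun g => by
      have h1 := abs_sub (b g) M
      have h2 : |b g| ≤ 1 := abs_le.mpr ⟨by linarith [b.nonneg (x := g)], b.le_one⟩
      linarith⟩
  rw [integral_pos_iff_support_of_nonneg
    (fun g => mul_nonneg (sq_nonneg _) (dn_pos hu hm g).le) hint]
  have hopen : IsOpen {g : ℝ | b g - M ≠ 0} := isOpen_ne_fun hbc continuous_const
  have hne : {g : ℝ | b g - M ≠ 0}.Nonempty := by
    by_contra hcon
    rw [not_nonempty_iff_eq_empty, Set.eq_empty_iff_forall_notMem] at hcon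
    have h0 : b 0 - M = 0 := by
      by_contra h
      exact hcon 0 h
    have h3 : b 3 - M = 0 := by
      by_contra h
      exact hcon 3 h
    have e0 : b 0 = 1 := b.one_of_mem_closedBall (by simp [b])
    have e3 : b 3 = 0 := b.zero_of_le_dist (by
      show (2 : ℝ) ≤ dist (3 : ℝ) 0
      rw [dist_zero_right, Real.norm_eq_abs]
      norm_num)
    linarith
  refine lt_of_lt_of_le (hopen.measure_pos volume hne) (measure_mono fun g hg => ?_)
  exact mul_ne_zero (pow_ne_zero 2 hg) (dn_pos hu hm g).ne'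

private theorem hdy_scal1 {η K W E M v : ℝ} (hη : 0 < η) (hK : K = 2 * W + 1) (hE : 1 ≤ E) (hEM : E ≤ M)
    (hv : -W ≤ v) (hW : 0 ≤ W) (h : 8 * η * M ≤ 1) :
    η / 2 ≤ η * (1 + E) * v + K * (η * E) - (η * (1 + E)) ^ 2 := by
  subst hK
  have h1 : 8 * η * E ≤ 1 := le_trans (mul_le_mul_of_nonneg_left hEM (by positivity)) h
  have h2 : η * (1 + E) * (-W) ≤ η * (1 + E) * v := mul_le_mul_of_nonneg_left hv (by positivity)
  have h3 : η * (1 + E) * W ≤ 2 * W * (η * E) := by nlinarith [mul_nonneg hη.le hW]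
  have h4 : (η * (1 + E)) ^ 2 ≤ (2 * (η * E)) ^ 2 := by
    apply pow_le_pow_left₀ (by positivity)
    nlinarith
  have h5 : (2 * (η * E)) ^ 2 ≤ η * E / 2 := by nlinarith [mul_pos hη (lt_of_lt_of_le one_pos hE)]
  have h6 : η ≤ η * E := by nlinarith
  nlinarith

private theorem hdy_scal2 {η K E v m : ℝ} (hη : 0 < η) (hK : 0 ≤ K) (hE : 0 < E) (hE1 : E ≤ 1)
    (hv : m / 2 ≤ v) (hm : 0 < m) (h : 8 * η ≤ m) :
    η * m / 4 ≤ η * (1 + E) * v + K * (η * E) - (η * (1 + E)) ^ 2 := by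
  have h1 : 0 ≤ K * (η * E) := by positivity
  have h2 : η * (1 + E) * (m / 2) ≤ η * (1 + E) * v := mul_le_mul_of_nonneg_left hv (by positivity)
  have h3 : η * (1 + E) ≤ m / 4 := by nlinarith
  have h4 : (η * (1 + E)) ^ 2 ≤ η * (1 + E) * (m / 4) := by
    rw [sq]
    exact mul_le_mul_of_nonneg_left h3 (by positivity)
  have h5 : η * (m / 4) ≤ η * (1 + E) * (m / 4) := by nlinarith [mul_pos (mul_pos hη hE) hm]
  nlinarith

private theorem hdy_right (hu : Pot u) (hm : 0 < m) : ∃ κ : ℝ, 0 < κ ∧ ∀ ψ : ℝ → ℝ, ContDiff ℝ 1 ψ →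
    (∃ K, ∀ g, |ψ g| ≤ K) → (∃ K, ∀ g, |deriv ψ g| ≤ K) → ψ 0 = 0 →
    κ * ∫ g in Ioi 0, ψ g ^ 2 * dn u m g ≤ ∫ g in Ioi 0, deriv ψ g ^ 2 * dn u m g := by
  have h1 := hu.top.eventually (ge_mem_nhds (show (0 : ℝ) < m / 2 by positivity))
  obtain ⟨R0, hR0⟩ := eventually_atTop.mp h1
  set R : ℝ := max R0 1 with hR
  have hRpos : 0 < R := lt_of_lt_of_le one_pos (le_max_right _ _)
  have hwc : Continuous fun g => m - u g := continuous_const.sub hu.lip.continuous
  obtain ⟨W, hW⟩ := (isCompact_Icc (a := (0 : ℝ)) (b := R)).exists_bound_of_continuousOn hwc.continuousOn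
  have hW0 : 0 ≤ W := (norm_nonneg _).trans (hW 0 ⟨le_refl _, hRpos.le⟩)
  set K : ℝ := 2 * W + 1 with hK
  have hKpos : 0 < K := by linarith
  set M : ℝ := Real.exp (K * R) with hM
  have hM1 : 1 ≤ M := Real.one_le_exp (by positivity)
  have hM0 : 0 < M := by linarith
  set η : ℝ := min (1 / (8 * M)) (m / 8) with hη
  have hη0 : 0 < η := lt_min (by positivity) (by positivity)
  have hη1 : 8 * η * M ≤ 1 := by
    have h2 : η ≤ 1 / (8 * M) := min_le_left _ _
    rw [le_div_iff₀ (by positivity)] at h2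
    linarith
  have hη2 : 8 * η ≤ m := by
    have h2 : η ≤ m / 8 := min_le_right _ _
    linarith
  refine ⟨min (η / 2) (η * m / 4), lt_min (by positivity) (by positivity), fun ψ hψ hb hb' h0 => ?_⟩
  refine half_right (ρ := dn u m) (w := fun g => m - u g)
    (c := fun g => η * (1 + Real.exp (K * (R - g)))) (c' := fun g => -(K * (η * Real.exp (K * (R - g)))))
    (dn_hasDerivAt hu m) (dn_pos hu hm) hwc (fun g => ?_) ?_ ⟨η * (1 + M), fun g hg => ?_⟩ (fun g hg => ?_)
    (dn_integrable hu hm).integrableOn (dn_tendsto_top hu hm) hψ hb hb' h0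
  · have h2 : HasDerivAt (fun g : ℝ => K * (R - g)) (-K) g := by
      have := ((hasDerivAt_id g).const_sub R).const_mul K
      simpa using this
    have h3 := (h2.exp.const_add 1).const_mul η
    refine h3.congr_deriv ?_
    ring
  · fun_prop
  · have h2 : Real.exp (K * (R - g)) ≤ M := Real.exp_le_exp.mpr (by nlinarith)
    have h3 := Real.exp_pos (K * (R - g))
    rw [abs_of_pos (by positivity)]
    exact mul_le_mul_of_nonneg_left (by linarith) hη0.le
  · show min (η / 2) (η * m / 4) ≤ η * (1 + Real.exp (K * (R - g))) * (m - u g) -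
      -(K * (η * Real.exp (K * (R - g)))) - (η * (1 + Real.exp (K * (R - g)))) ^ 2
    rw [sub_neg_eq_add]
    rcases le_total g R with hgR | hgR
    · refine (min_le_left _ _).trans ?_
      have h2 : 1 ≤ Real.exp (K * (R - g)) := Real.one_le_exp (mul_nonneg hKpos.le (by linarith))
      have h3 : Real.exp (K * (R - g)) ≤ M := Real.exp_le_exp.mpr (by nlinarith)
      have h4 := hW g ⟨hg, hgR⟩
      rw [Real.norm_eq_abs] at h4
      exact hdy_scal1 hη0 rfl h2 h3 (abs_le.mp h4).1 hW0 hη1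
    · refine (min_le_right _ _).trans ?_
      have h2 : Real.exp (K * (R - g)) ≤ 1 := Real.exp_le_one_iff.mpr (by nlinarith)
      have h4 : u g ≤ m / 2 := hR0 g ((le_max_left _ _).trans hgR)
      exact hdy_scal2 hη0 hKpos.le (Real.exp_pos _) h2 (by linarith) hm hη2

private theorem hdy_left (hu : Pot u) (hm : 0 < m) : ∃ κ : ℝ, 0 < κ ∧ ∀ ψ : ℝ → ℝ, ContDiff ℝ 1 ψ →
    (∃ K, ∀ g, |ψ g| ≤ K) → (∃ K, ∀ g, |deriv ψ g| ≤ K) → ψ 0 = 0 →
    κ * ∫ g in Iic 0, ψ g ^ 2 * dn u m g ≤ ∫ g in Iic 0, deriv ψ g ^ 2 * dn u m g := by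
  obtain ⟨R0, hR0⟩ := eventually_atBot.mp (hu.bot.eventually (eventually_ge_atTop (3 * m / 2)))
  set R : ℝ := max (-R0) 1 with hR
  have hRpos : 0 < R := lt_of_lt_of_le one_pos (le_max_right _ _)
  have hwc : Continuous fun g => m - u g := continuous_const.sub hu.lip.continuous
  obtain ⟨W, hW⟩ := (isCompact_Icc (a := -R) (b := (0 : ℝ))).exists_bound_of_continuousOn hwc.continuousOn
  have hW0 : 0 ≤ W := (norm_nonneg _).trans (hW 0 ⟨by linarith, le_refl _⟩)
  set K : ℝ := 2 * W + 1 with hK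
  have hKpos : 0 < K := by linarith
  set M : ℝ := Real.exp (K * R) with hM
  have hM1 : 1 ≤ M := Real.one_le_exp (by positivity)
  have hM0 : 0 < M := by linarith
  set η : ℝ := min (1 / (8 * M)) (m / 8) with hη
  have hη0 : 0 < η := lt_min (by positivity) (by positivity)
  have hη1 : 8 * η * M ≤ 1 := by
    have h2 : η ≤ 1 / (8 * M) := min_le_left _ _
    rw [le_div_iff₀ (by positivity)] at h2
    linarith
  have hη2 : 8 * η ≤ m := by
    have h2 : η ≤ m / 8 := min_le_right _ _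
    linarith
  refine ⟨min (η / 2) (η * m / 4), lt_min (by positivity) (by positivity), fun ψ hψ hb hb' h0 => ?_⟩
  refine half_left (ρ := dn u m) (w := fun g => m - u g)
    (c := fun g => -(η * (1 + Real.exp (K * (R + g))))) (c' := fun g => -(K * (η * Real.exp (K * (R + g)))))
    (dn_hasDerivAt hu m) (dn_pos hu hm) hwc (fun g => ?_) ?_ ⟨η * (1 + M), fun g hg => ?_⟩ (fun g hg => ?_)
    (dn_integrable hu hm).integrableOn (dn_tendsto_bot hu hm) hψ hb hb' h0
  · have h2 : HasDerivAt (fun g : ℝ => K * (R + g)) K g := by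
      have := ((hasDerivAt_id g).const_add R).const_mul K
      simpa using this
    have h3 := ((h2.exp.const_add 1).const_mul η).neg
    refine h3.congr_deriv ?_
    ring
  · fun_prop
  · have h2 : Real.exp (K * (R + g)) ≤ M := Real.exp_le_exp.mpr (by nlinarith)
    have h3 := Real.exp_pos (K * (R + g))
    rw [abs_neg, abs_of_pos (by positivity)]
    exact mul_le_mul_of_nonneg_left (by linarith) hη0.le
  · show min (η / 2) (η * m / 4) ≤ -(η * (1 + Real.exp (K * (R + g)))) * (m - u g) -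
      -(K * (η * Real.exp (K * (R + g)))) - (-(η * (1 + Real.exp (K * (R + g))))) ^ 2
    have e : -(η * (1 + Real.exp (K * (R + g)))) * (m - u g) -
      -(K * (η * Real.exp (K * (R + g)))) - (-(η * (1 + Real.exp (K * (R + g))))) ^ 2 =
      η * (1 + Real.exp (K * (R + g))) * (-(m - u g)) +
      K * (η * Real.exp (K * (R + g))) - (η * (1 + Real.exp (K * (R + g)))) ^ 2 := by ring
    rw [e]
    rcases le_total (-R) g with hgR | hgR
    · refine (min_le_left _ _).trans ?_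
      have h2 : 1 ≤ Real.exp (K * (R + g)) := Real.one_le_exp (mul_nonneg hKpos.le (by linarith))
      have h3 : Real.exp (K * (R + g)) ≤ M := Real.exp_le_exp.mpr (by nlinarith)
      have h4 := hW g ⟨hgR, hg⟩
      rw [Real.norm_eq_abs] at h4
      have h5 := (abs_le.mp h4).2
      exact hdy_scal1 hη0 rfl h2 h3 (by linarith) hW0 hη1
    · refine (min_le_right _ _).trans ?_
      have h2 : Real.exp (K * (R + g)) ≤ 1 := Real.exp_le_one_iff.mpr (by nlinarith)
      have h4 : 3 * m / 2 ≤ u g := hR0 g (by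
        have := le_max_left (-R0) 1
        linarith)
      exact hdy_scal2 hη0 hKpos.le (Real.exp_pos _) h2 (by linarith) hm hη2

theorem gap_pos (hu : Pot u) (hm : 0 < m) : 0 < gap u m := by
  obtain ⟨κ1, hκ1, h1⟩ := hdy_right hu hm
  obtain ⟨κ2, hκ2, h2⟩ := hdy_left hu hm
  have hprob := nu_prob hu hm
  refine lt_of_lt_of_le (lt_min hκ1 hκ2) (le_csInf (gap_set_nonempty hu hm) ?_)
  rintro r ⟨f, hf, hc, hv, rfl⟩
  rw [le_div_iff₀ hv]
  have hfc : Continuous f := hf.continuous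
  obtain ⟨C, hC⟩ := hc.exists_bound_of_continuous hfc
  have hd : Continuous (deriv f) := hf.continuous_deriv le_rfl
  obtain ⟨C', hC'⟩ := hc.deriv.exists_bound_of_continuous hd
  set ψ : ℝ → ℝ := fun g => f g + -f 0 with hψdef
  have hψ : ContDiff ℝ 1 ψ := hf.add contDiff_const
  have hψd : deriv ψ = deriv f := by
    funext g
    rw [hψdef, deriv_add_const]
  have hb : ∃ K, ∀ g, |ψ g| ≤ K := ⟨C + C, fun g => by
    have h3 := hC g
    have h4 := hC 0
    rw [Real.norm_eq_abs] at h3 h4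
    have h5 := abs_add_le (f g) (-f 0)
    rw [abs_neg] at h5
    show |f g + -f 0| ≤ C + C
    linarith⟩
  have hb' : ∃ K, ∀ g, |deriv ψ g| ≤ K := ⟨C', fun g => by
    rw [hψd]
    exact hC' g⟩
  have h0 : ψ 0 = 0 := by
    show f 0 + -f 0 = 0
    ring
  have hR := h1 ψ hψ hb hb' h0
  have hL := h2 ψ hψ hb hb' h0
  have hfi : Integrable f (nu u m) := hfc.integrable_of_hasCompactSupport hc
  obtain ⟨Kb, hKb⟩ := hb
  have hmem : MemLp ψ 2 (nu u m) := MemLp.of_bound hψ.continuous.aestronglyMeasurable Kb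
    (Eventually.of_forall fun g => hKb g)
  have hvr : vr (nu u m) f ≤ ∫ g, ψ g ^ 2 ∂(nu u m) := by
    rw [← vr_add_const hfi (-f 0), vr_eq hmem]
    have := sq_nonneg (∫ x, ψ x ∂(nu u m))
    linarith
  have hF : Integrable fun g => ψ g ^ 2 * dn u m g := hdy_integrable hu hm hψ.continuous ⟨Kb, hKb⟩
  have hG : Integrable fun g => deriv ψ g ^ 2 * dn u m g :=
    hdy_integrable hu hm (hψ.continuous_deriv le_rfl) hb'
  have hmin0 : 0 < min κ1 κ2 := lt_min hκ1 hκ2
  have hA : 0 ≤ ∫ g in Ioi 0, ψ g ^ 2 * dn u m g := setIntegral_nonneg measurableSet_Ioi fun g _ =>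
    mul_nonneg (sq_nonneg _) (dn_pos hu hm g).le
  have hB : 0 ≤ ∫ g in Iic 0, ψ g ^ 2 * dn u m g := setIntegral_nonneg measurableSet_Iic fun g _ =>
    mul_nonneg (sq_nonneg _) (dn_pos hu hm g).le
  calc min κ1 κ2 * vr (nu u m) f ≤ min κ1 κ2 * ∫ g, ψ g ^ 2 ∂(nu u m) :=
        mul_le_mul_of_nonneg_left hvr hmin0.le
    _ = min κ1 κ2 * ((∫ g in Iic 0, ψ g ^ 2 * dn u m g) + ∫ g in Ioi 0, ψ g ^ 2 * dn u m g) := by
        rw [integral_nu hu hm, intervalIntegral.integral_Iic_add_Ioi hF.integrableOn hF.integrableOn]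
    _ ≤ κ2 * (∫ g in Iic 0, ψ g ^ 2 * dn u m g) + κ1 * ∫ g in Ioi 0, ψ g ^ 2 * dn u m g := by
        rw [mul_add]
        exact add_le_add (mul_le_mul_of_nonneg_right (min_le_right _ _) hB)
          (mul_le_mul_of_nonneg_right (min_le_left _ _) hA)
    _ ≤ (∫ g in Iic 0, deriv ψ g ^ 2 * dn u m g) + ∫ g in Ioi 0, deriv ψ g ^ 2 * dn u m g := add_le_add hL hR
    _ = ∫ x, deriv f x ^ 2 ∂(nu u m) := by
        rw [intervalIntegral.integral_Iic_add_Ioi hG.integrableOn hG.integrableOn, integral_nu hu hm, hψd]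

end Pool.Agent.SGP
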