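import Pool.Agent.SGP.GLE
import Pool.Agent.SGP.HDY

/-!
# OYV: lower bound for the gap, and the gap for `u y = a exp (-b y)`

(`gap_ge_exp`) if `u y * exp (θ y)` is antitone, `0 < θ < m`, then `θ (m - θ) ≤ gap u m`: choose `x0` with `u x0 = m - θ`,
`k y = exp (θ y) - exp (θ x0)`, `c = k' / k`; then `c w - c' - c ^ 2 = θ exp (θ y) (m - θ - u y) / k y ≥ θ (m - θ)` on both sides
of `x0`. (`gap_oy`) for `u y = a exp (-b y)` the gap is `m ^ 2 / 4` if `m ≤ 2 b` (`θ = m / 2` and `gap_le`) and `b (m - b)` if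
`m > 2 b` (`θ = b`; the upper bound by the eigenfunction `exp (b y) - a / (m - b)` cut off far out; its moments are quotients of
normalising constants: `a Zc (m + b) = m Zc m`).
-/

open MeasureTheory ProbabilityTheory Set Filter Topology
open scoped ENNReal NNReal BoundedContinuousFunction

namespace Pool.Agent.SGP

variable {u : ℝ → ℝ} {m : ℝ}

/-- Hardy inequality on a half-line, `c` may have a pole at the end point -/
theorem half_right_pole {ρ w c c' : ℝ → ℝ} {a κ : ℝ} (hρ : ∀ g, HasDerivAt ρ (-(w g) * ρ g) g)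
    (hpos : ∀ g, 0 < ρ g) (hc : ∀ g, a < g → HasDerivAt c (c' g) g) {K₀ M₀ : ℝ}
    (hcb : ∀ g, a + 1 ≤ g → |c g| ≤ K₀) (hcp : ∀ g, a < g → g < a + 1 → |c g| * (g - a) ≤ M₀)
    (hκ : ∀ g, a < g → κ ≤ c g * w g - c' g - c g ^ 2)
    (hint : IntegrableOn ρ (Ioi a)) (hlim : Tendsto ρ atTop (𝓝 0)) {ψ : ℝ → ℝ} (hψ : ContDiff ℝ 1 ψ)
    (hb : ∃ K, ∀ g, |ψ g| ≤ K) (hb' : ∃ K, ∀ g, |deriv ψ g| ≤ K) (h0 : ψ a = 0) :
    κ * ∫ g in Ioi a, ψ g ^ 2 * ρ g ≤ ∫ g in Ioi a, deriv ψ g ^ 2 * ρ g := by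
  have hρc : Continuous ρ := continuous_iff_continuousAt.mpr fun g => (hρ g).continuousAt
  obtain ⟨i1, i2, i3⟩ := half_int (κ := κ) hint hψ hb hb'
  have h3 : Continuous (deriv ψ) := hψ.continuous_deriv le_rfl
  have h4 : Continuous ψ := hψ.continuous
  have hDc : Continuous fun g => (deriv ψ g ^ 2 - κ * ψ g ^ 2) * ρ g := by
    fun_prop
  set D : ℝ → ℝ := fun g => (deriv ψ g ^ 2 - κ * ψ g ^ 2) * ρ g with hD
  set F : ℝ → ℝ := fun g => c g * ψ g ^ 2 * ρ g with hFdef
  obtain ⟨K', hK'⟩ := hb'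
  have hK'0 : 0 ≤ K' := (abs_nonneg _).trans (hK' 0)
  -- behaviour at the pole
  have hpole : Tendsto F (𝓝[>] a) (𝓝 0) := by
    have t1 : Tendsto (fun g => |M₀| * K' ^ 2 * (g - a) * ρ g) (𝓝[>] a) (𝓝 0) := by
      have t2 : Continuous fun g => |M₀| * K' ^ 2 * (g - a) * ρ g := by fun_prop
      have t3 := t2.tendsto a
      simp only [sub_self, mul_zero, zero_mul] at t3
      exact t3.mono_left nhdsWithin_le_nhds
    refine squeeze_zero_norm' ?_ t1
    have hI : Ioo a (a + 1) ∈ 𝓝[>] a := Ioo_mem_nhdsGT (by linarith)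
    filter_upwards [hI] with g hg
    have hga : 0 < g - a := by linarith [hg.1]
    have e1 : |ψ g| ≤ K' * (g - a) := by
      have e2 := Convex.norm_image_sub_le_of_norm_deriv_le (f := ψ) (s := univ) (x := a) (y := g) (C := K')
        (fun x _ => hψ.differentiable one_ne_zero x) (fun x _ => hK' x) convex_univ (mem_univ _) (mem_univ _)
      rw [h0, sub_zero, Real.norm_eq_abs, Real.norm_eq_abs, abs_of_pos hga] at e2
      exact e2
    have e3 : |c g| * (g - a) ≤ |M₀| := (hcp g hg.1 hg.2).trans (le_abs_self _)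
    have e4 : |ψ g| ^ 2 ≤ (K' * (g - a)) ^ 2 := pow_le_pow_left₀ (abs_nonneg _) e1 2
    rw [Real.norm_eq_abs, hFdef]
    show |c g * ψ g ^ 2 * ρ g| ≤ _
    rw [abs_mul, abs_mul, abs_pow, abs_of_pos (hpos g)]
    refine mul_le_mul_of_nonneg_right ?_ (hpos g).le
    calc |c g| * |ψ g| ^ 2 ≤ |c g| * (K' * (g - a)) ^ 2 := mul_le_mul_of_nonneg_left e4 (abs_nonneg _)
      _ = (|c g| * (g - a)) * (K' ^ 2 * (g - a)) := by ring
      _ ≤ |M₀| * (K' ^ 2 * (g - a)) := mul_le_mul_of_nonneg_right e3 (by positivity)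
      _ = |M₀| * K' ^ 2 * (g - a) := by ring
  -- the difference is monotone
  have hFd : ∀ g, a < g → HasDerivAt F
      ((c' g * ψ g ^ 2 + c g * (2 * ψ g * deriv ψ g)) * ρ g + c g * ψ g ^ 2 * (-(w g) * ρ g)) g := by
    intro g hg
    have h1 : HasDerivAt ψ (deriv ψ g) g := (hψ.differentiable one_ne_zero g).hasDerivAt
    have h2 : HasDerivAt (fun g => ψ g ^ 2) (2 * ψ g * deriv ψ g) g := by
      have h3 := h1.fun_pow 2
      have e : ((2 : ℕ) : ℝ) * ψ g ^ (2 - 1) * deriv ψ g = 2 * ψ g * deriv ψ g := by norm_num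
      rw [e] at h3
      exact h3
    exact ((hc g hg).mul h2).mul (hρ g)
  have hHd : ∀ g, a < g → HasDerivAt (fun y => (∫ s in a..y, D s) - F y)
      (D g - ((c' g * ψ g ^ 2 + c g * (2 * ψ g * deriv ψ g)) * ρ g + c g * ψ g ^ 2 * (-(w g) * ρ g))) g := by
    intro g hg
    exact (intervalIntegral.integral_hasDerivAt_right (hDc.intervalIntegrable a g)
      hDc.stronglyMeasurable.stronglyMeasurableAtFilter hDc.continuousAt).sub (hFd g hg)
  have hmono : MonotoneOn (fun y => (∫ s in a..y, D s) - F y) (Ioi a) := by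
    refine monotoneOn_of_deriv_nonneg (convex_Ioi a) (fun g hg => (hHd g hg).continuousAt.continuousWithinAt)
      (fun g hg => ?_) (fun g hg => ?_)
    · rw [interior_Ioi] at hg
      exact (hHd g hg).differentiableAt.differentiableWithinAt
    · rw [interior_Ioi] at hg
      rw [(hHd g hg).deriv]
      have := half_pt (r := ρ g) (w := w g) (c := c g) (c' := c' g) (p := ψ g) (q := deriv ψ g) (hpos g) (hκ g hg)
      show 0 ≤ (deriv ψ g ^ 2 - κ * ψ g ^ 2) * ρ g - _
      linarith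
  have hprim : Tendsto (fun y => ∫ s in a..y, D s) (𝓝[>] a) (𝓝 0) := by
    have t1 : ContinuousAt (fun y => ∫ s in a..y, D s) a :=
      (intervalIntegral.integral_hasDerivAt_right (hDc.intervalIntegrable a a)
        hDc.stronglyMeasurable.stronglyMeasurableAtFilter hDc.continuousAt).continuousAt
    have t2 : Tendsto (fun y => ∫ s in a..y, D s) (𝓝 a) (𝓝 (∫ s in a..a, D s)) := t1
    rw [intervalIntegral.integral_same] at t2
    exact t2.mono_left nhdsWithin_le_nhds
  have hle : ∀ b, a < b → F b ≤ ∫ g in a..b, D g := by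
    intro b hab
    have t1 : Tendsto (fun y => (∫ s in a..y, D s) - F y) (𝓝[>] a) (𝓝 (0 - 0)) := hprim.sub hpole
    rw [sub_zero] at t1
    have t2 : ∀ᶠ y in 𝓝[>] a, (∫ s in a..y, D s) - F y ≤ (∫ s in a..b, D s) - F b := by
      have hI : Ioo a b ∈ 𝓝[>] a := Ioo_mem_nhdsGT hab
      filter_upwards [hI] with y hy
      exact hmono hy.1 hab hy.2.le
    have t3 := le_of_tendsto t1 t2
    linarith
  have hL := half_lim (c := c) hpos (l := atTop) (K := K₀) (eventually_atTop.mpr ⟨a + 1, hcb⟩) hlim hb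
  have hT := intervalIntegral_tendsto_integral_Ioi a i3 tendsto_id
  have h := le_of_tendsto_of_tendsto hL hT (eventually_atTop.mpr ⟨a + 1, fun b hb => hle b (by linarith)⟩)
  have e : ∫ g in Ioi a, (deriv ψ g ^ 2 - κ * ψ g ^ 2) * ρ g =
      (∫ g in Ioi a, deriv ψ g ^ 2 * ρ g) - κ * ∫ g in Ioi a, ψ g ^ 2 * ρ g := by
    rw [← integral_const_mul, ← integral_sub i2 (i1.const_mul κ)]
    refine integral_congr_ae (Eventually.of_forall fun g => ?_)
    show _ = _
    ring
  rw [e] at h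
  linarith

theorem half_left_pole {ρ w c c' : ℝ → ℝ} {a κ : ℝ} (hρ : ∀ g, HasDerivAt ρ (-(w g) * ρ g) g)
    (hpos : ∀ g, 0 < ρ g) (hc : ∀ g, g < a → HasDerivAt c (c' g) g) {K₀ M₀ : ℝ}
    (hcb : ∀ g, g ≤ a - 1 → |c g| ≤ K₀) (hcp : ∀ g, g < a → a - 1 < g → |c g| * (a - g) ≤ M₀)
    (hκ : ∀ g, g < a → κ ≤ c g * w g - c' g - c g ^ 2)
    (hint : IntegrableOn ρ (Iic a)) (hlim : Tendsto ρ atBot (𝓝 0)) {ψ : ℝ → ℝ} (hψ : ContDiff ℝ 1 ψ)
    (hb : ∃ K, ∀ g, |ψ g| ≤ K) (hb' : ∃ K, ∀ g, |deriv ψ g| ≤ K) (h0 : ψ a = 0) :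
    κ * ∫ g in Iic a, ψ g ^ 2 * ρ g ≤ ∫ g in Iic a, deriv ψ g ^ 2 * ρ g := by
  have hneg : ∀ g : ℝ, HasDerivAt (fun y : ℝ => -y) (-1) g := fun g => (hasDerivAt_id g).neg
  have hd : ∀ g, deriv (fun y => ψ (-y)) g = -deriv ψ (-g) := fun g => deriv_comp_neg ψ g
  obtain ⟨K, hK⟩ := hb
  obtain ⟨K', hK'⟩ := hb'
  have key := half_right_pole (ρ := fun g => ρ (-g)) (w := fun g => -(w (-g))) (c := fun g => -(c (-g)))
    (c' := fun g => c' (-g)) (a := -a) (κ := κ) (K₀ := K₀) (M₀ := M₀) (ψ := fun g => ψ (-g))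
    (fun g => by
      have h1 := (hρ (-g)).comp g (hneg g)
      refine h1.congr_deriv ?_
      ring) (fun g => hpos _) (fun g hg => by
      have h1 := ((hc (-g) (by linarith)).comp g (hneg g)).neg
      refine h1.congr_deriv ?_
      ring) (fun g hg => by
      rw [abs_neg]
      exact hcb (-g) (by linarith)) (fun g hg1 hg2 => by
      rw [abs_neg]
      have h1 := hcp (-g) (by linarith) (by linarith)
      have e : g - -a = a - -g := by ring
      rw [e]
      exact h1) (fun g hg => by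
      have h1 := hκ (-g) (by linarith)
      have e : -(c (-g)) * -(w (-g)) - c' (-g) - (-(c (-g))) ^ 2 = c (-g) * w (-g) - c' (-g) - c (-g) ^ 2 := by
        ring
      rw [e]
      exact h1) (by
      have h1 : IntegrableOn (fun g => ρ (-g)) (Ioi (-a)) := by
        have h2 : IntegrableOn ρ (Iio a) := hint.mono_set Iio_subset_Iic_self
        have h3 := (MeasurePreserving.integrableOn_comp_preimage (Measure.measurePreserving_neg (volume : Measure ℝ))
          (Homeomorph.neg ℝ).measurableEmbedding (f := ρ) (s := Iio a)).2 h2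
        have h4 : (Neg.neg : ℝ → ℝ) ⁻¹' (Iio a) = Ioi (-a) := by
          ext y
          simp only [mem_preimage, mem_Iio, mem_Ioi]
          constructor <;> intro h <;> linarith
        rw [h4] at h3
        exact h3
      exact h1) (hlim.comp tendsto_neg_atTop_atBot) (hψ.comp contDiff_neg) ⟨K, fun g => hK _⟩
    ⟨K', fun g => by
      rw [hd g, abs_neg]
      exact hK' _⟩ (by
      show ψ (- -a) = 0
      rw [neg_neg, h0])
  have e1 : ∫ g in Ioi (-a), ψ (-g) ^ 2 * ρ (-g) = ∫ g in Iic a, ψ g ^ 2 * ρ g := by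
    have := integral_comp_neg_Ioi (-a) (fun g => ψ g ^ 2 * ρ g)
    rw [neg_neg] at this
    exact this
  have e2 : ∫ g in Ioi (-a), deriv (fun y => ψ (-y)) g ^ 2 * ρ (-g) = ∫ g in Iic a, deriv ψ g ^ 2 * ρ g := by
    have := integral_comp_neg_Ioi (-a) (fun g => deriv ψ g ^ 2 * ρ g)
    rw [neg_neg] at this
    rw [← this]
    refine integral_congr_ae (Eventually.of_forall fun g => ?_)
    show deriv (fun y => ψ (-y)) g ^ 2 * ρ (-g) = deriv ψ (-g) ^ 2 * ρ (-g)
    rw [hd g, neg_sq]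
  rw [e1, e2] at key
  exact key

private theorem oyv_integrable (hu : Pot u) (hm : 0 < m) {ψ : ℝ → ℝ} (hψ : Continuous ψ)
    (hb : ∃ K, ∀ g, |ψ g| ≤ K) : Integrable fun g => ψ g ^ 2 * dn u m g := by
  obtain ⟨K, hK⟩ := hb
  refine Integrable.mono' ((dn_integrable hu hm).const_mul (K ^ 2))
    ((hψ.pow 2).mul (dn_cont hu m)).aestronglyMeasurable (Eventually.of_forall fun g => ?_)
  have h1 := dn_pos hu hm g
  rw [Real.norm_eq_abs, abs_mul, abs_of_pos h1, abs_pow]
  exact mul_le_mul_of_nonneg_right (pow_le_pow_left₀ (abs_nonneg _) (hK g) 2) h1.le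

/-- two half-line inequalities give a lower bound for the gap -/
theorem gap_ge_of_half (hu : Pot u) (hm : 0 < m) {x0 κ : ℝ} (hκ : 0 ≤ κ)
    (h1 : ∀ ψ : ℝ → ℝ, ContDiff ℝ 1 ψ → (∃ K, ∀ g, |ψ g| ≤ K) → (∃ K, ∀ g, |deriv ψ g| ≤ K) → ψ x0 = 0 →
      κ * ∫ g in Ioi x0, ψ g ^ 2 * dn u m g ≤ ∫ g in Ioi x0, deriv ψ g ^ 2 * dn u m g)
    (h2 : ∀ ψ : ℝ → ℝ, ContDiff ℝ 1 ψ → (∃ K, ∀ g, |ψ g| ≤ K) → (∃ K, ∀ g, |deriv ψ g| ≤ K) → ψ x0 = 0 →
      κ * ∫ g in Iic x0, ψ g ^ 2 * dn u m g ≤ ∫ g in Iic x0, deriv ψ g ^ 2 * dn u m g) :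
    κ ≤ gap u m := by
  have hprob := nu_prob hu hm
  refine le_csInf (gap_set_nonempty hu hm) ?_
  rintro r ⟨f, hf, hc, hv, rfl⟩
  rw [le_div_iff₀ hv]
  have hfc : Continuous f := hf.continuous
  obtain ⟨C, hC⟩ := hc.exists_bound_of_continuous hfc
  have hd : Continuous (deriv f) := hf.continuous_deriv le_rfl
  obtain ⟨C', hC'⟩ := hc.deriv.exists_bound_of_continuous hd
  set ψ : ℝ → ℝ := fun g => f g + -f x0 with hψdef
  have hψ : ContDiff ℝ 1 ψ := hf.add contDiff_const
  have hψd : deriv ψ = deriv f := by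
    funext g
    rw [hψdef, deriv_add_const]
  have hb : ∃ K, ∀ g, |ψ g| ≤ K := ⟨C + C, fun g => by
    have h3 := hC g
    have h4 := hC x0
    rw [Real.norm_eq_abs] at h3 h4
    have h5 := abs_add_le (f g) (-f x0)
    rw [abs_neg] at h5
    show |f g + -f x0| ≤ C + C
    linarith⟩
  have hb' : ∃ K, ∀ g, |deriv ψ g| ≤ K := ⟨C', fun g => by
    rw [hψd]
    exact hC' g⟩
  have h0 : ψ x0 = 0 := by
    show f x0 + -f x0 = 0
    ring
  have hR := h1 ψ hψ hb hb' h0
  have hL := h2 ψ hψ hb hb' h0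
  have hfi : Integrable f (nu u m) := hfc.integrable_of_hasCompactSupport hc
  obtain ⟨Kb, hKb⟩ := hb
  have hmem : MemLp ψ 2 (nu u m) := MemLp.of_bound hψ.continuous.aestronglyMeasurable Kb
    (Eventually.of_forall fun g => hKb g)
  have hvr : vr (nu u m) f ≤ ∫ g, ψ g ^ 2 ∂(nu u m) := by
    rw [← vr_add_const hfi (-f x0), vr_eq hmem]
    have := sq_nonneg (∫ x, ψ x ∂(nu u m))
    linarith
  have hF : Integrable fun g => ψ g ^ 2 * dn u m g := oyv_integrable hu hm hψ.continuous ⟨Kb, hKb⟩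
  have hG : Integrable fun g => deriv ψ g ^ 2 * dn u m g :=
    oyv_integrable hu hm (hψ.continuous_deriv le_rfl) hb'
  calc κ * vr (nu u m) f ≤ κ * ∫ g, ψ g ^ 2 ∂(nu u m) := mul_le_mul_of_nonneg_left hvr hκ
    _ = κ * (∫ g in Iic x0, ψ g ^ 2 * dn u m g) + κ * ∫ g in Ioi x0, ψ g ^ 2 * dn u m g := by
        rw [integral_nu hu hm, ← intervalIntegral.integral_Iic_add_Ioi (b := x0) hF.integrableOn hF.integrableOn,
          mul_add]
    _ ≤ (∫ g in Iic x0, deriv ψ g ^ 2 * dn u m g) + ∫ g in Ioi x0, deriv ψ g ^ 2 * dn u m g := add_le_add hL hR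
    _ = ∫ x, deriv f x ^ 2 ∂(nu u m) := by
        rw [intervalIntegral.integral_Iic_add_Ioi hG.integrableOn hG.integrableOn, integral_nu hu hm, hψd]

/-- lower bound for the gap: if `u y * exp (θ y)` is non-increasing, then `gap ≥ θ (m - θ)` -/
theorem gap_ge_exp (hu : Pot u) {θ : ℝ} (hθ : 0 < θ) (hθm : θ < m)
    (ha : Antitone fun y => u y * Real.exp (θ * y)) : θ * (m - θ) ≤ gap u m := by
  have hm : 0 < m := hθ.trans hθm
  have hmθ : 0 < m - θ := by linarith
  obtain ⟨x0, hx0⟩ : ∃ x, u x = m - θ := by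
    obtain ⟨y1, hy1⟩ := (hu.top.eventually (ge_mem_nhds hmθ)).exists
    obtain ⟨y2, hy2⟩ := (hu.bot.eventually (eventually_ge_atTop (m - θ))).exists
    exact mem_range_of_exists_le_of_exists_ge hu.lip.continuous ⟨y1, hy1⟩ ⟨y2, hy2⟩
  have hwc : Continuous fun g => m - u g := continuous_const.sub hu.lip.continuous
  set E0 : ℝ := Real.exp (θ * x0) with hE0
  have hE0pos : 0 < E0 := Real.exp_pos _
  -- growth of the exponential function
  have hexp1 : ∀ g, θ * (g - x0) * E0 ≤ Real.exp (θ * g) - E0 := by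
    intro g
    have h1 := Real.add_one_le_exp (θ * (g - x0))
    have h2 : Real.exp (θ * g) = Real.exp (θ * (g - x0)) * E0 := by
      rw [hE0, ← Real.exp_add]
      congr 1
      ring
    rw [h2]
    nlinarith
  have hexp2 : ∀ g, θ * (x0 - g) * Real.exp (θ * g) ≤ E0 - Real.exp (θ * g) := by
    intro g
    have h1 := Real.add_one_le_exp (θ * (x0 - g))
    have h2 : E0 = Real.exp (θ * (x0 - g)) * Real.exp (θ * g) := by
      rw [hE0, ← Real.exp_add]
      congr 1
      ring
    have h3 := Real.exp_pos (θ * g)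
    rw [h2]
    nlinarith
  have hk1 : ∀ g, x0 < g → 0 < Real.exp (θ * g) - E0 := by
    intro g hg
    have h1 := hexp1 g
    have h2 : 0 < θ * (g - x0) * E0 := mul_pos (mul_pos hθ (by linarith)) hE0pos
    linarith
  have hk2 : ∀ g, g < x0 → Real.exp (θ * g) - E0 < 0 := by
    intro g hg
    have h1 := hexp2 g
    have h2 : 0 < θ * (x0 - g) * Real.exp (θ * g) := mul_pos (mul_pos hθ (by linarith)) (Real.exp_pos _)
    linarith
  have hE : ∀ g, HasDerivAt (fun g => Real.exp (θ * g)) (θ * Real.exp (θ * g)) g := by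
    intro g
    have h1 : HasDerivAt (fun g : ℝ => θ * g) θ g := by
      have := (hasDerivAt_id g).const_mul θ
      rw [mul_one] at this
      exact this
    refine h1.exp.congr_deriv ?_
    ring
  have hcd : ∀ g, Real.exp (θ * g) - E0 ≠ 0 → HasDerivAt (fun g => θ * Real.exp (θ * g) / (Real.exp (θ * g) - E0))
      ((θ * (θ * Real.exp (θ * g)) * (Real.exp (θ * g) - E0) - θ * Real.exp (θ * g) * (θ * Real.exp (θ * g))) /
        (Real.exp (θ * g) - E0) ^ 2) g := by
    intro g hg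
    exact ((hE g).const_mul θ).div ((hE g).sub_const E0) hg
  have hid : ∀ g, Real.exp (θ * g) - E0 ≠ 0 →
      θ * Real.exp (θ * g) / (Real.exp (θ * g) - E0) * (m - u g) -
        ((θ * (θ * Real.exp (θ * g)) * (Real.exp (θ * g) - E0) - θ * Real.exp (θ * g) * (θ * Real.exp (θ * g))) /
        (Real.exp (θ * g) - E0) ^ 2) - (θ * Real.exp (θ * g) / (Real.exp (θ * g) - E0)) ^ 2 =
      θ * Real.exp (θ * g) * (m - θ - u g) / (Real.exp (θ * g) - E0) := by
    intro g hg
    field_simp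
    ring
  refine gap_ge_of_half hu hm (x0 := x0) (mul_nonneg hθ.le hmθ.le) ?_ ?_
  · intro ψ hψ hb hb' h0
    refine half_right_pole (ρ := dn u m) (w := fun g => m - u g) (a := x0)
      (c := fun g => θ * Real.exp (θ * g) / (Real.exp (θ * g) - E0))
      (c' := fun g => (θ * (θ * Real.exp (θ * g)) * (Real.exp (θ * g) - E0) -
        θ * Real.exp (θ * g) * (θ * Real.exp (θ * g))) / (Real.exp (θ * g) - E0) ^ 2)
      (K₀ := θ / (1 - Real.exp (-θ))) (M₀ := Real.exp θ)
      (dn_hasDerivAt hu m) (dn_pos hu hm) (fun g hg => hcd g (hk1 g hg).ne') ?_ ?_ ?_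
      (dn_integrable hu hm).integrableOn (dn_tendsto_top hu hm) hψ hb hb' h0
    · intro g hg
      have hgx : x0 < g := by linarith
      have hq : 0 < 1 - Real.exp (-θ) := by
        have : Real.exp (-θ) < 1 := by rw [Real.exp_lt_one_iff]; linarith
        linarith
      rw [abs_of_pos (div_pos (mul_pos hθ (Real.exp_pos _)) (hk1 g hgx)), div_le_div_iff₀ (hk1 g hgx) hq]
      have h1 : E0 ≤ Real.exp (-θ) * Real.exp (θ * g) := by
        rw [hE0, ← Real.exp_add]
        refine Real.exp_le_exp.mpr ?_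
        nlinarith
      nlinarith
    · intro g hg1 hg2
      rw [abs_of_pos (div_pos (mul_pos hθ (Real.exp_pos _)) (hk1 g hg1)), div_mul_eq_mul_div,
        div_le_iff₀ (hk1 g hg1)]
      have h1 := hexp1 g
      have h2 : Real.exp (θ * g) ≤ Real.exp θ * E0 := by
        rw [hE0, ← Real.exp_add]
        refine Real.exp_le_exp.mpr ?_
        nlinarith
      have h3 : 0 ≤ θ * (g - x0) := mul_nonneg hθ.le (by linarith)
      have h4 := Real.exp_pos θ
      calc θ * Real.exp (θ * g) * (g - x0) = θ * (g - x0) * Real.exp (θ * g) := by ring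
        _ ≤ θ * (g - x0) * (Real.exp θ * E0) := mul_le_mul_of_nonneg_left h2 h3
        _ = Real.exp θ * (θ * (g - x0) * E0) := by ring
        _ ≤ Real.exp θ * (Real.exp (θ * g) - E0) := mul_le_mul_of_nonneg_left h1 h4.le
    · intro g hg
      have hp := hk1 g hg
      show θ * (m - θ) ≤ _
      rw [hid g hp.ne', le_div_iff₀ hp]
      have h1 : u g * Real.exp (θ * g) ≤ u x0 * Real.exp (θ * x0) := ha hg.le
      rw [hx0, ← hE0] at h1
      nlinarith
  · intro ψ hψ hb hb' h0
    refine half_left_pole (ρ := dn u m) (w := fun g => m - u g) (a := x0)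
      (c := fun g => θ * Real.exp (θ * g) / (Real.exp (θ * g) - E0))
      (c' := fun g => (θ * (θ * Real.exp (θ * g)) * (Real.exp (θ * g) - E0) -
        θ * Real.exp (θ * g) * (θ * Real.exp (θ * g))) / (Real.exp (θ * g) - E0) ^ 2)
      (K₀ := 1) (M₀ := 1)
      (dn_hasDerivAt hu m) (dn_pos hu hm) (fun g hg => hcd g (hk2 g hg).ne) ?_ ?_ ?_
      (dn_integrable hu hm).integrableOn (dn_tendsto_bot hu hm) hψ hb hb' h0
    · intro g hg
      have hgx : g < x0 := by linarith
      have h1 := hk2 g hgx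
      rw [abs_div, abs_of_pos (mul_pos hθ (Real.exp_pos _)), abs_of_neg h1, div_le_one (by linarith)]
      have h2 := hexp2 g
      have h3 := Real.exp_pos (θ * g)
      have h4 : θ * 1 * Real.exp (θ * g) ≤ θ * (x0 - g) * Real.exp (θ * g) :=
        mul_le_mul_of_nonneg_right (mul_le_mul_of_nonneg_left (by linarith) hθ.le) h3.le
      linarith
    · intro g hg1 hg2
      have h1 := hk2 g hg1
      rw [abs_div, abs_of_pos (mul_pos hθ (Real.exp_pos _)), abs_of_neg h1, div_mul_eq_mul_div,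
        div_le_iff₀ (by linarith)]
      have h2 := hexp2 g
      nlinarith
    · intro g hg
      have hp := hk2 g hg
      show θ * (m - θ) ≤ _
      rw [hid g hp.ne, le_div_iff_of_neg hp]
      have h1 : u x0 * Real.exp (θ * x0) ≤ u g * Real.exp (θ * g) := ha hg.le
      rw [hx0, ← hE0] at h1
      nlinarith

/-! ### The potential `u y = a exp (-b y)` -/

theorem pot_oy {a b : ℝ} (ha : 0 < a) (hb : 0 < b) : Pot (fun y => a * Real.exp (-(b * y))) := by
  refine ⟨?_, ?_, ?_, ?_, ?_⟩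
  · have h : ContDiff ℝ 1 (fun y : ℝ => a * Real.exp (-(b * y))) := by fun_prop
    exact h.locallyLipschitz
  · intro y
    exact mul_nonneg ha.le (Real.exp_pos _).le
  · intro x _ y _ hxy
    refine mul_le_mul_of_nonneg_left (Real.exp_le_exp.mpr ?_) ha.le
    nlinarith
  · have h1 : Tendsto (fun y : ℝ => -(b * y)) atTop atBot :=
      tendsto_neg_atTop_atBot.comp (tendsto_id.const_mul_atTop hb)
    have h2 := (Real.tendsto_exp_atBot.comp h1).const_mul a
    rw [mul_zero] at h2
    exact h2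
  · have h1 : Tendsto (fun y : ℝ => -(b * y)) atBot atTop :=
      tendsto_neg_atBot_atTop.comp (tendsto_id.const_mul_atBot hb)
    exact (Real.tendsto_exp_atTop.comp h1).const_mul_atTop ha

theorem den_exp (u : ℝ → ℝ) (m s g : ℝ) : Real.exp (s * g) * den u m g = den u (m - s) g := by
  unfold den
  rw [← Real.exp_add]
  congr 1
  ring

/-- exponential moments -/
theorem exp_moment (hu : Pot u) (hm : 0 < m) (s : ℝ) :
    ∫ g, Real.exp (s * g) ∂(nu u m) = Zc u (m - s) / Zc u m := by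
  rw [integral_nu hu hm]
  have e : (fun g => Real.exp (s * g) * dn u m g) = fun g => den u (m - s) g / Zc u m := by
    funext g
    unfold dn
    rw [← den_exp u m s g]
    ring
  rw [e, integral_div]
  rfl

theorem exp_integrable (hu : Pot u) (hm : 0 < m) {s : ℝ} (hs : s < m) :
    Integrable (fun g => Real.exp (s * g)) (nu u m) := by
  rw [integrable_nu hu hm]
  have e : (fun g => Real.exp (s * g) * dn u m g) = fun g => den u (m - s) g / Zc u m := by
    funext g
    unfold dn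
    rw [← den_exp u m s g]
    ring
  rw [e]
  exact (den_integrable hu (by linarith)).div_const _

theorem zc_rec {a b : ℝ} (ha : 0 < a) (hb : 0 < b) (hm : 0 < m) :
    a * Zc (fun y => a * Real.exp (-(b * y))) (m + b) = m * Zc (fun y => a * Real.exp (-(b * y))) m := by
  set u : ℝ → ℝ := fun y => a * Real.exp (-(b * y)) with hudef
  have hu : Pot u := pot_oy ha hb
  have hZ := Zc_pos hu hm
  have i1 : Integrable (fun g => a * den u (m + b) g) := (den_integrable hu (by linarith)).const_mul a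
  have i2 : Integrable (fun g => m * den u m g) := (den_integrable hu hm).const_mul m
  have e : (fun g => (u g - m) * den u m g) = fun g => a * den u (m + b) g - m * den u m g := by
    funext g
    have h1 := den_exp u m (-b) g
    have h2 : m - -b = m + b := by ring
    rw [h2] at h1
    rw [← h1, hudef]
    show (a * Real.exp (-(b * g)) - m) * den u m g = _
    rw [neg_mul]
    ring
  have hlim : ∀ {l : Filter ℝ}, Tendsto (dn u m) l (𝓝 0) → Tendsto (den u m) l (𝓝 0) := by
    intro l hl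
    have h1 := hl.mul_const (Zc u m)
    rw [zero_mul] at h1
    refine h1.congr fun g => ?_
    unfold dn
    exact div_mul_cancel₀ _ hZ.ne'
  have h := integral_of_hasDerivAt_of_tendsto (fun g => den_hasDerivAt hu m g) (by rw [e]; exact i1.sub i2)
    (hlim (dn_tendsto_bot hu hm)) (hlim (dn_tendsto_top hu hm))
  rw [e, integral_sub i1 i2, integral_const_mul, integral_const_mul] at h
  have h3 : a * Zc u (m + b) - m * Zc u m = 0 - 0 := h
  linarith

/-- cut off exponential functions -/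
private noncomputable def oyB : ContDiffBump (0 : ℝ) := ⟨1, 2, one_pos, one_lt_two⟩

private noncomputable def oyf (b : ℝ) (k : ℕ) (y : ℝ) : ℝ := oyB (y / ((k : ℝ) + 1)) * Real.exp (b * y)

private theorem oyf_contDiff (b : ℝ) (k : ℕ) : ContDiff ℝ 1 (oyf b k) := by
  have h1 : ContDiff ℝ 1 (fun y : ℝ => oyB (y / ((k : ℝ) + 1))) :=
    (oyB.contDiff (n := 1)).comp (contDiff_id.div_const _)
  have h2 : ContDiff ℝ 1 (fun y : ℝ => Real.exp (b * y)) := by fun_prop
  exact h1.mul h2

private theorem oyf_supp (b : ℝ) (k : ℕ) : HasCompactSupport (oyf b k) := by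
  have hk : (0 : ℝ) < (k : ℝ) + 1 := by positivity
  refine HasCompactSupport.intro (isCompact_closedBall (0 : ℝ) (2 * ((k : ℝ) + 1))) fun x hx => ?_
  rw [Metric.mem_closedBall, dist_zero_right, Real.norm_eq_abs, not_le] at hx
  have h1 : oyB (x / ((k : ℝ) + 1)) = 0 := by
    refine oyB.zero_of_le_dist ?_
    show (2 : ℝ) ≤ dist (x / ((k : ℝ) + 1)) 0
    rw [dist_zero_right, Real.norm_eq_abs, abs_div, abs_of_pos hk, le_div_iff₀ hk]
    exact hx.le
  unfold oyf
  rw [h1, zero_mul]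

private theorem oyf_deriv (b : ℝ) (k : ℕ) (y : ℝ) : deriv (oyf b k) y =
    deriv oyB (y / ((k : ℝ) + 1)) / ((k : ℝ) + 1) * Real.exp (b * y) +
      oyB (y / ((k : ℝ) + 1)) * (b * Real.exp (b * y)) := by
  have h0 : HasDerivAt (fun y : ℝ => y / ((k : ℝ) + 1)) (1 / ((k : ℝ) + 1)) y := (hasDerivAt_id y).div_const _
  have h1 : HasDerivAt oyB (deriv oyB (y / ((k : ℝ) + 1))) (y / ((k : ℝ) + 1)) :=
    ((oyB.contDiff (n := 1)).differentiable one_ne_zero _).hasDerivAt
  have h2 : HasDerivAt (fun y : ℝ => oyB (y / ((k : ℝ) + 1)))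
      (deriv oyB (y / ((k : ℝ) + 1)) * (1 / ((k : ℝ) + 1))) y :=
    HasDerivAt.comp (h₂ := (oyB : ℝ → ℝ)) (h := fun y : ℝ => y / ((k : ℝ) + 1)) y h1 h0
  have h3 : HasDerivAt (fun y : ℝ => Real.exp (b * y)) (Real.exp (b * y) * (b * 1)) y :=
    ((hasDerivAt_id y).const_mul b).exp
  have h4 := (h2.mul h3).deriv
  have h5 : deriv (oyf b k) y = deriv ((fun y : ℝ => oyB (y / ((k : ℝ) + 1))) * fun y => Real.exp (b * y)) y := rfl
  rw [h5, h4]
  ring

private theorem oyf_one (k : ℕ) {y : ℝ} (hy : |y| ≤ (k : ℝ) + 1) : oyB (y / ((k : ℝ) + 1)) = 1 := by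
  have hk : (0 : ℝ) < (k : ℝ) + 1 := by positivity
  refine oyB.one_of_mem_closedBall ?_
  show y / ((k : ℝ) + 1) ∈ Metric.closedBall (0 : ℝ) 1
  rw [Metric.mem_closedBall, dist_zero_right, Real.norm_eq_abs, abs_div, abs_of_pos hk, div_le_one hk]
  exact hy

private theorem oyf_bd (x : ℝ) : |oyB x| ≤ 1 :=
  abs_le.mpr ⟨by linarith [oyB.nonneg (x := x)], oyB.le_one⟩

private theorem oyf_dbd : ∃ C : ℝ, 0 ≤ C ∧ ∀ x, |deriv oyB x| ≤ C := by
  have h1 : Continuous (deriv oyB) := (oyB.contDiff (n := 1)).continuous_deriv le_rfl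
  obtain ⟨C, hC⟩ := oyB.hasCompactSupport.deriv.exists_bound_of_continuous h1
  exact ⟨C, (norm_nonneg _).trans (hC 0), hC⟩

private theorem oy_sq (b g : ℝ) : Real.exp (b * g) ^ 2 = Real.exp (2 * b * g) := by
  rw [← Real.exp_nat_mul]
  congr 1
  push_cast
  ring

/-- the inequality of Poincaré for `exp (b y)`, `2 b < m` -/
theorem poincare_exp (hu : Pot u) (hm : 0 < m) {b : ℝ} (hb : 0 < b) (hbm : 2 * b < m) :
    gap u m * (∫ g, Real.exp (2 * b * g) ∂(nu u m) - (∫ g, Real.exp (b * g) ∂(nu u m)) ^ 2) ≤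
      b ^ 2 * ∫ g, Real.exp (2 * b * g) ∂(nu u m) := by
  have hprob := nu_prob hu hm
  have j1 : Integrable (fun g => Real.exp (b * g)) (nu u m) := exp_integrable hu hm (by linarith)
  have j2 : Integrable (fun g => Real.exp (2 * b * g)) (nu u m) := exp_integrable hu hm hbm
  obtain ⟨C, hC0, hC⟩ := oyf_dbd
  have hev : ∀ g : ℝ, ∀ᶠ k : ℕ in atTop, |g| ≤ (k : ℝ) + 1 := by
    intro g
    obtain ⟨K, hK⟩ := exists_nat_ge |g|
    filter_upwards [eventually_ge_atTop K] with k hk
    have : (K : ℝ) ≤ k := by exact_mod_cast hk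
    linarith
  have A : Tendsto (fun k : ℕ => ∫ g, oyf b k g ^ 2 ∂(nu u m)) atTop (𝓝 (∫ g, Real.exp (2 * b * g) ∂(nu u m))) := by
    refine tendsto_integral_of_dominated_convergence (fun g => Real.exp (2 * b * g))
      (fun k => ((oyf_contDiff b k).continuous.pow 2).aestronglyMeasurable) j2 (fun k => ?_) ?_
    · refine Eventually.of_forall fun g => ?_
      rw [Real.norm_eq_abs, abs_pow]
      unfold oyf
      rw [abs_mul, abs_of_pos (Real.exp_pos _), mul_pow, oy_sq]
      have h1 : |oyB (g / ((k : ℝ) + 1))| ^ 2 ≤ 1 := pow_le_one₀ (abs_nonneg _) (oyf_bd _)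
      have h2 := Real.exp_pos (2 * b * g)
      nlinarith
    · refine Eventually.of_forall fun g => ?_
      refine tendsto_const_nhds.congr' ?_
      filter_upwards [hev g] with k hk
      unfold oyf
      rw [oyf_one k hk, one_mul, oy_sq]
  have B : Tendsto (fun k : ℕ => ∫ g, oyf b k g ∂(nu u m)) atTop (𝓝 (∫ g, Real.exp (b * g) ∂(nu u m))) := by
    refine tendsto_integral_of_dominated_convergence (fun g => Real.exp (b * g))
      (fun k => (oyf_contDiff b k).continuous.aestronglyMeasurable) j1 (fun k => ?_) ?_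
    · refine Eventually.of_forall fun g => ?_
      rw [Real.norm_eq_abs]
      unfold oyf
      rw [abs_mul, abs_of_pos (Real.exp_pos _)]
      have h1 := oyf_bd (g / ((k : ℝ) + 1))
      have h2 := Real.exp_pos (b * g)
      nlinarith
    · refine Eventually.of_forall fun g => ?_
      refine tendsto_const_nhds.congr' ?_
      filter_upwards [hev g] with k hk
      unfold oyf
      rw [oyf_one k hk, one_mul]
  have D : Tendsto (fun k : ℕ => ∫ g, deriv (oyf b k) g ^ 2 ∂(nu u m)) atTop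
      (𝓝 (∫ g, b ^ 2 * Real.exp (2 * b * g) ∂(nu u m))) := by
    refine tendsto_integral_of_dominated_convergence (fun g => (C + b) ^ 2 * Real.exp (2 * b * g))
      (fun k => (((oyf_contDiff b k).continuous_deriv le_rfl).pow 2).aestronglyMeasurable) (j2.const_mul _)
      (fun k => ?_) ?_
    · refine Eventually.of_forall fun g => ?_
      have hk1 : (1 : ℝ) ≤ (k : ℝ) + 1 := by
        have : (0 : ℝ) ≤ k := Nat.cast_nonneg k
        linarith
      have hk : (0 : ℝ) < (k : ℝ) + 1 := by linarith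
      rw [Real.norm_eq_abs, abs_pow, oyf_deriv, ← oy_sq, ← mul_pow]
      refine pow_le_pow_left₀ (abs_nonneg _) ?_ 2
      have h2 := Real.exp_pos (b * g)
      have h3 : |deriv oyB (g / ((k : ℝ) + 1)) / ((k : ℝ) + 1)| ≤ C := by
        rw [abs_div, abs_of_pos hk, div_le_iff₀ hk]
        have := hC (g / ((k : ℝ) + 1))
        nlinarith
      have h4 := oyf_bd (g / ((k : ℝ) + 1))
      calc |deriv oyB (g / ((k : ℝ) + 1)) / ((k : ℝ) + 1) * Real.exp (b * g) +
            oyB (g / ((k : ℝ) + 1)) * (b * Real.exp (b * g))|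
          ≤ |deriv oyB (g / ((k : ℝ) + 1)) / ((k : ℝ) + 1) * Real.exp (b * g)| +
            |oyB (g / ((k : ℝ) + 1)) * (b * Real.exp (b * g))| := abs_add_le _ _
        _ = |deriv oyB (g / ((k : ℝ) + 1)) / ((k : ℝ) + 1)| * Real.exp (b * g) +
            |oyB (g / ((k : ℝ) + 1))| * (b * Real.exp (b * g)) := by
            rw [abs_mul, abs_mul, abs_of_pos h2, abs_of_pos (mul_pos hb h2)]
        _ ≤ C * Real.exp (b * g) + 1 * (b * Real.exp (b * g)) :=
            add_le_add (mul_le_mul_of_nonneg_right h3 h2.le) (mul_le_mul_of_nonneg_right h4 (mul_pos hb h2).le)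
        _ = (C + b) * Real.exp (b * g) := by ring
    · refine Eventually.of_forall fun g => ?_
      have t1 : Tendsto (fun k : ℕ => (deriv oyB (g / ((k : ℝ) + 1)) / ((k : ℝ) + 1) * Real.exp (b * g) +
          b * Real.exp (b * g)) ^ 2) atTop (𝓝 ((0 * Real.exp (b * g) + b * Real.exp (b * g)) ^ 2)) := by
        have t2 : Tendsto (fun k : ℕ => deriv oyB (g / ((k : ℝ) + 1)) / ((k : ℝ) + 1)) atTop (𝓝 0) := by
          have t3 : Tendsto (fun k : ℕ => C * (1 / ((k : ℝ) + 1))) atTop (𝓝 0) := by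
            have := (tendsto_one_div_add_atTop_nhds_zero_nat (𝕜 := ℝ)).const_mul C
            rw [mul_zero] at this
            exact this
          refine squeeze_zero_norm (fun k => ?_) t3
          have hk : (0 : ℝ) < (k : ℝ) + 1 := by positivity
          rw [Real.norm_eq_abs, abs_div, abs_of_pos hk, mul_one_div]
          exact div_le_div_of_nonneg_right (hC _) hk.le
        exact ((t2.mul_const _).add_const _).pow 2
      have e : (0 * Real.exp (b * g) + b * Real.exp (b * g)) ^ 2 = b ^ 2 * Real.exp (2 * b * g) := by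
        rw [zero_mul, zero_add, mul_pow, oy_sq]
      rw [e] at t1
      refine t1.congr' ?_
      filter_upwards [hev g] with k hk
      rw [oyf_deriv, oyf_one k hk, one_mul]
  rw [integral_const_mul] at D
  refine le_of_tendsto_of_tendsto' ((A.sub (B.pow 2)).const_mul (gap u m)) D fun k => ?_
  have h1 := poincare u m (oyf_contDiff b k) (oyf_supp b k)
  rw [vr_eq ((oyf_contDiff b k).continuous.memLp_of_hasCompactSupport (oyf_supp b k))] at h1
  exact h1

/-- the gap for `u y = a exp (-b y)` -/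
theorem gap_oy {a b m : ℝ} (ha : 0 < a) (hb : 0 < b) (hm : 0 < m) :
    gap (fun y => a * Real.exp (-(b * y))) m = if m ≤ 2 * b then m ^ 2 / 4 else b * (m - b) := by
  set u : ℝ → ℝ := fun y => a * Real.exp (-(b * y)) with hudef
  have hu : Pot u := pot_oy ha hb
  have hanti : ∀ θ : ℝ, θ ≤ b → Antitone fun y => u y * Real.exp (θ * y) := by
    intro θ hθ x y hxy
    show a * Real.exp (-(b * y)) * Real.exp (θ * y) ≤ a * Real.exp (-(b * x)) * Real.exp (θ * x)
    rw [mul_assoc, mul_assoc, ← Real.exp_add, ← Real.exp_add]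
    refine mul_le_mul_of_nonneg_left (Real.exp_le_exp.mpr ?_) ha.le
    nlinarith
  split_ifs with h
  · refine le_antisymm (gap_le hu hm) ?_
    have h1 := gap_ge_exp hu (θ := m / 2) (m := m) (by linarith) (by linarith) (hanti _ (by linarith))
    have e : m / 2 * (m - m / 2) = m ^ 2 / 4 := by ring
    rw [e] at h1
    exact h1
  · have h2b : 2 * b < m := not_le.mp h
    refine le_antisymm ?_ (gap_ge_exp hu hb (by linarith) (hanti b le_rfl))
    have hp := poincare_exp hu hm hb h2b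
    rw [exp_moment hu hm, exp_moment hu hm] at hp
    have r1 := zc_rec (m := m - b) ha hb (by linarith)
    have r2 := zc_rec (m := m - 2 * b) ha hb (by linarith)
    rw [← hudef] at r1 r2
    have e1 : m - b + b = m := by ring
    have e2 : m - 2 * b + b = m - b := by ring
    rw [e1] at r1
    rw [e2] at r2
    have z0 := Zc_pos hu hm
    have z1 := Zc_pos hu (m := m - b) (by linarith)
    have z2 := Zc_pos hu (m := m - 2 * b) (by linarith)
    have hmb : 0 < m - b := by linarith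
    have hm2b : 0 < m - 2 * b := by linarith
    have q1 : Zc u (m - b) / Zc u m = a / (m - b) := by
      rw [div_eq_div_iff z0.ne' hmb.ne']
      linarith
    have q2 : Zc u (m - 2 * b) / Zc u m = a ^ 2 / ((m - 2 * b) * (m - b)) := by
      rw [div_eq_div_iff z0.ne' (mul_pos hm2b hmb).ne']
      calc Zc u (m - 2 * b) * ((m - 2 * b) * (m - b)) = ((m - 2 * b) * Zc u (m - 2 * b)) * (m - b) := by ring
        _ = a * ((m - b) * Zc u (m - b)) := by rw [← r2]; ring
        _ = a ^ 2 * Zc u m := by rw [← r1]; ring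
    rw [q1, q2] at hp
    have hpos : 0 < a ^ 2 * b / ((m - b) ^ 2 * (m - 2 * b)) := by positivity
    have e3 : a ^ 2 / ((m - 2 * b) * (m - b)) - (a / (m - b)) ^ 2 = a ^ 2 * b / ((m - b) ^ 2 * (m - 2 * b)) := by
      field_simp
      ring
    have e4 : b ^ 2 * (a ^ 2 / ((m - 2 * b) * (m - b))) = b * (m - b) * (a ^ 2 * b / ((m - b) ^ 2 * (m - 2 * b))) := by
      field_simp
    rw [e3, e4] at hp
    exact le_of_mul_le_mul_right hp hpos

end Pool.Agent.SGP
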