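import Pool.Agent.SGP.EUG

/-!
# FEL: continuity in the starting point and Feller property

Proofs. (`gap_cont`) Fix `ω`, `(x, t)`, and `T > t`. The path `s ↦ G x s ω` is bounded by `R` on `[0,T]`; `K` Lipschitz
constant of the drift on the ball of radius `R + 1`. For `‖x' - x‖ exp (K T) < 1` one has
`‖G x' s - G x s‖ ≤ ‖x' - x‖ exp (K s)` for all `s ≤ T`: the difference satisfies
`G x' s - G x s = x' - x + ∫_0^s (drift (G x' q) - drift (G x q)) dq` (the noise cancels), Gronwall as long as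
`‖G x' q‖ ≤ R + 1`, and this never fails before `T` by continuity (take the set of `s` in `[0,T]` where the strict
bound `‖G x' q - G x q‖ < 1` holds on `[0,s]`; or the supremum of such `s`). Then
`‖G x' t' - G x t‖ ≤ ‖x' - x‖ exp (K T) + ‖G x t' - G x t‖`.
(`pt_cont`) dominated convergence (`continuous_of_dominated`), `|f| ≤ ‖f‖`, `P` is a probability measure,
measurability of `ω ↦ f (G x t ω)` from `(S.gap x).meas`.
-/

open MeasureTheory ProbabilityTheory Set Filter Topology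
open scoped ENNReal NNReal BoundedContinuousFunction

namespace Pool.Agent.SGP

open Pool.Agent.OYG

variable {n : ℕ} {Ω : Type*} [MeasurableSpace Ω] {P : Measure Ω} {μ : Fin (n + 1) → ℝ} {u : ℝ → ℝ}
  {B : Fin (n + 1) → ℝ≥0 → Ω → ℝ} {G : (Fin n → ℝ) → ℝ≥0 → Ω → Fin n → ℝ}

/-- Gronwall: solutions with close starting points stay close -/
theorem flow_close (S : Sys P n μ u B G) (ω : Ω) (x x' : Fin n → ℝ) (T : ℝ≥0) {R K : ℝ} (hK0 : 0 ≤ K)
    (hR : ∀ t ≤ T, ‖G x t ω‖ ≤ R)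
    (hK : ∀ y z : Fin n → ℝ, ‖y‖ ≤ R + 1 → ‖z‖ ≤ R + 1 → ‖drift n μ u y - drift n μ u z‖ ≤ K * ‖y - z‖)
    (hx : ‖x' - x‖ * Real.exp (K * T) < 1) :
    ∀ t ≤ T, ‖G x' t ω - G x t ω‖ ≤ ‖x' - x‖ * Real.exp (K * t) := by
  have hdc : Continuous (drift n μ u) := drift_cont μ S.pot.lip
  set ψ : ℝ → Fin n → ℝ := fun q => drift n μ u (G x' q.toNNReal ω) - drift n μ u (G x q.toNNReal ω)
    with hψ
  have c1 : ∀ z, Continuous fun q : ℝ => drift n μ u (G z q.toNNReal ω) := fun z =>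
    hdc.comp (((S.gap z).cont ω).comp continuous_real_toNNReal)
  have hψc : Continuous ψ := (c1 x').sub (c1 x)
  set f : ℝ → Fin n → ℝ := fun s => x' - x + ∫ q in (0 : ℝ)..s, ψ q with hf
  have hfd : ∀ s, HasDerivAt f (ψ s) s := fun s => by
    have := (intervalIntegral.integral_hasDerivAt_right (hψc.intervalIntegrable 0 s)
      (hψc.stronglyMeasurableAtFilter _ _) hψc.continuousAt)
    exact this.const_add (x' - x)
  have hfc : Continuous f := continuous_iff_continuousAt.mpr fun s => (hfd s).continuousAt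
  have hfe : ∀ t : ℝ≥0, f t = G x' t ω - G x t ω := fun t => by
    funext i
    have hcomm : (∫ q in (0 : ℝ)..t, ψ q) i = ∫ q in (0 : ℝ)..t, ψ q i := by
      have := (ContinuousLinearMap.proj (R := ℝ) (φ := fun _ : Fin n => ℝ) i
        ).intervalIntegral_comp_comm (hψc.intervalIntegrable (μ := volume) 0 (t : ℝ))
      simpa using this.symm
    have hci : ∀ z, IntervalIntegrable (fun q : ℝ => drift n μ u (G z q.toNNReal ω) i) volume 0 t :=
      fun z => ((continuous_apply i).comp (c1 z)).intervalIntegrable _ _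
    have hsub : ∫ q in (0 : ℝ)..t, ψ q i = (∫ q in (0 : ℝ)..t, drift n μ u (G x' q.toNNReal ω) i) -
        ∫ q in (0 : ℝ)..t, drift n μ u (G x q.toNNReal ω) i := by
      rw [← intervalIntegral.integral_sub (hci x') (hci x)]
      rfl
    have e1 := (S.gap x').eq ω t i
    have e2 := (S.gap x).eq ω t i
    show x' i - x i + (∫ q in (0 : ℝ)..t, ψ q) i = G x' t ω i - G x t ω i
    rw [hcomm, hsub, e1, e2]
    ring
  have hf0 : ‖f 0‖ ≤ ‖x' - x‖ := by
    show ‖x' - x + ∫ q in (0 : ℝ)..0, ψ q‖ ≤ ‖x' - x‖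
    rw [intervalIntegral.integral_same, add_zero]
  -- Gronwall as long as the difference is at most one
  have hgr : ∀ s : ℝ, 0 ≤ s → s ≤ T → (∀ q ∈ Ico 0 s, ‖f q‖ ≤ 1) →
      ∀ q ∈ Icc 0 s, ‖f q‖ ≤ ‖x' - x‖ * Real.exp (K * q) := by
    intro s hs0 hsT hle q hq
    have hg := norm_le_gronwallBound_of_norm_deriv_right_le (f := f) (f' := ψ) (δ := ‖x' - x‖)
      (K := K) (ε := 0) (a := 0) (b := s) hfc.continuousOn
      (fun r _ => (hfd r).hasDerivWithinAt) hf0 (fun r hr => by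
        have hrT : r.toNNReal ≤ T := by
          rw [Real.toNNReal_le_iff_le_coe]
          exact hr.2.le.trans hsT
        have h1 : ‖G x r.toNNReal ω‖ ≤ R := hR _ hrT
        have h2 : f r = G x' r.toNNReal ω - G x r.toNNReal ω := by
          have := hfe r.toNNReal
          rwa [Real.coe_toNNReal r hr.1] at this
        have h3 : ‖G x' r.toNNReal ω‖ ≤ R + 1 := by
          have h4 := hle r hr
          rw [h2] at h4
          have h5 := norm_add_le (G x' r.toNNReal ω - G x r.toNNReal ω) (G x r.toNNReal ω)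
          rw [sub_add_cancel] at h5
          linarith
        rw [add_zero, h2]
        exact hK _ _ h3 (by linarith)) q hq
    rw [gronwallBound_ε0, sub_zero] at hg
    exact hg
  have hlt : ∀ q ∈ Icc (0 : ℝ) T, ‖f q‖ < 1 := by
    by_contra hcon
    push Not at hcon
    obtain ⟨q, hq, hq1⟩ := hcon
    have hcomp : IsCompact (Icc (0 : ℝ) T ∩ {r | 1 ≤ ‖f r‖}) :=
      isCompact_Icc.inter_right (isClosed_le continuous_const hfc.norm)
    obtain ⟨s, hs, hsl⟩ := hcomp.exists_isLeast ⟨q, hq, hq1⟩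
    have h1 := hgr s hs.1.1 hs.1.2 (fun r hr => by
      by_contra h
      push Not at h
      exact absurd (hsl ⟨⟨hr.1, hr.2.le.trans hs.1.2⟩, h.le⟩) (not_le.mpr hr.2)) s
      ⟨hs.1.1, le_rfl⟩
    have h2 : ‖x' - x‖ * Real.exp (K * s) ≤ ‖x' - x‖ * Real.exp (K * T) :=
      mul_le_mul_of_nonneg_left (Real.exp_le_exp.mpr (mul_le_mul_of_nonneg_left hs.1.2 hK0))
        (norm_nonneg _)
    have h3 : 1 ≤ ‖f s‖ := hs.2
    linarith
  intro t ht
  have htT : (t : ℝ) ≤ T := ht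
  have h1 := hgr T (NNReal.coe_nonneg T) le_rfl
    (fun r hr => (hlt r ⟨hr.1, hr.2.le⟩).le) t ⟨NNReal.coe_nonneg t, htT⟩
  rwa [hfe t] at h1

theorem gap_cont (S : Sys P n μ u B G) (ω : Ω) : Continuous fun p : ℝ≥0 × (Fin n → ℝ) => G p.2 p.1 ω := by
  rw [continuous_iff_continuousAt]
  rintro ⟨t0, x0⟩
  set T : ℝ≥0 := t0 + 1 with hT
  obtain ⟨R, hR⟩ := (isCompact_Icc (a := (0 : ℝ≥0)) (b := T)).exists_bound_of_continuousOn
    ((S.gap x0).cont ω).continuousOn
  have hR' : ∀ t ≤ T, ‖G x0 t ω‖ ≤ R := fun t ht => hR t ⟨zero_le, ht⟩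
  obtain ⟨K, hK0, hK⟩ := drift_lip μ S.pot.lip (R + 1)
  rw [Metric.continuousAt_iff]
  intro ε hε
  have hct0 : ContinuousAt (fun t : ℝ≥0 => G x0 t ω) t0 := ((S.gap x0).cont ω).continuousAt
  obtain ⟨δ1, hδ1, h1⟩ := Metric.continuousAt_iff.mp hct0 (ε / 2) (half_pos hε)
  set E : ℝ := Real.exp (K * T) with hE
  have hE0 : 0 < E := Real.exp_pos _
  refine ⟨min (min δ1 1) (min 1 (ε / 2) / E), by positivity, ?_⟩
  rintro ⟨t, x⟩ hd
  rw [Prod.dist_eq, max_lt_iff] at hd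
  have hd1 : dist t t0 < δ1 := lt_of_lt_of_le hd.1 ((min_le_left _ _).trans (min_le_left _ _))
  have hd2 : dist t t0 < 1 := lt_of_lt_of_le hd.1 ((min_le_left _ _).trans (min_le_right _ _))
  have hd3 : dist x x0 < min 1 (ε / 2) / E := lt_of_lt_of_le hd.2 (min_le_right _ _)
  rw [lt_div_iff₀ hE0, dist_eq_norm] at hd3
  have htT : t ≤ T := by
    rw [← NNReal.coe_le_coe, hT, NNReal.coe_add, NNReal.coe_one]
    rw [NNReal.dist_eq, abs_lt] at hd2
    linarith [hd2.2]
  have h2 := flow_close S ω x0 x T hK0 hR' hK (lt_of_lt_of_le hd3 (min_le_left _ _)) t htT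
  have h3 : ‖x - x0‖ * Real.exp (K * t) ≤ ‖x - x0‖ * E := by
    refine mul_le_mul_of_nonneg_left (Real.exp_le_exp.mpr (mul_le_mul_of_nonneg_left ?_ hK0))
      (norm_nonneg _)
    exact_mod_cast htT
  have h4 : ‖x - x0‖ * E < ε / 2 := lt_of_lt_of_le hd3 (min_le_right _ _)
  have h5 := h1 hd1
  calc dist (G x t ω) (G x0 t0 ω) ≤ dist (G x t ω) (G x0 t ω) + dist (G x0 t ω) (G x0 t0 ω) :=
        dist_triangle _ _ _
    _ < ε / 2 + ε / 2 := by
        rw [dist_eq_norm (G x t ω)]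
        linarith
    _ = ε := add_halves ε

theorem pt_cont (S : Sys P n μ u B G) (f : (Fin n → ℝ) →ᵇ ℝ) :
    Continuous fun p : ℝ≥0 × (Fin n → ℝ) => pt P G p.1 f p.2 := by
  have hP := S.prob
  exact continuous_of_dominated (F := fun (p : ℝ≥0 × (Fin n → ℝ)) ω => f (G p.2 p.1 ω))
    (bound := fun _ => ‖f‖)
    (fun p => (f.continuous.measurable.comp ((S.gap p.2).meas p.1)).aestronglyMeasurable)
    (fun p => Eventually.of_forall fun ω => f.norm_coe_le_norm _) (integrable_const _)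
    (Eventually.of_forall fun ω => f.continuous.comp (gap_cont S ω))

theorem pt_le (S : Sys P n μ u B G) (f : (Fin n → ℝ) →ᵇ ℝ) (t : ℝ≥0) (x : Fin n → ℝ) :
    |pt P G t f x| ≤ ‖f‖ := by
  have hP := S.prob
  have := norm_integral_le_of_norm_le_const (μ := P) (f := fun ω => f (G x t ω)) (C := ‖f‖)
    (Eventually.of_forall fun ω => f.norm_coe_le_norm _)
  simpa [pt] using this

/-- the semigroup on bounded continuous functions -/
noncomputable def ptb (S : Sys P n μ u B G) (t : ℝ≥0) (f : (Fin n → ℝ) →ᵇ ℝ) : (Fin n → ℝ) →ᵇ ℝ :=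
  BoundedContinuousFunction.ofNormedAddCommGroup (pt P G t f)
    ((pt_cont S f).comp (Continuous.prodMk_right t)) ‖f‖ (fun x => by
      rw [Real.norm_eq_abs]; exact pt_le S f t x)

@[simp] theorem ptb_apply (S : Sys P n μ u B G) (t : ℝ≥0) (f : (Fin n → ℝ) →ᵇ ℝ) (x : Fin n → ℝ) :
    ptb S t f x = pt P G t f x := rfl

theorem ptb_norm (S : Sys P n μ u B G) (t : ℝ≥0) (f : (Fin n → ℝ) →ᵇ ℝ) : ‖ptb S t f‖ ≤ ‖f‖ := by
  rw [BoundedContinuousFunction.norm_le (norm_nonneg f)]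
  intro x
  exact pt_le S f t x

theorem integrable_gap (S : Sys P n μ u B G) (t : ℝ≥0) (f : (Fin n → ℝ) →ᵇ ℝ) (x : Fin n → ℝ) :
    Integrable (fun ω => f (G x t ω)) P := by
  have hP := S.prob
  exact Integrable.of_bound
    ((f.continuous.measurable.comp ((S.gap x).meas t)).aestronglyMeasurable) ‖f‖
    (Eventually.of_forall fun ω => f.norm_coe_le_norm _)

theorem ptb_add (S : Sys P n μ u B G) (t : ℝ≥0) (f g : (Fin n → ℝ) →ᵇ ℝ) :
    ptb S t (f + g) = ptb S t f + ptb S t g := by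
  ext x
  show ∫ ω, (f (G x t ω) + g (G x t ω)) ∂P = ∫ ω, f (G x t ω) ∂P + ∫ ω, g (G x t ω) ∂P
  exact integral_add (integrable_gap S t f x) (integrable_gap S t g x)

theorem ptb_smul (S : Sys P n μ u B G) (t : ℝ≥0) (c : ℝ) (f : (Fin n → ℝ) →ᵇ ℝ) :
    ptb S t (c • f) = c • ptb S t f := by
  ext x
  show ∫ ω, c * f (G x t ω) ∂P = c * ∫ ω, f (G x t ω) ∂P
  exact integral_const_mul _ _

theorem ptb_sub (S : Sys P n μ u B G) (t : ℝ≥0) (f g : (Fin n → ℝ) →ᵇ ℝ) :
    ptb S t (f - g) = ptb S t f - ptb S t g := by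
  ext x
  show ∫ ω, (f (G x t ω) - g (G x t ω)) ∂P = ∫ ω, f (G x t ω) ∂P - ∫ ω, g (G x t ω) ∂P
  exact integral_sub (integrable_gap S t f x) (integrable_gap S t g x)

theorem ptb_const (S : Sys P n μ u B G) (t : ℝ≥0) (c : ℝ) :
    ptb S t (BoundedContinuousFunction.const _ c) = BoundedContinuousFunction.const _ c := by
  have hP := S.prob
  ext x
  show ∫ ω, c ∂P = c
  simp

theorem ptb_zero (S : Sys P n μ u B G) (f : (Fin n → ℝ) →ᵇ ℝ) : ptb S 0 f = f := by
  have hP := S.prob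
  ext x
  show ∫ ω, f (G x 0 ω) ∂P = f x
  have h2 : ∀ ω', G x 0 ω' = x := fun ω' => gap_zero S _ ω'
  simp only [h2]
  simp

end Pool.Agent.SGP
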