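import Pool.Agent.SGP.DBC
import Pool.Agent.SGP.FEL

/-!
# ACN: the law of the gap process at a positive time is absolutely continuous

Proof. Let `ε > 0`. `explode`: `R` with `P {¬ ∀ q ≤ t, ‖G x q‖ ≤ R} ≤ ε`. `osc_small` (`T = t`, `r = 1`): `δ`. Put `h = min (h0, δ, t)` with `h0` of
`dens` for this `R`, `s = t - h`. Then `{G x t ∈ A}` is contained in the union of `{¬ ∀ q ≤ t, ‖G x q‖ ≤ R}`, of the oscillation event, and of the
event of `dens` (which has probability `≤ C' * volume A = 0`). So `P {G x t ∈ A} ≤ 2 ε`.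
-/

open MeasureTheory ProbabilityTheory Set Filter Topology
open scoped ENNReal NNReal BoundedContinuousFunction

namespace Pool.Agent.SGP

open Pool.Agent.OYG

variable {n : ℕ} {Ω : Type*} [MeasurableSpace Ω] {P : Measure Ω} {μ : Fin (n + 1) → ℝ} {u : ℝ → ℝ}
  {B : Fin (n + 1) → ℝ≥0 → Ω → ℝ} {G : (Fin n → ℝ) → ℝ≥0 → Ω → Fin n → ℝ}

theorem gap_ac (S : Sys P n μ u B G) (x : Fin n → ℝ) {t : ℝ≥0} (ht : 0 < t) (A : Set (Fin n → ℝ))
    (hA : volume A = 0) : P {ω | G x t ω ∈ A} = 0 := by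
  have hP := S.prob
  have key : ∀ ε : ℝ, 0 < ε → P {ω | G x t ω ∈ A} ≤ ENNReal.ofReal ε + ENNReal.ofReal ε := by
    intro ε hε
    obtain ⟨R, hR, hexp⟩ := explode S x t hε
    obtain ⟨δ, hδ, hosc⟩ := osc_small S x t one_pos hε
    obtain ⟨h0, C, hh0, hC, hd⟩ := dens S R
    set h : ℝ≥0 := min (min h0 δ) t with hh
    have hpos : 0 < h := lt_min (lt_min hh0 hδ) ht
    have h1 : h ≤ h0 := (min_le_left _ _).trans (min_le_left _ _)
    have h2 : h ≤ δ := (min_le_left _ _).trans (min_le_right _ _)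
    have h3 : h ≤ t := min_le_right _ _
    have hst : (t - h) + h = t := tsub_add_cancel_of_le h3
    have hdd := hd x (t - h) h hpos h1 A
    rw [hA, mul_zero] at hdd
    have hsub : {ω | G x t ω ∈ A} ⊆ ({ω | ¬ ∀ q ≤ t, ‖G x q ω‖ ≤ R} ∪
        {ω | ∃ s q : ℝ≥0, s ≤ t ∧ q ≤ t ∧ nndist s q ≤ δ ∧ 1 < ‖G x s ω - G x q ω‖}) ∪
        {ω | ‖G x (t - h) ω‖ ≤ R ∧ (∀ q ≤ h, ‖G x (t - h + q) ω - G x (t - h) ω‖ ≤ 1) ∧
          G x (t - h + h) ω ∈ A} := by
      intro ω hω
      by_cases c1 : ∀ q ≤ t, ‖G x q ω‖ ≤ R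
      · by_cases c2 : ∃ s q : ℝ≥0, s ≤ t ∧ q ≤ t ∧ nndist s q ≤ δ ∧ 1 < ‖G x s ω - G x q ω‖
        · exact Or.inl (Or.inr c2)
        · refine Or.inr ⟨c1 _ tsub_le_self, fun q hq => ?_, ?_⟩
          · by_contra hcon
            push Not at hcon
            refine c2 ⟨t - h + q, t - h, ?_, tsub_le_self, ?_, hcon⟩
            · calc t - h + q ≤ t - h + h := by gcongr
                _ = t := hst
            · rw [← NNReal.coe_le_coe, coe_nndist, NNReal.dist_eq, NNReal.coe_add,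
                add_sub_cancel_left, abs_of_nonneg (NNReal.coe_nonneg q)]
              exact_mod_cast hq.trans h2
          · rw [hst]
            exact hω
      · exact Or.inl (Or.inl c1)
    refine (measure_mono hsub).trans ((measure_union_le _ _).trans ?_)
    have h4 := (measure_union_le (μ := P) {ω | ¬ ∀ q ≤ t, ‖G x q ω‖ ≤ R}
      {ω | ∃ s q : ℝ≥0, s ≤ t ∧ q ≤ t ∧ nndist s q ≤ δ ∧ 1 < ‖G x s ω - G x q ω‖}).trans
      (add_le_add hexp hosc)
    calc _ ≤ (ENNReal.ofReal ε + ENNReal.ofReal ε) + 0 := add_le_add h4 hdd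
      _ = _ := add_zero _
  refine le_antisymm ?_ zero_le
  refine ENNReal.le_of_forall_pos_le_add fun ε hε _ => ?_
  have hε' : (0 : ℝ) < (ε : ℝ) / 2 := by positivity
  have h1 := key ((ε : ℝ) / 2) hε'
  rw [← ENNReal.ofReal_add hε'.le hε'.le, add_halves, ENNReal.ofReal_coe_nnreal] at h1
  rw [zero_add]
  exact h1

/-- a probability measure which is invariant for the semigroup on bounded continuous functions is absolutely continuous -/
theorem inv_ac (S : Sys P n μ u B G) (π : Measure (Fin n → ℝ)) [IsProbabilityMeasure π]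
    (hinv : ∀ f : (Fin n → ℝ) →ᵇ ℝ, ∫ x, ptb S 1 f x ∂π = ∫ x, f x ∂π) : π ≪ volume := by
  have hP := S.prob
  -- joint measurability at time one
  have hm2 : Measurable fun p : (Fin n → ℝ) × Ω => G p.1 1 p.2 := by
    refine measurable_of_tendsto_metrizable (f := fun (N : ℕ) (p : (Fin n → ℝ) × Ω) =>
      euw (drift n μ u) (1 : ℝ≥0) N p.1 (blks B S.bm.cont 0 1 p.2)) (fun N => ?_)
      (tendsto_pi_nhds.mpr fun p => ?_)
    · exact (measurable_euw (drift_cont μ S.pot.lip) _ N).comp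
        (measurable_fst.prodMk ((measurable_blks S.bm 0 1).comp measurable_snd))
    · have h4 := euw_tendsto S p.1 0 one_pos p.2
      rw [gap_zero S p.1 p.2, zero_add] at h4
      exact h4
  set ρ : Measure (Fin n → ℝ) := (π.prod P).map (fun p => G p.1 1 p.2) with hρ
  have hρp : IsProbabilityMeasure ρ := Measure.isProbabilityMeasure_map hm2.aemeasurable
  have heq : ρ = π := by
    refine ext_of_forall_integral_eq_of_IsFiniteMeasure fun f => ?_
    rw [hρ, integral_map hm2.aemeasurable f.continuous.measurable.aestronglyMeasurable,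
      integral_prod]
    · exact hinv f
    · exact Integrable.of_bound (f.continuous.measurable.comp hm2).aestronglyMeasurable ‖f‖
        (Eventually.of_forall fun p => f.norm_coe_le_norm _)
  refine Measure.AbsolutelyContinuous.mk fun A hA hA0 => ?_
  rw [← heq, hρ, Measure.map_apply hm2 hA, Measure.prod_apply (hm2 hA)]
  have h1 : ∀ x, P (Prod.mk x ⁻¹' ((fun p : (Fin n → ℝ) × Ω => G p.1 1 p.2) ⁻¹' A)) = 0 := fun x =>
    gap_ac S x one_pos A hA0
  simp only [h1]
  simp

end Pool.Agent.SGP
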