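import Pool.Agent.SGP.Defs
import Pool.Agent.OYG.WSH
import Pool.Agent.OYG.WIN
import Pool.Agent.OYG.IPR

/-!
# BKS: scaled blocks of Brownian increments: law and independence of the past

`blks B _ s h ω i r = (B i (s + h r) ω - B i s ω) / √h`.

Proofs. (`law_blks`) `fun i t ω => B i (s + t) ω - B i s ω` is an `IsBMd` (`OYG.shift_bmd`), and
`fun i t ω => (√h)⁻¹ * B' i (h * t) ω` is again an `IsBMd` if `B'` is (`IsBrownianReal.smul`; independence: `comp`,
measurability and continuity are clear). `blks B s h` is the block number `0` (`OYG.blk _ _ 0`) of this Brownian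
motion, and `OYG.map_blk_zero`, `OYG.bpath_law` show that the law of block `0` is the same for all `IsBMd`
(compare the proof of `OYG.map_blk` in WSH).
(`indep_blks`) as `OYG.indep_blk` in WIN.lean: for each `i` the process `t ↦ B i (s+t) - B i s` is independent of
`(B i t)_{t ≤ s}` (`IsPreBrownianReal.indepFun_shift`), the pairs are independent over `i`, so `OYG.indep_pairs` gives
independence of the two families; `blks` is a measurable function of the first one (`comap ≤ comap`, use
`OYG.measurable_path` or `comap_bpath`), and `past B s` is the σ-algebra generated by the second one.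
(`integral_blks`) From independence: `P.restrict A` mapped by `(Y, blks)` is the product measure (test with indicator
functions), or: `∫ 1_A Ψ(Y, blks) = ∫∫` by `IndepFun` of `(1_A, Y)` (measurable w.r.t. the past) and `blks`, via
`indepFun_iff_map_prod_eq_prod_map_map` and `integral_map`, `integral_prod`.
-/

open MeasureTheory ProbabilityTheory Set Filter Topology
open scoped ENNReal NNReal BoundedContinuousFunction

namespace Pool.Agent.SGP

open Pool.Agent.OYG

variable {n : ℕ} {Ω : Type*} [mΩ : MeasurableSpace Ω] {P : Measure Ω} {B : Fin (n + 1) → ℝ≥0 → Ω → ℝ}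

theorem past_le (hB : IsBMd P n B) (s : ℝ≥0) : past B s ≤ mΩ := by
  rw [past, ← measurable_iff_comap_le]
  exact measurable_pi_lambda _ fun i => measurable_pi_lambda _ fun t => hB.meas i t

theorem measurable_past (i : Fin (n + 1)) {t s : ℝ≥0} (hts : t ≤ s) : Measurable[past B s] (B i t) := by
  have h : (B i t) = (fun y : Fin (n + 1) → (Set.Iic s) → ℝ => y i ⟨t, hts⟩) ∘
      (fun ω (i : Fin (n + 1)) (t : Set.Iic s) => B i (t : ℝ≥0) ω) := rfl
  rw [h]
  exact ((measurable_pi_apply (⟨t, hts⟩ : Set.Iic s)).comp (measurable_pi_apply i)).comp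
    (comap_measurable _)

theorem past_mono {s t : ℝ≥0} (hst : s ≤ t) : past B s ≤ past B t := by
  rw [past, ← measurable_iff_comap_le]
  refine @measurable_pi_lambda _ _ _ (past B t) _ _ fun i => ?_
  refine @measurable_pi_lambda _ _ _ (past B t) _ _ fun r => ?_
  exact measurable_past i (le_trans r.2 hst)

theorem measurable_blks (hB : IsBMd P n B) (s h : ℝ≥0) : Measurable (blks B hB.cont s h) := by
  refine measurable_pi_lambda _ fun i => measurable_path _ fun r => ?_
  exact ((hB.meas i _).sub (hB.meas i _)).div_const _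

/-- a block ending before time `t` is measurable with respect to the past of `t` -/
theorem measurable_blks_past (hB : IsBMd P n B) (s h : ℝ≥0) : Measurable[past B (s + h)] (blks B hB.cont s h) := by
  refine @measurable_pi_lambda _ _ _ (past B (s + h)) _ _ fun i => ?_
  refine @measurable_path _ (past B (s + h)) _ (fun r => ?_)
  have h1 : s + h * ⟨(r : ℝ), r.2.1⟩ ≤ s + h := by
    refine add_le_add le_rfl ?_
    have h2 : (⟨(r : ℝ), r.2.1⟩ : ℝ≥0) ≤ 1 := r.2.2
    calc h * ⟨(r : ℝ), r.2.1⟩ ≤ h * 1 := mul_le_mul_of_nonneg_left h2 h.2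
      _ = h := mul_one h
  have e1 := measurable_past (B := B) i h1
  have e2 := measurable_past (B := B) i (show s ≤ s + h from le_self_add)
  exact (e1.sub e2).div_const _

/-- the rescaled Brownian motions -/
theorem scale_bmd (hB : IsBMd P n B) {h : ℝ≥0} (hh : 0 < h) :
    IsBMd P n (fun i t ω => (√(h : ℝ))⁻¹ * B i (h * t) ω) where
  meas := fun i t => (hB.meas i (h * t)).const_mul _
  brownian := fun i => (hB.brownian i).smul hh.ne'
  cont := fun i ω => continuous_const.mul ((hB.cont i ω).comp (continuous_const.mul continuous_id))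
  zero := fun i ω => by
    show (√(h : ℝ))⁻¹ * B i (h * 0) ω = 0
    rw [mul_zero, hB.zero, mul_zero]
  indep := by
    exact hB.indep.comp (fun _ (f : ℝ≥0 → ℝ) (t : ℝ≥0) => (√(h : ℝ))⁻¹ * f (h * t)) (fun _ => by
      refine measurable_pi_lambda _ fun t => ?_
      exact (measurable_pi_apply _).const_mul _)

theorem law_blks (hB : IsBMd P n B) (s : ℝ≥0) {h : ℝ≥0} (hh : 0 < h) :
    P.map (blks B hB.cont s h) = P.map (blk B hB.cont 0) := by
  have hS := scale_bmd (shift_bmd hB s) hh
  have h1 : blks B hB.cont s h =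
      blk (fun i t ω => (√(h : ℝ))⁻¹ * (B i (s + h * t) ω - B i s ω)) hS.cont 0 := by
    funext ω i
    ext r
    have key : ∀ q : ℝ≥0, (B i (s + h * q) ω - B i s ω) / √(h : ℝ) =
        (√(h : ℝ))⁻¹ * (B i (s + h * (((0 : ℕ) : ℝ≥0) + q)) ω - B i s ω) -
          (√(h : ℝ))⁻¹ * (B i (s + h * ((0 : ℕ) : ℝ≥0)) ω - B i s ω) := fun q => by
      rw [Nat.cast_zero, zero_add, mul_zero, add_zero, sub_self, mul_zero, sub_zero, div_eq_inv_mul]
    exact key ⟨(r : ℝ), r.2.1⟩
  have hlaw := map_blk_zero hS
  rw [h1]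
  rw [show P.map (blk (fun i t ω => (√(h : ℝ))⁻¹ * (B i (s + h * t) ω - B i s ω)) hS.cont 0) = _
    from hlaw, map_blk_zero hB]
  congr 1
  funext i
  exact bpath_law _ _ (hS.cont i) (hB.cont i) (hS.meas i) (hB.meas i) (hS.brownian i) (hB.brownian i)

theorem indep_blks [IsProbabilityMeasure P] (hB : IsBMd P n B) (s h : ℝ≥0) :
    Indep (past B s) (MeasurableSpace.comap (blks B hB.cont s h) inferInstance) P := by
  set X : Fin (n + 1) → Ω → ℝ≥0 → ℝ := fun i ω t => B i (s + t) ω - B i s ω with hX
  set Y : Fin (n + 1) → Ω → (Set.Iic s) → ℝ := fun i ω t => B i (t : ℝ≥0) ω with hY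
  have hXm : ∀ i, Measurable (X i) := fun i =>
    measurable_pi_lambda _ fun t => (hB.meas i _).sub (hB.meas i _)
  have hYm : ∀ i, Measurable (Y i) := fun i => measurable_pi_lambda _ fun t => hB.meas i _
  have h2 : ∀ i, IndepFun (X i) (Y i) P := fun i => (hB.brownian i).indepFun_shift s
  have h1 : iIndepFun (fun i ω => (X i ω, Y i ω)) P := by
    have h := hB.indep.comp (fun _ (f : ℝ≥0 → ℝ) =>
      ((fun t : ℝ≥0 => f (s + t) - f s), (fun t : Set.Iic s => f t)))
      (fun _ => by
        refine Measurable.prodMk ?_ ?_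
        · exact measurable_pi_lambda _ fun t =>
            (measurable_pi_apply _).sub (measurable_pi_apply _)
        · exact measurable_pi_lambda _ fun t => measurable_pi_apply _)
    exact h
  have h3 := (indep_pairs X Y hXm hYm h1 h2).symm
  rw [IndepFun_iff_Indep] at h3
  refine indep_of_indep_of_le_right h3 ?_
  rw [← measurable_iff_comap_le]
  refine @measurable_pi_lambda _ _ _ (MeasurableSpace.comap _ inferInstance) _ _ (fun i => ?_)
  refine @measurable_path _ (MeasurableSpace.comap _ inferInstance) _ (fun r => ?_)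
  have e : (fun ω => (blks B hB.cont s h ω i) r) =
      (fun x : Fin (n + 1) → ℝ≥0 → ℝ => x i (h * ⟨(r : ℝ), r.2.1⟩) / √(h : ℝ)) ∘
        (fun ω i => X i ω) := by
    funext ω
    rfl
  rw [e]
  refine Measurable.comp ?_ (comap_measurable _)
  have hev : Measurable fun x : Fin (n + 1) → ℝ≥0 → ℝ => x i (h * ⟨(r : ℝ), r.2.1⟩) :=
    (measurable_pi_apply (h * ⟨(r : ℝ), r.2.1⟩)).comp (measurable_pi_apply i)
  exact hev.div_const _

theorem integral_blks [IsProbabilityMeasure P] (hB : IsBMd P n B) (s : ℝ≥0) {h : ℝ≥0} (hh : 0 < h) (A : Set Ω)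
    (hA : MeasurableSet[past B s] A) {E : Type*} [MeasurableSpace E] (Y : Ω → E) (hY : Measurable[past B s] Y)
    (Ψ : E × Blk n → ℝ) (hΨ : Measurable Ψ) (C : ℝ) (hC : ∀ p, |Ψ p| ≤ C) :
    ∫ ω in A, Ψ (Y ω, blks B hB.cont s h ω) ∂P =
      ∫ ω in A, (∫ w, Ψ (Y ω, w) ∂(P.map (blk B hB.cont 0))) ∂P := by
  have hle := past_le hB s
  have hA' : MeasurableSet A := hle A hA
  set Z : Ω → ℝ := A.indicator fun _ => (1 : ℝ) with hZdef
  have hZ : Measurable[past B s] Z := measurable_const.indicator hA
  have hp : Measurable[past B s] (fun ω => (Y ω, Z ω)) := hY.prodMk hZ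
  have hp' : Measurable (fun ω => (Y ω, Z ω)) := hp.mono hle le_rfl
  have hY' : Measurable Y := hY.mono hle le_rfl
  have hd : Measurable (blks B hB.cont s h) := measurable_blks hB s h
  have hind : IndepFun (fun ω => (Y ω, Z ω)) (blks B hB.cont s h) P := by
    rw [IndepFun_iff_Indep]
    refine indep_of_indep_of_le_left (indep_blks hB s h) ?_
    rw [← measurable_iff_comap_le]
    exact hp
  have hprod := (indepFun_iff_map_prod_eq_prod_map_map hp'.aemeasurable hd.aemeasurable).mp hind
  have hlaw := law_blks hB s hh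
  have hC0 : 0 ≤ C := by
    have hne : Nonempty Ω := by
      by_contra hne
      rw [not_nonempty_iff] at hne
      have h0 : P Set.univ = 0 := by rw [Set.univ_eq_empty_iff.mpr hne, measure_empty]
      rw [measure_univ] at h0
      exact one_ne_zero h0
    obtain ⟨ω⟩ := hne
    exact (abs_nonneg _).trans (hC (Y ω, blks B hB.cont s h ω))
  set F : (E × ℝ) × Blk n → ℝ := fun q => q.1.2 * Ψ (q.1.1, q.2) with hF
  have hFm : Measurable F :=
    (measurable_snd.comp measurable_fst).mul
      (hΨ.comp ((measurable_fst.comp measurable_fst).prodMk measurable_snd))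
  have m1 : IsProbabilityMeasure (P.map (fun ω => (Y ω, Z ω))) :=
    Measure.isProbabilityMeasure_map hp'.aemeasurable
  have m2 : IsProbabilityMeasure (P.map (blk B hB.cont 0)) :=
    Measure.isProbabilityMeasure_map (measurable_blk hB 0).aemeasurable
  have e1 : ∫ ω in A, Ψ (Y ω, blks B hB.cont s h ω) ∂P =
      ∫ ω, F ((Y ω, Z ω), blks B hB.cont s h ω) ∂P := by
    rw [← integral_indicator hA']
    refine integral_congr_ae (Eventually.of_forall fun ω => ?_)
    show A.indicator (fun ω => Ψ (Y ω, blks B hB.cont s h ω)) ω = Z ω * Ψ (Y ω, blks B hB.cont s h ω)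
    by_cases hω : ω ∈ A
    · simp [hZdef, hω]
    · simp [hZdef, hω]
  have e2 : ∫ ω, F ((Y ω, Z ω), blks B hB.cont s h ω) ∂P =
      ∫ q, F q ∂((P.map (fun ω => (Y ω, Z ω))).prod (P.map (blk B hB.cont 0))) := by
    rw [← hlaw, ← hprod, integral_map (hp'.prodMk hd).aemeasurable hFm.aestronglyMeasurable]
  have hbd : ∀ᵐ q ∂((P.map (fun ω => (Y ω, Z ω))).prod (P.map (blk B hB.cont 0))), ‖F q‖ ≤ C := by
    have hZq : ∀ᵐ r ∂(P.map (fun ω => (Y ω, Z ω))), |r.2| ≤ 1 := by
      rw [ae_map_iff hp'.aemeasurable (measurableSet_le measurable_snd.abs measurable_const)]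
      refine Eventually.of_forall fun ω => ?_
      show |Z ω| ≤ 1
      by_cases hω : ω ∈ A
      · simp [hZdef, hω]
      · simp [hZdef, hω]
    have hq : ∀ᵐ q ∂((P.map (fun ω => (Y ω, Z ω))).prod (P.map (blk B hB.cont 0))),
        |q.1.2| ≤ 1 := by
      have := Measure.quasiMeasurePreserving_fst
        (μ := P.map (fun ω => (Y ω, Z ω))) (ν := P.map (blk B hB.cont 0))
      exact this.ae hZq
    filter_upwards [hq] with q hq'
    rw [Real.norm_eq_abs, abs_mul]
    calc |q.1.2| * |Ψ (q.1.1, q.2)| ≤ 1 * C := mul_le_mul hq' (hC _) (abs_nonneg _) zero_le_one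
      _ = C := one_mul C
  have hint : Integrable F ((P.map (fun ω => (Y ω, Z ω))).prod (P.map (blk B hB.cont 0))) :=
    Integrable.of_bound hFm.aestronglyMeasurable C hbd
  rw [e1, e2, integral_prod _ hint]
  have hsm : StronglyMeasurable fun r : E × ℝ => ∫ w, F (r, w) ∂(P.map (blk B hB.cont 0)) :=
    (hFm.stronglyMeasurable).integral_prod_right (ν := P.map (blk B hB.cont 0))
  rw [integral_map hp'.aemeasurable hsm.aestronglyMeasurable, ← integral_indicator hA']
  refine integral_congr_ae (Eventually.of_forall fun ω => ?_)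
  show ∫ w, Z ω * Ψ (Y ω, w) ∂(P.map (blk B hB.cont 0)) =
    A.indicator (fun ω => ∫ w, Ψ (Y ω, w) ∂(P.map (blk B hB.cont 0))) ω
  rw [integral_const_mul]
  by_cases hω : ω ∈ A
  · simp [hZdef, hω]
  · simp [hZdef, hω]

end Pool.Agent.SGP
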