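import Pool.Agent.SGP.Defs

/-!
# CFM: coercivity of the matrix

Proofs. With `E = ∑ (x_i - x_{i+1}) x_i = (x_0² + x_{n-1}² + ∑_{i<n-1} (x_i - x_{i+1})²)/2` (`n ≥ 1`; for `n = 0` all is
`0`): `x_i = x_0 + ∑_{j<i} (x_{j+1} - x_j)`, Cauchy-Schwarz gives `x_i² ≤ (i+1) (x_0² + ∑ (x_{j+1}-x_j)²) ≤ 2 n E`, sum
over `i`: `∑ x_i² ≤ 2 n² E`. (`coer_abs`) `|∑ (x_i - x_{i+1}) y_i| ≤ 2 √(∑ x_i²) √(∑ y_i²)` in the form used below:
`2 |..| ≤ t ∑ x² * 4 + ∑ y² / t`... stated with a parameter. (`fderiv_dv`) linearity.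
-/

open MeasureTheory ProbabilityTheory Set Filter Topology
open scoped ENNReal NNReal BoundedContinuousFunction

namespace Pool.Agent.SGP

variable {n : ℕ}

/-- `x_{i+1}`, `0` for the last index -/
noncomputable def nxt (x : Fin n → ℝ) (i : Fin n) : ℝ := if h : (i : ℕ) + 1 < n then x ⟨(i : ℕ) + 1, h⟩ else 0

/-- extension by zero to all indices -/
noncomputable def ext0 (x : Fin n → ℝ) (k : ℕ) : ℝ := if h : k < n then x ⟨k, h⟩ else 0

theorem ext0_val (x : Fin n → ℝ) (i : Fin n) : ext0 x (i : ℕ) = x i := by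
  simp [ext0]

theorem ext0_nxt (x : Fin n → ℝ) (i : Fin n) : ext0 x ((i : ℕ) + 1) = nxt x i := rfl

theorem ext0_n (x : Fin n → ℝ) : ext0 x n = 0 := by
  simp [ext0]

theorem sum_ident (X : ℕ → ℝ) (n : ℕ) : ∑ k ∈ Finset.range n, (X k - X (k + 1)) * X k =
    (X 0 ^ 2 - X n ^ 2 + ∑ k ∈ Finset.range n, (X k - X (k + 1)) ^ 2) / 2 := by
  induction n with
  | zero => simp
  | succ n ih =>
    rw [Finset.sum_range_succ, Finset.sum_range_succ, ih]
    ring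

theorem tele_sq (X : ℕ → ℝ) {n k : ℕ} (hk : k ≤ n) : (X k - X n) ^ 2 ≤
    (n : ℝ) * ∑ i ∈ Finset.range n, (X i - X (i + 1)) ^ 2 := by
  have h1 : X k - X n = ∑ i ∈ Finset.range (n - k), (X (k + i) - X (k + i + 1)) := by
    have := Finset.sum_range_sub' (fun i => X (k + i)) (n - k)
    rw [add_zero, Nat.add_sub_cancel' hk] at this
    rw [← this]
    rfl
  have h2 := sq_sum_le_card_mul_sum_sq (s := Finset.range (n - k))
    (f := fun i => X (k + i) - X (k + i + 1))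
  rw [← h1, Finset.card_range] at h2
  have h3 : ∑ i ∈ Finset.range (n - k), (X (k + i) - X (k + i + 1)) ^ 2 ≤
      ∑ i ∈ Finset.range n, (X i - X (i + 1)) ^ 2 := by
    rw [← Finset.sum_Ico_eq_sum_range (fun i => (X i - X (i + 1)) ^ 2) k n]
    refine Finset.sum_le_sum_of_subset_of_nonneg (fun i hi => ?_) fun _ _ _ => sq_nonneg _
    rw [Finset.mem_Ico] at hi
    exact Finset.mem_range.mpr hi.2
  have h4 : (((n - k : ℕ) : ℝ)) ≤ n := by exact_mod_cast Nat.sub_le n k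
  have h5 : 0 ≤ ∑ i ∈ Finset.range (n - k), (X (k + i) - X (k + i + 1)) ^ 2 :=
    Finset.sum_nonneg fun _ _ => sq_nonneg _
  calc (X k - X n) ^ 2 ≤ ((n - k : ℕ) : ℝ) * ∑ i ∈ Finset.range (n - k), (X (k + i) - X (k + i + 1)) ^ 2 := h2
    _ ≤ (n : ℝ) * ∑ i ∈ Finset.range (n - k), (X (k + i) - X (k + i + 1)) ^ 2 :=
        mul_le_mul_of_nonneg_right h4 h5
    _ ≤ _ := mul_le_mul_of_nonneg_left h3 (Nat.cast_nonneg n)

theorem coer (x : Fin n → ℝ) : (1 / (2 * (n : ℝ) ^ 2)) * ∑ i, x i ^ 2 ≤ ∑ i, (x i - nxt x i) * x i := by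
  rcases Nat.eq_zero_or_pos n with h0 | hn
  · subst h0
    simp
  have hnpos : (0 : ℝ) < n := by exact_mod_cast hn
  have e1 : ∑ i, (x i - nxt x i) * x i =
      ∑ k ∈ Finset.range n, (ext0 x k - ext0 x (k + 1)) * ext0 x k := by
    rw [Finset.sum_range]
    refine Finset.sum_congr rfl fun i _ => ?_
    rw [ext0_val, ext0_nxt]
  have e2 : ∑ i, x i ^ 2 = ∑ k ∈ Finset.range n, ext0 x k ^ 2 := by
    rw [Finset.sum_range]
    refine Finset.sum_congr rfl fun i _ => ?_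
    rw [ext0_val]
  rw [e1, e2, sum_ident, ext0_n]
  set D : ℝ := ∑ k ∈ Finset.range n, (ext0 x k - ext0 x (k + 1)) ^ 2 with hD
  have hk : ∀ k ∈ Finset.range n, ext0 x k ^ 2 ≤ (n : ℝ) * D := fun k hk => by
    have h1 := tele_sq (ext0 x) (Finset.mem_range.mp hk).le
    rw [ext0_n, sub_zero] at h1
    exact h1
  have h2 : ∑ k ∈ Finset.range n, ext0 x k ^ 2 ≤ (n : ℝ) * ((n : ℝ) * D) := by
    have := Finset.sum_le_card_nsmul _ _ _ hk
    rw [Finset.card_range, nsmul_eq_mul] at this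
    exact this
  have h3 : 1 / (2 * (n : ℝ) ^ 2) * ∑ k ∈ Finset.range n, ext0 x k ^ 2 ≤ D / 2 := by
    rw [one_div, inv_mul_le_iff₀ (by positivity)]
    calc ∑ k ∈ Finset.range n, ext0 x k ^ 2 ≤ (n : ℝ) * ((n : ℝ) * D) := h2
      _ = 2 * (n : ℝ) ^ 2 * (D / 2) := by ring
  have h4 : 0 ≤ ext0 x 0 ^ 2 := sq_nonneg _
  linarith

theorem nxt_sq_sum (x : Fin n → ℝ) : ∑ i, nxt x i ^ 2 ≤ ∑ i, x i ^ 2 := by
  have e1 : ∑ i, nxt x i ^ 2 = ∑ k ∈ Finset.range n, ext0 x (k + 1) ^ 2 := by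
    rw [Finset.sum_range]
    refine Finset.sum_congr rfl fun i _ => ?_
    rw [ext0_nxt]
  have e2 : ∑ i, x i ^ 2 = ∑ k ∈ Finset.range n, ext0 x k ^ 2 := by
    rw [Finset.sum_range]
    refine Finset.sum_congr rfl fun i _ => ?_
    rw [ext0_val]
  rw [e1, e2]
  have h1 := Finset.sum_range_succ (fun k => ext0 x k ^ 2) n
  have h2 := Finset.sum_range_succ' (fun k => ext0 x k ^ 2) n
  rw [ext0_n] at h1
  have h3 : 0 ≤ ext0 x 0 ^ 2 := sq_nonneg _
  linarith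

theorem coer_abs (x y : Fin n → ℝ) {t : ℝ} (ht : 0 < t) :
    |∑ i, (x i - nxt x i) * y i| ≤ t * ∑ i, x i ^ 2 + (1 / t) * ∑ i, y i ^ 2 := by
  have h1 : ∀ i, |(x i - nxt x i) * y i| ≤ t / 2 * (x i ^ 2 + nxt x i ^ 2) + 1 / t * y i ^ 2 := by
    intro i
    have h2 : (x i - nxt x i) ^ 2 ≤ 2 * (x i ^ 2 + nxt x i ^ 2) := by
      nlinarith [sq_nonneg (x i + nxt x i)]
    have h3 : |(x i - nxt x i) * y i| ≤ t / 4 * (x i - nxt x i) ^ 2 + 1 / t * y i ^ 2 := by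
      rw [abs_mul]
      have h4 : 0 ≤ (t * |x i - nxt x i| / 2 - |y i|) ^ 2 := sq_nonneg _
      have h5 : |x i - nxt x i| ^ 2 = (x i - nxt x i) ^ 2 := sq_abs _
      have h6 : |y i| ^ 2 = y i ^ 2 := sq_abs _
      have h7 : t / 4 * (x i - nxt x i) ^ 2 + 1 / t * y i ^ 2 - |x i - nxt x i| * |y i| =
          (1 / t) * (t * |x i - nxt x i| / 2 - |y i|) ^ 2 := by
        rw [← h5, ← h6]
        field_simp
        ring
      have h8 : 0 ≤ (1 / t) * (t * |x i - nxt x i| / 2 - |y i|) ^ 2 := by positivity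
      linarith
    have h9 : t / 4 * (x i - nxt x i) ^ 2 ≤ t / 4 * (2 * (x i ^ 2 + nxt x i ^ 2)) :=
      mul_le_mul_of_nonneg_left h2 (by positivity)
    linarith
  refine (Finset.abs_sum_le_sum_abs _ _).trans ((Finset.sum_le_sum fun i _ => h1 i).trans ?_)
  rw [Finset.sum_add_distrib, ← Finset.mul_sum, ← Finset.mul_sum, Finset.sum_add_distrib]
  have h2 := nxt_sq_sum x
  nlinarith

theorem clm_dv (f : (Fin n → ℝ) →L[ℝ] ℝ) (i : Fin n) : f (dv i) = f (ev i) - nxt (fun j => f (ev j)) i := by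
  unfold dv nxt
  rw [map_sub]
  by_cases h : (i : ℕ) + 1 < n
  · simp only [h, dif_pos]
  · simp only [h, dif_neg, not_false_eq_true, map_zero]

end Pool.Agent.SGP
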