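import Pool.Agent.SGP.TST

/-!
# MLE: the mollified equation

`ml η σ v x = ∫ η (x - y) v y dσ(y)`.

Proofs. (`ml_contDiff`, `ml_fderiv`) differentiation under the integral: `x ↦ η (x - y) v y` has derivative bounded by
`sup ‖Dη‖ |v y|`, integrable (`hasFDerivAt_integral_of_dominated_of_fderiv_le`), continuity of the derivative by
dominated convergence.
(`mollified`) Put `φ y = ∫ Ψ x η (x - y) dx`. `φ` is a test function (convolution of a continuous compactly supported
function with a smooth compactly supported one: `HasCompactSupport.contDiff_convolution_left/right`,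
`HasCompactSupport.convolution`). Its derivatives: `Dφ y v = ∫ (DΨ x v) η (x - y) dx` (differentiate `η (x - y)` in `y`,
get `-Dη`, and integrate by parts in `x`; or write `φ y = ∫ Ψ (y + z) η z dz`, `Dφ y v = ∫ DΨ (y+z) v η z dz`), and
`∂_i` of `y ↦ Dφ y (dv i)` is `-∫ (DΨ x (dv i)) Dη (x - y) (ev i) dx`. So
`LL u μ φ y = -∑_i ∫ DΨ x (dv i) [Dη (x - y)(ev i) + w_i(y) η (x - y)] dx`, `w_i y = rel μ i - u (y i)`.
Insert into `hsol φ` and exchange the integrals (Fubini: everything is supported in `x ∈ supp Ψ`, `x - y ∈ supp η`, where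
`w_i` is bounded; `v` is integrable): the result is the claim, since
`∫ Dη (x - y)(ev i) v y dσ(y) = fderiv (ml η σ v) x (ev i)`.
-/

open MeasureTheory ProbabilityTheory Set Filter Topology
open scoped ENNReal NNReal BoundedContinuousFunction Convolution

namespace Pool.Agent.SGP

variable {n : ℕ} {μ : Fin (n + 1) → ℝ} {u : ℝ → ℝ}

/-- mollification of the measure `v σ` -/
noncomputable def ml (η : (Fin n → ℝ) → ℝ) (σ : Measure (Fin n → ℝ)) (v : (Fin n → ℝ) → ℝ) (x : Fin n → ℝ) : ℝ :=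
  ∫ y, η (x - y) * v y ∂σ

private theorem bdE {E F : Type*} [NormedAddCommGroup E] [NormedAddCommGroup F] {f : E → F}
    (hf : HasCompactSupport f) (h : Continuous f) : ∃ M : ℝ, 0 ≤ M ∧ ∀ x, ‖f x‖ ≤ M := by
  obtain ⟨M, hM⟩ := hf.exists_bound_of_continuous h
  exact ⟨M, le_trans (norm_nonneg _) (hM 0), hM⟩

private theorem bdD {η : (Fin n → ℝ) → ℝ} (hη : ContDiff ℝ 1 η) (hc : HasCompactSupport η) :
    ∃ M : ℝ, 0 ≤ M ∧ ∀ x, ‖fderiv ℝ η x‖ ≤ M := by
  have h1 : HasCompactSupport (fderiv ℝ η) := hc.fderiv ℝ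
  have h2 : Continuous (fderiv ℝ η) := hη.continuous_fderiv (by simp)
  exact bdE (E := Fin n → ℝ) (F := (Fin n → ℝ) →L[ℝ] ℝ) h1 h2

private theorem ml_int {η : (Fin n → ℝ) → ℝ} (hη : Continuous η) (hc : HasCompactSupport η)
    {σ : Measure (Fin n → ℝ)} {v : (Fin n → ℝ) → ℝ} (hv : Integrable v σ) (x : Fin n → ℝ) :
    Integrable (fun y => η (x - y) * v y) σ := by
  obtain ⟨M, _, hM⟩ := bdE hc hη
  exact Integrable.bdd_mul (c := M) hv (hη.comp (continuous_const.sub continuous_id)).aestronglyMeasurable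
    (Eventually.of_forall fun y => hM _)

private theorem dml_meas {η : (Fin n → ℝ) → ℝ} (hη : ContDiff ℝ 1 η)
    {σ : Measure (Fin n → ℝ)} {v : (Fin n → ℝ) → ℝ} (hv : Integrable v σ) (x : Fin n → ℝ) :
    AEStronglyMeasurable (fun y => v y • fderiv ℝ η (x - y)) σ := by
  have h1 : Continuous (fderiv ℝ η) := hη.continuous_fderiv (by simp)
  exact hv.1.smul (h1.comp (continuous_const.sub continuous_id)).aestronglyMeasurable

private theorem dml_bd {η : (Fin n → ℝ) → ℝ} {M : ℝ} (hM : ∀ x, ‖fderiv ℝ η x‖ ≤ M)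
    (v : (Fin n → ℝ) → ℝ) (x y : Fin n → ℝ) : ‖v y • fderiv ℝ η (x - y)‖ ≤ ‖v y‖ * M := by
  rw [norm_smul]
  exact mul_le_mul_of_nonneg_left (hM _) (norm_nonneg _)

private theorem dml_int {η : (Fin n → ℝ) → ℝ} (hη : ContDiff ℝ 1 η) (hc : HasCompactSupport η)
    {σ : Measure (Fin n → ℝ)} {v : (Fin n → ℝ) → ℝ} (hv : Integrable v σ) (x : Fin n → ℝ) :
    Integrable (fun y => v y • fderiv ℝ η (x - y)) σ := by
  obtain ⟨M, _, hM⟩ := bdD hη hc
  exact Integrable.mono' (hv.norm.mul_const M) (dml_meas hη hv x)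
    (Eventually.of_forall fun y => dml_bd hM v x y)

private theorem gen_deriv {η : (Fin n → ℝ) → ℝ} (hη : ContDiff ℝ 1 η) (hc : HasCompactSupport η)
    {σ : Measure (Fin n → ℝ)} {v : (Fin n → ℝ) → ℝ} (hv : Integrable v σ) (x : Fin n → ℝ) :
    HasFDerivAt (ml η σ v) (∫ y, v y • fderiv ℝ η (x - y) ∂σ) x := by
  obtain ⟨M, _, hM⟩ := bdD hη hc
  refine hasFDerivAt_integral_of_dominated_of_fderiv_le (F := fun x y => η (x - y) * v y)
    (F' := fun x y => v y • fderiv ℝ η (x - y)) (bound := fun y => ‖v y‖ * M) (s := Set.univ) univ_mem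
    (Eventually.of_forall fun x => (ml_int hη.continuous hc hv x).1) (ml_int hη.continuous hc hv x)
    (dml_meas hη hv x) (Eventually.of_forall fun y x _ => dml_bd hM v x y) (hv.norm.mul_const M)
    (Eventually.of_forall fun y x _ => ?_)
  have h1 : HasFDerivAt (fun x : Fin n → ℝ => x - y) (ContinuousLinearMap.id ℝ (Fin n → ℝ)) x :=
    (hasFDerivAt_id x).sub_const y
  have h2 : HasFDerivAt η (fderiv ℝ η (x - y)) (x - y) :=
    (hη.differentiable (by simp) (x - y)).hasFDerivAt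
  have h3 := (h2.comp x h1).mul_const (v y)
  simpa using h3

private theorem gen_fderiv {η : (Fin n → ℝ) → ℝ} (hη : ContDiff ℝ 1 η) (hc : HasCompactSupport η)
    {σ : Measure (Fin n → ℝ)} {v : (Fin n → ℝ) → ℝ} (hv : Integrable v σ) (x a : Fin n → ℝ) :
    fderiv ℝ (ml η σ v) x a = ∫ y, fderiv ℝ η (x - y) a * v y ∂σ := by
  rw [(gen_deriv hη hc hv x).fderiv, ContinuousLinearMap.integral_apply (dml_int hη hc hv x)]
  refine integral_congr_ae (Eventually.of_forall fun y => ?_)
  show v y * fderiv ℝ η (x - y) a = fderiv ℝ η (x - y) a * v y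
  ring

theorem ml_contDiff {η : (Fin n → ℝ) → ℝ} (hη : IsTest η) {σ : Measure (Fin n → ℝ)} [IsFiniteMeasure σ]
    {v : (Fin n → ℝ) → ℝ} (hv : Integrable v σ) : ContDiff ℝ 1 (ml η σ v) := by
  have hη1 : ContDiff ℝ 1 η := hη.1.of_le (by exact_mod_cast le_top)
  obtain ⟨M, _, hM⟩ := bdD hη1 hη.2
  rw [contDiff_one_iff_fderiv]
  refine ⟨fun x => (gen_deriv hη1 hη.2 hv x).differentiableAt, ?_⟩
  have h1 : fderiv ℝ (ml η σ v) = fun x => ∫ y, v y • fderiv ℝ η (x - y) ∂σ :=
    funext fun x => (gen_deriv hη1 hη.2 hv x).fderiv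
  rw [h1]
  refine continuous_of_dominated (bound := fun y => ‖v y‖ * M) (fun x => dml_meas hη1 hv x)
    (fun x => Eventually.of_forall fun y => dml_bd hM v x y) (hv.norm.mul_const M)
    (Eventually.of_forall fun y => ?_)
  have h2 : Continuous (fderiv ℝ η) := hη1.continuous_fderiv (by simp)
  exact (h2.comp (continuous_id.sub continuous_const)).const_smul (v y)

theorem ml_fderiv {η : (Fin n → ℝ) → ℝ} (hη : IsTest η) {σ : Measure (Fin n → ℝ)} [IsFiniteMeasure σ]
    {v : (Fin n → ℝ) → ℝ} (hv : Integrable v σ) (x a : Fin n → ℝ) :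
    fderiv ℝ (ml η σ v) x a = ∫ y, fderiv ℝ η (x - y) a * v y ∂σ :=
  gen_fderiv (hη.1.of_le (by exact_mod_cast le_top)) hη.2 hv x a

/-- radius of the support -/
private theorem supp_rad {η : (Fin n → ℝ) → ℝ} (hc : HasCompactSupport η) :
    ∃ r : ℝ, 0 ≤ r ∧ ∀ z, η z ≠ 0 → ‖z‖ ≤ r := by
  obtain ⟨r, hr⟩ := hc.isBounded.exists_norm_le
  refine ⟨max r 0, le_max_right _ _, fun z hz => ?_⟩
  exact (hr z (subset_tsupport η hz)).trans (le_max_left _ _)

private theorem bd_ball {g : (Fin n → ℝ) → ℝ} (hg : Continuous g) (r : ℝ) :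
    ∃ K : ℝ, 0 ≤ K ∧ ∀ y, ‖y‖ ≤ r → |g y| ≤ K := by
  obtain ⟨K, hK⟩ := (isCompact_closedBall (0 : Fin n → ℝ) r).exists_bound_of_continuousOn hg.continuousOn
  refine ⟨max K 0, le_max_right _ _, fun y hy => ?_⟩
  exact (hK y (by rwa [mem_closedBall_zero_iff])).trans (le_max_left _ _)

private theorem gen_weight_cont {η : (Fin n → ℝ) → ℝ} (hη : Continuous η) (hc : HasCompactSupport η)
    {g : (Fin n → ℝ) → ℝ} (hg : Continuous g) {σ : Measure (Fin n → ℝ)}
    {v : (Fin n → ℝ) → ℝ} (hv : Integrable v σ) : Continuous (ml η σ fun y => g y * v y) := by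
  obtain ⟨M, hM0, hM⟩ := bdE hc hη
  obtain ⟨r, hr0, hr⟩ := supp_rad hc
  rw [continuous_iff_continuousAt]
  intro x0
  obtain ⟨K, hK0, hK⟩ := bd_ball hg (‖x0‖ + 1 + r)
  refine continuousAt_of_dominated (bound := fun y => (M * K) * ‖v y‖) (Eventually.of_forall fun x => ?_) ?_
    (hv.norm.const_mul _) (Eventually.of_forall fun y => ?_)
  · exact (hη.comp (continuous_const.sub continuous_id)).aestronglyMeasurable.mul
      (hg.aestronglyMeasurable.mul hv.1)
  · filter_upwards [Metric.ball_mem_nhds x0 one_pos] with x hx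
    refine Eventually.of_forall fun y => ?_
    rw [mem_ball_iff_norm] at hx
    rw [norm_mul, norm_mul, ← mul_assoc]
    by_cases h : η (x - y) = 0
    · rw [h, norm_zero, zero_mul, zero_mul]
      positivity
    · have h1 := hr _ h
      have h2 : ‖y‖ ≤ ‖x0‖ + 1 + r := by
        have h3 : y = x0 + (x - x0) - (x - y) := by abel
        calc ‖y‖ = ‖x0 + (x - x0) - (x - y)‖ := by rw [← h3]
          _ ≤ ‖x0 + (x - x0)‖ + ‖x - y‖ := norm_sub_le _ _
          _ ≤ (‖x0‖ + ‖x - x0‖) + ‖x - y‖ := add_le_add (norm_add_le _ _) le_rfl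
          _ ≤ ‖x0‖ + 1 + r := by linarith
      have h4 := hK y h2
      rw [← Real.norm_eq_abs] at h4
      exact mul_le_mul_of_nonneg_right (mul_le_mul (hM _) h4 (norm_nonneg _) hM0) (norm_nonneg _)
  · exact ((hη.comp (continuous_id.sub continuous_const)).mul continuous_const).continuousAt

/-- the mollification with the weight `w_i` is continuous -/
theorem ml_weight_cont (hu : Pot u) {η : (Fin n → ℝ) → ℝ} (hη : IsTest η) {σ : Measure (Fin n → ℝ)}
    [IsFiniteMeasure σ] {v : (Fin n → ℝ) → ℝ} (hv : Integrable v σ) (i : Fin n) :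
    Continuous (ml η σ fun y => (rel μ i - u (y i)) * v y) :=
  gen_weight_cont hη.1.continuous hη.2
    (g := fun y => rel μ i - u (y i)) (continuous_const.sub (hu.lip.continuous.comp (continuous_apply i))) hv

/-! ### Fubini -/

private theorem fub {A θ g v : (Fin n → ℝ) → ℝ} {σ : Measure (Fin n → ℝ)} [IsFiniteMeasure σ]
    (hA : Continuous A) (hAc : HasCompactSupport A) (hθ : Continuous θ) (hθc : HasCompactSupport θ)
    (hg : Continuous g) (hv : Integrable v σ) :
    Integrable (fun p : (Fin n → ℝ) × (Fin n → ℝ) => A p.1 * θ (p.1 - p.2) * (g p.2 * v p.2))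
      (volume.prod σ) := by
  obtain ⟨M, hM0, hM⟩ := bdE hθc hθ
  obtain ⟨r, hr0, hr⟩ := supp_rad hθc
  obtain ⟨R, hR0, hR⟩ := supp_rad hAc
  obtain ⟨K, hK0, hK⟩ := bd_ball hg (R + r)
  have hAi : Integrable A volume := hA.integrable_of_hasCompactSupport hAc
  have h1 : Integrable (fun p : (Fin n → ℝ) × (Fin n → ℝ) => (‖A p.1‖ * (M * K)) * ‖v p.2‖) (volume.prod σ) :=
    (hAi.norm.mul_const (M * K)).mul_prod hv.norm
  refine h1.mono' ?_ (Eventually.of_forall fun p => ?_)
  · have hv2 : AEStronglyMeasurable (fun p : (Fin n → ℝ) × (Fin n → ℝ) => v p.2) (volume.prod σ) :=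
      hv.1.comp_snd
    exact ((hA.comp continuous_fst).aestronglyMeasurable.mul
      (hθ.comp (continuous_fst.sub continuous_snd)).aestronglyMeasurable).mul
      ((hg.comp continuous_snd).aestronglyMeasurable.mul hv2)
  · obtain ⟨x, y⟩ := p
    show ‖A x * θ (x - y) * (g y * v y)‖ ≤ (‖A x‖ * (M * K)) * ‖v y‖
    have e : ‖A x * θ (x - y) * (g y * v y)‖ = ‖A x‖ * (‖θ (x - y)‖ * ‖g y‖) * ‖v y‖ := by
      rw [norm_mul, norm_mul, norm_mul]
      ring
    rw [e]
    refine mul_le_mul_of_nonneg_right ?_ (norm_nonneg _)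
    by_cases h : A x = 0
    · rw [h, norm_zero, zero_mul, zero_mul]
    refine mul_le_mul_of_nonneg_left ?_ (norm_nonneg _)
    by_cases h' : θ (x - y) = 0
    · rw [h', norm_zero, zero_mul]
      positivity
    · have h1 := hR _ h
      have h2 := hr _ h'
      have h3 : ‖y‖ ≤ R + r := by
        have h4 : y = x - (x - y) := by abel
        calc ‖y‖ = ‖x - (x - y)‖ := by rw [← h4]
          _ ≤ ‖x‖ + ‖x - y‖ := norm_sub_le _ _
          _ ≤ R + r := add_le_add h1 h2
      have h5 := hK y h3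
      rw [← Real.norm_eq_abs] at h5
      exact mul_le_mul (hM _) h5 (norm_nonneg _) hM0

private noncomputable def cv (A θ : (Fin n → ℝ) → ℝ) (y : Fin n → ℝ) : ℝ := ∫ x, A x * θ (x - y)

private theorem fub_int {A θ g v : (Fin n → ℝ) → ℝ} {σ : Measure (Fin n → ℝ)} [IsFiniteMeasure σ]
    (hA : Continuous A) (hAc : HasCompactSupport A) (hθ : Continuous θ) (hθc : HasCompactSupport θ)
    (hg : Continuous g) (hv : Integrable v σ) :
    Integrable (fun y => cv A θ y * (g y * v y)) σ := by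
  have h1 := (fub hA hAc hθ hθc hg hv).integral_prod_right
  refine h1.congr (Eventually.of_forall fun y => ?_)
  show ∫ x, A x * θ (x - y) * (g y * v y) = (∫ x, A x * θ (x - y)) * (g y * v y)
  rw [integral_mul_const]

private theorem fub_eq {A θ g v : (Fin n → ℝ) → ℝ} {σ : Measure (Fin n → ℝ)} [IsFiniteMeasure σ]
    (hA : Continuous A) (hAc : HasCompactSupport A) (hθ : Continuous θ) (hθc : HasCompactSupport θ)
    (hg : Continuous g) (hv : Integrable v σ) :
    ∫ y, cv A θ y * (g y * v y) ∂σ = ∫ x, A x * ml θ σ (fun y => g y * v y) x := by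
  have h0 := fub hA hAc hθ hθc hg hv
  have h1 := integral_prod (μ := (volume : Measure (Fin n → ℝ))) (ν := σ) _ h0
  have h2 := integral_prod_symm (μ := (volume : Measure (Fin n → ℝ))) (ν := σ) _ h0
  have e1 : ∫ y, cv A θ y * (g y * v y) ∂σ = ∫ y, (∫ x, A x * θ (x - y) * (g y * v y)) ∂σ := by
    refine integral_congr_ae (Eventually.of_forall fun y => ?_)
    show (∫ x, A x * θ (x - y)) * (g y * v y) = ∫ x, A x * θ (x - y) * (g y * v y)
    rw [integral_mul_const]
  have e2 : ∫ x, A x * ml θ σ (fun y => g y * v y) x = ∫ x, (∫ y, A x * θ (x - y) * (g y * v y) ∂σ) := by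
    refine integral_congr_ae (Eventually.of_forall fun x => ?_)
    show A x * (∫ y, θ (x - y) * (g y * v y) ∂σ) = ∫ y, A x * θ (x - y) * (g y * v y) ∂σ
    rw [← integral_const_mul]
    refine integral_congr_ae (Eventually.of_forall fun y => ?_)
    show A x * (θ (x - y) * (g y * v y)) = A x * θ (x - y) * (g y * v y)
    ring
  rw [e1, e2, ← h1, ← h2]

/-! ### The convolution as a test function -/

private theorem cv_eq_ml (A θ : (Fin n → ℝ) → ℝ) : cv A θ = ml (fun z => θ (-z)) volume A := by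
  funext y
  show ∫ x, A x * θ (x - y) = ∫ x, θ (-(y - x)) * A x
  refine integral_congr_ae (Eventually.of_forall fun x => ?_)
  show A x * θ (x - y) = θ (-(y - x)) * A x
  rw [neg_sub]
  ring

private theorem cv_eq_ml2 (A θ : (Fin n → ℝ) → ℝ) : cv A θ = ml A volume fun z => θ (-z) := by
  funext y
  show ∫ x, A x * θ (x - y) = ∫ z, A (y - z) * θ (-z)
  have h1 : ∫ z, A (y - z) * θ (-z) = ∫ x, A x * θ (x - y) := by
    have h2 := integral_sub_left_eq_self (fun x : Fin n → ℝ => A x * θ (x - y)) volume y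
    rw [← h2]
    refine integral_congr_ae (Eventually.of_forall fun z => ?_)
    show A (y - z) * θ (-z) = A (y - z) * θ (y - z - y)
    congr 2
    abel
  exact h1.symm

private theorem neg_cd {θ : (Fin n → ℝ) → ℝ} {m : WithTop ℕ∞} (h : ContDiff ℝ m θ) :
    ContDiff ℝ m fun z => θ (-z) := h.comp contDiff_neg

private theorem neg_hc {θ : (Fin n → ℝ) → ℝ} (h : HasCompactSupport θ) :
    HasCompactSupport fun z => θ (-z) := h.comp_homeomorph (Homeomorph.neg (Fin n → ℝ))

/-- derivative falling on `A` -/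
private theorem cv_deriv1 {A θ : (Fin n → ℝ) → ℝ} (hA : ContDiff ℝ 1 A) (hAc : HasCompactSupport A)
    (hθ : Continuous θ) (hθc : HasCompactSupport θ) (y a : Fin n → ℝ) :
    fderiv ℝ (cv A θ) y a = cv (fun x => fderiv ℝ A x a) θ y := by
  have hi : Integrable (fun z => θ (-z)) (volume : Measure (Fin n → ℝ)) :=
    (hθ.comp continuous_neg).integrable_of_hasCompactSupport (neg_hc hθc)
  rw [cv_eq_ml2 A θ, gen_fderiv hA hAc hi y a, cv_eq_ml2]
  rfl

/-- derivative falling on `θ` -/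
private theorem cv_deriv2 {A θ : (Fin n → ℝ) → ℝ} (hA : Continuous A) (hAc : HasCompactSupport A)
    (hθ : ContDiff ℝ 1 θ) (hθc : HasCompactSupport θ) (y a : Fin n → ℝ) :
    fderiv ℝ (cv A θ) y a = - cv A (fun z => fderiv ℝ θ z a) y := by
  have hi : Integrable A (volume : Measure (Fin n → ℝ)) := hA.integrable_of_hasCompactSupport hAc
  rw [cv_eq_ml A θ, gen_fderiv (neg_cd hθ) (neg_hc hθc) hi y a]
  show ∫ x, fderiv ℝ (fun z => θ (-z)) (y - x) a * A x = -∫ x, A x * fderiv ℝ θ (x - y) a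
  rw [← integral_neg]
  refine integral_congr_ae (Eventually.of_forall fun x => ?_)
  have h1 : HasFDerivAt (fun z : Fin n → ℝ => θ (-z)) ((fderiv ℝ θ (-(y - x))).comp
      (-ContinuousLinearMap.id ℝ (Fin n → ℝ))) (y - x) := by
    have h2 : HasFDerivAt (fun z : Fin n → ℝ => -z) (-ContinuousLinearMap.id ℝ (Fin n → ℝ)) (y - x) :=
      (hasFDerivAt_id (y - x)).neg
    have h3 : HasFDerivAt θ (fderiv ℝ θ (-(y - x))) (-(y - x)) :=
      (hθ.differentiable (by simp) _).hasFDerivAt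
    exact h3.comp (y - x) h2
  show fderiv ℝ (fun z => θ (-z)) (y - x) a * A x = -(A x * fderiv ℝ θ (x - y) a)
  rw [h1.fderiv, neg_sub]
  simp
  ring

private theorem cv_test {A θ : (Fin n → ℝ) → ℝ} (hA : Continuous A) (hAc : HasCompactSupport A)
    (hθ : IsTest θ) : IsTest (cv A θ) := by
  have h1 : cv A θ = (A ⋆[ContinuousLinearMap.lsmul ℝ ℝ, volume] fun z => θ (-z)) := by
    funext y
    rw [convolution_def]
    show ∫ x, A x * θ (x - y) = ∫ x, A x • θ (-(y - x))
    refine integral_congr_ae (Eventually.of_forall fun x => ?_)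
    show A x * θ (x - y) = A x * θ (-(y - x))
    rw [neg_sub]
  rw [h1]
  exact ⟨(neg_hc hθ.2).contDiff_convolution_right _ hA.locallyIntegrable (neg_cd hθ.1),
    hAc.convolution _ (neg_hc hθ.2)⟩

theorem mollified (hu : Pot u) {σ : Measure (Fin n → ℝ)} [IsFiniteMeasure σ] {v : (Fin n → ℝ) → ℝ}
    (hv : Integrable v σ) (α : ℝ) (hsol : ∀ φ : (Fin n → ℝ) → ℝ, IsTest φ →
      ∫ y, (α * φ y - LL u μ φ y) * v y ∂σ = 0)
    {η : (Fin n → ℝ) → ℝ} (hη : IsTest η) {Ψ : (Fin n → ℝ) → ℝ} (hΨ : ContDiff ℝ 1 Ψ)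
    (hΨc : HasCompactSupport Ψ) :
    α * (∫ x, Ψ x * ml η σ v x) + ∑ i, ∫ x, fderiv ℝ Ψ x (dv i) *
      (fderiv ℝ (ml η σ v) x (ev i) + ml η σ (fun y => (rel μ i - u (y i)) * v y) x) = 0 := by
  have hη1 : ContDiff ℝ 1 η := hη.1.of_le (by exact_mod_cast le_top)
  have hηc : Continuous η := hη.1.continuous
  have hΨd : ∀ a, Continuous fun x => fderiv ℝ Ψ x a := fun a =>
    (hΨ.continuous_fderiv (by simp)).clm_apply continuous_const
  have hΨs : ∀ a, HasCompactSupport fun x => fderiv ℝ Ψ x a := fun a => hΨc.fderiv_apply ℝ a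
  have hηd : ∀ a, Continuous fun x => fderiv ℝ η x a := fun a => hη.dcont a
  have hηs : ∀ a, HasCompactSupport fun x => fderiv ℝ η x a := fun a => hη.dsupp a
  have hw : ∀ i : Fin n, Continuous fun y : Fin n → ℝ => rel μ i - u (y i) := fun i =>
    continuous_const.sub (hu.lip.continuous.comp (continuous_apply i))
  have htest : IsTest (cv Ψ η) := cv_test hΨ.continuous hΨc hη
  have hLL : ∀ y, LL u μ (cv Ψ η) y = -∑ i, (cv (fun x => fderiv ℝ Ψ x (dv i)) (fun z => fderiv ℝ η z (ev i)) y +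
      (rel μ i - u (y i)) * cv (fun x => fderiv ℝ Ψ x (dv i)) η y) := by
    intro y
    unfold LL
    rw [← Finset.sum_neg_distrib]
    refine Finset.sum_congr rfl fun i _ => ?_
    have h1 : (fun y => fderiv ℝ (cv Ψ η) y (dv i)) = cv (fun x => fderiv ℝ Ψ x (dv i)) η :=
      funext fun y => cv_deriv1 hΨ hΨc hηc hη.2 y (dv i)
    rw [h1, cv_deriv2 (hΨd (dv i)) (hΨs (dv i)) hη1 hη.2 y (ev i),
      cv_deriv1 hΨ hΨc hηc hη.2 y (dv i)]
    ring
  have hs := hsol _ htest
  have e0 : (fun y => (α * cv Ψ η y - LL u μ (cv Ψ η) y) * v y) = fun y =>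
      α * (cv Ψ η y * ((fun _ => (1 : ℝ)) y * v y)) + ∑ i,
        (cv (fun x => fderiv ℝ Ψ x (dv i)) (fun z => fderiv ℝ η z (ev i)) y * ((fun _ => (1 : ℝ)) y * v y) +
          cv (fun x => fderiv ℝ Ψ x (dv i)) η y * ((fun y => rel μ i - u (y i)) y * v y)) := by
    funext y
    rw [hLL y, sub_neg_eq_add, add_mul, Finset.sum_mul]
    congr 1
    · ring
    · refine Finset.sum_congr rfl fun i _ => ?_
      ring
  have i0 : Integrable (fun y => cv Ψ η y * ((fun _ => (1 : ℝ)) y * v y)) σ :=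
    fub_int hΨ.continuous hΨc hηc hη.2 continuous_const hv
  have i1 : ∀ i : Fin n, Integrable (fun y => cv (fun x => fderiv ℝ Ψ x (dv i)) (fun z => fderiv ℝ η z (ev i)) y *
      ((fun _ => (1 : ℝ)) y * v y)) σ := fun i =>
    fub_int (hΨd (dv i)) (hΨs (dv i)) (hηd (ev i)) (hηs (ev i)) continuous_const hv
  have i2 : ∀ i : Fin n, Integrable (fun y => cv (fun x => fderiv ℝ Ψ x (dv i)) η y *
      ((fun y => rel μ i - u (y i)) y * v y)) σ := fun i =>
    fub_int (hΨd (dv i)) (hΨs (dv i)) hηc hη.2 (hw i) hv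
  have i3 : ∀ i : Fin n, Integrable (fun y => cv (fun x => fderiv ℝ Ψ x (dv i)) (fun z => fderiv ℝ η z (ev i)) y *
      ((fun _ => (1 : ℝ)) y * v y) + cv (fun x => fderiv ℝ Ψ x (dv i)) η y *
      ((fun y => rel μ i - u (y i)) y * v y)) σ := fun i => (i1 i).add (i2 i)
  rw [e0, integral_add (i0.const_mul α) (integrable_finsetSum _ fun i _ => i3 i),
    integral_const_mul, integral_finsetSum _ fun i _ => i3 i,
    fub_eq hΨ.continuous hΨc hηc hη.2 continuous_const hv] at hs
  have hone : (fun y => (fun _ : Fin n → ℝ => (1 : ℝ)) y * v y) = v := by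
    funext y
    simp
  have hterm : ∀ i : Fin n, ∫ y, (cv (fun x => fderiv ℝ Ψ x (dv i)) (fun z => fderiv ℝ η z (ev i)) y *
      ((fun _ => (1 : ℝ)) y * v y) + cv (fun x => fderiv ℝ Ψ x (dv i)) η y *
      ((fun y => rel μ i - u (y i)) y * v y)) ∂σ = ∫ x, fderiv ℝ Ψ x (dv i) *
      (fderiv ℝ (ml η σ v) x (ev i) + ml η σ (fun y => (rel μ i - u (y i)) * v y) x) := by
    intro i
    rw [integral_add (i1 i) (i2 i), fub_eq (hΨd (dv i)) (hΨs (dv i)) (hηd (ev i)) (hηs (ev i)) continuous_const hv,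
      fub_eq (hΨd (dv i)) (hΨs (dv i)) hηc hη.2 (hw i) hv, hone, ← integral_add]
    · refine integral_congr_ae (Eventually.of_forall fun x => ?_)
      have h1 : ml (fun z => fderiv ℝ η z (ev i)) σ v x = fderiv ℝ (ml η σ v) x (ev i) :=
        (ml_fderiv hη hv x (ev i)).symm
      show fderiv ℝ Ψ x (dv i) * ml (fun z => fderiv ℝ η z (ev i)) σ v x +
        fderiv ℝ Ψ x (dv i) * ml η σ (fun y => (rel μ i - u (y i)) * v y) x = _
      rw [h1]
      ring
    · have hc : Continuous (ml (fun z => fderiv ℝ η z (ev i)) σ v) := by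
        have := gen_weight_cont (hηd (ev i)) (hηs (ev i)) (g := fun _ => (1 : ℝ)) continuous_const hv
        rwa [hone] at this
      exact ((hΨd (dv i)).mul hc).integrable_of_hasCompactSupport ((hΨs (dv i)).mul_right)
    · have hc : Continuous (ml η σ fun y => (rel μ i - u (y i)) * v y) := ml_weight_cont hu hη hv i
      exact ((hΨd (dv i)).mul hc).integrable_of_hasCompactSupport ((hΨs (dv i)).mul_right)
  rw [Finset.sum_congr rfl fun i _ => hterm i, hone] at hs
  exact hs

end Pool.Agent.SGP
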