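import Pool.Agent.SGP.IBP
import Pool.Agent.SGP.MLE
import Pool.Agent.SGP.CFM

/-!
# CO1: energy inequality for a mollified `L²` solution of `(α - L)^* v = 0`

Proof. Write `M = ml η (PI u μ) v` (`C^1`), `z = M / RH` (`C^1`), `w_i x = rel μ i - u (x i)`,
`r_i = ml η _ (w_i v) - w_i M`, `z_i = ∂_i z`, `χ_i = ∂_i χ` (directions `ev i`). By `RH_fderiv`
`∂_i M = RH z_i - w_i M`, so `∂_i M + ml η _ (w_i v) = RH z_i + r_i`. Apply `mollified` with `Ψ = χ² z`: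
`α ∫ χ² z² RH + ∑_i ∫ D(χ² z)(dv i) (RH z_i + r_i) = 0`, `D(χ² z)(dv i) = χ² (z_i - z_{i+1}) + 2 χ z (χ_i - χ_{i+1})`
(`clm_dv`, `nxt`). The pointwise inequality is `co1_alg`. All integrands are continuous with compact support.
-/

open MeasureTheory ProbabilityTheory Set Filter Topology
open scoped ENNReal NNReal BoundedContinuousFunction

namespace Pool.Agent.SGP

/-- the commutator -/
noncomputable def cmt {n : ℕ} (u : ℝ → ℝ) (μ : Fin (n + 1) → ℝ) (η : (Fin n → ℝ) → ℝ) (σ : Measure (Fin n → ℝ))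
    (v : (Fin n → ℝ) → ℝ) (i : Fin n) (x : Fin n → ℝ) : ℝ :=
  ml η σ (fun y => (rel μ i - u (y i)) * v y) x - (rel μ i - u (x i)) * ml η σ v x

theorem nxt_smul {n : ℕ} (c : ℝ) (x : Fin n → ℝ) (i : Fin n) : nxt (fun j => c * x j) i = c * nxt x i := by
  unfold nxt
  split_ifs <;> simp

theorem co1_alg {n : ℕ} (f g r : Fin n → ℝ) (a z : ℝ) {ρ : ℝ} (hρ : 0 < ρ) :
    -∑ i, (a ^ 2 * (f i - nxt f i) + 2 * a * z * (g i - nxt g i)) * (ρ * f i + r i) ≤
      (32 * (n : ℝ) ^ 2 + 2) * ((∑ i, g i ^ 2) * (ρ * z ^ 2) + a ^ 2 * (∑ i, r i ^ 2) / ρ) := by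
  rcases Nat.eq_zero_or_pos n with h0 | hn
  · subst h0
    simp
  have hnpos : (0 : ℝ) < n := by exact_mod_cast hn
  obtain ⟨N, hN⟩ : ∃ N : ℝ, N = (n : ℝ) ^ 2 := ⟨_, rfl⟩
  have hN0 : 0 < N := by rw [hN]; positivity
  have t1 := coer f
  have t2 := coer_abs f r (t := ρ / (8 * N)) (by positivity)
  have t3 := coer_abs (fun i => z * g i) (fun i => a * f i) (t := 16 * N) (by positivity)
  have t4 := coer_abs (fun i => z * g i) (fun i => a * r i) (t := ρ) hρ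
  obtain ⟨S1, hS1⟩ : ∃ S, S = ∑ i, (f i - nxt f i) * f i := ⟨_, rfl⟩
  obtain ⟨S2, hS2⟩ : ∃ S, S = ∑ i, (f i - nxt f i) * r i := ⟨_, rfl⟩
  obtain ⟨S3, hS3⟩ : ∃ S, S = ∑ i, (g i - nxt g i) * f i := ⟨_, rfl⟩
  obtain ⟨S4, hS4⟩ : ∃ S, S = ∑ i, (g i - nxt g i) * r i := ⟨_, rfl⟩
  obtain ⟨A, hA⟩ : ∃ S, S = ∑ i, f i ^ 2 := ⟨_, rfl⟩
  obtain ⟨B, hB⟩ : ∃ S, S = ∑ i, g i ^ 2 := ⟨_, rfl⟩
  obtain ⟨R, hR⟩ : ∃ S, S = ∑ i, r i ^ 2 := ⟨_, rfl⟩
  have hA0 : 0 ≤ A := by rw [hA]; exact Finset.sum_nonneg fun _ _ => sq_nonneg _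
  have hB0 : 0 ≤ B := by rw [hB]; exact Finset.sum_nonneg fun _ _ => sq_nonneg _
  have hR0 : 0 ≤ R := by rw [hR]; exact Finset.sum_nonneg fun _ _ => sq_nonneg _
  have e3 : ∑ i, (z * g i - nxt (fun i => z * g i) i) * (a * f i) = a * z * S3 := by
    rw [hS3, Finset.mul_sum]
    refine Finset.sum_congr rfl fun i _ => ?_
    rw [nxt_smul]
    ring
  have e4 : ∑ i, (z * g i - nxt (fun i => z * g i) i) * (a * r i) = a * z * S4 := by
    rw [hS4, Finset.mul_sum]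
    refine Finset.sum_congr rfl fun i _ => ?_
    rw [nxt_smul]
    ring
  have e5 : ∑ i, (z * g i) ^ 2 = z ^ 2 * B := by
    rw [hB, Finset.mul_sum]
    exact Finset.sum_congr rfl fun i _ => by ring
  have e6 : ∑ i, (a * f i) ^ 2 = a ^ 2 * A := by
    rw [hA, Finset.mul_sum]
    exact Finset.sum_congr rfl fun i _ => by ring
  have e7 : ∑ i, (a * r i) ^ 2 = a ^ 2 * R := by
    rw [hR, Finset.mul_sum]
    exact Finset.sum_congr rfl fun i _ => by ring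
  rw [← hA, ← hS1, ← hN] at t1
  rw [← hA, ← hR, ← hS2] at t2
  rw [e3, e5, e6] at t3
  rw [e4, e5, e7] at t4
  have eE : ∑ i, (a ^ 2 * (f i - nxt f i) + 2 * a * z * (g i - nxt g i)) * (ρ * f i + r i) =
      a ^ 2 * ρ * S1 + a ^ 2 * S2 + 2 * ρ * (a * z * S3) + 2 * (a * z * S4) := by
    rw [hS1, hS2, hS3, hS4, Finset.mul_sum, Finset.mul_sum, Finset.mul_sum, Finset.mul_sum, Finset.mul_sum,
      Finset.mul_sum, ← Finset.sum_add_distrib, ← Finset.sum_add_distrib, ← Finset.sum_add_distrib]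
    exact Finset.sum_congr rfl fun i _ => by ring
  rw [eE, ← hB, ← hR, ← hN]
  obtain ⟨P, hP⟩ : ∃ P, P = a ^ 2 * ρ * A / N := ⟨_, rfl⟩
  obtain ⟨Q, hQ⟩ : ∃ Q, Q = a ^ 2 * R / ρ := ⟨_, rfl⟩
  obtain ⟨T, hT⟩ : ∃ T, T = B * (ρ * z ^ 2) := ⟨_, rfl⟩
  have hP0 : 0 ≤ P := by rw [hP]; positivity
  have hQ0 : 0 ≤ Q := by rw [hQ]; positivity
  have k1 : P / 2 ≤ a ^ 2 * ρ * S1 := by
    have := mul_le_mul_of_nonneg_left t1 (show 0 ≤ a ^ 2 * ρ by positivity)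
    calc P / 2 = a ^ 2 * ρ * (1 / (2 * N) * A) := by rw [hP]; field_simp
      _ ≤ _ := this
  have k2 : -(a ^ 2 * S2) ≤ P / 8 + 8 * N * Q := by
    have h1 : -S2 ≤ ρ / (8 * N) * A + 1 / (ρ / (8 * N)) * R := (neg_le_abs S2).trans t2
    have := mul_le_mul_of_nonneg_left h1 (show 0 ≤ a ^ 2 by positivity)
    calc -(a ^ 2 * S2) = a ^ 2 * -S2 := by ring
      _ ≤ a ^ 2 * (ρ / (8 * N) * A + 1 / (ρ / (8 * N)) * R) := this
      _ = P / 8 + 8 * N * Q := by rw [hP, hQ]; field_simp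
  have k3 : -(2 * ρ * (a * z * S3)) ≤ 32 * N * T + P / 8 := by
    have h1 : -(a * z * S3) ≤ 16 * N * (z ^ 2 * B) + 1 / (16 * N) * (a ^ 2 * A) := (neg_le_abs _).trans t3
    have := mul_le_mul_of_nonneg_left h1 (show 0 ≤ 2 * ρ by positivity)
    calc -(2 * ρ * (a * z * S3)) = 2 * ρ * -(a * z * S3) := by ring
      _ ≤ 2 * ρ * (16 * N * (z ^ 2 * B) + 1 / (16 * N) * (a ^ 2 * A)) := this
      _ = 32 * N * T + P / 8 := by rw [hP, hT]; field_simp; ring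
  have k4 : -(2 * (a * z * S4)) ≤ 2 * T + 2 * Q := by
    have h1 : -(a * z * S4) ≤ ρ * (z ^ 2 * B) + 1 / ρ * (a ^ 2 * R) := (neg_le_abs _).trans t4
    have := mul_le_mul_of_nonneg_left h1 (show (0 : ℝ) ≤ 2 by norm_num)
    calc -(2 * (a * z * S4)) = 2 * -(a * z * S4) := by ring
      _ ≤ 2 * (ρ * (z ^ 2 * B) + 1 / ρ * (a ^ 2 * R)) := this
      _ = 2 * T + 2 * Q := by rw [hT, hQ]; field_simp
  have k5 : 0 ≤ N * Q := by positivity
  rw [← hQ, ← hT]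
  have k6 : (32 * N + 2) * (T + Q) = 32 * N * T + 2 * T + 32 * (N * Q) + 2 * Q := by ring
  rw [k6]
  linarith

theorem core_energy (n : ℕ) : ∃ C : ℝ, 0 < C ∧ ∀ {u : ℝ → ℝ} (_ : Pot u) {μ : Fin (n + 1) → ℝ}
    (_ : ∀ i : Fin n, μ i.succ < μ i.castSucc) {α : ℝ} (_ : 0 < α) {v : (Fin n → ℝ) → ℝ}
    (_ : Integrable v (PI u μ))
    (_ : ∀ φ : (Fin n → ℝ) → ℝ, IsTest φ → ∫ y, (α * φ y - LL u μ φ y) * v y ∂(PI u μ) = 0)
    {χ η : (Fin n → ℝ) → ℝ} (_ : IsTest χ) (_ : IsTest η),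
    α * ∫ x, χ x ^ 2 * (ml η (PI u μ) v x) ^ 2 / RH u μ x ≤
      C * ((∫ x, (∑ i, fderiv ℝ χ x (ev i) ^ 2) * (ml η (PI u μ) v x) ^ 2 / RH u μ x) +
        ∫ x, χ x ^ 2 * (∑ i, cmt u μ η (PI u μ) v i x ^ 2) / RH u μ x) := by
  refine ⟨32 * (n : ℝ) ^ 2 + 2, by positivity, ?_⟩
  intro u hu μ hμ α hα v hv hsol χ η hχ hη
  have hprob : IsProbabilityMeasure (PI u μ) := PI_prob hu hμ
  obtain ⟨M, hM⟩ : ∃ M, M = ml η (PI u μ) v := ⟨_, rfl⟩
  have hMd : ContDiff ℝ 1 M := by rw [hM]; exact ml_contDiff hη hv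
  have hRd : ContDiff ℝ 1 (RH u μ) := RH_contDiff hu
  have hRpos : ∀ x, 0 < RH u μ x := RH_pos hu hμ
  have hRne : ∀ x, RH u μ x ≠ 0 := fun x => (hRpos x).ne'
  have hRc : Continuous (RH u μ) := hRd.continuous
  have hMc : Continuous M := hMd.continuous
  obtain ⟨z, hz⟩ : ∃ z, z = fun x => M x / RH u μ x := ⟨_, rfl⟩
  have hzd : ContDiff ℝ 1 z := by rw [hz]; exact hMd.div hRd hRne
  have hzc : Continuous z := hzd.continuous
  have hMz : ∀ x, M x = z x * RH u μ x := fun x => by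
    rw [hz]
    exact (div_mul_cancel₀ _ (hRne x)).symm
  have hwc : ∀ i : Fin n, Continuous fun x : Fin n → ℝ => rel μ i - u (x i) := fun i =>
    continuous_const.sub (hu.lip.continuous.comp (continuous_apply i))
  have hNc : ∀ i : Fin n, Continuous (ml η (PI u μ) fun y => (rel μ i - u (y i)) * v y) := fun i =>
    ml_weight_cont hu hη hv i
  have hrc : ∀ i : Fin n, Continuous (cmt u μ η (PI u μ) v i) := fun i => by
    unfold cmt
    rw [← hM]
    exact (hNc i).sub ((hwc i).mul hMc)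
  -- derivative of `M`
  have hMi : ∀ x (i : Fin n), fderiv ℝ M x (ev i) + ml η (PI u μ) (fun y => (rel μ i - u (y i)) * v y) x =
      RH u μ x * fderiv ℝ z x (ev i) + cmt u μ η (PI u μ) v i x := by
    intro x i
    have h1 : M = fun x => z x * RH u μ x := funext hMz
    have h2 : HasFDerivAt (fun x => z x * RH u μ x) (z x • fderiv ℝ (RH u μ) x + RH u μ x • fderiv ℝ z x) x :=
      (hzd.differentiable (by simp) x).hasFDerivAt.mul (hRd.differentiable (by simp) x).hasFDerivAt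
    have h3 : fderiv ℝ M x (ev i) = z x * (-(rel μ i - u (x i)) * RH u μ x) + RH u μ x * fderiv ℝ z x (ev i) := by
      conv_lhs => rw [h1, h2.fderiv]
      simp only [add_apply, smul_apply, smul_eq_mul, RH_fderiv hu]
    rw [h3, cmt, ← hM, hMz x]
    ring
  -- the test function
  obtain ⟨Ψ, hΨ⟩ : ∃ Ψ : (Fin n → ℝ) → ℝ, Ψ = fun x => χ x ^ 2 * z x := ⟨_, rfl⟩
  have hχ1 : ContDiff ℝ 1 χ := hχ.1.of_le (by exact_mod_cast le_top)
  have hΨd : ContDiff ℝ 1 Ψ := by rw [hΨ]; exact (hχ1.pow 2).mul hzd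
  have hχ2s : HasCompactSupport fun x => χ x ^ 2 := by
    have : (fun x => χ x ^ 2) = fun x => χ x * χ x := funext fun x => sq _
    rw [this]
    exact hχ.2.mul_left
  have hΨs : HasCompactSupport Ψ := by rw [hΨ]; exact hχ2s.mul_right
  have hΨf : ∀ x a, fderiv ℝ Ψ x a = χ x ^ 2 * fderiv ℝ z x a + 2 * χ x * z x * fderiv ℝ χ x a := by
    intro x a
    have h1 : HasFDerivAt (fun x => χ x ^ 2) ((2 * χ x) • fderiv ℝ χ x) x := by
      have h2 := (hχ.diff x).hasFDerivAt.mul (hχ.diff x).hasFDerivAt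
      have h3 : (fun x => χ x ^ 2) = fun x => χ x * χ x := funext fun x => sq _
      rw [h3]
      refine h2.congr_fderiv ?_
      rw [← add_smul]
      congr 1
      ring
    have h4 := h1.mul (hzd.differentiable (by simp) x).hasFDerivAt
    have h5 : fderiv ℝ Ψ x = χ x ^ 2 • fderiv ℝ z x + z x • ((2 * χ x) • fderiv ℝ χ x) := by
      rw [hΨ]
      exact h4.fderiv
    rw [h5]
    simp only [add_apply, smul_apply, smul_eq_mul]
    ring
  have key := mollified (μ := μ) hu hv α hsol hη hΨd hΨs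
  rw [← hM] at key
  have hzi : ∀ a, Continuous fun x => fderiv ℝ z x a := fun a =>
    (hzd.continuous_fderiv (by simp)).clm_apply continuous_const
  have hΨi : ∀ a, Continuous fun x => fderiv ℝ Ψ x a := fun a =>
    (hΨd.continuous_fderiv (by simp)).clm_apply continuous_const
  have hΨis : ∀ a, HasCompactSupport fun x => fderiv ℝ Ψ x a := fun a => hΨs.fderiv_apply ℝ a
  have hint : ∀ i ∈ (Finset.univ : Finset (Fin n)), Integrable (fun x => fderiv ℝ Ψ x (dv i) *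
      (RH u μ x * fderiv ℝ z x (ev i) + cmt u μ η (PI u μ) v i x)) := fun i _ =>
    ((hΨi (dv i)).mul ((hRc.mul (hzi (ev i))).add (hrc i))).integrable_of_hasCompactSupport
      ((hΨis (dv i)).mul_right)
  have hsum : ∑ i, ∫ x, fderiv ℝ Ψ x (dv i) *
      (fderiv ℝ M x (ev i) + ml η (PI u μ) (fun y => (rel μ i - u (y i)) * v y) x) =
      ∫ x, ∑ i, fderiv ℝ Ψ x (dv i) *
        (RH u μ x * fderiv ℝ z x (ev i) + cmt u μ η (PI u μ) v i x) := by
    rw [integral_finsetSum _ hint]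
    refine Finset.sum_congr rfl fun i _ => ?_
    refine integral_congr_ae (Eventually.of_forall fun x => ?_)
    show fderiv ℝ Ψ x (dv i) *
      (fderiv ℝ M x (ev i) + ml η (PI u μ) (fun y => (rel μ i - u (y i)) * v y) x) = _
    rw [hMi]
  rw [hsum] at key
  have hleft : ∫ x, Ψ x * M x = ∫ x, χ x ^ 2 * M x ^ 2 / RH u μ x := by
    refine integral_congr_ae (Eventually.of_forall fun x => ?_)
    show Ψ x * M x = χ x ^ 2 * M x ^ 2 / RH u μ x
    rw [hΨ, hz]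
    show χ x ^ 2 * (M x / RH u μ x) * M x = _
    ring
  rw [hleft] at key
  rw [← hM]
  -- pointwise
  have hχi : ∀ a, Continuous fun x => fderiv ℝ χ x a := fun a => hχ.dcont a
  have i1 : Integrable fun x => (∑ i, fderiv ℝ χ x (ev i) ^ 2) * M x ^ 2 / RH u μ x := by
    have hc : Continuous fun x => (∑ i, fderiv ℝ χ x (ev i) ^ 2) * M x ^ 2 / RH u μ x :=
      ((continuous_finsetSum _ fun i _ => (hχi (ev i)).pow 2).mul (hMc.pow 2)).div₀ hRc hRne
    refine hc.integrable_of_hasCompactSupport ?_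
    refine HasCompactSupport.intro' (K := tsupport χ) hχ.2 (isClosed_tsupport χ) fun x hx => ?_
    have h0 : fderiv ℝ χ x = 0 := by
      have h1 : x ∉ tsupport (fderiv ℝ χ) := fun h => hx (tsupport_fderiv_subset ℝ h)
      exact image_eq_zero_of_notMem_tsupport h1
    rw [h0]
    simp
  have i2 : Integrable fun x => χ x ^ 2 * (∑ i, cmt u μ η (PI u μ) v i x ^ 2) / RH u μ x := by
    have hc : Continuous fun x => χ x ^ 2 * (∑ i, cmt u μ η (PI u μ) v i x ^ 2) / RH u μ x :=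
      ((hχ.cont.pow 2).mul (continuous_finsetSum _ fun i _ => (hrc i).pow 2)).div₀ hRc hRne
    refine hc.integrable_of_hasCompactSupport ?_
    refine HasCompactSupport.intro' (K := tsupport χ) hχ.2 (isClosed_tsupport χ) fun x hx => ?_
    rw [image_eq_zero_of_notMem_tsupport hx]
    simp
  have i3 : Integrable fun x => ∑ i, fderiv ℝ Ψ x (dv i) *
      (RH u μ x * fderiv ℝ z x (ev i) + cmt u μ η (PI u μ) v i x) := integrable_finsetSum _ hint
  have hpt : ∀ x, -∑ i, fderiv ℝ Ψ x (dv i) *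
      (RH u μ x * fderiv ℝ z x (ev i) + cmt u μ η (PI u μ) v i x) ≤
      (32 * (n : ℝ) ^ 2 + 2) * ((∑ i, fderiv ℝ χ x (ev i) ^ 2) * M x ^ 2 / RH u μ x +
        χ x ^ 2 * (∑ i, cmt u μ η (PI u μ) v i x ^ 2) / RH u μ x) := by
    intro x
    have h1 := co1_alg (fun i => fderiv ℝ z x (ev i)) (fun i => fderiv ℝ χ x (ev i))
      (fun i => cmt u μ η (PI u μ) v i x) (χ x) (z x) (hRpos x)
    have h2 : (∑ i, fderiv ℝ χ x (ev i) ^ 2) * (RH u μ x * z x ^ 2) =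
        (∑ i, fderiv ℝ χ x (ev i) ^ 2) * M x ^ 2 / RH u μ x := by
      rw [hMz x]
      field_simp [hRne x]
    rw [h2] at h1
    refine le_trans (le_of_eq ?_) h1
    congr 1
    refine Finset.sum_congr rfl fun i _ => ?_
    rw [hΨf x (dv i), clm_dv, clm_dv]
  have hfin : -∫ x, ∑ i, fderiv ℝ Ψ x (dv i) *
      (RH u μ x * fderiv ℝ z x (ev i) + cmt u μ η (PI u μ) v i x) ≤
      (32 * (n : ℝ) ^ 2 + 2) * ((∫ x, (∑ i, fderiv ℝ χ x (ev i) ^ 2) * M x ^ 2 / RH u μ x) +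
        ∫ x, χ x ^ 2 * (∑ i, cmt u μ η (PI u μ) v i x ^ 2) / RH u μ x) := by
    rw [← integral_neg, ← integral_add i1 i2, ← integral_const_mul]
    exact integral_mono i3.neg ((i1.add i2).const_mul _) hpt
  linarith

end Pool.Agent.SGP
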