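import Pool.Agent.SGP.TST

/-!
# MOL: mollifiers and cutoff functions

Proofs. `mo k` = normalised `ContDiffBump (0 : Fin n → ℝ)` with radii `1/(2(k+1)) < 1/(k+1)`; `mo_ae` is
`ContDiffBump.ae_convolution_tendsto_right_of_locallyIntegrable` (mind the form of the convolution:
`convolution_def`, `∫ mo k (x - y) * q y dy`). `cutoff`: a fixed bump `χ_1` (1 on the unit ball, support in the ball of
radius 2), `χ_R x = χ_1 (x / R)`; the derivative is bounded by `sup ‖Dχ_1‖ / R`.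
-/

open MeasureTheory ProbabilityTheory Set Filter Topology
open scoped ENNReal NNReal BoundedContinuousFunction

namespace Pool.Agent.SGP

variable {n : ℕ}

private noncomputable def bmp (n k : ℕ) : ContDiffBump (0 : Fin n → ℝ) where
  rIn := 1 / (2 * ((k : ℝ) + 1))
  rOut := 1 / ((k : ℝ) + 1)
  rIn_pos := by positivity
  rIn_lt_rOut := by
    have : (0 : ℝ) < (k : ℝ) + 1 := by positivity
    rw [div_lt_div_iff₀ (by positivity) this]
    linarith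

/-- a sequence of mollifiers -/
theorem exists_mollifier (n : ℕ) : ∃ mo : ℕ → (Fin n → ℝ) → ℝ, (∀ k, IsTest (mo k)) ∧ (∀ k x, 0 ≤ mo k x) ∧
    (∀ k, ∫ x, mo k x = 1) ∧ (∀ k x, mo k x ≠ 0 → ‖x‖ ≤ 1 / ((k : ℝ) + 1)) ∧
    (∀ q : (Fin n → ℝ) → ℝ, LocallyIntegrable q → ∀ᵐ x, Tendsto (fun k => ∫ y, mo k (x - y) * q y) atTop (𝓝 (q x))) := by
  refine ⟨fun k => (bmp n k).normed volume, fun k => ⟨(bmp n k).contDiff_normed,
    (bmp n k).hasCompactSupport_normed⟩, fun k x => (bmp n k).nonneg_normed x,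
    fun k => (bmp n k).integral_normed, fun k x hx => ?_, fun q hq => ?_⟩
  · have h1 : x ∈ Function.support ((bmp n k).normed volume) := hx
    rw [(bmp n k).support_normed_eq, mem_ball_zero_iff] at h1
    exact h1.le
  · have h1 : Tendsto (fun k => (bmp n k).rOut) atTop (𝓝 0) := tendsto_one_div_add_atTop_nhds_zero_nat
    have h2 : ∀ᶠ k in atTop, (bmp n k).rOut ≤ 2 * (bmp n k).rIn := by
      refine Eventually.of_forall fun k => ?_
      show 1 / ((k : ℝ) + 1) ≤ 2 * (1 / (2 * ((k : ℝ) + 1)))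
      have : (0 : ℝ) < (k : ℝ) + 1 := by positivity
      rw [mul_one_div, mul_comm 2 ((k : ℝ) + 1), div_mul_cancel_right₀ (by norm_num)]
      rw [one_div]
    have h3 := ContDiffBump.ae_convolution_tendsto_right_of_locallyIntegrable (μ := volume)
      (φ := fun k => bmp n k) h1 h2 hq
    filter_upwards [h3] with x hx
    refine hx.congr fun k => ?_
    rw [convolution_lsmul_swap]
    rfl

theorem exists_cutoff (n : ℕ) : ∃ C : ℝ, 0 < C ∧ ∀ R : ℝ, 1 ≤ R → ∃ χ : (Fin n → ℝ) → ℝ, IsTest χ ∧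
    (∀ x, 0 ≤ χ x ∧ χ x ≤ 1) ∧ (∀ x, ‖x‖ ≤ R → χ x = 1) ∧ ∀ x v, |fderiv ℝ χ x v| ≤ C / R * ‖v‖ := by
  let f : ContDiffBump (0 : Fin n → ℝ) :=
    { rIn := 1, rOut := 2, rIn_pos := one_pos, rIn_lt_rOut := one_lt_two }
  have hfs : ContDiff ℝ ((⊤ : ℕ∞) : WithTop ℕ∞) (f : (Fin n → ℝ) → ℝ) := f.contDiff
  have hfc : HasCompactSupport (f : (Fin n → ℝ) → ℝ) := f.hasCompactSupport
  have hfd : HasCompactSupport (fderiv ℝ (f : (Fin n → ℝ) → ℝ)) := hfc.fderiv ℝ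
  have hfdc : Continuous (fderiv ℝ (f : (Fin n → ℝ) → ℝ)) := hfs.continuous_fderiv (by simp)
  obtain ⟨C, hC⟩ := hfd.exists_bound_of_continuous hfdc
  have hC0 : 0 ≤ C := (norm_nonneg _).trans (hC 0)
  refine ⟨C + 1, by positivity, fun R hR => ?_⟩
  have hR0 : 0 < R := by linarith
  refine ⟨fun x => f (R⁻¹ • x), ⟨?_, ?_⟩, fun x => ⟨f.nonneg, f.le_one⟩, fun x hx => ?_, fun x v => ?_⟩
  · exact hfs.comp (contDiff_const_smul R⁻¹)
  · exact hfc.comp_smul (inv_ne_zero hR0.ne')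
  · refine f.one_of_mem_closedBall ?_
    rw [mem_closedBall_zero_iff, norm_smul, norm_inv, Real.norm_eq_abs, abs_of_pos hR0]
    show R⁻¹ * ‖x‖ ≤ 1
    rw [inv_mul_le_iff₀ hR0]
    linarith
  · have h1 : HasFDerivAt (fun x : Fin n → ℝ => f (R⁻¹ • x))
        ((fderiv ℝ (f : (Fin n → ℝ) → ℝ) (R⁻¹ • x)).comp (R⁻¹ • ContinuousLinearMap.id ℝ (Fin n → ℝ))) x := by
      have h2 : HasFDerivAt (fun x : Fin n → ℝ => R⁻¹ • x)
          (R⁻¹ • ContinuousLinearMap.id ℝ (Fin n → ℝ)) x := (hasFDerivAt_id x).const_smul R⁻¹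
      have h3 : HasFDerivAt (f : (Fin n → ℝ) → ℝ) (fderiv ℝ (f : (Fin n → ℝ) → ℝ) (R⁻¹ • x)) (R⁻¹ • x) :=
        (hfs.differentiable (by simp) (R⁻¹ • x)).hasFDerivAt
      exact h3.comp x h2
    rw [h1.fderiv]
    have h4 : ((fderiv ℝ (f : (Fin n → ℝ) → ℝ) (R⁻¹ • x)).comp
        (R⁻¹ • ContinuousLinearMap.id ℝ (Fin n → ℝ))) v =
        fderiv ℝ (f : (Fin n → ℝ) → ℝ) (R⁻¹ • x) (R⁻¹ • v) := rfl
    rw [h4, ← Real.norm_eq_abs]
    calc ‖fderiv ℝ (f : (Fin n → ℝ) → ℝ) (R⁻¹ • x) (R⁻¹ • v)‖ ≤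
        ‖fderiv ℝ (f : (Fin n → ℝ) → ℝ) (R⁻¹ • x)‖ * ‖R⁻¹ • v‖ := ContinuousLinearMap.le_opNorm _ _
      _ ≤ (C + 1) * ‖R⁻¹ • v‖ := mul_le_mul_of_nonneg_right ((hC _).trans (by linarith)) (norm_nonneg _)
      _ = (C + 1) / R * ‖v‖ := by
          rw [norm_smul, norm_inv, Real.norm_eq_abs, abs_of_pos hR0]
          ring

end Pool.Agent.SGP
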