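import Pool.Agent.SGP.CO1
import Pool.Agent.SGP.MOL

/-!
# CO2: limit of the energy inequality

Proof. `RH` is bounded, so `q = v RH` is in `L¹` and `L²` of Lebesgue measure, and `ml (mo k) (PI u μ) v x =
∫ mo k (x - y) q y dy =: q_k x`. With `core_energy` for `η = mo k`: Fatou on the left (`fatou_le`), Jensen (`jens`) and
Fubini (`moll_conv`) on the right; the commutator is bounded by `K / (k + 1) ∫ mo k (x - y) |q y| dy`.
-/

open MeasureTheory ProbabilityTheory Set Filter Topology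
open scoped ENNReal NNReal BoundedContinuousFunction

namespace Pool.Agent.SGP

theorem dn_bdd {u : ℝ → ℝ} (hu : Pot u) {m : ℝ} (hm : 0 < m) : ∃ B : ℝ, 0 < B ∧ ∀ g, dn u m g ≤ B := by
  obtain ⟨C, R, hC, hR, h1⟩ := den_right hu hm
  obtain ⟨C', R', hC', hR', h2⟩ := den_left hu m
  obtain ⟨K, hK⟩ := (isCompact_Icc (a := -R') (b := R)).exists_bound_of_continuousOn
    (den_cont hu m).continuousOn
  have hZ := Zc_pos hu hm
  have hden : ∀ g, den u m g ≤ C + C' + |K| := by
    intro g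
    rcases le_total R g with h | h
    · have h3 := h1 g h
      have h4 : Real.exp (-(m / 2) * g) ≤ 1 := by
        rw [Real.exp_le_one_iff]
        have : 0 ≤ m / 2 * g := by
          have := hR.le.trans h
          positivity
        linarith
      have h5 : C * Real.exp (-(m / 2) * g) ≤ C := by
        have := mul_le_mul_of_nonneg_left h4 hC.le
        linarith
      have := abs_nonneg K
      linarith
    · rcases le_total g (-R') with h' | h'
      · have h3 := h2 g h'
        have h4 : Real.exp g ≤ 1 := by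
          rw [Real.exp_le_one_iff]
          linarith
        have h5 : C' * Real.exp g ≤ C' := by
          have := mul_le_mul_of_nonneg_left h4 hC'.le
          linarith
        have := abs_nonneg K
        linarith
      · have h3 := hK g ⟨h', h⟩
        rw [Real.norm_eq_abs] at h3
        have h4 := le_abs_self (den u m g)
        have h5 := le_abs_self K
        linarith
  refine ⟨(C + C' + |K|) / Zc u m, by positivity, fun g => ?_⟩
  exact div_le_div_of_nonneg_right (hden g) hZ.le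

theorem RH_bdd {n : ℕ} {u : ℝ → ℝ} {μ : Fin (n + 1) → ℝ} (hu : Pot u)
    (hμ : ∀ i : Fin n, μ i.succ < μ i.castSucc) : ∃ B : ℝ, 0 < B ∧ ∀ x, RH u μ x ≤ B := by
  choose B hB0 hB using fun i : Fin n => dn_bdd hu (rel_pos hμ i)
  refine ⟨∏ i, B i, Finset.prod_pos fun i _ => hB0 i, fun x => ?_⟩
  exact Finset.prod_le_prod (fun i _ => (dn_pos hu (rel_pos hμ i) _).le) fun i _ => hB i _

theorem lip_Icc {u : ℝ → ℝ} (hu : LocallyLipschitz u) (R : ℝ) : ∃ K : ℝ, 0 ≤ K ∧ ∀ a b : ℝ, |a| ≤ R → |b| ≤ R →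
    |u a - u b| ≤ K * |a - b| := by
  obtain ⟨K, hK⟩ := LocallyLipschitzOn.exists_lipschitzOnWith_of_compact
    (isCompact_Icc (a := -R) (b := R)) (hu.locallyLipschitzOn (s := Icc (-R) R))
  refine ⟨K, K.2, fun a b ha hb => ?_⟩
  have h := hK.dist_le_mul a (abs_le.mp ha) b (abs_le.mp hb)
  rwa [Real.dist_eq, Real.dist_eq] at h

theorem fatou_le {X : Type*} [MeasurableSpace X] {m : Measure X} {f : ℕ → X → ℝ} {g : X → ℝ} {b : ℕ → ℝ} {B : ℝ}
    (hf : ∀ k, Integrable (f k) m) (hf0 : ∀ k x, 0 ≤ f k x) (hg : Integrable g m) (hg0 : ∀ x, 0 ≤ g x)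
    (hlim : ∀ᵐ x ∂m, Tendsto (fun k => f k x) atTop (𝓝 (g x))) (hb : ∀ k, ∫ x, f k x ∂m ≤ b k)
    (hB : Tendsto b atTop (𝓝 B)) : ∫ x, g x ∂m ≤ B := by
  have hB0 : 0 ≤ B := ge_of_tendsto' hB fun k => (integral_nonneg (hf0 k)).trans (hb k)
  have h1 : ENNReal.ofReal (∫ x, g x ∂m) ≤ ENNReal.ofReal B := by
    rw [ofReal_integral_eq_lintegral_ofReal hg (ae_of_all _ hg0)]
    calc ∫⁻ x, ENNReal.ofReal (g x) ∂m = ∫⁻ x, liminf (fun k => ENNReal.ofReal (f k x)) atTop ∂m := by
          refine lintegral_congr_ae ?_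
          filter_upwards [hlim] with x hx
          exact ((ENNReal.continuous_ofReal.tendsto _).comp hx).liminf_eq.symm
      _ ≤ liminf (fun k => ∫⁻ x, ENNReal.ofReal (f k x) ∂m) atTop :=
          lintegral_liminf_le' fun k => (hf k).1.aemeasurable.ennreal_ofReal
      _ ≤ liminf (fun k => ENNReal.ofReal (b k)) atTop := by
          refine liminf_le_liminf (Eventually.of_forall fun k => ?_)
          show ∫⁻ x, ENNReal.ofReal (f k x) ∂m ≤ ENNReal.ofReal (b k)
          rw [← ofReal_integral_eq_lintegral_ofReal (hf k) (ae_of_all _ (hf0 k))]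
          exact ENNReal.ofReal_le_ofReal (hb k)
      _ = ENNReal.ofReal B := ((ENNReal.continuous_ofReal.tendsto _).comp hB).liminf_eq
  exact (ENNReal.ofReal_le_ofReal_iff hB0).1 h1

variable {n : ℕ}

theorem shift_supp {η : (Fin n → ℝ) → ℝ} (hη : HasCompactSupport η) (x : Fin n → ℝ) :
    HasCompactSupport fun y => η (x - y) := hη.comp_homeomorph (Homeomorph.subLeft x)

theorem shift_mul_int {η q : (Fin n → ℝ) → ℝ} (hη : IsTest η) (hq : Integrable q) (x : Fin n → ℝ) :
    Integrable fun y => η (x - y) * q y := by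
  obtain ⟨M, hM⟩ := hη.2.exists_bound_of_continuous hη.cont
  exact Integrable.bdd_mul (c := M) hq (hη.cont.comp (continuous_const.sub continuous_id)).aestronglyMeasurable
    (Eventually.of_forall fun y => hM _)

theorem shift_int {η : (Fin n → ℝ) → ℝ} (hη : IsTest η) (x : Fin n → ℝ) : Integrable fun y => η (x - y) :=
  (hη.cont.comp (continuous_const.sub continuous_id)).integrable_of_hasCompactSupport (shift_supp hη.2 x)

theorem shift_one {η : (Fin n → ℝ) → ℝ} (hη1 : ∫ x, η x = 1) (x : Fin n → ℝ) : ∫ y, η (x - y) = 1 := by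
  rw [← hη1]
  exact integral_sub_left_eq_self (fun y => η y) volume x

theorem jens {η q : (Fin n → ℝ) → ℝ} (hη : IsTest η) (hη0 : ∀ x, 0 ≤ η x) (hη1 : ∫ x, η x = 1)
    (hq : Integrable q) (hq2 : Integrable fun x => q x ^ 2) (x : Fin n → ℝ) :
    (∫ y, η (x - y) * q y) ^ 2 ≤ ∫ y, η (x - y) * q y ^ 2 := by
  obtain ⟨m, hm⟩ : ∃ m, m = ∫ y, η (x - y) * q y := ⟨_, rfl⟩
  have i0 := shift_int hη x
  have i1 := shift_mul_int hη hq x
  have i2 := shift_mul_int hη hq2 x
  have h : 0 ≤ ∫ y, η (x - y) * (q y - m) ^ 2 := integral_nonneg fun y => mul_nonneg (hη0 _) (sq_nonneg _)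
  have e : ∫ y, η (x - y) * (q y - m) ^ 2 =
      (∫ y, η (x - y) * q y ^ 2) - 2 * m * (∫ y, η (x - y) * q y) + m ^ 2 * ∫ y, η (x - y) := by
    have i3 : Integrable fun y => η (x - y) * q y ^ 2 - 2 * m * (η (x - y) * q y) := i2.sub (i1.const_mul _)
    rw [← integral_const_mul, ← integral_const_mul, ← integral_sub i2 (i1.const_mul _),
      ← integral_add i3 (i0.const_mul _)]
    refine integral_congr_ae (Eventually.of_forall fun y => ?_)
    show η (x - y) * (q y - m) ^ 2 = η (x - y) * q y ^ 2 - 2 * m * (η (x - y) * q y) + m ^ 2 * η (x - y)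
    ring
  rw [e, shift_one hη1, ← hm] at h
  rw [← hm]
  nlinarith

theorem fub_int2 {η g Q : (Fin n → ℝ) → ℝ} (hη : IsTest η) (hg : Continuous g) (hgc : HasCompactSupport g)
    (hQ : Integrable Q) : Integrable (fun p : (Fin n → ℝ) × (Fin n → ℝ) => g p.1 * (η (p.1 - p.2) * Q p.2))
      (volume.prod volume) := by
  obtain ⟨M, hM⟩ := hη.2.exists_bound_of_continuous hη.cont
  have hgi : Integrable g := hg.integrable_of_hasCompactSupport hgc
  have h1 : Integrable (fun p : (Fin n → ℝ) × (Fin n → ℝ) => g p.1 * Q p.2) (volume.prod volume) :=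
    hgi.mul_prod hQ
  have h2 := Integrable.bdd_mul (c := M) h1 (f := fun p : (Fin n → ℝ) × (Fin n → ℝ) => η (p.1 - p.2))
    (hη.cont.comp (continuous_fst.sub continuous_snd)).aestronglyMeasurable (Eventually.of_forall fun y => hM _)
  refine h2.congr (Eventually.of_forall fun p => ?_)
  show η (p.1 - p.2) * (g p.1 * Q p.2) = g p.1 * (η (p.1 - p.2) * Q p.2)
  ring

theorem fub_int1 {η g Q : (Fin n → ℝ) → ℝ} (hη : IsTest η) (hg : Continuous g) (hgc : HasCompactSupport g)
    (hQ : Integrable Q) : Integrable fun x => g x * ∫ y, η (x - y) * Q y := by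
  refine (fub_int2 hη hg hgc hQ).integral_prod_left.congr (Eventually.of_forall fun x => ?_)
  show ∫ y, g x * (η (x - y) * Q y) = g x * ∫ y, η (x - y) * Q y
  rw [integral_const_mul]

theorem fub_swap {η g Q : (Fin n → ℝ) → ℝ} (hη : IsTest η) (hg : Continuous g) (hgc : HasCompactSupport g)
    (hQ : Integrable Q) : Integrable (fun y => (∫ x, g x * η (x - y)) * Q y) ∧
      ∫ x, g x * ∫ y, η (x - y) * Q y = ∫ y, (∫ x, g x * η (x - y)) * Q y := by
  have h0 := fub_int2 hη hg hgc hQ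
  have e1 : ∀ y, ∫ x, g x * (η (x - y) * Q y) = (∫ x, g x * η (x - y)) * Q y := fun y => by
    rw [← integral_mul_const]
    refine integral_congr_ae (Eventually.of_forall fun x => ?_)
    show g x * (η (x - y) * Q y) = g x * η (x - y) * Q y
    ring
  refine ⟨h0.integral_prod_right.congr (Eventually.of_forall fun y => e1 y), ?_⟩
  calc ∫ x, g x * ∫ y, η (x - y) * Q y = ∫ x, ∫ y, g x * (η (x - y) * Q y) := by
        refine integral_congr_ae (Eventually.of_forall fun x => ?_)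
        show g x * ∫ y, η (x - y) * Q y = ∫ y, g x * (η (x - y) * Q y)
        rw [integral_const_mul]
    _ = ∫ y, ∫ x, g x * (η (x - y) * Q y) := integral_integral_swap h0
    _ = ∫ y, (∫ x, g x * η (x - y)) * Q y := integral_congr_ae (Eventually.of_forall fun y => e1 y)

theorem moll_conv {mo : ℕ → (Fin n → ℝ) → ℝ} (hmT : ∀ k, IsTest (mo k)) (hm0 : ∀ k x, 0 ≤ mo k x)
    (hm1 : ∀ k, ∫ x, mo k x = 1) (hms : ∀ k x, mo k x ≠ 0 → ‖x‖ ≤ 1 / ((k : ℝ) + 1))
    {g Q : (Fin n → ℝ) → ℝ} (hg : Continuous g) (hgc : HasCompactSupport g) (hQ : Integrable Q) :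
    Tendsto (fun k => ∫ x, g x * ∫ y, mo k (x - y) * Q y) atTop (𝓝 (∫ x, g x * Q x)) := by
  have huc : UniformContinuous g := hgc.uniformContinuous_of_continuous hg
  have hgQ : Integrable fun x => g x * Q x := by
    obtain ⟨M, hM⟩ := hgc.exists_bound_of_continuous hg
    exact Integrable.bdd_mul (c := M) hQ hg.aestronglyMeasurable (Eventually.of_forall fun y => hM _)
  rw [Metric.tendsto_atTop]
  intro ε hε
  have hI : 0 ≤ ∫ x, ‖Q x‖ := integral_nonneg fun _ => norm_nonneg _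
  obtain ⟨e, he⟩ : ∃ e, e = ε / ((∫ x, ‖Q x‖) + 1) := ⟨_, rfl⟩
  have he0 : 0 < e := by rw [he]; positivity
  obtain ⟨δ, hδ, hδ2⟩ := Metric.uniformContinuous_iff.mp huc e he0
  obtain ⟨k0, hk0⟩ := exists_nat_one_div_lt hδ
  refine ⟨k0, fun k hk => ?_⟩
  have hk1 : 1 / ((k : ℝ) + 1) < δ := by
    refine lt_of_le_of_lt ?_ hk0
    have : (k0 : ℝ) ≤ k := by exact_mod_cast hk
    exact one_div_le_one_div_of_le (by positivity) (by linarith)
  obtain ⟨i1, e1⟩ := fub_swap (hmT k) hg hgc hQ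
  have hmi : ∀ y, Integrable fun x => mo k (x - y) := fun y =>
    ((hmT k).cont.integrable_of_hasCompactSupport (hmT k).2).comp_sub_right y
  have hmo1 : ∀ y, ∫ x, mo k (x - y) = 1 := fun y => by
    rw [← hm1 k]
    exact integral_sub_right_eq_self (fun x => mo k x) y
  have hG : ∀ y, |(∫ x, g x * mo k (x - y)) - g y| ≤ e := by
    intro y
    have i2 : Integrable fun x => g x * mo k (x - y) := by
      refine (hg.mul ((hmT k).cont.comp (continuous_id.sub continuous_const))).integrable_of_hasCompactSupport ?_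
      exact hgc.mul_right
    have e2 : (∫ x, g x * mo k (x - y)) - g y = ∫ x, (g x - g y) * mo k (x - y) := by
      have : ∫ x, (g x - g y) * mo k (x - y) = (∫ x, g x * mo k (x - y)) - ∫ x, g y * mo k (x - y) := by
        rw [← integral_sub i2 ((hmi y).const_mul _)]
        refine integral_congr_ae (Eventually.of_forall fun x => ?_)
        show (g x - g y) * mo k (x - y) = g x * mo k (x - y) - g y * mo k (x - y)
        ring
      rw [this, integral_const_mul, hmo1, mul_one]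
    rw [e2, ← Real.norm_eq_abs]
    have h3 : ‖∫ x, (g x - g y) * mo k (x - y)‖ ≤ ∫ x, e * mo k (x - y) := by
      refine norm_integral_le_of_norm_le ((hmi y).const_mul e) (Eventually.of_forall fun x => ?_)
      rw [norm_mul, Real.norm_eq_abs (mo k (x - y)), abs_of_nonneg (hm0 _ _)]
      by_cases h : mo k (x - y) = 0
      · rw [h, mul_zero, mul_zero]
      · have h4 := hms k _ h
        have h5 := hδ2 (show dist x y < δ by rw [dist_eq_norm]; exact lt_of_le_of_lt h4 hk1)
        rw [dist_eq_norm] at h5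
        exact mul_le_mul_of_nonneg_right h5.le (hm0 _ _)
    rw [integral_const_mul, hmo1, mul_one] at h3
    exact h3
  rw [Real.dist_eq, e1, ← integral_sub i1 hgQ, ← Real.norm_eq_abs]
  have h6 : ‖∫ y, ((∫ x, g x * mo k (x - y)) * Q y - g y * Q y)‖ ≤ ∫ y, e * ‖Q y‖ := by
    refine norm_integral_le_of_norm_le (hQ.norm.const_mul e) (Eventually.of_forall fun y => ?_)
    rw [← sub_mul, norm_mul]
    exact mul_le_mul_of_nonneg_right (hG y) (norm_nonneg _)
  refine lt_of_le_of_lt h6 ?_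
  rw [integral_const_mul, he, div_mul_eq_mul_div, div_lt_iff₀ (by positivity)]
  nlinarith

/-- the commutator as an integral against Lebesgue measure -/
theorem cmt_eq {u : ℝ → ℝ} {μ : Fin (n + 1) → ℝ} (hu : Pot u) (hμ : ∀ i : Fin n, μ i.succ < μ i.castSucc)
    {η v : (Fin n → ℝ) → ℝ} (hη : IsTest η) (hv : Integrable v (PI u μ)) (i : Fin n) (x : Fin n → ℝ) :
    Integrable (fun y => η (x - y) * ((u (x i) - u (y i)) * (v y * RH u μ y))) ∧
    cmt u μ η (PI u μ) v i x = ∫ y, η (x - y) * ((u (x i) - u (y i)) * (v y * RH u μ y)) := by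
  have hq : Integrable fun y => v y * RH u μ y := (integrable_PI hu hμ).mp hv
  have hc : ∀ a : ℝ, Continuous fun y : Fin n → ℝ => a - u (y i) := fun a =>
    continuous_const.sub (hu.lip.continuous.comp (continuous_apply i))
  have hI : ∀ a : ℝ, Integrable fun y => η (x - y) * ((a - u (y i)) * (v y * RH u μ y)) := by
    intro a
    have h1 : Continuous fun y => η (x - y) * (a - u (y i)) :=
      (hη.cont.comp (continuous_const.sub continuous_id)).mul (hc a)
    have h2 : HasCompactSupport fun y => η (x - y) * (a - u (y i)) := (shift_supp hη.2 x).mul_right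
    obtain ⟨M, hM⟩ := h2.exists_bound_of_continuous h1
    refine (Integrable.bdd_mul (c := M) hq h1.aestronglyMeasurable (Eventually.of_forall hM)).congr
      (Eventually.of_forall fun y => ?_)
    show η (x - y) * (a - u (y i)) * (v y * RH u μ y) = η (x - y) * ((a - u (y i)) * (v y * RH u μ y))
    ring
  refine ⟨hI _, ?_⟩
  have e1 : ml η (PI u μ) (fun y => (rel μ i - u (y i)) * v y) x =
      ∫ y, η (x - y) * ((rel μ i - u (y i)) * (v y * RH u μ y)) := by
    rw [ml, integral_PI hu hμ]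
    refine integral_congr_ae (Eventually.of_forall fun y => ?_)
    show η (x - y) * ((rel μ i - u (y i)) * v y) * RH u μ y = η (x - y) * ((rel μ i - u (y i)) * (v y * RH u μ y))
    ring
  have e2 : ml η (PI u μ) v x = ∫ y, η (x - y) * (v y * RH u μ y) := by
    rw [ml, integral_PI hu hμ]
    refine integral_congr_ae (Eventually.of_forall fun y => ?_)
    show η (x - y) * v y * RH u μ y = η (x - y) * (v y * RH u μ y)
    ring
  rw [cmt, e1, e2, ← integral_const_mul, ← integral_sub (hI _) ((shift_mul_int hη hq x).const_mul _)]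
  refine integral_congr_ae (Eventually.of_forall fun y => ?_)
  show η (x - y) * ((rel μ i - u (y i)) * (v y * RH u μ y)) - (rel μ i - u (x i)) * (η (x - y) * (v y * RH u μ y)) =
    η (x - y) * ((u (x i) - u (y i)) * (v y * RH u μ y))
  ring

theorem core_limit (n : ℕ) : ∃ C : ℝ, 0 < C ∧ ∀ {u : ℝ → ℝ} (_ : Pot u) {μ : Fin (n + 1) → ℝ}
    (_ : ∀ i : Fin n, μ i.succ < μ i.castSucc) {α : ℝ} (_ : 0 < α) {v : (Fin n → ℝ) → ℝ}
    (_ : MemLp v 2 (PI u μ))
    (_ : ∀ φ : (Fin n → ℝ) → ℝ, IsTest φ → ∫ y, (α * φ y - LL u μ φ y) * v y ∂(PI u μ) = 0)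
    {χ : (Fin n → ℝ) → ℝ} (_ : IsTest χ),
    α * ∫ x, χ x ^ 2 * v x ^ 2 ∂(PI u μ) ≤
      C * ∫ x, (∑ i, fderiv ℝ χ x (ev i) ^ 2) * v x ^ 2 ∂(PI u μ) := by
  obtain ⟨C, hC, hce⟩ := core_energy n
  refine ⟨C, hC, ?_⟩
  intro u hu μ hμ α hα v hv hsol χ hχ
  have hprob : IsProbabilityMeasure (PI u μ) := PI_prob hu hμ
  obtain ⟨mo, hmT, hm0, hm1, hms, hmae⟩ := exists_mollifier n
  obtain ⟨B, hB0, hB⟩ := RH_bdd hu hμ
  have hRpos : ∀ x, 0 < RH u μ x := RH_pos hu hμ
  have hRne : ∀ x, RH u μ x ≠ 0 := fun x => (hRpos x).ne'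
  have hRc : Continuous (RH u μ) := RH_cont hu
  have hv1 : Integrable v (PI u μ) := hv.integrable (by norm_num)
  have hv2 : Integrable (fun x => v x ^ 2) (PI u μ) := hv.integrable_sq
  have hv2' : Integrable fun x => v x ^ 2 * RH u μ x := (integrable_PI hu hμ).mp hv2
  obtain ⟨q, hq⟩ : ∃ q : (Fin n → ℝ) → ℝ, q = fun x => v x * RH u μ x := ⟨_, rfl⟩
  have hqi : Integrable q := by rw [hq]; exact (integrable_PI hu hμ).mp hv1
  have hq2 : Integrable fun x => q x ^ 2 := by
    have h1 := Integrable.bdd_mul (c := B) hv2' hRc.aestronglyMeasurable (Eventually.of_forall fun x => by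
      rw [Real.norm_eq_abs, abs_of_pos (hRpos x)]
      exact hB x)
    refine h1.congr (Eventually.of_forall fun x => ?_)
    rw [hq]
    show RH u μ x * (v x ^ 2 * RH u μ x) = (v x * RH u μ x) ^ 2
    ring
  have hqa : Integrable fun x => |q x| := hqi.abs
  have hqa2 : Integrable fun x => |q x| ^ 2 := by
    refine hq2.congr (Eventually.of_forall fun x => ?_)
    exact (sq_abs _).symm
  have hml : ∀ k x, ml (mo k) (PI u μ) v x = ∫ y, mo k (x - y) * q y := fun k x => by
    rw [ml, integral_PI hu hμ, hq]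
    refine integral_congr_ae (Eventually.of_forall fun y => ?_)
    show mo k (x - y) * v y * RH u μ y = mo k (x - y) * (v y * RH u μ y)
    ring
  obtain ⟨Qk, hQk⟩ : ∃ Qk : ℕ → (Fin n → ℝ) → ℝ, Qk = fun k x => ∫ y, mo k (x - y) * q y ^ 2 := ⟨_, rfl⟩
  have hQk0 : ∀ k x, 0 ≤ Qk k x := fun k x => by
    rw [hQk]
    exact integral_nonneg fun y => mul_nonneg (hm0 _ _) (sq_nonneg _)
  have hmlc : ∀ k, Continuous (ml (mo k) (PI u μ) v) := fun k => (ml_contDiff (hmT k) hv1).continuous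
  have hmlQ : ∀ k x, (ml (mo k) (PI u μ) v x) ^ 2 ≤ Qk k x := fun k x => by
    rw [hml, hQk]
    exact jens (hmT k) (hm0 k) (hm1 k) hqi hq2 x
  -- the weights
  obtain ⟨g1, hg1⟩ : ∃ g : (Fin n → ℝ) → ℝ, g = fun x => (∑ i, fderiv ℝ χ x (ev i) ^ 2) / RH u μ x := ⟨_, rfl⟩
  obtain ⟨g2, hg2⟩ : ∃ g : (Fin n → ℝ) → ℝ, g = fun x => χ x ^ 2 / RH u μ x := ⟨_, rfl⟩
  have hg1c : Continuous g1 := by
    rw [hg1]
    exact (continuous_finsetSum _ fun i _ => (hχ.dcont (ev i)).pow 2).div₀ hRc hRne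
  have hg2c : Continuous g2 := by
    rw [hg2]
    exact (hχ.cont.pow 2).div₀ hRc hRne
  have hg1s : HasCompactSupport g1 := by
    rw [hg1]
    refine HasCompactSupport.intro' (K := tsupport χ) hχ.2 (isClosed_tsupport χ) fun x hx => ?_
    have h0 : fderiv ℝ χ x = 0 := by
      have h1 : x ∉ tsupport (fderiv ℝ χ) := fun h => hx (tsupport_fderiv_subset ℝ h)
      exact image_eq_zero_of_notMem_tsupport h1
    rw [h0]
    simp
  have hg2s : HasCompactSupport g2 := by
    rw [hg2]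
    refine HasCompactSupport.intro' (K := tsupport χ) hχ.2 (isClosed_tsupport χ) fun x hx => ?_
    rw [image_eq_zero_of_notMem_tsupport hx]
    simp
  have hg10 : ∀ x, 0 ≤ g1 x := fun x => by
    rw [hg1]
    exact div_nonneg (Finset.sum_nonneg fun _ _ => sq_nonneg _) (hRpos x).le
  have hg20 : ∀ x, 0 ≤ g2 x := fun x => by
    rw [hg2]
    exact div_nonneg (sq_nonneg _) (hRpos x).le
  -- radius and Lipschitz constant
  obtain ⟨R0, hR0⟩ : ∃ R0 : ℝ, ∀ x, χ x ≠ 0 → ‖x‖ ≤ R0 := by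
    obtain ⟨r, hr⟩ := hχ.2.isBounded.exists_norm_le
    exact ⟨r, fun x hx => hr x (subset_tsupport χ hx)⟩
  obtain ⟨K, hK0, hK⟩ := lip_Icc hu.lip (R0 + 1)
  -- the commutator
  have hcm : ∀ k x i, χ x ≠ 0 → cmt u μ (mo k) (PI u μ) v i x ^ 2 ≤ (K * (1 / ((k : ℝ) + 1))) ^ 2 * Qk k x := by
    intro k x i hx
    obtain ⟨hi, he⟩ := cmt_eq hu hμ (hmT k) hv1 i x
    have hk1 : 1 / ((k : ℝ) + 1) ≤ 1 := by
      rw [div_le_one (by positivity)]
      have : (0 : ℝ) ≤ k := Nat.cast_nonneg k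
      linarith
    have hk0 : 0 ≤ 1 / ((k : ℝ) + 1) := by positivity
    have h1 : ‖∫ y, mo k (x - y) * ((u (x i) - u (y i)) * (v y * RH u μ y))‖ ≤
        ∫ y, (K * (1 / ((k : ℝ) + 1))) * (mo k (x - y) * |q y|) := by
      refine norm_integral_le_of_norm_le ((shift_mul_int (hmT k) hqa x).const_mul _)
        (Eventually.of_forall fun y => ?_)
      rw [norm_mul, norm_mul, Real.norm_eq_abs (mo k (x - y)), abs_of_nonneg (hm0 _ _)]
      have e1 : ‖v y * RH u μ y‖ = |q y| := by rw [hq]; rfl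
      rw [e1]
      by_cases h : mo k (x - y) = 0
      · rw [h]
        simp
      · have h4 := hms k _ h
        have hxn := hR0 x hx
        have h5 : |x i| ≤ R0 + 1 := by
          have := norm_le_pi_norm x i
          rw [Real.norm_eq_abs] at this
          linarith
        have h6 : |x i - y i| ≤ 1 / ((k : ℝ) + 1) := by
          have := norm_le_pi_norm (x - y) i
          rw [Real.norm_eq_abs, Pi.sub_apply] at this
          linarith
        have h7 : |y i| ≤ R0 + 1 := by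
          have h8 := norm_le_pi_norm x i
          rw [Real.norm_eq_abs] at h8
          have h9 : |y i| ≤ |x i| + |x i - y i| := by
            have := abs_sub_abs_le_abs_sub (y i) (x i)
            rw [abs_sub_comm (y i) (x i)] at this
            linarith
          linarith
        have h8 := hK (x i) (y i) h5 h7
        have h9 : ‖u (x i) - u (y i)‖ ≤ K * (1 / ((k : ℝ) + 1)) :=
          h8.trans (mul_le_mul_of_nonneg_left h6 hK0)
        calc mo k (x - y) * (‖u (x i) - u (y i)‖ * |q y|) = ‖u (x i) - u (y i)‖ * (mo k (x - y) * |q y|) := by ring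
          _ ≤ (K * (1 / ((k : ℝ) + 1))) * (mo k (x - y) * |q y|) :=
            mul_le_mul_of_nonneg_right h9 (mul_nonneg (hm0 _ _) (abs_nonneg _))
    rw [integral_const_mul, Real.norm_eq_abs, ← he] at h1
    have h2 := jens (hmT k) (hm0 k) (hm1 k) hqa hqa2 x
    have h3 : ∫ y, mo k (x - y) * |q y| ^ 2 = Qk k x := by
      rw [hQk]
      refine integral_congr_ae (Eventually.of_forall fun y => ?_)
      show mo k (x - y) * |q y| ^ 2 = mo k (x - y) * q y ^ 2
      rw [sq_abs]
    rw [h3] at h2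
    have h4 : cmt u μ (mo k) (PI u μ) v i x ^ 2 ≤
        ((K * (1 / ((k : ℝ) + 1))) * ∫ y, mo k (x - y) * |q y|) ^ 2 := by
      rw [← sq_abs (cmt u μ (mo k) (PI u μ) v i x)]
      exact pow_le_pow_left₀ (abs_nonneg _) h1 2
    rw [mul_pow] at h4
    exact h4.trans (mul_le_mul_of_nonneg_left h2 (sq_nonneg _))
  -- integrability and bounds of the two terms on the right
  have hA : ∀ k, ∫ x, (∑ i, fderiv ℝ χ x (ev i) ^ 2) * (ml (mo k) (PI u μ) v x) ^ 2 / RH u μ x ≤
      ∫ x, g1 x * Qk k x := by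
    intro k
    have e1 : (fun x => (∑ i, fderiv ℝ χ x (ev i) ^ 2) * (ml (mo k) (PI u μ) v x) ^ 2 / RH u μ x) =
        fun x => g1 x * (ml (mo k) (PI u μ) v x) ^ 2 := by
      funext x
      rw [hg1]
      ring
    rw [e1]
    refine integral_mono ?_ ?_ fun x => ?_
    · exact (hg1c.mul ((hmlc k).pow 2)).integrable_of_hasCompactSupport hg1s.mul_right
    · rw [hQk]
      exact fub_int1 (hmT k) hg1c hg1s hq2
    · exact mul_le_mul_of_nonneg_left (hmlQ k x) (hg10 x)
  have hH : ∀ k, ∫ x, χ x ^ 2 * (∑ i, cmt u μ (mo k) (PI u μ) v i x ^ 2) / RH u μ x ≤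
      n * (K * (1 / ((k : ℝ) + 1))) ^ 2 * ∫ x, g2 x * Qk k x := by
    intro k
    have e1 : (fun x => χ x ^ 2 * (∑ i, cmt u μ (mo k) (PI u μ) v i x ^ 2) / RH u μ x) =
        fun x => g2 x * ∑ i, cmt u μ (mo k) (PI u μ) v i x ^ 2 := by
      funext x
      rw [hg2]
      ring
    rw [e1, ← integral_const_mul]
    refine integral_mono ?_ ?_ fun x => ?_
    · refine (hg2c.mul (continuous_finsetSum _ fun i _ => Continuous.pow ?_ 2)).integrable_of_hasCompactSupport
        hg2s.mul_right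
      unfold cmt
      exact (ml_weight_cont hu (hmT k) hv1 i).sub
        ((continuous_const.sub (hu.lip.continuous.comp (continuous_apply i))).mul (hmlc k))
    · refine Integrable.const_mul ?_ _
      rw [hQk]
      exact fub_int1 (hmT k) hg2c hg2s hq2
    · show g2 x * ∑ i, cmt u μ (mo k) (PI u μ) v i x ^ 2 ≤ n * (K * (1 / ((k : ℝ) + 1))) ^ 2 * (g2 x * Qk k x)
      by_cases hx : χ x = 0
      · have : g2 x = 0 := by
          rw [hg2]
          simp [hx]
        rw [this]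
        simp
      · have h1 : ∑ i, cmt u μ (mo k) (PI u μ) v i x ^ 2 ≤
            ∑ _i : Fin n, (K * (1 / ((k : ℝ) + 1))) ^ 2 * Qk k x :=
          Finset.sum_le_sum fun i _ => hcm k x i hx
        rw [Finset.sum_const, Finset.card_univ, Fintype.card_fin, nsmul_eq_mul] at h1
        calc g2 x * ∑ i, cmt u μ (mo k) (PI u μ) v i x ^ 2 ≤
            g2 x * ((n : ℝ) * ((K * (1 / ((k : ℝ) + 1))) ^ 2 * Qk k x)) := mul_le_mul_of_nonneg_left h1 (hg20 x)
          _ = _ := by ring
  -- limits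
  have hL1 : Tendsto (fun k => ∫ x, g1 x * Qk k x) atTop (𝓝 (∫ x, g1 x * q x ^ 2)) := by
    rw [hQk]
    exact moll_conv hmT hm0 hm1 hms hg1c hg1s hq2
  have hL2 : Tendsto (fun k => ∫ x, g2 x * Qk k x) atTop (𝓝 (∫ x, g2 x * q x ^ 2)) := by
    rw [hQk]
    exact moll_conv hmT hm0 hm1 hms hg2c hg2s hq2
  have hL3 : Tendsto (fun k : ℕ => (n : ℝ) * (K * (1 / ((k : ℝ) + 1))) ^ 2 * ∫ x, g2 x * Qk k x) atTop (𝓝 0) := by
    have h1 : Tendsto (fun k : ℕ => 1 / ((k : ℝ) + 1)) atTop (𝓝 0) := tendsto_one_div_add_atTop_nhds_zero_nat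
    have h2 := (((h1.const_mul K).pow 2).const_mul (n : ℝ)).mul hL2
    simpa using h2
  have hL4 : Tendsto (fun k : ℕ => C / α * ((∫ x, g1 x * Qk k x) +
      (n : ℝ) * (K * (1 / ((k : ℝ) + 1))) ^ 2 * ∫ x, g2 x * Qk k x)) atTop
      (𝓝 (C / α * ∫ x, g1 x * q x ^ 2)) := by
    have h1 := (hL1.add hL3).const_mul (C / α)
    simpa using h1
  have hmain : ∫ x, g2 x * q x ^ 2 ≤ C / α * ∫ x, g1 x * q x ^ 2 := by
    refine fatou_le (f := fun k x => g2 x * (ml (mo k) (PI u μ) v x) ^ 2) (fun k => ?_) (fun k x => ?_) ?_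
      (fun x => mul_nonneg (hg20 x) (sq_nonneg _)) ?_ (fun k => ?_) hL4
    · exact (hg2c.mul ((hmlc k).pow 2)).integrable_of_hasCompactSupport hg2s.mul_right
    · exact mul_nonneg (hg20 x) (sq_nonneg _)
    · obtain ⟨M, hM⟩ := hg2s.exists_bound_of_continuous hg2c
      exact Integrable.bdd_mul (c := M) hq2 hg2c.aestronglyMeasurable (Eventually.of_forall hM)
    · filter_upwards [hmae q hqi.locallyIntegrable] with x hx
      have h1 : (fun k => g2 x * (ml (mo k) (PI u μ) v x) ^ 2) =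
          fun k => g2 x * (∫ y, mo k (x - y) * q y) ^ 2 := funext fun k => by rw [hml]
      rw [h1]
      exact (hx.pow 2).const_mul _
    · have h1 := hce hu hμ hα hv1 hsol hχ (hmT k)
      have e1 : ∫ x, χ x ^ 2 * (ml (mo k) (PI u μ) v x) ^ 2 / RH u μ x =
          ∫ x, g2 x * (ml (mo k) (PI u μ) v x) ^ 2 := by
        refine integral_congr_ae (Eventually.of_forall fun x => ?_)
        show χ x ^ 2 * (ml (mo k) (PI u μ) v x) ^ 2 / RH u μ x = g2 x * (ml (mo k) (PI u μ) v x) ^ 2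
        rw [hg2]
        ring
      rw [e1] at h1
      have h2 : α * ∫ x, g2 x * (ml (mo k) (PI u μ) v x) ^ 2 ≤ C * ((∫ x, g1 x * Qk k x) +
          (n : ℝ) * (K * (1 / ((k : ℝ) + 1))) ^ 2 * ∫ x, g2 x * Qk k x) :=
        h1.trans (mul_le_mul_of_nonneg_left (add_le_add (hA k) (hH k)) hC.le)
      rw [div_mul_eq_mul_div, le_div_iff₀ hα, mul_comm _ α]
      exact h2
  have e1 : ∫ x, χ x ^ 2 * v x ^ 2 ∂(PI u μ) = ∫ x, g2 x * q x ^ 2 := by
    rw [integral_PI hu hμ]
    refine integral_congr_ae (Eventually.of_forall fun x => ?_)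
    show χ x ^ 2 * v x ^ 2 * RH u μ x = g2 x * q x ^ 2
    rw [hg2, hq]
    show χ x ^ 2 * v x ^ 2 * RH u μ x = χ x ^ 2 / RH u μ x * (v x * RH u μ x) ^ 2
    field_simp [hRne x]
  have e2 : ∫ x, (∑ i, fderiv ℝ χ x (ev i) ^ 2) * v x ^ 2 ∂(PI u μ) = ∫ x, g1 x * q x ^ 2 := by
    rw [integral_PI hu hμ]
    refine integral_congr_ae (Eventually.of_forall fun x => ?_)
    show (∑ i, fderiv ℝ χ x (ev i) ^ 2) * v x ^ 2 * RH u μ x = g1 x * q x ^ 2
    rw [hg1, hq]
    show (∑ i, fderiv ℝ χ x (ev i) ^ 2) * v x ^ 2 * RH u μ x =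
      (∑ i, fderiv ℝ χ x (ev i) ^ 2) / RH u μ x * (v x * RH u μ x) ^ 2
    field_simp [hRne x]
  rw [e1, e2]
  rw [div_mul_eq_mul_div, le_div_iff₀ hα, mul_comm _ α] at hmain
  exact hmain

end Pool.Agent.SGP
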