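import Pool.Agent.SGP.CO2

/-!
# COR: test functions are a core in `L²(PI)`

Proofs. (`core_zero`) `core_limit` with the cutoffs `χ_R` of `exists_cutoff`:
`α ∫_{‖x‖ ≤ R} v² ≤ C n (C'/R)² ∫ v² → 0` (`‖ev i‖ ≤ 1`), so `∫ v² = 0`.
(`core_dense`) Work in `Lp ℝ 2 (PI u μ)`: the set of classes of `α φ - LL φ`, `φ` test, is a subspace
(`IsTest.lin`, `LL_lin`). Its orthogonal complement is `0`: an element `v` of it satisfies
`∫ (α φ - LL φ) v = 0` for all `φ`, so `v = 0` by `core_zero`. Hence the subspace is dense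
(`Submodule.topologicalClosure_eq_top_iff`), and `f` (bounded continuous, in `L²`) is a limit.
`‖f - g‖² = ∫ (f - g)²` in `L²`.
-/

open MeasureTheory ProbabilityTheory Set Filter Topology
open scoped ENNReal NNReal BoundedContinuousFunction

namespace Pool.Agent.SGP

variable {n : ℕ} {μ : Fin (n + 1) → ℝ} {u : ℝ → ℝ}

theorem core_zero (hu : Pot u) (hμ : ∀ i : Fin n, μ i.succ < μ i.castSucc) {α : ℝ} (hα : 0 < α)
    {v : (Fin n → ℝ) → ℝ} (hv : MemLp v 2 (PI u μ))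
    (hsol : ∀ φ : (Fin n → ℝ) → ℝ, IsTest φ → ∫ y, (α * φ y - LL u μ φ y) * v y ∂(PI u μ) = 0) :
    v =ᵐ[PI u μ] 0 := by
  obtain ⟨C, hC, hlim⟩ := core_limit n
  obtain ⟨C', hC', hcut⟩ := exists_cutoff n
  have hprob : IsProbabilityMeasure (PI u μ) := PI_prob hu hμ
  have hv2 : Integrable (fun x => v x ^ 2) (PI u μ) := hv.integrable_sq
  have hcut2 : ∀ k : ℕ, ∃ χ : (Fin n → ℝ) → ℝ, IsTest χ ∧
      (∀ x, 0 ≤ χ x ∧ χ x ≤ 1) ∧ (∀ x, ‖x‖ ≤ (k : ℝ) + 1 → χ x = 1) ∧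
        ∀ x v, |fderiv ℝ χ x v| ≤ C' / ((k : ℝ) + 1) * ‖v‖ := fun k =>
    hcut ((k : ℝ) + 1) (by
      have : (0 : ℝ) ≤ k := Nat.cast_nonneg k
      linarith)
  choose χ hχT hχ01 hχ1 hχd using hcut2
  have hI0 : 0 ≤ ∫ x, v x ^ 2 ∂(PI u μ) := integral_nonneg fun _ => sq_nonneg _
  have hev : ∀ i : Fin n, ‖(ev i : Fin n → ℝ)‖ ≤ 1 := by
    intro i
    rw [pi_norm_le_iff_of_nonneg zero_le_one]
    intro j
    unfold ev
    by_cases h : j = i
    · subst h
      simp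
    · rw [Pi.single_eq_of_ne h]
      simp
  have hb : ∀ k : ℕ, ∫ x, χ k x ^ 2 * v x ^ 2 ∂(PI u μ) ≤
      C / α * (n * (C' * (1 / ((k : ℝ) + 1))) ^ 2 * ∫ x, v x ^ 2 ∂(PI u μ)) := by
    intro k
    have h1 := hlim hu hμ hα hv hsol (hχT k)
    have h2 : ∫ x, (∑ i, fderiv ℝ (χ k) x (ev i) ^ 2) * v x ^ 2 ∂(PI u μ) ≤
        n * (C' * (1 / ((k : ℝ) + 1))) ^ 2 * ∫ x, v x ^ 2 ∂(PI u μ) := by
      rw [← integral_const_mul]
      have hpt : ∀ x, ∑ i, fderiv ℝ (χ k) x (ev i) ^ 2 ≤ n * (C' * (1 / ((k : ℝ) + 1))) ^ 2 := by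
        intro x
        have h3 : ∀ i : Fin n, fderiv ℝ (χ k) x (ev i) ^ 2 ≤ (C' * (1 / ((k : ℝ) + 1))) ^ 2 := by
          intro i
          rw [← sq_abs (fderiv ℝ (χ k) x (ev i))]
          refine pow_le_pow_left₀ (abs_nonneg _) ?_ 2
          refine (hχd k x (ev i)).trans ?_
          have h4 : C' / ((k : ℝ) + 1) * ‖(ev i : Fin n → ℝ)‖ ≤ C' / ((k : ℝ) + 1) * 1 :=
            mul_le_mul_of_nonneg_left (hev i) (by positivity)
          refine h4.trans (le_of_eq ?_)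
          ring
        have h5 : ∑ i, fderiv ℝ (χ k) x (ev i) ^ 2 ≤ ∑ _i : Fin n, (C' * (1 / ((k : ℝ) + 1))) ^ 2 :=
          Finset.sum_le_sum fun i _ => h3 i
        rw [Finset.sum_const, Finset.card_univ, Fintype.card_fin, nsmul_eq_mul] at h5
        exact h5
      refine integral_mono_of_nonneg (Eventually.of_forall fun x => ?_) (hv2.const_mul _)
        (Eventually.of_forall fun x => ?_)
      · exact mul_nonneg (Finset.sum_nonneg fun _ _ => sq_nonneg _) (sq_nonneg _)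
      · exact mul_le_mul_of_nonneg_right (hpt x) (sq_nonneg _)
    have h3 : α * ∫ x, χ k x ^ 2 * v x ^ 2 ∂(PI u μ) ≤
        C * (n * (C' * (1 / ((k : ℝ) + 1))) ^ 2 * ∫ x, v x ^ 2 ∂(PI u μ)) :=
      h1.trans (mul_le_mul_of_nonneg_left h2 hC.le)
    rw [div_mul_eq_mul_div, le_div_iff₀ hα, mul_comm _ α]
    exact h3
  have hL : Tendsto (fun k : ℕ => C / α * (n * (C' * (1 / ((k : ℝ) + 1))) ^ 2 * ∫ x, v x ^ 2 ∂(PI u μ)))
      atTop (𝓝 0) := by
    have h1 : Tendsto (fun k : ℕ => 1 / ((k : ℝ) + 1)) atTop (𝓝 0) := tendsto_one_div_add_atTop_nhds_zero_nat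
    have h2 := ((((h1.const_mul C').pow 2).const_mul (n : ℝ)).mul_const (∫ x, v x ^ 2 ∂(PI u μ))).const_mul (C / α)
    simpa using h2
  have hfin : ∫ x, v x ^ 2 ∂(PI u μ) ≤ 0 := by
    refine fatou_le (f := fun k x => χ k x ^ 2 * v x ^ 2) (fun k => ?_) (fun k x => ?_) hv2
      (fun x => sq_nonneg _) (Eventually.of_forall fun x => ?_) hb hL
    · refine Integrable.bdd_mul (c := 1) hv2 ((hχT k).cont.pow 2).aestronglyMeasurable
        (Eventually.of_forall fun x => ?_)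
      rw [Real.norm_eq_abs, abs_of_nonneg (sq_nonneg _)]
      exact pow_le_one₀ (hχ01 k x).1 (hχ01 k x).2
    · exact mul_nonneg (sq_nonneg _) (sq_nonneg _)
    · obtain ⟨k0, hk0⟩ := exists_nat_ge ‖x‖
      refine tendsto_const_nhds.congr' ?_
      filter_upwards [eventually_ge_atTop k0] with k hk
      have h1 : ‖x‖ ≤ (k : ℝ) + 1 := by
        have : (k0 : ℝ) ≤ k := by exact_mod_cast hk
        linarith
      rw [hχ1 k x h1]
      ring
  have h0 : ∫ x, v x ^ 2 ∂(PI u μ) = 0 := le_antisymm hfin hI0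
  rw [integral_eq_zero_iff_of_nonneg (fun x => sq_nonneg _) hv2] at h0
  filter_upwards [h0] with x hx
  exact pow_eq_zero_iff (two_ne_zero) |>.mp hx

theorem test_memLp (hu : Pot u) (hμ : ∀ i : Fin n, μ i.succ < μ i.castSucc) {g : (Fin n → ℝ) → ℝ}
    (hg : Continuous g) (hb : ∃ M : ℝ, ∀ x, ‖g x‖ ≤ M) : MemLp g 2 (PI u μ) := by
  have hprob : IsProbabilityMeasure (PI u μ) := PI_prob hu hμ
  obtain ⟨M, hM⟩ := hb
  exact MemLp.of_bound hg.aestronglyMeasurable M (Eventually.of_forall hM)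

theorem core_dense (hu : Pot u) (hμ : ∀ i : Fin n, μ i.succ < μ i.castSucc) {α : ℝ} (hα : 0 < α)
    (f : (Fin n → ℝ) →ᵇ ℝ) {ε : ℝ} (hε : 0 < ε) : ∃ φ : (Fin n → ℝ) → ℝ, IsTest φ ∧
      ∫ x, (f x - (α * φ x - LL u μ φ x)) ^ 2 ∂(PI u μ) < ε := by
  have hprob : IsProbabilityMeasure (PI u μ) := PI_prob hu hμ
  have hmem : ∀ {φ : (Fin n → ℝ) → ℝ}, IsTest φ → MemLp (fun x => α * φ x - LL u μ φ x) 2 (PI u μ) := by
    intro φ hφ
    have hc : Continuous fun x => α * φ x - LL u μ φ x :=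
      (continuous_const.mul hφ.cont).sub (LL_cont hu.lip.continuous hφ)
    have hs : HasCompactSupport fun x => α * φ x - LL u μ φ x :=
      (hφ.2.mul_left (f := fun _ => α)).sub (LL_supp hφ)
    exact test_memLp hu hμ hc (hs.exists_bound_of_continuous hc)
  have hf : MemLp (fun x => f x) 2 (PI u μ) :=
    test_memLp hu hμ f.continuous ⟨‖f‖, fun x => f.norm_coe_le_norm x⟩
  obtain ⟨E, hE⟩ : ∃ E : Set (Lp ℝ 2 (PI u μ)), E = {w | ∃ (φ : (Fin n → ℝ) → ℝ) (h : IsTest φ),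
    w = (hmem h).toLp _} := ⟨_, rfl⟩
  have hin : ∀ (v w : Lp ℝ 2 (PI u μ)), inner ℝ v w = ∫ x, w x * v x ∂(PI u μ) := by
    intro v w
    rw [L2.inner_def]
    rfl
  let S : Submodule ℝ (Lp ℝ 2 (PI u μ)) :=
    { carrier := E
      zero_mem' := by
        rw [hE]
        have h0 : IsTest (fun _ : Fin n → ℝ => (0 : ℝ)) := ⟨contDiff_const, HasCompactSupport.zero⟩
        refine ⟨fun _ => 0, h0, ?_⟩
        refine Lp.ext ?_
        refine (Lp.coeFn_zero _ _ _).trans ?_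
        refine EventuallyEq.symm ?_
        refine (MemLp.coeFn_toLp _).trans (Eventually.of_forall fun x => ?_)
        show α * 0 - LL u μ (fun _ => (0 : ℝ)) x = 0
        have h1 := LL_lin (μ := μ) (u := u) h0 h0 0 0 x
        simp only [mul_zero, add_zero, zero_mul] at h1
        rw [h1]
        ring
      add_mem' := by
        intro a b ha hb
        rw [hE] at ha hb ⊢
        obtain ⟨φ, hφ, rfl⟩ := ha
        obtain ⟨ψ, hψ, rfl⟩ := hb
        have h1 : IsTest fun x => φ x + ψ x := by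
          have := hφ.lin hψ 1 1
          simpa only [one_mul] using this
        refine ⟨_, h1, ?_⟩
        rw [← MemLp.toLp_add]
        refine (MemLp.toLp_eq_toLp_iff _ _).mpr (Eventually.of_forall fun x => ?_)
        show (α * φ x - LL u μ φ x) + (α * ψ x - LL u μ ψ x) = α * (φ x + ψ x) - LL u μ (fun x => φ x + ψ x) x
        have h2 := LL_lin (μ := μ) (u := u) hφ hψ 1 1 x
        simp only [one_mul] at h2
        rw [h2]
        ring
      smul_mem' := by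
        intro c a ha
        rw [hE] at ha ⊢
        obtain ⟨φ, hφ, rfl⟩ := ha
        have h1 : IsTest fun x => c * φ x := by
          have := hφ.lin hφ c 0
          simpa only [zero_mul, add_zero] using this
        refine ⟨_, h1, ?_⟩
        rw [← MemLp.toLp_const_smul]
        refine (MemLp.toLp_eq_toLp_iff _ _).mpr (Eventually.of_forall fun x => ?_)
        show c * (α * φ x - LL u μ φ x) = α * (c * φ x) - LL u μ (fun x => c * φ x) x
        have h2 := LL_lin (μ := μ) (u := u) hφ hφ c 0 x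
        simp only [zero_mul, add_zero] at h2
        rw [h2]
        ring }
  have horth : Sᗮ = ⊥ := by
    rw [Submodule.eq_bot_iff]
    intro v hv
    rw [Submodule.mem_orthogonal] at hv
    have h1 : (v : (Fin n → ℝ) → ℝ) =ᵐ[PI u μ] 0 := by
      refine core_zero hu hμ hα (Lp.memLp v) fun φ hφ => ?_
      have h2 : (hmem hφ).toLp _ ∈ S := by
        show (hmem hφ).toLp _ ∈ E
        rw [hE]
        exact ⟨φ, hφ, rfl⟩
      have h3 := hv _ h2
      rw [hin] at h3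
      rw [← h3]
      refine integral_congr_ae ?_
      filter_upwards [(hmem hφ).coeFn_toLp] with y hy
      rw [hy]
      ring
    refine Lp.ext ?_
    exact h1.trans (Lp.coeFn_zero _ _ _).symm
  have hdense : S.topologicalClosure = ⊤ := Submodule.topologicalClosure_eq_top_iff.mpr horth
  have hcl : (hf.toLp _ : Lp ℝ 2 (PI u μ)) ∈ closure (S : Set (Lp ℝ 2 (PI u μ))) := by
    have : (hf.toLp _ : Lp ℝ 2 (PI u μ)) ∈ S.topologicalClosure := by
      rw [hdense]
      exact Submodule.mem_top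
    exact this
  rw [Metric.mem_closure_iff] at hcl
  obtain ⟨w, hw, hd⟩ := hcl (√ε) (Real.sqrt_pos.mpr hε)
  have hw' : w ∈ E := hw
  rw [hE] at hw'
  obtain ⟨φ, hφ, rfl⟩ := hw'
  refine ⟨φ, hφ, ?_⟩
  rw [dist_eq_norm, ← MemLp.toLp_sub] at hd
  have h5 : ‖(hf.sub (hmem hφ)).toLp _‖ ^ 2 = ∫ x, (f x - (α * φ x - LL u μ φ x)) ^ 2 ∂(PI u μ) := by
    rw [← real_inner_self_eq_norm_sq, hin]
    refine integral_congr_ae ?_
    filter_upwards [(hf.sub (hmem hφ)).coeFn_toLp] with y hy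
    rw [hy]
    show (f y - (α * φ y - LL u μ φ y)) * (f y - (α * φ y - LL u μ φ y)) = _
    ring
  rw [← h5]
  calc ‖(hf.sub (hmem hφ)).toLp _‖ ^ 2 < √ε ^ 2 := pow_lt_pow_left₀ hd (norm_nonneg _) two_ne_zero
    _ = ε := Real.sq_sqrt hε.le

end Pool.Agent.SGP
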