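import Pool.Agent.SGP.WCP
import Pool.Agent.SGP.PO1

/-!
# CPT: a tight sequence with bounded energy has an `L²` convergent subsequence

Proof. `ν = nu u m` has the continuous positive density `ρ = dn u m`. By `weak_seq` for `h k = deriv (g k)` pass to a
subsequence with `g k' ⇀ ω` in `L²(ν)`. For all `x`: `g k x - g k 0 = ∫_0^x g k' = ∫ g k' q_x dν` (sign for `x < 0`),
`q_x = 1_{(0,x]} / ρ ∈ L²(ν)` (bounded: `ρ` is bounded below on compact sets), so `g k x - g k 0` converges for every `x`, and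
`|g k x - g k 0| ≤ √C ‖q_x‖`, locally bounded in `x`. `g k 0` is bounded: `(g k 0)^2 ≤ 2 (g k x)^2 + 2 C ‖q_x‖^2`, integrate over
`x ∈ [0,1]` w.r.t. `ν` (`ν [0,1] > 0`, `∫ (g k)^2 ≤ C`); pass to a further subsequence with `g k 0 → γ`
(`tendsto_subseq_of_bounded`). So `g k → v` pointwise, `v` measurable, and `g k` is uniformly bounded on compact sets.
`∫_{|x| ≤ R} (g k - v)^2 → 0` by dominated convergence; tails: `∫_{|x| > R} v^2 ≤ liminf ∫_{|x| > R} (g k)^2 ≤ ε` (Fatou) for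
`R = R(ε)`; `∫_{|x|>R} (g k - v)^2 ≤ 2 ε + 2 ε` for `k` large. `v ∈ L²`: Fatou.
-/

open MeasureTheory ProbabilityTheory Set Filter Topology
open scoped ENNReal NNReal BoundedContinuousFunction

namespace Pool.Agent.SGP

variable {u : ℝ → ℝ} {m : ℝ}

private theorem fatou_sq (μ : Measure ℝ) (g : ℕ → ℝ → ℝ) (v : ℝ → ℝ) (hg : ∀ k, Measurable (g k))
    (hv : Measurable v) (hlim : ∀ x, Tendsto (fun k => g k x) atTop (𝓝 (v x)))
    (hi : ∀ k, Integrable (fun x => g k x ^ 2) μ) (c : ℝ)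
    (hc : ∀ᶠ k in atTop, ∫ x, g k x ^ 2 ∂μ ≤ c) :
    Integrable (fun x => v x ^ 2) μ ∧ ∫ x, v x ^ 2 ∂μ ≤ c := by
  have hc0 : 0 ≤ c := by
    obtain ⟨k, hk⟩ := hc.exists
    exact le_trans (integral_nonneg fun x => sq_nonneg _) hk
  have h1 : ∫⁻ x, ENNReal.ofReal (v x ^ 2) ∂μ ≤ ENNReal.ofReal c := by
    have e : ∀ x, ENNReal.ofReal (v x ^ 2) = liminf (fun k => ENNReal.ofReal (g k x ^ 2)) atTop := by
      intro x
      have : Tendsto (fun k => ENNReal.ofReal (g k x ^ 2)) atTop (𝓝 (ENNReal.ofReal (v x ^ 2))) :=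
        ENNReal.tendsto_ofReal ((hlim x).pow 2)
      exact this.liminf_eq.symm
    calc ∫⁻ x, ENNReal.ofReal (v x ^ 2) ∂μ
        = ∫⁻ x, liminf (fun k => ENNReal.ofReal (g k x ^ 2)) atTop ∂μ := by
          exact lintegral_congr e
      _ ≤ liminf (fun k => ∫⁻ x, ENNReal.ofReal (g k x ^ 2) ∂μ) atTop :=
          lintegral_liminf_le fun k => ((hg k).pow_const 2).ennreal_ofReal
      _ ≤ ENNReal.ofReal c := by
          refine liminf_le_of_frequently_le' (Eventually.frequently ?_)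
          filter_upwards [hc] with k hk
          rw [← ofReal_integral_eq_lintegral_ofReal (hi k) (ae_of_all _ fun x => sq_nonneg _)]
          exact ENNReal.ofReal_le_ofReal hk
  have hint : Integrable (fun x => v x ^ 2) μ := by
    refine ⟨(hv.pow_const 2).aestronglyMeasurable, ?_⟩
    rw [hasFiniteIntegral_iff_ofReal (ae_of_all _ fun x => sq_nonneg _)]
    exact lt_of_le_of_lt h1 ENNReal.ofReal_lt_top
  refine ⟨hint, ?_⟩
  have h2 := ofReal_integral_eq_lintegral_ofReal hint (ae_of_all _ fun x => sq_nonneg _)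
  rw [← h2] at h1
  exact (ENNReal.ofReal_le_ofReal_iff hc0).1 h1

/-- the kernel `q_x` -/
private noncomputable def qk (u : ℝ → ℝ) (m x y : ℝ) : ℝ :=
  (Ioc 0 x).indicator (fun y => (dn u m y)⁻¹) y - (Ioc x 0).indicator (fun y => (dn u m y)⁻¹) y

private theorem qk_meas (hu : Pot u) (m x : ℝ) : Measurable (qk u m x) := by
  have h : Measurable fun y => (dn u m y)⁻¹ := ((dn_cont hu m).measurable).inv
  exact (h.indicator measurableSet_Ioc).sub (h.indicator measurableSet_Ioc)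

private theorem qk_bd (hu : Pot u) (hm : 0 < m) (R : ℝ) : ∃ M : ℝ, 0 ≤ M ∧ ∀ x, |x| ≤ R → ∀ y,
    |qk u m x y| ≤ M := by
  have hc : ContinuousOn (fun y => (dn u m y)⁻¹) (Icc (-R) R) :=
    ((dn_cont hu m).continuousOn).inv₀ fun y _ => (dn_pos hu hm y).ne'
  obtain ⟨M, hM⟩ := (isCompact_Icc : IsCompact (Icc (-R) R)).exists_bound_of_continuousOn hc
  refine ⟨|M|, abs_nonneg _, fun x hx y => ?_⟩
  obtain ⟨hx1, hx2⟩ := abs_le.1 hx
  unfold qk
  by_cases h1 : y ∈ Ioc 0 x
  · have h2 : y ∉ Ioc x 0 := by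
      rintro ⟨-, h⟩
      exact absurd h1.1 (not_lt.2 h)
    rw [indicator_of_mem h1, indicator_of_notMem h2, sub_zero]
    have := hM y ⟨by linarith [h1.1, h1.2, hx1], by linarith [h1.2]⟩
    rw [Real.norm_eq_abs] at this
    exact this.trans (le_abs_self _)
  · rw [indicator_of_notMem h1, zero_sub, abs_neg]
    by_cases h2 : y ∈ Ioc x 0
    · rw [indicator_of_mem h2]
      have := hM y ⟨by linarith [h2.1], by linarith [h2.1, h2.2]⟩
      rw [Real.norm_eq_abs] at this
      exact this.trans (le_abs_self _)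
    · rw [indicator_of_notMem h2, abs_zero]
      exact abs_nonneg _

private theorem qk_memLp (hu : Pot u) (hm : 0 < m) (x : ℝ) : MemLp (qk u m x) 2 (nu u m) := by
  haveI := nu_prob hu hm
  obtain ⟨M, hM0, hM⟩ := qk_bd hu hm |x|
  exact MemLp.of_bound (qk_meas hu m x).aestronglyMeasurable M
    (ae_of_all _ fun y => by rw [Real.norm_eq_abs]; exact hM x le_rfl y)

private theorem ftc_qk (hu : Pot u) (hm : 0 < m) {g : ℝ → ℝ} (hg : ContDiff ℝ 1 g) (x : ℝ) :
    g x - g 0 = ∫ y, deriv g y * qk u m x y ∂(nu u m) := by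
  have hcd : Continuous (deriv g) := hg.continuous_deriv le_rfl
  have hd : Differentiable ℝ g := hg.differentiable one_ne_zero
  have e1 : ∫ y in (0 : ℝ)..x, deriv g y = g x - g 0 :=
    intervalIntegral.integral_eq_sub_of_hasDerivAt (fun y _ => (hd y).hasDerivAt)
      (hcd.intervalIntegrable _ _)
  rw [integral_nu hu hm, ← e1, intervalIntegral]
  have hi : ∀ a b : ℝ, IntegrableOn (deriv g) (Ioc a b) := fun a b =>
    (hcd.integrableOn_Icc).mono_set Ioc_subset_Icc_self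
  have e2 : (fun y => deriv g y * qk u m x y * dn u m y) = fun y =>
      (Ioc 0 x).indicator (deriv g) y - (Ioc x 0).indicator (deriv g) y := by
    funext y
    have hp := (dn_pos hu hm y).ne'
    unfold qk
    by_cases h1 : y ∈ Ioc 0 x
    · have h2 : y ∉ Ioc x 0 := by
        rintro ⟨-, h⟩
        exact absurd h1.1 (not_lt.2 h)
      rw [indicator_of_mem h1, indicator_of_notMem h2, indicator_of_mem h1, indicator_of_notMem h2]
      field_simp
      try ring
    · by_cases h2 : y ∈ Ioc x 0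
      · rw [indicator_of_notMem h1, indicator_of_mem h2, indicator_of_notMem h1, indicator_of_mem h2]
        field_simp
        try ring
      · rw [indicator_of_notMem h1, indicator_of_notMem h2, indicator_of_notMem h1,
          indicator_of_notMem h2]
        simp
  rw [e2, integral_sub, integral_indicator measurableSet_Ioc, integral_indicator measurableSet_Ioc]
  · exact (integrable_indicator_iff measurableSet_Ioc).2 (hi _ _)
  · exact (integrable_indicator_iff measurableSet_Ioc).2 (hi _ _)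

private theorem inc_bd (hu : Pot u) (hm : 0 < m) (C R : ℝ) : ∃ D : ℝ, 0 ≤ D ∧ ∀ g : ℝ → ℝ,
    ContDiff ℝ 1 g → MemLp (deriv g) 2 (nu u m) → ∫ x, deriv g x ^ 2 ∂(nu u m) ≤ C →
    ∀ x, |x| ≤ R → |g x - g 0| ≤ D := by
  haveI := nu_prob hu hm
  obtain ⟨M, hM0, hM⟩ := qk_bd hu hm R
  refine ⟨(|C| + M ^ 2) / 2, by positivity, fun g hg hgd hC x hx => ?_⟩
  rw [ftc_qk hu hm hg x]
  have hq := qk_memLp hu hm x
  have i1 : Integrable (fun y => deriv g y ^ 2) (nu u m) := hgd.integrable_sq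
  have i2 : Integrable (fun y => (deriv g y ^ 2 + M ^ 2) / 2) (nu u m) :=
    (i1.add (integrable_const _)).div_const 2
  calc |∫ y, deriv g y * qk u m x y ∂(nu u m)|
      ≤ ∫ y, |deriv g y * qk u m x y| ∂(nu u m) := abs_integral_le_integral_abs
    _ ≤ ∫ y, (deriv g y ^ 2 + M ^ 2) / 2 ∂(nu u m) := by
        refine integral_mono_of_nonneg (ae_of_all _ fun y => abs_nonneg _) i2
          (ae_of_all _ fun y => ?_)
        have h1 := hM x hx y
        have h2 : |deriv g y * qk u m x y| = |deriv g y| * |qk u m x y| := abs_mul _ _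
        have h3 : |deriv g y| ^ 2 = deriv g y ^ 2 := sq_abs _
        simp only []
        rw [h2, ← h3]
        nlinarith [sq_nonneg (|deriv g y| - |qk u m x y|), abs_nonneg (qk u m x y), abs_nonneg (deriv g y)]
    _ = (∫ y, deriv g y ^ 2 ∂(nu u m) + M ^ 2) / 2 := by
        rw [integral_div, integral_add i1 (integrable_const _)]
        simp
    _ ≤ (|C| + M ^ 2) / 2 := by
        have := hC.trans (le_abs_self C)
        linarith

private theorem zero_bd (hu : Pot u) (hm : 0 < m) (C : ℝ) : ∃ D : ℝ, 0 ≤ D ∧ ∀ g : ℝ → ℝ,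
    ContDiff ℝ 1 g → MemLp g 2 (nu u m) → MemLp (deriv g) 2 (nu u m) → ∫ x, g x ^ 2 ∂(nu u m) ≤ C →
    ∫ x, deriv g x ^ 2 ∂(nu u m) ≤ C → |g 0| ≤ D := by
  haveI := nu_prob hu hm
  obtain ⟨D, hD0, hD⟩ := inc_bd hu hm C 1
  set a : ℝ := (nu u m).real (Icc 0 1) with ha
  have ha0 : 0 < a := by
    rw [ha, Measure.real, ENNReal.toReal_pos_iff]
    refine ⟨?_, measure_lt_top _ _⟩
    rw [nu, withDensity_apply _ measurableSet_Icc]
    refine (setLIntegral_pos_iff ?_).2 ?_
    · exact (dn_cont hu m).measurable.ennreal_ofReal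
    · have : Function.support (fun g => ENNReal.ofReal (dn u m g)) ∩ Icc (0 : ℝ) 1 = Icc 0 1 := by
        refine inter_eq_right.2 fun y _ => ?_
        rw [Function.mem_support]
        exact (ENNReal.ofReal_pos.2 (dn_pos hu hm y)).ne'
      rw [this, Real.volume_Icc]
      simp
  refine ⟨√((2 * |C| + 2 * D ^ 2) / a), Real.sqrt_nonneg _, fun g hg hg1 hg2 hC hC' => ?_⟩
  apply Real.abs_le_sqrt
  rw [le_div_iff₀ ha0]
  have i1 : Integrable (fun y => g y ^ 2) (nu u m) := hg1.integrable_sq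
  have i2 : Integrable (fun y => 2 * g y ^ 2 + 2 * D ^ 2) (nu u m) :=
    (i1.const_mul 2).add (integrable_const _)
  calc g 0 ^ 2 * a = ∫ _ in Icc (0 : ℝ) 1, g 0 ^ 2 ∂(nu u m) := by
        rw [setIntegral_const, smul_eq_mul, mul_comm, ha]
    _ ≤ ∫ y in Icc (0 : ℝ) 1, (2 * g y ^ 2 + 2 * D ^ 2) ∂(nu u m) := by
        refine setIntegral_mono_on (integrableOn_const (measure_ne_top _ _)) i2.integrableOn
          measurableSet_Icc fun y hy => ?_
        have h1 := hD g hg hg2 hC' y (by rw [abs_of_nonneg hy.1]; exact hy.2)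
        have h2 := sq_le_sq' (by linarith [abs_le.1 h1]) (abs_le.1 h1).2
        nlinarith [sq_nonneg (g y + (g y - g 0))]
    _ ≤ ∫ y, (2 * g y ^ 2 + 2 * D ^ 2) ∂(nu u m) := by
        refine setIntegral_le_integral i2 (ae_of_all _ fun y => ?_)
        positivity
    _ = 2 * ∫ y, g y ^ 2 ∂(nu u m) + 2 * D ^ 2 := by
        rw [integral_add (i1.const_mul 2) (integrable_const _), integral_const_mul]
        simp
    _ ≤ 2 * |C| + 2 * D ^ 2 := by
        have := hC.trans (le_abs_self C)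
        linarith

theorem cpt_l2 (hu : Pot u) (hm : 0 < m) (g : ℕ → ℝ → ℝ) (hg : ∀ k, ContDiff ℝ 1 (g k))
    (hg1 : ∀ k, MemLp (g k) 2 (nu u m)) (hg2 : ∀ k, MemLp (deriv (g k)) 2 (nu u m)) (C : ℝ)
    (hC : ∀ k, ∫ x, g k x ^ 2 ∂(nu u m) ≤ C) (hC' : ∀ k, ∫ x, deriv (g k) x ^ 2 ∂(nu u m) ≤ C)
    (htail : ∀ ε > 0, ∃ R > 0, ∃ K : ℕ, ∀ k ≥ K, ∫ x in {x | R < |x|}, g k x ^ 2 ∂(nu u m) ≤ ε) :
    ∃ φ : ℕ → ℕ, StrictMono φ ∧ ∃ v : ℝ → ℝ, Measurable v ∧ MemLp v 2 (nu u m) ∧
      Tendsto (fun k => ∫ x, (g (φ k) x - v x) ^ 2 ∂(nu u m)) atTop (𝓝 0) := by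
  haveI := nu_prob hu hm
  obtain ⟨φ₁, hφ₁, ω, hω, hw⟩ := weak_seq (nu u m) (fun k => deriv (g k)) hg2 C hC'
  obtain ⟨D0, hD00, hD0⟩ := zero_bd hu hm C
  have hb0 : ∀ k, |g k 0| ≤ D0 := fun k => hD0 (g k) (hg k) (hg1 k) (hg2 k) (hC k) (hC' k)
  obtain ⟨γ, -, φ₂, hφ₂, hγ⟩ := tendsto_subseq_of_bounded
    (s := Metric.closedBall (0 : ℝ) D0) Metric.isBounded_closedBall
    (x := fun k => g (φ₁ k) 0)
    (fun k => by rw [mem_closedBall_zero_iff, Real.norm_eq_abs]; exact hb0 _)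
  set φ : ℕ → ℕ := fun k => φ₁ (φ₂ k) with hφdef
  have hφ : StrictMono φ := hφ₁.comp hφ₂
  set v : ℝ → ℝ := fun x => (∫ y, ω y * qk u m x y ∂(nu u m)) + γ with hvdef
  have hlim : ∀ x, Tendsto (fun k => g (φ k) x) atTop (𝓝 (v x)) := by
    intro x
    have h1 := (hw (qk u m x) (qk_memLp hu hm x)).comp hφ₂.tendsto_atTop
    have h2 : (fun k => g (φ k) x) = fun k => ((fun k => ∫ y, deriv (g (φ₁ k)) y * qk u m x y ∂(nu u m)) ∘ φ₂) k
        + ((fun k => g (φ₁ k) 0) ∘ φ₂) k := by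
      funext k
      have := ftc_qk hu hm (hg (φ k)) x
      simp only [Function.comp, hφdef] at this ⊢
      linarith
    rw [h2]
    exact h1.add hγ
  have hgm : ∀ k, Measurable (g k) := fun k => (hg k).continuous.measurable
  have hvm : Measurable v := measurable_of_tendsto_metrizable (fun k => hgm (φ k)) (tendsto_pi_nhds.2 hlim)
  have i1 : ∀ k, Integrable (fun y => g k y ^ 2) (nu u m) := fun k => (hg1 k).integrable_sq
  obtain ⟨hv2, hvC⟩ := fatou_sq (nu u m) (fun k => g (φ k)) v (fun k => hgm _) hvm hlim (fun k => i1 _) C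
    (Eventually.of_forall fun k => hC _)
  have hvL : MemLp v 2 (nu u m) := (memLp_two_iff_integrable_sq hvm.aestronglyMeasurable).2 hv2
  refine ⟨φ, hφ, v, hvm, hvL, ?_⟩
  have i3 : ∀ k, Integrable (fun y => (g k y - v y) ^ 2) (nu u m) := fun k => ((hg1 k).sub hvL).integrable_sq
  rw [Metric.tendsto_atTop]
  intro ε hε
  obtain ⟨R, hR, K, hK⟩ := htail (ε / 8) (by positivity)
  obtain ⟨DR, hDR0, hDR⟩ := inc_bd hu hm C R
  set S : Set ℝ := {x | R < |x|} with hS
  have hSm : MeasurableSet S := measurableSet_lt measurable_const measurable_norm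
  have hKφ : ∀ k ≥ K, ∫ x in S, g (φ k) x ^ 2 ∂(nu u m) ≤ ε / 8 := fun k hk =>
    hK (φ k) (le_trans hk (hφ.id_le k))
  obtain ⟨hvS, hvSe⟩ := fatou_sq ((nu u m).restrict S) (fun k => g (φ k)) v (fun k => hgm _) hvm hlim
    (fun k => (i1 _).integrableOn) (ε / 8) (by filter_upwards [eventually_ge_atTop K] with k hk using hKφ k hk)
  have hbd : ∀ k x, x ∈ Sᶜ → |g k x| ≤ D0 + DR := by
    intro k x hx
    have hx' : |x| ≤ R := by simpa [hS] using hx
    have h1 := hDR (g k) (hg k) (hg2 k) (hC' k) x hx'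
    have h2 := hb0 k
    calc |g k x| = |g k 0 + (g k x - g k 0)| := by congr 1; ring
      _ ≤ |g k 0| + |g k x - g k 0| := abs_add_le _ _
      _ ≤ D0 + DR := add_le_add h2 h1
  have hbv : ∀ x, x ∈ Sᶜ → |v x| ≤ D0 + DR := fun x hx =>
    le_of_tendsto ((hlim x).abs) (Eventually.of_forall fun k => hbd _ x hx)
  have hdc : Tendsto (fun k => ∫ x in Sᶜ, (g (φ k) x - v x) ^ 2 ∂(nu u m)) atTop (𝓝 0) := by
    have h0 : (0 : ℝ) = ∫ x in Sᶜ, (0 : ℝ) ∂(nu u m) := by simp
    rw [h0]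
    refine tendsto_integral_of_dominated_convergence (fun _ => (2 * (D0 + DR)) ^ 2) ?_ ?_ ?_ ?_
    · intro k
      exact (((hgm _).sub hvm).pow_const 2).aestronglyMeasurable
    · exact integrable_const _
    · intro k
      refine (ae_restrict_iff' hSm.compl).2 (ae_of_all _ fun x hx => ?_)
      rw [Real.norm_eq_abs, abs_pow]
      have h1 := hbd (φ k) x hx
      have h2 := hbv x hx
      have h3 : |g (φ k) x - v x| ≤ 2 * (D0 + DR) := by
        calc |g (φ k) x - v x| ≤ |g (φ k) x| + |v x| := abs_sub _ _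
          _ ≤ 2 * (D0 + DR) := by linarith
      exact pow_le_pow_left₀ (abs_nonneg _) h3 2
    · refine ae_of_all _ fun x => ?_
      have := ((hlim x).sub_const (v x)).pow 2
      simpa using this
  obtain ⟨K2, hK2⟩ := (Metric.tendsto_atTop.1 hdc) (ε / 4) (by positivity)
  refine ⟨max K K2, fun k hk => ?_⟩
  have hk1 : K ≤ k := (le_max_left _ _).trans hk
  have hk2 : K2 ≤ k := (le_max_right _ _).trans hk
  rw [Real.dist_eq, sub_zero, abs_of_nonneg (integral_nonneg fun x => sq_nonneg _)]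
  rw [← integral_add_compl hSm (i3 (φ k))]
  have h1 : ∫ x in S, (g (φ k) x - v x) ^ 2 ∂(nu u m) ≤ 2 * (ε / 8) + 2 * (ε / 8) := by
    have hle : ∫ x in S, (g (φ k) x - v x) ^ 2 ∂(nu u m) ≤
        ∫ x in S, (2 * g (φ k) x ^ 2 + 2 * v x ^ 2) ∂(nu u m) := by
      refine integral_mono (i3 (φ k)).integrableOn
        ((((i1 (φ k)).integrableOn).const_mul 2).add (hvS.const_mul 2)) fun x => ?_
      simp only []
      nlinarith [sq_nonneg (g (φ k) x + v x)]
    refine hle.trans ?_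
    rw [integral_add (((i1 (φ k)).integrableOn).const_mul 2) (hvS.const_mul 2), integral_const_mul,
      integral_const_mul]
    have := hKφ k hk1
    linarith
  have h2 := hK2 k hk2
  rw [Real.dist_eq, sub_zero] at h2
  have h3 := (abs_lt.1 h2).2
  linarith

end Pool.Agent.SGP
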