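import Pool.Agent.SGP.PST
import Pool.Agent.SGP.FEL

/-!
# MAR: Markov property

Proof. `h = 0`: `ptb_zero`. For `h > 0` put `Ψ_N (y, w) = f (euw (drift n μ u) h N y w)`, bounded by `‖f‖`, measurable
(`measurable_euw`, drift continuous). By `integral_blks` with `Y = G x s` (measurable w.r.t. the past,
`measurable_gap_past`): `∫_A f (euw .. (G x s ω) (blks s h ω)) = ∫_A (∫ Ψ_N (G x s ω, w) dW) `, `W = P.map (blk B _ 0)`.
As `N → ∞` the left side tends to `∫_A f (G x (s+h) ω)` (`euw_tendsto`, dominated convergence). On the right, for every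
`y`: `∫ Ψ_N (y, w) dW = ∫ Ψ_N (y, blks B _ 0 h ω) dP → ∫ f (G y h ω) dP = pt P G h f y` (`law_blks` with `s = 0`,
`integral_map`, `euw_tendsto` with `s = 0`, `gap_zero`, dominated convergence), so dominated convergence again.
`ptb_semigroup`: `A = univ`.
-/

open MeasureTheory ProbabilityTheory Set Filter Topology
open scoped ENNReal NNReal BoundedContinuousFunction

namespace Pool.Agent.SGP

open Pool.Agent.OYG

variable {n : ℕ} {Ω : Type*} [MeasurableSpace Ω] {P : Measure Ω} {μ : Fin (n + 1) → ℝ} {u : ℝ → ℝ}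
  {B : Fin (n + 1) → ℝ≥0 → Ω → ℝ} {G : (Fin n → ℝ) → ℝ≥0 → Ω → Fin n → ℝ}

/-- the expectation over one block is the limit of Euler expectations -/
theorem euw_pt (S : Sys P n μ u B G) {h : ℝ≥0} (hh : 0 < h) (f : (Fin n → ℝ) →ᵇ ℝ) (y : Fin n → ℝ) :
    Tendsto (fun N : ℕ => ∫ w, f (euw (drift n μ u) h N y w) ∂(P.map (blk B S.bm.cont 0))) atTop
      (𝓝 (pt P G h f y)) := by
  have hP := S.prob
  have hdc : Continuous (drift n μ u) := drift_cont μ S.pot.lip
  have hm : ∀ N : ℕ, Measurable fun w : Blk n => f (euw (drift n μ u) h N y w) := fun N =>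
    f.continuous.measurable.comp ((measurable_euw hdc h N).comp (measurable_const.prodMk measurable_id))
  have h1 : ∀ N : ℕ, ∫ w, f (euw (drift n μ u) h N y w) ∂(P.map (blk B S.bm.cont 0)) =
      ∫ ω, f (euw (drift n μ u) h N y (blks B S.bm.cont 0 h ω)) ∂P := fun N => by
    rw [← law_blks S.bm 0 hh, integral_map (measurable_blks S.bm 0 h).aemeasurable
      (hm N).aestronglyMeasurable]
  simp only [h1]
  refine tendsto_integral_of_dominated_convergence (fun _ => ‖f‖) (fun N => ?_)
    (integrable_const _) (fun N => Eventually.of_forall fun ω => f.norm_coe_le_norm _)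
    (Eventually.of_forall fun ω => ?_)
  · exact ((hm N).comp (measurable_blks S.bm 0 h)).aestronglyMeasurable
  · have h2 := euw_tendsto S y 0 hh ω
    rw [gap_zero S y ω, zero_add] at h2
    exact (f.continuous.tendsto _).comp h2

theorem markov (S : Sys P n μ u B G) (x : Fin n → ℝ) (s h : ℝ≥0) (f : (Fin n → ℝ) →ᵇ ℝ) (A : Set Ω)
    (hA : MeasurableSet[past B s] A) :
    ∫ ω in A, f (G x (s + h) ω) ∂P = ∫ ω in A, pt P G h f (G x s ω) ∂P := by
  have hP := S.prob
  rcases eq_or_ne h 0 with h0 | h0
  · rw [h0, add_zero]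
    refine integral_congr_ae (Eventually.of_forall fun ω => ?_)
    have h1 : pt P G 0 f (G x s ω) = f (G x s ω) := by
      have h2 : ∀ ω', G (G x s ω) 0 ω' = G x s ω := fun ω' => gap_zero S _ ω'
      simp only [pt, h2]
      simp
    exact h1.symm
  have hh : 0 < h := pos_iff_ne_zero.mpr h0
  have hdc : Continuous (drift n μ u) := drift_cont μ S.pot.lip
  have hmE : ∀ N : ℕ, Measurable fun p : (Fin n → ℝ) × Blk n => f (euw (drift n μ u) h N p.1 p.2) :=
    fun N => f.continuous.measurable.comp (measurable_euw hdc h N)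
  have hb : ∀ p : Fin n → ℝ, |f p| ≤ ‖f‖ := fun p => f.norm_coe_le_norm p
  have hmb := measurable_blk S.bm 0
  have hW : IsProbabilityMeasure (P.map (blk B S.bm.cont 0)) :=
    Measure.isProbabilityMeasure_map hmb.aemeasurable
  have h1 : Tendsto (fun N : ℕ => ∫ ω in A,
      f (euw (drift n μ u) h N (G x s ω) (blks B S.bm.cont s h ω)) ∂P) atTop
      (𝓝 (∫ ω in A, f (G x (s + h) ω) ∂P)) := by
    refine tendsto_integral_of_dominated_convergence (fun _ => ‖f‖) (fun N => ?_)
      (integrable_const _) (fun N => Eventually.of_forall fun ω => hb _)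
      (Eventually.of_forall fun ω => (f.continuous.tendsto _).comp (euw_tendsto S x s hh ω))
    exact ((hmE N).comp (((S.gap x).meas s).prodMk (measurable_blks S.bm s h))).aestronglyMeasurable
  have h2 : ∀ N : ℕ, ∫ ω in A, f (euw (drift n μ u) h N (G x s ω) (blks B S.bm.cont s h ω)) ∂P =
      ∫ ω in A, (∫ w, f (euw (drift n μ u) h N (G x s ω) w) ∂(P.map (blk B S.bm.cont 0))) ∂P :=
    fun N => integral_blks S.bm s hh A hA (G x s) (measurable_gap_past S x s)
      (fun p => f (euw (drift n μ u) h N p.1 p.2)) (hmE N) ‖f‖ fun p => hb _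
  have h3 : Tendsto (fun N : ℕ => ∫ ω in A,
      (∫ w, f (euw (drift n μ u) h N (G x s ω) w) ∂(P.map (blk B S.bm.cont 0))) ∂P) atTop
      (𝓝 (∫ ω in A, pt P G h f (G x s ω) ∂P)) := by
    refine tendsto_integral_of_dominated_convergence (fun _ => ‖f‖) (fun N => ?_)
      (integrable_const _) (fun N => Eventually.of_forall fun ω => ?_)
      (Eventually.of_forall fun ω => euw_pt S hh f (G x s ω))
    · have hsm : StronglyMeasurable fun y : Fin n → ℝ =>
          ∫ w, f (euw (drift n μ u) h N y w) ∂(P.map (blk B S.bm.cont 0)) :=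
        (hmE N).stronglyMeasurable.integral_prod_right (ν := P.map (blk B S.bm.cont 0))
      exact (hsm.comp_measurable ((S.gap x).meas s)).aestronglyMeasurable
    · have := norm_integral_le_of_norm_le_const (μ := P.map (blk B S.bm.cont 0))
        (f := fun w => f (euw (drift n μ u) h N (G x s ω) w)) (C := ‖f‖)
        (Eventually.of_forall fun w => f.norm_coe_le_norm _)
      simpa using this
  simp only [h2] at h1
  exact tendsto_nhds_unique h1 h3

theorem ptb_semigroup (S : Sys P n μ u B G) (s h : ℝ≥0) (f : (Fin n → ℝ) →ᵇ ℝ) :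
    ptb S (s + h) f = ptb S s (ptb S h f) := by
  ext x
  have h1 := markov S x s h f Set.univ (@MeasurableSet.univ _ (past B s))
  rw [Measure.restrict_univ] at h1
  exact h1

end Pool.Agent.SGP
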