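import Pool.Agent.SGP.STI
import Pool.Agent.SGP.MAR

/-!
# CTR: contraction and continuity in `L²(π)`
-/

open MeasureTheory ProbabilityTheory Set Filter Topology
open scoped ENNReal NNReal BoundedContinuousFunction

namespace Pool.Agent.SGP

open Pool.Agent.OYG

variable {n : ℕ} {Ω : Type*} [MeasurableSpace Ω] {P : Measure Ω} {μ : Fin (n + 1) → ℝ} {u : ℝ → ℝ}
  {B : Fin (n + 1) → ℝ≥0 → Ω → ℝ} {G : (Fin n → ℝ) → ℝ≥0 → Ω → Fin n → ℝ}

/-- Jensen -/
theorem ptb_sq_le (S : Sys P n μ u B G) (t : ℝ≥0) (f : (Fin n → ℝ) →ᵇ ℝ) (x : Fin n → ℝ) :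
    ptb S t f x ^ 2 ≤ ptb S t (f * f) x := by
  have hP := S.prob
  set c : ℝ := ptb S t f x with hc
  have h1 : ∫ ω, f (G x t ω) ∂P = c := rfl
  have h2 : ∫ ω, (f * f) (G x t ω) ∂P = ptb S t (f * f) x := rfl
  have hi1 := integrable_gap S t f x
  have hi2 := integrable_gap S t (f * f) x
  have h3 : (0 : ℝ) ≤ ∫ ω, (f (G x t ω) - c) ^ 2 ∂P := integral_nonneg fun ω => sq_nonneg _
  have h4 : ∫ ω, (f (G x t ω) - c) ^ 2 ∂P = ptb S t (f * f) x - c ^ 2 := by
    have e : (fun ω => (f (G x t ω) - c) ^ 2) =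
        fun ω => ((f * f) (G x t ω) - (2 * c) * f (G x t ω)) + c ^ 2 := by
      funext ω
      rw [BoundedContinuousFunction.mul_apply]
      ring
    have hi3 : Integrable (fun ω => (f * f) (G x t ω) - (2 * c) * f (G x t ω)) P :=
      hi2.sub (hi1.const_mul _)
    rw [e, integral_add hi3 (integrable_const _), integral_sub hi2 (hi1.const_mul _),
      integral_const_mul, h1, h2]
    simp
    ring
  linarith

theorem contr (S : Sys P n μ u B G) {π : Measure (Fin n → ℝ)} (hπ : IsStat P G π) (t : ℝ≥0)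
    (f : (Fin n → ℝ) →ᵇ ℝ) : ∫ x, ptb S t f x ^ 2 ∂π ≤ ∫ x, f x ^ 2 ∂π := by
  have hp := hπ.prob
  have h1 := stat_int S hπ t (f * f)
  have h2 : ∀ x, (f * f) x = f x ^ 2 := fun x => by
    rw [BoundedContinuousFunction.mul_apply]; ring
  have h3 : ∀ x, (ptb S t f * ptb S t f) x = ptb S t f x ^ 2 := fun x => by
    rw [BoundedContinuousFunction.mul_apply]; ring
  simp only [h2] at h1
  rw [← h1]
  have h4 : ∫ x, ptb S t f x ^ 2 ∂π = ∫ x, (ptb S t f * ptb S t f) x ∂π := by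
    simp only [h3]
  rw [h4]
  refine integral_mono ((ptb S t f * ptb S t f).integrable π) ((ptb S t (f * f)).integrable π) fun x => ?_
  have := ptb_sq_le S t f x
  rw [← h3] at this
  exact this

theorem ptb_l2_cont (S : Sys P n μ u B G) {π : Measure (Fin n → ℝ)} (hπ : IsStat P G π) (t : ℝ≥0)
    (f : (Fin n → ℝ) →ᵇ ℝ) :
    Tendsto (fun s => ∫ x, (ptb S s f x - ptb S t f x) ^ 2 ∂π) (𝓝 t) (𝓝 0) := by
  have hp := hπ.prob
  have h0 : (0 : ℝ) = ∫ x, (0 : ℝ) ∂π := by simp
  rw [h0]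
  refine tendsto_integral_filter_of_dominated_convergence (fun _ => (2 * ‖f‖) ^ 2) ?_ ?_
    (integrable_const _) ?_
  · refine Eventually.of_forall fun s => ?_
    exact (((ptb S s f).continuous.sub (ptb S t f).continuous).pow 2).aestronglyMeasurable
  · refine Eventually.of_forall fun s => Eventually.of_forall fun x => ?_
    have h1 := abs_le.mp (pt_le S f s x)
    have h2 := abs_le.mp (pt_le S f t x)
    rw [Real.norm_eq_abs, abs_of_nonneg (sq_nonneg _)]
    rw [ptb_apply, ptb_apply]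
    exact sq_le_sq' (by linarith) (by linarith)
  · refine Eventually.of_forall fun x => ?_
    have h1 : Continuous fun s : ℝ≥0 => pt P G s f x := (pt_cont S f).comp (Continuous.prodMk_left x)
    have h2 : Tendsto (fun s : ℝ≥0 => (pt P G s f x - pt P G t f x) ^ 2) (𝓝 t)
        (𝓝 ((pt P G t f x - pt P G t f x) ^ 2)) := ((h1.tendsto t).sub_const _).pow 2
    simpa using h2

end Pool.Agent.SGP
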