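import Pool.Agent.SGP.EUG
import Pool.Agent.SGP.BKS

/-!
# PST: adaptedness and measurability of path events

Proofs. `G x t` for `t > 0` is the pointwise limit of `euw (drift n μ u) t N x (blks B _ 0 t ω)` (`euw_tendsto` with
`s = 0`, `gap_zero`), each measurable w.r.t. `past B t` (`measurable_blks_past`, `measurable_euw`); `t = 0` is
constant. `{∀ t ≤ s, ‖G x t - c‖ ≤ r}` is, by continuity of the path, the countable intersection over rational `t`
(take `t = min q s`, `q` rational, or a countable dense subset of `ℝ≥0` containing.. ) of the sets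
`{‖G x t - c‖ ≤ r}`, measurable w.r.t. `past B t ≤ past B s`.
(`explode`) the sets `{∃ t ≤ T, R ≤ ‖G x t‖}` decrease to the empty set (a continuous path is bounded on `[0,T]`); they
are measurable (complement of the increasing union over `k` of `{∀ t ≤ T, ‖G x t‖ ≤ R - 1/(k+1)}`: the maximum is
attained), so continuity from above. (`osc_small`) same argument with the modulus of continuity: for fixed `ω` the path
is uniformly continuous on `[0,T]`; the sets decrease to `∅`; if measurability is inconvenient, dominate by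
`tendsto_measure_iInter_le..` or use rational times.
-/

open MeasureTheory ProbabilityTheory Set Filter Topology
open scoped ENNReal NNReal BoundedContinuousFunction

namespace Pool.Agent.SGP

open Pool.Agent.OYG

variable {n : ℕ} {Ω : Type*} [MeasurableSpace Ω] {P : Measure Ω} {μ : Fin (n + 1) → ℝ} {u : ℝ → ℝ}
  {B : Fin (n + 1) → ℝ≥0 → Ω → ℝ} {G : (Fin n → ℝ) → ℝ≥0 → Ω → Fin n → ℝ}

theorem measurable_gap_past (S : Sys P n μ u B G) (x : Fin n → ℝ) (t : ℝ≥0) : Measurable[past B t] (G x t) := by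
  rcases eq_or_ne t 0 with h0 | h0
  · have h1 : G x t = fun _ => x := by
      funext ω
      rw [h0, gap_zero S x ω]
    rw [h1]
    exact @measurable_const _ _ _ (past B t) _
  · have ht : 0 < t := pos_iff_ne_zero.mpr h0
    refine @measurable_of_tendsto_metrizable Ω _ (past B t) _ _ _ _
      (fun N ω => euw (drift n μ u) t N x (blks B S.bm.cont 0 t ω)) (G x t) (fun N => ?_)
      (tendsto_pi_nhds.mpr fun ω => ?_)
    · have h2 : Measurable fun w : Blk n => euw (drift n μ u) t N x w :=
        (measurable_euw (drift_cont μ S.pot.lip) t N).comp (measurable_const.prodMk measurable_id)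
      have h3 := measurable_blks_past S.bm 0 t
      rw [zero_add] at h3
      exact h2.comp h3
    · have h4 := euw_tendsto S x 0 ht ω
      rw [gap_zero S x ω, zero_add] at h4
      exact h4

theorem measurableSet_stay (S : Sys P n μ u B G) (x c : Fin n → ℝ) (r : ℝ) (s : ℝ≥0) :
    MeasurableSet[past B s] {ω | ∀ t ≤ s, ‖G x t ω - c‖ ≤ r} := by
  obtain ⟨D, hD, hDd⟩ := TopologicalSpace.exists_countable_dense ℝ≥0
  have h1 : {ω | ∀ t ≤ s, ‖G x t ω - c‖ ≤ r} = ⋂ q ∈ D, {ω | ‖G x (min q s) ω - c‖ ≤ r} := by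
    ext ω
    simp only [mem_iInter]
    constructor
    · intro h q _
      exact h _ (min_le_right _ _)
    · intro h t ht
      have hc : Continuous fun q : ℝ≥0 => ‖G x (min q s) ω - c‖ :=
        ((((S.gap x).cont ω).comp (continuous_id.min continuous_const)).sub continuous_const).norm
      have hcl : IsClosed {q : ℝ≥0 | ‖G x (min q s) ω - c‖ ≤ r} := isClosed_le hc continuous_const
      have hsub : D ⊆ {q : ℝ≥0 | ‖G x (min q s) ω - c‖ ≤ r} := fun q hq => h q hq
      have h2 : t ∈ {q : ℝ≥0 | ‖G x (min q s) ω - c‖ ≤ r} := by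
        have h3 := hcl.closure_subset_iff.mpr hsub
        rw [hDd.closure_eq] at h3
        exact h3 (mem_univ t)
      have h4 : ‖G x (min t s) ω - c‖ ≤ r := h2
      rwa [min_eq_left ht] at h4
  rw [h1]
  refine MeasurableSet.biInter hD fun q _ => ?_
  have h2 : Measurable[past B s] (G x (min q s)) :=
    (measurable_gap_past S x (min q s)).mono (past_mono (min_le_right _ _)) le_rfl
  have hn : Measurable fun y : Fin n → ℝ => ‖y - c‖ := (measurable_id.sub_const c).norm
  have h3 : Measurable[past B s] fun ω => ‖G x (min q s) ω - c‖ := hn.comp h2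
  exact h3 measurableSet_Iic

theorem explode (S : Sys P n μ u B G) (x : Fin n → ℝ) (T : ℝ≥0) {ε : ℝ} (hε : 0 < ε) :
    ∃ R : ℝ, 0 < R ∧ P {ω | ¬ ∀ t ≤ T, ‖G x t ω‖ ≤ R} ≤ ENNReal.ofReal ε := by
  have hP := S.prob
  set F : ℕ → Set Ω := fun k => {ω | ¬ ∀ t ≤ T, ‖G x t ω‖ ≤ (k : ℝ) + 1} with hF
  have hm : ∀ k, MeasurableSet (F k) := fun k => by
    have h1 := (past_le S.bm T) _ (measurableSet_stay S x 0 ((k : ℝ) + 1) T)
    simp only [sub_zero] at h1
    exact h1.compl
  have ha : Antitone F := by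
    intro j k hjk ω hω hcon
    refine hω fun t ht => (hcon t ht).trans ?_
    have : (j : ℝ) ≤ k := by exact_mod_cast hjk
    linarith
  have hem : ⋂ k, F k = ∅ := by
    ext ω
    simp only [mem_iInter, mem_empty_iff_false, iff_false, not_forall]
    obtain ⟨C, hC⟩ := (isCompact_Icc (a := (0 : ℝ≥0)) (b := T)).exists_bound_of_continuousOn
      ((S.gap x).cont ω).continuousOn
    obtain ⟨k, hk⟩ := exists_nat_gt C
    refine ⟨k, fun hω => hω fun t ht => (hC t ⟨zero_le, ht⟩).trans ?_⟩
    linarith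
  have hlim := tendsto_measure_iInter_atTop (μ := P) (fun k => (hm k).nullMeasurableSet) ha
    ⟨0, measure_ne_top P _⟩
  rw [hem, measure_empty] at hlim
  have hev := (tendsto_order.mp hlim).2 (ENNReal.ofReal ε) (ENNReal.ofReal_pos.mpr hε)
  obtain ⟨k, hk⟩ := hev.exists
  exact ⟨(k : ℝ) + 1, by positivity, hk.le⟩

theorem osc_small (S : Sys P n μ u B G) (x : Fin n → ℝ) (T : ℝ≥0) {r ε : ℝ} (hr : 0 < r) (hε : 0 < ε) :
    ∃ δ : ℝ≥0, 0 < δ ∧ P {ω | ∃ s t : ℝ≥0, s ≤ T ∧ t ≤ T ∧ nndist s t ≤ δ ∧ r < ‖G x s ω - G x t ω‖} ≤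
      ENNReal.ofReal ε := by
  have hP := S.prob
  obtain ⟨D, hD, hDd⟩ := TopologicalSpace.exists_countable_dense ℝ≥0
  set U : ℕ → Ω → Set (ℝ≥0 × ℝ≥0) := fun k ω => {p | dist (min p.1 T) (min p.2 T) < 1 / ((k : ℝ) + 1) ∧
    r < ‖G x (min p.1 T) ω - G x (min p.2 T) ω‖} with hU
  set F : ℕ → Set Ω := fun k => ⋃ a ∈ D, ⋃ b ∈ D, {ω | (a, b) ∈ U k ω} with hF
  have hm : ∀ k, MeasurableSet (F k) := fun k => by
    refine MeasurableSet.biUnion hD fun a _ => MeasurableSet.biUnion hD fun b _ => ?_
    by_cases hab : dist (min a T) (min b T) < 1 / ((k : ℝ) + 1)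
    · have e : {ω | (a, b) ∈ U k ω} = {ω | r < ‖G x (min a T) ω - G x (min b T) ω‖} := by
        ext ω
        exact ⟨fun h => h.2, fun h => ⟨hab, h⟩⟩
      rw [e]
      exact measurableSet_lt measurable_const
        (((S.gap x).meas _).sub ((S.gap x).meas _)).norm
    · have e : {ω | (a, b) ∈ U k ω} = ∅ := by
        ext ω
        simp only [mem_empty_iff_false, iff_false]
        exact fun h => hab h.1
      rw [e]
      exact MeasurableSet.empty
  have ha : Antitone F := by
    intro j k hjk ω hω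
    simp only [hF, mem_iUnion] at hω ⊢
    obtain ⟨a, haD, b, hbD, h⟩ := hω
    refine ⟨a, haD, b, hbD, lt_of_lt_of_le h.1 ?_, h.2⟩
    have : (j : ℝ) ≤ k := by exact_mod_cast hjk
    exact one_div_le_one_div_of_le (by positivity) (by linarith)
  have hem : ⋂ k, F k = ∅ := by
    ext ω
    simp only [mem_iInter, mem_empty_iff_false, iff_false, not_forall]
    have huc := (isCompact_Icc (a := (0 : ℝ≥0)) (b := T)).uniformContinuousOn_of_continuous
      ((S.gap x).cont ω).continuousOn
    rw [Metric.uniformContinuousOn_iff] at huc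
    obtain ⟨δ, hδ, h⟩ := huc r hr
    obtain ⟨k, hk⟩ := exists_nat_one_div_lt hδ
    refine ⟨k, fun hω => ?_⟩
    simp only [hF, mem_iUnion] at hω
    obtain ⟨a, _, b, _, hab⟩ := hω
    have h1 := h (min a T) ⟨zero_le, min_le_right _ _⟩ (min b T) ⟨zero_le, min_le_right _ _⟩
      (hab.1.trans hk)
    rw [dist_eq_norm] at h1
    exact absurd hab.2 (not_lt.mpr h1.le)
  have hlim := tendsto_measure_iInter_atTop (μ := P) (fun k => (hm k).nullMeasurableSet) ha
    ⟨0, measure_ne_top P _⟩
  rw [hem, measure_empty] at hlim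
  have hev := (tendsto_order.mp hlim).2 (ENNReal.ofReal ε) (ENNReal.ofReal_pos.mpr hε)
  obtain ⟨k, hk⟩ := hev.exists
  have hkpos : (0 : ℝ) < 1 / (2 * ((k : ℝ) + 1)) := by positivity
  refine ⟨⟨1 / (2 * ((k : ℝ) + 1)), hkpos.le⟩, hkpos, le_trans (measure_mono ?_) hk.le⟩
  rintro ω ⟨s, t, hs, ht, hst, hst2⟩
  have hopen : IsOpen (U k ω) := by
    have c1 : Continuous fun p : ℝ≥0 × ℝ≥0 => min p.1 T := continuous_fst.min continuous_const
    have c2 : Continuous fun p : ℝ≥0 × ℝ≥0 => min p.2 T := continuous_snd.min continuous_const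
    have hg := (S.gap x).cont ω
    exact (isOpen_lt (c1.dist c2) continuous_const).inter
      (isOpen_lt continuous_const ((hg.comp c1).sub (hg.comp c2)).norm)
  have hne : (U k ω).Nonempty := by
    refine ⟨(s, t), ?_, ?_⟩
    · show dist (min s T) (min t T) < 1 / ((k : ℝ) + 1)
      rw [min_eq_left hs, min_eq_left ht]
      have h1 : dist s t ≤ 1 / (2 * ((k : ℝ) + 1)) := by
        rw [← coe_nndist]
        exact_mod_cast hst
      refine lt_of_le_of_lt h1 ?_
      exact one_div_lt_one_div_of_lt (by positivity) (by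
        have : (0 : ℝ) ≤ k := Nat.cast_nonneg k
        linarith)
    · show r < ‖G x (min s T) ω - G x (min t T) ω‖
      rw [min_eq_left hs, min_eq_left ht]
      exact hst2
  obtain ⟨p, hp, hpD⟩ := (hDd.prod hDd).inter_open_nonempty (U k ω) hopen hne
  simp only [hF, mem_iUnion]
  exact ⟨p.1, hpD.1, p.2, hpD.2, hp⟩

end Pool.Agent.SGP
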