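import Pool.Agent.SGP.EDN
import Pool.Agent.SGP.PST

/-!
# DBC: local density bound for the gap process after a short time

Proof. Let `K` be the Lipschitz constant of the drift on the ball of radius `R + 1` (`drift_lip`), `b y = drift n μ u (clp (R+1) y)`: globally
Lipschitz with constant `K` (`clp_lip`, `clp_norm`). `h0`: `h0 * K * exp (h0 * K) ≤ 1/2` (continuity at `0`, e.g. `h0 = 1 / (4 (K + 1))`:
`h K ≤ 1/4`, `exp (1/4) ≤ 2`). `C = (2 (n+1))^n`.
Open `O`: on the event `E = {‖G x s‖ ≤ R, ∀ q ≤ h, ‖G x (s+q) - G x s‖ ≤ 1, G x (s+h) ∈ O}` the path stays in the ball of radius `R + 1`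
during `[s, s+h]`, so `euw b h N (G x s ω) (blks B _ s h ω) → G x (s+h) ω ∈ O` (`euw_tendsto_clp`) and it is in `O` for all large `N`.
So `E ⊆ liminf_N E_N`, `E_N = {‖G x s‖ ≤ R ∧ euw b h N (G x s ω) (blks .. ω) ∈ O}`, `P E ≤ liminf P E_N` (Fatou:
`measure_liminf_le..` or `lintegral_liminf_le` for indicators). `P E_N = ∫_{‖G x s‖ ≤ R} W {euw b h N (G x s ω) ∈ O}` by `integral_blks`
(`A = {‖G x s‖ ≤ R}` is in the past of `s` by `measurable_gap_past`; `Ψ` = indicator, real valued) `≤ (2 (n+1)/√h)^n volume O` by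
`euler_density`. If `volume O = ∞` nothing is to prove (careful with `toReal`).
Measurable `A`: `volume` is outer regular (`Set.measure_eq_iInf_isOpen`, `Set.exists_isOpen_lt_of_lt`).
-/

open MeasureTheory ProbabilityTheory Set Filter Topology
open scoped ENNReal NNReal BoundedContinuousFunction

namespace Pool.Agent.SGP

open Pool.Agent.OYG

variable {n : ℕ} {Ω : Type*} [MeasurableSpace Ω] {P : Measure Ω} {μ : Fin (n + 1) → ℝ} {u : ℝ → ℝ}
  {B : Fin (n + 1) → ℝ≥0 → Ω → ℝ} {G : (Fin n → ℝ) → ℝ≥0 → Ω → Fin n → ℝ}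

/-- one Euler scheme, conditioned at time `s` -/
theorem dens_euler (S : Sys P n μ u B G) {b : (Fin n → ℝ) → (Fin n → ℝ)} {K : ℝ} (hK : 0 ≤ K)
    (hb : ∀ x y, ‖b x - b y‖ ≤ K * ‖x - y‖) {h : ℝ≥0} (hh : 0 < h)
    (hs : (h : ℝ) * K * Real.exp (h * K) ≤ 1 / 2) {N : ℕ} (hN : 0 < N) (R : ℝ) (x : Fin n → ℝ) (s : ℝ≥0)
    (O : Set (Fin n → ℝ)) (hO : MeasurableSet O) (hfin : volume O ≠ ∞) :
    P {ω | ‖G x s ω‖ ≤ R ∧ euw b h N (G x s ω) (blks B S.bm.cont s h ω) ∈ O} ≤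
      ENNReal.ofReal ((2 * ((n : ℝ) + 1) / √(h : ℝ)) ^ n) * volume O := by
  have hP := S.prob
  have hpos : (0 : ℝ) < h := hh
  have hbc : Continuous b := by
    have hl : LipschitzWith K.toNNReal b := LipschitzWith.of_dist_le_mul fun p q => by
      rw [dist_eq_norm, dist_eq_norm, Real.coe_toNNReal K hK]
      exact hb p q
    exact hl.continuous
  set bd : ℝ≥0∞ := ENNReal.ofReal ((2 * ((n : ℝ) + 1) / √(h : ℝ)) ^ n) * volume O with hbd
  have hbdf : bd ≠ ∞ := ENNReal.mul_ne_top ENNReal.ofReal_ne_top hfin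
  have hm : Measurable fun p : (Fin n → ℝ) × Blk n => euw b h N p.1 p.2 := measurable_euw hbc h N
  set T : Set ((Fin n → ℝ) × Blk n) := {p | euw b h N p.1 p.2 ∈ O} with hT
  have hTm : MeasurableSet T := hm hO
  set A : Set Ω := {ω | ‖G x s ω‖ ≤ R} with hA
  have hAm : MeasurableSet[past B s] A := by
    have hn : Measurable fun y : Fin n → ℝ => ‖y‖ := measurable_norm
    have h3 : Measurable[past B s] fun ω => ‖G x s ω‖ := hn.comp (measurable_gap_past S x s)
    exact h3 measurableSet_Iic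
  have hA' : MeasurableSet A := past_le S.bm s _ hAm
  have hW : IsProbabilityMeasure (P.map (blk B S.bm.cont 0)) :=
    Measure.isProbabilityMeasure_map (measurable_blk S.bm 0).aemeasurable
  have hI := integral_blks S.bm s hh A hAm (G x s) (measurable_gap_past S x s)
    (T.indicator fun _ => (1 : ℝ)) (measurable_const.indicator hTm) 1 (fun p => by
      by_cases hp : p ∈ T
      · simp [hp]
      · simp [hp])
  have hE : MeasurableSet {ω | (G x s ω, blks B S.bm.cont s h ω) ∈ T} :=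
    (((S.gap x).meas s).prodMk (measurable_blks S.bm s h)) hTm
  have e1 : ∫ ω in A, T.indicator (fun _ => (1 : ℝ)) (G x s ω, blks B S.bm.cont s h ω) ∂P =
      P.real ({ω | (G x s ω, blks B S.bm.cont s h ω) ∈ T} ∩ A) := by
    have : (fun ω => T.indicator (fun _ => (1 : ℝ)) (G x s ω, blks B S.bm.cont s h ω)) =
        {ω | (G x s ω, blks B S.bm.cont s h ω) ∈ T}.indicator fun _ => (1 : ℝ) := by
      funext ω
      rfl
    rw [this, integral_indicator hE, Measure.restrict_restrict hE]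
    simp
  have e2 : ∀ y : Fin n → ℝ, ∫ w, T.indicator (fun _ => (1 : ℝ)) (y, w) ∂(P.map (blk B S.bm.cont 0)) ≤
      bd.toReal := fun y => by
    have hTy : MeasurableSet {w : Blk n | euw b h N y w ∈ O} :=
      (hm.comp (measurable_const.prodMk measurable_id)) hO
    have : (fun w => T.indicator (fun _ => (1 : ℝ)) (y, w)) =
        {w : Blk n | euw b h N y w ∈ O}.indicator fun _ => (1 : ℝ) := by
      funext w
      rfl
    rw [this, integral_indicator hTy]
    simp only [integral_const, smul_eq_mul, mul_one, measureReal_restrict_apply_univ]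
    exact ENNReal.toReal_mono hbdf (euler_density S.bm hK hb hpos hs hN y O hO)
  have e3 : P.real ({ω | (G x s ω, blks B S.bm.cont s h ω) ∈ T} ∩ A) ≤ bd.toReal := by
    rw [← e1, hI]
    calc ∫ ω in A, (∫ w, T.indicator (fun _ => (1 : ℝ)) (G x s ω, w) ∂(P.map (blk B S.bm.cont 0))) ∂P
        ≤ ∫ ω in A, bd.toReal ∂P := by
          refine integral_mono_of_nonneg (Eventually.of_forall fun ω => ?_) (integrable_const _)
            (Eventually.of_forall fun ω => e2 _)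
          refine integral_nonneg fun w => ?_
          exact Set.indicator_nonneg (fun _ _ => zero_le_one) _
      _ = P.real A * bd.toReal := by simp
      _ ≤ 1 * bd.toReal := mul_le_mul_of_nonneg_right measureReal_le_one ENNReal.toReal_nonneg
      _ = bd.toReal := one_mul _
  have e4 : {ω | ‖G x s ω‖ ≤ R ∧ euw b h N (G x s ω) (blks B S.bm.cont s h ω) ∈ O} =
      {ω | (G x s ω, blks B S.bm.cont s h ω) ∈ T} ∩ A := by
    ext ω
    exact ⟨fun hω => ⟨hω.2, hω.1⟩, fun hω => ⟨hω.2, hω.1⟩⟩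
  rw [e4]
  exact (ENNReal.toReal_le_toReal (measure_ne_top P _) hbdf).mp e3

theorem dens_open (S : Sys P n μ u B G) (R : ℝ) : ∃ (h0 : ℝ≥0) (C : ℝ), 0 < h0 ∧ 0 < C ∧
    ∀ (x : Fin n → ℝ) (s h : ℝ≥0), 0 < h → h ≤ h0 → ∀ O : Set (Fin n → ℝ), IsOpen O →
      P {ω | ‖G x s ω‖ ≤ R ∧ (∀ q ≤ h, ‖G x (s + q) ω - G x s ω‖ ≤ 1) ∧ G x (s + h) ω ∈ O} ≤
        ENNReal.ofReal (C / √(h : ℝ) ^ n) * volume O := by
  have hP := S.prob
  set R' : ℝ := |R| + 1 with hR'
  have hR'0 : 0 ≤ R' := by positivity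
  obtain ⟨K, hK, hL⟩ := drift_lip μ S.pot.lip R'
  have hb : ∀ p q : Fin n → ℝ, ‖drift n μ u (clp R' p) - drift n μ u (clp R' q)‖ ≤ K * ‖p - q‖ :=
    fun p q => (hL _ _ (clp_norm hR'0 p) (clp_norm hR'0 q)).trans
      (mul_le_mul_of_nonneg_left (clp_lip R' p q) hK)
  have hh0 : (0 : ℝ) < 1 / (4 * (K + 1)) := by positivity
  refine ⟨⟨1 / (4 * (K + 1)), hh0.le⟩, (2 * ((n : ℝ) + 1)) ^ n, hh0, by positivity, ?_⟩
  intro x s h hh hle O hO
  have hpos : (0 : ℝ) < h := hh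
  have hle' : (h : ℝ) ≤ 1 / (4 * (K + 1)) := hle
  have hhK : (h : ℝ) * K ≤ 1 / 4 := by
    calc (h : ℝ) * K ≤ 1 / (4 * (K + 1)) * K := mul_le_mul_of_nonneg_right hle' hK
      _ ≤ 1 / 4 := by
        rw [div_mul_eq_mul_div, one_mul, div_le_div_iff₀ (by positivity) (by norm_num)]
        linarith
  have hexp : Real.exp ((h : ℝ) * K) ≤ 2 := by
    have h1 : Real.exp ((h : ℝ) * K) ≤ Real.exp (1 / 4) := Real.exp_le_exp.mpr hhK
    have h2 := Real.add_one_le_exp (-(1 / 4 : ℝ))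
    have h3 : Real.exp (1 / 4) * Real.exp (-(1 / 4)) = 1 := by
      rw [← Real.exp_add]
      simp
    have h4 : 0 < Real.exp (1 / 4 : ℝ) := Real.exp_pos _
    nlinarith
  have hs : (h : ℝ) * K * Real.exp (h * K) ≤ 1 / 2 := by
    have : 0 ≤ (h : ℝ) * K := by positivity
    nlinarith [Real.exp_pos ((h : ℝ) * K)]
  have hsq : 0 < √(h : ℝ) := Real.sqrt_pos.mpr hpos
  have hconst : (2 * ((n : ℝ) + 1) / √(h : ℝ)) ^ n = (2 * ((n : ℝ) + 1)) ^ n / √(h : ℝ) ^ n :=
    div_pow _ _ _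
  rcases eq_or_ne (volume O) ∞ with hinf | hfin
  · rw [hinf, ENNReal.mul_top]
    · exact le_top
    · exact (ENNReal.ofReal_pos.mpr (by positivity)).ne'
  set E : ℕ → Set Ω := fun N => {ω | ‖G x s ω‖ ≤ R ∧
    euw (fun y => drift n μ u (clp R' y)) h (N + 1) (G x s ω) (blks B S.bm.cont s h ω) ∈ O} with hE
  have hEN : ∀ N, P (E N) ≤ ENNReal.ofReal ((2 * ((n : ℝ) + 1)) ^ n / √(h : ℝ) ^ n) * volume O :=
    fun N => by
      rw [← hconst]
      exact dens_euler S hK hb hh hs (Nat.succ_pos N) R x s O hO.measurableSet hfin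
  have hsub : {ω | ‖G x s ω‖ ≤ R ∧ (∀ q ≤ h, ‖G x (s + q) ω - G x s ω‖ ≤ 1) ∧ G x (s + h) ω ∈ O} ⊆
      ⋃ m : ℕ, ⋂ N : ℕ, ⋂ _ : m ≤ N, E N := by
    rintro ω ⟨h1, h2, h3⟩
    have h4 : ∀ t ≤ h, ‖G x (s + t) ω‖ ≤ R' := fun t ht => by
      have h5 := norm_add_le (G x (s + t) ω - G x s ω) (G x s ω)
      rw [sub_add_cancel] at h5
      have h6 := h2 t ht
      have h7 := le_abs_self R
      linarith
    have h5 := (euw_tendsto_clp S x s hh ω h4).eventually (hO.mem_nhds h3)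
    obtain ⟨m, hm⟩ := eventually_atTop.mp h5
    simp only [mem_iUnion, mem_iInter]
    refine ⟨m, fun N hN => ⟨h1, ?_⟩⟩
    have := hm (N + 1) (by omega)
    exact this
  refine (measure_mono hsub).trans ?_
  have hmono : Monotone fun m : ℕ => ⋂ N : ℕ, ⋂ _ : m ≤ N, E N := by
    intro a c hac ω hω
    simp only [mem_iInter] at hω ⊢
    exact fun N hN => hω N (hac.trans hN)
  rw [hmono.measure_iUnion]
  refine iSup_le fun m => (measure_mono ?_).trans (hEN m)
  intro ω hω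
  simp only [mem_iInter] at hω
  exact hω m le_rfl

theorem dens (S : Sys P n μ u B G) (R : ℝ) : ∃ (h0 : ℝ≥0) (C : ℝ), 0 < h0 ∧ 0 < C ∧
    ∀ (x : Fin n → ℝ) (s h : ℝ≥0), 0 < h → h ≤ h0 → ∀ A : Set (Fin n → ℝ),
      P {ω | ‖G x s ω‖ ≤ R ∧ (∀ q ≤ h, ‖G x (s + q) ω - G x s ω‖ ≤ 1) ∧ G x (s + h) ω ∈ A} ≤
        ENNReal.ofReal (C / √(h : ℝ) ^ n) * volume A := by
  obtain ⟨h0, C, hh0, hC, hd⟩ := dens_open S R
  refine ⟨h0, C, hh0, hC, fun x s h hh hle A => ?_⟩
  have hpos : (0 : ℝ) < h := hh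
  have hsq : 0 < √(h : ℝ) := Real.sqrt_pos.mpr hpos
  have hc0 : ENNReal.ofReal (C / √(h : ℝ) ^ n) ≠ 0 := (ENNReal.ofReal_pos.mpr (by positivity)).ne'
  rw [Set.measure_eq_iInf_isOpen A volume, ENNReal.mul_iInf_of_ne hc0 ENNReal.ofReal_ne_top]
  refine le_iInf fun O => ?_
  by_cases h1 : A ⊆ O
  · by_cases h2 : IsOpen O
    · simp only [h1, h2, iInf_true]
      refine le_trans (measure_mono ?_) (hd x s h hh hle O h2)
      rintro ω ⟨a1, a2, a3⟩
      exact ⟨a1, a2, h1 a3⟩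
    · simp only [h1, h2, iInf_true, iInf_false]
      rw [ENNReal.mul_top hc0]
      exact le_top
  · simp only [h1, iInf_false]
    rw [ENNReal.mul_top hc0]
    exact le_top

end Pool.Agent.SGP
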