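import Pool.Agent.SGP.GDR

/-!
# DEC: decay of a form along the semigroup, on an invariant set

Proofs. (`decay_rs`) `f ∈ M`, `h = rs α f`, `y t = N1 (ptb t h) (ptb t h)`. By `ptb_l2d` and `l2d_frm` `y` has on
`[0, ∞)` the derivative `2 N1 (ptb t (α h - f)) (ptb t h)`; by `rs_comm` `ptb t h = rs α (ptb t f)`, so with `gen_form`
applied to `ptb t f`: `y' ≤ -2 κ N2 (ptb t h) (ptb t h) ≤ -2 κ y` since `ptb t h ∈ M`. Hence `exp (2 κ t) y t` is
decreasing (`antitoneOn_of_deriv_nonpos`, continuity from the derivative).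
(`decay`) apply this to `f` and `α = k + 1`, `(k+1) rs (k+1) f → f` in `L²` (`rs_lim`), so also
`ptb t ((k+1) rs (k+1) f) → ptb t f` (`contr`), and pass to the limit with `frm_tendsto` (scaling `ptb_smul`,
`Frm.smul`, `Frm.symm`).
(`decay_res`) `gen_form` with `κ N2 ≥ 0`: `α N1 h h ≤ N1 f h`, `frm_cs`: `(N1 f h)^2 ≤ N1 f f * N1 h h`.
-/

open MeasureTheory ProbabilityTheory Set Filter Topology
open scoped ENNReal NNReal BoundedContinuousFunction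

namespace Pool.Agent.SGP

open Pool.Agent.OYG

variable {n : ℕ} {Ω : Type*} [MeasurableSpace Ω] {P : Measure Ω} {μ : Fin (n + 1) → ℝ} {u : ℝ → ℝ}
  {B : Fin (n + 1) → ℝ≥0 → Ω → ℝ} {G : (Fin n → ℝ) → ℝ≥0 → Ω → Fin n → ℝ}

/-- decay on the range of the resolvent -/
theorem decay_rs (S : Sys P n μ u B G) (hπ : IsStat P G (PI u μ))
    {N1 N2 : ((Fin n → ℝ) →ᵇ ℝ) → ((Fin n → ℝ) →ᵇ ℝ) → ℝ} (h1 : Frm (PI u μ) N1) (h2 : Frm (PI u μ) N2) {κ : ℝ}
    (hκ : 0 ≤ κ)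
    (hN : ∀ (φ : (Fin n → ℝ) → ℝ) (hφ : IsTest φ), N1 (Lb S.pot μ hφ) (tb hφ) ≤ -(κ * N2 (tb hφ) (tb hφ)))
    (M : Set ((Fin n → ℝ) →ᵇ ℝ)) (hM : ∀ f ∈ M, N1 f f ≤ N2 f f) (hMp : ∀ t, ∀ f ∈ M, ptb S t f ∈ M)
    (hMr : ∀ (α : ℝ) (hα : 0 < α), ∀ f ∈ M, rs S hα f ∈ M) {α : ℝ} (hα : 0 < α) (t : ℝ≥0)
    {f : (Fin n → ℝ) →ᵇ ℝ} (hf : f ∈ M) :
    N1 (ptb S t (rs S hα f)) (ptb S t (rs S hα f)) ≤
      Real.exp (-(2 * κ * t)) * N1 (rs S hα f) (rs S hα f) := by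
  have hp := hπ.prob
  set h := rs S hα f with hh
  set y : ℝ → ℝ := fun s => N1 (ptb S s.toNNReal h) (ptb S s.toNNReal h) with hy
  set y' : ℝ → ℝ := fun r => N1 (ptb S r.toNNReal (α • h - f)) (ptb S r.toNNReal h) +
    N1 (ptb S r.toNNReal h) (ptb S r.toNNReal (α • h - f)) with hy'
  have hd : ∀ r, 0 ≤ r → HasDerivWithinAt y (y' r) (Ici 0) r := fun r hr =>
    l2d_frm h1 (ptb_l2d S hπ hα f hr) (ptb_l2d S hπ hα f hr)
  have hle : ∀ r, 0 ≤ r → y' r ≤ -(2 * κ * y r) := by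
    intro r hr
    set g := ptb S r.toNNReal f with hg
    have e1 : ptb S r.toNNReal h = rs S hα g := rs_comm S hα _ f
    have e2 : ptb S r.toNNReal (α • h - f) = α • rs S hα g - g := by
      rw [ptb_sub, ptb_smul, e1]
    have h3 := gen_form S hπ hα g h1 h2 hN
    have h4 : N1 (rs S hα g) (rs S hα g) ≤ N2 (rs S hα g) (rs S hα g) :=
      hM _ (hMr α hα _ (hMp _ f hf))
    have h5 := mul_le_mul_of_nonneg_left h4 hκ
    have e3 : y r = N1 (rs S hα g) (rs S hα g) := by rw [hy]; simp only [e1]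
    have e4 : y' r = 2 * N1 (α • rs S hα g - g) (rs S hα g) := by
      rw [hy']
      simp only [e1, e2]
      rw [h1.symm (rs S hα g) (α • rs S hα g - g)]
      ring
    rw [e3, e4]
    linarith
  have hez : ∀ r, HasDerivAt (fun s : ℝ => Real.exp (2 * κ * s)) (Real.exp (2 * κ * r) * (2 * κ)) r := by
    intro r
    have h3 : HasDerivAt (fun s : ℝ => 2 * κ * s) (2 * κ) r := by
      simpa using (hasDerivAt_id r).const_mul (2 * κ)
    exact h3.exp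
  have hz : AntitoneOn (fun s => Real.exp (2 * κ * s) * y s) (Ici 0) := by
    refine antitoneOn_of_deriv_nonpos (convex_Ici 0) ?_ ?_ ?_
    · intro r hr
      exact ((hez r).continuousAt.continuousWithinAt).mul (hd r hr).continuousWithinAt
    · intro r hr
      rw [interior_Ici] at hr
      have h3 : HasDerivAt y (y' r) r := (hd r (le_of_lt hr)).hasDerivAt (Ici_mem_nhds hr)
      exact ((hez r).mul h3).differentiableAt.differentiableWithinAt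
    · intro r hr
      rw [interior_Ici] at hr
      have h3 : HasDerivAt y (y' r) r := (hd r (le_of_lt hr)).hasDerivAt (Ici_mem_nhds hr)
      have h4 := ((hez r).mul h3).deriv
      have h5 : deriv (fun s => Real.exp (2 * κ * s) * y s) r =
          Real.exp (2 * κ * r) * (2 * κ) * y r + Real.exp (2 * κ * r) * y' r := h4
      rw [h5]
      have h6 := hle r (le_of_lt hr)
      have h7 := mul_le_mul_of_nonneg_left h6 (Real.exp_pos (2 * κ * r)).le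
      linarith
  have ht : (t : ℝ) ∈ Ici (0 : ℝ) := t.2
  have h3 := hz (mem_Ici.2 le_rfl) ht ht
  have h4 : Real.exp (2 * κ * t) * y t ≤ Real.exp (2 * κ * 0) * y 0 := h3
  have e0 : y 0 = N1 h h := by
    rw [hy]
    simp only [Real.toNNReal_zero, ptb_zero]
  have et : y t = N1 (ptb S t h) (ptb S t h) := by
    rw [hy]
    simp only [Real.toNNReal_coe]
  rw [mul_zero, Real.exp_zero, one_mul, e0, et] at h4
  have h5 := mul_le_mul_of_nonneg_left h4 (Real.exp_pos (-(2 * κ * t))).le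
  rw [← mul_assoc, ← Real.exp_add, neg_add_cancel, Real.exp_zero, one_mul] at h5
  exact h5

theorem decay (S : Sys P n μ u B G) (hπ : IsStat P G (PI u μ))
    {N1 N2 : ((Fin n → ℝ) →ᵇ ℝ) → ((Fin n → ℝ) →ᵇ ℝ) → ℝ} (h1 : Frm (PI u μ) N1) (h2 : Frm (PI u μ) N2) {κ : ℝ}
    (hκ : 0 ≤ κ)
    (hN : ∀ (φ : (Fin n → ℝ) → ℝ) (hφ : IsTest φ), N1 (Lb S.pot μ hφ) (tb hφ) ≤ -(κ * N2 (tb hφ) (tb hφ)))
    (M : Set ((Fin n → ℝ) →ᵇ ℝ)) (hM : ∀ f ∈ M, N1 f f ≤ N2 f f) (hMp : ∀ t, ∀ f ∈ M, ptb S t f ∈ M)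
    (hMr : ∀ (α : ℝ) (hα : 0 < α), ∀ f ∈ M, rs S hα f ∈ M) (t : ℝ≥0) {f : (Fin n → ℝ) →ᵇ ℝ} (hf : f ∈ M) :
    N1 (ptb S t f) (ptb S t f) ≤ Real.exp (-(2 * κ * t)) * N1 f f := by
  have hp := hπ.prob
  have hk : ∀ k : ℕ, (0 : ℝ) < (k : ℝ) + 1 := fun k => Nat.cast_add_one_pos k
  set F : ℕ → ((Fin n → ℝ) →ᵇ ℝ) := fun k => ((k : ℝ) + 1) • rs S (hk k) f with hF
  have hsm : ∀ (c : ℝ) (g : (Fin n → ℝ) →ᵇ ℝ), N1 (c • g) (c • g) = c ^ 2 * N1 g g := by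
    intro c g
    rw [h1.smul, h1.symm, h1.smul]
    ring
  have hstep : ∀ k, N1 (ptb S t (F k)) (ptb S t (F k)) ≤ Real.exp (-(2 * κ * t)) * N1 (F k) (F k) := by
    intro k
    have h3 := decay_rs S hπ h1 h2 hκ hN M hM hMp hMr (hk k) t hf
    have e1 : ptb S t (F k) = ((k : ℝ) + 1) • ptb S t (rs S (hk k) f) := ptb_smul S t _ _
    rw [e1, hsm, hF]
    simp only
    rw [hsm]
    have h4 := mul_le_mul_of_nonneg_left h3 (sq_nonneg ((k : ℝ) + 1))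
    linarith
  have hlim : Tendsto (fun k => ∫ x, (F k x - f x) ^ 2 ∂(PI u μ)) atTop (𝓝 0) := rs_lim S hπ f
  have hlim2 : Tendsto (fun k => ∫ x, (ptb S t (F k) x - ptb S t f x) ^ 2 ∂(PI u μ)) atTop (𝓝 0) := by
    refine tendsto_of_tendsto_of_tendsto_of_le_of_le tendsto_const_nhds hlim
      (fun k => integral_nonneg fun x => sq_nonneg _) fun k => ?_
    have h3 := contr S hπ t (F k - f)
    rw [ptb_sub] at h3
    exact h3
  have t1 := frm_tendsto h1 hlim2 hlim2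
  have t2 := (frm_tendsto h1 hlim hlim).const_mul (Real.exp (-(2 * κ * t)))
  exact le_of_tendsto_of_tendsto' t1 t2 hstep

theorem decay_res (S : Sys P n μ u B G) (hπ : IsStat P G (PI u μ))
    {N1 N2 : ((Fin n → ℝ) →ᵇ ℝ) → ((Fin n → ℝ) →ᵇ ℝ) → ℝ} (h1 : Frm (PI u μ) N1) (h2 : Frm (PI u μ) N2) {κ : ℝ}
    (hκ : 0 ≤ κ)
    (hN : ∀ (φ : (Fin n → ℝ) → ℝ) (hφ : IsTest φ), N1 (Lb S.pot μ hφ) (tb hφ) ≤ -(κ * N2 (tb hφ) (tb hφ)))
    {α : ℝ} (hα : 0 < α) (f : (Fin n → ℝ) →ᵇ ℝ) :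
    N1 (rs S hα f) (rs S hα f) ≤ (α⁻¹) ^ 2 * N1 f f := by
  set h := rs S hα f with hh
  have h3 := gen_form S hπ hα f h1 h2 hN
  have h4 : 0 ≤ κ * N2 h h := mul_nonneg hκ (h2.pos h)
  have e : N1 (α • h - f) h = α * N1 h h - N1 f h := by
    have e1 : α • h - f = α • h + (-1 : ℝ) • f := by
      ext x
      show α * h x - f x = α * h x + (-1) * f x
      ring
    rw [e1, h1.add, h1.smul, h1.smul]
    ring
  rw [← hh, e] at h3
  have h5 := frm_cs h1 f h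
  have h6 : 0 ≤ N1 h h := h1.pos h
  have h7 : 0 ≤ N1 f f := h1.pos f
  have h8 : α * N1 h h ≤ N1 f h := by linarith
  have h9 : (α * N1 h h) ^ 2 ≤ N1 f f * N1 h h :=
    (pow_le_pow_left₀ (mul_nonneg hα.le h6) h8 2).trans h5
  rcases h6.eq_or_lt with h10 | h10
  · rw [← h10]
    positivity
  · have h11 : α ^ 2 * N1 h h ≤ N1 f f := by
      have h12 : (α ^ 2 * N1 h h) * N1 h h ≤ N1 f f * N1 h h := by
        calc (α ^ 2 * N1 h h) * N1 h h = (α * N1 h h) ^ 2 := by ring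
          _ ≤ _ := h9
      exact le_of_mul_le_mul_right h12 h10
    rw [inv_pow, ← div_eq_inv_mul, le_div_iff₀ (by positivity)]
    linarith

end Pool.Agent.SGP
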