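import Mathlib

/-!
# HIL: the algebraic inequality

`ip` is a symmetric positive semidefinite form, `P_b`, `Q_a` commuting symmetric projections, `P_b P_c = P_min`,
`Q_a Q_c = Q_max`; `p_b = P_{b+1} - P_b`, `q_a = Q_a - Q_{a+1}`.

Proof. Let `e i a b = M^(a+b) ip (PQ i a b (u i)) (PQ i a b (u i)) ≥ 0`; it is `0` unless `a ≤ i ≤ b`, and for `i ≥ n`.
`PQ i a b` is a symmetric idempotent, so
`M^(a+b) ip (u i - u (i+1)) (PQ i a b (u i)) = e i a b - M^(a+b) ip (PQ i a b (u (i+1))) (PQ i a b (u i))`. With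
`s = 1/√M`, `‖f‖² = ip f f`, the cross term (weighted) is bounded as follows (`2 |ip f g| ≤ t‖f‖² + ‖g‖²/t`):
- `a < i < b`: `PQ i a b = q_a p_b`, cross `≤ (1/2) e i a b + (1/2) e (i+1) a b` (`‖q_a p_b v‖ ≤ ‖PQ (i+1) a b v‖`, as
  `PQ (i+1) a b = q_a p_b` or `q_a P_{b+1}`).
- `a = i < b`: `Q_i p_b = q_i p_b + Q_{i+1} p_b` (orthogonal): cross `≤ (1/2) e i i b + (1/2) e (i+1) i b` (first part)
  `+ (s/2)(e i i b + e (i+1) (i+1) b)` (second part; the weights are `M^(i+b)` and `M^(i+1+b)`).
- `a < i = b`: `PQ i a i = q_a P_{i+1}`: cross `≤ (s/2)(e i a i + e (i+1) a (i+1))`, as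
  `‖q_a P_{i+1} v‖ ≤ ‖q_a P_{i+2} v‖` and the weights are `M^(a+i)`, `M^(a+i+1)`.
- `a = i = b`: `Q_i P_{i+1}`: cross `≤ (s/2)(e i i i + e (i+1) i (i+1) + e (i+1) (i+1) (i+1))`, as
  `‖Q_i P_{i+1} v‖² = ‖q_i P_{i+1} v‖² + ‖Q_{i+1} P_{i+1} v‖²`.
Sum: `∑_i ∑_{a≤i<b} (1/2)(e i a b + e (i+1) a b)` `≤ ∑_i ∑_{a,b} ((1/2)[i<b] + (1/2)[a<i]) e i a b`, so the main terms
leave `∑ ((1/2)[i=b] + (1/2)[a=i]) e i a b = (1/2) ∑_{a≤b} (e a a b + e b a b) =: T`, and the terms with `s` are together at
most `2 s T ≤ 6 s T`: `(s/2)[∑_{i<b} (e i i b + e (i+1)(i+1) b) + ∑_{a<i} (e i a i + e (i+1) a (i+1)) +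
∑_i (e i i i + e (i+1) i (i+1) + e (i+1)(i+1)(i+1))]`. (The constant `6` leaves room for cruder bounds.)
-/

open Finset

namespace Pool.Agent.SGP

section

variable {V : Type*} [AddCommGroup V] [Module ℝ V] (P Q : ℕ → V →ₗ[ℝ] V)

/-- `P_{b+1} - P_b`, `P_{b+1}`, `0` for `i < b`, `i = b`, `b < i` -/
noncomputable def ppi (i b : ℕ) : V →ₗ[ℝ] V := if i < b then P (b + 1) - P b else if i = b then P (b + 1) else 0

/-- `Q_a - Q_{a+1}`, `Q_a`, `0` for `a < i`, `a = i`, `i < a` -/
noncomputable def qqi (i a : ℕ) : V →ₗ[ℝ] V := if a < i then Q a - Q (a + 1) else if i = a then Q a else 0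

/-- the block projection for the derivative number `i` -/
noncomputable def PQi (i a b : ℕ) : V →ₗ[ℝ] V := ppi P i b ∘ₗ qqi Q i a

end


/-- the hypotheses of `hil` -/
structure HD {V : Type*} [AddCommGroup V] [Module ℝ V] (ip : V → V → ℝ) (P Q : ℕ → V →ₗ[ℝ] V) : Prop where
  add : ∀ f g h, ip (f + g) h = ip f h + ip g h
  smul : ∀ (c : ℝ) f g, ip (c • f) g = c * ip f g
  symm : ∀ f g, ip f g = ip g f
  pos : ∀ f, 0 ≤ ip f f
  PP : ∀ b c f, P b (P c f) = P (min b c) f
  QQ : ∀ a c f, Q a (Q c f) = Q (max a c) f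
  PQ : ∀ a b f, P b (Q a f) = Q a (P b f)
  Ps : ∀ b f g, ip (P b f) g = ip f (P b g)
  Qs : ∀ a f g, ip (Q a f) g = ip f (Q a g)

namespace HD

variable {V : Type*} [AddCommGroup V] [Module ℝ V] {ip : V → V → ℝ} {P Q : ℕ → V →ₗ[ℝ] V}

theorem sub (H : HD ip P Q) (f g h : V) : ip (f - g) h = ip f h - ip g h := by
  have := H.add (f - g) g h
  rw [sub_add_cancel] at this
  linarith

theorem sub' (H : HD ip P Q) (f g h : V) : ip h (f - g) = ip h f - ip h g := by
  rw [H.symm, H.sub, H.symm f, H.symm g]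

theorem smul' (H : HD ip P Q) (c : ℝ) (f g : V) : ip f (c • g) = c * ip f g := by
  rw [H.symm, H.smul, H.symm g]

theorem zero (H : HD ip P Q) (g : V) : ip 0 g = 0 := by
  have := H.smul 0 0 g
  simpa using this

theorem amgm (H : HD ip P Q) {t : ℝ} (ht : 0 < t) (f g : V) : 2 * ip f g ≤ t * ip f f + 1 / t * ip g g := by
  have h := H.pos (t • f - g)
  rw [H.sub, H.sub', H.sub', H.smul, H.smul', H.smul, H.smul', H.symm g f] at h
  have h2 : 0 ≤ (1 / t) * (t * (t * ip f f) - t * ip f g - (t * ip f g - ip g g)) := by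
    refine mul_nonneg (by positivity) ?_
    linarith
  have h3 : (1 / t) * (t * (t * ip f f) - t * ip f g - (t * ip f g - ip g g)) =
      t * ip f f + 1 / t * ip g g - 2 * ip f g := by
    field_simp
    ring
  linarith

theorem pP (H : HD ip P Q) (b : ℕ) (f g : V) : ip (P (b + 1) f) (P (b + 1) g) =
    ip ((P (b + 1) - P b) f) ((P (b + 1) - P b) g) + ip (P b f) (P b g) := by
  simp only [LinearMap.sub_apply, H.sub, H.sub', H.Ps, H.PP]
  have e1 : min (b + 1) b = b := by omega
  have e2 : min b (b + 1) = b := by omega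
  simp only [e1, e2, min_self]
  ring

theorem pQ (H : HD ip P Q) (a : ℕ) (f g : V) : ip (Q a f) (Q a g) =
    ip ((Q a - Q (a + 1)) f) ((Q a - Q (a + 1)) g) + ip (Q (a + 1) f) (Q (a + 1) g) := by
  simp only [LinearMap.sub_apply, H.sub, H.sub', H.Qs, H.QQ]
  have e1 : max (a + 1) a = a + 1 := by omega
  have e2 : max a (a + 1) = a + 1 := by omega
  simp only [e1, e2, max_self]
  ring

theorem leP1 (H : HD ip P Q) (b : ℕ) (f : V) :
    ip ((P (b + 1) - P b) f) ((P (b + 1) - P b) f) ≤ ip (P (b + 1) f) (P (b + 1) f) := by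
  have := H.pP b f f
  have := H.pos (P b f)
  linarith

theorem leP2 (H : HD ip P Q) (b : ℕ) (f : V) : ip (P b f) (P b f) ≤ ip (P (b + 1) f) (P (b + 1) f) := by
  have := H.pP b f f
  have := H.pos ((P (b + 1) - P b) f)
  linarith

theorem leQ1 (H : HD ip P Q) (a : ℕ) (f : V) :
    ip ((Q a - Q (a + 1)) f) ((Q a - Q (a + 1)) f) ≤ ip (Q a f) (Q a f) := by
  have := H.pQ a f f
  have := H.pos (Q (a + 1) f)
  linarith

theorem leQ2 (H : HD ip P Q) (a : ℕ) (f : V) : ip (Q (a + 1) f) (Q (a + 1) f) ≤ ip (Q a f) (Q a f) := by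
  have := H.pQ a f f
  have := H.pos ((Q a - Q (a + 1)) f)
  linarith

theorem comm (H : HD ip P Q) (i j a b : ℕ) (f : V) : ppi P i b (qqi Q j a f) = qqi Q j a (ppi P i b f) := by
  unfold ppi qqi
  split_ifs <;> simp only [LinearMap.sub_apply, map_sub, H.PQ, LinearMap.zero_apply, map_zero, sub_self]
  abel

theorem sP (H : HD ip P Q) (i b : ℕ) (f g : V) : ip (ppi P i b f) g = ip f (ppi P i b g) := by
  unfold ppi
  split_ifs
  · simp only [LinearMap.sub_apply, H.sub, H.sub', H.Ps]
  · exact H.Ps _ _ _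
  · simp only [LinearMap.zero_apply, H.zero]
    rw [H.symm, H.zero]

theorem sQ (H : HD ip P Q) (i a : ℕ) (f g : V) : ip (qqi Q i a f) g = ip f (qqi Q i a g) := by
  unfold qqi
  split_ifs
  · simp only [LinearMap.sub_apply, H.sub, H.sub', H.Qs]
  · exact H.Qs _ _ _
  · simp only [LinearMap.zero_apply, H.zero]
    rw [H.symm, H.zero]

theorem iP (H : HD ip P Q) (i b : ℕ) (f : V) : ppi P i b (ppi P i b f) = ppi P i b f := by
  unfold ppi
  have e1 : min (b + 1) b = b := by omega
  have e2 : min b (b + 1) = b := by omega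
  split_ifs
  · simp only [LinearMap.sub_apply, map_sub, H.PP, e1, e2, min_self]
    abel
  · simp [H.PP]
  · simp

theorem iQ (H : HD ip P Q) (i a : ℕ) (f : V) : qqi Q i a (qqi Q i a f) = qqi Q i a f := by
  unfold qqi
  have e1 : max (a + 1) a = a + 1 := by omega
  have e2 : max a (a + 1) = a + 1 := by omega
  split_ifs
  · simp only [LinearMap.sub_apply, map_sub, H.QQ, e1, e2, max_self]
    abel
  · simp [H.QQ]
  · simp

theorem sA (H : HD ip P Q) (i a b : ℕ) (f g : V) : ip (PQi P Q i a b f) g = ip f (PQi P Q i a b g) := by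
  unfold PQi
  simp only [LinearMap.comp_apply]
  rw [H.sP, H.sQ, H.comm]

theorem iA (H : HD ip P Q) (i a b : ℕ) (f : V) : PQi P Q i a b (PQi P Q i a b f) = PQi P Q i a b f := by
  unfold PQi
  simp only [LinearMap.comp_apply]
  rw [← H.comm i i a b (qqi Q i a f), H.iQ, H.iP]

theorem ipA (H : HD ip P Q) (i a b : ℕ) (f g : V) :
    ip f (PQi P Q i a b g) = ip (PQi P Q i a b f) (PQi P Q i a b g) := by
  rw [H.sA, H.iA]

/-- `e i a b` without the weight -/
noncomputable def nn (ip : V → V → ℝ) (P Q : ℕ → V →ₗ[ℝ] V) (i a b : ℕ) (f : V) : ℝ := ip (PQi P Q i a b f) (PQi P Q i a b f)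

/-- enlarging: `‖p_b w‖² ≤ ‖ppi (i+1) b w‖²` for `i < b` -/
theorem up_P (H : HD ip P Q) {i b : ℕ} (hib : i < b) (w : V) :
    ip ((P (b + 1) - P b) w) ((P (b + 1) - P b) w) ≤ ip (ppi P (i + 1) b w) (ppi P (i + 1) b w) := by
  unfold ppi
  split_ifs with h1 h2
  · exact le_rfl
  · exact H.leP1 b w
  · omega

theorem c1 (H : HD ip P Q) {i a b : ℕ} (ha : a < i) (hb : i < b) (f g : V) :
    ip (PQi P Q i a b g) (PQi P Q i a b f) ≤ (nn ip P Q i a b f + nn ip P Q (i + 1) a b g) / 2 := by
  have h1 := H.amgm one_pos (PQi P Q i a b g) (PQi P Q i a b f)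
  have h2 : ip (PQi P Q i a b g) (PQi P Q i a b g) ≤ nn ip P Q (i + 1) a b g := by
    unfold nn PQi
    simp only [LinearMap.comp_apply]
    have e1 : ppi P i b = P (b + 1) - P b := by unfold ppi; simp [hb]
    have e2 : qqi Q i a = Q a - Q (a + 1) := by unfold qqi; simp [ha]
    have e3 : qqi Q (i + 1) a = Q a - Q (a + 1) := by unfold qqi; simp [Nat.lt_succ_of_lt ha]
    rw [e1, e2, e3]
    exact H.up_P hb _
  unfold nn at *
  rw [one_mul, div_one, one_mul] at h1
  linarith

theorem c2 (H : HD ip P Q) {i b : ℕ} (hb : i < b) {s : ℝ} (hs : 0 < s) (f g : V) :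
    ip (PQi P Q i i b g) (PQi P Q i i b f) ≤ (nn ip P Q i i b f + nn ip P Q (i + 1) i b g) / 2 +
      (s * nn ip P Q i i b f + 1 / s * nn ip P Q (i + 1) (i + 1) b g) / 2 := by
  have e1 : ppi P i b = P (b + 1) - P b := by unfold ppi; simp [hb]
  have e2 : qqi Q i i = Q i := by unfold qqi; simp
  have e3 : qqi Q (i + 1) i = Q i - Q (i + 1) := by unfold qqi; simp
  have e4 : qqi Q (i + 1) (i + 1) = Q (i + 1) := by unfold qqi; simp
  have eA : ∀ w, PQi P Q i i b w = Q i ((P (b + 1) - P b) w) := by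
    intro w
    unfold PQi
    simp only [LinearMap.comp_apply]
    rw [H.comm, e1, e2]
  have h0 : ∀ w, ip ((Q i - Q (i + 1)) ((P (b + 1) - P b) w)) ((Q i - Q (i + 1)) ((P (b + 1) - P b) w)) ≤
      nn ip P Q (i + 1) i b w := by
    intro w
    unfold nn PQi
    simp only [LinearMap.comp_apply]
    rw [e3]
    have : (Q i - Q (i + 1)) ((P (b + 1) - P b) w) = (P (b + 1) - P b) ((Q i - Q (i + 1)) w) := by
      have := H.comm i (i + 1) i b w
      rw [e1, e3] at this
      exact this.symm
    rw [this]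
    exact H.up_P hb _
  have h0' : ∀ w, ip (Q (i + 1) ((P (b + 1) - P b) w)) (Q (i + 1) ((P (b + 1) - P b) w)) ≤
      nn ip P Q (i + 1) (i + 1) b w := by
    intro w
    unfold nn PQi
    simp only [LinearMap.comp_apply]
    rw [e4]
    have : Q (i + 1) ((P (b + 1) - P b) w) = (P (b + 1) - P b) (Q (i + 1) w) := by
      have := H.comm i (i + 1) (i + 1) b w
      rw [e1, e4] at this
      exact this.symm
    rw [this]
    exact H.up_P hb _
  rw [eA, eA, H.pQ]
  have h1 := H.amgm one_pos ((Q i - Q (i + 1)) ((P (b + 1) - P b) g)) ((Q i - Q (i + 1)) ((P (b + 1) - P b) f))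
  have h2 := H.amgm hs (Q (i + 1) ((P (b + 1) - P b) f)) (Q (i + 1) ((P (b + 1) - P b) g))
  rw [H.symm (Q (i + 1) ((P (b + 1) - P b) f))] at h2
  have h3 : ip ((Q i - Q (i + 1)) ((P (b + 1) - P b) f)) ((Q i - Q (i + 1)) ((P (b + 1) - P b) f)) ≤
      nn ip P Q i i b f := by
    unfold nn
    rw [eA]
    exact H.leQ1 i _
  have h4 : ip (Q (i + 1) ((P (b + 1) - P b) f)) (Q (i + 1) ((P (b + 1) - P b) f)) ≤ nn ip P Q i i b f := by
    unfold nn
    rw [eA]
    exact H.leQ2 i _
  have h5 := h0 g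
  have h6 := h0' g
  have h7 : s * ip (Q (i + 1) ((P (b + 1) - P b) f)) (Q (i + 1) ((P (b + 1) - P b) f)) ≤
      s * nn ip P Q i i b f := mul_le_mul_of_nonneg_left h4 hs.le
  have h8 : 1 / s * ip (Q (i + 1) ((P (b + 1) - P b) g)) (Q (i + 1) ((P (b + 1) - P b) g)) ≤
      1 / s * nn ip P Q (i + 1) (i + 1) b g := mul_le_mul_of_nonneg_left h6 (by positivity)
  rw [one_mul, div_one, one_mul] at h1
  linarith

theorem c3 (H : HD ip P Q) {i a : ℕ} (ha : a < i) {s : ℝ} (hs : 0 < s) (f g : V) :
    ip (PQi P Q i a i g) (PQi P Q i a i f) ≤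
      (s * nn ip P Q i a i f + 1 / s * nn ip P Q (i + 1) a (i + 1) g) / 2 := by
  have e1 : ppi P i i = P (i + 1) := by unfold ppi; simp
  have e2 : qqi Q i a = Q a - Q (a + 1) := by unfold qqi; simp [ha]
  have e3 : qqi Q (i + 1) a = Q a - Q (a + 1) := by unfold qqi; simp [Nat.lt_succ_of_lt ha]
  have e4 : ppi P (i + 1) (i + 1) = P (i + 1 + 1) := by unfold ppi; simp
  have h1 := H.amgm hs (PQi P Q i a i f) (PQi P Q i a i g)
  rw [H.symm (PQi P Q i a i f)] at h1
  have h2 : ip (PQi P Q i a i g) (PQi P Q i a i g) ≤ nn ip P Q (i + 1) a (i + 1) g := by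
    unfold nn PQi
    simp only [LinearMap.comp_apply]
    rw [e1, e2, e3, e4]
    exact H.leP2 _ _
  have h3 : 1 / s * ip (PQi P Q i a i g) (PQi P Q i a i g) ≤ 1 / s * nn ip P Q (i + 1) a (i + 1) g :=
    mul_le_mul_of_nonneg_left h2 (by positivity)
  unfold nn at *
  linarith

theorem c4 (H : HD ip P Q) {i : ℕ} {s : ℝ} (hs : 0 < s) (f g : V) :
    ip (PQi P Q i i i g) (PQi P Q i i i f) ≤ (s * nn ip P Q i i i f +
      1 / s * (nn ip P Q (i + 1) i (i + 1) g + nn ip P Q (i + 1) (i + 1) (i + 1) g)) / 2 := by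
  have e1 : ppi P i i = P (i + 1) := by unfold ppi; simp
  have e2 : qqi Q i i = Q i := by unfold qqi; simp
  have e3 : qqi Q (i + 1) i = Q i - Q (i + 1) := by unfold qqi; simp
  have e4 : ppi P (i + 1) (i + 1) = P (i + 1 + 1) := by unfold ppi; simp
  have e5 : qqi Q (i + 1) (i + 1) = Q (i + 1) := by unfold qqi; simp
  have h1 := H.amgm hs (PQi P Q i i i f) (PQi P Q i i i g)
  rw [H.symm (PQi P Q i i i f)] at h1
  have h2 : ip (PQi P Q i i i g) (PQi P Q i i i g) ≤
      nn ip P Q (i + 1) i (i + 1) g + nn ip P Q (i + 1) (i + 1) (i + 1) g := by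
    unfold nn PQi
    simp only [LinearMap.comp_apply]
    rw [e1, e2, e3, e4, e5, H.PQ, H.pQ]
    have k1 := H.leP2 (i + 1) ((Q i - Q (i + 1)) g)
    have k2 := H.leP2 (i + 1) (Q (i + 1) g)
    have k3 : (Q i - Q (i + 1)) (P (i + 1) g) = P (i + 1) ((Q i - Q (i + 1)) g) := by
      simp only [LinearMap.sub_apply, map_sub, H.PQ]
    have k4 : Q (i + 1) (P (i + 1) g) = P (i + 1) (Q (i + 1) g) := (H.PQ _ _ _).symm
    rw [k3, k4]
    linarith
  have h3 : 1 / s * ip (PQi P Q i i i g) (PQi P Q i i i g) ≤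
      1 / s * (nn ip P Q (i + 1) i (i + 1) g + nn ip P Q (i + 1) (i + 1) (i + 1) g) :=
    mul_le_mul_of_nonneg_left h2 (by positivity)
  unfold nn at *
  linarith

end HD

theorem sum_shift_le {n : ℕ} {F : ℕ → ℝ} (h0 : 0 ≤ F 0) (hn : F n = 0) :
    ∑ i ∈ range n, F (i + 1) ≤ ∑ i ∈ range n, F i := by
  have h1 := Finset.sum_range_succ' F n
  have h2 := Finset.sum_range_succ F n
  linarith

theorem hil {V : Type*} [AddCommGroup V] [Module ℝ V] (ip : V → V → ℝ)
    (hadd : ∀ f g h, ip (f + g) h = ip f h + ip g h) (hsmul : ∀ (c : ℝ) f g, ip (c • f) g = c * ip f g)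
    (hsymm : ∀ f g, ip f g = ip g f) (hpos : ∀ f, 0 ≤ ip f f) (P Q : ℕ → V →ₗ[ℝ] V)
    (hPP : ∀ b c f, P b (P c f) = P (min b c) f) (hQQ : ∀ a c f, Q a (Q c f) = Q (max a c) f)
    (hPQ : ∀ a b f, P b (Q a f) = Q a (P b f)) (hPs : ∀ b f g, ip (P b f) g = ip f (P b g))
    (hQs : ∀ a f g, ip (Q a f) g = ip f (Q a g)) (n : ℕ) (u : ℕ → V) (hu : ∀ i, n ≤ i → u i = 0)
    {M : ℝ} (hM : 1 ≤ M) :
    (1 - 6 / √M) * ∑ a ∈ range n, ∑ b ∈ range n, M ^ (a + b) *
        ((ip (PQi P Q a a b (u a)) (PQi P Q a a b (u a)) + ip (PQi P Q b a b (u b)) (PQi P Q b a b (u b))) / 2) ≤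
      ∑ a ∈ range n, ∑ b ∈ range n, M ^ (a + b) *
        ∑ i ∈ range n, ip (u i - u (i + 1)) (PQi P Q i a b (u i)) := by
  have H : HD ip P Q := ⟨hadd, hsmul, hsymm, hpos, hPP, hQQ, hPQ, hPs, hQs⟩
  have hM0 : 0 < M := by linarith
  set s : ℝ := 1 / √M with hs
  have hsp : 0 < s := by positivity
  have hss : 1 / s = s * M := by
    rw [hs]
    field_simp
    rw [Real.sq_sqrt hM0.le]
  set e : ℕ → ℕ → ℕ → ℝ := fun i a b => M ^ (a + b) * HD.nn ip P Q i a b (u i) with he
  have he0 : ∀ i a b, 0 ≤ e i a b := fun i a b => mul_nonneg (by positivity) (hpos _)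
  have hen : ∀ i a b, n ≤ i → e i a b = 0 := by
    intro i a b hi
    simp only [he, HD.nn, hu i hi, map_zero, H.zero, mul_zero]
  have hA1 : ∀ i a b, i < a → ∀ f, PQi P Q i a b f = 0 := by
    intro i a b h f
    unfold PQi qqi
    have h1 : ¬ a < i := by omega
    have h2 : ¬ i = a := by omega
    simp [h1, h2]
  have hA2 : ∀ i a b, b < i → ∀ f, PQi P Q i a b f = 0 := by
    intro i a b h f
    unfold PQi ppi
    have h1 : ¬ i < b := by omega
    have h2 : ¬ i = b := by omega
    simp [h1, h2]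
  have he1 : ∀ i a b, i < a → e i a b = 0 := by
    intro i a b h
    simp only [he, HD.nn, hA1 i a b h, H.zero, mul_zero]
  have he2 : ∀ i a b, b < i → e i a b = 0 := by
    intro i a b h
    simp only [he, HD.nn, hA2 i a b h, H.zero, mul_zero]
  -- error terms
  set X : ℕ → ℝ := fun i => ∑ b ∈ range n, e i i b with hX
  set Y : ℕ → ℝ := fun i => ∑ a ∈ range n, e i a i with hY
  set r : ℕ → ℕ → ℕ → ℝ := fun i a b =>
    (if a = i ∧ i < b then e i i b + e (i + 1) (i + 1) b else 0) +
    (if b = i ∧ a < i then e i a i + e (i + 1) a (i + 1) else 0) +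
    (if a = i ∧ b = i then e i i i + e (i + 1) i (i + 1) + e (i + 1) (i + 1) (i + 1) else 0) with hr
  -- pointwise bound of the cross terms
  have hcross : ∀ i a b, M ^ (a + b) * ip (PQi P Q i a b (u (i + 1))) (PQi P Q i a b (u i)) ≤
      (if i < b then e i a b / 2 else 0) + (if a ≤ i ∧ i < b then e (i + 1) a b / 2 else 0) + s / 2 * r i a b := by
    intro i a b
    have hMp : ∀ k : ℕ, 0 < M ^ k := fun k => by positivity
    rcases lt_trichotomy a i with ha | ha | ha
    · rcases lt_trichotomy i b with hb | hb | hb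
      · have hc := H.c1 ha hb (u i) (u (i + 1))
        have hr0 : r i a b = 0 := by
          simp only [hr]
          rw [if_neg (by omega), if_neg (by omega), if_neg (by omega)]
          ring
        rw [if_pos hb, if_pos ⟨ha.le, hb⟩, hr0]
        simp only [he]
        have := mul_le_mul_of_nonneg_left hc (hMp (a + b)).le
        linarith
      · subst hb
        have hc := H.c3 ha hsp (u i) (u (i + 1))
        have hr0 : r i a i = e i a i + e (i + 1) a (i + 1) := by
          simp only [hr]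
          rw [if_neg (by omega), if_pos (by first | exact ⟨rfl, ha⟩ | exact ⟨trivial, ha⟩), if_neg (by omega)]
          ring
        rw [if_neg (by omega), if_neg (by omega), hr0]
        simp only [he]
        have := mul_le_mul_of_nonneg_left hc (hMp (a + i)).le
        rw [hss] at this
        refine this.trans (le_of_eq ?_)
        rw [show a + (i + 1) = (a + i) + 1 by ring, pow_succ]
        ring
      · rw [hA2 i a b hb, H.zero, mul_zero, if_neg (by omega), if_neg (by omega)]
        have hr0 : r i a b = 0 := by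
          simp only [hr]
          rw [if_neg (by omega), if_neg (by omega), if_neg (by omega)]
          ring
        rw [hr0]
        simp
    · subst ha
      rcases lt_trichotomy a b with hb | hb | hb
      · have hc := H.c2 hb hsp (u a) (u (a + 1))
        have hr0 : r a a b = e a a b + e (a + 1) (a + 1) b := by
          simp only [hr]
          rw [if_pos (by first | exact ⟨rfl, hb⟩ | exact ⟨trivial, hb⟩), if_neg (by omega), if_neg (by omega)]
          ring
        rw [if_pos hb, if_pos ⟨le_rfl, hb⟩, hr0]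
        simp only [he]
        have := mul_le_mul_of_nonneg_left hc (hMp (a + b)).le
        rw [hss] at this
        refine this.trans (le_of_eq ?_)
        rw [show a + 1 + b = (a + b) + 1 by ring, pow_succ]
        ring
      · subst hb
        have hc := H.c4 (i := a) hsp (u a) (u (a + 1))
        have hr0 : r a a a = e a a a + e (a + 1) a (a + 1) + e (a + 1) (a + 1) (a + 1) := by
          simp only [hr]
          rw [if_neg (by omega), if_neg (by omega), if_pos (by simp)]
          ring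
        rw [if_neg (by omega), if_neg (by omega), hr0]
        simp only [he]
        have h1 := mul_le_mul_of_nonneg_left hc (hMp (a + a)).le
        rw [hss] at h1
        refine h1.trans ?_
        have h2 : 0 ≤ HD.nn ip P Q (a + 1) (a + 1) (a + 1) (u (a + 1)) := hpos _
        have h3 : M ^ (a + a) * M * HD.nn ip P Q (a + 1) (a + 1) (a + 1) (u (a + 1)) ≤
            M ^ (a + 1 + (a + 1)) * HD.nn ip P Q (a + 1) (a + 1) (a + 1) (u (a + 1)) := by
          refine mul_le_mul_of_nonneg_right ?_ h2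
          rw [← pow_succ]
          exact pow_le_pow_right₀ hM (by omega)
        have h4 : M ^ (a + (a + 1)) = M ^ (a + a) * M := by
          rw [← pow_succ]; ring_nf
        rw [h4]
        have h5 : 0 < s / 2 := by positivity
        have h6 := mul_le_mul_of_nonneg_left h3 h5.le
        linarith
      · rw [hA2 a a b hb, H.zero, mul_zero, if_neg (by omega), if_neg (by omega)]
        have hr0 : r a a b = 0 := by
          simp only [hr]
          rw [if_neg (by omega), if_neg (by omega), if_neg (by omega)]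
          ring
        rw [hr0]
        simp
    · rw [hA1 i a b ha, H.zero, mul_zero]
      have hr0 : r i a b = 0 := by
        simp only [hr]
        rw [if_neg (by omega), if_neg (by omega), if_neg (by omega)]
        ring
      rw [hr0, he1 i a b ha]
      have : 0 ≤ e (i + 1) a b := he0 _ _ _
      split_ifs <;> simp <;> linarith
  -- the sum of the error terms
  have hrsum : ∀ i ∈ range n, ∑ a ∈ range n, ∑ b ∈ range n, r i a b ≤
      2 * (X i + Y i) + 2 * (X (i + 1) + Y (i + 1)) := by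
    intro i hi
    have hXX : ∀ j, 0 ≤ X j := fun j => Finset.sum_nonneg fun b _ => he0 _ _ _
    have hYY : ∀ j, 0 ≤ Y j := fun j => Finset.sum_nonneg fun b _ => he0 _ _ _
    simp only [hr, Finset.sum_add_distrib]
    have p1 : ∑ a ∈ range n, ∑ b ∈ range n,
        (if a = i ∧ i < b then e i i b + e (i + 1) (i + 1) b else 0) ≤ X i + X (i + 1) := by
      rw [Finset.sum_eq_single_of_mem i hi]
      · rw [hX]
        simp only
        rw [← Finset.sum_add_distrib]
        refine Finset.sum_le_sum fun b _ => ?_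
        have := he0 i i b
        have := he0 (i + 1) (i + 1) b
        split_ifs <;> linarith
      · intro a _ ha
        refine Finset.sum_eq_zero fun b _ => ?_
        rw [if_neg (by tauto)]
    have p2 : ∑ a ∈ range n, ∑ b ∈ range n,
        (if b = i ∧ a < i then e i a i + e (i + 1) a (i + 1) else 0) ≤ Y i + Y (i + 1) := by
      rw [Finset.sum_comm, Finset.sum_eq_single_of_mem i hi]
      · rw [hY]
        simp only
        rw [← Finset.sum_add_distrib]
        refine Finset.sum_le_sum fun a _ => ?_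
        have := he0 i a i
        have := he0 (i + 1) a (i + 1)
        split_ifs <;> linarith
      · intro b _ hb
        refine Finset.sum_eq_zero fun a _ => ?_
        rw [if_neg (by tauto)]
    have p3 : ∑ a ∈ range n, ∑ b ∈ range n,
        (if a = i ∧ b = i then e i i i + e (i + 1) i (i + 1) + e (i + 1) (i + 1) (i + 1) else 0) ≤
        X i + Y (i + 1) + X (i + 1) := by
      rw [Finset.sum_eq_single_of_mem i hi, Finset.sum_eq_single_of_mem i hi]
      · rw [if_pos ⟨rfl, rfl⟩]
        have q1 : e i i i ≤ X i := Finset.single_le_sum (f := fun b => e i i b) (fun b _ => he0 _ _ _) hi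
        have q2 : e (i + 1) i (i + 1) ≤ Y (i + 1) :=
          Finset.single_le_sum (f := fun a => e (i + 1) a (i + 1)) (fun b _ => he0 _ _ _) hi
        have q3 : e (i + 1) (i + 1) (i + 1) ≤ X (i + 1) := by
          by_cases h : i + 1 < n
          · exact Finset.single_le_sum (f := fun b => e (i + 1) (i + 1) b) (fun b _ => he0 _ _ _)
              (Finset.mem_range.2 h)
          · rw [hen _ _ _ (by omega)]
            exact hXX _
        linarith
      · intro b _ hb
        rw [if_neg (by tauto)]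
      · intro a _ ha
        refine Finset.sum_eq_zero fun b _ => ?_
        rw [if_neg (by tauto)]
    have := hXX i
    have := hYY i
    have := hXX (i + 1)
    have := hYY (i + 1)
    linarith
  -- the value of the left side
  set T : ℝ := ∑ a ∈ range n, ∑ b ∈ range n, M ^ (a + b) *
        ((ip (PQi P Q a a b (u a)) (PQi P Q a a b (u a)) + ip (PQi P Q b a b (u b)) (PQi P Q b a b (u b))) / 2) with hT
  have hT2 : ∑ i ∈ range n, (X i + Y i) = 2 * T := by
    rw [Finset.sum_add_distrib, hT]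
    simp only [hX, hY]
    rw [Finset.sum_comm (f := fun i a => e i a i)]
    rw [← Finset.sum_add_distrib, Finset.mul_sum]
    refine Finset.sum_congr rfl fun a _ => ?_
    rw [← Finset.sum_add_distrib, Finset.mul_sum]
    refine Finset.sum_congr rfl fun b _ => ?_
    simp only [he, HD.nn]
    ring
  have hT0 : 0 ≤ T := by
    have : 0 ≤ ∑ i ∈ range n, (X i + Y i) :=
      Finset.sum_nonneg fun i _ => add_nonneg (Finset.sum_nonneg fun b _ => he0 _ _ _)
        (Finset.sum_nonneg fun b _ => he0 _ _ _)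
    linarith
  -- the right side
  have hR : ∑ a ∈ range n, ∑ b ∈ range n, M ^ (a + b) *
        ∑ i ∈ range n, ip (u i - u (i + 1)) (PQi P Q i a b (u i)) =
      ∑ a ∈ range n, ∑ b ∈ range n, ∑ i ∈ range n,
        (e i a b - M ^ (a + b) * ip (PQi P Q i a b (u (i + 1))) (PQi P Q i a b (u i))) := by
    refine Finset.sum_congr rfl fun a _ => Finset.sum_congr rfl fun b _ => ?_
    rw [Finset.mul_sum]
    refine Finset.sum_congr rfl fun i _ => ?_
    rw [H.sub, H.ipA, H.ipA i a b (u (i + 1))]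
    simp only [he, HD.nn]
    ring
  rw [hR]
  have hmain : ∑ a ∈ range n, ∑ b ∈ range n, ∑ i ∈ range n,
      (e i a b - M ^ (a + b) * ip (PQi P Q i a b (u (i + 1))) (PQi P Q i a b (u i))) ≥
      ∑ a ∈ range n, ∑ b ∈ range n, ∑ i ∈ range n,
      (e i a b - ((if i < b then e i a b / 2 else 0) + (if a < i ∧ i ≤ b then e i a b / 2 else 0))) -
      s / 2 * ∑ a ∈ range n, ∑ b ∈ range n, ∑ i ∈ range n, r i a b := by
    rw [Finset.mul_sum, ← Finset.sum_sub_distrib]
    refine Finset.sum_le_sum fun a _ => ?_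
    rw [Finset.mul_sum, ← Finset.sum_sub_distrib]
    refine Finset.sum_le_sum fun b _ => ?_
    have hsh : ∑ i ∈ range n, (if a ≤ i ∧ i < b then e (i + 1) a b / 2 else 0) ≤
        ∑ i ∈ range n, (if a < i ∧ i ≤ b then e i a b / 2 else 0) := by
      have h1 := sum_shift_le (n := n) (F := fun i => if a < i ∧ i ≤ b then e i a b / 2 else 0) (by simp)
        (by simp [hen n a b le_rfl])
      refine le_trans (le_of_eq ?_) h1
      refine Finset.sum_congr rfl fun i _ => ?_
      have : (a ≤ i ∧ i < b) ↔ (a < i + 1 ∧ i + 1 ≤ b) := by omega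
      simp only [this]
    have hcs : ∑ i ∈ range n, M ^ (a + b) * ip (PQi P Q i a b (u (i + 1))) (PQi P Q i a b (u i)) ≤
        ∑ i ∈ range n, ((if i < b then e i a b / 2 else 0) + (if a ≤ i ∧ i < b then e (i + 1) a b / 2 else 0) +
          s / 2 * r i a b) := Finset.sum_le_sum fun i _ => hcross i a b
    simp only [Finset.sum_add_distrib, Finset.sum_sub_distrib] at hcs ⊢
    have hms : ∑ x ∈ range n, s / 2 * r x a b = s / 2 * ∑ i ∈ range n, r i a b := (Finset.mul_sum _ _ _).symm
    rw [hms] at hcs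
    linarith
  have hmain2 : ∑ a ∈ range n, ∑ b ∈ range n, ∑ i ∈ range n,
      (e i a b - ((if i < b then e i a b / 2 else 0) + (if a < i ∧ i ≤ b then e i a b / 2 else 0))) = T := by
    have : ∀ i a b, (e i a b - ((if i < b then e i a b / 2 else 0) +
        (if a < i ∧ i ≤ b then e i a b / 2 else 0))) =
        (if i = a then e i a b / 2 else 0) + (if i = b then e i a b / 2 else 0) := by
      intro i a b
      rcases lt_trichotomy i a with ha | ha | ha
      · rw [he1 i a b ha]
        simp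
      · rcases lt_trichotomy i b with hb | hb | hb
        · rw [if_pos hb, if_neg (by omega), if_pos ha, if_neg (by omega)]
          ring
        · rw [if_neg (by omega), if_neg (by omega), if_pos ha, if_pos hb]
          ring
        · rw [he2 i a b hb]
          simp
      · rcases lt_trichotomy i b with hb | hb | hb
        · rw [if_pos hb, if_pos (by omega), if_neg (by omega), if_neg (by omega)]
          ring
        · rw [if_neg (by omega), if_pos (by omega), if_neg (by omega), if_pos hb]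
          ring
        · rw [he2 i a b hb]
          simp
    simp only [this, Finset.sum_add_distrib]
    rw [hT]
    have k1 : ∑ a ∈ range n, ∑ b ∈ range n, ∑ i ∈ range n, (if i = a then e i a b / 2 else 0) =
        ∑ a ∈ range n, ∑ b ∈ range n, e a a b / 2 := by
      refine Finset.sum_congr rfl fun a ha => Finset.sum_congr rfl fun b _ => ?_
      rw [Finset.sum_ite_eq' (range n) a, if_pos ha]
    have k2 : ∑ a ∈ range n, ∑ b ∈ range n, ∑ i ∈ range n, (if i = b then e i a b / 2 else 0) =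
        ∑ a ∈ range n, ∑ b ∈ range n, e b a b / 2 := by
      refine Finset.sum_congr rfl fun a _ => Finset.sum_congr rfl fun b hb => ?_
      rw [Finset.sum_ite_eq' (range n) b, if_pos hb]
    rw [k1, k2, ← Finset.sum_add_distrib]
    refine Finset.sum_congr rfl fun a _ => ?_
    rw [← Finset.sum_add_distrib]
    refine Finset.sum_congr rfl fun b _ => ?_
    simp only [he, HD.nn]
    ring
  have hmain3 : ∑ a ∈ range n, ∑ b ∈ range n, ∑ i ∈ range n, r i a b ≤ 8 * T := by
    have h1 : ∑ a ∈ range n, ∑ b ∈ range n, ∑ i ∈ range n, r i a b =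
        ∑ i ∈ range n, ∑ a ∈ range n, ∑ b ∈ range n, r i a b := by
      have : ∀ a, ∑ b ∈ range n, ∑ i ∈ range n, r i a b = ∑ i ∈ range n, ∑ b ∈ range n, r i a b :=
        fun a => Finset.sum_comm
      simp only [this]
      exact Finset.sum_comm
    rw [h1]
    refine (Finset.sum_le_sum hrsum).trans ?_
    rw [Finset.sum_add_distrib, ← Finset.mul_sum, ← Finset.mul_sum]
    have h2 : ∑ i ∈ range n, (X (i + 1) + Y (i + 1)) ≤ ∑ i ∈ range n, (X i + Y i) := by
      refine sum_shift_le (F := fun i => X i + Y i) ?_ ?_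
      · exact add_nonneg (Finset.sum_nonneg fun b _ => he0 _ _ _) (Finset.sum_nonneg fun b _ => he0 _ _ _)
      · have x0 : X n = 0 := Finset.sum_eq_zero fun b _ => hen _ _ _ le_rfl
        have y0 : Y n = 0 := Finset.sum_eq_zero fun b _ => hen _ _ _ le_rfl
        simp [x0, y0]
    rw [hT2] at h2 ⊢
    linarith
  have h6 : 6 / √M = 6 * s := by rw [hs]; ring
  rw [h6]
  rw [hmain2] at hmain
  have h7 : s / 2 * ∑ a ∈ range n, ∑ b ∈ range n, ∑ i ∈ range n, r i a b ≤ s / 2 * (8 * T) :=
    mul_le_mul_of_nonneg_left hmain3 (by positivity)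
  have h8 : 0 ≤ s * T := mul_nonneg hsp.le hT0
  have h9 : (1 - 6 * s) * T = T - 6 * (s * T) := by ring
  rw [h9]
  have h10 : s / 2 * (8 * T) = 4 * (s * T) := by ring
  linarith

end Pool.Agent.SGP
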