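import Pool.Agent.SGP.EOP
import Pool.Agent.SGP.TST
import Pool.Agent.SGP.HIL

/-!
# DER: derivatives of conditional expectations of test functions

Proofs. (`es_hasFDeriv`) differentiate `x ↦ ∫ φ (mix S x y) d(pi ν)(y)` under the integral
(`hasFDerivAt_integral_of_dominated_of_fderiv_le`): the integrand is `φ ∘ (affine map)`, `mix S x y = mix S x 0 + mix Sᶜ y 0`,
derivative `v ↦ Dφ (mix S x y) (mix S v 0)`, bounded by `sup ‖Dφ‖ * ‖v‖`. `C^1`: all directional derivatives are continuous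
(`ES ν S (db ..)` is a bounded continuous function), e.g. `contDiff_one_iff_fderiv` and continuity of the derivative in
finite dimension (or dominated convergence for the operator valued integral). (`es_fderiv`): `mix S (ev i) 0 = ev i` or `0`.
(`pq_der`) expand `pq a b = P_{b+1} Q_a - P_{b+1} Q_{a+1} - P_b Q_a + P_b Q_{a+1}`, each `P_c Q_d = ES {d ≤ i < c}`
(`es_comp`); `∂_i` gives `[i < c][d ≤ i] P_c Q_d ∂_i φ`, so in total
`([i<b+1] P_{b+1} - [i<b] P_b)([a≤i] Q_a - [a+1≤i] Q_{a+1}) = ppi i b ∘ qqi i a`.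
(`pq_const_out`) for `|s| ≥ R` (support of `φ` in the cube of radius `R`), `ES S φ (update x i s) = 0` if `i ∈ S`, and
`= ES S φ x` if `i ∉ S`.
-/

open MeasureTheory ProbabilityTheory Set Filter Topology
open scoped ENNReal NNReal BoundedContinuousFunction

namespace Pool.Agent.SGP

variable {n : ℕ} (ν : Fin n → Measure ℝ) [∀ i, IsProbabilityMeasure (ν i)] {φ : (Fin n → ℝ) → ℝ}

/-- the linear part of `mix` -/
noncomputable def mixL (S : Finset (Fin n)) : (Fin n → ℝ) →L[ℝ] (Fin n → ℝ) :=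
  ContinuousLinearMap.pi fun i => if i ∈ S then ContinuousLinearMap.proj i else 0

theorem mixL_apply (S : Finset (Fin n)) (v : Fin n → ℝ) (i : Fin n) : mixL S v i = if i ∈ S then v i else 0 := by
  unfold mixL
  by_cases h : i ∈ S <;> simp [h]

theorem mix_eq_mixL (S : Finset (Fin n)) (x y : Fin n → ℝ) : mix S x y = mixL S x + mix S 0 y := by
  funext i
  simp only [Pi.add_apply, mixL_apply, mix]
  by_cases h : i ∈ S <;> simp [h]

theorem mixL_ev (S : Finset (Fin n)) (i : Fin n) : mixL S (ev i) = if i ∈ S then ev i else 0 := by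
  funext j
  rw [mixL_apply]
  by_cases hj : j = i
  · subst hj
    by_cases h : j ∈ S <;> simp [h]
  · by_cases h : i ∈ S <;> by_cases h' : j ∈ S <;> simp [h, h', ev, hj]

theorem mix_hasFDerivAt (S : Finset (Fin n)) (hφ : IsTest φ) (x y : Fin n → ℝ) :
    HasFDerivAt (fun z => φ (mix S z y)) ((fderiv ℝ φ (mix S x y)).comp (mixL S)) x := by
  have h1 : HasFDerivAt (fun z => mix S z y) (mixL S) x := by
    have : (fun z => mix S z y) = fun z => mixL S z + mix S 0 y := by
      funext z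
      exact mix_eq_mixL S z y
    rw [this]
    exact (mixL S).hasFDerivAt.add_const _
  exact HasFDerivAt.comp x ((hφ.1.differentiable (by simp) (mix S x y)).hasFDerivAt) h1

theorem es_hasFDerivAt (S : Finset (Fin n)) (hφ : IsTest φ) (x : Fin n → ℝ) :
    ∃ L : (Fin n → ℝ) →L[ℝ] ℝ, HasFDerivAt (ES ν S (tb hφ)) L x ∧
      ∀ v, L v = ES ν S (db hφ (mixL S v)) x := by
  have hcd : Continuous (fderiv ℝ φ) := hφ.1.continuous_fderiv (by simp)
  obtain ⟨C, hC⟩ := (hφ.2.fderiv (𝕜 := ℝ)).exists_bound_of_continuous hcd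
  have hm : ∀ z : Fin n → ℝ, Continuous fun y => mix S z y := fun z =>
    (mix_cont S).comp (Continuous.prodMk_right z)
  have hF'c : ∀ z : Fin n → ℝ, Continuous fun y => (fderiv ℝ φ (mix S z y)).comp (mixL S) := fun z =>
    (hcd.comp (hm z)).clm_comp continuous_const
  have hint : Integrable (fun y => (fderiv ℝ φ (mix S x y)).comp (mixL S)) (Measure.pi ν) := by
    refine Integrable.mono' (integrable_const (C * ‖mixL S‖)) (hF'c x).aestronglyMeasurable ?_
    refine Eventually.of_forall fun y => ?_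
    exact (ContinuousLinearMap.opNorm_comp_le _ _).trans
      (mul_le_mul_of_nonneg_right (hC _) (norm_nonneg _))
  refine ⟨∫ y, (fderiv ℝ φ (mix S x y)).comp (mixL S) ∂(Measure.pi ν), ?_, ?_⟩
  · have := hasFDerivAt_integral_of_dominated_of_fderiv_le (𝕜 := ℝ) (μ := Measure.pi ν)
      (F := fun z y => φ (mix S z y)) (F' := fun z y => (fderiv ℝ φ (mix S z y)).comp (mixL S))
      (x₀ := x) (s := Set.univ) (bound := fun _ => C * ‖mixL S‖) Filter.univ_mem
      (Eventually.of_forall fun z => (hφ.1.continuous.comp (hm z)).aestronglyMeasurable)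
      (es_int ν S (tb hφ) x) (hF'c x).aestronglyMeasurable
      (Eventually.of_forall fun y z _ => (ContinuousLinearMap.opNorm_comp_le _ _).trans
        (mul_le_mul_of_nonneg_right (hC _) (norm_nonneg _)))
      (integrable_const _)
      (Eventually.of_forall fun y z _ => mix_hasFDerivAt S hφ z y)
    exact this
  · intro v
    rw [es_apply, ContinuousLinearMap.integral_apply hint]
    rfl

theorem es_fderiv_apply (S : Finset (Fin n)) (hφ : IsTest φ) (x v : Fin n → ℝ) :
    fderiv ℝ (ES ν S (tb hφ)) x v = ES ν S (db hφ (mixL S v)) x := by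
  obtain ⟨L, h1, h2⟩ := es_hasFDerivAt ν S hφ x
  rw [h1.fderiv, h2]

theorem es_contDiff (S : Finset (Fin n)) (hφ : IsTest φ) : ContDiff ℝ 1 (ES ν S (tb hφ)) := by
  rw [contDiff_one_iff_fderiv]
  refine ⟨fun x => ?_, ?_⟩
  · obtain ⟨L, h1, _⟩ := es_hasFDerivAt ν S hφ x
    exact h1.differentiableAt
  · rw [continuous_clm_apply]
    intro v
    have : (fun x => fderiv ℝ (ES ν S (tb hφ)) x v) = fun x => ES ν S (db hφ (mixL S v)) x := by
      funext x
      exact es_fderiv_apply ν S hφ x v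
    rw [this]
    exact (ES ν S (db hφ (mixL S v))).continuous

theorem es_fderiv (S : Finset (Fin n)) (hφ : IsTest φ) (x : Fin n → ℝ) (i : Fin n) :
    fderiv ℝ (ES ν S (tb hφ)) x (ev i) = if i ∈ S then ES ν S (db hφ (ev i)) x else 0 := by
  rw [es_fderiv_apply, mixL_ev]
  by_cases h : i ∈ S
  · simp [h]
  · simp only [h, if_false]
    have : db hφ (0 : Fin n → ℝ) = 0 := by
      ext y
      simp
    rw [this, map_zero]
    rfl

theorem ppqq (c d : ℕ) (f : (Fin n → ℝ) →ᵇ ℝ) : Pp ν c (Qtl ν d f) =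
    ES ν ((Finset.univ.filter fun i : Fin n => (i : ℕ) < c) ∩ (Finset.univ.filter fun i : Fin n => d ≤ (i : ℕ))) f := by
  unfold Pp Qtl
  exact es_comp ν _ _ f

theorem ppqq_contDiff (c d : ℕ) (hφ : IsTest φ) : ContDiff ℝ 1 (Pp ν c (Qtl ν d (tb hφ))) := by
  rw [ppqq]
  exact es_contDiff ν _ hφ

theorem ppqq_der (c d : ℕ) (hφ : IsTest φ) (x : Fin n → ℝ) (i : Fin n) :
    fderiv ℝ (Pp ν c (Qtl ν d (tb hφ))) x (ev i) =
      if (i : ℕ) < c ∧ d ≤ (i : ℕ) then Pp ν c (Qtl ν d (db hφ (ev i))) x else 0 := by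
  rw [ppqq, es_fderiv, ppqq]
  simp

theorem pq_expand (a b : ℕ) (f : (Fin n → ℝ) →ᵇ ℝ) : pq ν a b f =
    Pp ν (b + 1) (Qtl ν a f) - Pp ν (b + 1) (Qtl ν (a + 1) f) - Pp ν b (Qtl ν a f) + Pp ν b (Qtl ν (a + 1) f) := by
  unfold pq
  simp only [LinearMap.comp_apply, LinearMap.sub_apply, map_sub]
  abel

theorem pq_expand_fun (a b : ℕ) (f : (Fin n → ℝ) →ᵇ ℝ) : (pq ν a b f : (Fin n → ℝ) → ℝ) =
    fun x => Pp ν (b + 1) (Qtl ν a f) x - Pp ν (b + 1) (Qtl ν (a + 1) f) x - Pp ν b (Qtl ν a f) x +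
      Pp ν b (Qtl ν (a + 1) f) x := by
  rw [pq_expand]
  rfl

theorem pq_contDiff (a b : ℕ) (hφ : IsTest φ) : ContDiff ℝ 1 (pq ν a b (tb hφ)) := by
  rw [pq_expand_fun]
  exact (((ppqq_contDiff ν _ _ hφ).sub (ppqq_contDiff ν _ _ hφ)).sub (ppqq_contDiff ν _ _ hφ)).add
    (ppqq_contDiff ν _ _ hφ)

theorem pq_der (a b : ℕ) (hφ : IsTest φ) (x : Fin n → ℝ) (i : Fin n) :
    fderiv ℝ (pq ν a b (tb hφ)) x (ev i) = PQi (Pp ν) (Qtl ν) i a b (db hφ (ev i)) x := by
  have hd : ∀ c d, HasFDerivAt (Pp ν c (Qtl ν d (tb hφ))) (fderiv ℝ (Pp ν c (Qtl ν d (tb hφ))) x) x := fun c d =>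
    ((ppqq_contDiff ν c d hφ).differentiable (by norm_num) x).hasFDerivAt
  have h1 : fderiv ℝ (pq ν a b (tb hφ)) x = fderiv ℝ (Pp ν (b + 1) (Qtl ν a (tb hφ))) x -
      fderiv ℝ (Pp ν (b + 1) (Qtl ν (a + 1) (tb hφ))) x - fderiv ℝ (Pp ν b (Qtl ν a (tb hφ))) x +
      fderiv ℝ (Pp ν b (Qtl ν (a + 1) (tb hφ))) x := by
    rw [pq_expand_fun]
    exact ((((hd _ _).sub (hd _ _)).sub (hd _ _)).add (hd _ _)).fderiv
  rw [h1]
  simp only [_root_.add_apply, _root_.sub_apply, ppqq_der]
  unfold PQi ppi qqi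
  simp only [LinearMap.comp_apply]
  rcases lt_trichotomy (i : ℕ) b with hb | hb | hb
  · rcases lt_trichotomy a (i : ℕ) with ha | ha | ha
    · have e1 : (i : ℕ) < b + 1 := by omega
      have e2 : a ≤ (i : ℕ) := by omega
      have e3 : a + 1 ≤ (i : ℕ) := by omega
      simp only [e1, e2, e3, hb, ha, and_self, if_true, LinearMap.sub_apply, map_sub,
        BoundedContinuousFunction.coe_sub, Pi.sub_apply]
      ring
    · have e1 : (i : ℕ) < b + 1 := by omega
      have e2 : a ≤ (i : ℕ) := by omega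
      have e3 : ¬ a + 1 ≤ (i : ℕ) := by omega
      have e4 : ¬ a < (i : ℕ) := by omega
      have e5 : (i : ℕ) = a := by omega
      simp only [e1, e2, e3, e4, hb, and_self, if_true, if_false, and_false, LinearMap.sub_apply,
        BoundedContinuousFunction.coe_sub, Pi.sub_apply, if_pos e5]
      ring
    · have e2 : ¬ a ≤ (i : ℕ) := by omega
      have e3 : ¬ a + 1 ≤ (i : ℕ) := by omega
      have e4 : ¬ a < (i : ℕ) := by omega
      have e5 : ¬ (i : ℕ) = a := by omega
      simp [e2, e3, e4, e5]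
  · rcases lt_trichotomy a (i : ℕ) with ha | ha | ha
    · have e1 : (i : ℕ) < b + 1 := by omega
      have e0 : ¬ (i : ℕ) < b := by omega
      have e2 : a ≤ (i : ℕ) := by omega
      have e3 : a + 1 ≤ (i : ℕ) := by omega
      simp only [e0, e1, e2, e3, ha, and_self, if_true, if_false, false_and, LinearMap.sub_apply, map_sub,
        BoundedContinuousFunction.coe_sub, Pi.sub_apply, if_pos hb]
      ring
    · have e1 : (i : ℕ) < b + 1 := by omega
      have e0 : ¬ (i : ℕ) < b := by omega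
      have e2 : a ≤ (i : ℕ) := by omega
      have e3 : ¬ a + 1 ≤ (i : ℕ) := by omega
      have e4 : ¬ a < (i : ℕ) := by omega
      have e5 : (i : ℕ) = a := by omega
      simp only [e0, e1, e2, e3, e4, and_self, if_true, if_false, false_and, and_false,
        if_pos hb, if_pos e5]
      ring
    · have e2 : ¬ a ≤ (i : ℕ) := by omega
      have e3 : ¬ a + 1 ≤ (i : ℕ) := by omega
      have e4 : ¬ a < (i : ℕ) := by omega
      have e5 : ¬ (i : ℕ) = a := by omega
      simp [e2, e3, e4, e5]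
  · have e0 : ¬ (i : ℕ) < b := by omega
    have e1 : ¬ (i : ℕ) < b + 1 := by omega
    have e5 : ¬ (i : ℕ) = b := by omega
    simp [e0, e1, e5]

theorem es_const_out (S : Finset (Fin n)) (hφ : IsTest φ) (i : Fin n) : ∃ R : ℝ, ∀ x s, R ≤ |s| →
    ES ν S (tb hφ) (Function.update x i s) = if i ∈ S then 0 else ES ν S (tb hφ) x := by
  obtain ⟨R, hR⟩ := hφ.2.isBounded.subset_closedBall 0
  refine ⟨R + 1, fun x s hs => ?_⟩
  by_cases h : i ∈ S
  · simp only [h, if_true, es_apply, tb_apply]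
    have : ∀ y, φ (mix S (Function.update x i s) y) = 0 := by
      intro y
      by_contra hne
      have h1 : mix S (Function.update x i s) y ∈ Metric.closedBall (0 : Fin n → ℝ) R :=
        hR (subset_tsupport _ hne)
      rw [mem_closedBall_zero_iff] at h1
      have h2 := (norm_le_pi_norm (mix S (Function.update x i s) y) i).trans h1
      simp only [mix, h, if_true, Function.update_self, Real.norm_eq_abs] at h2
      linarith
    simp [this]
  · simp only [h, if_false, es_apply, tb_apply]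
    congr 1
    funext y
    congr 1
    funext j
    simp only [mix]
    by_cases hj : j ∈ S
    · have : j ≠ i := fun e => h (e ▸ hj)
      simp [hj, this]
    · simp [hj]

theorem pq_const_out (a b : ℕ) (hφ : IsTest φ) (i : Fin n) : ∃ (K : (Fin n → ℝ) → ℝ) (R : ℝ), ∀ x s, R ≤ |s| →
    pq ν a b (tb hφ) (Function.update x i s) = K x := by
  have key : ∀ c d, ∃ (K : (Fin n → ℝ) → ℝ) (R : ℝ), ∀ x s, R ≤ |s| →
      Pp ν c (Qtl ν d (tb hφ)) (Function.update x i s) = K x := by
    intro c d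
    obtain ⟨R, hR⟩ := es_const_out ν ((Finset.univ.filter fun i : Fin n => (i : ℕ) < c) ∩
      (Finset.univ.filter fun i : Fin n => d ≤ (i : ℕ))) hφ i
    exact ⟨_, R, fun x s hs => by rw [ppqq]; exact hR x s hs⟩
  obtain ⟨K1, R1, h1⟩ := key (b + 1) a
  obtain ⟨K2, R2, h2⟩ := key (b + 1) (a + 1)
  obtain ⟨K3, R3, h3⟩ := key b a
  obtain ⟨K4, R4, h4⟩ := key b (a + 1)
  refine ⟨fun x => K1 x - K2 x - K3 x + K4 x, max (max R1 R2) (max R3 R4), fun x s hs => ?_⟩
  simp only [max_le_iff] at hs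
  rw [pq_expand_fun]
  simp only [h1 x s hs.1.1, h2 x s hs.1.2, h3 x s hs.2.1, h4 x s hs.2.2]

/-- `C^1` functions with a bounded continuous partial derivative: the derivative along a coordinate line -/
theorem line_deriv (F : (Fin n → ℝ) → ℝ) (hF : ContDiff ℝ 1 F) (i : Fin n) (x : Fin n → ℝ) (s : ℝ) :
    HasDerivAt (fun r => F (Function.update x i r)) (fderiv ℝ F (Function.update x i s) (ev i)) s := by
  have h1 : HasDerivAt (fun r => Function.update x i r) (ev i) s := by
    rw [hasDerivAt_pi]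
    intro j
    by_cases hj : j = i
    · subst hj
      simpa [ev] using hasDerivAt_id' s
    · simpa [ev, hj] using hasDerivAt_const s (x j)
  exact (hF.differentiable (by norm_num) (Function.update x i s)).hasFDerivAt.comp_hasDerivAt s h1

end Pool.Agent.SGP
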