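import Pool.Agent.SGP.Defs

/-!
# DN1: the one-dimensional density

Proofs. `u` is continuous (`hu.lip.continuous`), so `g ↦ ∫_0^g u` is `C^1` with derivative `u g`
(`intervalIntegral.integral_hasDerivAt_right`), and `den u m = exp (..)`. Integrability for `0 < m`:
at `+∞`: `u ≤ m/2` for `g ≥ R`, so `den u m g ≤ C exp (-(m/2) g)`; at `-∞`: `u ≥ m + 1` for `g ≤ -R`, so
`log den` has derivative `u - m ≥ 1` there, `den u m g ≤ C exp g`. (`integrableOn_Ioi_exp..`, `integrable_of_isBigO..`, or
comparison on `Iic (-R)`, `Icc (-R) R`, `Ici R`.) The bounds are stated (`den_right`, `den_left`) since they are used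
elsewhere.
-/

open MeasureTheory ProbabilityTheory Set Filter Topology
open scoped ENNReal NNReal BoundedContinuousFunction

namespace Pool.Agent.SGP

variable {u : ℝ → ℝ} {m : ℝ}

theorem den_pos (u : ℝ → ℝ) (m g : ℝ) : 0 < den u m g := Real.exp_pos _

theorem den_hasDerivAt (hu : Pot u) (m g : ℝ) : HasDerivAt (den u m) ((u g - m) * den u m g) g := by
  have hc : Continuous u := hu.lip.continuous
  have h1 : HasDerivAt (fun g => ∫ s in (0 : ℝ)..g, u s) (u g) g :=
    intervalIntegral.integral_hasDerivAt_right (hc.intervalIntegrable 0 g)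
      (hc.stronglyMeasurableAtFilter _ _) hc.continuousAt
  have h2 : HasDerivAt (fun g => m * g) m g := by
    simpa using (hasDerivAt_id g).const_mul m
  have h3 := (h1.sub h2).exp
  have e : (u g - m) * den u m g = Real.exp ((∫ s in (0 : ℝ)..g, u s) - m * g) * (u g - m) := by
    rw [den, mul_comm]
  rw [e]
  exact h3

theorem den_cont (hu : Pot u) (m : ℝ) : Continuous (den u m) :=
  continuous_iff_continuousAt.mpr fun g => (den_hasDerivAt hu m g).continuousAt

/-- comparison: if `u ≤ a` on `[R, g]` -/
theorem den_le_right (hu : Pot u) (m : ℝ) {a R : ℝ} (ha : ∀ s, R ≤ s → u s ≤ a) {g : ℝ} (hg : R ≤ g) :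
    den u m g ≤ den u m R * Real.exp ((a - m) * (g - R)) := by
  have hc : Continuous u := hu.lip.continuous
  rw [den, den, ← Real.exp_add, Real.exp_le_exp]
  have h1 := intervalIntegral.integral_add_adjacent_intervals (hc.intervalIntegrable 0 R (μ := volume))
    (hc.intervalIntegrable R g)
  have h2 : ∫ s in R..g, u s ≤ ∫ _ in R..g, a :=
    intervalIntegral.integral_mono_on hg (hc.intervalIntegrable R g) intervalIntegrable_const
      fun s hs => ha s hs.1
  rw [intervalIntegral.integral_const, smul_eq_mul] at h2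
  nlinarith

theorem den_le_left (hu : Pot u) (m : ℝ) {a R : ℝ} (ha : ∀ s, s ≤ R → a ≤ u s) {g : ℝ} (hg : g ≤ R) :
    den u m g ≤ den u m R * Real.exp ((a - m) * (g - R)) := by
  have hc : Continuous u := hu.lip.continuous
  rw [den, den, ← Real.exp_add, Real.exp_le_exp]
  have h1 := intervalIntegral.integral_add_adjacent_intervals (hc.intervalIntegrable 0 g (μ := volume))
    (hc.intervalIntegrable g R)
  have h2 : ∫ _ in g..R, a ≤ ∫ s in g..R, u s :=
    intervalIntegral.integral_mono_on hg intervalIntegrable_const (hc.intervalIntegrable g R)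
      fun s hs => ha s hs.2
  rw [intervalIntegral.integral_const, smul_eq_mul] at h2
  nlinarith

theorem den_right (hu : Pot u) (hm : 0 < m) : ∃ C R : ℝ, 0 < C ∧ 0 < R ∧ ∀ g, R ≤ g →
    den u m g ≤ C * Real.exp (-(m / 2) * g) := by
  have h1 := hu.top.eventually (ge_mem_nhds (show (0 : ℝ) < m / 2 by positivity))
  obtain ⟨R0, hR0⟩ := eventually_atTop.mp h1
  set R := max R0 1 with hR
  have hRpos : 0 < R := lt_of_lt_of_le one_pos (le_max_right _ _)
  refine ⟨den u m R * Real.exp (m / 2 * R), R, by
    have := den_pos u m R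
    positivity, hRpos, fun g hg => ?_⟩
  have h2 := den_le_right hu m (a := m / 2) (R := R)
    (fun s hs => hR0 s ((le_max_left _ _).trans hs)) hg
  refine h2.trans (le_of_eq ?_)
  rw [mul_assoc, ← Real.exp_add]
  congr 2
  ring

theorem den_left (hu : Pot u) (m : ℝ) : ∃ C R : ℝ, 0 < C ∧ 0 < R ∧ ∀ g, g ≤ -R →
    den u m g ≤ C * Real.exp g := by
  have h1 := hu.bot.eventually (eventually_ge_atTop (m + 1))
  obtain ⟨R0, hR0⟩ := eventually_atBot.mp h1
  set R := max (-R0) 1 with hR
  have hRpos : 0 < R := lt_of_lt_of_le one_pos (le_max_right _ _)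
  refine ⟨den u m (-R) * Real.exp R, R, by
    have := den_pos u m (-R)
    positivity, hRpos, fun g hg => ?_⟩
  have h2 := den_le_left hu m (a := m + 1) (R := -R)
    (fun s hs => hR0 s (by
      have := le_max_left (-R0) 1
      linarith)) hg
  refine h2.trans (le_of_eq ?_)
  rw [mul_assoc, ← Real.exp_add]
  congr 2
  ring

theorem den_integrable (hu : Pot u) (hm : 0 < m) : Integrable (den u m) := by
  obtain ⟨C, R, hC, hR, h1⟩ := den_right hu hm
  obtain ⟨C', R', hC', hR', h2⟩ := den_left hu m
  have hc := den_cont hu m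
  have hI1 : IntegrableOn (den u m) (Iic (-R')) := by
    have h3 : IntegrableOn (fun g => C' * Real.exp g) (Iic (-R')) :=
      (integrableOn_exp_Iic (-R')).const_mul C'
    refine Integrable.mono' h3 hc.aestronglyMeasurable.restrict ?_
    refine (ae_restrict_iff' measurableSet_Iic).mpr (Eventually.of_forall fun g hg => ?_)
    rw [Real.norm_eq_abs, abs_of_pos (den_pos u m g)]
    exact h2 g hg
  have hI2 : IntegrableOn (den u m) (Ioi R) := by
    have h3 : IntegrableOn (fun g => C * Real.exp (-(m / 2) * g)) (Ioi R) :=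
      (exp_neg_integrableOn_Ioi R (by positivity)).const_mul C
    refine Integrable.mono' h3 hc.aestronglyMeasurable.restrict ?_
    refine (ae_restrict_iff' measurableSet_Ioi).mpr (Eventually.of_forall fun g hg => ?_)
    rw [Real.norm_eq_abs, abs_of_pos (den_pos u m g)]
    exact h1 g (le_of_lt hg)
  have hI3 : IntegrableOn (den u m) (Icc (-R') R) := hc.continuousOn.integrableOn_Icc
  have hun : (Iic (-R') ∪ Icc (-R') R) ∪ Ioi R = univ := by
    ext g
    simp only [mem_union, mem_Iic, mem_Icc, mem_Ioi, mem_univ, iff_true]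
    by_cases a : g ≤ -R'
    · exact Or.inl (Or.inl a)
    · by_cases b : g ≤ R
      · exact Or.inl (Or.inr ⟨(not_le.mp a).le, b⟩)
      · exact Or.inr (not_le.mp b)
  have := (hI1.union hI3).union hI2
  rw [hun, integrableOn_univ] at this
  exact this

theorem Zc_pos (hu : Pot u) (hm : 0 < m) : 0 < Zc u m := by
  rw [Zc, integral_pos_iff_support_of_nonneg (fun g => (den_pos u m g).le) (den_integrable hu hm)]
  have : Function.support (den u m) = univ := by
    ext g
    simp [(den_pos u m g).ne']
  rw [this]
  simp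

theorem dn_pos (hu : Pot u) (hm : 0 < m) (g : ℝ) : 0 < dn u m g := div_pos (den_pos u m g) (Zc_pos hu hm)

theorem dn_cont (hu : Pot u) (m : ℝ) : Continuous (dn u m) := (den_cont hu m).div_const _

theorem dn_hasDerivAt (hu : Pot u) (m g : ℝ) : HasDerivAt (dn u m) (-(m - u g) * dn u m g) g := by
  have h := (den_hasDerivAt hu m g).div_const (Zc u m)
  have e : -(m - u g) * dn u m g = (u g - m) * den u m g / Zc u m := by
    rw [dn]
    ring
  rw [e]
  exact h

theorem dn_integrable (hu : Pot u) (hm : 0 < m) : Integrable (dn u m) := (den_integrable hu hm).div_const _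

theorem dn_integral (hu : Pot u) (hm : 0 < m) : ∫ g, dn u m g = 1 := by
  have h1 : ∫ g, dn u m g = (∫ g, den u m g) / Zc u m := by
    simp only [dn]
    exact integral_div _ _
  rw [h1]
  exact div_self (Zc_pos hu hm).ne'

theorem nu_prob (hu : Pot u) (hm : 0 < m) : IsProbabilityMeasure (nu u m) := by
  constructor
  rw [nu, withDensity_apply _ MeasurableSet.univ, Measure.restrict_univ,
    ← ofReal_integral_eq_lintegral_ofReal (dn_integrable hu hm)
      (Eventually.of_forall fun g => (dn_pos hu hm g).le), dn_integral hu hm, ENNReal.ofReal_one]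

theorem nu_eq (m : ℝ) :
    nu u m = volume.withDensity fun g => ((dn u m g).toNNReal : ℝ≥0∞) := rfl

/-- no hypothesis on `f` (both sides are `0` if not integrable) -/
theorem integral_nu (hu : Pot u) (hm : 0 < m) (f : ℝ → ℝ) : ∫ g, f g ∂(nu u m) = ∫ g, f g * dn u m g := by
  have hmeas : Measurable fun g => (dn u m g).toNNReal := (dn_cont hu m).measurable.real_toNNReal
  rw [nu_eq m, integral_withDensity_eq_integral_smul hmeas]
  refine integral_congr_ae (Eventually.of_forall fun g => ?_)
  show (dn u m g).toNNReal • f g = f g * dn u m g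
  rw [NNReal.smul_def, Real.coe_toNNReal _ (dn_pos hu hm g).le, smul_eq_mul, mul_comm]

theorem integrable_nu (hu : Pot u) (hm : 0 < m) {f : ℝ → ℝ} :
    Integrable f (nu u m) ↔ Integrable fun g => f g * dn u m g := by
  have hmeas : Measurable fun g => (dn u m g).toNNReal := (dn_cont hu m).measurable.real_toNNReal
  rw [nu_eq m, integrable_withDensity_iff_integrable_smul hmeas]
  refine integrable_congr (Eventually.of_forall fun g => ?_)
  show (dn u m g).toNNReal • f g = f g * dn u m g
  rw [NNReal.smul_def, Real.coe_toNNReal _ (dn_pos hu hm g).le, smul_eq_mul, mul_comm]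

end Pool.Agent.SGP
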