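import Pool.Agent.SGP.TAL
import Pool.Agent.SGP.CPT

/-!
# EIG: existence of an eigenfunction if `gap < m² / 4`

Proof. `λ = gap u m`. Choose `f k` (`C^1`, compact support) with `Var (f k) > 0` and `∫ f_k'^2 / Var f_k ≤ λ + 1/(k+1)`
(`gap_set_nonempty`, `Real.lt_sInf_add_pos`), scaled so that `Var (f k) = 1`; `c k` = mean of `f k`; `g k = f k - c k`.
`tail_small` gives the tail hypothesis of `cpt_l2`, so for a subsequence `g k → v` in `L²(ν)`; `∫ v² = lim ∫ g_k² = 1`,
`∫ v = lim ∫ g_k = 0`. Equation: let `Φ` be `C^1` with compact support, `E = ∫ Φ'^2 ≥ 0`. For all real `t`, `poincare`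
for `f k + t Φ`: `∫ (f_k' + t Φ')^2 ≥ λ Var (f_k + t Φ) = λ (1 + 2 t ∫ g_k Φ + t² Var Φ)` (`∫ g_k (Φ - mean) = ∫ g_k Φ`), so
`0 ≤ e_k + 2 t b_k + t² E` with `e_k = ∫ f_k'^2 - λ ≤ 1/(k+1)`, `b_k = ∫ f_k' Φ' - λ ∫ g_k Φ` (drop `-λ t² Var Φ ≤ 0`). Hence
`b_k² ≤ e_k E` (`discrim_le_zero`, or `t = -b_k/E`; `E = 0` gives `b_k = 0` too), `b_k → 0`, and `∫ g_k Φ → ∫ v Φ`.
-/

open MeasureTheory ProbabilityTheory Set Filter Topology
open scoped ENNReal NNReal BoundedContinuousFunction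

namespace Pool.Agent.SGP

/-- Cauchy-Schwarz -/
private theorem eig_cs {E : Type*} [MeasurableSpace E] {π : Measure E} {a b : E → ℝ} (ha : MemLp a 2 π)
    (hb : MemLp b 2 π) : (∫ x, a x * b x ∂π) ^ 2 ≤ (∫ x, a x ^ 2 ∂π) * ∫ x, b x ^ 2 ∂π := by
  have i1 : Integrable (fun x => a x ^ 2) π := ha.integrable_sq
  have i2 : Integrable (fun x => b x ^ 2) π := hb.integrable_sq
  have i3 : Integrable (fun x => a x * b x) π := ha.integrable_mul hb
  have h : ∀ s : ℝ, 0 ≤ (∫ x, a x ^ 2 ∂π) * (s * s) + (2 * ∫ x, a x * b x ∂π) * s + ∫ x, b x ^ 2 ∂π := by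
    intro s
    have h1 : 0 ≤ ∫ x, (s * a x + b x) ^ 2 ∂π := integral_nonneg fun x => sq_nonneg _
    have h2 : ∫ x, (s * a x + b x) ^ 2 ∂π =
        (∫ x, a x ^ 2 ∂π) * (s * s) + (2 * ∫ x, a x * b x ∂π) * s + ∫ x, b x ^ 2 ∂π := by
      have e : (fun x => (s * a x + b x) ^ 2) =
          fun x => ((s * s) * a x ^ 2 + (2 * s) * (a x * b x)) + b x ^ 2 := by
        funext x; ring
      have i4 : Integrable (fun x => (s * s) * a x ^ 2 + (2 * s) * (a x * b x)) π :=
        (i1.const_mul _).add (i3.const_mul _)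
      rw [e, integral_add i4 i2, integral_add (i1.const_mul _) (i3.const_mul _), integral_const_mul,
        integral_const_mul]
      ring
    rw [h2] at h1
    exact h1
  have h3 := discrim_le_zero h
  unfold discrim at h3
  nlinarith

/-- `∫ g h_k → ∫ g V` if `h_k → V` in `L²` -/
private theorem eig_tend {E : Type*} [MeasurableSpace E] {π : Measure E} {h : ℕ → E → ℝ} {V g : E → ℝ}
    (hh : ∀ k, MemLp (h k) 2 π) (hV : MemLp V 2 π) (hg : MemLp g 2 π)
    (hc : Tendsto (fun k => ∫ x, (h k x - V x) ^ 2 ∂π) atTop (𝓝 0)) :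
    Tendsto (fun k => ∫ x, g x * h k x ∂π) atTop (𝓝 (∫ x, g x * V x ∂π)) := by
  rw [tendsto_iff_norm_sub_tendsto_zero]
  have h1 : Tendsto (fun k => √((∫ x, g x ^ 2 ∂π) * ∫ x, (h k x - V x) ^ 2 ∂π)) atTop (𝓝 0) := by
    have h2 := (hc.const_mul (∫ x, g x ^ 2 ∂π))
    have h3 := (Real.continuous_sqrt.tendsto _).comp h2
    rw [mul_zero, Real.sqrt_zero] at h3
    exact h3
  refine squeeze_zero (fun k => norm_nonneg _) (fun k => ?_) h1
  have h4 : ∫ x, g x * h k x ∂π - ∫ x, g x * V x ∂π = ∫ x, g x * (h k x - V x) ∂π := by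
    have j1 : Integrable (fun x => g x * h k x) π := hg.integrable_mul (hh k)
    have j2 : Integrable (fun x => g x * V x) π := hg.integrable_mul hV
    rw [← integral_sub j1 j2]
    refine integral_congr_ae (Eventually.of_forall fun x => ?_)
    show g x * h k x - g x * V x = g x * (h k x - V x)
    ring
  rw [h4, Real.norm_eq_abs]
  exact Real.abs_le_sqrt (eig_cs hg ((hh k).sub hV))

/-- `v` is a generalized eigenfunction with eigenvalue `lam`, `f k - c k` are approximations -/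
structure Eig (u : ℝ → ℝ) (m lam : ℝ) (v : ℝ → ℝ) (f : ℕ → ℝ → ℝ) (c : ℕ → ℝ) : Prop where
  c1 : ∀ k, ContDiff ℝ 1 (f k)
  cs : ∀ k, HasCompactSupport (f k)
  meas : Measurable v
  l2 : MemLp v 2 (nu u m)
  nz : ∫ x, v x ^ 2 ∂(nu u m) = 1
  mean : ∫ x, v x ∂(nu u m) = 0
  conv : Tendsto (fun k => ∫ x, (f k x - c k - v x) ^ 2 ∂(nu u m)) atTop (𝓝 0)
  eq : ∀ Φ : ℝ → ℝ, ContDiff ℝ 1 Φ → HasCompactSupport Φ →
    Tendsto (fun k => ∫ x, deriv (f k) x * deriv Φ x ∂(nu u m)) atTop (𝓝 (lam * ∫ x, v x * Φ x ∂(nu u m)))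

/-- normalised approximate minimizers -/
private theorem eig_sel {u : ℝ → ℝ} {m : ℝ} (hu : Pot u) (hm : 0 < m) (k : ℕ) :
    ∃ f : ℝ → ℝ, ContDiff ℝ 1 f ∧ HasCompactSupport f ∧ vr (nu u m) f = 1 ∧
      ∫ x, deriv f x ^ 2 ∂(nu u m) ≤ gap u m + 1 / ((k : ℝ) + 1) := by
  have hk : (0 : ℝ) < 1 / ((k : ℝ) + 1) := by positivity
  obtain ⟨r, ⟨f, hf, hc, hv, hr⟩, hlt⟩ := Real.lt_sInf_add_pos (gap_set_nonempty hu hm) hk
  set V := vr (nu u m) f with hV
  set s : ℝ := (√V)⁻¹ with hs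
  have hs2 : s ^ 2 * V = 1 := by
    rw [hs, inv_pow, Real.sq_sqrt hv.le, inv_mul_cancel₀ hv.ne']
  refine ⟨fun x => s * f x, contDiff_const.mul hf, hc.mul_left, ?_, ?_⟩
  · have e1 : vr (nu u m) (fun x => s * f x) = s ^ 2 * V := by
      rw [hV]
      unfold vr
      have e0 : ∫ y, s * f y ∂(nu u m) = s * ∫ y, f y ∂(nu u m) := integral_const_mul s f
      have e00 : (fun x => (s * f x - ∫ y, s * f y ∂(nu u m)) ^ 2) =
          fun x => s ^ 2 * (f x - ∫ y, f y ∂(nu u m)) ^ 2 := by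
        funext x
        rw [e0]
        ring
      rw [e00, integral_const_mul]
    rw [e1, hs2]
  · have hd : ∀ x, deriv (fun x => s * f x) x = s * deriv f x := by
      intro x
      exact deriv_const_mul s (hf.differentiable one_ne_zero x)
    have e2 : ∫ x, deriv (fun x => s * f x) x ^ 2 ∂(nu u m) = s ^ 2 * ∫ x, deriv f x ^ 2 ∂(nu u m) := by
      rw [← integral_const_mul]
      refine integral_congr_ae (Filter.Eventually.of_forall fun x => ?_)
      simp only [hd x]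
      ring
    rw [e2]
    have e3 : s ^ 2 * ∫ x, deriv f x ^ 2 ∂(nu u m) = r := by
      rw [hr, eq_div_iff hv.ne']
      calc s ^ 2 * (∫ x, deriv f x ^ 2 ∂(nu u m)) * V = (s ^ 2 * V) * ∫ x, deriv f x ^ 2 ∂(nu u m) := by ring
        _ = _ := by rw [hs2, one_mul]
    rw [e3]
    exact hlt.le

/-- the Euler-Lagrange equation for approximate minimizers -/
private theorem eig_el {u : ℝ → ℝ} {m : ℝ} (hu : Pot u) (hm : 0 < m) {f Φ : ℝ → ℝ} (hf : ContDiff ℝ 1 f)
    (hfc : HasCompactSupport f) (hv : vr (nu u m) f = 1) (hΦ : ContDiff ℝ 1 Φ) (hΦc : HasCompactSupport Φ) :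
    (∫ x, deriv f x * deriv Φ x ∂(nu u m) - gap u m * ∫ x, (f x - ∫ y, f y ∂(nu u m)) * Φ x ∂(nu u m)) ^ 2 ≤
      (∫ x, deriv Φ x ^ 2 ∂(nu u m)) * (∫ x, deriv f x ^ 2 ∂(nu u m) - gap u m) := by
  have := nu_prob hu hm
  set ν := nu u m with hν
  set lam := gap u m with hlam
  have hlam0 : 0 ≤ lam := gap_nonneg u m
  have mf : MemLp f 2 ν := hf.continuous.memLp_of_hasCompactSupport hfc
  have mΦ : MemLp Φ 2 ν := hΦ.continuous.memLp_of_hasCompactSupport hΦc
  have mdf : MemLp (deriv f) 2 ν := (hf.continuous_deriv le_rfl).memLp_of_hasCompactSupport hfc.deriv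
  have mdΦ : MemLp (deriv Φ) 2 ν := (hΦ.continuous_deriv le_rfl).memLp_of_hasCompactSupport hΦc.deriv
  set c := ∫ y, f y ∂ν with hc
  set d := ∫ y, Φ y ∂ν with hd
  have mg : MemLp (fun x => f x - c) 2 ν := mf.sub (memLp_const c)
  have mψ : MemLp (fun x => Φ x - d) 2 ν := mΦ.sub (memLp_const d)
  have ig : ∫ x, (f x - c) ∂ν = 0 := by
    rw [integral_sub (mf.integrable (by norm_num)) (integrable_const c), integral_const]
    simp [hc]
  have igψ : ∫ x, (f x - c) * (Φ x - d) ∂ν = ∫ x, (f x - c) * Φ x ∂ν := by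
    have e : (fun x => (f x - c) * (Φ x - d)) = fun x => (f x - c) * Φ x - (f x - c) * d := by
      funext x; ring
    have j1 : Integrable (fun x => (f x - c) * Φ x) ν := mg.integrable_mul mΦ
    have j2 : Integrable (fun x => (f x - c) * d) ν := (mg.integrable (by norm_num)).mul_const d
    rw [e, integral_sub j1 j2, integral_mul_const, ig, zero_mul, sub_zero]
  have hq : ∀ t : ℝ, 0 ≤ (∫ x, deriv Φ x ^ 2 ∂ν) * (t * t) +
      (2 * (∫ x, deriv f x * deriv Φ x ∂ν - lam * ∫ x, (f x - c) * Φ x ∂ν)) * t +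
      (∫ x, deriv f x ^ 2 ∂ν - lam) := by
    intro t
    have hp := poincare u m (hf.add (contDiff_const.mul hΦ : ContDiff ℝ 1 fun x => t * Φ x))
      (hfc.add hΦc.mul_left)
    rw [← hν, ← hlam] at hp
    have hder : ∀ x, deriv (fun x => f x + t * Φ x) x = deriv f x + t * deriv Φ x := by
      intro x
      exact ((hf.differentiable one_ne_zero x).hasDerivAt.add
        ((hΦ.differentiable one_ne_zero x).hasDerivAt.const_mul t)).deriv
    have e1 : ∫ x, deriv (fun x => f x + t * Φ x) x ^ 2 ∂ν = ∫ x, deriv f x ^ 2 ∂ν +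
        2 * t * ∫ x, deriv f x * deriv Φ x ∂ν + t * t * ∫ x, deriv Φ x ^ 2 ∂ν := by
      have e : (fun x => deriv (fun x => f x + t * Φ x) x ^ 2) = fun x => (deriv f x ^ 2 +
          (2 * t) * (deriv f x * deriv Φ x)) + (t * t) * deriv Φ x ^ 2 := by
        funext x
        rw [hder x]
        ring
      have j1 : Integrable (fun x => deriv f x * deriv Φ x) ν := mdf.integrable_mul mdΦ
      have j2 : Integrable (fun x => deriv f x ^ 2) ν := mdf.integrable_sq
      have j3 : Integrable (fun x => deriv Φ x ^ 2) ν := mdΦ.integrable_sq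
      have j4 : Integrable (fun x => deriv f x ^ 2 + (2 * t) * (deriv f x * deriv Φ x)) ν :=
        j2.add (j1.const_mul _)
      rw [e, integral_add j4 (j3.const_mul _), integral_add j2 (j1.const_mul _), integral_const_mul,
        integral_const_mul]
    have e2 : vr ν (fun x => f x + t * Φ x) = 1 + 2 * t * ∫ x, (f x - c) * Φ x ∂ν +
        t * t * ∫ x, (Φ x - d) ^ 2 ∂ν := by
      unfold vr
      have e3 : ∫ y, (fun x => f x + t * Φ x) y ∂ν = c + t * d := by
        rw [integral_add (mf.integrable (by norm_num)) ((mΦ.integrable (by norm_num)).const_mul t),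
          integral_const_mul]
      rw [e3]
      have e : (fun x => ((fun x => f x + t * Φ x) x - (c + t * d)) ^ 2) = fun x => ((f x - c) ^ 2 +
          (2 * t) * ((f x - c) * (Φ x - d))) + (t * t) * (Φ x - d) ^ 2 := by
        funext x
        ring
      have j1 : Integrable (fun x => (f x - c) * (Φ x - d)) ν := mg.integrable_mul mψ
      have j2 : Integrable (fun x => (f x - c) ^ 2) ν := mg.integrable_sq
      have j3 : Integrable (fun x => (Φ x - d) ^ 2) ν := mψ.integrable_sq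
      have j4 : Integrable (fun x => (f x - c) ^ 2 + (2 * t) * ((f x - c) * (Φ x - d))) ν :=
        j2.add (j1.const_mul _)
      rw [e, integral_add j4 (j3.const_mul _), integral_add j2 (j1.const_mul _), integral_const_mul,
        integral_const_mul, igψ]
      have : ∫ x, (f x - c) ^ 2 ∂ν = 1 := hv
      rw [this]
    rw [e1, e2] at hp
    have h5 : 0 ≤ lam * (t * t * ∫ x, (Φ x - d) ^ 2 ∂ν) := by
      refine mul_nonneg hlam0 (mul_nonneg (mul_self_nonneg t) (integral_nonneg fun x => sq_nonneg _))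
    nlinarith
  have h3 := discrim_le_zero hq
  unfold discrim at h3
  nlinarith

theorem eigen {u : ℝ → ℝ} {m : ℝ} (hu : Pot u) (hm : 0 < m) (hg : gap u m < m ^ 2 / 4) :
    ∃ (v : ℝ → ℝ) (f : ℕ → ℝ → ℝ) (c : ℕ → ℝ), Eig u m (gap u m) v f c := by
  have := nu_prob hu hm
  choose F hF hFc hFv hFe using fun k : ℕ => eig_sel hu hm k
  set ν := nu u m with hν
  set lam := gap u m with hlam
  have hlam0 : 0 ≤ lam := gap_nonneg u m
  set C0 : ℕ → ℝ := fun k => ∫ y, F k y ∂ν with hC0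
  have mF : ∀ k, MemLp (F k) 2 ν := fun k => (hF k).continuous.memLp_of_hasCompactSupport (hFc k)
  have mdF : ∀ k, MemLp (deriv (F k)) 2 ν := fun k =>
    ((hF k).continuous_deriv le_rfl).memLp_of_hasCompactSupport (hFc k).deriv
  have mg : ∀ k, MemLp (fun x => F k x - C0 k) 2 ν := fun k => (mF k).sub (memLp_const _)
  have hk1 : ∀ k : ℕ, (1 : ℝ) / ((k : ℝ) + 1) ≤ 1 := by
    intro k
    rw [div_le_one (by positivity)]
    have : (0 : ℝ) ≤ k := Nat.cast_nonneg k
    linarith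
  have hgd : ∀ k, deriv (fun x => F k x - C0 k) = deriv (F k) := by
    intro k
    funext x
    rw [deriv_sub_const]
  obtain ⟨φ, hφ, v, hvm, hv2, hconv⟩ := cpt_l2 hu hm (fun k x => F k x - C0 k)
    (fun k => (hF k).sub contDiff_const) mg
    (fun k => by rw [hgd k]; exact mdF k) (lam + 1)
    (fun k => by
      have : ∫ x, (F k x - C0 k) ^ 2 ∂ν = 1 := hFv k
      rw [← hν, this]
      linarith)
    (fun k => by
      rw [hgd k]
      have := hFe k
      have := hk1 k
      linarith)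
    (by
      intro ε hε
      obtain ⟨R, κ, hR, hκ, H⟩ := tail_small hu hm hg hε
      obtain ⟨K, hK⟩ := exists_nat_one_div_lt hκ
      refine ⟨R, hR, K, fun k hk => ?_⟩
      refine H (F k) (hF k) (hFc k) (hFv k) ?_
      have h1 := hFe k
      have h2 : (1 : ℝ) / ((k : ℝ) + 1) ≤ 1 / ((K : ℝ) + 1) := by
        apply one_div_le_one_div_of_le (by positivity)
        have : (K : ℝ) ≤ k := by exact_mod_cast hk
        linarith
      linarith)
  have hgv : ∀ Ψ : ℝ → ℝ, MemLp Ψ 2 ν →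
      Tendsto (fun k => ∫ x, Ψ x * (F (φ k) x - C0 (φ k)) ∂ν) atTop (𝓝 (∫ x, Ψ x * v x ∂ν)) := by
    intro Ψ hΨ
    exact eig_tend (h := fun k x => F (φ k) x - C0 (φ k)) (fun k => mg _) hv2 hΨ hconv
  have hmean0 : ∀ k, ∫ x, (F k x - C0 k) ∂ν = 0 := by
    intro k
    rw [integral_sub ((mF k).integrable (by norm_num)) (integrable_const _), integral_const]
    simp [hC0]
  refine ⟨v, fun k => F (φ k), fun k => C0 (φ k), ?_⟩
  refine ⟨fun k => hF _, fun k => hFc _, hvm, hv2, ?_, ?_, hconv, ?_⟩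
  · -- norm one
    have h1 : Tendsto (fun k => ∫ x, v x * (F (φ k) x - C0 (φ k)) ∂ν) atTop (𝓝 (∫ x, v x * v x ∂ν)) :=
      hgv v hv2
    have h2 : Tendsto (fun k => (∫ x, (F (φ k) x - C0 (φ k) - v x) ^ 2 ∂ν) +
        2 * (∫ x, v x * (F (φ k) x - C0 (φ k)) ∂ν) - ∫ x, v x * v x ∂ν) atTop
        (𝓝 (0 + 2 * (∫ x, v x * v x ∂ν) - ∫ x, v x * v x ∂ν)) :=
      (hconv.add (h1.const_mul 2)).sub_const _
    have h3 : (fun k => (∫ x, (F (φ k) x - C0 (φ k) - v x) ^ 2 ∂ν) +
        2 * (∫ x, v x * (F (φ k) x - C0 (φ k)) ∂ν) - ∫ x, v x * v x ∂ν) = fun _ => (1 : ℝ) := by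
      funext k
      have hone : ∫ x, (F (φ k) x - C0 (φ k)) ^ 2 ∂ν = 1 := hFv (φ k)
      have e : (fun x => (F (φ k) x - C0 (φ k) - v x) ^ 2) = fun x => ((F (φ k) x - C0 (φ k)) ^ 2 -
          2 * (v x * (F (φ k) x - C0 (φ k)))) + v x * v x := by
        funext x; ring
      have j1 : Integrable (fun x => (F (φ k) x - C0 (φ k)) ^ 2) ν := (mg _).integrable_sq
      have j2 : Integrable (fun x => v x * (F (φ k) x - C0 (φ k))) ν := hv2.integrable_mul (mg _)
      have j3 : Integrable (fun x => v x * v x) ν := hv2.integrable_mul hv2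
      have j4 : Integrable (fun x => (F (φ k) x - C0 (φ k)) ^ 2 - 2 * (v x * (F (φ k) x - C0 (φ k)))) ν :=
        j1.sub (j2.const_mul 2)
      rw [e, integral_add j4 j3, integral_sub j1 (j2.const_mul 2), integral_const_mul, hone]
      ring
    rw [h3] at h2
    have h4 := tendsto_nhds_unique h2 tendsto_const_nhds
    have h5 : ∫ x, v x ^ 2 ∂ν = ∫ x, v x * v x ∂ν := by
      refine integral_congr_ae (Filter.Eventually.of_forall fun x => ?_)
      ring
    rw [← hν, h5]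
    linarith
  · -- mean zero
    have h1 := hgv (fun _ => 1) (memLp_const 1)
    simp only [one_mul] at h1
    have h2 : (fun k => ∫ x, (F (φ k) x - C0 (φ k)) ∂ν) = fun _ => (0 : ℝ) := by
      funext k
      exact hmean0 _
    rw [h2] at h1
    exact (tendsto_nhds_unique h1 tendsto_const_nhds)
  · -- equation
    intro Φ hΦ hΦc
    have mΦ : MemLp Φ 2 ν := hΦ.continuous.memLp_of_hasCompactSupport hΦc
    have h1 := (hgv Φ mΦ).const_mul lam
    have hb : Tendsto (fun k => ∫ x, deriv (F (φ k)) x * deriv Φ x ∂ν -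
        lam * ∫ x, (F (φ k) x - C0 (φ k)) * Φ x ∂ν) atTop (𝓝 0) := by
      have hE : Tendsto (fun k : ℕ => √((∫ x, deriv Φ x ^ 2 ∂ν) * (1 / ((k : ℝ) + 1)))) atTop (𝓝 0) := by
        have h2 := (tendsto_one_div_add_atTop_nhds_zero_nat (𝕜 := ℝ)).const_mul (∫ x, deriv Φ x ^ 2 ∂ν)
        have h3 := (Real.continuous_sqrt.tendsto _).comp h2
        rw [mul_zero, Real.sqrt_zero] at h3
        exact h3
      rw [tendsto_zero_iff_norm_tendsto_zero]
      refine squeeze_zero (fun k => norm_nonneg _) (fun k => ?_) hE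
      have h4 := eig_el hu hm (hF (φ k)) (hFc (φ k)) (hFv (φ k)) hΦ hΦc
      rw [Real.norm_eq_abs]
      refine Real.abs_le_sqrt (h4.trans ?_)
      refine mul_le_mul_of_nonneg_left ?_ (integral_nonneg fun x => sq_nonneg _)
      have h5 := hFe (φ k)
      have h6 : (1 : ℝ) / (((φ k : ℕ) : ℝ) + 1) ≤ 1 / ((k : ℝ) + 1) := by
        apply one_div_le_one_div_of_le (by positivity)
        have : (k : ℝ) ≤ (φ k : ℕ) := by exact_mod_cast hφ.id_le k
        linarith
      linarith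
    have h7 := hb.add h1
    rw [zero_add] at h7
    have h8 : (fun k => (∫ x, deriv (F (φ k)) x * deriv Φ x ∂ν -
        lam * ∫ x, (F (φ k) x - C0 (φ k)) * Φ x ∂ν) + lam * ∫ x, Φ x * (F (φ k) x - C0 (φ k)) ∂ν) =
        fun k => ∫ x, deriv (F (φ k)) x * deriv Φ x ∂ν := by
      funext k
      have : ∫ x, (F (φ k) x - C0 (φ k)) * Φ x ∂ν = ∫ x, Φ x * (F (φ k) x - C0 (φ k)) ∂ν := by
        refine integral_congr_ae (Filter.Eventually.of_forall fun x => ?_)
        ring
      rw [this]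
      ring
    rw [h8] at h7
    have h9 : ∫ x, Φ x * v x ∂ν = ∫ x, v x * Φ x ∂ν := by
      refine integral_congr_ae (Filter.Eventually.of_forall fun x => ?_)
      ring
    rw [h9] at h7
    exact h7

end Pool.Agent.SGP
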