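import Pool.Agent.SGP.FRM

/-!
# L2D: differentiability of curves of bounded continuous functions in `L²(π)`
-/

open MeasureTheory ProbabilityTheory Set Filter Topology Asymptotics
open scoped ENNReal NNReal BoundedContinuousFunction

namespace Pool.Agent.SGP

variable {n : ℕ}

/-- the curve `A` is differentiable at `r` within `s` in `L²(π)` with derivative `A'` -/
def L2D (π : Measure (Fin n → ℝ)) (A : ℝ → ((Fin n → ℝ) →ᵇ ℝ)) (A' : (Fin n → ℝ) →ᵇ ℝ) (s : Set ℝ) (r : ℝ) : Prop :=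
  ∀ ε > 0, ∃ δ > 0, ∀ t ∈ s, |t - r| < δ → ∫ x, (A t x - A r x - (t - r) * A' x) ^ 2 ∂π ≤ ε * (t - r) ^ 2

/-- the remainder -/
noncomputable def l2r (A : ℝ → ((Fin n → ℝ) →ᵇ ℝ)) (A' : (Fin n → ℝ) →ᵇ ℝ) (r t : ℝ) : (Fin n → ℝ) →ᵇ ℝ :=
  A t - A r - (t - r) • A'

theorem l2r_small {π : Measure (Fin n → ℝ)} {N : ((Fin n → ℝ) →ᵇ ℝ) → ((Fin n → ℝ) →ᵇ ℝ) → ℝ} (hN : Frm π N)
    {A : ℝ → ((Fin n → ℝ) →ᵇ ℝ)} {A' : (Fin n → ℝ) →ᵇ ℝ} {s : Set ℝ} {r : ℝ} (hA : L2D π A A' s r)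
    {ε : ℝ} (hε : 0 < ε) :
    ∀ᶠ t in 𝓝[s] r, N (l2r A A' r t) (l2r A A' r t) ≤ ε * (t - r) ^ 2 := by
  obtain ⟨C, hC0, hC⟩ := hN.bd
  obtain ⟨δ, hδ, h⟩ := hA (ε / (C + 1)) (by positivity)
  have h1 : ∀ᶠ t in 𝓝[s] r, t ∈ s := self_mem_nhdsWithin
  have h2 : ∀ᶠ t in 𝓝[s] r, |t - r| < δ := by
    refine mem_nhdsWithin_of_mem_nhds ?_
    filter_upwards [Metric.ball_mem_nhds r hδ] with t ht
    rwa [Metric.mem_ball, Real.dist_eq] at ht
  filter_upwards [h1, h2] with t ht1 ht2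
  have h3 := h t ht1 ht2
  have h4 := hC (l2r A A' r t)
  have h5 : ∫ x, (l2r A A' r t) x ^ 2 ∂π = ∫ x, (A t x - A r x - (t - r) * A' x) ^ 2 ∂π := by
    refine integral_congr_ae (Eventually.of_forall fun x => ?_)
    simp [l2r]
  rw [h5] at h4
  calc N (l2r A A' r t) (l2r A A' r t) ≤ C * ∫ x, (A t x - A r x - (t - r) * A' x) ^ 2 ∂π := h4
    _ ≤ C * (ε / (C + 1) * (t - r) ^ 2) := mul_le_mul_of_nonneg_left h3 hC0
    _ = (C / (C + 1)) * (ε * (t - r) ^ 2) := by ring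
    _ ≤ 1 * (ε * (t - r) ^ 2) := by
        refine mul_le_mul_of_nonneg_right ?_ (by positivity)
        rw [div_le_one (by positivity)]
        linarith
    _ = ε * (t - r) ^ 2 := one_mul _

theorem l2r_lo {π : Measure (Fin n → ℝ)} {N : ((Fin n → ℝ) →ᵇ ℝ) → ((Fin n → ℝ) →ᵇ ℝ) → ℝ} (hN : Frm π N)
    {A : ℝ → ((Fin n → ℝ) →ᵇ ℝ)} {A' : (Fin n → ℝ) →ᵇ ℝ} {s : Set ℝ} {r : ℝ} (hA : L2D π A A' s r)
    (X : (Fin n → ℝ) →ᵇ ℝ) : (fun t => N (l2r A A' r t) X) =o[𝓝[s] r] fun t => t - r := by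
  rw [isLittleO_iff]
  intro c hc
  have hK := hN.pos X
  filter_upwards [l2r_small hN hA (ε := c ^ 2 / (N X X + 1)) (by positivity)] with t ht
  rw [Real.norm_eq_abs, Real.norm_eq_abs]
  have h1 := frm_cs hN (l2r A A' r t) X
  have h2 : N (l2r A A' r t) X ^ 2 ≤ (c * |t - r|) ^ 2 := by
    calc N (l2r A A' r t) X ^ 2 ≤ N (l2r A A' r t) (l2r A A' r t) * N X X := h1
      _ ≤ (c ^ 2 / (N X X + 1) * (t - r) ^ 2) * N X X := mul_le_mul_of_nonneg_right ht hK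
      _ = (N X X / (N X X + 1)) * (c ^ 2 * (t - r) ^ 2) := by ring
      _ ≤ 1 * (c ^ 2 * (t - r) ^ 2) := by
          refine mul_le_mul_of_nonneg_right ?_ (by positivity)
          rw [div_le_one (by positivity)]
          linarith
      _ = (c * |t - r|) ^ 2 := by rw [mul_pow, sq_abs, one_mul]
  exact abs_le_of_sq_le_sq h2 (by positivity)

theorem l2r_lo2 {π : Measure (Fin n → ℝ)} {N : ((Fin n → ℝ) →ᵇ ℝ) → ((Fin n → ℝ) →ᵇ ℝ) → ℝ} (hN : Frm π N)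
    {A C : ℝ → ((Fin n → ℝ) →ᵇ ℝ)} {A' C' : (Fin n → ℝ) →ᵇ ℝ} {s : Set ℝ} {r : ℝ} (hA : L2D π A A' s r)
    (hC : L2D π C C' s r) : (fun t => N (l2r A A' r t) (l2r C C' r t)) =o[𝓝[s] r] fun t => t - r := by
  rw [isLittleO_iff]
  intro c hc
  have h3 : ∀ᶠ t in 𝓝[s] r, |t - r| < 1 := by
    refine mem_nhdsWithin_of_mem_nhds ?_
    filter_upwards [Metric.ball_mem_nhds r one_pos] with t ht
    rwa [Metric.mem_ball, Real.dist_eq] at ht
  filter_upwards [l2r_small hN hA hc, l2r_small hN hC hc, h3] with t ht ht' h3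
  rw [Real.norm_eq_abs, Real.norm_eq_abs]
  have h1 := frm_cs hN (l2r A A' r t) (l2r C C' r t)
  have h2 : N (l2r A A' r t) (l2r C C' r t) ^ 2 ≤ (c * (t - r) ^ 2) ^ 2 := by
    calc N (l2r A A' r t) (l2r C C' r t) ^ 2
        ≤ N (l2r A A' r t) (l2r A A' r t) * N (l2r C C' r t) (l2r C C' r t) := h1
      _ ≤ (c * (t - r) ^ 2) * (c * (t - r) ^ 2) :=
          mul_le_mul ht ht' (hN.pos _) (by positivity)
      _ = (c * (t - r) ^ 2) ^ 2 := by ring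
  have h4 := abs_le_of_sq_le_sq h2 (by positivity)
  refine h4.trans ?_
  refine mul_le_mul_of_nonneg_left ?_ hc.le
  rw [← sq_abs]
  nlinarith [abs_nonneg (t - r)]

theorem l2d_frm {π : Measure (Fin n → ℝ)} [IsFiniteMeasure π]
    {N : ((Fin n → ℝ) →ᵇ ℝ) → ((Fin n → ℝ) →ᵇ ℝ) → ℝ} (hN : Frm π N) {A C : ℝ → ((Fin n → ℝ) →ᵇ ℝ)}
    {A' C' : (Fin n → ℝ) →ᵇ ℝ} {s : Set ℝ} {r : ℝ} (hA : L2D π A A' s r) (hC : L2D π C C' s r) :
    HasDerivWithinAt (fun t => N (A t) (C t)) (N A' (C r) + N (A r) C') s r := by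
  rw [hasDerivWithinAt_iff_isLittleO]
  have hadd := hN.add
  have hsm := hN.smul
  have hsy := hN.symm
  have hadd' : ∀ f g h, N f (g + h) = N f g + N f h := fun f g h => by
    rw [hsy, hadd, hsy g, hsy h]
  have hsm' : ∀ (c : ℝ) f g, N f (c • g) = c * N f g := fun c f g => by
    rw [hsy, hsm, hsy]
  have e1 : ∀ t, A t = A r + ((t - r) • A' + l2r A A' r t) := fun t => by
    unfold l2r; abel
  have e2 : ∀ t, C t = C r + ((t - r) • C' + l2r C C' r t) := fun t => by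
    unfold l2r; abel
  have key : ∀ t, N (A t) (C t) - N (A r) (C r) - (t - r) • (N A' (C r) + N (A r) C') =
      (((((t - r) * (t - r)) * N A' C' + N (l2r A A' r t) (C r)) + (t - r) * N (l2r A A' r t) C') +
        (N (l2r C C' r t) (A r) + (t - r) * N (l2r C C' r t) A')) +
        N (l2r A A' r t) (l2r C C' r t) := fun t => by
    rw [e1 t, e2 t]
    simp only [hadd, hadd', hsm, hsm', smul_eq_mul]
    rw [hsy (A r) (l2r C C' r t), hsy A' (l2r C C' r t)]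
    have e3 : l2r A A' r t = l2r A A' r t := rfl
    ring
  have hh : (fun t : ℝ => t - r) =o[𝓝[s] r] fun _ => (1 : ℝ) := by
    rw [isLittleO_one_iff]
    have : Tendsto (fun t : ℝ => t - r) (𝓝 r) (𝓝 (r - r)) := tendsto_id.sub_const r
    rw [sub_self] at this
    exact this.mono_left nhdsWithin_le_nhds
  have hb : (fun t : ℝ => t - r) =O[𝓝[s] r] fun _ => (1 : ℝ) := hh.isBigO
  have hmul : ∀ {F : ℝ → ℝ}, F =o[𝓝[s] r] (fun t => t - r) →
      (fun t => (t - r) * F t) =o[𝓝[s] r] fun t => t - r := fun {F} hF => by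
    simpa using hb.mul_isLittleO hF
  have hsq : (fun t : ℝ => (t - r) * (t - r)) =o[𝓝[s] r] fun t => t - r := by
    simpa using hh.mul_isBigO (isBigO_refl (fun t : ℝ => t - r) (𝓝[s] r))
  have h6 : (fun t : ℝ => ((t - r) * (t - r)) * N A' C') =o[𝓝[s] r] fun t => t - r := by
    simpa [mul_comm] using hsq.const_mul_left (N A' C')
  refine IsLittleO.congr_left ?_ fun t => (key t).symm
  exact ((((h6.add (l2r_lo hN hA (C r))).add (hmul (l2r_lo hN hA C'))).add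
    ((l2r_lo hN hC (A r)).add (hmul (l2r_lo hN hC A')))).add (l2r_lo2 hN hA hC))

/-- reflection of time -/
theorem l2d_refl {π : Measure (Fin n → ℝ)} {A : ℝ → ((Fin n → ℝ) →ᵇ ℝ)} {A' : (Fin n → ℝ) →ᵇ ℝ} {s s' : Set ℝ}
    {r T : ℝ} (hA : L2D π A A' s (T - r)) (hs : ∀ t ∈ s', T - t ∈ s) :
    L2D π (fun t => A (T - t)) (-A') s' r := by
  intro ε hε
  obtain ⟨δ, hδ, h⟩ := hA ε hε
  refine ⟨δ, hδ, fun t ht h1 => ?_⟩
  have h2 := h (T - t) (hs t ht) (by rw [sub_sub_sub_cancel_left, abs_sub_comm]; exact h1)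
  have e : (T - t - (T - r)) ^ 2 = (t - r) ^ 2 := by ring
  rw [e] at h2
  refine le_trans (le_of_eq ?_) h2
  refine integral_congr_ae (Eventually.of_forall fun x => ?_)
  show (A (T - t) x - A (T - r) x - (t - r) * (-A') x) ^ 2 =
    (A (T - t) x - A (T - r) x - (T - t - (T - r)) * A' x) ^ 2
  rw [BoundedContinuousFunction.neg_apply]
  ring

end Pool.Agent.SGP
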