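import Pool.Agent.SGP.RS2
import Pool.Agent.SGP.L2D

/-!
# GDR: the semigroup is differentiable in `L²` on the range of the resolvent

Proof. `h = rs α f`, `k = α • h - f`. For `r, t ≥ 0`: `ptb t h x - ptb r h x = ∫_r^t pt s k x ds` (`rs_dyn` at the times `t` and
`r`). Hence `(ptb t h x - ptb r h x - (t-r) ptb r k x)^2 = (∫_r^t (pt s k x - pt r k x) ds)^2 ≤
|t - r| |∫_r^t (pt s k x - pt r k x)^2 ds|`; integrate over `π` (Fubini) and use `ptb_l2_cont`: `≤ ε (t-r)^2` for
`|t - r| < δ`.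
-/

open MeasureTheory ProbabilityTheory Set Filter Topology
open scoped ENNReal NNReal BoundedContinuousFunction

namespace Pool.Agent.SGP

open Pool.Agent.OYG

/-- Cauchy-Schwarz for a finite measure -/
private theorem gdr_sq_int_le {ι : Type*} [MeasurableSpace ι] (ν : Measure ι) [IsFiniteMeasure ν] {φ : ι → ℝ}
    (h1 : Integrable φ ν) (h2 : Integrable (fun s => φ s ^ 2) ν) :
    (∫ s, φ s ∂ν) ^ 2 ≤ ν.real univ * ∫ s, φ s ^ 2 ∂ν := by
  set m := ν.real univ with hm
  set I := ∫ s, φ s ∂ν with hI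
  have hm0 : 0 ≤ m := measureReal_nonneg
  rcases hm0.eq_or_lt with h0 | hpos
  · have hν : ν = 0 := by
      rw [← Measure.measure_univ_eq_zero]
      have h3 : ν.real univ = 0 := h0.symm
      rwa [measureReal_eq_zero_iff] at h3
    have : I = 0 := by rw [hI, hν]; simp
    rw [this, ← h0]
    simp
  · have h3 : 0 ≤ ∫ s, (m * φ s - I) ^ 2 ∂ν := integral_nonneg fun s => sq_nonneg _
    have h4 : ∫ s, (m * φ s - I) ^ 2 ∂ν = m ^ 2 * ∫ s, φ s ^ 2 ∂ν - 2 * m * I * I + I ^ 2 * m := by
      have e : (fun s => (m * φ s - I) ^ 2) = fun s => m ^ 2 * φ s ^ 2 - 2 * m * I * φ s + I ^ 2 := by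
        funext s; ring
      have i1 : Integrable (fun s => m ^ 2 * φ s ^ 2 - 2 * m * I * φ s) ν :=
        (h2.const_mul _).sub (h1.const_mul _)
      rw [e, integral_add i1 (integrable_const _), integral_sub (h2.const_mul _) (h1.const_mul _),
        integral_const_mul, integral_const_mul, integral_const, smul_eq_mul, ← hm, ← hI]
      ring
    rw [h4] at h3
    have h5 : 0 ≤ m * (m * ∫ s, φ s ^ 2 ∂ν - I ^ 2) := by nlinarith
    have h6 := nonneg_of_mul_nonneg_right h5 hpos
    linarith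

variable {n : ℕ} {Ω : Type*} [MeasurableSpace Ω] {P : Measure Ω} {μ : Fin (n + 1) → ℝ} {u : ℝ → ℝ}
  {B : Fin (n + 1) → ℝ≥0 → Ω → ℝ} {G : (Fin n → ℝ) → ℝ≥0 → Ω → Fin n → ℝ}

theorem ptb_l2d (S : Sys P n μ u B G) {π : Measure (Fin n → ℝ)} (hπ : IsStat P G π) {α : ℝ} (hα : 0 < α)
    (f : (Fin n → ℝ) →ᵇ ℝ) {r : ℝ} (hr : 0 ≤ r) :
    L2D π (fun t => ptb S t.toNNReal (rs S hα f)) (ptb S r.toNNReal (α • rs S hα f - f)) (Ici 0) r := by
  have hp := hπ.prob
  set h := rs S hα f with hh
  set k := α • h - f with hk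
  intro ε hε
  have hc := ptb_l2_cont S hπ r.toNNReal k
  have hev : ∀ᶠ s in 𝓝 r.toNNReal, ∫ x, (ptb S s k x - ptb S r.toNNReal k x) ^ 2 ∂π < ε :=
    hc.eventually (gt_mem_nhds hε)
  have hev2 := (continuous_real_toNNReal.tendsto r).eventually hev
  obtain ⟨δ, hδ, hb⟩ := Metric.eventually_nhds_iff.1 hev2
  refine ⟨δ, hδ, fun t ht htr => ?_⟩
  have ht0 : 0 ≤ t := ht
  -- dynamics
  have hdyn : ∀ s : ℝ, 0 ≤ s → ∀ x, ptb S s.toNNReal h x - h x = ∫ q in (0 : ℝ)..s, pt P G q.toNNReal k x := by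
    intro s hs x
    have := rs_dyn S hα s.toNNReal f x
    rwa [Real.coe_toNNReal s hs] at this
  have hkc : ∀ x, Continuous fun q : ℝ => pt P G q.toNNReal k x := fun x =>
    (pt_cont S k).comp (continuous_real_toNNReal.prodMk continuous_const)
  set ν : Measure ℝ := volume.restrict (uIoc r t) with hν
  have hνf : IsFiniteMeasure ν := ⟨by
    rw [hν, Measure.restrict_apply_univ]
    exact (measure_mono Ioc_subset_Icc_self).trans_lt isCompact_Icc.measure_lt_top⟩
  have hνu : ν.real univ = |t - r| := by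
    rw [hν, measureReal_def, Measure.restrict_apply_univ, uIoc, Real.volume_Ioc, max_sub_min_eq_abs',
      ENNReal.toReal_ofReal (abs_nonneg _), abs_sub_comm]
  set Φ : ℝ → (Fin n → ℝ) → ℝ := fun s x => pt P G s.toNNReal k x - pt P G r.toNNReal k x with hΦ
  have hΦc : Continuous fun p : (Fin n → ℝ) × ℝ => Φ p.2 p.1 :=
    ((pt_cont S k).comp ((continuous_real_toNNReal.comp continuous_snd).prodMk continuous_fst)).sub
      ((pt_cont S k).comp (continuous_const.prodMk continuous_fst))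
  have hΦb : ∀ s x, |Φ s x| ≤ 2 * ‖k‖ := by
    intro s x
    have h1 := pt_le S k s.toNNReal x
    have h2 := pt_le S k r.toNNReal x
    calc |Φ s x| ≤ |pt P G s.toNNReal k x| + |pt P G r.toNNReal k x| := abs_sub _ _
      _ ≤ 2 * ‖k‖ := by linarith
  have hD : ∀ x, ptb S t.toNNReal h x - ptb S r.toNNReal h x - (t - r) * ptb S r.toNNReal k x =
      ∫ s in r..t, Φ s x := by
    intro x
    have i1 : ∀ a b : ℝ, IntervalIntegrable (fun q : ℝ => pt P G q.toNNReal k x) volume a b := fun a b =>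
      (hkc x).intervalIntegrable _ _
    rw [hΦ, intervalIntegral.integral_sub (i1 _ _) intervalIntegrable_const,
      intervalIntegral.integral_const, smul_eq_mul]
    have h1 := hdyn t ht0 x
    have h2 := hdyn r hr x
    have h3 := intervalIntegral.integral_interval_sub_left (i1 0 t) (i1 0 r)
    rw [ptb_apply] at *
    rw [ptb_apply] at *
    rw [ptb_apply] at *
    linarith
  have hDsq : ∀ x, (ptb S t.toNNReal h x - ptb S r.toNNReal h x - (t - r) * ptb S r.toNNReal k x) ^ 2 ≤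
      |t - r| * ∫ s, Φ s x ^ 2 ∂ν := by
    intro x
    have hx : Continuous fun s => Φ s x := hΦc.comp (continuous_const.prodMk continuous_id)
    have j1 : Integrable (fun s => Φ s x) ν :=
      Integrable.of_bound hx.aestronglyMeasurable (2 * ‖k‖) (Eventually.of_forall fun s => hΦb s x)
    have j2 : Integrable (fun s => Φ s x ^ 2) ν :=
      Integrable.of_bound (hx.pow 2).aestronglyMeasurable ((2 * ‖k‖) ^ 2) (Eventually.of_forall fun s => by
        rw [Real.norm_eq_abs, abs_pow]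
        exact pow_le_pow_left₀ (abs_nonneg _) (hΦb s x) 2)
    have h1 := gdr_sq_int_le ν j1 j2
    rw [hνu] at h1
    rw [hD x, ← sq_abs, intervalIntegral.abs_intervalIntegral_eq, sq_abs]
    exact h1
  have hprod : Integrable (fun p : (Fin n → ℝ) × ℝ => Φ p.2 p.1 ^ 2) (π.prod ν) :=
    Integrable.of_bound (hΦc.pow 2).aestronglyMeasurable ((2 * ‖k‖) ^ 2) (Eventually.of_forall fun p => by
      rw [Real.norm_eq_abs, abs_pow]
      exact pow_le_pow_left₀ (abs_nonneg _) (hΦb p.2 p.1) 2)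
  have hsl : ∀ s ∈ uIoc r t, ∫ x, Φ s x ^ 2 ∂π ≤ ε := by
    intro s hs
    have h1 : dist s r < δ := by
      rw [Real.dist_eq]
      have h2 := abs_sub_left_of_mem_uIcc (uIoc_subset_uIcc hs)
      exact lt_of_le_of_lt h2 htr
    exact (hb h1).le
  calc ∫ x, (ptb S t.toNNReal h x - ptb S r.toNNReal h x - (t - r) * ptb S r.toNNReal k x) ^ 2 ∂π
      ≤ ∫ x, |t - r| * ∫ s, Φ s x ^ 2 ∂ν ∂π :=
        integral_mono_of_nonneg (Eventually.of_forall fun x => sq_nonneg _)
          (hprod.integral_prod_left.const_mul _) (Eventually.of_forall hDsq)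
    _ = |t - r| * ∫ s, ∫ x, Φ s x ^ 2 ∂π ∂ν := by
        rw [integral_const_mul, integral_integral_swap hprod]
    _ ≤ |t - r| * ∫ s, ε ∂ν := by
        refine mul_le_mul_of_nonneg_left ?_ (abs_nonneg _)
        refine integral_mono_ae hprod.integral_prod_right (integrable_const _) ?_
        rw [hν]
        filter_upwards [ae_restrict_mem measurableSet_uIoc] with s hs
        exact hsl s hs
    _ = ε * (t - r) ^ 2 := by
        rw [integral_const, hνu, smul_eq_mul, ← sq_abs (t - r)]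
        ring

end Pool.Agent.SGP
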