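import Pool.Agent.SGP.NIN

/-!
# NLA: the form of the last coordinate

`n = l + 1`, `NL f g = ∫ (Q_l f - Q_{l+1} f)(Q_l g - Q_{l+1} g)`, `Q_{l+1} f` is the mean of `f`.

Proof of `nla`. `q = Q_l - Q_{l+1}` is the block `pq l l` (`ql_eq`), a symmetric idempotent. `NL (LL φ) φ = ∫ LL φ * q φ =
-∑_i ∫ (∂_i φ - ∂_{i+1} φ) ∂_i (q φ)` by `ibp`, and `∂_i (q φ) = 0` for `i ≠ l`, `∂_l (q φ) = Q_l ∂_l φ` (`pq_der`). So it
equals `-∫ ∂_l φ * Q_l ∂_l φ = -∫ (Q_l ∂_l φ)^2` (`nxt` of the last index is `0`). By `nin_poi`: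
`gap_l ∫ (q φ)^2 ≤ ∫ (Q_l ∂_l φ)^2`.
-/

open MeasureTheory ProbabilityTheory Set Filter Topology
open scoped ENNReal NNReal BoundedContinuousFunction

namespace Pool.Agent.SGP

variable {l : ℕ} {μ : Fin (l + 1 + 1) → ℝ} {u : ℝ → ℝ}

/-- the centred projection to the last coordinate -/
noncomputable def ql (ν : Fin (l + 1) → Measure ℝ) [∀ i, IsProbabilityMeasure (ν i)] :
    ((Fin (l + 1) → ℝ) →ᵇ ℝ) →ₗ[ℝ] ((Fin (l + 1) → ℝ) →ᵇ ℝ) := Qtl ν l - Qtl ν (l + 1)

/-- the form of the last coordinate -/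
noncomputable def NL (ν : Fin (l + 1) → Measure ℝ) [∀ i, IsProbabilityMeasure (ν i)]
    (f g : (Fin (l + 1) → ℝ) →ᵇ ℝ) : ℝ := ∫ x, ql ν f x * ql ν g x ∂(Measure.pi ν)

theorem nl_frm (ν : Fin (l + 1) → Measure ℝ) [∀ i, IsProbabilityMeasure (ν i)] : Frm (Measure.pi ν) (NL ν) := by
  have h := frm_l2 (Measure.pi ν)
  refine ⟨fun f g k => ?_, fun c f g => ?_, fun f g => ?_, fun f => ?_, 4, by norm_num, fun f => ?_⟩
  · unfold NL
    rw [map_add]
    exact h.add _ _ _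
  · unfold NL
    rw [map_smul]
    exact h.smul _ _ _
  · exact h.symm _ _
  · exact h.pos _
  · have isq : ∀ k : (Fin (l + 1) → ℝ) →ᵇ ℝ, Integrable (fun x => k x ^ 2) (Measure.pi ν) := fun k => by
      refine ((k * k).integrable (Measure.pi ν)).congr (Eventually.of_forall fun x => ?_)
      show k x * k x = k x ^ 2
      ring
    have h1 : NL ν f f ≤ ∫ x, (2 * Qtl ν l f x ^ 2 + 2 * Qtl ν (l + 1) f x ^ 2) ∂(Measure.pi ν) := by
      unfold NL
      refine integral_mono ((ql ν f * ql ν f).integrable (Measure.pi ν))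
        (((isq _).const_mul 2).add ((isq _).const_mul 2)) fun x => ?_
      show (Qtl ν l f x - Qtl ν (l + 1) f x) * (Qtl ν l f x - Qtl ν (l + 1) f x) ≤
        2 * Qtl ν l f x ^ 2 + 2 * Qtl ν (l + 1) f x ^ 2
      nlinarith [sq_nonneg (Qtl ν l f x + Qtl ν (l + 1) f x)]
    rw [integral_add ((isq _).const_mul 2) ((isq _).const_mul 2), integral_const_mul, integral_const_mul] at h1
    have h2 : ∫ x, Qtl ν l f x ^ 2 ∂(Measure.pi ν) ≤ ∫ x, f x ^ 2 ∂(Measure.pi ν) := es_l2 ν _ f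
    have h3 : ∫ x, Qtl ν (l + 1) f x ^ 2 ∂(Measure.pi ν) ≤ ∫ x, f x ^ 2 ∂(Measure.pi ν) := es_l2 ν _ f
    linarith

theorem pp_top (ν : Fin (l + 1) → Measure ℝ) [∀ i, IsProbabilityMeasure (ν i)] (f : (Fin (l + 1) → ℝ) →ᵇ ℝ) :
    Pp ν (l + 1) f = f := by
  unfold Pp
  have : (Finset.univ.filter fun i : Fin (l + 1) => (i : ℕ) < l + 1) = Finset.univ := by
    ext i
    simp only [Finset.mem_filter, Finset.mem_univ, true_and, iff_true]
    exact i.2
  rw [this]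
  exact es_univ ν f

theorem ql_eq (ν : Fin (l + 1) → Measure ℝ) [∀ i, IsProbabilityMeasure (ν i)] (f : (Fin (l + 1) → ℝ) →ᵇ ℝ) :
    ql ν f = pq ν l l f := by
  have h1 : Pp ν l (Qtl ν l f) = Pp ν l (Qtl ν (l + 1) f) := by
    rw [ppqq, ppqq]
    congr 2
    ext i
    simp only [Finset.mem_inter, Finset.mem_filter, Finset.mem_univ, true_and]
    omega
  rw [pq_expand, pp_top, pp_top, h1]
  show Qtl ν l f - Qtl ν (l + 1) f = _
  abel

theorem nla (hu : Pot u) (hμ : ∀ i : Fin (l + 1), μ i.succ < μ i.castSucc)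
    [∀ i, IsProbabilityMeasure (nf u μ i)] {φ : (Fin (l + 1) → ℝ) → ℝ} (hφ : IsTest φ) :
    NL (nf u μ) (Lb hu μ hφ) (tb hφ) ≤ -(gap u (rel μ (Fin.last l)) * NL (nf u μ) (tb hφ) (tb hφ)) := by
  have hp : IsProbabilityMeasure (PI u μ) := PI_prob hu hμ
  have hlast : Fin.last l = (⟨l, Nat.lt_succ_self l⟩ : Fin (l + 1)) := rfl
  have h1 := nin_poi hu hμ l l (Fin.last l) hφ (erase_pq_a (nf u μ) l l (Nat.lt_succ_self l) (tb hφ))
  have e1 : NL (nf u μ) (tb hφ) (tb hφ) = ∫ x, pq (nf u μ) l l (tb hφ) x ^ 2 ∂(PI u μ) := by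
    unfold NL
    rw [ql_eq]
    refine integral_congr_ae (Eventually.of_forall fun x => ?_)
    exact (sq _).symm
  have e2 : NL (nf u μ) (Lb hu μ hφ) (tb hφ) = ∫ x, LL u μ φ x * pq (nf u μ) l l (tb hφ) x ∂(PI u μ) := by
    unfold NL
    rw [ql_eq, ql_eq]
    have h2 := pq_symm (nf u μ) l l (Lb hu μ hφ) (pq (nf u μ) l l (tb hφ))
    rw [pq_idem] at h2
    exact h2
  have h3 := ibp hu hμ hφ (h := pq (nf u μ) l l (tb hφ)) (pq_contDiff (nf u μ) l l hφ)
  rw [e2, e1, neg_mul_eq_mul_neg, mul_neg]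
  refine h3.trans_le ?_
  rw [neg_le_neg_iff]
  refine h1.trans (le_of_eq ?_)
  rw [Finset.sum_eq_single (Fin.last l)]
  · have hP : PQi (Pp (nf u μ)) (Qtl (nf u μ)) (Fin.last l : Fin (l + 1)) l l (db hφ (ev (Fin.last l))) =
        Qtl (nf u μ) l (db hφ (ev (Fin.last l))) := by
      unfold PQi ppi qqi
      simp only [Fin.val_last, lt_irrefl, if_false, if_true, LinearMap.comp_apply]
      exact pp_top (nf u μ) _
    have h4 : ∀ x, fderiv ℝ φ x (dv (Fin.last l)) = db hφ (ev (Fin.last l)) x := by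
      intro x
      rw [clm_dv]
      unfold nxt
      simp
    have h5 : ∀ x, fderiv ℝ (pq (nf u μ) l l (tb hφ)) x (ev (Fin.last l)) =
        Qtl (nf u μ) l (db hφ (ev (Fin.last l))) x := by
      intro x
      rw [pq_der, hP]
    rw [hP]
    simp only [h4, h5]
    have h6 := es_symm (nf u μ) (Finset.univ.filter fun i : Fin (l + 1) => l ≤ (i : ℕ))
      (db hφ (ev (Fin.last l))) (Qtl (nf u μ) l (db hφ (ev (Fin.last l))))
    have h7 := qq_qq (nf u μ) l l (db hφ (ev (Fin.last l)))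
    rw [max_self] at h7
    have h8 : ES (nf u μ) (Finset.univ.filter fun i : Fin (l + 1) => l ≤ (i : ℕ))
      (Qtl (nf u μ) l (db hφ (ev (Fin.last l)))) = Qtl (nf u μ) l (db hφ (ev (Fin.last l))) := h7
    rw [h8] at h6
    exact h6
  · intro i _ hi
    have hil : (i : ℕ) < l := by
      have h4 := i.2
      have h5 : (i : ℕ) ≠ l := fun h => hi (Fin.ext h)
      omega
    have h4 : ∀ x, fderiv ℝ (pq (nf u μ) l l (tb hφ)) x (ev i) = 0 := by
      intro x
      rw [pq_der]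
      have h5 : qqi (Qtl (nf u μ)) (i : ℕ) l = 0 := by
        unfold qqi
        rw [if_neg (by omega), if_neg (by omega)]
      unfold PQi
      rw [h5, LinearMap.comp_zero]
      rfl
    simp only [h4, mul_zero, integral_zero]
  · intro h
    exact absurd (Finset.mem_univ _) h

end Pool.Agent.SGP
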