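import Pool.Agent.SGP.RS2
import Pool.Agent.SGP.EIG
import Pool.Agent.SGP.NLA
import Pool.Agent.SGP.GDR
import Pool.Agent.SGP.DER

/-!
# DUA: the eigenfunction of the last coordinate is a left eigenfunction of the semigroup

`V x = v (x_l)`, `Var`.. all in `L²(PI)`; `x ↦ x_l` maps `PI` to `nu_l` (`measurePreserving_eval`).

Proofs. (`dual_test`) `∫ LL φ * V = -λ ∫ φ V` for test functions: `ibp` with `h x = f k (x_l) - c k` (`C^1`):
`∫ LL φ * (f k (x_l) - c k) = -∑_i ∫ Dφ (dv i) ∂_i h = -∫ ∂_l φ (x) f_k' (x_l)` (`dv l = ev l`)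
`= -∫ Φ' f_k' dν_l`, where `Φ s = ∫ φ (update x l s) dπ(x)` (that is `Qtl l (tb φ)`, a function of `x_l` only; `C^1` with
compact support, `Φ' = Qtl l (∂_l φ)`). As `k → ∞`: right side `→ -λ ∫ v Φ dν_l = -λ ∫ φ V`; left side `→ ∫ LL φ * V`
(`conv`, Cauchy-Schwarz, `LL φ` bounded).
(`dual_rs`) with `h = rs α f` and `gen_approx`: `∫ (α h - f) V = lim ∫ LL φ_k V = -λ lim ∫ φ_k V = -λ ∫ h V`, so
`(α + λ) ∫ h V = ∫ f V`.
(`dual`) `α = 1`, `F t = ∫ ptb t h V` with `h = rs 1 f`; `rs_dyn` and Fubini: `F t - F 0 = ∫_0^t ∫ ptb s (h - f) V ds`,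
and `∫ ptb s f V = (1 + λ) ∫ rs 1 (ptb s f) V = (1 + λ) F s` (`dual_rs`, `rs_comm`); so `F t - F 0 = -λ ∫_0^t F`. `F` is
continuous (`ptb_l2_cont`), hence `F t = exp (-λ t) F 0`, and `∫ ptb t f V = (1 + λ) F t = exp (-λ t) ∫ f V`
(`1 + λ > 0`).
-/

open MeasureTheory ProbabilityTheory Set Filter Topology
open scoped ENNReal NNReal BoundedContinuousFunction

namespace Pool.Agent.SGP

open Pool.Agent.OYG

variable {l : ℕ} {Ω : Type*} [MeasurableSpace Ω] {P : Measure Ω} {μ : Fin (l + 1 + 1) → ℝ} {u : ℝ → ℝ}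
  {B : Fin (l + 1 + 1) → ℝ≥0 → Ω → ℝ} {G : (Fin (l + 1) → ℝ) → ℝ≥0 → Ω → Fin (l + 1) → ℝ}

/-- Cauchy-Schwarz -/
private theorem dua_cs {E : Type*} [MeasurableSpace E] {π : Measure E} {a b : E → ℝ} (ha : MemLp a 2 π)
    (hb : MemLp b 2 π) : (∫ x, a x * b x ∂π) ^ 2 ≤ (∫ x, a x ^ 2 ∂π) * ∫ x, b x ^ 2 ∂π := by
  have i1 : Integrable (fun x => a x ^ 2) π := ha.integrable_sq
  have i2 : Integrable (fun x => b x ^ 2) π := hb.integrable_sq
  have i3 : Integrable (fun x => a x * b x) π := ha.integrable_mul hb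
  have h : ∀ s : ℝ, 0 ≤ (∫ x, a x ^ 2 ∂π) * (s * s) + (2 * ∫ x, a x * b x ∂π) * s + ∫ x, b x ^ 2 ∂π := by
    intro s
    have h1 : 0 ≤ ∫ x, (s * a x + b x) ^ 2 ∂π := integral_nonneg fun x => sq_nonneg _
    have h2 : ∫ x, (s * a x + b x) ^ 2 ∂π =
        (∫ x, a x ^ 2 ∂π) * (s * s) + (2 * ∫ x, a x * b x ∂π) * s + ∫ x, b x ^ 2 ∂π := by
      have e : (fun x => (s * a x + b x) ^ 2) =
          fun x => ((s * s) * a x ^ 2 + (2 * s) * (a x * b x)) + b x ^ 2 := by
        funext x; ring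
      have i4 : Integrable (fun x => (s * s) * a x ^ 2 + (2 * s) * (a x * b x)) π :=
        (i1.const_mul _).add (i3.const_mul _)
      rw [e, integral_add i4 i2, integral_add (i1.const_mul _) (i3.const_mul _), integral_const_mul,
        integral_const_mul]
      ring
    rw [h2] at h1
    exact h1
  have h3 := discrim_le_zero h
  unfold discrim at h3
  nlinarith

/-- `∫ g h_k → ∫ g V` if `h_k → V` in `L²` -/
private theorem dua_tend {E : Type*} [MeasurableSpace E] {π : Measure E} {h : ℕ → E → ℝ} {V g : E → ℝ}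
    (hh : ∀ k, MemLp (h k) 2 π) (hV : MemLp V 2 π) (hg : MemLp g 2 π)
    (hc : Tendsto (fun k => ∫ x, (h k x - V x) ^ 2 ∂π) atTop (𝓝 0)) :
    Tendsto (fun k => ∫ x, g x * h k x ∂π) atTop (𝓝 (∫ x, g x * V x ∂π)) := by
  rw [tendsto_iff_norm_sub_tendsto_zero]
  have h1 : Tendsto (fun k => √((∫ x, g x ^ 2 ∂π) * ∫ x, (h k x - V x) ^ 2 ∂π)) atTop (𝓝 0) := by
    have h2 := (hc.const_mul (∫ x, g x ^ 2 ∂π))
    have h3 := (Real.continuous_sqrt.tendsto _).comp h2
    rw [mul_zero, Real.sqrt_zero] at h3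
    exact h3
  refine squeeze_zero (fun k => norm_nonneg _) (fun k => ?_) h1
  have h4 : ∫ x, g x * h k x ∂π - ∫ x, g x * V x ∂π = ∫ x, g x * (h k x - V x) ∂π := by
    have j1 : Integrable (fun x => g x * h k x) π := hg.integrable_mul (hh k)
    have j2 : Integrable (fun x => g x * V x) π := hg.integrable_mul hV
    rw [← integral_sub j1 j2]
    refine integral_congr_ae (Eventually.of_forall fun x => ?_)
    show g x * h k x - g x * V x = g x * (h k x - V x)
    ring
  rw [h4, Real.norm_eq_abs]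
  exact Real.abs_le_sqrt (dua_cs hg ((hh k).sub hV))

private theorem dua_bcf {E : Type*} [TopologicalSpace E] [MeasurableSpace E] [BorelSpace E] {π : Measure E}
    [IsFiniteMeasure π] (f : E →ᵇ ℝ) : MemLp (fun x => f x) 2 π :=
  MemLp.of_bound f.continuous.measurable.aestronglyMeasurable ‖f‖
    (Eventually.of_forall fun x => f.norm_coe_le_norm x)

private theorem dua_mp (hu : Pot u) (hμ : ∀ i : Fin (l + 1), μ i.succ < μ i.castSucc) :
    MeasurePreserving (fun x : Fin (l + 1) → ℝ => x (Fin.last l)) (PI u μ) (nu u (rel μ (Fin.last l))) := by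
  have hp : ∀ i, IsProbabilityMeasure (nu u (rel μ i)) := fun i => nu_prob hu (rel_pos hμ i)
  exact measurePreserving_eval (fun i => nu u (rel μ i)) (Fin.last l)

theorem memLp_last (hu : Pot u) (hμ : ∀ i : Fin (l + 1), μ i.succ < μ i.castSucc) {v : ℝ → ℝ}
    (hv : MemLp v 2 (nu u (rel μ (Fin.last l)))) :
    MemLp (fun x : Fin (l + 1) → ℝ => v (x (Fin.last l))) 2 (PI u μ) :=
  hv.comp_measurePreserving (dua_mp hu hμ)

theorem integral_last (hu : Pot u) (hμ : ∀ i : Fin (l + 1), μ i.succ < μ i.castSucc) (g : ℝ → ℝ) (hg : Measurable g) :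
    ∫ x, g (x (Fin.last l)) ∂(PI u μ) = ∫ s, g s ∂(nu u (rel μ (Fin.last l))) := by
  have h := dua_mp (u := u) hu hμ
  rw [← h.map_eq, integral_map h.measurable.aemeasurable hg.aestronglyMeasurable]

/-- a function of the last coordinate as a bounded continuous function -/
private noncomputable def lastB {ψ : ℝ → ℝ} (hψ : Continuous ψ) {C : ℝ} (hC : ∀ s, |ψ s| ≤ C) :
    (Fin (l + 1) → ℝ) →ᵇ ℝ :=
  BoundedContinuousFunction.ofNormedAddCommGroup (fun x => ψ (x (Fin.last l)))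
    (hψ.comp (continuous_apply _)) C (fun _ => hC _)

private theorem lastB_es {ψ : ℝ → ℝ} (hψ : Continuous ψ) {C : ℝ} (hC : ∀ s, |ψ s| ≤ C)
    (ν : Fin (l + 1) → Measure ℝ) [∀ i, IsProbabilityMeasure (ν i)] :
    ES ν {Fin.last l} (lastB (l := l) hψ hC) = lastB hψ hC := by
  ext x
  rw [es_apply]
  have : ∀ y : Fin (l + 1) → ℝ, lastB (l := l) hψ hC (mix {Fin.last l} x y) = lastB hψ hC x := by
    intro y
    show ψ (mix {Fin.last l} x y (Fin.last l)) = ψ (x (Fin.last l))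
    simp [mix]
  simp [this]

theorem dual_test (hu : Pot u) (hμ : ∀ i : Fin (l + 1), μ i.succ < μ i.castSucc) {lam : ℝ} {v : ℝ → ℝ}
    {f : ℕ → ℝ → ℝ} {c : ℕ → ℝ} (hE : Eig u (rel μ (Fin.last l)) lam v f c) {φ : (Fin (l + 1) → ℝ) → ℝ}
    (hφ : IsTest φ) :
    ∫ x, LL u μ φ x * v (x (Fin.last l)) ∂(PI u μ) = -(lam * ∫ x, φ x * v (x (Fin.last l)) ∂(PI u μ)) := by
  classical
  have hp : ∀ i, IsProbabilityMeasure (nu u (rel μ i)) := fun i => nu_prob hu (rel_pos hμ i)
  have hpp : IsProbabilityMeasure (PI u μ) := PI_prob hu hμ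
  set ν : Fin (l + 1) → Measure ℝ := fun i => nu u (rel μ i) with hν
  have hPI : PI u μ = Measure.pi ν := rfl
  set L : Fin (l + 1) := Fin.last l with hL
  set Ψ := ES ν {L} (tb hφ) with hΨ
  set Ψ' := ES ν {L} (db hφ (ev L)) with hΨ'
  set Φ : ℝ → ℝ := fun s => Ψ (fun _ => s) with hΦ
  set Φ' : ℝ → ℝ := fun s => Ψ' (fun _ => s) with hΦ'
  have hes : ∀ (g : (Fin (l + 1) → ℝ) →ᵇ ℝ) (x : Fin (l + 1) → ℝ),
      ES ν {L} g x = ES ν {L} g (fun _ => x L) := by
    intro g x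
    rw [es_apply, es_apply]
    congr 1
    funext y
    congr 1
    funext i
    unfold mix
    by_cases h : i ∈ ({L} : Finset (Fin (l + 1)))
    · rw [if_pos h, if_pos h, Finset.mem_singleton.mp h]
    · rw [if_neg h, if_neg h]
  have hdiag : ∀ s : ℝ, HasDerivAt (fun s : ℝ => (fun _ : Fin (l + 1) => s)) (fun _ => 1) s := fun s =>
    hasDerivAt_pi.mpr fun _ => hasDerivAt_id s
  have hdc : Continuous fun s : ℝ => (fun _ : Fin (l + 1) => s) := continuous_pi fun _ => continuous_id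
  have hmL : mixL {L} (fun _ : Fin (l + 1) => (1 : ℝ)) = ev L := by
    funext i
    rw [mixL_apply]
    by_cases h : i = L
    · subst h
      simp [ev]
    · simp [ev, h]
  have hΦd : ∀ s, HasDerivAt Φ (Φ' s) s := by
    intro s
    have h1 : HasFDerivAt (ES ν {L} (tb hφ)) (fderiv ℝ (ES ν {L} (tb hφ)) (fun _ => s)) (fun _ => s) :=
      ((es_contDiff ν {L} hφ).differentiable (by norm_num) _).hasFDerivAt
    have h2 := h1.comp_hasDerivAt s (hdiag s)
    rw [es_fderiv_apply, hmL] at h2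
    exact h2
  have hΦ'c : Continuous Φ' := Ψ'.continuous.comp hdc
  have hderiv : deriv Φ = Φ' := funext fun s => (hΦd s).deriv
  have hΦ1 : ContDiff ℝ 1 Φ := by
    rw [contDiff_one_iff_deriv]
    exact ⟨fun s => (hΦd s).differentiableAt, by rw [hderiv]; exact hΦ'c⟩
  have hΦcs : HasCompactSupport Φ := by
    obtain ⟨R, hR⟩ := hφ.2.isBounded.subset_closedBall 0
    refine HasCompactSupport.intro (isCompact_closedBall (0 : ℝ) R) fun s hs => ?_
    rw [Metric.mem_closedBall, dist_zero_right, Real.norm_eq_abs, not_le] at hs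
    show ES ν {L} (tb hφ) (fun _ => s) = 0
    rw [es_apply]
    have : ∀ y : Fin (l + 1) → ℝ, tb hφ (mix {L} (fun _ => s) y) = 0 := by
      intro y
      rw [tb_apply]
      by_contra hne
      have h1 := hR (subset_tsupport φ hne)
      rw [mem_closedBall_zero_iff] at h1
      have h2 := norm_le_pi_norm (mix {L} (fun _ => s) y) L
      have h3 : mix {L} (fun _ => s) y L = s := by simp [mix]
      rw [h3, Real.norm_eq_abs] at h2
      linarith
    simp [this]
  -- the approximations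
  have hb : ∀ k, ∃ C, ∀ s, |f k s| ≤ C := fun k => by
    obtain ⟨C, hC⟩ := (hE.cs k).exists_bound_of_continuous (hE.c1 k).continuous
    exact ⟨C, hC⟩
  have hb' : ∀ k, ∃ C, ∀ s, |deriv (f k) s| ≤ C := fun k => by
    obtain ⟨C, hC⟩ := (hE.cs k).deriv.exists_bound_of_continuous ((hE.c1 k).continuous_deriv (by simp))
    exact ⟨C, hC⟩
  have hV := memLp_last hu hμ hE.l2
  have hk : ∀ k, MemLp (fun x : Fin (l + 1) → ℝ => f k (x L) - c k) 2 (PI u μ) := by
    intro k
    obtain ⟨C, hC⟩ := hb k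
    refine MemLp.of_bound (((hE.c1 k).continuous.comp (continuous_apply L)).sub
      continuous_const).aestronglyMeasurable (C + |c k|) (Eventually.of_forall fun x => ?_)
    exact (abs_sub _ _).trans (add_le_add (hC _) le_rfl)
  have hconv : Tendsto (fun k => ∫ x : Fin (l + 1) → ℝ, ((f k (x L) - c k) - v (x L)) ^ 2 ∂(PI u μ)) atTop
      (𝓝 0) := by
    refine hE.conv.congr fun k => ?_
    exact (integral_last hu hμ (fun s => (f k s - c k - v s) ^ 2)
      ((((hE.c1 k).continuous.measurable.sub_const _).sub hE.meas).pow_const 2)).symm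
  have hconvν : Tendsto (fun k => ∫ s, ((f k s - c k) - v s) ^ 2 ∂(ν L)) atTop (𝓝 0) := hE.conv
  -- integration by parts
  have ha : ∀ k, ∫ x, LL u μ φ x * (f k (x L) - c k) ∂(PI u μ) = -∫ s, deriv (f k) s * deriv Φ s ∂(ν L) := by
    intro k
    have hc1 : ContDiff ℝ 1 fun x : Fin (l + 1) → ℝ => f k (x L) - c k :=
      ((hE.c1 k).comp (contDiff_apply ℝ ℝ L)).sub contDiff_const
    rw [ibp hu hμ hφ hc1]
    have hfd : ∀ (x : Fin (l + 1) → ℝ) (i : Fin (l + 1)),
        fderiv ℝ (fun x : Fin (l + 1) → ℝ => f k (x L) - c k) x (ev i) =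
          if i = L then deriv (f k) (x L) else 0 := by
      intro x i
      have hd : HasDerivAt (f k) (deriv (f k) (x L)) (x L) :=
        ((hE.c1 k).differentiable (by simp) (x L)).hasDerivAt
      have h2 : HasFDerivAt (fun x : Fin (l + 1) → ℝ => x L)
          (ContinuousLinearMap.proj (R := ℝ) (φ := fun _ : Fin (l + 1) => ℝ) L) x := hasFDerivAt_apply L x
      have h3 := (hd.comp_hasFDerivAt x h2).sub_const (c k)
      have h4 : fderiv ℝ (fun x : Fin (l + 1) → ℝ => f k (x L) - c k) x = _ := h3.fderiv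
      rw [h4]
      by_cases h : i = L
      · subst h
        simp [ev]
      · have h5 : L ≠ i := fun e => h e.symm
        simp [ev, h, h5]
    simp only [hfd]
    congr 1
    rw [Finset.sum_eq_single L (fun i _ hi => by simp [hi]) (by simp)]
    simp only [if_true]
    have hdv : (dv L : Fin (l + 1) → ℝ) = ev L := by
      unfold dv
      simp [hL]
    rw [hdv]
    obtain ⟨C, hC⟩ := hb' k
    have hc' : Continuous (deriv (f k)) := (hE.c1 k).continuous_deriv (by simp)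
    have h6 := es_symm ν {L} (db hφ (ev L)) (lastB (l := l) hc' hC)
    rw [lastB_es] at h6
    have h7 : ∫ x, fderiv ℝ φ x (ev L) * deriv (f k) (x L) ∂(PI u μ) =
        ∫ x, Ψ' x * deriv (f k) (x L) ∂(PI u μ) := h6.symm
    rw [h7]
    have h8 : ∀ x : Fin (l + 1) → ℝ, Ψ' x * deriv (f k) (x L) = deriv (f k) (x L) * deriv Φ (x L) := by
      intro x
      rw [hΨ', hes, hderiv, mul_comm]
    simp only [h8]
    exact integral_last hu hμ (fun s => deriv (f k) s * deriv Φ s)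
      (hc'.measurable.mul (by rw [hderiv]; exact hΦ'c.measurable))
  have hlim1 : Tendsto (fun k => ∫ x, LL u μ φ x * (f k (x L) - c k) ∂(PI u μ)) atTop
      (𝓝 (∫ x, LL u μ φ x * v (x L) ∂(PI u μ))) :=
    dua_tend hk hV (dua_bcf (Lb hu μ hφ)) hconv
  have hlim2 : Tendsto (fun k => ∫ x, LL u μ φ x * (f k (x L) - c k) ∂(PI u μ)) atTop
      (𝓝 (-(lam * ∫ s, v s * Φ s ∂(ν L)))) := by
    simp only [ha]
    exact (hE.eq Φ hΦ1 hΦcs).neg
  have h1 := tendsto_nhds_unique hlim1 hlim2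
  rw [h1]
  congr 2
  -- the integrals of `v Φ`
  have hΦm : MemLp Φ 2 (ν L) := by
    refine MemLp.of_bound hΦ1.continuous.aestronglyMeasurable ‖Ψ‖ (Eventually.of_forall fun s => ?_)
    exact Ψ.norm_coe_le_norm _
  have hkν : ∀ k, MemLp (fun s => f k s - c k) 2 (ν L) := by
    intro k
    obtain ⟨C, hC⟩ := hb k
    refine MemLp.of_bound ((hE.c1 k).continuous.sub continuous_const).aestronglyMeasurable (C + |c k|)
      (Eventually.of_forall fun x => ?_)
    exact (abs_sub _ _).trans (add_le_add (hC _) le_rfl)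
  have hlim3 : Tendsto (fun k => ∫ s, Φ s * (f k s - c k) ∂(ν L)) atTop (𝓝 (∫ s, Φ s * v s ∂(ν L))) :=
    dua_tend hkν hE.l2 hΦm hconvν
  have hlim4 : Tendsto (fun k => ∫ x, φ x * (f k (x L) - c k) ∂(PI u μ)) atTop
      (𝓝 (∫ x, φ x * v (x L) ∂(PI u μ))) :=
    dua_tend hk hV (dua_bcf (tb hφ)) hconv
  have heq : ∀ k, ∫ x, φ x * (f k (x L) - c k) ∂(PI u μ) = ∫ s, Φ s * (f k s - c k) ∂(ν L) := by
    intro k
    obtain ⟨C, hC⟩ := hb k
    have hcc : Continuous fun s => f k s - c k := (hE.c1 k).continuous.sub continuous_const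
    have hCC : ∀ s, |f k s - c k| ≤ C + |c k| := fun s => (abs_sub _ _).trans (add_le_add (hC _) le_rfl)
    have h6 := es_symm ν {L} (tb hφ) (lastB (l := l) hcc hCC)
    rw [lastB_es] at h6
    have h7 : ∫ x, φ x * (f k (x L) - c k) ∂(PI u μ) = ∫ x, Ψ x * (f k (x L) - c k) ∂(PI u μ) := h6.symm
    rw [h7]
    have h8 : ∀ x : Fin (l + 1) → ℝ, Ψ x * (f k (x L) - c k) = Φ (x L) * (f k (x L) - c k) := by
      intro x
      rw [hΨ, hes]
    simp only [h8]
    exact integral_last hu hμ (fun s => Φ s * (f k s - c k)) (hΦ1.continuous.measurable.mul hcc.measurable)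
  simp only [heq] at hlim4
  have h2 := tendsto_nhds_unique hlim3 hlim4
  rw [← h2]
  refine integral_congr_ae (Eventually.of_forall fun s => ?_)
  exact mul_comm _ _

private theorem dual_rs (S : Sys P (l + 1) μ u B G) (hπ : IsStat P G (PI u μ)) {lam : ℝ} {v : ℝ → ℝ}
    {f : ℕ → ℝ → ℝ} {c : ℕ → ℝ} (hE : Eig u (rel μ (Fin.last l)) lam v f c) {α : ℝ} (hα : 0 < α)
    (g : (Fin (l + 1) → ℝ) →ᵇ ℝ) :
    ∫ x, (α • rs S hα g - g) x * v (x (Fin.last l)) ∂(PI u μ) =
      -(lam * ∫ x, rs S hα g x * v (x (Fin.last l)) ∂(PI u μ)) := by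
  have hpp : IsProbabilityMeasure (PI u μ) := hπ.prob
  have hV := memLp_last S.pot S.mu hE.l2
  obtain ⟨φ, hφ, h1, h2⟩ := gen_approx S hπ hα g
  have e : ∀ (a : (Fin (l + 1) → ℝ) → ℝ), ∫ x, a x * v (x (Fin.last l)) ∂(PI u μ) =
      ∫ x, v (x (Fin.last l)) * a x ∂(PI u μ) := fun a =>
    integral_congr_ae (Eventually.of_forall fun x => mul_comm _ _)
  have h3 := dua_tend (fun k => dua_bcf (Lb S.pot μ (hφ k))) (dua_bcf (α • rs S hα g - g)) hV h2
  have h4 := dua_tend (fun k => dua_bcf (tb (hφ k))) (dua_bcf (rs S hα g)) hV h1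
  rw [e, e]
  refine tendsto_nhds_unique h3 ((h4.const_mul lam).neg.congr fun k => ?_)
  have h5 := dual_test S.pot S.mu hE (hφ k)
  rw [e, e] at h5
  exact h5.symm

/-- derivative of a linear functional along an `L²` differentiable curve -/
private theorem dua_l2d {n : ℕ} {π : Measure (Fin n → ℝ)} [IsFiniteMeasure π] {A : ℝ → ((Fin n → ℝ) →ᵇ ℝ)}
    {A' : (Fin n → ℝ) →ᵇ ℝ} {s : Set ℝ} {r : ℝ} (hA : L2D π A A' s r) {V : (Fin n → ℝ) → ℝ}
    (hV : MemLp V 2 π) :
    HasDerivWithinAt (fun t => ∫ x, A t x * V x ∂π) (∫ x, A' x * V x ∂π) s r := by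
  rw [hasDerivWithinAt_iff_isLittleO, Asymptotics.isLittleO_iff]
  intro ε hε
  set M := ∫ x, V x ^ 2 ∂π with hM
  have hM0 : 0 ≤ M := integral_nonneg fun x => sq_nonneg _
  obtain ⟨δ, hδ, h⟩ := hA (ε ^ 2 / (M + 1)) (by positivity)
  have hev : ∀ᶠ t in 𝓝[s] r, |t - r| < δ := by
    refine mem_nhdsWithin_of_mem_nhds ?_
    filter_upwards [Metric.ball_mem_nhds r hδ] with t ht
    rwa [Metric.mem_ball, Real.dist_eq] at ht
  filter_upwards [self_mem_nhdsWithin, hev] with t ht htr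
  have h1 := h t ht htr
  have i : ∀ b : (Fin n → ℝ) →ᵇ ℝ, Integrable (fun x => b x * V x) π := fun b =>
    (dua_bcf b).integrable_mul hV
  have e : ∫ x, A t x * V x ∂π - ∫ x, A r x * V x ∂π - (t - r) • ∫ x, A' x * V x ∂π =
      ∫ x, (A t - A r - (t - r) • A') x * V x ∂π := by
    have j1 : Integrable (fun x => A t x * V x - A r x * V x) π := (i _).sub (i _)
    rw [smul_eq_mul, ← integral_const_mul, ← integral_sub (i _) (i _),
      ← integral_sub j1 ((i _).const_mul _)]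
    refine integral_congr_ae (Eventually.of_forall fun x => ?_)
    show A t x * V x - A r x * V x - (t - r) * (A' x * V x) = (A t x - A r x - (t - r) * A' x) * V x
    ring
  rw [e, Real.norm_eq_abs, Real.norm_eq_abs]
  have h2 := dua_cs (dua_bcf (π := π) (A t - A r - (t - r) • A')) hV
  have h3 : ∫ x, (A t - A r - (t - r) • A') x ^ 2 ∂π ≤ ε ^ 2 / (M + 1) * (t - r) ^ 2 := h1
  refine abs_le_of_sq_le_sq' ?_ (by positivity) |> abs_le.mpr
  calc (∫ x, (A t - A r - (t - r) • A') x * V x ∂π) ^ 2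
      ≤ (∫ x, (A t - A r - (t - r) • A') x ^ 2 ∂π) * M := h2
    _ ≤ (ε ^ 2 / (M + 1) * (t - r) ^ 2) * (M + 1) :=
        mul_le_mul h3 (by linarith) hM0 (by positivity)
    _ = (ε * |t - r|) ^ 2 := by
        rw [mul_pow, sq_abs]
        field_simp

theorem dual (S : Sys P (l + 1) μ u B G) (hπ : IsStat P G (PI u μ)) {lam : ℝ} (hlam : 0 ≤ lam) {v : ℝ → ℝ}
    {f : ℕ → ℝ → ℝ} {c : ℕ → ℝ} (hE : Eig u (rel μ (Fin.last l)) lam v f c) (t : ℝ≥0)
    (g : (Fin (l + 1) → ℝ) →ᵇ ℝ) :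
    ∫ x, ptb S t g x * v (x (Fin.last l)) ∂(PI u μ) =
      Real.exp (-(lam * t)) * ∫ x, g x * v (x (Fin.last l)) ∂(PI u μ) := by
  have hpp : IsProbabilityMeasure (PI u μ) := hπ.prob
  have hV := memLp_last S.pot S.mu hE.l2
  set I : ((Fin (l + 1) → ℝ) →ᵇ ℝ) → ℝ := fun a => ∫ x, a x * v (x (Fin.last l)) ∂(PI u μ) with hI
  have hIi : ∀ b : (Fin (l + 1) → ℝ) →ᵇ ℝ, Integrable (fun x => b x * v (x (Fin.last l))) (PI u μ) := fun b =>
    (dua_bcf b).integrable_mul hV
  have hIsub : ∀ a b, I (a - b) = I a - I b := by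
    intro a b
    simp only [hI]
    rw [← integral_sub (hIi a) (hIi b)]
    refine integral_congr_ae (Eventually.of_forall fun x => ?_)
    show (a x - b x) * v (x (Fin.last l)) = _
    ring
  have h1 : (0 : ℝ) < 1 := one_pos
  have hrs : ∀ a, I a = (1 + lam) * I (rs S h1 a) := by
    intro a
    have h2 : I ((1 : ℝ) • rs S h1 a - a) = -(lam * I (rs S h1 a)) := dual_rs S hπ hE h1 a
    rw [one_smul, hIsub] at h2
    linarith
  set F : ℝ → ℝ := fun r => I (ptb S r.toNNReal (rs S h1 g)) with hF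
  have hFd : ∀ r, 0 ≤ r → HasDerivWithinAt F (-(lam * F r)) (Ici 0) r := by
    intro r hr
    have h2 := dua_l2d (ptb_l2d S hπ h1 g hr) hV
    have h3 : I (ptb S r.toNNReal ((1 : ℝ) • rs S h1 g - g)) = -(lam * F r) := by
      rw [one_smul, ptb_sub, hIsub, hrs (ptb S r.toNNReal g), ← rs_comm]
      simp only [hF]
      ring
    rw [← h3]
    exact h2
  have hmain : ∀ T : ℝ, 0 ≤ T → Real.exp (lam * T) * F T = Real.exp (lam * 0) * F 0 := by
    intro T hT
    have hd : ∀ r, 0 ≤ r → HasDerivWithinAt (fun r => Real.exp (lam * r) * F r) 0 (Ici 0) r := by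
      intro r hr
      have h2 : HasDerivAt (fun r => Real.exp (lam * r)) (Real.exp (lam * r) * lam) r := by
        have := ((hasDerivAt_id r).const_mul lam).exp
        simpa using this
      have h3 := h2.hasDerivWithinAt.mul (hFd r hr)
      have h4 : Real.exp (lam * r) * lam * F r + Real.exp (lam * r) * -(lam * F r) = 0 := by ring
      rw [h4] at h3
      exact h3
    refine constant_of_has_deriv_right_zero (f := fun r => Real.exp (lam * r) * F r) (a := 0) (b := T)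
      (fun r hr => ?_) (fun r hr => ?_) T (right_mem_Icc.mpr hT)
    · exact ((hd r hr.1).continuousWithinAt).mono Icc_subset_Ici_self
    · exact (hd r hr.1).mono (Ici_subset_Ici.mpr hr.1)
  have h5 := hmain t t.2
  have hF0 : F 0 = I (rs S h1 g) := by
    simp only [hF, Real.toNNReal_zero, ptb_zero]
  have hFt : F t = I (ptb S t (rs S h1 g)) := by
    simp only [hF, Real.toNNReal_coe]
  rw [mul_zero, Real.exp_zero, one_mul, hF0, hFt] at h5
  show I (ptb S t g) = Real.exp (-(lam * t)) * I g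
  rw [hrs (ptb S t g), ← rs_comm, hrs g, ← h5]
  have h6 : Real.exp (-(lam * t)) * Real.exp (lam * t) = 1 := by
    rw [← Real.exp_add]
    simp
  calc (1 + lam) * I (ptb S t (rs S h1 g)) = 1 * ((1 + lam) * I (ptb S t (rs S h1 g))) := by ring
    _ = (Real.exp (-(lam * t)) * Real.exp (lam * t)) * ((1 + lam) * I (ptb S t (rs S h1 g))) := by rw [h6]
    _ = _ := by ring

end Pool.Agent.SGP
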