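import Pool.Agent.SGP.LEX
import Pool.Agent.SGP.MAR
import Pool.Agent.SGP.TST

/-!
# DYN: Dynkin's formula

Proof. Fix `x, t, φ`; let `R` be large, `h = t / N`, `S_j = {∀ q ≤ j h, ‖G x q ω - 0‖ ≤ R}` (measurable w.r.t.
`past B (j h)`, `measurableSet_stay`), decreasing in `j`. By `markov` (with `f = tb hφ`) and `local_exp`:
`∫_{S_j} (φ (G x ((j+1)h)) - φ (G x (jh))) dP = ∫_{S_j} (pt h φ - φ)(G x (jh)) dP = ∫_{S_j} h LL φ (G x (jh)) dP + O(ε h)`
for `N` large (on `S_j` the point `G x (jh)` is in the ball of radius `R`). Sum over `j < N`: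
`∑_j ∫ (φ (G x ((j+1)h)) - φ (G x (jh))) dP = pt t φ x - φ x` telescopes (`gap_zero`); replacing `S_j` by `Ω` costs in
total at most `2 ‖φ‖ · (number..)`: more carefully use the telescoping on the event `S_N`, i.e. write
`1_{S_j} = 1_{S_N} + 1_{S_j \ S_N}`; the sum of the terms with `1_{S_j \ S_N}` telescopes for each `ω` up to the last
`j` with `ω ∈ S_j` and is at most `2 ‖φ‖` in absolute value, so the error is `≤ 2 ‖φ‖ P(S_N^c)`. Hence
`|pt t φ x - φ x - h ∑_j ∫_{S_j} LL φ (G x (jh)) dP| ≤ ε t + 4 ‖φ‖ P(S_N^c)` and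
`|h ∑_j ∫_{S_j} LL φ (G x (jh)) - h ∑_j pt (jh) (LL φ) x| ≤ t ‖LL φ‖ P(S_N^c)`. `S_N = {∀ q ≤ t, ‖G x q‖ ≤ R}` does not
depend on `N`, `P(S_N^c) → 0` as `R → ∞` (`explode`). The Riemann sums `h ∑_j pt (jh)(LL φ) x` converge to the integral
(`s ↦ pt s (LL φ) x` is continuous by `pt_cont` applied to `Lb`). First `N → ∞`, then `ε → 0`, `R → ∞`.
-/

open MeasureTheory ProbabilityTheory Set Filter Topology
open scoped ENNReal NNReal BoundedContinuousFunction

namespace Pool.Agent.SGP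

open Pool.Agent.OYG

variable {n : ℕ} {Ω : Type*} [MeasurableSpace Ω] {P : Measure Ω} {μ : Fin (n + 1) → ℝ} {u : ℝ → ℝ}
  {B : Fin (n + 1) → ℝ≥0 → Ω → ℝ} {G : (Fin n → ℝ) → ℝ≥0 → Ω → Fin n → ℝ}

private theorem tele {Q : ℕ → Prop} (hQ : ∀ j, Q (j + 1) → Q j) [DecidablePred Q] (a : ℕ → ℝ) (N : ℕ) :
    ∃ J ≤ N, (∑ j ∈ Finset.range N, if Q j then a (j + 1) - a j else 0) = a J - a 0 ∧ (Q N → J = N) := by
  induction N with
  | zero => exact ⟨0, le_rfl, by simp, fun _ => rfl⟩
  | succ N ih =>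
    by_cases h : Q N
    · have hall : ∀ k, k ≤ N → Q (N - k) := by
        intro k
        induction k with
        | zero => intro _; exact h
        | succ k ihk =>
          intro hk
          have h1 := ihk (by omega)
          have h2 : N - k = (N - (k + 1)) + 1 := by omega
          rw [h2] at h1
          exact hQ _ h1
      refine ⟨N + 1, le_rfl, ?_, fun _ => rfl⟩
      rw [← Finset.sum_range_sub a (N + 1)]
      refine Finset.sum_congr rfl fun j hj => ?_
      rw [Finset.mem_range] at hj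
      have h1 := hall (N - j) (by omega)
      have h2 : N - (N - j) = j := by omega
      rw [h2] at h1
      rw [if_pos h1]
    · obtain ⟨J, hJ, hs, _⟩ := ih
      refine ⟨J, hJ.trans (Nat.le_succ N), ?_, fun h1 => absurd (hQ _ h1) h⟩
      rw [Finset.sum_range_succ, if_neg h, add_zero, hs]

/-- one step -/
private theorem one_step (S : Sys P n μ u B G) {φ : (Fin n → ℝ) → ℝ} (hφ : IsTest φ) (x : Fin n → ℝ) {R ε : ℝ}
    (s h : ℝ≥0) (hε : 0 ≤ ε)
    (hloc : ∀ y : Fin n → ℝ, ‖y‖ ≤ R → |pt P G h φ y - φ y - h * LL u μ φ y| ≤ ε * h) :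
    |(∫ ω in {ω | ∀ q ≤ s, ‖G x q ω - 0‖ ≤ R}, (φ (G x (s + h) ω) - φ (G x s ω)) ∂P) -
      h * pt P G s (LL u μ φ) x| ≤
      ε * h + h * (‖Lb S.pot μ hφ‖ * (P {ω | ∀ q ≤ s, ‖G x q ω - 0‖ ≤ R}ᶜ).toReal) := by
  have hP := S.prob
  set A : Set Ω := {ω | ∀ q ≤ s, ‖G x q ω - 0‖ ≤ R} with hA
  have hAm : MeasurableSet[past B s] A := measurableSet_stay S x 0 R s
  have hAm' : MeasurableSet A := past_le S.bm s _ hAm
  have i1 : Integrable (fun ω => φ (G x (s + h) ω)) P := integrable_gap S (s + h) (tb hφ) x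
  have i2 : Integrable (fun ω => φ (G x s ω)) P := integrable_gap S s (tb hφ) x
  have i3 : Integrable (fun ω => pt P G h φ (G x s ω)) P := integrable_gap S s (ptb S h (tb hφ)) x
  have i4 : Integrable (fun ω => LL u μ φ (G x s ω)) P := integrable_gap S s (Lb S.pot μ hφ) x
  have e1 : ∫ ω in A, φ (G x (s + h) ω) ∂P = ∫ ω in A, pt P G h φ (G x s ω) ∂P :=
    markov S x s h (tb hφ) A hAm
  have e2 : ∫ ω in A, (φ (G x (s + h) ω) - φ (G x s ω)) ∂P =
      (∫ ω in A, (pt P G h φ (G x s ω) - φ (G x s ω) - h * LL u μ φ (G x s ω)) ∂P) +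
        h * ∫ ω in A, LL u μ φ (G x s ω) ∂P := by
    rw [integral_sub i1.integrableOn i2.integrableOn, e1]
    have e3 := integral_sub ((i3.sub i2).integrableOn (s := A)) ((i4.const_mul (h : ℝ)).integrableOn (s := A))
    have e4 := integral_sub (i3.integrableOn (s := A)) (i2.integrableOn (s := A))
    have e5 : ∫ ω in A, (pt P G h φ (G x s ω) - φ (G x s ω) - h * LL u μ φ (G x s ω)) ∂P =
      (∫ ω in A, (pt P G h φ (G x s ω) - φ (G x s ω)) ∂P) - ∫ ω in A, h * LL u μ φ (G x s ω) ∂P := e3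
    rw [e5, e4, integral_const_mul]
    ring
  have e3 : pt P G s (LL u μ φ) x = (∫ ω in A, LL u μ φ (G x s ω) ∂P) + ∫ ω in Aᶜ, LL u μ φ (G x s ω) ∂P :=
    (integral_add_compl hAm' i4).symm
  have b1 : |∫ ω in A, (pt P G h φ (G x s ω) - φ (G x s ω) - h * LL u μ φ (G x s ω)) ∂P| ≤ ε * h := by
    rw [← Real.norm_eq_abs]
    have h1 := norm_setIntegral_le_of_norm_le_const (μ := P) (s := A) (C := ε * h)
      (f := fun ω => pt P G h φ (G x s ω) - φ (G x s ω) - h * LL u μ φ (G x s ω)) (measure_lt_top P A)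
      (fun ω hω => by
        have h2 := hω s le_rfl
        rw [sub_zero] at h2
        exact hloc _ h2)
    refine h1.trans ?_
    have h3 : P.real A ≤ 1 := measureReal_le_one
    calc ε * h * P.real A ≤ ε * h * 1 := mul_le_mul_of_nonneg_left h3 (mul_nonneg hε h.2)
      _ = ε * h := mul_one _
  have b2 : |∫ ω in Aᶜ, LL u μ φ (G x s ω) ∂P| ≤ ‖Lb S.pot μ hφ‖ * (P Aᶜ).toReal := by
    rw [← Real.norm_eq_abs]
    exact norm_setIntegral_le_of_norm_le_const (μ := P) (s := Aᶜ) (C := ‖Lb S.pot μ hφ‖)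
      (f := fun ω => LL u μ φ (G x s ω)) (measure_lt_top P Aᶜ)
      (fun ω _ => (Lb S.pot μ hφ).norm_coe_le_norm _)
  rw [e2, e3]
  have h1 : (∫ ω in A, (pt P G h φ (G x s ω) - φ (G x s ω) - h * LL u μ φ (G x s ω)) ∂P) +
      h * (∫ ω in A, LL u μ φ (G x s ω) ∂P) - h * ((∫ ω in A, LL u μ φ (G x s ω) ∂P) +
        ∫ ω in Aᶜ, LL u μ φ (G x s ω) ∂P) =
      (∫ ω in A, (pt P G h φ (G x s ω) - φ (G x s ω) - h * LL u μ φ (G x s ω)) ∂P) -
        h * ∫ ω in Aᶜ, LL u μ φ (G x s ω) ∂P := by ring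
  rw [h1]
  refine (abs_sub _ _).trans (add_le_add b1 ?_)
  have hh0 : (0 : ℝ) ≤ h := h.2
  rw [abs_mul, abs_of_nonneg hh0]
  exact mul_le_mul_of_nonneg_left b2 h.2

theorem dynkin (S : Sys P n μ u B G) (φ : (Fin n → ℝ) → ℝ) (hφ : IsTest φ) (t : ℝ≥0) (x : Fin n → ℝ) :
    pt P G t φ x - φ x = ∫ s in (0 : ℝ)..t, pt P G s.toNNReal (LL u μ φ) x := by
  have hP := S.prob
  set b : ℝ → ℝ := fun s => pt P G s.toNNReal (LL u μ φ) x with hb
  have hbc : Continuous b := by
    have h1 := pt_cont S (Lb S.pot μ hφ)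
    exact h1.comp (continuous_real_toNNReal.prodMk continuous_const)
  set Cφ : ℝ := ‖tb hφ‖ with hCφ
  set CL : ℝ := ‖Lb S.pot μ hφ‖ with hCL
  have hCφ0 : 0 ≤ Cφ := norm_nonneg _
  have hCL0 : 0 ≤ CL := norm_nonneg _
  have key : ∀ ε : ℝ, 0 < ε → |pt P G t φ x - φ x - ∫ s in (0 : ℝ)..t, b s| ≤
      (2 * Cφ + t * CL + 2 * t) * ε := by
    intro ε hε
    obtain ⟨R, hR, hRP⟩ := explode S x t hε
    obtain ⟨h0, hh0, hloc⟩ := local_exp S φ hφ R hε
    have huc : UniformContinuousOn b (Icc (0 : ℝ) t) :=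
      isCompact_Icc.uniformContinuousOn_of_continuous hbc.continuousOn
    rw [Metric.uniformContinuousOn_iff] at huc
    obtain ⟨δ, hδ, hδb⟩ := huc ε hε
    obtain ⟨N, hN⟩ := exists_nat_gt (max ((t : ℝ) / h0) ((t : ℝ) / δ))
    have hh0r : (0 : ℝ) < h0 := hh0
    have hN1 : (t : ℝ) / h0 < N := (le_max_left _ _).trans_lt hN
    have hN2 : (t : ℝ) / δ < N := (le_max_right _ _).trans_lt hN
    have hNpos : (0 : ℝ) < N := lt_of_le_of_lt (by positivity) hN1
    have hNne : (N : ℝ≥0) ≠ 0 := by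
      intro h
      have : (N : ℝ) = 0 := by exact_mod_cast h
      linarith
    set h : ℝ≥0 := t / N with hh
    have hhr : (h : ℝ) = t / N := by rw [hh]; simp
    have hhh0 : h ≤ h0 := by
      have h1 : (h : ℝ) ≤ h0 := by
        rw [hhr, div_le_iff₀ hNpos]
        rw [div_lt_iff₀ hh0r] at hN1
        linarith
      exact_mod_cast h1
    have hhδ : (h : ℝ) < δ := by
      rw [hhr, div_lt_iff₀ hNpos]
      rw [div_lt_iff₀ hδ] at hN2
      linarith
    have hNh : (N : ℝ≥0) * h = t := by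
      rw [hh]
      exact mul_div_cancel₀ t hNne
    have hNhr : (N : ℝ) * (h : ℝ) = t := by exact_mod_cast congrArg (fun z : ℝ≥0 => (z : ℝ)) hNh
    set A : ℕ → Set Ω := fun j => {ω | ∀ q ≤ (j : ℝ≥0) * h, ‖G x q ω - 0‖ ≤ R} with hA
    have hAm : ∀ j, MeasurableSet (A j) := fun j => past_le S.bm _ _ (measurableSet_stay S x 0 R _)
    have hAmono : ∀ j k, j ≤ k → A k ⊆ A j := by
      intro j k hjk ω hω q hq
      refine hω q (hq.trans ?_)
      have : (j : ℝ≥0) ≤ k := by exact_mod_cast hjk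
      exact mul_le_mul_left this h
    have hPA : ∀ j, j ≤ N → (P (A j)ᶜ).toReal ≤ ε := by
      intro j hj
      refine ENNReal.toReal_le_of_le_ofReal hε.le (le_trans (measure_mono ?_) hRP)
      intro ω hω hω2
      refine hω (hAmono j N hj ?_)
      intro q hq
      rw [hNh] at hq
      rw [sub_zero]
      exact hω2 q hq
    -- the telescoping sum
    classical
    set a : ℕ → Ω → ℝ := fun j ω => φ (G x ((j : ℝ≥0) * h) ω) with ha
    have hai : ∀ j, Integrable (a j) P := fun j => integrable_gap S _ (tb hφ) x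
    have hab : ∀ j ω, |a j ω| ≤ Cφ := fun j ω => (tb hφ).norm_coe_le_norm _
    set Sg : Ω → ℝ := fun ω => ∑ j ∈ Finset.range N, (A j).indicator (fun ω => a (j + 1) ω - a j ω) ω with hSg
    have hSi : Integrable Sg P := integrable_finsetSum _ fun j _ =>
      ((hai (j + 1)).sub (hai j)).indicator (hAm j)
    have hSb : ∀ ω, |Sg ω - (a N ω - a 0 ω)| ≤ 2 * Cφ * (A N)ᶜ.indicator (fun _ => (1 : ℝ)) ω := by
      intro ω
      obtain ⟨J, hJ, hs, hJN⟩ := tele (Q := fun j => ω ∈ A j) (fun j hj => hAmono j (j + 1) (Nat.le_succ j) hj)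
        (fun j => a j ω) N
      have h1 : Sg ω = a J ω - a 0 ω := by
        rw [← hs]
        refine Finset.sum_congr rfl fun j _ => ?_
        rw [indicator_apply]
      rw [h1]
      by_cases hω : ω ∈ A N
      · have h2 : ω ∉ (A N)ᶜ := fun h3 => h3 hω
        rw [hJN hω, sub_self, abs_zero, indicator_of_notMem h2, mul_zero]
      · rw [indicator_of_mem hω]
        have h2 : a J ω - a 0 ω - (a N ω - a 0 ω) = a J ω - a N ω := by ring
        rw [h2]
        have h3 : |a J ω - a N ω| ≤ |a J ω| + |a N ω| := abs_sub _ _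
        linarith [hab J ω, hab N ω]
    have hends : ∫ ω, (a N ω - a 0 ω) ∂P = pt P G t φ x - φ x := by
      have e1 : a N = fun ω => φ (G x t ω) := by
        funext ω
        simp only [ha, hNh]
      have e2 : a 0 = fun _ => φ x := by
        funext ω
        simp only [ha, Nat.cast_zero, zero_mul, gap_zero S x ω]
      rw [integral_sub (hai N) (hai 0), e1, e2]
      simp [pt]
    have c1 : |(∫ ω, Sg ω ∂P) - (pt P G t φ x - φ x)| ≤ 2 * Cφ * ε := by
      have hdi : Integrable (fun ω => a N ω - a 0 ω) P := (hai N).sub (hai 0)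
      rw [← hends, ← integral_sub hSi hdi, ← Real.norm_eq_abs]
      have hind : Integrable (fun ω => (A N)ᶜ.indicator (fun _ => (1 : ℝ)) ω) P :=
        (integrable_const (1 : ℝ)).indicator (hAm N).compl
      calc ‖∫ ω, (Sg ω - (a N ω - a 0 ω)) ∂P‖ ≤
          ∫ ω, 2 * Cφ * (A N)ᶜ.indicator (fun _ => (1 : ℝ)) ω ∂P :=
            norm_integral_le_of_norm_le (hind.const_mul _) (Eventually.of_forall fun ω => by
              rw [Real.norm_eq_abs]
              exact hSb ω)
        _ = 2 * Cφ * (P (A N)ᶜ).toReal := by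
            rw [integral_const_mul, integral_indicator (hAm N).compl]
            simp [Measure.real]
        _ ≤ 2 * Cφ * ε := mul_le_mul_of_nonneg_left (hPA N le_rfl) (by positivity)
    have hSint : ∫ ω, Sg ω ∂P = ∑ j ∈ Finset.range N, ∫ ω in A j, (a (j + 1) ω - a j ω) ∂P := by
      have h1 : ∀ j ∈ Finset.range N, Integrable ((A j).indicator fun ω => a (j + 1) ω - a j ω) P :=
        fun j _ => ((hai (j + 1)).sub (hai j)).indicator (hAm j)
      have h2 : ∫ ω, Sg ω ∂P = ∑ j ∈ Finset.range N, ∫ ω, (A j).indicator (fun ω => a (j + 1) ω - a j ω) ω ∂P :=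
        integral_finsetSum _ h1
      rw [h2]
      refine Finset.sum_congr rfl fun j _ => ?_
      exact integral_indicator (hAm j)
    have hstep : ∀ j ∈ Finset.range N, |(∫ ω in A j, (a (j + 1) ω - a j ω) ∂P) - h * b (j * h)| ≤
        ε * h + h * (CL * ε) := by
      intro j hj
      have h1 := one_step S hφ x ((j : ℝ≥0) * h) h hε.le (fun y hy => hloc h hhh0 y hy)
      have h2 : ((j : ℝ≥0) * h + h) = ((j + 1 : ℕ) : ℝ≥0) * h := by
        push_cast
        ring
      rw [h2] at h1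
      have h3 : b (j * h) = pt P G ((j : ℝ≥0) * h) (LL u μ φ) x := by
        simp only [hb]
        congr 1
        rw [← NNReal.coe_natCast j, ← NNReal.coe_mul, Real.toNNReal_coe]
      rw [h3]
      refine h1.trans ?_
      have h4 := hPA j (Finset.mem_range.1 hj).le
      have h5 : (h : ℝ) * (CL * (P (A j)ᶜ).toReal) ≤ h * (CL * ε) :=
        mul_le_mul_of_nonneg_left (mul_le_mul_of_nonneg_left h4 hCL0) h.2
      exact add_le_add le_rfl h5
    have hint : ∫ s in (0 : ℝ)..t, b s = ∑ j ∈ Finset.range N, ∫ s in ((j : ℝ) * h)..((j + 1 : ℕ) * h), b s := by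
      have h1 := intervalIntegral.sum_integral_adjacent_intervals (f := b) (μ := volume)
        (a := fun j : ℕ => (j : ℝ) * h) (n := N) (fun k _ => hbc.intervalIntegrable _ _)
      rw [h1, hNhr]
      simp
    have hriem : ∀ j ∈ Finset.range N, |h * b (j * h) - ∫ s in ((j : ℝ) * h)..((j + 1 : ℕ) * h), b s| ≤
        ε * h := by
      intro j hj
      have hjN : (j : ℝ) + 1 ≤ N := by exact_mod_cast Finset.mem_range.1 hj
      have hr0 : (0 : ℝ) ≤ h := h.2
      have hj0 : (0 : ℝ) ≤ j := Nat.cast_nonneg j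
      have h1 : (((j + 1 : ℕ) : ℝ) * h) - (j : ℝ) * h = h := by
        push_cast
        ring
      have h2 : ∫ s in ((j : ℝ) * h)..((j + 1 : ℕ) * h), b (j * h) = h * b (j * h) := by
        rw [intervalIntegral.integral_const, h1, smul_eq_mul]
      rw [← h2, ← intervalIntegral.integral_sub (continuous_const.intervalIntegrable _ _)
        (hbc.intervalIntegrable _ _), ← Real.norm_eq_abs]
      have hle : (j : ℝ) * h ≤ ((j + 1 : ℕ) : ℝ) * h := by linarith
      have h3 := intervalIntegral.norm_integral_le_of_norm_le_const (a := (j : ℝ) * h)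
        (b := ((j + 1 : ℕ) : ℝ) * h) (C := ε) (f := fun s => b (j * h) - b s) (fun s hs => by
          rw [uIoc_of_le hle] at hs
          have h4 : (j : ℝ) * h ∈ Icc (0 : ℝ) t := by
            refine ⟨by positivity, ?_⟩
            rw [← hNhr]
            exact mul_le_mul_of_nonneg_right (by linarith) hr0
          have h5 : s ∈ Icc (0 : ℝ) t := by
            refine ⟨h4.1.trans hs.1.le, hs.2.trans ?_⟩
            rw [← hNhr]
            push_cast
            exact mul_le_mul_of_nonneg_right hjN hr0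
          have h6 : dist ((j : ℝ) * h) s < δ := by
            rw [Real.dist_eq, abs_sub_comm, abs_of_pos (by linarith [hs.1])]
            linarith [hs.2]
          have h7 := hδb _ h4 _ h5 h6
          rw [Real.dist_eq] at h7
          rw [Real.norm_eq_abs]
          exact h7.le)
      rw [h1, abs_of_nonneg hr0] at h3
      exact h3
    have c2 : |(∫ ω, Sg ω ∂P) - ∫ s in (0 : ℝ)..t, b s| ≤ (t * CL + 2 * t) * ε := by
      rw [hSint, hint, ← Finset.sum_sub_distrib]
      refine (Finset.abs_sum_le_sum_abs _ _).trans ?_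
      have h1 : ∀ j ∈ Finset.range N, |(∫ ω in A j, (a (j + 1) ω - a j ω) ∂P) -
          ∫ s in ((j : ℝ) * h)..((j + 1 : ℕ) * h), b s| ≤ h * ((CL + 2) * ε) := by
        intro j hj
        have h2 : (∫ ω in A j, (a (j + 1) ω - a j ω) ∂P) -
          ∫ s in ((j : ℝ) * h)..((j + 1 : ℕ) * h), b s =
          ((∫ ω in A j, (a (j + 1) ω - a j ω) ∂P) - h * b (j * h)) +
          (h * b (j * h) - ∫ s in ((j : ℝ) * h)..((j + 1 : ℕ) * h), b s) := by ring
        rw [h2]
        refine (abs_add_le _ _).trans ((add_le_add (hstep j hj) (hriem j hj)).trans (le_of_eq ?_))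
        ring
      refine (Finset.sum_le_sum h1).trans (le_of_eq ?_)
      rw [Finset.sum_const, Finset.card_range, nsmul_eq_mul, ← mul_assoc, hNhr]
      ring
    have h1 : pt P G t φ x - φ x - ∫ s in (0 : ℝ)..t, b s =
        ((∫ ω, Sg ω ∂P) - ∫ s in (0 : ℝ)..t, b s) - ((∫ ω, Sg ω ∂P) - (pt P G t φ x - φ x)) := by ring
    rw [h1]
    refine (abs_sub _ _).trans ((add_le_add c2 c1).trans (le_of_eq ?_))
    ring
  have hfin : |pt P G t φ x - φ x - ∫ s in (0 : ℝ)..t, b s| ≤ 0 := by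
    refine le_of_forall_pos_le_add fun ε hε => ?_
    have hD : 0 < 2 * Cφ + t * CL + 2 * t + 1 := by
      have : (0 : ℝ) ≤ t := t.2
      positivity
    have h1 := key (ε / (2 * Cφ + t * CL + 2 * t + 1)) (by positivity)
    rw [zero_add]
    refine h1.trans ?_
    rw [mul_div_assoc', div_le_iff₀ hD]
    nlinarith
  have h2 := abs_nonpos_iff.1 hfin
  linarith

end Pool.Agent.SGP
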