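import Pool.Agent.OYG.Defs

/-!
# Soft reflection gap process (MP_25ed44_pr), general potential: definitions

`u` is `U'`. `n + 1` particles, `n` gaps, `rel μ i = μ 0 - μ (i+1)` is `m_i`.
-/

open MeasureTheory ProbabilityTheory Set Filter Topology
open scoped ENNReal NNReal BoundedContinuousFunction

namespace Pool.Agent.SGP

open Pool.Agent.OYG

noncomputable section

/-! ### The objects of the theorem -/

/-- The hypotheses on `u = U'`: locally Lipschitz, non-negative, decreasing on `(-∞, 0]`, tending to `0` at `+∞` and to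
`+∞` at `-∞`. -/
structure Pot (u : ℝ → ℝ) : Prop where
  lip : LocallyLipschitz u
  nonneg : ∀ y, 0 ≤ u y
  anti : AntitoneOn u (Iic 0)
  top : Tendsto u atTop (𝓝 0)
  bot : Tendsto u atBot atTop

/-- `m_i = μ 0 - μ (i+1)` -/
def rel {n : ℕ} (μ : Fin (n + 1) → ℝ) (i : Fin n) : ℝ := μ 0 - μ i.succ

/-- the density `exp (U g - m g)`, `U g = ∫_0^g u` -/
def den (u : ℝ → ℝ) (m g : ℝ) : ℝ := Real.exp ((∫ s in (0 : ℝ)..g, u s) - m * g)

/-- the normalising constant -/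
def Zc (u : ℝ → ℝ) (m : ℝ) : ℝ := ∫ g, den u m g

/-- the normalised density -/
def dn (u : ℝ → ℝ) (m g : ℝ) : ℝ := den u m g / Zc u m

/-- the probability measure with density `exp (U g - m g) / Z` -/
def nu (u : ℝ → ℝ) (m : ℝ) : Measure ℝ := volume.withDensity fun g => ENNReal.ofReal (dn u m g)

/-- variance of `f` under `ν` -/
def vr (ν : Measure ℝ) (f : ℝ → ℝ) : ℝ := ∫ x, (f x - ∫ y, f y ∂ν) ^ 2 ∂ν

/-- The spectral gap of the one-dimensional diffusion with generator `f'' + (u - m) f'`: the infimum of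
`∫ f'^2 dν / Var_ν f` over the compactly supported `C^1` functions `f` with `Var_ν f > 0`, where
`ν = exp (U g - m g) dg / Z`. -/
def gap (u : ℝ → ℝ) (m : ℝ) : ℝ :=
  sInf {r | ∃ f : ℝ → ℝ, ContDiff ℝ 1 f ∧ HasCompactSupport f ∧ 0 < vr (nu u m) f ∧
    r = (∫ x, (deriv f x) ^ 2 ∂(nu u m)) / vr (nu u m) f}

/-! ### Auxiliary objects -/

/-- product density -/
def RH {n : ℕ} (u : ℝ → ℝ) (μ : Fin (n + 1) → ℝ) (x : Fin n → ℝ) : ℝ := ∏ i, dn u (rel μ i) (x i)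

/-- the product measure `⊗ exp (U g_i - m_i g_i) dg_i / Z_i` -/
def PI {n : ℕ} (u : ℝ → ℝ) (μ : Fin (n + 1) → ℝ) : Measure (Fin n → ℝ) :=
  Measure.pi fun i => nu u (rel μ i)

variable {n : ℕ}

/-- unit vectors -/
def ev (i : Fin n) : Fin n → ℝ := Pi.single i 1

/-- `e_i - e_{i+1}` (`e_n = 0`) -/
def dv (i : Fin n) : Fin n → ℝ := ev i - (if h : (i : ℕ) + 1 < n then ev ⟨(i : ℕ) + 1, h⟩ else 0)

/-- the generator `∑ ∂_i (∂_i - ∂_{i+1}) φ - ∑ (m_i - u (x_i)) (∂_i - ∂_{i+1}) φ` -/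
def LL (u : ℝ → ℝ) (μ : Fin (n + 1) → ℝ) (φ : (Fin n → ℝ) → ℝ) (x : Fin n → ℝ) : ℝ :=
  ∑ i, (fderiv ℝ (fun y => fderiv ℝ φ y (dv i)) x (ev i) -
    (rel μ i - u (x i)) * fderiv ℝ φ x (dv i))

/-- test functions -/
def IsTest (φ : (Fin n → ℝ) → ℝ) : Prop := ContDiff ℝ ((⊤ : ℕ∞) : WithTop ℕ∞) φ ∧ HasCompactSupport φ

/-- a continuous function with compact support as a bounded continuous function -/
def cb (φ : (Fin n → ℝ) → ℝ) (h : Continuous φ) (h2 : HasCompactSupport φ) : (Fin n → ℝ) →ᵇ ℝ :=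
  ⟨⟨φ, h⟩, by
    obtain ⟨C, hC⟩ := h2.exists_bound_of_continuous h
    refine ⟨C + C, fun x y => ?_⟩
    calc dist (φ x) (φ y) ≤ ‖φ x‖ + ‖φ y‖ := dist_le_norm_add_norm _ _
      _ ≤ C + C := add_le_add (hC x) (hC y)⟩

@[simp] theorem cb_apply (φ : (Fin n → ℝ) → ℝ) (h : Continuous φ) (h2 : HasCompactSupport φ)
    (x : Fin n → ℝ) : cb φ h h2 x = φ x := rfl

/-- the semigroup -/
def pt {Ω : Type*} [MeasurableSpace Ω] (P : Measure Ω) (G : (Fin n → ℝ) → ℝ≥0 → Ω → Fin n → ℝ)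
    (t : ℝ≥0) (f : (Fin n → ℝ) → ℝ) (x : Fin n → ℝ) : ℝ := ∫ ω, f (G x t ω) ∂P

/-- all hypotheses on the process -/
structure Sys {Ω : Type*} [MeasurableSpace Ω] (P : Measure Ω) (n : ℕ) (μ : Fin (n + 1) → ℝ)
    (u : ℝ → ℝ) (B : Fin (n + 1) → ℝ≥0 → Ω → ℝ)
    (G : (Fin n → ℝ) → ℝ≥0 → Ω → Fin n → ℝ) : Prop where
  prob : IsProbabilityMeasure P
  pot : Pot u
  mu : ∀ i : Fin n, μ i.succ < μ i.castSucc
  bm : IsBMd P n B
  gap : ∀ x, IsGap n μ u B x (G x)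

/-- the block of scaled increments of `B` during `[s, s+h]` -/
def blks {Ω : Type*} (B : Fin (n + 1) → ℝ≥0 → Ω → ℝ) (hB : ∀ i ω, Continuous fun t => B i t ω)
    (s h : ℝ≥0) (ω : Ω) : Blk n := fun i =>
  ⟨fun r => (B i (s + h * ⟨(r : ℝ), r.2.1⟩) ω - B i s ω) / √(h : ℝ), by
    refine Continuous.div_const ?_ _
    refine Continuous.sub ?_ continuous_const
    refine (hB i ω).comp ?_
    refine continuous_const.add (continuous_const.mul ?_)
    exact Continuous.subtype_mk continuous_subtype_val _⟩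

/-- gap noise of a block -/
def nz (w : Blk n) (r : ℝ) : Fin n → ℝ := fun i =>
  w i.succ (projIcc 0 1 zero_le_one r) - w i.castSucc (projIcc 0 1 zero_le_one r)

/-- Euler scheme with drift `b`, time step `h / N`, increments `Δ` -/
def eul {E : Type*} [AddCommGroup E] [Module ℝ E] (b : E → E) (h : ℝ) (N : ℕ) (x : E)
    (Δ : ℕ → E) : ℕ → E
  | 0 => x
  | (k + 1) => eul b h N x Δ k + (h / N) • b (eul b h N x Δ k) + Δ k

/-- end point of the Euler scheme driven by a block -/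
def euw (b : (Fin n → ℝ) → (Fin n → ℝ)) (h : ℝ) (N : ℕ) (x : Fin n → ℝ) (w : Blk n) : Fin n → ℝ :=
  eul b h N x (fun k => √h • (nz w (((k : ℝ) + 1) / N) - nz w ((k : ℝ) / N))) N

/-- the past of the Brownian motions up to time `s` -/
@[reducible] def past {Ω : Type*} (B : Fin (n + 1) → ℝ≥0 → Ω → ℝ) (s : ℝ≥0) : MeasurableSpace Ω :=
  MeasurableSpace.comap (fun ω (i : Fin (n + 1)) (t : Set.Iic s) => B i (t : ℝ≥0) ω) inferInstance

end

end Pool.Agent.SGP
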