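import Pool.Agent.SGP.Defs

/-!
# LOC: the drift is locally Lipschitz; clamping

Proofs. `u` is locally Lipschitz, hence Lipschitz on the compact interval `[-R, R]` (Mathlib: search
`LocallyLipschitz`, `LipschitzOnWith`, `IsCompact`; or by hand: a locally Lipschitz function on a compact convex set is
Lipschitz, e.g. finite cover + `Icc` connected, or `LocallyLipschitzOn.exists_lipschitzOnWith_of_compact` if present).
`drift n μ u x i - drift n μ u y i = (u (x i) - u (y i)) - (u (x (i-1)) - u (y (i-1)))` (or without the second bracket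
for `i = 0`), so `K = 2 * K_u` works with the sup norm of `Fin n → ℝ` (`pi_norm_le_iff_of_nonneg`, `norm_le_pi_norm`).
Bound: take `y = 0`. Clamping: coordinatewise, `|max (-R) (min R a) - max (-R) (min R b)| ≤ |a - b|`
(`abs_max_sub_max_le_max`, `abs_min_sub_min_le_max`).
-/

open MeasureTheory ProbabilityTheory Set Filter Topology
open scoped ENNReal NNReal BoundedContinuousFunction

namespace Pool.Agent.SGP

open Pool.Agent.OYG

variable {n : ℕ} (μ : Fin (n + 1) → ℝ) {u : ℝ → ℝ}

theorem drift_lip (hu : LocallyLipschitz u) (R : ℝ) : ∃ K : ℝ, 0 ≤ K ∧ ∀ x y : Fin n → ℝ, ‖x‖ ≤ R → ‖y‖ ≤ R →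
    ‖drift n μ u x - drift n μ u y‖ ≤ K * ‖x - y‖ := by
  obtain ⟨K, hK⟩ := LocallyLipschitzOn.exists_lipschitzOnWith_of_compact
    (isCompact_Icc (a := -R) (b := R)) (hu.locallyLipschitzOn (s := Icc (-R) R))
  refine ⟨2 * K, by positivity, fun x y hx hy => ?_⟩
  rw [pi_norm_le_iff_of_nonneg (by positivity)]
  intro i
  have hmem : ∀ z : Fin n → ℝ, ‖z‖ ≤ R → ∀ j, z j ∈ Icc (-R) R := fun z hz j => by
    have := (norm_le_pi_norm z j).trans hz
    rw [Real.norm_eq_abs, abs_le] at this
    exact this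
  have h1 : ∀ j, |u (x j) - u (y j)| ≤ K * ‖x - y‖ := fun j => by
    have h2 := hK.dist_le_mul (x j) (hmem x hx j) (y j) (hmem y hy j)
    rw [Real.dist_eq, Real.dist_eq] at h2
    have h3 : |x j - y j| ≤ ‖x - y‖ := norm_le_pi_norm (x - y) j
    exact h2.trans (mul_le_mul_of_nonneg_left h3 K.2)
  have h0 : 0 ≤ (K : ℝ) * ‖x - y‖ := by positivity
  rw [Pi.sub_apply, Real.norm_eq_abs]
  unfold drift
  by_cases hi : 0 < (i : ℕ)
  · simp only [hi, if_true]
    have h4 := h1 i
    have h5 := h1 ⟨(i : ℕ) - 1, by omega⟩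
    rw [abs_le] at h4 h5 ⊢
    constructor <;> nlinarith [h4.1, h4.2, h5.1, h5.2]
  · simp only [hi, if_false]
    have h4 := h1 i
    rw [abs_le] at h4 ⊢
    constructor <;> nlinarith [h4.1, h4.2]

theorem drift_bdd (hu : LocallyLipschitz u) (R : ℝ) : ∃ M : ℝ, 0 ≤ M ∧ ∀ x : Fin n → ℝ, ‖x‖ ≤ R →
    ‖drift n μ u x‖ ≤ M := by
  obtain ⟨K, hK, h⟩ := drift_lip μ hu R
  refine ⟨K * |R| + ‖drift n μ u 0‖, by positivity, fun x hx => ?_⟩
  have hR : 0 ≤ R := (norm_nonneg x).trans hx
  have h1 := h x 0 hx (by rw [norm_zero]; exact hR)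
  rw [sub_zero] at h1
  have h2 : ‖drift n μ u x‖ ≤ ‖drift n μ u x - drift n μ u 0‖ + ‖drift n μ u 0‖ := by
    have := norm_add_le (drift n μ u x - drift n μ u 0) (drift n μ u 0)
    rwa [sub_add_cancel] at this
  have h3 : K * ‖x‖ ≤ K * |R| := mul_le_mul_of_nonneg_left (hx.trans (le_abs_self R)) hK
  linarith

theorem drift_cont (hu : LocallyLipschitz u) : Continuous (drift n μ u) := by
  have hc := hu.continuous
  refine continuous_pi fun i => ?_
  unfold drift
  by_cases hi : 0 < (i : ℕ)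
  · simp only [hi, if_true]
    exact (continuous_const.add (hc.comp (continuous_apply i))).sub (hc.comp (continuous_apply _))
  · simp only [hi, if_false]
    exact (continuous_const.add (hc.comp (continuous_apply i))).sub continuous_const

/-- coordinatewise clamping to `[-R, R]` -/
noncomputable def clp (R : ℝ) (x : Fin n → ℝ) : Fin n → ℝ := fun i => max (-R) (min R (x i))

theorem clp_norm {R : ℝ} (hR : 0 ≤ R) (x : Fin n → ℝ) : ‖clp R x‖ ≤ R := by
  rw [pi_norm_le_iff_of_nonneg hR]
  intro i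
  rw [Real.norm_eq_abs, abs_le]
  exact ⟨le_max_left _ _, max_le (by linarith) (min_le_left _ _)⟩

theorem clp_eq {R : ℝ} {x : Fin n → ℝ} (hx : ‖x‖ ≤ R) : clp R x = x := by
  funext i
  have h := (norm_le_pi_norm x i).trans hx
  rw [Real.norm_eq_abs, abs_le] at h
  show max (-R) (min R (x i)) = x i
  rw [min_eq_right h.2, max_eq_right h.1]

theorem clp_lip (R : ℝ) (x y : Fin n → ℝ) : ‖clp R x - clp R y‖ ≤ ‖x - y‖ := by
  rw [pi_norm_le_iff_of_nonneg (norm_nonneg _)]
  intro i
  rw [Pi.sub_apply, Real.norm_eq_abs]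
  show |max (-R) (min R (x i)) - max (-R) (min R (y i))| ≤ _
  have h1 : |max (-R) (min R (x i)) - max (-R) (min R (y i))| ≤ |min R (x i) - min R (y i)| := by
    have h := abs_max_sub_max_le_max (-R) (min R (x i)) (-R) (min R (y i))
    have e : max |(-R) - (-R)| |min R (x i) - min R (y i)| = |min R (x i) - min R (y i)| := by
      rw [sub_self, abs_zero]; exact max_eq_right (abs_nonneg _)
    rwa [e] at h
  have h2 : |min R (x i) - min R (y i)| ≤ |x i - y i| := by
    have h := abs_min_sub_min_le_max R (x i) R (y i)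
    have e : max |R - R| |x i - y i| = |x i - y i| := by
      rw [sub_self, abs_zero]; exact max_eq_right (abs_nonneg _)
    rwa [e] at h
  have h3 : |x i - y i| ≤ ‖x - y‖ := norm_le_pi_norm (x - y) i
  exact h1.trans (h2.trans h3)

end Pool.Agent.SGP
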