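import Pool.Agent.SGP.EUL
import Pool.Agent.SGP.LOC

/-!
# EUG: the gap process is the limit of Euler schemes driven by blocks

Proofs. (`euw_cont`) induction over the steps of `eul`; `w ↦ w i r` is continuous on `C(unitInterval, ℝ)`
(`ContinuousMap.continuous_eval_const`). Measurability from continuity (`Blk n` is second countable with Borel
σ-algebra; compare OYG.measurable_blk, WRE).
(`euw_tendsto`) Let `y r = G x (s + r) ω` for `0 ≤ r ≤ h`. From `S.gap x` at the times `s + r` and `s`:
`y r = G x s ω + ∫_0^r drift (y q) dq + w r` with `w r i = (B i.succ (s+r) ω - B i.succ s ω) - (B i.castSucc (s+r) ω -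
B i.castSucc s ω) = √h * nz (blks B _ s h ω) (r / h) i` (subtract the two integral equations, shift the integral
(`intervalIntegral.integral_comp_add_left`), mind `Real.toNNReal`). Apply `eul_tendsto` (drift is Lipschitz on balls
by `drift_lip`; the vector valued integral is taken coordinatewise: prove `heq` with `ext i`, using that the integral
of a continuous function into `Fin n → ℝ` commutes with evaluation, `ContinuousLinearMap.intervalIntegral_comp_comm`).
The increments `w ((k+1) * (h/N)) - w (k * (h/N))` are those of `euw` for `k < N` (only these matter for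
`eul .. N`: if needed prove that `eul b h N x Δ k` depends only on `Δ j`, `j < k`).
(`euw_tendsto_clp`) the same with the drift `fun y => drift n μ u (clp R y)` (also Lipschitz on balls by `clp_lip`,
`clp_norm`, `drift_lip`), which agrees with `drift` along the path.
-/

open MeasureTheory ProbabilityTheory Set Filter Topology
open scoped ENNReal NNReal BoundedContinuousFunction

namespace Pool.Agent.SGP

open Pool.Agent.OYG

variable {n : ℕ}

theorem continuous_nz (r : ℝ) : Continuous fun w : Blk n => nz w r := by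
  refine continuous_pi fun i => ?_
  have hev : ∀ k : Fin (n + 1), Continuous fun w : Blk n => w k (projIcc 0 1 zero_le_one r) :=
    fun k => (continuous_eval_const (F := C(unitInterval, ℝ))
      (projIcc (0 : ℝ) 1 zero_le_one r)).comp (continuous_apply k)
  exact (hev _).sub (hev _)

theorem euw_cont {b : (Fin n → ℝ) → (Fin n → ℝ)} (hb : Continuous b) (h : ℝ) (N : ℕ) :
    Continuous fun p : (Fin n → ℝ) × Blk n => euw b h N p.1 p.2 := by
  have key : ∀ k : ℕ, Continuous fun p : (Fin n → ℝ) × Blk n =>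
      eul b h N p.1 (fun k => √h • (nz p.2 (((k : ℝ) + 1) / N) - nz p.2 ((k : ℝ) / N))) k := by
    intro k
    induction k with
    | zero => exact continuous_fst
    | succ k ih =>
      have h2 : Continuous fun p : (Fin n → ℝ) × Blk n =>
          √h • (nz p.2 (((k : ℝ) + 1) / N) - nz p.2 ((k : ℝ) / N)) := by
        have a1 : Continuous fun p : (Fin n → ℝ) × Blk n => nz p.2 (((k : ℝ) + 1) / N) :=
          (continuous_nz (((k : ℝ) + 1) / N)).comp continuous_snd
        have a2 : Continuous fun p : (Fin n → ℝ) × Blk n => nz p.2 ((k : ℝ) / N) :=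
          (continuous_nz ((k : ℝ) / N)).comp continuous_snd
        exact (a1.sub a2).const_smul √h
      exact (ih.add ((hb.comp ih).const_smul (h / N))).add h2
  exact key N

theorem measurable_euw {b : (Fin n → ℝ) → (Fin n → ℝ)} (hb : Continuous b) (h : ℝ) (N : ℕ) :
    Measurable fun p : (Fin n → ℝ) × Blk n => euw b h N p.1 p.2 := by
  have hnz : ∀ r : ℝ, Measurable fun w : Blk n => nz w r := by
    intro r
    refine measurable_pi_lambda _ fun i => ?_
    have hev : ∀ k : Fin (n + 1), Measurable fun w : Blk n => w k (projIcc 0 1 zero_le_one r) :=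
      fun k => (continuous_eval_const (F := C(unitInterval, ℝ))
        (projIcc (0 : ℝ) 1 zero_le_one r)).measurable.comp (measurable_pi_apply k)
    exact (hev _).sub (hev _)
  have key : ∀ k : ℕ, Measurable fun p : (Fin n → ℝ) × Blk n =>
      eul b h N p.1 (fun k => √h • (nz p.2 (((k : ℝ) + 1) / N) - nz p.2 ((k : ℝ) / N))) k := by
    intro k
    induction k with
    | zero => exact measurable_fst
    | succ k ih =>
      have h2 : Measurable fun p : (Fin n → ℝ) × Blk n =>
          √h • (nz p.2 (((k : ℝ) + 1) / N) - nz p.2 ((k : ℝ) / N)) :=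
        (((hnz _).comp measurable_snd).sub ((hnz _).comp measurable_snd)).const_smul √h
      exact (ih.add ((hb.measurable.comp ih).const_smul (h / N))).add h2
  exact key N

theorem eul_congr {E : Type*} [AddCommGroup E] [Module ℝ E] (b : E → E) (h : ℝ) (N : ℕ) (x : E)
    (Δ Δ' : ℕ → E) (m : ℕ) (hh : ∀ k < m, Δ k = Δ' k) : eul b h N x Δ m = eul b h N x Δ' m := by
  induction m with
  | zero => rfl
  | succ m ih =>
    have h1 := ih fun k hk => hh k (Nat.lt_succ_of_lt hk)
    show eul b h N x Δ m + (h / N) • b (eul b h N x Δ m) + Δ m =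
      eul b h N x Δ' m + (h / N) • b (eul b h N x Δ' m) + Δ' m
    rw [h1, hh m (Nat.lt_succ_self m)]

variable {Ω : Type*} [MeasurableSpace Ω] {P : Measure Ω} {μ : Fin (n + 1) → ℝ} {u : ℝ → ℝ}
  {B : Fin (n + 1) → ℝ≥0 → Ω → ℝ} {G : (Fin n → ℝ) → ℝ≥0 → Ω → Fin n → ℝ}

theorem gap_zero (S : Sys P n μ u B G) (x : Fin n → ℝ) (ω : Ω) : G x 0 ω = x := by
  funext i
  have := (S.gap x).eq ω 0 i
  rw [NNReal.coe_zero, intervalIntegral.integral_same, S.bm.zero, S.bm.zero] at this
  simpa using this

/-- the general form: any drift `b` which is Lipschitz on balls and agrees with the drift of the gaps along the path -/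
theorem euw_tendsto_gen (S : Sys P n μ u B G) (x : Fin n → ℝ) (s : ℝ≥0) {h : ℝ≥0} (hh : 0 < h) (ω : Ω)
    {b : (Fin n → ℝ) → (Fin n → ℝ)}
    (hb : ∀ R : ℝ, ∃ K : ℝ, 0 ≤ K ∧ ∀ x y, ‖x‖ ≤ R → ‖y‖ ≤ R → ‖b x - b y‖ ≤ K * ‖x - y‖)
    (hbe : ∀ t ≤ h, b (G x (s + t) ω) = drift n μ u (G x (s + t) ω)) :
    Tendsto (fun N : ℕ => euw b h N (G x s ω) (blks B S.bm.cont s h ω)) atTop
      (𝓝 (G x (s + h) ω)) := by
  have hpos : (0 : ℝ) < h := hh
  have hbc : Continuous b := cont_of_locLip b hb
  have hdc : Continuous (drift n μ u) := drift_cont μ S.pot.lip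
  set y : ℝ → Fin n → ℝ := fun r => G x (s + r.toNNReal) ω with hy
  set z : ℝ → Fin n → ℝ := fun r i =>
    (B i.succ (s + r.toNNReal) ω - B i.succ s ω) -
      (B i.castSucc (s + r.toNNReal) ω - B i.castSucc s ω) with hz
  have hyc : Continuous y := ((S.gap x).cont ω).comp (continuous_const.add continuous_real_toNNReal)
  have hfc : ∀ i, Continuous (fun r : ℝ => drift n μ u (G x r.toNNReal ω) i) := fun i =>
    (continuous_apply i).comp (hdc.comp (((S.gap x).cont ω).comp continuous_real_toNNReal))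
  have h1 := eul_tendsto b hb hpos (G x s ω) y z hyc.continuousOn (by
      funext i
      simp [hz]) (fun r hr => by
      funext i
      have hint : IntervalIntegrable (fun q => b (y q)) volume 0 r :=
        (hbc.comp hyc).intervalIntegrable _ _
      have hcomm : (∫ q in (0 : ℝ)..r, b (y q)) i = ∫ q in (0 : ℝ)..r, b (y q) i := by
        have := (ContinuousLinearMap.proj (R := ℝ) (φ := fun _ : Fin n => ℝ) i
          ).intervalIntegral_comp_comm hint
        simpa using this.symm
      have e1 := (S.gap x).eq ω (s + r.toNNReal) i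
      have e2 := (S.gap x).eq ω s i
      have e3 : ((s + r.toNNReal : ℝ≥0) : ℝ) = s + r := by
        rw [NNReal.coe_add, Real.coe_toNNReal r hr.1]
      have e4 := intervalIntegral.integral_add_adjacent_intervals
        ((hfc i).intervalIntegrable 0 (s : ℝ) (μ := volume))
        ((hfc i).intervalIntegrable (s : ℝ) (s + r))
      have e5 : (∫ v in (s : ℝ)..(s + r), drift n μ u (G x v.toNNReal ω) i) =
          ∫ v in (0 : ℝ)..r, b (y v) i := by
        have := intervalIntegral.integral_comp_add_left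
          (fun v => drift n μ u (G x v.toNNReal ω) i) (s : ℝ) (a := 0) (b := r)
        rw [add_zero] at this
        rw [← this]
        refine intervalIntegral.integral_congr fun v hv => ?_
        rw [uIcc_of_le hr.1] at hv
        have e6 : ((s : ℝ) + v).toNNReal = s + v.toNNReal := by
          rw [Real.toNNReal_add (NNReal.coe_nonneg s) hv.1, Real.toNNReal_coe]
        have e7 : v.toNNReal ≤ h := by
          rw [Real.toNNReal_le_iff_le_coe]
          exact hv.2.trans hr.2
        show drift n μ u (G x ((s : ℝ) + v).toNNReal ω) i = b (G x (s + v.toNNReal) ω) i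
        rw [e6, hbe _ e7]
      show G x (s + r.toNNReal) ω i = G x s ω i + (∫ q in (0 : ℝ)..r, b (y q)) i +
        ((B i.succ (s + r.toNNReal) ω - B i.succ s ω) -
          (B i.castSucc (s + r.toNNReal) ω - B i.castSucc s ω))
      rw [hcomm, e1, e3, ← e4, e5, e2]
      ring)
  have h2 : y h = G x (s + h) ω := by
    show G x (s + (h : ℝ).toNNReal) ω = _
    rw [Real.toNNReal_coe]
  rw [h2] at h1
  refine h1.congr fun N => ?_
  unfold euw
  refine eul_congr _ _ _ _ _ _ _ fun k hk => ?_
  have hNpos : (0 : ℝ) < N := by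
    have : 0 < N := lt_of_le_of_lt (Nat.zero_le _) hk
    exact_mod_cast this
  have hkN : (k : ℝ) + 1 ≤ N := by exact_mod_cast hk
  have hsq : √(h : ℝ) ≠ 0 := (Real.sqrt_pos.mpr hpos).ne'
  have hnz : ∀ q : ℝ, 0 ≤ q → q ≤ 1 → √(h : ℝ) • nz (blks B S.bm.cont s h ω) q = z (q * h) := by
    intro q hq0 hq1
    funext i
    have hproj : projIcc (0 : ℝ) 1 zero_le_one q = ⟨q, hq0, hq1⟩ := projIcc_of_mem _ ⟨hq0, hq1⟩
    have hmul : (q * (h : ℝ)).toNNReal = h * ⟨q, hq0⟩ := by
      refine NNReal.eq ?_
      rw [Real.coe_toNNReal _ (mul_nonneg hq0 hpos.le)]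
      show q * (h : ℝ) = (h : ℝ) * q
      ring
    have hval : ∀ j, blks B S.bm.cont s h ω j (projIcc (0 : ℝ) 1 zero_le_one q) =
        (B j (s + h * ⟨q, hq0⟩) ω - B j s ω) / √(h : ℝ) := fun j => by
      rw [hproj]
      rfl
    show √(h : ℝ) • (blks B S.bm.cont s h ω i.succ (projIcc (0 : ℝ) 1 zero_le_one q) -
      blks B S.bm.cont s h ω i.castSucc (projIcc (0 : ℝ) 1 zero_le_one q)) =
      (B i.succ (s + (q * (h : ℝ)).toNNReal) ω - B i.succ s ω) -
        (B i.castSucc (s + (q * (h : ℝ)).toNNReal) ω - B i.castSucc s ω)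
    rw [hval, hval, hmul, smul_eq_mul]
    field_simp
  have a1 := hnz (((k : ℝ) + 1) / N) (by positivity) (by rw [div_le_one hNpos]; exact hkN)
  have a2 := hnz ((k : ℝ) / N) (by positivity) (by rw [div_le_one hNpos]; linarith)
  have a3 : ((k : ℝ) + 1) / N * (h : ℝ) = ((k : ℝ) + 1) * ((h : ℝ) / N) := by ring
  have a4 : (k : ℝ) / N * (h : ℝ) = (k : ℝ) * ((h : ℝ) / N) := by ring
  rw [a3] at a1
  rw [a4] at a2
  rw [smul_sub, a1, a2]

theorem euw_tendsto (S : Sys P n μ u B G) (x : Fin n → ℝ) (s : ℝ≥0) {h : ℝ≥0} (hh : 0 < h) (ω : Ω) :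
    Tendsto (fun N : ℕ => euw (drift n μ u) h N (G x s ω) (blks B S.bm.cont s h ω)) atTop
      (𝓝 (G x (s + h) ω)) :=
  euw_tendsto_gen S x s hh ω (fun R => drift_lip μ S.pot.lip R) fun _ _ => rfl

theorem euw_tendsto_clp (S : Sys P n μ u B G) (x : Fin n → ℝ) (s : ℝ≥0) {h : ℝ≥0} (hh : 0 < h) (ω : Ω) {R : ℝ}
    (hR : ∀ t ≤ h, ‖G x (s + t) ω‖ ≤ R) :
    Tendsto (fun N : ℕ => euw (fun y => drift n μ u (clp R y)) h N (G x s ω) (blks B S.bm.cont s h ω)) atTop
      (𝓝 (G x (s + h) ω)) := by
  have hR0 : 0 ≤ R := (norm_nonneg _).trans (hR 0 hh.le)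
  refine euw_tendsto_gen S x s hh ω (fun _ => ?_) fun t ht => ?_
  · obtain ⟨K, hK, hL⟩ := drift_lip μ S.pot.lip R
    refine ⟨K, hK, fun p q _ _ => ?_⟩
    exact (hL _ _ (clp_norm hR0 p) (clp_norm hR0 q)).trans
      (mul_le_mul_of_nonneg_left (clp_lip R p q) hK)
  · show drift n μ u (clp R (G x (s + t) ω)) = _
    rw [clp_eq (hR t ht)]

end Pool.Agent.SGP
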