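import Pool.Agent.SGP.Defs

/-!
# VPB: volume of preimages under expanding maps; the standard Gaussian measure is below the volume

Proofs. (`vol_preimage`) `F` is `AntilipschitzWith (1/c).toNNReal`; `AntilipschitzWith.hausdorffMeasure_preimage_le` with
`d = n`, and `μH[n] = volume` on `Fin n → ℝ` with the sup norm (`hausdorffMeasure_pi_real`).
(`gauss_le`) `gaussianReal 0 1` has a density `≤ 1 / √(2π) ≤ 1`. For measurable boxes the inequality is a product; for general
measurable sets: `Measure.pi` is the measure of the outer measure `OuterMeasure.pi` = `boundedBy` of the product premeasure, which is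
monotone in the factors (`OuterMeasure.boundedBy`, `piPremeasure`, `Measure.pi`), or: induction over `n` with
`measurePreserving_piFinSuccAbove`, or: `Measure.pi_eq` for the measure with density `∏ gaussianPDF` (Fubini for products).
-/

open MeasureTheory ProbabilityTheory Set Filter Topology
open scoped ENNReal NNReal BoundedContinuousFunction

namespace Pool.Agent.SGP

theorem vol_preimage {n : ℕ} {F : (Fin n → ℝ) → (Fin n → ℝ)} {c : ℝ} (hc : 0 < c)
    (hF : ∀ x y, c * ‖x - y‖ ≤ ‖F x - F y‖) (O : Set (Fin n → ℝ)) :
    volume (F ⁻¹' O) ≤ ENNReal.ofReal ((1 / c) ^ n) * volume O := by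
  have hanti : AntilipschitzWith (1 / c).toNNReal F := by
    refine AntilipschitzWith.of_le_mul_dist fun x y => ?_
    rw [Real.coe_toNNReal _ (by positivity), dist_eq_norm, dist_eq_norm]
    have := hF x y
    rw [one_div, inv_mul_eq_div, le_div_iff₀ hc]
    linarith
  have h := hanti.hausdorffMeasure_preimage_le (d := (n : ℝ)) (Nat.cast_nonneg n) O
  have hv : (μH[(n : ℝ)] : Measure (Fin n → ℝ)) = volume := by
    have := hausdorffMeasure_pi_real (ι := Fin n)
    rwa [Fintype.card_fin] at this
  rw [hv] at h
  refine h.trans (le_of_eq ?_)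
  congr 1
  rw [ENNReal.rpow_natCast, ENNReal.ofReal_pow (by positivity)]
  rfl

theorem gauss_one (A : Set ℝ) : gaussianReal 0 1 A ≤ volume A := by
  have h1 : gaussianReal 0 1 ≤ (volume : Measure ℝ) := by
    rw [gaussianReal_of_var_ne_zero 0 one_ne_zero]
    refine Measure.le_iff.mpr fun s hs => ?_
    rw [withDensity_apply _ hs]
    calc ∫⁻ x in s, gaussianPDF 0 1 x ≤ ∫⁻ _ in s, 1 := by
          refine lintegral_mono fun x => ?_
          rw [gaussianPDF]
          refine ENNReal.ofReal_le_one.mpr ?_
          rw [gaussianPDFReal]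
          have e1 : Real.exp (-(x - 0) ^ 2 / (2 * ((1 : ℝ≥0) : ℝ))) ≤ 1 := by
            rw [Real.exp_le_one_iff]
            have : 0 ≤ (x - 0) ^ 2 := sq_nonneg _
            have h2 : (0 : ℝ) < 2 * ((1 : ℝ≥0) : ℝ) := by norm_num
            exact div_nonpos_of_nonpos_of_nonneg (by linarith) h2.le
          have e2 : (√(2 * Real.pi * ((1 : ℝ≥0) : ℝ)))⁻¹ ≤ 1 := by
            refine inv_le_one_of_one_le₀ ?_
            rw [Real.one_le_sqrt]
            have := Real.pi_gt_three
            rw [NNReal.coe_one]
            linarith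
          calc _ ≤ (1 : ℝ) * 1 := mul_le_mul e2 e1 (Real.exp_pos _).le zero_le_one
            _ = 1 := one_mul 1
      _ = volume s := by simp
  exact h1 A

theorem gauss_le (n : ℕ) (A : Set (Fin n → ℝ)) :
    Measure.pi (fun _ : Fin n => gaussianReal 0 1) A ≤ volume A := by
  have h1 : (Measure.pi (fun _ : Fin n => gaussianReal 0 1)).toOuterMeasure ≤
      OuterMeasure.pi fun _ : Fin n => (volume : Measure ℝ).toOuterMeasure := by
    rw [OuterMeasure.le_pi]
    intro s _
    show Measure.pi (fun _ : Fin n => gaussianReal 0 1) (Set.pi univ s) ≤ ∏ i, volume (s i)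
    rw [Measure.pi_pi]
    exact Finset.prod_le_prod' fun i _ => gauss_one (s i)
  have h2 : ∀ T : Set (Fin n → ℝ), MeasurableSet T →
      Measure.pi (fun _ : Fin n => gaussianReal 0 1) T ≤ volume T := fun T hT => by
    rw [volume_pi, Measure.pi_def (fun _ : Fin n => (volume : Measure ℝ)), toMeasure_apply _ _ hT]
    exact h1 T
  calc Measure.pi (fun _ : Fin n => gaussianReal 0 1) A
      ≤ Measure.pi (fun _ : Fin n => gaussianReal 0 1) (toMeasurable volume A) :=
        measure_mono (subset_toMeasurable _ _)
    _ ≤ volume (toMeasurable volume A) := h2 _ (measurableSet_toMeasurable _ _)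
    _ = volume A := measure_toMeasurable _

end Pool.Agent.SGP
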