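import Pool.Agent.SGP.RSM
import Pool.Agent.SGP.VPB
import Pool.Agent.SGP.EUG

/-!
# EDN: density bound for the Euler scheme with a globally Lipschitz drift

Proofs. (`euw_expand`) Let `Y_k`, `Y'_k` be the Euler schemes for `resa w η` and `resa w η'`, `δ = TT (η - η')`, `D_k = Y_k - Y'_k`.
By `nz_resa` the difference of the increments of step `k < N` is `√h • ((k+1)/N - k/N) • δ = (√h / N) • δ` (all times are in `[0,1]`), so
`D_{k+1} = D_k + (h/N) • (b Y_k - b Y'_k) + (√h/N) • δ`. Hence `‖D_k‖ ≤ √h ‖δ‖ exp (h K)` for `k ≤ N` (Gronwall: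
`‖D_{k+1}‖ ≤ (1 + h K / N) ‖D_k‖ + √h ‖δ‖ / N`; invariant `‖D_k‖ ≤ √h ‖δ‖ (k/N) (1 + h K / N)^k`), and
`D_N = √h • δ + (h/N) • ∑_{k<N} (b Y_k - b Y'_k)`, so `‖D_N‖ ≥ √h ‖δ‖ (1 - h K exp (h K)) ≥ √h ‖δ‖ / 2`. Finally
`‖η - η'‖ ≤ (n+1) ‖δ‖` by `TT_lower`, `TT_sub`.
(`euler_density`) `W {euw ∈ O} = ∫⁻ indicator` `= ∫⁻ w, (Measure.pi gaussian) {η | euw b h N x (resa w η) ∈ O} dW` by `resample_all`
(measurability: `measurable_euw`, `measurable_resa`), the inner measure is `≤ volume (F ⁻¹' O) ≤ (..)^n volume O` by `gauss_le`,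
`vol_preimage` with `c = √h / (2 (n+1))`; `W` is a probability measure.
-/

open MeasureTheory ProbabilityTheory Set Filter Topology
open scoped ENNReal NNReal BoundedContinuousFunction

namespace Pool.Agent.SGP

open Pool.Agent.OYG

variable {n : ℕ}

theorem eul_expand {b : (Fin n → ℝ) → (Fin n → ℝ)} {K : ℝ} (hK : 0 ≤ K)
    (hb : ∀ x y, ‖b x - b y‖ ≤ K * ‖x - y‖) {h : ℝ} (hh : 0 < h) (hs : h * K * Real.exp (h * K) ≤ 1 / 2)
    {N : ℕ} (hN : 0 < N) (x : Fin n → ℝ) (Δ Δ' : ℕ → Fin n → ℝ) (δ : Fin n → ℝ)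
    (hΔ : ∀ k < N, Δ k - Δ' k = (1 / (N : ℝ)) • δ) :
    1 / 2 * ‖δ‖ ≤ ‖eul b h N x Δ N - eul b h N x Δ' N‖ := by
  have hNpos : (0 : ℝ) < N := by exact_mod_cast hN
  set q : ℝ := 1 + h * K / N with hq
  have hq1 : 1 ≤ q := by
    have : 0 ≤ h * K / N := by positivity
    linarith
  have hqk : ∀ k : ℕ, k ≤ N → q ^ k ≤ Real.exp (h * K) := by
    intro k hk
    have h1 : q ≤ Real.exp (h * K / N) := by
      have := Real.add_one_le_exp (h * K / N)
      linarith
    calc q ^ k ≤ q ^ N := pow_le_pow_right₀ hq1 hk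
      _ ≤ (Real.exp (h * K / N)) ^ N := pow_le_pow_left₀ (by positivity) h1 N
      _ = Real.exp (h * K) := by
        rw [← Real.exp_nat_mul]
        congr 1
        field_simp
  have key : ∀ k : ℕ, k ≤ N →
      ‖eul b h N x Δ k - eul b h N x Δ' k‖ ≤ (k : ℝ) / N * q ^ k * ‖δ‖ ∧
      ‖(eul b h N x Δ k - eul b h N x Δ' k) - ((k : ℝ) / N) • δ‖ ≤
        (k : ℝ) / N * (h * K * Real.exp (h * K)) * ‖δ‖ := by
    intro k
    induction k with
    | zero =>
      intro _
      simp [eul]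
    | succ k ih =>
      intro hk
      obtain ⟨ih1, ih2⟩ := ih (by omega)
      set Y := eul b h N x Δ k with hY
      set Y' := eul b h N x Δ' k with hY'
      have e1 : eul b h N x Δ (k + 1) - eul b h N x Δ' (k + 1) =
          (Y - Y') + (h / N) • (b Y - b Y') + (1 / (N : ℝ)) • δ := by
        show (Y + (h / N) • b Y + Δ k) - (Y' + (h / N) • b Y' + Δ' k) = _
        rw [← hΔ k (by omega), smul_sub]
        abel
      have h2 : ‖(h / N) • (b Y - b Y')‖ ≤ h * K / N * ‖Y - Y'‖ := by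
        rw [norm_smul, Real.norm_eq_abs, abs_of_nonneg (by positivity : 0 ≤ h / (N : ℝ))]
        calc h / N * ‖b Y - b Y'‖ ≤ h / N * (K * ‖Y - Y'‖) :=
              mul_le_mul_of_nonneg_left (hb Y Y') (by positivity)
          _ = h * K / N * ‖Y - Y'‖ := by ring
      have h3 : ‖(1 / (N : ℝ)) • δ‖ = 1 / N * ‖δ‖ := by
        rw [norm_smul, Real.norm_eq_abs, abs_of_nonneg (by positivity : 0 ≤ 1 / (N : ℝ))]
      have hpk : 1 ≤ q ^ (k + 1) := one_le_pow₀ hq1
      have hδ0 : 0 ≤ ‖δ‖ := norm_nonneg δ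
      constructor
      · rw [e1]
        have h4 : ‖(Y - Y') + (h / N) • (b Y - b Y') + (1 / (N : ℝ)) • δ‖ ≤
            ‖Y - Y'‖ + h * K / N * ‖Y - Y'‖ + 1 / N * ‖δ‖ := by
          refine (norm_add_le _ _).trans ?_
          rw [h3]
          have := norm_add_le (Y - Y') ((h / N) • (b Y - b Y'))
          linarith
        refine h4.trans ?_
        have h5 : ‖Y - Y'‖ + h * K / N * ‖Y - Y'‖ = q * ‖Y - Y'‖ := by rw [hq]; ring
        rw [h5]
        have h6 : q * ‖Y - Y'‖ ≤ q * ((k : ℝ) / N * q ^ k * ‖δ‖) :=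
          mul_le_mul_of_nonneg_left ih1 (by linarith)
        have h7 : 1 / (N : ℝ) * ‖δ‖ ≤ 1 / N * q ^ (k + 1) * ‖δ‖ := by
          refine mul_le_mul_of_nonneg_right ?_ hδ0
          have : 0 ≤ 1 / (N : ℝ) := by positivity
          nlinarith
        have h8 : q * ((k : ℝ) / N * q ^ k * ‖δ‖) + 1 / N * q ^ (k + 1) * ‖δ‖ =
            (((k + 1 : ℕ) : ℝ)) / N * q ^ (k + 1) * ‖δ‖ := by
          push_cast
          rw [pow_succ]
          ring
        linarith
      · have e2 : (eul b h N x Δ (k + 1) - eul b h N x Δ' (k + 1)) - (((k + 1 : ℕ) : ℝ) / N) • δ =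
            ((Y - Y') - ((k : ℝ) / N) • δ) + (h / N) • (b Y - b Y') := by
          rw [e1]
          have : (((k + 1 : ℕ) : ℝ) / N) • δ = ((k : ℝ) / N) • δ + (1 / (N : ℝ)) • δ := by
            rw [← add_smul]
            congr 1
            push_cast
            ring
          rw [this]
          abel
        rw [e2]
        refine (norm_add_le _ _).trans ?_
        have hkN : (k : ℝ) / N ≤ 1 := by
          rw [div_le_one hNpos]
          exact_mod_cast (by omega : k ≤ N)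
        have h4 : ‖Y - Y'‖ ≤ Real.exp (h * K) * ‖δ‖ := by
          refine ih1.trans (mul_le_mul_of_nonneg_right ?_ hδ0)
          have h5 := hqk k (by omega)
          have h6 : 0 ≤ (k : ℝ) / N := by positivity
          have h7 : 0 ≤ q ^ k := by positivity
          nlinarith
        have h5 : h * K / N * ‖Y - Y'‖ ≤ h * K / N * (Real.exp (h * K) * ‖δ‖) :=
          mul_le_mul_of_nonneg_left h4 (by positivity)
        have h6 : (k : ℝ) / N * (h * K * Real.exp (h * K)) * ‖δ‖ +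
            h * K / N * (Real.exp (h * K) * ‖δ‖) =
            (((k + 1 : ℕ) : ℝ)) / N * (h * K * Real.exp (h * K)) * ‖δ‖ := by
          push_cast
          ring
        linarith
  have h1 := (key N le_rfl).2
  have h2 : (N : ℝ) / N = 1 := div_self hNpos.ne'
  rw [h2, one_smul, one_mul] at h1
  have h3 : ‖δ‖ ≤ ‖eul b h N x Δ N - eul b h N x Δ' N‖ +
      ‖(eul b h N x Δ N - eul b h N x Δ' N) - δ‖ := by
    have := norm_sub_le (eul b h N x Δ N - eul b h N x Δ' N)
      ((eul b h N x Δ N - eul b h N x Δ' N) - δ)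
    rwa [sub_sub_cancel] at this
  have h4 : h * K * Real.exp (h * K) * ‖δ‖ ≤ 1 / 2 * ‖δ‖ :=
    mul_le_mul_of_nonneg_right hs (norm_nonneg δ)
  linarith

theorem euw_expand {b : (Fin n → ℝ) → (Fin n → ℝ)} {K : ℝ} (hK : 0 ≤ K)
    (hb : ∀ x y, ‖b x - b y‖ ≤ K * ‖x - y‖) {h : ℝ} (hh : 0 < h) (hs : h * K * Real.exp (h * K) ≤ 1 / 2)
    {N : ℕ} (hN : 0 < N) (x : Fin n → ℝ) (w : Blk n) (η η' : Fin n → ℝ) :
    √h / (2 * ((n : ℝ) + 1)) * ‖η - η'‖ ≤ ‖euw b h N x (resa w η) - euw b h N x (resa w η')‖ := by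
  have hNpos : (0 : ℝ) < N := by exact_mod_cast hN
  have hsq : 0 ≤ √h := Real.sqrt_nonneg h
  have h1 := eul_expand hK hb hh hs hN x
    (fun k => √h • (nz (resa w η) (((k : ℝ) + 1) / N) - nz (resa w η) ((k : ℝ) / N)))
    (fun k => √h • (nz (resa w η') (((k : ℝ) + 1) / N) - nz (resa w η') ((k : ℝ) / N)))
    (√h • TT (η - η')) (fun k hk => by
      have hkN : (k : ℝ) + 1 ≤ N := by exact_mod_cast hk
      have m1 : ((k : ℝ) + 1) / N ∈ Icc (0 : ℝ) 1 :=
        ⟨by positivity, by rw [div_le_one hNpos]; exact hkN⟩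
      have m2 : (k : ℝ) / N ∈ Icc (0 : ℝ) 1 :=
        ⟨by positivity, by rw [div_le_one hNpos]; linarith⟩
      rw [nz_resa w η m1, nz_resa w η m2, nz_resa w η' m1, nz_resa w η' m2, TT_sub]
      funext i
      simp only [Pi.sub_apply, Pi.smul_apply, Pi.add_apply, smul_eq_mul]
      field_simp
      ring)
  have h2 : ‖η - η'‖ ≤ ((n : ℝ) + 1) * ‖TT (η - η')‖ := TT_lower _
  have h3 : ‖√h • TT (η - η')‖ = √h * ‖TT (η - η')‖ := by
    rw [norm_smul, Real.norm_eq_abs, abs_of_nonneg hsq]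
  rw [h3] at h1
  refine le_trans ?_ h1
  have hn : (0 : ℝ) < (n : ℝ) + 1 := by positivity
  calc √h / (2 * ((n : ℝ) + 1)) * ‖η - η'‖
      ≤ √h / (2 * ((n : ℝ) + 1)) * (((n : ℝ) + 1) * ‖TT (η - η')‖) :=
        mul_le_mul_of_nonneg_left h2 (by positivity)
    _ = 1 / 2 * (√h * ‖TT (η - η')‖) := by field_simp

theorem euler_density {Ω : Type*} [MeasurableSpace Ω] {P : Measure Ω} [IsProbabilityMeasure P]
    {B : Fin (n + 1) → ℝ≥0 → Ω → ℝ} (hB : IsBMd P n B) {b : (Fin n → ℝ) → (Fin n → ℝ)} {K : ℝ} (hK : 0 ≤ K)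
    (hb : ∀ x y, ‖b x - b y‖ ≤ K * ‖x - y‖) {h : ℝ} (hh : 0 < h) (hs : h * K * Real.exp (h * K) ≤ 1 / 2)
    {N : ℕ} (hN : 0 < N) (x : Fin n → ℝ) (O : Set (Fin n → ℝ)) (hO : MeasurableSet O) :
    P.map (blk B hB.cont 0) {w | euw b h N x w ∈ O} ≤
      ENNReal.ofReal ((2 * ((n : ℝ) + 1) / √h) ^ n) * volume O := by
  have hbc : Continuous b := by
    have hl : LipschitzWith K.toNNReal b := LipschitzWith.of_dist_le_mul fun p q => by
      rw [dist_eq_norm, dist_eq_norm, Real.coe_toNNReal K hK]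
      exact hb p q
    exact hl.continuous
  have hm : Measurable fun w : Blk n => euw b h N x w :=
    (measurable_euw hbc h N).comp (measurable_const.prodMk measurable_id)
  have hset : MeasurableSet {w : Blk n | euw b h N x w ∈ O} := hm hO
  have hW : IsProbabilityMeasure (P.map (blk B hB.cont 0)) :=
    Measure.isProbabilityMeasure_map (measurable_blk hB 0).aemeasurable
  have hsq : 0 < √h := Real.sqrt_pos.mpr hh
  rw [← lintegral_indicator_one hset, resample_all hB _ (measurable_one.indicator hset)]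
  have h1 : ∀ w : Blk n, (∫⁻ η, ({w : Blk n | euw b h N x w ∈ O}.indicator 1 (resa w η) : ℝ≥0∞)
      ∂(Measure.pi fun _ : Fin n => gaussianReal 0 1)) ≤
      ENNReal.ofReal ((2 * ((n : ℝ) + 1) / √h) ^ n) * volume O := fun w => by
    have hr : Measurable fun η : Fin n → ℝ => resa w η :=
      measurable_resa.comp (measurable_const.prodMk measurable_id)
    have e1 : ∀ η : Fin n → ℝ, ({w : Blk n | euw b h N x w ∈ O}.indicator 1 (resa w η) : ℝ≥0∞) =
        ((fun η : Fin n → ℝ => euw b h N x (resa w η)) ⁻¹' O).indicator 1 η := fun η => rfl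
    simp only [e1]
    have hpre : MeasurableSet ((fun η : Fin n → ℝ => euw b h N x (resa w η)) ⁻¹' O) :=
      (hm.comp hr) hO
    rw [lintegral_indicator_one hpre]
    refine (gauss_le n _).trans ?_
    have h2 := vol_preimage (F := fun η : Fin n → ℝ => euw b h N x (resa w η))
      (c := √h / (2 * ((n : ℝ) + 1))) (by positivity)
      (fun η η' => euw_expand hK hb hh hs hN x w η η') O
    rw [one_div_div] at h2
    exact h2
  calc ∫⁻ w, (∫⁻ η, ({w : Blk n | euw b h N x w ∈ O}.indicator 1 (resa w η) : ℝ≥0∞)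
        ∂(Measure.pi fun _ : Fin n => gaussianReal 0 1)) ∂(P.map (blk B hB.cont 0))
      ≤ ∫⁻ _, (ENNReal.ofReal ((2 * ((n : ℝ) + 1) / √h) ^ n) * volume O)
          ∂(P.map (blk B hB.cont 0)) := lintegral_mono h1
    _ = ENNReal.ofReal ((2 * ((n : ℝ) + 1) / √h) ^ n) * volume O := by
        rw [lintegral_const, measure_univ, mul_one]

end Pool.Agent.SGP
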