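import Pool.Agent.SGP.PIE

/-!
# EOP: conditional expectations given coordinates

`ES ν S f x = ∫ f (mix S x y) d(pi ν)(y)`.

Proofs. (`es_cont`) dominated convergence (`continuous_of_dominated`, `mix_cont`). (`es_comp`)
`ES S (ES T f) x = ∫ y, ∫ z, f (mix T (mix S x y) z) = ∫ y, ∫ z, f (mix (S ∩ T) x (mix T y z))` (`mix_mix`)
`= ∫ f (mix (S ∩ T) x y)` (`integral_prod`, `mix_mp`). (`es_symm`) `∫ x, ∫ y, f (mix S x y) g x`; write
`g x = g (mix S (mix S x y) (mix S y x))` and use `mix_swap`: `= ∫ x, ∫ y, f x * g (mix S x y)`. (`es_l2`) from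
`ES S (ES S f) = ES S f` and `es_symm`: `∫ (ES f)^2 = ∫ f * ES f ≤ (∫ f^2 + ∫ (ES f)^2)/2`. All integrands are bounded and
continuous.
-/

open MeasureTheory ProbabilityTheory Set Filter Topology
open scoped ENNReal NNReal BoundedContinuousFunction

namespace Pool.Agent.SGP

variable {n : ℕ} (ν : Fin n → Measure ℝ) [∀ i, IsProbabilityMeasure (ν i)]

theorem es_cont (S : Finset (Fin n)) (f : (Fin n → ℝ) →ᵇ ℝ) :
    Continuous fun x => ∫ y, f (mix S x y) ∂(Measure.pi ν) := by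
  apply continuous_of_dominated (bound := fun _ => ‖f‖)
  · intro x
    exact (f.continuous.comp ((mix_cont S).comp (Continuous.prodMk_right x))).aestronglyMeasurable
  · intro x
    exact Eventually.of_forall fun y => f.norm_coe_le_norm _
  · exact integrable_const _
  · exact Eventually.of_forall fun y =>
      f.continuous.comp ((mix_cont S).comp (continuous_id.prodMk continuous_const))

theorem es_bound (S : Finset (Fin n)) (f : (Fin n → ℝ) →ᵇ ℝ) (x : Fin n → ℝ) :
    ‖∫ y, f (mix S x y) ∂(Measure.pi ν)‖ ≤ ‖f‖ := by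
  have h := norm_integral_le_of_norm_le_const (μ := Measure.pi ν) (C := ‖f‖)
    (f := fun y => f (mix S x y)) (Eventually.of_forall fun y => f.norm_coe_le_norm _)
  simpa using h

theorem es_int (S : Finset (Fin n)) (f : (Fin n → ℝ) →ᵇ ℝ) (x : Fin n → ℝ) :
    Integrable (fun y => f (mix S x y)) (Measure.pi ν) :=
  Integrable.of_bound (f.continuous.comp ((mix_cont S).comp (Continuous.prodMk_right x))).aestronglyMeasurable
    ‖f‖ (Eventually.of_forall fun y => f.norm_coe_le_norm _)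

/-- conditional expectation given the coordinates in `S` -/
noncomputable def ES (S : Finset (Fin n)) : ((Fin n → ℝ) →ᵇ ℝ) →ₗ[ℝ] ((Fin n → ℝ) →ᵇ ℝ) where
  toFun f := BoundedContinuousFunction.ofNormedAddCommGroup (fun x => ∫ y, f (mix S x y) ∂(Measure.pi ν))
    (es_cont ν S f) ‖f‖ (es_bound ν S f)
  map_add' f g := by
    ext x
    exact integral_add (es_int ν S f x) (es_int ν S g x)
  map_smul' c f := by
    ext x
    exact integral_const_mul c _

theorem es_apply (S : Finset (Fin n)) (f : (Fin n → ℝ) →ᵇ ℝ) (x : Fin n → ℝ) :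
    ES ν S f x = ∫ y, f (mix S x y) ∂(Measure.pi ν) := rfl

theorem es_norm (S : Finset (Fin n)) (f : (Fin n → ℝ) →ᵇ ℝ) : ‖ES ν S f‖ ≤ ‖f‖ :=
  BoundedContinuousFunction.norm_ofNormedAddCommGroup_le (es_cont ν S f) (norm_nonneg _) (es_bound ν S f)

theorem es_univ (f : (Fin n → ℝ) →ᵇ ℝ) : ES ν Finset.univ f = f := by
  ext x
  rw [es_apply]
  have : (fun y => f (mix Finset.univ x y)) = fun _ => f x := by
    funext y
    congr 1
    funext i
    simp [mix]
  rw [this]
  simp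

theorem es_empty (f : (Fin n → ℝ) →ᵇ ℝ) :
    ES ν ∅ f = BoundedContinuousFunction.const _ (∫ y, f y ∂(Measure.pi ν)) := by
  ext x
  rw [es_apply, BoundedContinuousFunction.const_apply]
  congr 1

private theorem int_mix (T : Finset (Fin n)) (h : (Fin n → ℝ) →ᵇ ℝ) :
    ∫ y, ∫ z, h (mix T y z) ∂(Measure.pi ν) ∂(Measure.pi ν) = ∫ w, h w ∂(Measure.pi ν) := by
  have hc : Continuous fun p : (Fin n → ℝ) × (Fin n → ℝ) => h (mix T p.1 p.2) := h.continuous.comp (mix_cont T)
  have hi : Integrable (fun p : (Fin n → ℝ) × (Fin n → ℝ) => h (mix T p.1 p.2))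
      ((Measure.pi ν).prod (Measure.pi ν)) :=
    Integrable.of_bound hc.aestronglyMeasurable ‖h‖ (Eventually.of_forall fun y => h.norm_coe_le_norm _)
  have h1 := integral_prod _ hi
  have h2 : ∫ w, h w ∂(Measure.pi ν) =
      ∫ p : (Fin n → ℝ) × (Fin n → ℝ), h (mix T p.1 p.2) ∂((Measure.pi ν).prod (Measure.pi ν)) := by
    conv_lhs => rw [← (mix_mp ν T).map_eq]
    exact integral_map (mix_cont T).aemeasurable h.continuous.aestronglyMeasurable
  rw [h2, h1]

theorem es_comp (S T : Finset (Fin n)) (f : (Fin n → ℝ) →ᵇ ℝ) : ES ν S (ES ν T f) = ES ν (S ∩ T) f := by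
  ext x
  rw [es_apply, es_apply]
  have hc : Continuous fun w : Fin n → ℝ => mix (S ∩ T) x w :=
    (mix_cont (S ∩ T)).comp (Continuous.prodMk_right x)
  have h := int_mix ν T (f.compContinuous ⟨fun w => mix (S ∩ T) x w, hc⟩)
  simp only [BoundedContinuousFunction.compContinuous_apply, ContinuousMap.coe_mk] at h
  rw [← h]
  congr 1
  funext y
  rw [es_apply]
  congr 1
  funext z
  rw [mix_mix]

theorem es_symm (S : Finset (Fin n)) (f g : (Fin n → ℝ) →ᵇ ℝ) :
    ∫ x, ES ν S f x * g x ∂(Measure.pi ν) = ∫ x, f x * ES ν S g x ∂(Measure.pi ν) := by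
  have hc1 : Continuous fun p : (Fin n → ℝ) × (Fin n → ℝ) => f (mix S p.1 p.2) * g p.1 :=
    (f.continuous.comp (mix_cont S)).mul (g.continuous.comp continuous_fst)
  have hc2 : Continuous fun p : (Fin n → ℝ) × (Fin n → ℝ) => f p.1 * g (mix S p.1 p.2) :=
    (f.continuous.comp continuous_fst).mul (g.continuous.comp (mix_cont S))
  have hi1 : Integrable (fun p : (Fin n → ℝ) × (Fin n → ℝ) => f (mix S p.1 p.2) * g p.1)
      ((Measure.pi ν).prod (Measure.pi ν)) :=
    Integrable.of_bound hc1.aestronglyMeasurable (‖f‖ * ‖g‖) (Eventually.of_forall fun y => by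
      rw [norm_mul]
      exact mul_le_mul (f.norm_coe_le_norm _) (g.norm_coe_le_norm _) (norm_nonneg _) (norm_nonneg _))
  have hi2 : Integrable (fun p : (Fin n → ℝ) × (Fin n → ℝ) => f p.1 * g (mix S p.1 p.2))
      ((Measure.pi ν).prod (Measure.pi ν)) :=
    Integrable.of_bound hc2.aestronglyMeasurable (‖f‖ * ‖g‖) (Eventually.of_forall fun y => by
      rw [norm_mul]
      exact mul_le_mul (f.norm_coe_le_norm _) (g.norm_coe_le_norm _) (norm_nonneg _) (norm_nonneg _))
  have h1 : ∫ x, ES ν S f x * g x ∂(Measure.pi ν) =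
      ∫ p : (Fin n → ℝ) × (Fin n → ℝ), f (mix S p.1 p.2) * g p.1 ∂((Measure.pi ν).prod (Measure.pi ν)) := by
    rw [integral_prod _ hi1]
    congr 1
    funext x
    simp only [es_apply]
    rw [integral_mul_const]
  have h2 : ∫ x, f x * ES ν S g x ∂(Measure.pi ν) =
      ∫ p : (Fin n → ℝ) × (Fin n → ℝ), f p.1 * g (mix S p.1 p.2) ∂((Measure.pi ν).prod (Measure.pi ν)) := by
    rw [integral_prod _ hi2]
    congr 1
    funext x
    simp only [es_apply]
    rw [integral_const_mul]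
  rw [h1, h2]
  have hφ := mix_swap ν S
  have h3 : ∫ p : (Fin n → ℝ) × (Fin n → ℝ), f p.1 * g (mix S p.1 p.2) ∂((Measure.pi ν).prod (Measure.pi ν)) =
      ∫ p : (Fin n → ℝ) × (Fin n → ℝ), f (mix S p.1 p.2) * g (mix S (mix S p.1 p.2) (mix S p.2 p.1))
        ∂((Measure.pi ν).prod (Measure.pi ν)) := by
    conv_lhs => rw [← hφ.map_eq]
    exact integral_map hφ.measurable.aemeasurable hc2.aestronglyMeasurable
  rw [h3]
  congr 1
  funext p
  have : mix S (mix S p.1 p.2) (mix S p.2 p.1) = p.1 := by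
    funext i
    by_cases hi : i ∈ S <;> simp [mix, hi]
  rw [this]

theorem es_mean (S : Finset (Fin n)) (f : (Fin n → ℝ) →ᵇ ℝ) :
    ∫ x, ES ν S f x ∂(Measure.pi ν) = ∫ x, f x ∂(Measure.pi ν) := by
  have h := int_mix ν S f
  simpa [es_apply] using h

theorem es_const (S : Finset (Fin n)) (c : ℝ) :
    ES ν S (BoundedContinuousFunction.const _ c) = BoundedContinuousFunction.const _ c := by
  ext x
  rw [es_apply]
  simp

theorem es_l2 (S : Finset (Fin n)) (f : (Fin n → ℝ) →ᵇ ℝ) :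
    ∫ x, ES ν S f x ^ 2 ∂(Measure.pi ν) ≤ ∫ x, f x ^ 2 ∂(Measure.pi ν) := by
  have h0 : ∫ x, ES ν S f x * ES ν S f x ∂(Measure.pi ν) = ∫ x, f x * ES ν S f x ∂(Measure.pi ν) := by
    rw [es_symm, es_comp, Finset.inter_self]
  have hi1 : Integrable (fun x => f x ^ 2) (Measure.pi ν) := by
    have h := (f * f).integrable (Measure.pi ν)
    have e : (fun x => f x ^ 2) = ⇑(f * f) := by
      funext x
      simp [sq]
    rw [e]
    exact h
  have hi2 : Integrable (fun x => ES ν S f x ^ 2) (Measure.pi ν) := by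
    have h := (ES ν S f * ES ν S f).integrable (Measure.pi ν)
    have e : (fun x => ES ν S f x ^ 2) = ⇑(ES ν S f * ES ν S f) := by
      funext x
      simp [sq]
    rw [e]
    exact h
  have hi3 : Integrable (fun x => f x * ES ν S f x) (Measure.pi ν) := by
    exact (f * ES ν S f).integrable (Measure.pi ν)
  have h1 : ∫ x, f x * ES ν S f x ∂(Measure.pi ν) ≤
      ∫ x, ((1 / 2) * f x ^ 2 + (1 / 2) * ES ν S f x ^ 2) ∂(Measure.pi ν) := by
    apply integral_mono hi3 ((hi1.const_mul _).add (hi2.const_mul _))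
    intro x
    simp only [Pi.add_apply]
    nlinarith [sq_nonneg (f x - ES ν S f x)]
  rw [integral_add (hi1.const_mul _) (hi2.const_mul _), integral_const_mul, integral_const_mul] at h1
  have h2 : ∫ x, ES ν S f x ^ 2 ∂(Measure.pi ν) = ∫ x, ES ν S f x * ES ν S f x ∂(Measure.pi ν) := by
    congr 1
    funext x
    ring
  rw [← h0, ← h2] at h1
  linarith

/-- expectation given the coordinates `0, .., b - 1` -/
noncomputable def Pp (b : ℕ) : ((Fin n → ℝ) →ᵇ ℝ) →ₗ[ℝ] ((Fin n → ℝ) →ᵇ ℝ) :=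
  ES ν (Finset.univ.filter fun i : Fin n => (i : ℕ) < b)

/-- expectation given the coordinates `a, .., n - 1` -/
noncomputable def Qtl (a : ℕ) : ((Fin n → ℝ) →ᵇ ℝ) →ₗ[ℝ] ((Fin n → ℝ) →ᵇ ℝ) :=
  ES ν (Finset.univ.filter fun i : Fin n => a ≤ (i : ℕ))

/-- `(P_{b+1} - P_b) (Q_a - Q_{a+1})` -/
noncomputable def pq (a b : ℕ) : ((Fin n → ℝ) →ᵇ ℝ) →ₗ[ℝ] ((Fin n → ℝ) →ᵇ ℝ) :=
  (Pp ν (b + 1) - Pp ν b) ∘ₗ (Qtl ν a - Qtl ν (a + 1))

theorem pp_pp (b c : ℕ) (f : (Fin n → ℝ) →ᵇ ℝ) : Pp ν b (Pp ν c f) = Pp ν (min b c) f := by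
  unfold Pp
  rw [es_comp]
  congr 2
  ext i
  simp

theorem qq_qq (a c : ℕ) (f : (Fin n → ℝ) →ᵇ ℝ) : Qtl ν a (Qtl ν c f) = Qtl ν (max a c) f := by
  unfold Qtl
  rw [es_comp]
  congr 2
  ext i
  simp

theorem pp_qq (a b : ℕ) (f : (Fin n → ℝ) →ᵇ ℝ) : Pp ν b (Qtl ν a f) = Qtl ν a (Pp ν b f) := by
  unfold Pp Qtl
  rw [es_comp, es_comp, Finset.inter_comm]

end Pool.Agent.SGP
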