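import Pool.Agent.SGP.Defs

/-!
# EUL: pathwise convergence of the Euler scheme for a given solution

Deterministic. `y` is continuous on `[0,h]`, `y t = x + ∫_0^t b (y s) ds + w t`, `w 0 = 0`, `b` Lipschitz on balls.

Proof. `y` is bounded on `[0,h]`, say `‖y t‖ ≤ R`, `K` = Lipschitz constant of `b` on the ball of radius `R + 1`. Given
`0 < δ` let `N` be so large that `‖y s - y t‖ ≤ δ` for `|s-t| ≤ h/N`, `s,t ∈ [0,h]` (uniform continuity). Let `e_k` be
the error `‖Y_k - y (k h / N)‖` of the Euler scheme, `k ≤ N`. As long as `e_k ≤ 1` (so `‖Y_k‖ ≤ R+1`):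
`Y_{k+1} - y(t_{k+1}) = Y_k - y(t_k) + ∫_{t_k}^{t_{k+1}} (b (Y_k) - b (y s)) ds`
(`(h/N) • b(Y_k) = ∫_{t_k}^{t_{k+1}} b (Y_k) ds`), and `‖b (Y_k) - b (y s)‖ ≤ K (e_k + δ)`. So
`e_{k+1} ≤ (1 + K h / N) e_k + K δ h / N`, which gives by induction `e_k ≤ K h δ exp(K h)` for all `k ≤ N`
(`(1 + a/N)^k ≤ exp a`; or prove `e_k ≤ (exp (K k h / N) - 1 + small)..`, e.g. the invariant
`e_k ≤ δ (exp (K t_k) - 1)`: `(1 + K h/N)(exp (K t_k) - 1) + K h/N ≤ exp (K t_{k+1}) - 1` because
`(1 + K h/N) exp (K t_k) ≤ exp (K t_{k+1})`) provided `δ (exp (K h) - 1) ≤ 1`. The last step `k = N` gives the claim.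
The integrals exist since `s ↦ b (y s)` is continuous on `[0,h]` (`b` is continuous: Lipschitz on balls).
-/

open MeasureTheory ProbabilityTheory Set Filter Topology
open scoped ENNReal NNReal BoundedContinuousFunction

namespace Pool.Agent.SGP

open Pool.Agent.OYG

/-- one step of the error estimate -/
theorem eul_step {E : Type*} [NormedAddCommGroup E] [NormedSpace ℝ E] [CompleteSpace E] (b : E → E)
    {K R δ τ a : ℝ} (hK : 0 ≤ K) (hτ : 0 ≤ τ)
    (hb : ∀ x y : E, ‖x‖ ≤ R → ‖y‖ ≤ R → ‖b x - b y‖ ≤ K * ‖x - y‖)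
    {y : ℝ → E} {s : ℝ} (hc : ContinuousOn (fun r => b (y r)) (Icc s (s + τ)))
    (hy : ∀ r ∈ Icc s (s + τ), ‖y r‖ ≤ R) (hyδ : ∀ r ∈ Icc s (s + τ), ‖y s - y r‖ ≤ δ)
    {e ξ : E} (he : ‖e‖ ≤ R) (hea : ‖e - y s‖ ≤ a)
    (heq : y (s + τ) = y s + (∫ r in s..(s + τ), b (y r)) + ξ) :
    ‖(e + τ • b e + ξ) - y (s + τ)‖ ≤ (1 + K * τ) * a + K * τ * δ := by
  have h1 : (∫ _ in s..(s + τ), b e) = τ • b e := by
    rw [intervalIntegral.integral_const]; simp
  have hci : ContinuousOn (fun r => b (y r)) (uIcc s (s + τ)) := by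
    rw [uIcc_of_le (by linarith)]
    exact hc
  have h2 : (e + τ • b e + ξ) - y (s + τ) = (e - y s) + ∫ r in s..(s + τ), (b e - b (y r)) := by
    rw [intervalIntegral.integral_sub (intervalIntegrable_const) hci.intervalIntegrable, h1, heq]
    abel
  have h3 : ‖∫ r in s..(s + τ), (b e - b (y r))‖ ≤ (K * (a + δ)) * |s + τ - s| := by
    refine intervalIntegral.norm_integral_le_of_norm_le_const fun r hr => ?_
    rw [uIoc_of_le (by linarith)] at hr
    have hr' : r ∈ Icc s (s + τ) := ⟨hr.1.le, hr.2⟩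
    have h4 : ‖b e - b (y r)‖ ≤ K * ‖e - y r‖ := hb _ _ he (hy r hr')
    have h5 : ‖e - y r‖ ≤ a + δ := by
      have : e - y r = (e - y s) + (y s - y r) := by abel
      rw [this]
      exact (norm_add_le _ _).trans (add_le_add hea (hyδ r hr'))
    exact h4.trans (mul_le_mul_of_nonneg_left h5 hK)
  have h7 : |s + τ - s| = τ := by rw [add_sub_cancel_left, abs_of_nonneg hτ]
  rw [h7] at h3
  rw [h2]
  refine (norm_add_le _ _).trans ?_
  nlinarith [h3, hea]

theorem cont_of_locLip {E : Type*} [NormedAddCommGroup E] (b : E → E)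
    (hb : ∀ R : ℝ, ∃ K : ℝ, 0 ≤ K ∧ ∀ x y : E, ‖x‖ ≤ R → ‖y‖ ≤ R → ‖b x - b y‖ ≤ K * ‖x - y‖) :
    Continuous b := by
  rw [continuous_iff_continuousAt]
  intro p
  obtain ⟨L, hL, hLL⟩ := hb (‖p‖ + 1)
  have hlip : LipschitzOnWith L.toNNReal b (Metric.closedBall p 1) := by
    refine LipschitzOnWith.of_dist_le_mul fun u hu v hv => ?_
    rw [dist_eq_norm, dist_eq_norm, Real.coe_toNNReal L hL]
    refine hLL u v ?_ ?_
    · have := norm_le_norm_add_norm_sub' u p
      rw [Metric.mem_closedBall, dist_eq_norm] at hu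
      linarith
    · have := norm_le_norm_add_norm_sub' v p
      rw [Metric.mem_closedBall, dist_eq_norm] at hv
      linarith
  exact hlip.continuousOn.continuousAt (Metric.closedBall_mem_nhds p one_pos)

theorem eul_tendsto {E : Type*} [NormedAddCommGroup E] [NormedSpace ℝ E] [CompleteSpace E] (b : E → E)
    (hb : ∀ R : ℝ, ∃ K : ℝ, 0 ≤ K ∧ ∀ x y : E, ‖x‖ ≤ R → ‖y‖ ≤ R → ‖b x - b y‖ ≤ K * ‖x - y‖)
    {h : ℝ} (hh : 0 < h) (x : E) (y w : ℝ → E) (hy : ContinuousOn y (Icc 0 h)) (hw : w 0 = 0)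
    (heq : ∀ t ∈ Icc (0 : ℝ) h, y t = x + (∫ s in (0 : ℝ)..t, b (y s)) + w t) :
    Tendsto (fun N : ℕ => eul b h N x (fun k => w (((k : ℝ) + 1) * (h / N)) - w ((k : ℝ) * (h / N))) N) atTop
      (𝓝 (y h)) := by
  obtain ⟨R0, hR0⟩ := (isCompact_Icc (a := (0 : ℝ)) (b := h)).exists_bound_of_continuousOn hy
  have hbc : Continuous b := cont_of_locLip b hb
  have hby : ContinuousOn (fun r => b (y r)) (Icc 0 h) := hbc.comp_continuousOn hy
  obtain ⟨L, hL, hLL⟩ := hb (R0 + 1)
  have h0 : y 0 = x := by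
    have := heq 0 ⟨le_rfl, hh.le⟩
    rw [intervalIntegral.integral_same, hw] at this
    simpa using this
  rw [Metric.tendsto_atTop]
  intro ε' hε'
  set K : ℝ := Real.exp (L * h) with hK
  have hK1 : 0 < K := Real.exp_pos _
  obtain ⟨ε, hε, hε1, hε2⟩ : ∃ ε > 0, K * ε < ε' ∧ K * ε < 1 := by
    refine ⟨min ε' 1 / (2 * K), by positivity, ?_, ?_⟩
    · have : K * (min ε' 1 / (2 * K)) = min ε' 1 / 2 := by field_simp
      rw [this]
      have := min_le_left ε' 1
      linarith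
    · have : K * (min ε' 1 / (2 * K)) = min ε' 1 / 2 := by field_simp
      rw [this]
      have := min_le_right ε' 1
      linarith
  have huc : UniformContinuousOn y (Icc 0 h) :=
    isCompact_Icc.uniformContinuousOn_of_continuous hy
  rw [Metric.uniformContinuousOn_iff] at huc
  obtain ⟨δ, hδ, hδ1⟩ := huc ε hε
  obtain ⟨N0, hN0⟩ := exists_nat_gt (h / δ)
  refine ⟨N0 + 1, fun N hN => ?_⟩
  have hNpos : (0 : ℝ) < N := by
    have : 0 < N := by omega
    exact_mod_cast this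
  set τ : ℝ := h / N with hh'
  have hτ0 : 0 ≤ τ := div_nonneg hh.le hNpos.le
  have hτδ : τ < δ := by
    have h1 : (N0 : ℝ) < N := by exact_mod_cast (by omega : N0 < N)
    rw [hh', div_lt_iff₀ hNpos]
    rw [div_lt_iff₀ hδ] at hN0
    nlinarith
  have hNh : (N : ℝ) * τ = h := by rw [hh']; field_simp
  set ξ : ℕ → E := fun k => w (((k : ℝ) + 1) * τ) - w ((k : ℝ) * τ) with hξ
  have key : ∀ k : ℕ, k ≤ N → ‖eul b h N x ξ k - y ((k : ℝ) * τ)‖ ≤ ((1 + L * τ) ^ k - 1) * ε := by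
    intro k
    induction k with
    | zero =>
      intro _
      simp [eul, h0]
    | succ k ih =>
      intro hk
      have ih' := ih (by omega)
      have hkN : ((k : ℝ) + 1) ≤ N := by exact_mod_cast hk
      have hs0 : 0 ≤ (k : ℝ) * τ := by positivity
      have hs1 : (k : ℝ) * τ + τ ≤ h := by
        have : ((k : ℝ) + 1) * τ ≤ N * τ := mul_le_mul_of_nonneg_right hkN hτ0
        linarith
      have hsub : Icc ((k : ℝ) * τ) ((k : ℝ) * τ + τ) ⊆ Icc 0 h := fun r hr =>
        ⟨hs0.trans hr.1, hr.2.trans hs1⟩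
      have hpow : (1 + L * τ) ^ k ≤ K := by
        have h1 : 1 + L * τ ≤ Real.exp (L * τ) := by
          have := Real.add_one_le_exp (L * τ); linarith
        have h2 : (1 + L * τ) ^ k ≤ (Real.exp (L * τ)) ^ k :=
          pow_le_pow_left₀ (by positivity) h1 k
        rw [← Real.exp_nat_mul] at h2
        refine h2.trans (Real.exp_le_exp.mpr ?_)
        have : (k : ℝ) * τ ≤ h := by linarith
        nlinarith
      have hek : ((1 + L * τ) ^ k - 1) * ε < 1 := by
        have : ((1 + L * τ) ^ k - 1) * ε ≤ K * ε :=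
          mul_le_mul_of_nonneg_right (by linarith) hε.le
        linarith
      have hyk : ‖y ((k : ℝ) * τ)‖ ≤ R0 := hR0 _ (hsub ⟨le_rfl, by linarith⟩)
      have heR : ‖eul b h N x ξ k‖ ≤ R0 + 1 := by
        have := norm_le_norm_add_norm_sub' (eul b h N x ξ k) (y ((k : ℝ) * τ))
        linarith
      have hstep := eul_step b (R := R0 + 1) (δ := ε) (a := ((1 + L * τ) ^ k - 1) * ε)
        (s := (k : ℝ) * τ) (e := eul b h N x ξ k) (ξ := ξ k) hL hτ0 hLL (hby.mono hsub)
        (fun r hr => (hR0 r (hsub hr)).trans (by linarith))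
        (fun r hr => by
          have h1 := hδ1 ((k : ℝ) * τ) (hsub ⟨le_rfl, by linarith⟩) r (hsub hr) (by
            rw [Real.dist_eq, abs_sub_comm, abs_of_nonneg (by linarith [hr.1])]
            linarith [hr.2])
          rw [dist_eq_norm] at h1
          exact h1.le) heR ih' (by
          have e1 := heq ((k : ℝ) * τ + τ) (hsub ⟨by linarith, le_rfl⟩)
          have e2 := heq ((k : ℝ) * τ) (hsub ⟨le_rfl, by linarith⟩)
          have hcI : ∀ a c : ℝ, a ∈ Icc 0 h → c ∈ Icc 0 h →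
              IntervalIntegrable (fun s => b (y s)) volume a c := fun a c ha hc => by
            refine ContinuousOn.intervalIntegrable ?_
            exact hby.mono (uIcc_subset_Icc ha hc)
          have e3 := intervalIntegral.integral_add_adjacent_intervals
            (hcI 0 ((k : ℝ) * τ) ⟨le_rfl, hh.le⟩ (hsub ⟨le_rfl, by linarith⟩))
            (hcI ((k : ℝ) * τ) ((k : ℝ) * τ + τ) (hsub ⟨le_rfl, by linarith⟩)
              (hsub ⟨by linarith, le_rfl⟩))
          have e4 : ξ k = w ((k : ℝ) * τ + τ) - w ((k : ℝ) * τ) := by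
            show w (((k : ℝ) + 1) * τ) - w ((k : ℝ) * τ) = _
            rw [add_mul, one_mul]
          rw [e1, e4, ← e3, e2]
          abel)
      have e5 : (((k + 1 : ℕ) : ℝ)) * τ = (k : ℝ) * τ + τ := by push_cast; ring
      rw [e5]
      show ‖(eul b h N x ξ k + τ • b (eul b h N x ξ k) + ξ k) - y ((k : ℝ) * τ + τ)‖ ≤ _
      refine hstep.trans (le_of_eq ?_)
      rw [pow_succ]
      ring
  have h1 := key N le_rfl
  rw [hNh] at h1
  rw [dist_eq_norm]
  refine lt_of_le_of_lt h1 (lt_of_le_of_lt ?_ hε1)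
  have h2 : (1 + L * τ) ^ N ≤ K := by
    have h3 : 1 + L * τ ≤ Real.exp (L * τ) := by
      have := Real.add_one_le_exp (L * τ); linarith
    have h4 : (1 + L * τ) ^ N ≤ (Real.exp (L * τ)) ^ N := pow_le_pow_left₀ (by positivity) h3 N
    rw [← Real.exp_nat_mul] at h4
    refine h4.trans (Real.exp_le_exp.mpr ?_)
    have : (N : ℝ) * (L * τ) = L * h := by rw [← hNh]; ring
    linarith
  exact mul_le_mul_of_nonneg_right (by linarith) hε.le

end Pool.Agent.SGP
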