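import Pool.Agent.SGP.MAR

/-!
# EXD: the part of `E f (G x t)` on the event of an early exit

Proof. Let `E = {¬ ∀ q ≤ h, ‖G x q - x‖ ≤ r}`, `N ≥ 1`, `d = h / N`, `S_j = {∀ q ≤ j d, ‖G x q - x‖ ≤ r}` (measurable w.r.t. `past B (j d)`,
`measurableSet_stay`), decreasing in `j`, `S_0` = everything (`gap_zero`), `S_N = Eᶜ`. `E` is the disjoint union of `A_j = S_{j-1} \ S_j`,
`1 ≤ j ≤ N`, `A_j ∈ past B (j d)`. By `markov` (with `s = j d`, `h = t - j d`): `∫_{A_j} f (G x t) = ∫_{A_j} pt (t - j d) f (G x (j d))`. If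
`ω ∈ A_j` and `‖G x (j d) ω - x‖ ≤ 2 r` the integrand is at most `m` (`t - j d ∈ [t - h, t]`); otherwise it is at most `‖f‖`, and
`‖G x (j d) - G x ((j-1) d)‖ > r` (since `‖G x ((j-1) d) - x‖ ≤ r` on `S_{j-1}`), so `ω` is in the oscillation event of `osc_small` with
`δ ≥ d`. Sum over `j`: `∫_E f (G x t) ≤ m P(E) + ‖f‖ ε` for `N` large (`N ≥ h / δ`), for every `ε > 0`.
-/

open MeasureTheory ProbabilityTheory Set Filter Topology
open scoped ENNReal NNReal BoundedContinuousFunction

namespace Pool.Agent.SGP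

open Pool.Agent.OYG

variable {n : ℕ} {Ω : Type*} [MeasurableSpace Ω] {P : Measure Ω} {μ : Fin (n + 1) → ℝ} {u : ℝ → ℝ}
  {B : Fin (n + 1) → ℝ≥0 → Ω → ℝ} {G : (Fin n → ℝ) → ℝ≥0 → Ω → Fin n → ℝ}

theorem exit_part (S : Sys P n μ u B G) (f : (Fin n → ℝ) →ᵇ ℝ) (x : Fin n → ℝ) {r : ℝ} (hr : 0 < r)
    {h t : ℝ≥0} (hh : 0 < h) (hht : h ≤ t) {m : ℝ}
    (hm : ∀ y, ‖y - x‖ ≤ 2 * r → ∀ s : ℝ≥0, t ≤ s + h → s ≤ t → pt P G s f y ≤ m) :
    ∫ ω in {ω | ¬ ∀ q ≤ h, ‖G x q ω - x‖ ≤ r}, f (G x t ω) ∂P ≤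
      m * P.real {ω | ¬ ∀ q ≤ h, ‖G x q ω - x‖ ≤ r} := by
  have hP := S.prob
  set St : ℝ≥0 → Set Ω := fun s => {ω | ∀ q ≤ s, ‖G x q ω - x‖ ≤ r} with hSt
  have hSm : ∀ s, MeasurableSet[past B s] (St s) := fun s => measurableSet_stay S x x r s
  have hSm' : ∀ s, MeasurableSet (St s) := fun s => past_le S.bm s _ (hSm s)
  have hS0 : St 0 = Set.univ := by
    ext ω
    simp only [mem_univ, iff_true]
    intro q hq
    have : q = 0 := le_antisymm hq zero_le
    rw [this, gap_zero S x ω, sub_self, norm_zero]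
    exact hr.le
  have hSmono : ∀ a b, a ≤ b → St b ⊆ St a := fun a b hab ω hω q hq => hω q (hq.trans hab)
  have hfi : ∀ s, Integrable (fun ω => f (G x s ω)) P := fun s => integrable_gap S s f x
  have hEeq : {ω | ¬ ∀ q ≤ h, ‖G x q ω - x‖ ≤ r} = (St h)ᶜ := rfl
  rw [hEeq]
  have key : ∀ ε : ℝ, 0 < ε → ∫ ω in (St h)ᶜ, f (G x t ω) ∂P ≤
      m * P.real (St h)ᶜ + (‖f‖ + |m|) * ε := by
    intro ε hε
    obtain ⟨δ, hδ, hosc⟩ := osc_small S x h hr hε
    obtain ⟨N, hN⟩ := exists_nat_gt ((h : ℝ) / δ)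
    have hδ' : (0 : ℝ) < δ := hδ
    have hNpos : (0 : ℝ) < N := lt_of_le_of_lt (by positivity) hN
    set d : ℝ≥0 := h / N with hd
    have hdN : (N : ℝ≥0) * d = h := by
      have : (N : ℝ≥0) ≠ 0 := by
        intro h0
        rw [← NNReal.coe_eq_zero] at h0
        simp only [NNReal.coe_natCast] at h0
        linarith
      rw [hd]
      field_simp
    have hdδ : d ≤ δ := by
      rw [← NNReal.coe_le_coe, hd, NNReal.coe_div, NNReal.coe_natCast, div_le_iff₀ hNpos]
      rw [div_lt_iff₀ hδ'] at hN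
      linarith
    set O : Set Ω := {ω | ∃ s q : ℝ≥0, s ≤ h ∧ q ≤ h ∧ nndist s q ≤ δ ∧ r < ‖G x s ω - G x q ω‖}
      with hO
    set O' : Set Ω := toMeasurable P O with hO'
    have hO'm : MeasurableSet O' := measurableSet_toMeasurable _ _
    have hO'P : P.real O' ≤ ε := by
      rw [measureReal_def, hO', measure_toMeasurable]
      have := ENNReal.toReal_mono ENNReal.ofReal_ne_top hosc
      rwa [ENNReal.toReal_ofReal hε.le] at this
    set A : ℕ → Set Ω := fun j => St (j * d) \ St ((j + 1 : ℕ) * d) with hA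
    have hAm : ∀ j, MeasurableSet[past B ((j + 1 : ℕ) * d)] (A j) := fun j =>
      MeasurableSet.diff (past_mono (by gcongr; omega) _ (hSm _)) (hSm _)
    have hAm' : ∀ j, MeasurableSet (A j) := fun j => past_le S.bm _ _ (hAm j)
    have step : ∀ j, j < N → ∫ ω in A j, f (G x t ω) ∂P ≤
        m * P.real (A j) + (‖f‖ + |m|) * P.real (A j ∩ O') := by
      intro j hj
      have hj1 : ((j + 1 : ℕ) : ℝ≥0) * d ≤ h := by
        calc ((j + 1 : ℕ) : ℝ≥0) * d ≤ (N : ℝ≥0) * d := by
              gcongr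
              exact_mod_cast hj
          _ = h := hdN
      have hjt : ((j + 1 : ℕ) : ℝ≥0) * d ≤ t := hj1.trans hht
      have hmk := markov S x (((j + 1 : ℕ) : ℝ≥0) * d) (t - ((j + 1 : ℕ) : ℝ≥0) * d) f (A j) (hAm j)
      rw [add_tsub_cancel_of_le hjt] at hmk
      rw [hmk]
      set s' : ℝ≥0 := t - ((j + 1 : ℕ) : ℝ≥0) * d with hs'
      have hs1 : s' ≤ t := tsub_le_self
      have hs2 : t ≤ s' + h := by
        calc t = s' + ((j + 1 : ℕ) : ℝ≥0) * d := (tsub_add_cancel_of_le hjt).symm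
          _ ≤ s' + h := by gcongr
      have hpti : Integrable (fun ω => pt P G s' f (G x (((j + 1 : ℕ) : ℝ≥0) * d) ω)) P :=
        integrable_gap S _ (ptb S s' f) x
      have hbound : ∀ ω ∈ A j, pt P G s' f (G x (((j + 1 : ℕ) : ℝ≥0) * d) ω) ≤
          m + O'.indicator (fun _ => ‖f‖ + |m|) ω := by
        intro ω hω
        by_cases hg : ‖G x (((j + 1 : ℕ) : ℝ≥0) * d) ω - x‖ ≤ 2 * r
        · have h1 := hm _ hg s' hs2 hs1
          have h2 : 0 ≤ O'.indicator (fun _ => ‖f‖ + |m|) ω :=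
            Set.indicator_nonneg (fun _ _ => by positivity) _
          linarith
        · push Not at hg
          have hjd : ((j : ℕ) : ℝ≥0) * d ≤ ((j + 1 : ℕ) : ℝ≥0) * d := by
            gcongr
            omega
          have h1 : ‖G x (((j : ℕ) : ℝ≥0) * d) ω - x‖ ≤ r := hω.1 _ le_rfl
          have h2 : r < ‖G x (((j + 1 : ℕ) : ℝ≥0) * d) ω - G x (((j : ℕ) : ℝ≥0) * d) ω‖ := by
            have h3 := norm_add_le (G x (((j + 1 : ℕ) : ℝ≥0) * d) ω - G x (((j : ℕ) : ℝ≥0) * d) ω)
              (G x (((j : ℕ) : ℝ≥0) * d) ω - x)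
            rw [sub_add_sub_cancel] at h3
            linarith
          have h4 : ω ∈ O := by
            refine ⟨((j + 1 : ℕ) : ℝ≥0) * d, ((j : ℕ) : ℝ≥0) * d, hj1, hjd.trans hj1, ?_, h2⟩
            rw [← NNReal.coe_le_coe, coe_nndist, NNReal.dist_eq]
            have e : (((((j + 1 : ℕ) : ℝ≥0) * d : ℝ≥0) : ℝ)) - ((((j : ℕ) : ℝ≥0) * d : ℝ≥0) : ℝ) =
                (d : ℝ) := by
              push_cast
              ring
            rw [e, abs_of_nonneg (NNReal.coe_nonneg d)]
            exact_mod_cast hdδ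
          have h5 : ω ∈ O' := subset_toMeasurable _ _ h4
          rw [Set.indicator_of_mem h5]
          have h6 := (le_abs_self _).trans (pt_le S f s' (G x (((j + 1 : ℕ) : ℝ≥0) * d) ω))
          have h7 := neg_abs_le m
          linarith
      have hi2 : Integrable (fun ω => m + O'.indicator (fun _ => ‖f‖ + |m|) ω) P :=
        (integrable_const _).add ((integrable_const _).indicator hO'm)
      calc ∫ ω in A j, pt P G s' f (G x (((j + 1 : ℕ) : ℝ≥0) * d) ω) ∂P
          ≤ ∫ ω in A j, (m + O'.indicator (fun _ => ‖f‖ + |m|) ω) ∂P :=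
            setIntegral_mono_on hpti.integrableOn hi2.integrableOn (hAm' j) hbound
        _ = m * P.real (A j) + (‖f‖ + |m|) * P.real (A j ∩ O') := by
            have i1 : Integrable (fun _ : Ω => m) (P.restrict (A j)) := integrable_const _
            have i2 : Integrable (O'.indicator fun _ : Ω => ‖f‖ + |m|) (P.restrict (A j)) :=
              (integrable_const _).indicator hO'm
            have e1 := integral_add i1 i2
            have e2 : ∫ ω in A j, (O'.indicator fun _ : Ω => ‖f‖ + |m|) ω ∂P =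
                P.real (O' ∩ A j) * (‖f‖ + |m|) := by
              rw [integral_indicator hO'm, Measure.restrict_restrict hO'm]
              simp
            have e3 : ∫ ω in A j, m ∂P = P.real (A j) * m := by simp
            rw [e1, e2, e3, Set.inter_comm O' (A j)]
            ring
    -- sum over the blocks
    have hsum : ∀ k, k ≤ N → ∫ ω in (St (k * d))ᶜ, f (G x t ω) ∂P ≤
        m * P.real (St (k * d))ᶜ + (‖f‖ + |m|) * P.real ((St (k * d))ᶜ ∩ O') := by
      intro k
      induction k with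
      | zero =>
        intro _
        have : (St (((0 : ℕ) : ℝ≥0) * d))ᶜ = ∅ := by
          rw [Nat.cast_zero, zero_mul, hS0, Set.compl_univ]
        rw [this]
        simp
      | succ k ih =>
        intro hk
        have ih' := ih (by omega)
        have hst := step k (by omega)
        have hU : (St ((k + 1 : ℕ) * d))ᶜ = (St (k * d))ᶜ ∪ A k := by
          ext ω
          simp only [hA, mem_compl_iff, mem_union, Set.mem_sdiff]
          constructor
          · intro h1
            by_cases h2 : ω ∈ St (k * d)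
            · exact Or.inr ⟨h2, h1⟩
            · exact Or.inl h2
          · rintro (h1 | h1)
            · exact fun h2 => h1 (hSmono _ _ (by gcongr; omega) h2)
            · exact h1.2
        have hdis : Disjoint (St (k * d))ᶜ (A k) := by
          rw [Set.disjoint_left]
          intro ω h1 h2
          exact h1 h2.1
        rw [hU, setIntegral_union hdis (hAm' k) (hfi t).integrableOn (hfi t).integrableOn,
          measureReal_union hdis (hAm' k), Set.union_inter_distrib_right,
          measureReal_union (hdis.mono Set.inter_subset_left Set.inter_subset_left)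
            ((hAm' k).inter hO'm)]
        linarith
    have hfin := hsum N le_rfl
    rw [hdN] at hfin
    have h8 : P.real ((St h)ᶜ ∩ O') ≤ ε := (measureReal_mono Set.inter_subset_right).trans hO'P
    have h9 : (‖f‖ + |m|) * P.real ((St h)ᶜ ∩ O') ≤ (‖f‖ + |m|) * ε :=
      mul_le_mul_of_nonneg_left h8 (by positivity)
    linarith
  refine le_of_forall_pos_le_add fun ε hε => ?_
  have hc : 0 < ‖f‖ + |m| + 1 := by positivity
  have h1 := key (ε / (‖f‖ + |m| + 1)) (by positivity)
  have h2 : (‖f‖ + |m|) * (ε / (‖f‖ + |m| + 1)) ≤ ε := by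
    rw [mul_div_assoc', div_le_iff₀ hc]
    nlinarith
  linarith

end Pool.Agent.SGP
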