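import Pool.Agent.SGP.SUP
import Pool.Agent.SGP.EUG
import Pool.Agent.SGP.FEL

/-!
# EXT: exit from a small ball in a short time

Proof. Let `M0` be the bound of the drift on the ball of radius `R + 1` (`drift_bdd`), `M = 4 * (M0 + 1)`. If
`M * h ≤ r` and all increments satisfy `|B i q ω - B i 0 ω| < r / 4` for `q ≤ h`, then `‖G x t ω - x‖ < r` for all
`t ≤ h`: otherwise let `t` be the first time with `‖G x t ω - x‖ ≥ r` (closed set, continuous path); before `t` the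
path is in the ball of radius `R + r ≤ R + 1`, so each coordinate of `G x t ω - x` is at most
`M0 t + r/4 + r/4 < r/4 + r/2 < r` in absolute value (equation `(S.gap x).eq`), contradiction. So the event is
contained in the event of `sup_prob` with `a = r / 4`: `C = 256 * (C_sup + 1)`.
-/

open MeasureTheory ProbabilityTheory Set Filter Topology
open scoped ENNReal NNReal BoundedContinuousFunction

namespace Pool.Agent.SGP

open Pool.Agent.OYG

variable {n : ℕ} {Ω : Type*} [MeasurableSpace Ω] {P : Measure Ω} {μ : Fin (n + 1) → ℝ} {u : ℝ → ℝ}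
  {B : Fin (n + 1) → ℝ≥0 → Ω → ℝ} {G : (Fin n → ℝ) → ℝ≥0 → Ω → Fin n → ℝ}

/-- deterministic part: small increments imply no exit, and a bound for the displacement -/
theorem no_exit (S : Sys P n μ u B G) (R : ℝ) : ∃ M : ℝ, 0 < M ∧ ∀ (x : Fin n → ℝ) (r : ℝ) (h : ℝ≥0) (ω : Ω),
    ‖x‖ ≤ R → 0 < r → r ≤ 1 → M * h ≤ r → (∀ q ≤ h, ∀ i, |B i q ω - B i 0 ω| < r / 4) →
    ∀ t ≤ h, ‖G x t ω - x‖ < r := by
  obtain ⟨M0, hM0, hM⟩ := drift_bdd μ S.pot.lip (R + 1)
  refine ⟨4 * (M0 + 1), by positivity, fun x r h ω hx hr hr1 hMh hB t ht => ?_⟩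
  by_contra hcon
  rw [not_lt] at hcon
  have hc : Continuous fun q : ℝ≥0 => ‖G x q ω - x‖ := (((S.gap x).cont ω).sub continuous_const).norm
  have hcl : IsClosed {q : ℝ≥0 | r ≤ ‖G x q ω - x‖} := isClosed_le continuous_const hc
  have hK : IsCompact (Icc (0 : ℝ≥0) t ∩ {q : ℝ≥0 | r ≤ ‖G x q ω - x‖}) := isCompact_Icc.inter_right hcl
  obtain ⟨t0, ht0⟩ := hK.exists_isLeast ⟨t, ⟨zero_le, le_rfl⟩, hcon⟩
  have ht0t : t0 ≤ t := ht0.1.1.2
  have ht0r : r ≤ ‖G x t0 ω - x‖ := ht0.1.2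
  have hbef : ∀ q < t0, ‖G x q ω - x‖ < r := by
    intro q hq
    by_contra hq2
    rw [not_lt] at hq2
    exact absurd (ht0.2 ⟨⟨zero_le, hq.le.trans ht0t⟩, hq2⟩) (not_le.2 hq)
  have hlt : ‖G x t0 ω - x‖ < r := by
    rw [pi_norm_lt_iff hr]
    intro i
    have heq := (S.gap x).eq ω t0 i
    have h1 : (G x t0 ω - x) i = (∫ s in (0 : ℝ)..t0, drift n μ u (G x s.toNNReal ω) i) +
        ((B i.succ t0 ω - B i.succ 0 ω) - (B i.castSucc t0 ω - B i.castSucc 0 ω)) := by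
      rw [Pi.sub_apply, heq, S.bm.zero, S.bm.zero]
      ring
    have h2 : ‖∫ s in (0 : ℝ)..t0, drift n μ u (G x s.toNNReal ω) i‖ ≤ M0 * |(t0 : ℝ) - 0| := by
      refine intervalIntegral.norm_integral_le_of_norm_le_const_ae ?_
      have hne : ∀ᵐ s : ℝ, s ≠ (t0 : ℝ) := by
        rw [ae_iff]
        simp
      filter_upwards [hne] with s hs hs2
      have ht00' : (0 : ℝ) ≤ (t0 : ℝ) := t0.2
      rw [uIoc_of_le ht00'] at hs2
      have hs3 : s.toNNReal < t0 := by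
        rw [Real.toNNReal_lt_iff_lt_coe hs2.1.le]
        exact lt_of_le_of_ne hs2.2 hs
      have hb := hbef _ hs3
      have h3 : ‖G x s.toNNReal ω‖ ≤ R + 1 := by
        have h4 : G x s.toNNReal ω = x + (G x s.toNNReal ω - x) := by abel
        rw [h4]
        refine (norm_add_le _ _).trans ?_
        linarith
      exact (norm_le_pi_norm (drift n μ u (G x s.toNNReal ω)) i).trans (hM _ h3)
    have hb1 := hB t0 (ht0t.trans ht) i.succ
    have hb2 := hB t0 (ht0t.trans ht) i.castSucc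
    have ht0h : (t0 : ℝ) ≤ h := by exact_mod_cast ht0t.trans ht
    have ht00 : (0 : ℝ) ≤ t0 := t0.2
    rw [h1, Real.norm_eq_abs]
    rw [Real.norm_eq_abs, sub_zero, abs_of_nonneg ht00] at h2
    have h5 : M0 * (t0 : ℝ) ≤ M0 * h := mul_le_mul_of_nonneg_left ht0h hM0
    have h6 : M0 * (h : ℝ) ≤ r / 4 := by
      have h7 : (0 : ℝ) ≤ h := h.2
      nlinarith
    calc |(∫ s in (0 : ℝ)..t0, drift n μ u (G x s.toNNReal ω) i) +
          ((B i.succ t0 ω - B i.succ 0 ω) - (B i.castSucc t0 ω - B i.castSucc 0 ω))| ≤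
        |∫ s in (0 : ℝ)..t0, drift n μ u (G x s.toNNReal ω) i| +
          (|B i.succ t0 ω - B i.succ 0 ω| + |B i.castSucc t0 ω - B i.castSucc 0 ω|) :=
          (abs_add_le _ _).trans (add_le_add le_rfl (abs_sub _ _))
      _ < r := by linarith
  exact absurd ht0r (not_le.2 hlt)

theorem exit_prob (S : Sys P n μ u B G) (R : ℝ) : ∃ M C : ℝ, 0 < M ∧ 0 < C ∧
    ∀ (x : Fin n → ℝ) (r : ℝ) (h : ℝ≥0), ‖x‖ ≤ R → 0 < r → r ≤ 1 → M * h ≤ r →
    P {ω | ∃ t ≤ h, r ≤ ‖G x t ω - x‖} ≤ ENNReal.ofReal (C * (h : ℝ) ^ 2 / r ^ 4) := by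
  have hP := S.prob
  obtain ⟨M, hM, hne⟩ := no_exit S R
  obtain ⟨C, hC, hsup⟩ := sup_prob S.bm
  refine ⟨M, 256 * (C + 1), hM, by positivity, fun x r h hx hr hr1 hMh => ?_⟩
  have hsub : {ω | ∃ t ≤ h, r ≤ ‖G x t ω - x‖} ⊆
      {ω | ∃ q : ℝ≥0, q ≤ h ∧ ∃ i, r / 4 ≤ |B i (0 + q) ω - B i 0 ω|} := by
    rintro ω ⟨t, ht, htr⟩
    by_contra hcon
    have h1 : ∀ q ≤ h, ∀ i, |B i q ω - B i 0 ω| < r / 4 := by
      intro q hq i
      by_contra h2
      rw [not_lt] at h2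
      refine hcon ⟨q, hq, i, ?_⟩
      rw [zero_add]
      exact h2
    exact absurd htr (not_le.2 (hne x r h ω hx hr hr1 hMh h1 t ht))
  refine (measure_mono hsub).trans ((hsup 0 h (r / 4) (by positivity)).trans ?_)
  refine ENNReal.ofReal_le_ofReal ?_
  have h1 : C * (h : ℝ) ^ 2 / (r / 4) ^ 4 = (256 * C) * (h : ℝ) ^ 2 / r ^ 4 := by
    field_simp
    norm_num
  rw [h1]
  gcongr
  linarith

end Pool.Agent.SGP
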