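import Pool.Agent.SGP.HDY

/-!
# GLE: the gap is at most `m² / 4`

Proof. `ρ = dn u m`, `w = m - u`, `E = 1/√ρ`, `E' = (w/2) E`. For a bump function `s0` with support `(1, 2)` put
`f g = s0 (g / L) E g`. `f' = (s0' (g/L) / L + (w/2) s0 (g/L)) E`, so with `0 ≤ u ≤ m` on `[L, ∞)`
`∫ f'² dν ≤ (1 + 1/L) (m²/4) L A + (1 + L) / L B`, `A = ∫ s0²`, `B = ∫ s0'²`; `∫ f² dν = L A`;
`(∫ f dν)² ≤ η ∫ f² dν` if `ν ((L, ∞)) ≤ η`. By the Poincaré inequality
`gap (1 - η) L A ≤ (1 + 1/L) (m²/4) L A + (1 + L)/L B`; divide by `L A`, let `L → ∞`, then `η → 0`.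
-/

open MeasureTheory ProbabilityTheory Set Filter Topology
open scoped ENNReal NNReal BoundedContinuousFunction

namespace Pool.Agent.SGP

variable {u : ℝ → ℝ} {m : ℝ}

/-- `1 / √ρ` -/
private noncomputable def gE (u : ℝ → ℝ) (m g : ℝ) : ℝ := (√(dn u m g))⁻¹

private theorem gE_pos (hu : Pot u) (hm : 0 < m) (g : ℝ) : 0 < gE u m g :=
  inv_pos.mpr (Real.sqrt_pos.mpr (dn_pos hu hm g))

private theorem gE_sq (hu : Pot u) (hm : 0 < m) (g : ℝ) : gE u m g ^ 2 * dn u m g = 1 := by
  have h := dn_pos hu hm g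
  rw [gE, inv_pow, Real.sq_sqrt h.le]
  exact inv_mul_cancel₀ h.ne'

private theorem gE_deriv (hu : Pot u) (hm : 0 < m) (g : ℝ) :
    HasDerivAt (gE u m) ((m - u g) / 2 * gE u m g) g := by
  have h := dn_pos hu hm g
  have hs := Real.sqrt_pos.mpr h
  have h1 := ((dn_hasDerivAt hu m g).sqrt h.ne').fun_inv hs.ne'
  have e : -(-(m - u g) * dn u m g / (2 * √(dn u m g))) / √(dn u m g) ^ 2 = (m - u g) / 2 * gE u m g := by
    rw [gE, Real.sq_sqrt h.le]
    field_simp
  rw [e] at h1
  exact h1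

private theorem gE_cont (hu : Pot u) (hm : 0 < m) : Continuous (gE u m) :=
  continuous_iff_continuousAt.mpr fun g => (gE_deriv hu hm g).continuousAt

/-- the profile -/
private noncomputable def gB : ContDiffBump (3 / 2 : ℝ) := ⟨1 / 4, 1 / 2, by norm_num, by norm_num⟩

private theorem gB_zero {g : ℝ} (h : g ≤ 1) : gB g = 0 := by
  refine gB.zero_of_le_dist ?_
  rw [Real.dist_eq]
  have : gB.rOut = 1 / 2 := rfl
  rw [this, abs_of_neg (by linarith)]
  linarith

private theorem gB_diff : ContDiff ℝ 1 (fun g => gB g) := gB.contDiff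

private theorem gB_A : 0 < ∫ g, gB g ^ 2 := by
  have hc : Continuous fun g => gB g ^ 2 := gB.continuous.pow 2
  have hs : HasCompactSupport fun g => gB g ^ 2 := by
    have := gB.hasCompactSupport.comp_left (g := fun x : ℝ => x ^ 2) (by norm_num)
    exact this
  refine hc.integral_pos_of_hasCompactSupport_nonneg_nonzero hs (fun g => sq_nonneg _) (x := 3 / 2) ?_
  have h1 : gB (3 / 2) = 1 := gB.one_of_mem_closedBall (Metric.mem_closedBall_self gB.rIn_pos.le)
  rw [h1]
  norm_num

/-- the test function -/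
private noncomputable def gf (u : ℝ → ℝ) (m L g : ℝ) : ℝ := gB (g / L) * gE u m g

private theorem gf_deriv (hu : Pot u) (hm : 0 < m) (L g : ℝ) : HasDerivAt (gf u m L)
    ((deriv (fun g => gB g) (g / L) / L + (m - u g) / 2 * gB (g / L)) * gE u m g) g := by
  have h1 : HasDerivAt (fun g => gB g) (deriv (fun g => gB g) (g / L)) (g / L) :=
    (gB_diff.differentiable one_ne_zero _).hasDerivAt
  have h2 : HasDerivAt (fun g : ℝ => g / L) (1 / L) g := (hasDerivAt_id g).div_const L
  have h3 := (h1.comp g h2).mul (gE_deriv hu hm g)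
  have e : deriv (fun g => gB g) (g / L) * (1 / L) * gE u m g + (gB (g / L)) * ((m - u g) / 2 * gE u m g) =
      (deriv (fun g => gB g) (g / L) / L + (m - u g) / 2 * gB (g / L)) * gE u m g := by ring
  rw [← e]
  exact h3

private theorem gf_contDiff (hu : Pot u) (hm : 0 < m) (L : ℝ) : ContDiff ℝ 1 (gf u m L) := by
  rw [contDiff_one_iff_deriv]
  refine ⟨fun g => (gf_deriv hu hm L g).differentiableAt, ?_⟩
  have e : deriv (gf u m L) = fun g =>
      (deriv (fun g => gB g) (g / L) / L + (m - u g) / 2 * gB (g / L)) * gE u m g := by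
    funext g
    exact (gf_deriv hu hm L g).deriv
  rw [e]
  have h1 : Continuous (deriv fun g => gB g) := gB_diff.continuous_deriv le_rfl
  have h2 : Continuous u := hu.lip.continuous
  have h3 := gE_cont hu hm
  have h4 : Continuous fun g => gB g := gB.continuous
  have h5 : Continuous fun g : ℝ => g / L := continuous_id.div_const L
  have h6 : Continuous fun g : ℝ => gB (g / L) := h4.comp h5
  have h7 : Continuous fun g : ℝ => deriv (fun g => gB g) (g / L) := h1.comp h5
  fun_prop

private theorem cs_scale {h : ℝ → ℝ} (hh : HasCompactSupport h) {L : ℝ} (hL : 0 < L) :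
    HasCompactSupport fun g : ℝ => h (g / L) := by
  have h1 := hh.comp_homeomorph (Homeomorph.mulRight₀ (L⁻¹) (inv_ne_zero hL.ne'))
  have e : (fun g : ℝ => h (g / L)) = h ∘ (Homeomorph.mulRight₀ (L⁻¹) (inv_ne_zero hL.ne')) := by
    funext g
    simp [div_eq_mul_inv]
  rw [e]
  exact h1

private theorem gf_supp (u : ℝ → ℝ) (m : ℝ) {L : ℝ} (hL : 0 < L) : HasCompactSupport (gf u m L) :=
  (cs_scale gB.hasCompactSupport hL).mul_right

private theorem sc_integrable {h : ℝ → ℝ} (hh : HasCompactSupport h) (hc : Continuous h) {L : ℝ} (hL : 0 < L) :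
    Integrable fun g : ℝ => h (g / L) ^ 2 := by
  have h1 : Continuous fun g : ℝ => h (g / L) ^ 2 := (hc.comp (continuous_id.div_const L)).pow 2
  have h2 := (cs_scale hh hL).comp_left (g := fun x : ℝ => x ^ 2) (by norm_num)
  exact h1.integrable_of_hasCompactSupport h2

private theorem gf_zero {L : ℝ} (hL : 0 < L) {g : ℝ} (hg : g ≤ L) : gf u m L g = 0 := by
  rw [gf, gB_zero ((div_le_one hL).mpr hg), zero_mul]

private theorem gle_pt {a b ε : ℝ} (hε : 0 < ε) : (a + b) ^ 2 ≤ (1 + ε) * b ^ 2 + (1 + 1 / ε) * a ^ 2 := by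
  have h : 0 ≤ (ε * b - a) ^ 2 / ε := by positivity
  have e : (ε * b - a) ^ 2 / ε = ε * b ^ 2 - 2 * a * b + 1 / ε * a ^ 2 := by
    field_simp
    ring
  nlinarith

private theorem gle_step (hu : Pot u) (hm : 0 < m) {L η : ℝ} (hL : 0 < L) (hLu : ∀ g, L ≤ g → u g ≤ m) (hη : 0 < η)
    (hN : (nu u m).real (Ioi L) ≤ η) : gap u m * ((1 - η) * (L * ∫ g, gB g ^ 2)) ≤
      (1 + 1 / L) * (m ^ 2 / 4) * (L * ∫ g, gB g ^ 2) + (1 + L) / L * ∫ g, deriv (fun g => gB g) g ^ 2 := by
  have := nu_prob hu hm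
  have hf := gf_contDiff hu hm L
  have hs := gf_supp u m hL
  have hP := poincare u m hf hs
  set A := ∫ g, gB g ^ 2 with hA
  set B := ∫ g, deriv (fun g => gB g) g ^ 2 with hB
  have sc1 : ∫ g, gB (g / L) ^ 2 = L * A := by
    have := Measure.integral_comp_div (fun g => gB g ^ 2) L
    rw [this, abs_of_pos hL, smul_eq_mul]
  have sc2 : ∫ g, deriv (fun g => gB g) (g / L) ^ 2 = L * B := by
    have := Measure.integral_comp_div (fun g => deriv (fun g => gB g) g ^ 2) L
    rw [this, abs_of_pos hL, smul_eq_mul]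
  -- ∫ f²
  have hF : ∫ g, gf u m L g ^ 2 ∂(nu u m) = L * A := by
    rw [integral_nu hu hm, ← sc1]
    refine integral_congr_ae (Eventually.of_forall fun g => ?_)
    show gf u m L g ^ 2 * dn u m g = gB (g / L) ^ 2
    rw [gf, mul_pow, mul_assoc, gE_sq hu hm, mul_one]
  have hmem : MemLp (gf u m L) 2 (nu u m) := hf.continuous.memLp_of_hasCompactSupport hs
  have hi1 : Integrable (gf u m L) (nu u m) := hmem.integrable (by norm_num)
  have hi2 : Integrable (fun g => gf u m L g ^ 2) (nu u m) := hmem.integrable_sq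
  set M := ∫ g, gf u m L g ∂(nu u m) with hM
  have hz : ∀ g, g ∉ Ioi L → gf u m L g = 0 := fun g hg => gf_zero hL (not_lt.mp hg)
  have hM2 : M ^ 2 ≤ η * (L * A) := by
    have h0 : 0 ≤ ∫ g in Ioi L, (gf u m L g - M / η) ^ 2 ∂(nu u m) :=
      integral_nonneg fun g => sq_nonneg _
    have e1 : ∫ g in Ioi L, (gf u m L g - M / η) ^ 2 ∂(nu u m) =
        L * A - 2 * (M / η) * M + (M / η) ^ 2 * (nu u m).real (Ioi L) := by
      have e2 : ∀ g, (gf u m L g - M / η) ^ 2 = (gf u m L g ^ 2 - 2 * (M / η) * gf u m L g) + (M / η) ^ 2 := by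
        intro g
        ring
      have i3 : Integrable (fun g => 2 * (M / η) * gf u m L g) (nu u m) := hi1.const_mul _
      have i4 : Integrable (fun g => gf u m L g ^ 2 - 2 * (M / η) * gf u m L g) (nu u m) := hi2.sub i3
      have e3 : ∫ g in Ioi L, gf u m L g ^ 2 ∂(nu u m) = L * A := by
        rw [setIntegral_eq_integral_of_forall_compl_eq_zero (fun g hg => by rw [hz g hg]; ring), hF]
      have e4 : ∫ g in Ioi L, gf u m L g ∂(nu u m) = M := by
        rw [setIntegral_eq_integral_of_forall_compl_eq_zero hz]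
      simp only [e2]
      rw [integral_add i4.integrableOn (integrable_const _),
        integral_sub hi2.integrableOn i3.integrableOn, integral_const_mul, e3, e4, setIntegral_const, smul_eq_mul]
      ring
    rw [e1] at h0
    have h1 : (M / η) ^ 2 * (nu u m).real (Ioi L) ≤ (M / η) ^ 2 * η :=
      mul_le_mul_of_nonneg_left hN (sq_nonneg _)
    have h2 : (M / η) ^ 2 * η = M ^ 2 / η := by field_simp
    have h3 : 2 * (M / η) * M = 2 * (M ^ 2 / η) := by ring
    have h4 : M ^ 2 / η ≤ L * A := by linarith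
    rw [div_le_iff₀ hη] at h4
    linarith
  have hvr : (1 - η) * (L * A) ≤ vr (nu u m) (gf u m L) := by
    rw [vr_eq hmem, hF]
    linarith
  -- ∫ f'²
  have hD : ∫ g, deriv (gf u m L) g ^ 2 ∂(nu u m) ≤ (1 + 1 / L) * (m ^ 2 / 4) * (L * A) + (1 + L) / L * B := by
    have j1 : Integrable fun g : ℝ => gB (g / L) ^ 2 := sc_integrable gB.hasCompactSupport gB.continuous hL
    have j2 : Integrable fun g : ℝ => deriv (fun g => gB g) (g / L) ^ 2 :=
      sc_integrable gB.hasCompactSupport.deriv (gB_diff.continuous_deriv le_rfl) hL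
    have e3 : (1 + 1 / L) * (m ^ 2 / 4) * (L * A) + (1 + L) / L * B =
        ∫ g, ((1 + 1 / L) * (m ^ 2 / 4) * gB (g / L) ^ 2 +
          (1 + L) / L ^ 2 * deriv (fun g => gB g) (g / L) ^ 2) := by
      rw [integral_add (j1.const_mul _) (j2.const_mul _), integral_const_mul, integral_const_mul, sc1, sc2]
      field_simp
    rw [e3, integral_nu hu hm]
    refine integral_mono_of_nonneg (Eventually.of_forall fun g => ?_) ((j1.const_mul _).add (j2.const_mul _))
      (Eventually.of_forall fun g => ?_)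
    · have := dn_pos hu hm g
      show 0 ≤ deriv (gf u m L) g ^ 2 * dn u m g
      positivity
    · show deriv (gf u m L) g ^ 2 * dn u m g ≤ (1 + 1 / L) * (m ^ 2 / 4) * gB (g / L) ^ 2 +
          (1 + L) / L ^ 2 * deriv (fun g => gB g) (g / L) ^ 2
      rw [(gf_deriv hu hm L g).deriv, mul_pow, mul_assoc, gE_sq hu hm, mul_one]
      have hpt := gle_pt (a := deriv (fun g => gB g) (g / L) / L) (b := (m - u g) / 2 * gB (g / L))
        (one_div_pos.mpr hL)
      refine hpt.trans ?_
      have k1 : ((m - u g) / 2 * gB (g / L)) ^ 2 ≤ m ^ 2 / 4 * gB (g / L) ^ 2 := by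
        rcases le_or_gt g L with h | h
        · rw [gB_zero ((div_le_one hL).mpr h)]
          norm_num
        · have h1 := hLu g h.le
          have h2 := hu.nonneg g
          rw [mul_pow]
          refine mul_le_mul_of_nonneg_right ?_ (sq_nonneg _)
          nlinarith
      have k2 : (1 + 1 / (1 / L)) * (deriv (fun g => gB g) (g / L) / L) ^ 2 =
          (1 + L) / L ^ 2 * deriv (fun g => gB g) (g / L) ^ 2 := by
        field_simp
      have k3 : 0 < 1 + 1 / L := by positivity
      rw [k2]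
      have := mul_le_mul_of_nonneg_left k1 k3.le
      linarith
  have hg := gap_nonneg u m
  calc gap u m * ((1 - η) * (L * A)) ≤ gap u m * vr (nu u m) (gf u m L) := mul_le_mul_of_nonneg_left hvr hg
    _ ≤ _ := hP.trans hD

theorem gap_le (hu : Pot u) (hm : 0 < m) : gap u m ≤ m ^ 2 / 4 := by
  have := nu_prob hu hm
  have hA := gB_A
  set A := ∫ g, gB g ^ 2 with hAd
  set B := ∫ g, deriv (fun g => gB g) g ^ 2 with hBd
  have key : ∀ η : ℝ, 0 < η → gap u m * (1 - η) ≤ m ^ 2 / 4 := by
    intro η hη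
    have hev1 : ∀ᶠ L in atTop, ∀ g, L ≤ g → u g ≤ m := by
      have h1 := hu.top.eventually (ge_mem_nhds hm)
      obtain ⟨R0, hR0⟩ := eventually_atTop.mp h1
      exact eventually_atTop.mpr ⟨R0, fun L hL g hg => hR0 g (hL.trans hg)⟩
    have hev2 : ∀ᶠ L in atTop, (nu u m).real (Ioi L) ≤ η := by
      have h1 := (tendsto_cdf_atTop (nu u m)).eventually (le_mem_nhds (show 1 - η < 1 by linarith))
      filter_upwards [h1] with L hL
      rw [cdf_eq_real] at hL
      have h2 : (nu u m).real (Iic L)ᶜ = 1 - (nu u m).real (Iic L) := probReal_compl_eq_one_sub measurableSet_Iic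
      rw [compl_Iic] at h2
      rw [h2]
      linarith
    have hev3 : ∀ᶠ L : ℝ in atTop, gap u m * (1 - η) ≤ (1 + 1 / L) * (m ^ 2 / 4) + (1 / L ^ 2 + 1 / L) * (B / A) := by
      filter_upwards [hev1, hev2, eventually_gt_atTop 0] with L h1 h2 h3
      have h4 := gle_step hu hm h3 h1 hη h2
      rw [← hAd, ← hBd] at h4
      have h5 : 0 < L * A := mul_pos h3 hA
      have e1 : gap u m * ((1 - η) * (L * A)) = (gap u m * (1 - η)) * (L * A) := by ring
      have e2 : (1 + 1 / L) * (m ^ 2 / 4) * (L * A) + (1 + L) / L * B =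
          ((1 + 1 / L) * (m ^ 2 / 4) + (1 / L ^ 2 + 1 / L) * (B / A)) * (L * A) := by
        field_simp
      rw [e1, e2] at h4
      exact le_of_mul_le_mul_right h4 h5
    have hlim : Tendsto (fun L : ℝ => (1 + 1 / L) * (m ^ 2 / 4) + (1 / L ^ 2 + 1 / L) * (B / A)) atTop
        (𝓝 ((1 + 0) * (m ^ 2 / 4) + (0 + 0) * (B / A))) := by
      have t1 : Tendsto (fun L : ℝ => 1 / L) atTop (𝓝 0) := by
        simpa using tendsto_inv_atTop_zero (𝕜 := ℝ)
      have t2 : Tendsto (fun L : ℝ => 1 / L ^ 2) atTop (𝓝 0) := by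
        have := t1.pow 2
        refine (this.congr fun L => ?_).trans (by norm_num)
        rw [div_pow, one_pow]
      exact ((t1.const_add 1).mul_const _).add ((t2.add t1).mul_const _)
    have h := ge_of_tendsto hlim hev3
    linarith
  have hlim2 : Tendsto (fun η : ℝ => gap u m * (1 - η)) (𝓝[>] 0) (𝓝 (gap u m * (1 - 0))) := by
    refine Tendsto.mono_left ?_ nhdsWithin_le_nhds
    exact (Continuous.tendsto (by fun_prop) 0)
  have h := le_of_tendsto hlim2 (eventually_nhdsWithin_of_forall key)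
  linarith

end Pool.Agent.SGP
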