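import Pool.Agent.SGP.Defs

/-!
# PWC: Poincaré inequality on a cube, symmetric form

Proof. `Q = closedBall 0 R` in the sup norm, convex. For `x, y ∈ Q`:
`(z y - z x)² ≤ ∫_0^1 (Dz (x + s (y - x)) (y - x))² ds ≤ (2R)² n ∫_0^1 ∑_i (∂_i z)²(x + s (y-x)) ds`
(Jensen; `|Dz a| ≤ ∑ |∂_i z| |a_i|`, `‖y - x‖ ≤ 2R`). Integrate over `Q × Q`. For `s ∈ [1/2, 1]` fix `x` and substitute
`y' = x + s (y - x) ∈ Q`, `dy = s^{-n} dy' ≤ 2^n dy'`; for `s ∈ [0, 1/2]` fix `y` and substitute in `x`
(`x + s(y - x) = (1-s) x + s y`). Both give at most `vol(Q) 2^n ∫_Q ∑ (∂_i z)²`.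
-/

open MeasureTheory ProbabilityTheory Set Filter Topology
open scoped ENNReal NNReal BoundedContinuousFunction

namespace Pool.Agent.SGP

/-- scaling and translation -/
theorem pwc_scale (n : ℕ) (F : (Fin n → ℝ) → ℝ≥0∞) (hF : Measurable F) {s : ℝ} (hs : 1 / 2 ≤ s)
    (a : Fin n → ℝ) : ∫⁻ y, F (a + s • y) ≤ 2 ^ n * ∫⁻ y, F y := by
  have hs0 : s ≠ 0 := by
    intro h
    rw [h] at hs
    norm_num at hs
  have hsp : 0 < s := by linarith
  have h1 : ∫⁻ y, F (a + s • y) = ∫⁻ y, F (a + y) ∂((volume : Measure (Fin n → ℝ)).map (fun y => s • y)) := by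
    exact (lintegral_map (f := fun y => F (a + y)) (hF.comp (measurable_const_add a))
      (measurable_const_smul s)).symm
  rw [h1, Measure.map_addHaar_smul volume hs0, lintegral_smul_measure, lintegral_add_left_eq_self]
  rw [smul_eq_mul]
  refine mul_le_mul_left ?_ _
  have h2 : (Module.finrank ℝ (Fin n → ℝ)) = n := by simp
  rw [h2, abs_of_pos (by positivity)]
  have h3 : (s ^ n)⁻¹ ≤ 2 ^ n := by
    rw [inv_le_comm₀ (by positivity) (by positivity), ← inv_pow]
    exact pow_le_pow_left₀ (by norm_num) (by linarith) n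
  calc ENNReal.ofReal (s ^ n)⁻¹ ≤ ENNReal.ofReal (2 ^ n) := ENNReal.ofReal_le_ofReal h3
    _ = 2 ^ n := by
      rw [ENNReal.ofReal_pow (by norm_num)]
      norm_num

/-- the derivative in coordinates -/
theorem pwc_cs {n : ℕ} (L : (Fin n → ℝ) →L[ℝ] ℝ) (a : Fin n → ℝ) {R : ℝ} (ha : ‖a‖ ≤ 2 * R) :
    (L a) ^ 2 ≤ (n * (2 * R) ^ 2) * ∑ i : Fin n, (L (ev i)) ^ 2 := by
  have h1 : L a = ∑ i, a i * L (ev i) := by
    have h2 : a = ∑ i, a i • (ev i : Fin n → ℝ) := by
      funext j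
      simp [ev, Finset.sum_apply, Pi.single_apply]
    conv_lhs => rw [h2]
    rw [map_sum]
    refine Finset.sum_congr rfl fun i _ => ?_
    rw [map_smul, smul_eq_mul]
  have h3 : (∑ i, a i * L (ev i)) ^ 2 ≤ (∑ i, a i ^ 2) * ∑ i, L (ev i) ^ 2 :=
    Finset.sum_mul_sq_le_sq_mul_sq _ _ _
  have h4 : ∑ i, a i ^ 2 ≤ n * (2 * R) ^ 2 := by
    calc ∑ i, a i ^ 2 ≤ ∑ _i : Fin n, (2 * R) ^ 2 := by
          refine Finset.sum_le_sum fun i _ => ?_
          have h5 : |a i| ≤ 2 * R := (norm_le_pi_norm a i).trans ha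
          rw [← sq_abs (a i)]
          exact pow_le_pow_left₀ (abs_nonneg _) h5 2
      _ = n * (2 * R) ^ 2 := by
          rw [Finset.sum_const, Finset.card_univ, Fintype.card_fin, nsmul_eq_mul]
  rw [h1]
  exact h3.trans (mul_le_mul_of_nonneg_right h4 (Finset.sum_nonneg fun i _ => sq_nonneg _))

/-- Jensen on the unit interval -/
theorem pwc_jensen {φ : ℝ → ℝ} (hφ : Continuous φ) :
    (∫ s in (0 : ℝ)..1, φ s) ^ 2 ≤ ∫ s in (0 : ℝ)..1, φ s ^ 2 := by
  set m := ∫ s in (0 : ℝ)..1, φ s with hm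
  have h0 : 0 ≤ ∫ s in (0 : ℝ)..1, (φ s - m) ^ 2 :=
    intervalIntegral.integral_nonneg zero_le_one fun s _ => sq_nonneg _
  have i1 : IntervalIntegrable (fun s => φ s ^ 2) volume 0 1 := (hφ.pow 2).intervalIntegrable _ _
  have i2 : IntervalIntegrable (fun s => 2 * m * φ s) volume 0 1 :=
    (continuous_const.mul hφ).intervalIntegrable _ _
  have i3 : IntervalIntegrable (fun _ : ℝ => m ^ 2) volume 0 1 := continuous_const.intervalIntegrable _ _
  have e : ∫ s in (0 : ℝ)..1, (φ s - m) ^ 2 = (∫ s in (0 : ℝ)..1, φ s ^ 2) - m ^ 2 := by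
    have e1 : (fun s => (φ s - m) ^ 2) = fun s => φ s ^ 2 - 2 * m * φ s + m ^ 2 := by
      funext s
      ring
    rw [e1, intervalIntegral.integral_add (i1.sub i2) i3, intervalIntegral.integral_sub i1 i2,
      intervalIntegral.integral_const_mul, intervalIntegral.integral_const, ← hm]
    simp only [sub_zero, one_smul]
    ring
  rw [e] at h0
  linarith

/-- the pointwise estimate -/
theorem pwc_pt {n : ℕ} {R : ℝ} {z : (Fin n → ℝ) → ℝ} (hz : ContDiff ℝ 1 z) {x y : Fin n → ℝ}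
    (hx : ‖x‖ ≤ R) (hy : ‖y‖ ≤ R) :
    ENNReal.ofReal ((z x - z y) ^ 2) ≤ ∫⁻ s in Ioc (0 : ℝ) 1,
      ENNReal.ofReal ((n * (2 * R) ^ 2) * ∑ i : Fin n, fderiv ℝ z ((1 - s) • x + s • y) (ev i) ^ 2) := by
  have hcd : Continuous (fderiv ℝ z) := hz.continuous_fderiv one_ne_zero
  set p : ℝ → (Fin n → ℝ) := fun s => (1 - s) • x + s • y with hp
  have hpc : Continuous p := by
    rw [hp]
    fun_prop
  have hpd : ∀ s, HasDerivAt p (y - x) s := by
    intro s
    have h1 : HasDerivAt (fun s : ℝ => (1 - s) • x + s • y) ((-1 : ℝ) • x + (1 : ℝ) • y) s :=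
      (((hasDerivAt_id s).const_sub 1).smul_const x).add ((hasDerivAt_id s).smul_const y)
    have e : (-1 : ℝ) • x + (1 : ℝ) • y = y - x := by
      rw [one_smul, neg_one_smul]
      abel
    rw [← e]
    exact h1
  have hd : ∀ s, HasDerivAt (fun s => z (p s)) (fderiv ℝ z (p s) (y - x)) s := by
    intro s
    have h1 : HasFDerivAt z (fderiv ℝ z (p s)) (p s) :=
      (hz.differentiable one_ne_zero (p s)).hasFDerivAt
    exact h1.comp_hasDerivAt s (hpd s)
  have hc : Continuous fun s => fderiv ℝ z (p s) (y - x) := by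
    exact (hcd.comp hpc).clm_apply continuous_const
  have h1 : ∫ s in (0 : ℝ)..1, fderiv ℝ z (p s) (y - x) = z y - z x := by
    rw [intervalIntegral.integral_eq_sub_of_hasDerivAt (fun s _ => hd s) (hc.intervalIntegrable _ _)]
    simp [hp]
  have h2 := pwc_jensen hc
  rw [h1] at h2
  have hn : ‖y - x‖ ≤ 2 * R := (norm_sub_le y x).trans (by linarith)
  have hgc : Continuous fun s => (n * (2 * R) ^ 2) * ∑ i : Fin n, fderiv ℝ z (p s) (ev i) ^ 2 := by
    refine continuous_const.mul (continuous_finsetSum _ fun i _ => ?_)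
    exact ((hcd.comp hpc).clm_apply continuous_const).pow 2
  have h3 : ∫ s in (0 : ℝ)..1, fderiv ℝ z (p s) (y - x) ^ 2 ≤
      ∫ s in (0 : ℝ)..1, (n * (2 * R) ^ 2) * ∑ i : Fin n, fderiv ℝ z (p s) (ev i) ^ 2 :=
    intervalIntegral.integral_mono_on zero_le_one ((hc.pow 2).intervalIntegrable _ _)
      (hgc.intervalIntegrable _ _) fun s _ => pwc_cs _ _ hn
  have h4 : (z x - z y) ^ 2 ≤ ∫ s in (0 : ℝ)..1, (n * (2 * R) ^ 2) * ∑ i : Fin n, fderiv ℝ z (p s) (ev i) ^ 2 := by
    have e : (z x - z y) ^ 2 = (z y - z x) ^ 2 := by ring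
    rw [e]
    exact h2.trans h3
  refine (ENNReal.ofReal_le_ofReal h4).trans (le_of_eq ?_)
  rw [intervalIntegral.integral_of_le zero_le_one]
  refine ofReal_integral_eq_lintegral_ofReal ?_ (Eventually.of_forall fun s => ?_)
  · exact (hgc.integrableOn_Icc (a := 0) (b := 1)).mono_set Ioc_subset_Icc_self
  · exact mul_nonneg (by positivity) (Finset.sum_nonneg fun i _ => sq_nonneg _)

theorem pw_cube (n : ℕ) {R : ℝ} (hR : 0 < R) : ∃ C : ℝ, 0 < C ∧ ∀ z : (Fin n → ℝ) → ℝ, ContDiff ℝ 1 z →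
    ∫ x in Metric.closedBall 0 R, (∫ y in Metric.closedBall 0 R, (z x - z y) ^ 2) ≤
      C * ∫ x in Metric.closedBall 0 R, ∑ i : Fin n, fderiv ℝ z x (ev i) ^ 2 := by
  set Q : Set (Fin n → ℝ) := Metric.closedBall 0 R with hQ
  have hQc : IsCompact Q := isCompact_closedBall 0 R
  have hQm : MeasurableSet Q := hQc.measurableSet
  have hQv : volume Q ≠ ⊤ := hQc.measure_lt_top.ne
  have hQx : Convex ℝ Q := convex_closedBall 0 R
  set K : ℝ := n * (2 * R) ^ 2 with hK
  have hK0 : 0 ≤ K := by positivity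
  refine ⟨K * 2 ^ n * (volume Q).toReal + 1, by positivity, fun z hz => ?_⟩
  have hcd : Continuous (fderiv ℝ z) := hz.continuous_fderiv one_ne_zero
  set g : (Fin n → ℝ) → ℝ := fun x => ∑ i : Fin n, fderiv ℝ z x (ev i) ^ 2 with hg
  have hgc : Continuous g := by
    refine continuous_finsetSum _ fun i _ => ?_
    exact (hcd.clm_apply continuous_const).pow 2
  have hg0 : ∀ x, 0 ≤ g x := fun x => Finset.sum_nonneg fun i _ => sq_nonneg _
  set gE : (Fin n → ℝ) → ℝ≥0∞ := fun x => ENNReal.ofReal (K * g x) with hgE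
  have hgEm : Measurable gE := (continuous_const.mul hgc).measurable.ennreal_ofReal
  set F : (Fin n → ℝ) → ℝ≥0∞ := Q.indicator gE with hF
  have hFm : Measurable F := hgEm.indicator hQm
  have hFi : ∫⁻ y, F y = ∫⁻ y in Q, gE y := lintegral_indicator hQm _
  set I : ℝ≥0∞ := ∫⁻ y in Q, gE y with hI
  -- each slice
  have slice : ∀ s ∈ Icc (0 : ℝ) 1, ∫⁻ x in Q, ∫⁻ y in Q, gE ((1 - s) • x + s • y) ≤ volume Q * (2 ^ n * I) := by
    intro s hs
    have hmem : ∀ x ∈ Q, ∀ y ∈ Q, (1 - s) • x + s • y ∈ Q := fun x hx y hy =>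
      hQx hx hy (by linarith [hs.2]) hs.1 (by ring)
    rcases le_total (1 / 2) s with h | h
    · calc ∫⁻ x in Q, ∫⁻ y in Q, gE ((1 - s) • x + s • y) ≤ ∫⁻ _ in Q, 2 ^ n * I := by
            refine setLIntegral_mono' hQm fun x hx => ?_
            calc ∫⁻ y in Q, gE ((1 - s) • x + s • y) ≤ ∫⁻ y in Q, F ((1 - s) • x + s • y) := by
                  refine setLIntegral_mono' hQm fun y hy => ?_
                  rw [hF, indicator_of_mem (hmem x hx y hy)]
              _ ≤ ∫⁻ y, F ((1 - s) • x + s • y) := setLIntegral_le_lintegral _ _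
              _ ≤ 2 ^ n * ∫⁻ y, F y := pwc_scale n F hFm h _
              _ = 2 ^ n * I := by rw [hFi]
        _ = volume Q * (2 ^ n * I) := by
            rw [setLIntegral_const, mul_comm]
    · have hm : Measurable fun q : (Fin n → ℝ) × (Fin n → ℝ) => gE ((1 - s) • q.1 + s • q.2) := by
        refine hgEm.comp ?_
        fun_prop
      calc ∫⁻ x in Q, ∫⁻ y in Q, gE ((1 - s) • x + s • y)
          = ∫⁻ y in Q, ∫⁻ x in Q, gE ((1 - s) • x + s • y) :=
            lintegral_lintegral_swap hm.aemeasurable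
        _ ≤ ∫⁻ _ in Q, 2 ^ n * I := by
            refine setLIntegral_mono' hQm fun y hy => ?_
            calc ∫⁻ x in Q, gE ((1 - s) • x + s • y) ≤ ∫⁻ x in Q, F (s • y + (1 - s) • x) := by
                  refine setLIntegral_mono' hQm fun x hx => ?_
                  rw [add_comm (s • y), hF, indicator_of_mem (hmem x hx y hy)]
              _ ≤ ∫⁻ x, F (s • y + (1 - s) • x) := setLIntegral_le_lintegral _ _
              _ ≤ 2 ^ n * ∫⁻ y, F y := pwc_scale n F hFm (by linarith) _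
              _ = 2 ^ n * I := by rw [hFi]
        _ = volume Q * (2 ^ n * I) := by
            rw [setLIntegral_const, mul_comm]
  -- the double integral
  have hmain : ∫⁻ x in Q, ∫⁻ y in Q, ENNReal.ofReal ((z x - z y) ^ 2) ≤ volume Q * (2 ^ n * I) := by
    have hm3 : Measurable fun q : ((Fin n → ℝ) × (Fin n → ℝ)) × ℝ =>
        gE ((1 - q.2) • q.1.1 + q.2 • q.1.2) := by
      refine hgEm.comp ?_
      fun_prop
    have hm2 : ∀ x, Measurable fun q : (Fin n → ℝ) × ℝ => gE ((1 - q.2) • x + q.2 • q.1) := by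
      intro x
      refine hgEm.comp ?_
      fun_prop
    calc ∫⁻ x in Q, ∫⁻ y in Q, ENNReal.ofReal ((z x - z y) ^ 2)
        ≤ ∫⁻ x in Q, ∫⁻ y in Q, ∫⁻ s in Ioc (0 : ℝ) 1, gE ((1 - s) • x + s • y) := by
          refine setLIntegral_mono' hQm fun x hx => setLIntegral_mono' hQm fun y hy => ?_
          exact pwc_pt hz (mem_closedBall_zero_iff.1 hx) (mem_closedBall_zero_iff.1 hy)
      _ = ∫⁻ x in Q, ∫⁻ s in Ioc (0 : ℝ) 1, ∫⁻ y in Q, gE ((1 - s) • x + s • y) := by
          refine lintegral_congr fun x => ?_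
          exact lintegral_lintegral_swap (hm2 x).aemeasurable
      _ = ∫⁻ s in Ioc (0 : ℝ) 1, ∫⁻ x in Q, ∫⁻ y in Q, gE ((1 - s) • x + s • y) := by
          refine lintegral_lintegral_swap ?_
          have : Measurable fun q : ((Fin n → ℝ) × ℝ) => ∫⁻ y in Q, gE ((1 - q.2) • q.1 + q.2 • y) := by
            refine Measurable.lintegral_prod_right' (f := fun q : ((Fin n → ℝ) × ℝ) × (Fin n → ℝ) =>
              gE ((1 - q.1.2) • q.1.1 + q.1.2 • q.2)) ?_
            refine hgEm.comp ?_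
            fun_prop
          exact this.aemeasurable
      _ ≤ ∫⁻ _ in Ioc (0 : ℝ) 1, volume Q * (2 ^ n * I) :=
          setLIntegral_mono' measurableSet_Ioc fun s hs => slice s ⟨hs.1.le, hs.2⟩
      _ = volume Q * (2 ^ n * I) := by
          rw [setLIntegral_const]
          simp
  -- back to real integrals
  have hzc : Continuous z := hz.continuous
  have hIfin : I ≠ ⊤ := by
    have h1 : IntegrableOn (fun x => K * g x) Q := (continuous_const.mul hgc).continuousOn.integrableOn_compact hQc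
    exact h1.lintegral_lt_top.ne
  have hIr : I.toReal = K * ∫ x in Q, g x := by
    rw [hI, ← integral_const_mul]
    rw [integral_eq_lintegral_of_nonneg_ae (Eventually.of_forall fun x => mul_nonneg hK0 (hg0 x))
      (continuous_const.mul hgc).aestronglyMeasurable]
  have hJ : ∫ x in Q, (∫ y in Q, (z x - z y) ^ 2) ≤ (volume Q * (2 ^ n * I)).toReal := by
    have hsm : StronglyMeasurable fun q : (Fin n → ℝ) × (Fin n → ℝ) => (z q.1 - z q.2) ^ 2 := by
      have : Continuous fun q : (Fin n → ℝ) × (Fin n → ℝ) => (z q.1 - z q.2) ^ 2 := by fun_prop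
      exact this.stronglyMeasurable
    rw [integral_eq_lintegral_of_nonneg_ae (Eventually.of_forall fun x =>
      integral_nonneg fun y => sq_nonneg _) (hsm.integral_prod_right' (ν := volume.restrict Q)).aestronglyMeasurable]
    refine ENNReal.toReal_mono ?_ (le_trans (lintegral_mono fun x => ?_) hmain)
    · exact ENNReal.mul_ne_top hQv (ENNReal.mul_ne_top (by simp) hIfin)
    · rw [integral_eq_lintegral_of_nonneg_ae (Eventually.of_forall fun y => sq_nonneg _)
        (by fun_prop)]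
      exact ENNReal.ofReal_toReal_le
  have hG0 : 0 ≤ ∫ x in Q, g x := integral_nonneg hg0
  refine hJ.trans ?_
  rw [ENNReal.toReal_mul, ENNReal.toReal_mul, hIr, ENNReal.toReal_pow]
  have e2 : (2 : ℝ≥0∞).toReal = 2 := by simp
  rw [e2]
  have : (K * 2 ^ n * (volume Q).toReal + 1) * ∫ x in Q, g x =
      (volume Q).toReal * (2 ^ n * (K * ∫ x in Q, g x)) + ∫ x in Q, g x := by ring
  rw [this]
  linarith

end Pool.Agent.SGP
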