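import Pool.Agent.SGP.LI1
import Pool.Agent.SGP.PWC
import Pool.Agent.SGP.MOL

/-!
# LIO: uniqueness of the infinitesimally invariant probability measure

Proof. `π` has a density `q ≥ 0`, `q ∈ L¹(dx)` (Radon-Nikodym, `Measure.withDensity_rnDeriv_eq`). Let `mo k` be the
mollifiers, `M_k x = ml (mo k) π 1 x = ∫ mo k (x - y) q y dy → q x` a.e., `z_k = log (1 + M_k / RH)` (`C^1`), so
`z_k → z = log (1 + q / RH)` a.e. Fix `R > 0` and the cube `Q = closedBall 0 R`, `c_R = min_Q RH > 0`. For `R' ≥ R` (and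
`R' ≥ 1`) take `χ = χ_{R'}` (`exists_cutoff`), `χ = 1` on `Q`; `lio_energy` gives
`c_R ∫_Q ∑ (∂_i z_k)² ≤ C (n (C'/R')² + K_{R'}² ε_k²)` (`∫ RH = 1`, `K_{R'}` Lipschitz constant of `u` on a big
interval). Let `k → ∞`, then `R' → ∞`: `∫_Q ∑ (∂_i z_k)² → 0`. By `pw_cube` and Fatou (twice, or on the product)
`∫_Q ∫_Q (z x - z y)² = 0`, so `z` is a.e. constant on `Q`; for all `R = 1, 2, ..`, the constants agree: `z` is a.e.
constant, `q = c RH` a.e., `π = c PI` and `c = 1` by total mass (`PI_eq`).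
-/

open MeasureTheory ProbabilityTheory Set Filter Topology
open scoped ENNReal NNReal BoundedContinuousFunction

namespace Pool.Agent.SGP

/-- a function which is almost everywhere constant on the product is almost everywhere constant -/
theorem lio_const {α : Type*} [MeasurableSpace α] {ν : Measure α} [SFinite ν] (hν : ν ≠ 0) {z : α → ℝ}
    (h : ∀ᵐ p ∂(ν.prod ν), z p.1 = z p.2) : ∃ c, ∀ᵐ y ∂ν, z y = c := by
  have h1 := Measure.ae_ae_of_ae_prod h
  have : (ae ν).NeBot := ae_neBot.2 hν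
  obtain ⟨x0, hx0⟩ := h1.exists
  exact ⟨z x0, hx0.mono fun y hy => hy.symm⟩

theorem lio_lip {u : ℝ → ℝ} (hu : Pot u) (ρ : ℝ) :
    ∃ K : ℝ, 0 ≤ K ∧ ∀ a b : ℝ, |a| ≤ ρ → |b| ≤ ρ → |u a - u b| ≤ K * |a - b| := by
  obtain ⟨K, hK⟩ := (hu.lip.locallyLipschitzOn (s := Metric.closedBall (0 : ℝ) ρ)).exists_lipschitzOnWith_of_compact
    (isCompact_closedBall 0 ρ)
  refine ⟨K, K.2, fun a b ha hb => ?_⟩
  have h := hK.dist_le_mul a (mem_closedBall_zero_iff.2 (by simpa using ha)) b
    (mem_closedBall_zero_iff.2 (by simpa using hb))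
  rwa [Real.dist_eq, Real.dist_eq] at h

/-- if the energies on a ball tend to zero then the limit is constant on the ball -/
theorem lio_fatou {n : ℕ} {R : ℝ} (hR : 0 < R) {zk : ℕ → (Fin n → ℝ) → ℝ} (hk : ∀ k, ContDiff ℝ 1 (zk k))
    {z : (Fin n → ℝ) → ℝ} (hz : ∀ᵐ x, Tendsto (fun k => zk k x) atTop (𝓝 (z x)))
    (hE : Tendsto (fun k => ∫ x in Metric.closedBall 0 R, ∑ i : Fin n, fderiv ℝ (zk k) x (ev i) ^ 2)
      atTop (𝓝 0)) :
    ∀ᵐ p ∂(((volume : Measure (Fin n → ℝ)).prod volume).restrict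
      (Metric.closedBall 0 R ×ˢ Metric.closedBall 0 R)), z p.1 = z p.2 := by
  set Q : Set (Fin n → ℝ) := Metric.closedBall 0 R with hQ
  have hQc : IsCompact Q := isCompact_closedBall 0 R
  have hQm : MeasurableSet Q := hQc.measurableSet
  obtain ⟨C, hC, hpw⟩ := pw_cube n hR
  set lam : Measure ((Fin n → ℝ) × (Fin n → ℝ)) :=
    ((volume : Measure (Fin n → ℝ)).prod volume).restrict (Q ×ˢ Q) with hlam
  have hlam' : lam = ((volume : Measure (Fin n → ℝ)).restrict Q).prod (volume.restrict Q) :=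
    (Measure.prod_restrict Q Q).symm
  have hcont : ∀ k, Continuous fun p : (Fin n → ℝ) × (Fin n → ℝ) => (zk k p.1 - zk k p.2) ^ 2 := by
    intro k
    have := (hk k).continuous
    fun_prop
  have hint : ∀ k, Integrable (fun p : (Fin n → ℝ) × (Fin n → ℝ) => (zk k p.1 - zk k p.2) ^ 2) lam := by
    intro k
    exact (hcont k).continuousOn.integrableOn_compact (hQc.prod hQc)
  -- the double integrals tend to zero
  have hlim : Tendsto (fun k => ∫⁻ p, ENNReal.ofReal ((zk k p.1 - zk k p.2) ^ 2) ∂lam) atTop (𝓝 0) := by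
    have h1 : ∀ k, ∫⁻ p, ENNReal.ofReal ((zk k p.1 - zk k p.2) ^ 2) ∂lam ≤
        ENNReal.ofReal (C * ∫ x in Q, ∑ i : Fin n, fderiv ℝ (zk k) x (ev i) ^ 2) := by
      intro k
      rw [← ofReal_integral_eq_lintegral_ofReal (hint k) (Eventually.of_forall fun p => sq_nonneg _)]
      refine ENNReal.ofReal_le_ofReal ?_
      have h2 := hint k
      rw [hlam'] at h2 ⊢
      rw [integral_prod _ h2]
      exact hpw (zk k) (hk k)
    have h3 : Tendsto (fun k => ENNReal.ofReal (C * ∫ x in Q, ∑ i : Fin n, fderiv ℝ (zk k) x (ev i) ^ 2))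
        atTop (𝓝 0) := by
      have h4 := ENNReal.tendsto_ofReal (hE.const_mul C)
      rwa [mul_zero, ENNReal.ofReal_zero] at h4
    exact tendsto_of_tendsto_of_tendsto_of_le_of_le tendsto_const_nhds h3 (fun k => zero_le) h1
  -- Fatou
  have hae : ∀ᵐ p ∂lam, Tendsto (fun k => ENNReal.ofReal ((zk k p.1 - zk k p.2) ^ 2)) atTop
      (𝓝 (ENNReal.ofReal ((z p.1 - z p.2) ^ 2))) := by
    have e1 : ∀ᵐ p ∂((volume : Measure (Fin n → ℝ)).prod (volume : Measure (Fin n → ℝ))),
        Tendsto (fun k => zk k p.1) atTop (𝓝 (z p.1)) :=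
      Measure.quasiMeasurePreserving_fst.ae hz
    have e2 : ∀ᵐ p ∂((volume : Measure (Fin n → ℝ)).prod (volume : Measure (Fin n → ℝ))),
        Tendsto (fun k => zk k p.2) atTop (𝓝 (z p.2)) :=
      Measure.quasiMeasurePreserving_snd.ae hz
    filter_upwards [ae_restrict_of_ae e1, ae_restrict_of_ae e2] with p h1 h2
    exact ENNReal.tendsto_ofReal ((h1.sub h2).pow 2)
  have hF : ∫⁻ p, ENNReal.ofReal ((z p.1 - z p.2) ^ 2) ∂lam = 0 := by
    have h1 : ∫⁻ p, ENNReal.ofReal ((z p.1 - z p.2) ^ 2) ∂lam =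
        ∫⁻ p, liminf (fun k => ENNReal.ofReal ((zk k p.1 - zk k p.2) ^ 2)) atTop ∂lam := by
      refine lintegral_congr_ae ?_
      filter_upwards [hae] with p hp
      exact hp.liminf_eq.symm
    rw [h1]
    have h2 := lintegral_liminf_le (μ := lam) (u := atTop)
      (f := fun k p => ENNReal.ofReal ((zk k p.1 - zk k p.2) ^ 2))
      (fun k => (hcont k).measurable.ennreal_ofReal)
    rw [hlim.liminf_eq] at h2
    exact le_antisymm h2 zero_le
  -- the limit function agrees almost everywhere with a measurable one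
  have hm : AEMeasurable (fun p : (Fin n → ℝ) × (Fin n → ℝ) => ENNReal.ofReal ((z p.1 - z p.2) ^ 2)) lam :=
    aemeasurable_of_tendsto_metrizable_ae' (fun k => (hcont k).measurable.ennreal_ofReal.aemeasurable) hae
  rw [lintegral_eq_zero_iff' hm] at hF
  filter_upwards [hF] with p hp
  have h1 : ENNReal.ofReal ((z p.1 - z p.2) ^ 2) = 0 := hp
  rw [ENNReal.ofReal_eq_zero] at h1
  have h2 : (z p.1 - z p.2) ^ 2 = 0 := le_antisymm h1 (sq_nonneg _)
  have h3 := pow_eq_zero_iff (two_ne_zero) |>.1 h2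
  linarith

variable {n : ℕ} {μ : Fin (n + 1) → ℝ} {u : ℝ → ℝ}

theorem RH_integrable (hu : Pot u) (hμ : ∀ i : Fin n, μ i.succ < μ i.castSucc) : Integrable (RH u μ) := by
  have := PI_prob hu hμ
  have h := (integrable_PI hu hμ (f := fun _ => (1 : ℝ))).1 (integrable_const _)
  simpa using h

theorem RH_integral (hu : Pot u) (hμ : ∀ i : Fin n, μ i.succ < μ i.castSucc) : ∫ x, RH u μ x = 1 := by
  have := PI_prob hu hμ
  have h := integral_PI hu hμ (fun _ => (1 : ℝ))
  simpa using h.symm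

/-- norm of the unit vectors -/
theorem lio_ev (i : Fin n) : ‖(ev i : Fin n → ℝ)‖ ≤ 1 := by
  refine (pi_norm_le_iff_of_nonneg zero_le_one).2 fun j => ?_
  rcases eq_or_ne j i with h | h
  · rw [h]
    simp [ev]
  · simp [ev, h]

/-- the energy of the mollified density tends to zero on balls -/
theorem lio_en (hu : Pot u) (hμ : ∀ i : Fin n, μ i.succ < μ i.castSucc) {π : Measure (Fin n → ℝ)}
    [IsProbabilityMeasure π] (hsol : ∀ φ : (Fin n → ℝ) → ℝ, IsTest φ → ∫ y, LL u μ φ y ∂π = 0)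
    {mo : ℕ → (Fin n → ℝ) → ℝ} (h1 : ∀ k, IsTest (mo k)) (h2 : ∀ k x, 0 ≤ mo k x)
    (h4 : ∀ k x, mo k x ≠ 0 → ‖x‖ ≤ 1 / ((k : ℝ) + 1)) {R : ℝ} (hR : 0 < R)
    (hzc : ∀ k, ContDiff ℝ 1 fun x => Real.log (1 + ml (mo k) π (fun _ => 1) x / RH u μ x)) :
    Tendsto (fun k : ℕ => ∫ x in Metric.closedBall 0 R, ∑ i : Fin n,
      fderiv ℝ (fun x => Real.log (1 + ml (mo k) π (fun _ => 1) x / RH u μ x)) x (ev i) ^ 2) atTop (𝓝 0) := by
  have hprob := PI_prob hu hμ
  obtain ⟨C, hC, hen⟩ := lio_energy n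
  obtain ⟨C', hC', hcut⟩ := exists_cutoff n
  set Q : Set (Fin n → ℝ) := Metric.closedBall 0 R with hQ
  have hQc : IsCompact Q := isCompact_closedBall 0 R
  have hQm : MeasurableSet Q := hQc.measurableSet
  obtain ⟨c, hc, hcR⟩ : ∃ c : ℝ, 0 < c ∧ ∀ x ∈ Q, c ≤ RH u μ x := by
    obtain ⟨x0, _, hx0⟩ := hQc.exists_isMinOn ⟨0, Metric.mem_closedBall_self hR.le⟩
      (RH_cont (μ := μ) hu).continuousOn
    exact ⟨RH u μ x0, RH_pos hu hμ x0, fun x hx => hx0 hx⟩
  set zk : ℕ → (Fin n → ℝ) → ℝ := fun k x => Real.log (1 + ml (mo k) π (fun _ => 1) x / RH u μ x) with hzk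
  set g : ℕ → (Fin n → ℝ) → ℝ := fun k x => ∑ i : Fin n, fderiv ℝ (zk k) x (ev i) ^ 2 with hg
  have hgc : ∀ k, Continuous (g k) := by
    intro k
    refine continuous_finsetSum _ fun i _ => ?_
    exact (((hzc k).continuous_fderiv one_ne_zero).clm_apply continuous_const).pow 2
  have hg0 : ∀ k x, 0 ≤ g k x := fun k x => Finset.sum_nonneg fun i _ => sq_nonneg _
  -- main estimate
  have key : ∀ R' : ℝ, R ≤ R' → 1 ≤ R' → ∃ K : ℝ, ∀ k : ℕ,
      c * ∫ x in Q, g k x ≤ C * (n * (C' / R') ^ 2 + K ^ 2 * (1 / ((k : ℝ) + 1)) ^ 2) := by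
    intro R' hRR' h1R'
    obtain ⟨χ, hχt, hχ01, hχ1, hχd⟩ := hcut R' h1R'
    obtain ⟨ρ, hρ⟩ : ∃ ρ : ℝ, ∀ x, χ x ≠ 0 → ‖x‖ ≤ ρ := by
      obtain ⟨ρ, hρ⟩ := hχt.2.isBounded.exists_norm_le
      exact ⟨ρ, fun x hx => hρ x (subset_tsupport _ hx)⟩
    obtain ⟨K, hK0, hK⟩ := lio_lip hu (ρ + 1)
    refine ⟨K, fun k => ?_⟩
    have hε0 : (0 : ℝ) ≤ 1 / ((k : ℝ) + 1) := by positivity
    have hε1 : 1 / ((k : ℝ) + 1) ≤ 1 := by
      rw [div_le_one (by positivity)]
      have : (0 : ℝ) ≤ k := Nat.cast_nonneg k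
      linarith
    have h := hen hu hμ (π := π) inferInstance hsol hχt (h1 k) (h2 k) hε0 hK0 (h4 k) (by
      intro x y hx hxy i
      have hx1 : |x i| ≤ ρ := (norm_le_pi_norm x i).trans (hρ x hx)
      have hd : |x i - y i| ≤ ‖x - y‖ := norm_le_pi_norm (x - y) i
      have hy1 : |y i| ≤ ρ + 1 := by
        have : |y i| ≤ |x i| + |x i - y i| := by
          have := abs_sub_abs_le_abs_sub (y i) (x i)
          rw [abs_sub_comm] at this
          linarith
        linarith
      exact (hK (x i) (y i) (by linarith) hy1).trans (mul_le_mul_of_nonneg_left hd hK0))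
    -- left side
    have hL : c * ∫ x in Q, g k x ≤ ∫ x, χ x ^ 2 * g k x * RH u μ x := by
      rw [← integral_const_mul]
      have hi : Integrable fun x => χ x ^ 2 * g k x * RH u μ x := by
        have hcc : Continuous fun x => χ x ^ 2 * g k x * RH u μ x :=
          ((hχt.cont.pow 2).mul (hgc k)).mul (RH_cont hu)
        refine hcc.integrable_of_hasCompactSupport ?_
        refine HasCompactSupport.intro (K := tsupport χ) hχt.2 fun x hx => ?_
        have hx0 : χ x = 0 := image_eq_zero_of_notMem_tsupport hx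
        rw [hx0, zero_pow two_ne_zero, zero_mul, zero_mul]
      calc ∫ x in Q, c * g k x ≤ ∫ x in Q, χ x ^ 2 * g k x * RH u μ x := by
            refine setIntegral_mono_on ?_ hi.integrableOn hQm fun x hx => ?_
            · exact (continuous_const.mul (hgc k)).continuousOn.integrableOn_compact hQc
            · rw [hχ1 x ((mem_closedBall_zero_iff.1 hx).trans hRR'), one_pow, one_mul, mul_comm c]
              exact mul_le_mul_of_nonneg_left (hcR x hx) (hg0 k x)
        _ ≤ ∫ x, χ x ^ 2 * g k x * RH u μ x :=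
            setIntegral_le_integral hi (Eventually.of_forall fun x =>
              mul_nonneg (mul_nonneg (sq_nonneg _) (hg0 k x)) (RH_pos hu hμ x).le)
    refine hL.trans (h.trans ?_)
    refine mul_le_mul_of_nonneg_left (add_le_add ?_ ?_) hC.le
    · calc ∫ x, (∑ i, fderiv ℝ χ x (ev i) ^ 2) * RH u μ x ≤ ∫ x, (n * (C' / R') ^ 2) * RH u μ x := by
            refine integral_mono_of_nonneg (Eventually.of_forall fun x =>
              mul_nonneg (Finset.sum_nonneg fun i _ => sq_nonneg _) (RH_pos hu hμ x).le)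
              ((RH_integrable hu hμ).const_mul _) (Eventually.of_forall fun x => ?_)
            refine mul_le_mul_of_nonneg_right ?_ (RH_pos hu hμ x).le
            calc ∑ i, fderiv ℝ χ x (ev i) ^ 2 ≤ ∑ _i : Fin n, (C' / R') ^ 2 := by
                  refine Finset.sum_le_sum fun i _ => ?_
                  rw [← sq_abs]
                  refine pow_le_pow_left₀ (abs_nonneg _) ((hχd x (ev i)).trans ?_) 2
                  exact (mul_le_mul_of_nonneg_left (lio_ev i) (by positivity)).trans (mul_one _).le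
              _ = n * (C' / R') ^ 2 := by
                  rw [Finset.sum_const, Finset.card_univ, Fintype.card_fin, nsmul_eq_mul]
        _ = n * (C' / R') ^ 2 := by
            rw [integral_const_mul, RH_integral hu hμ, mul_one]
    · have hI : ∫ x, χ x ^ 2 * RH u μ x ≤ 1 := by
        rw [← RH_integral hu hμ]
        refine integral_mono_of_nonneg (Eventually.of_forall fun x =>
          mul_nonneg (sq_nonneg _) (RH_pos hu hμ x).le) (RH_integrable hu hμ) (Eventually.of_forall fun x => ?_)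
        have h5 : χ x ^ 2 ≤ 1 := by
          have := hχ01 x
          exact pow_le_one₀ this.1 this.2
        exact (mul_le_mul_of_nonneg_right h5 (RH_pos hu hμ x).le).trans (one_mul _).le
      calc K ^ 2 * (1 / ((k : ℝ) + 1)) ^ 2 * ∫ x, χ x ^ 2 * RH u μ x
          ≤ K ^ 2 * (1 / ((k : ℝ) + 1)) ^ 2 * 1 := mul_le_mul_of_nonneg_left hI (by positivity)
        _ = K ^ 2 * (1 / ((k : ℝ) + 1)) ^ 2 := mul_one _
  -- limit
  have hI0 : ∀ k, 0 ≤ ∫ x in Q, g k x := fun k => integral_nonneg (hg0 k)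
  rw [Metric.tendsto_atTop]
  intro e he
  -- choose R'
  have t1 : Tendsto (fun R' : ℝ => C * (n * (C' / R') ^ 2)) atTop (𝓝 0) := by
    have : Tendsto (fun R' : ℝ => C' / R') atTop (𝓝 0) := tendsto_const_nhds.div_atTop tendsto_id
    simpa using ((this.pow 2).const_mul (n : ℝ)).const_mul C
  have hce : 0 < c * e / 2 := by positivity
  obtain ⟨R', hR'1, hR'2, hR'3⟩ : ∃ R' : ℝ, R ≤ R' ∧ 1 ≤ R' ∧ C * (n * (C' / R') ^ 2) < c * e / 2 := by
    have := ((eventually_ge_atTop R).and ((eventually_ge_atTop (1 : ℝ)).and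
      (t1.eventually (gt_mem_nhds hce)))).exists
    exact this
  obtain ⟨K, hK⟩ := key R' hR'1 hR'2
  have t2 : Tendsto (fun k : ℕ => C * (K ^ 2 * (1 / ((k : ℝ) + 1)) ^ 2)) atTop (𝓝 0) := by
    have : Tendsto (fun k : ℕ => 1 / ((k : ℝ) + 1)) atTop (𝓝 0) := tendsto_one_div_add_atTop_nhds_zero_nat
    simpa using ((this.pow 2).const_mul (K ^ 2)).const_mul C
  obtain ⟨N, hN⟩ := eventually_atTop.1 (t2.eventually (gt_mem_nhds hce))
  refine ⟨N, fun k hk => ?_⟩
  rw [Real.dist_0_eq_abs, abs_of_nonneg (hI0 k)]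
  have h5 := hK k
  have h6 := hN k hk
  have h7 : c * ∫ x in Q, g k x < c * e := by
    calc c * ∫ x in Q, g k x ≤ C * (n * (C' / R') ^ 2 + K ^ 2 * (1 / ((k : ℝ) + 1)) ^ 2) := h5
      _ = C * (n * (C' / R') ^ 2) + C * (K ^ 2 * (1 / ((k : ℝ) + 1)) ^ 2) := by ring
      _ < c * e := by linarith
  exact lt_of_mul_lt_mul_left h7 hc.le

theorem liouville (hu : Pot u) (hμ : ∀ i : Fin n, μ i.succ < μ i.castSucc) {π : Measure (Fin n → ℝ)}
    [IsProbabilityMeasure π] (hac : π ≪ volume)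
    (hsol : ∀ φ : (Fin n → ℝ) → ℝ, IsTest φ → ∫ y, LL u μ φ y ∂π = 0) : π = PI u μ := by
  have hprob := PI_prob hu hμ
  obtain ⟨mo, h1, h2, h3, h4, h5⟩ := exists_mollifier n
  set q : (Fin n → ℝ) → ℝ := fun x => (π.rnDeriv volume x).toReal with hq
  have hq0 : ∀ x, 0 ≤ q x := fun x => ENNReal.toReal_nonneg
  have hqi : Integrable q := Measure.integrable_toReal_rnDeriv
  set M : ℕ → (Fin n → ℝ) → ℝ := fun k => ml (mo k) π (fun _ => 1) with hM
  have hMq : ∀ k x, M k x = ∫ y, mo k (x - y) * q y := by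
    intro k x
    have h := integral_rnDeriv_smul (f := fun y => mo k (x - y) * 1) hac
    rw [hM]
    show ∫ y, mo k (x - y) * 1 ∂π = _
    rw [← h]
    refine integral_congr_ae (Eventually.of_forall fun y => ?_)
    show (π.rnDeriv volume y).toReal • (mo k (x - y) * 1) = mo k (x - y) * q y
    rw [smul_eq_mul, mul_one, mul_comm]
  have hM0 : ∀ k x, 0 ≤ M k x := fun k x => by
    rw [hMq]
    exact integral_nonneg fun y => mul_nonneg (h2 k _) (hq0 y)
  have hMl : ∀ᵐ x, Tendsto (fun k => M k x) atTop (𝓝 (q x)) := by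
    filter_upwards [h5 q hqi.locallyIntegrable] with x hx
    refine hx.congr fun k => (hMq k x).symm
  have hRpos := RH_pos (μ := μ) hu hμ
  have hMc : ∀ k, ContDiff ℝ 1 (M k) := fun k => ml_contDiff (h1 k) (integrable_const _)
  set zk : ℕ → (Fin n → ℝ) → ℝ := fun k x => Real.log (1 + M k x / RH u μ x) with hzk
  set z : (Fin n → ℝ) → ℝ := fun x => Real.log (1 + q x / RH u μ x) with hz
  have hpos : ∀ k x, 0 < 1 + M k x / RH u μ x := fun k x => by
    have := div_nonneg (hM0 k x) (hRpos x).le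
    linarith
  have hzc : ∀ k, ContDiff ℝ 1 (zk k) := by
    intro k
    refine ContDiff.log ?_ fun x => (hpos k x).ne'
    exact contDiff_const.add ((hMc k).div (RH_contDiff hu) fun x => (hRpos x).ne')
  have hzl : ∀ᵐ x, Tendsto (fun k => zk k x) atTop (𝓝 (z x)) := by
    filter_upwards [hMl] with x hx
    have h6 : 0 < 1 + q x / RH u μ x := by
      have := div_nonneg (hq0 x) (hRpos x).le
      linarith
    exact ((hx.div_const (RH u μ x)).const_add 1).log h6.ne'
  -- constant on all balls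
  have hball : ∀ j : ℕ, ∀ᵐ p ∂(((volume : Measure (Fin n → ℝ)).prod volume).restrict
      (Metric.closedBall 0 ((j : ℝ) + 1) ×ˢ Metric.closedBall 0 ((j : ℝ) + 1))), z p.1 = z p.2 := by
    intro j
    exact lio_fatou (by positivity) hzc hzl (lio_en hu hμ hsol h1 h2 h4 (by positivity) hzc)
  have hall : ∀ᵐ p ∂((volume : Measure (Fin n → ℝ)).prod volume), z p.1 = z p.2 := by
    have h6 := (ae_restrict_iUnion_iff (μ := (volume : Measure (Fin n → ℝ)).prod volume)
      (fun j : ℕ => Metric.closedBall (0 : Fin n → ℝ) ((j : ℝ) + 1) ×ˢ Metric.closedBall (0 : Fin n → ℝ) ((j : ℝ) + 1))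
      (fun p => z p.1 = z p.2)).2 hball
    have h7 : (⋃ j : ℕ, Metric.closedBall (0 : Fin n → ℝ) ((j : ℝ) + 1) ×ˢ
        Metric.closedBall (0 : Fin n → ℝ) ((j : ℝ) + 1)) = univ := by
      refine eq_univ_of_forall fun p => ?_
      obtain ⟨j, hj⟩ := exists_nat_ge (max ‖p.1‖ ‖p.2‖)
      refine mem_iUnion.2 ⟨j, ?_, ?_⟩
      · rw [mem_closedBall_zero_iff]
        have := (le_max_left ‖p.1‖ ‖p.2‖).trans hj
        linarith
      · rw [mem_closedBall_zero_iff]
        have := (le_max_right ‖p.1‖ ‖p.2‖).trans hj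
        linarith
    rwa [h7, Measure.restrict_univ] at h6
  obtain ⟨c0, hc0⟩ := lio_const (NeZero.ne _) hall
  set c : ℝ := Real.exp c0 - 1 with hc
  have hqc : ∀ᵐ x, q x = c * RH u μ x := by
    filter_upwards [hc0] with x hx
    have h6 : 0 < 1 + q x / RH u μ x := by
      have := div_nonneg (hq0 x) (hRpos x).le
      linarith
    have h7 : 1 + q x / RH u μ x = Real.exp c0 := by
      rw [← hx, hz]
      exact (Real.exp_log h6).symm
    have h8 : q x / RH u μ x = c := by
      rw [hc, ← h7]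
      ring
    rw [← h8, div_mul_cancel₀ _ (hRpos x).ne']
  have hπ : π = ENNReal.ofReal c • PI u μ := by
    rw [PI_eq hu hμ]
    conv_lhs => rw [← Measure.withDensity_rnDeriv_eq π volume hac]
    rw [← withDensity_smul _ (RH_cont hu).measurable.ennreal_ofReal]
    refine withDensity_congr_ae ?_
    filter_upwards [hqc, Measure.rnDeriv_lt_top π volume] with x hx hx2
    have h9 : π.rnDeriv volume x = ENNReal.ofReal (q x) := (ENNReal.ofReal_toReal hx2.ne).symm
    rw [h9, hx]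
    show _ = ENNReal.ofReal c * ENNReal.ofReal (RH u μ x)
    rw [mul_comm c, ENNReal.ofReal_mul (hRpos x).le, mul_comm]
  have h10 : π univ = ENNReal.ofReal c * PI u μ univ := by
    conv_lhs => rw [hπ]
    rfl
  rw [measure_univ, measure_univ, mul_one] at h10
  rw [hπ, ← h10, one_smul]

end Pool.Agent.SGP
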