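import Pool.Agent.SGP.STI
import Pool.Agent.SGP.LIO
import Pool.Agent.SGP.DYN
import Pool.Agent.SGP.ACN

/-!
# IDN: the stationary distribution is the product measure

Proof. `hπ.prob`. `π ≪ volume` is `inv_ac` with `stat_int`. For a test function `φ`, `stat_int` and `dynkin` at time `1`,
Fubini (`(s, x) ↦ pt s (LL φ) x` is jointly continuous and bounded: `pt_cont` applied to `Lb`):
`0 = ∫ (pt 1 φ - φ) dπ = ∫_0^1 (∫ pt s (LL φ) dπ) ds = ∫ LL φ dπ`. Conclude by `liouville`.
-/

open MeasureTheory ProbabilityTheory Set Filter Topology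
open scoped ENNReal NNReal BoundedContinuousFunction

namespace Pool.Agent.SGP

open Pool.Agent.OYG

variable {n : ℕ} {Ω : Type*} [MeasurableSpace Ω] {P : Measure Ω} {μ : Fin (n + 1) → ℝ} {u : ℝ → ℝ}
  {B : Fin (n + 1) → ℝ≥0 → Ω → ℝ} {G : (Fin n → ℝ) → ℝ≥0 → Ω → Fin n → ℝ}

/-- an invariant probability measure is infinitesimally invariant -/
theorem stat_inf (S : Sys P n μ u B G) {π : Measure (Fin n → ℝ)} (hπ : IsStat P G π)
    {φ : (Fin n → ℝ) → ℝ} (hφ : IsTest φ) : ∫ y, LL u μ φ y ∂π = 0 := by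
  have hP := S.prob
  have hπ1 := hπ.prob
  have hu := S.pot
  set L : (Fin n → ℝ) →ᵇ ℝ := Lb hu μ hφ with hL
  have e1 : ∫ x, (ptb S 1 (tb hφ) x - tb hφ x) ∂π = 0 := by
    rw [integral_sub ((ptb S 1 (tb hφ)).integrable π) ((tb hφ).integrable π), stat_int S hπ, sub_self]
  have e2 : ∀ x, ptb S 1 (tb hφ) x - tb hφ x = ∫ s in (0 : ℝ)..1, pt P G s.toNNReal L x := fun x => by
    have := dynkin S φ hφ 1 x
    rw [NNReal.coe_one] at this
    exact this
  have hc : Continuous fun p : (Fin n → ℝ) × ℝ => pt P G p.2.toNNReal L p.1 :=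
    (pt_cont S L).comp ((continuous_real_toNNReal.comp continuous_snd).prodMk continuous_fst)
  have hi : Integrable (Function.uncurry fun (x : Fin n → ℝ) (s : ℝ) => pt P G s.toNNReal L x)
      (π.prod (volume.restrict (Ioc (0 : ℝ) 1))) :=
    Integrable.of_bound hc.aestronglyMeasurable ‖L‖ (Eventually.of_forall fun p => by
      rw [Real.norm_eq_abs]
      exact pt_le S L _ _)
  have e3 : ∫ x, (∫ s in (0 : ℝ)..1, pt P G s.toNNReal L x) ∂π =
      ∫ s in (0 : ℝ)..1, (∫ x, pt P G s.toNNReal L x ∂π) := by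
    simp only [intervalIntegral.integral_of_le zero_le_one]
    exact integral_integral_swap hi
  have e4 : ∀ s : ℝ, ∫ x, pt P G s.toNNReal L x ∂π = ∫ x, L x ∂π := fun s => stat_int S hπ _ L
  rw [integral_congr_ae (Eventually.of_forall e2), e3] at e1
  simp only [e4, intervalIntegral.integral_const, sub_zero, one_smul] at e1
  exact e1

theorem stat_eq (S : Sys P n μ u B G) {π : Measure (Fin n → ℝ)} (hπ : IsStat P G π) : π = PI u μ := by
  have hπ1 := hπ.prob
  exact liouville S.pot S.mu (inv_ac S π fun f => stat_int S hπ 1 f) fun φ hφ => stat_inf S hπ hφ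

end Pool.Agent.SGP
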