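import Pool.Agent.SGP.ONE
import Pool.Agent.SGP.HDY

/-!
# ONX: one gap: the exponent is at most the gap (approximation part)

Proofs. (`smooth_approx`) for a `C^1` function `f` on `ℝ` with compact support there are smooth `f k` with support in a common
compact interval, `f k → f` and `deriv (f k) → deriv f` uniformly: convolution with `ContDiffBump` of radius `1/(k+1)`:
`f_k = η_k ⋆ f`, `f_k' = η_k ⋆ f'` (`HasCompactSupport.hasDerivAt_convolution_right`), uniform continuity of `f`, `f'`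
(`Continuous.uniformContinuous_of_hasCompactSupport`-like).
(`one_upper`) apply `one_poincare` to `φ x = f k (x 0)` (a test function), `PI` is the law of one coordinate:
`δ vr (f k) ≤ ∫ (f k)'^2`; let `k → ∞`; then `le_csInf` with `gap_set_nonempty`.
-/

open MeasureTheory ProbabilityTheory Set Filter Topology
open scoped ENNReal NNReal BoundedContinuousFunction Convolution

namespace Pool.Agent.SGP

open Pool.Agent.OYG

theorem smooth_approx {f : ℝ → ℝ} (hf : ContDiff ℝ 1 f) (hc : HasCompactSupport f) :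
    ∃ (F : ℕ → ℝ → ℝ) (R : ℝ), (∀ k, ContDiff ℝ ((⊤ : ℕ∞) : WithTop ℕ∞) (F k)) ∧
      (∀ k x, R ≤ |x| → F k x = 0) ∧ TendstoUniformly F f atTop ∧
      TendstoUniformly (fun k => deriv (F k)) (deriv f) atTop := by
  have hpos : ∀ k : ℕ, (0 : ℝ) < 1 / ((k : ℝ) + 1) := fun k => by positivity
  let η : ∀ _ : ℕ, ContDiffBump (0 : ℝ) := fun k =>
    ⟨1 / ((k : ℝ) + 1) / 2, 1 / ((k : ℝ) + 1), by have := hpos k; positivity, by
      have := hpos k; linarith⟩
  have hr : ∀ k, (η k).rOut = 1 / ((k : ℝ) + 1) := fun k => rfl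
  have hr1 : ∀ k, (η k).rOut ≤ 1 := fun k => by
    rw [hr, div_le_one (by positivity)]
    have : (0 : ℝ) ≤ (k : ℝ) := Nat.cast_nonneg k
    linarith
  have hrt : Tendsto (fun k => (η k).rOut) atTop (𝓝 0) := tendsto_one_div_add_atTop_nhds_zero_nat
  obtain ⟨R0, hR0⟩ : ∃ R0 : ℝ, tsupport f ⊆ Metric.closedBall 0 R0 := hc.isBounded.subset_closedBall 0
  have hcont : ∀ g : ℝ → ℝ, Continuous g → HasCompactSupport g →
      TendstoUniformly (fun k => (((η k).normed volume) ⋆[ContinuousLinearMap.lsmul ℝ ℝ, volume] g : ℝ → ℝ)) g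
        atTop := by
    intro g hg hgc
    have hu : UniformContinuous g := hg.uniformContinuous_of_tendsto_cocompact
      hgc.is_zero_at_infty
    rw [Metric.tendstoUniformly_iff]
    intro ε hε
    obtain ⟨δ, hδ, h⟩ := Metric.uniformContinuous_iff.mp hu (ε / 2) (by positivity)
    filter_upwards [hrt.eventually (gt_mem_nhds hδ)] with k hk x
    rw [dist_comm]
    refine lt_of_le_of_lt ((η k).dist_normed_convolution_le (μ := volume) (x₀ := x) (g := g) (ε := ε / 2)
      hg.aestronglyMeasurable (fun y hy => ?_)) (by linarith)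
    exact (h ((Metric.mem_ball.mp hy).trans hk)).le
  refine ⟨fun k => ((η k).normed volume) ⋆[ContinuousLinearMap.lsmul ℝ ℝ, volume] f, R0 + 2, fun k => ?_,
    fun k x hx => ?_, hcont f hf.continuous hc, ?_⟩
  · exact (η k).hasCompactSupport_normed.contDiff_convolution_left _ ((η k).contDiff_normed)
      hf.continuous.locallyIntegrable
  · have h0 : ∀ y, R0 < |y| → f y = 0 := by
      intro y hy
      by_contra hne
      have := hR0 (subset_tsupport f hne)
      rw [Metric.mem_closedBall, dist_zero_right, Real.norm_eq_abs] at this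
      linarith
    have hx0 : f x = 0 := h0 x (by linarith)
    show (((η k).normed volume) ⋆[ContinuousLinearMap.lsmul ℝ ℝ, volume] f : ℝ → ℝ) x = 0
    rw [(η k).normed_convolution_eq_right (μ := volume) (x₀ := x) (g := f), hx0]
    intro y hy
    rw [hx0]
    refine h0 y ?_
    have h1 : |y - x| < 1 := by
      have := Metric.mem_ball.mp hy
      rw [Real.dist_eq] at this
      exact this.trans_le (hr1 k)
    have h2 := abs_sub_abs_le_abs_sub x y
    rw [abs_sub_comm] at h1
    linarith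
  · have e : ∀ k, deriv (((η k).normed volume) ⋆[ContinuousLinearMap.lsmul ℝ ℝ, volume] f : ℝ → ℝ) =
        ((η k).normed volume) ⋆[ContinuousLinearMap.lsmul ℝ ℝ, volume] deriv f := by
      intro k
      funext x
      exact (hc.hasDerivAt_convolution_right (ContinuousLinearMap.lsmul ℝ ℝ)
        ((η k).continuous_normed.locallyIntegrable) hf x).deriv
    simp only [e]
    exact hcont (deriv f) (hf.continuous_deriv (by simp)) hc.deriv

private theorem onx_tend {ν : Measure ℝ} [IsProbabilityMeasure ν] {F : ℕ → ℝ → ℝ} {f : ℝ → ℝ}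
    (hF : ∀ k, Continuous (F k)) {C : ℝ} (hfb : ∀ x, |f x| ≤ C) (h : TendstoUniformly F f atTop)
    {a : ℕ → ℝ} {a0 : ℝ} (ha : Tendsto a atTop (𝓝 a0)) :
    Tendsto (fun k => ∫ x, (F k x - a k) ^ 2 ∂ν) atTop (𝓝 (∫ x, (f x - a0) ^ 2 ∂ν)) := by
  have hb1 : ∀ᶠ k in atTop, ∀ x, |F k x| ≤ C + 1 := by
    filter_upwards [Metric.tendstoUniformly_iff.mp h 1 one_pos] with k hk x
    have h1 := hk x
    rw [Real.dist_eq, abs_sub_comm] at h1
    have h2 := abs_sub_abs_le_abs_sub (F k x) (f x)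
    have h3 := hfb x
    linarith
  have hb2 : ∀ᶠ k in atTop, |a k| ≤ |a0| + 1 := by
    filter_upwards [ha.abs.eventually (ge_mem_nhds (show |a0| < |a0| + 1 by linarith))] with k hk
    exact hk
  refine tendsto_integral_filter_of_dominated_convergence (fun _ => (C + 1 + (|a0| + 1)) ^ 2) ?_ ?_
    (integrable_const _) ?_
  · exact Eventually.of_forall fun k => (((hF k).sub continuous_const).pow 2).aestronglyMeasurable
  · filter_upwards [hb1, hb2] with k h1 h2
    refine Eventually.of_forall fun x => ?_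
    rw [Real.norm_eq_abs, abs_pow]
    refine pow_le_pow_left₀ (abs_nonneg _) ?_ 2
    exact (abs_sub _ _).trans (add_le_add (h1 x) h2)
  · exact Eventually.of_forall fun x => ((h.tendsto_at x).sub ha).pow 2

private theorem onx_tend1 {ν : Measure ℝ} [IsProbabilityMeasure ν] {F : ℕ → ℝ → ℝ} {f : ℝ → ℝ}
    (hF : ∀ k, Continuous (F k)) {C : ℝ} (hfb : ∀ x, |f x| ≤ C) (h : TendstoUniformly F f atTop) :
    Tendsto (fun k => ∫ x, F k x ∂ν) atTop (𝓝 (∫ x, f x ∂ν)) := by
  have hb1 : ∀ᶠ k in atTop, ∀ x, |F k x| ≤ C + 1 := by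
    filter_upwards [Metric.tendstoUniformly_iff.mp h 1 one_pos] with k hk x
    have h1 := hk x
    rw [Real.dist_eq, abs_sub_comm] at h1
    have h2 := abs_sub_abs_le_abs_sub (F k x) (f x)
    have h3 := hfb x
    linarith
  refine tendsto_integral_filter_of_dominated_convergence (fun _ => C + 1) ?_ ?_
    (integrable_const _) ?_
  · exact Eventually.of_forall fun k => (hF k).aestronglyMeasurable
  · filter_upwards [hb1] with k h1
    exact Eventually.of_forall fun x => h1 x
  · exact Eventually.of_forall fun x => h.tendsto_at x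

variable {Ω : Type*} [MeasurableSpace Ω] {P : Measure Ω} {μ : Fin 2 → ℝ} {u : ℝ → ℝ}
  {B : Fin 2 → ℝ≥0 → Ω → ℝ} {G : (Fin 1 → ℝ) → ℝ≥0 → Ω → Fin 1 → ℝ}

/-- integrals of functions of the single gap -/
private theorem onx_int (hu : Pot u) (hμ : ∀ i : Fin 1, μ i.succ < μ i.castSucc) (g : ℝ → ℝ)
    (hg : Continuous g) : ∫ x : Fin 1 → ℝ, g (x 0) ∂(PI u μ) = ∫ s, g s ∂(nu u (rel μ 0)) := by
  have hp : ∀ i, IsProbabilityMeasure (nu u (rel μ i)) := fun i => nu_prob hu (rel_pos hμ i)
  have h := (measurePreserving_eval (fun i => nu u (rel μ i)) 0)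
  have h2 : (PI u μ).map (fun x : Fin 1 → ℝ => x 0) = nu u (rel μ 0) := h.map_eq
  rw [← h2, integral_map (measurable_pi_apply 0).aemeasurable hg.aestronglyMeasurable]

theorem one_upper (S : Sys P 1 μ u B G) (hπ : IsStat P G (PI u μ)) {δ : ℝ} (hδ : UnifErg P G (PI u μ) δ) :
    δ ≤ gap u (rel μ 0) := by
  have hu := S.pot
  have hm := rel_pos S.mu 0
  have hp := nu_prob hu hm
  refine le_csInf (gap_set_nonempty hu hm) ?_
  rintro r ⟨f, hf, hc, hv, rfl⟩
  rw [le_div_iff₀ hv]
  obtain ⟨F, R, hF1, hF2, hF3, hF4⟩ := smooth_approx hf hc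
  obtain ⟨C, hC⟩ := hc.exists_bound_of_continuous hf.continuous
  obtain ⟨C', hC'⟩ := hc.deriv.exists_bound_of_continuous (hf.continuous_deriv (by simp))
  have hFc : ∀ k, Continuous (F k) := fun k => (hF1 k).continuous
  have hFd : ∀ k, Continuous (deriv (F k)) := fun k => (hF1 k).continuous_deriv (by simp)
  have hk : ∀ k, δ * vr (nu u (rel μ 0)) (F k) ≤ ∫ x, (deriv (F k) x) ^ 2 ∂(nu u (rel μ 0)) := by
    intro k
    have hcs : HasCompactSupport (F k) :=
      HasCompactSupport.intro (isCompact_closedBall (0 : ℝ) R) fun x hx => by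
        refine hF2 k x ?_
        rw [Metric.mem_closedBall, dist_zero_right, Real.norm_eq_abs, not_le] at hx
        exact hx.le
    have ht : IsTest fun x : Fin 1 → ℝ => F k (x 0) := by
      refine ⟨(hF1 k).comp (contDiff_apply ℝ ℝ (0 : Fin 1)), ?_⟩
      exact hcs.comp_homeomorph (Homeomorph.funUnique (Fin 1) ℝ)
    have h1 := one_poincare S hπ hδ ht
    have e1 : ∫ y : Fin 1 → ℝ, F k (y 0) ∂(PI u μ) = ∫ s, F k s ∂(nu u (rel μ 0)) :=
      onx_int hu S.mu (F k) (hFc k)
    have e2 : ∫ x : Fin 1 → ℝ, (F k (x 0) - ∫ s, F k s ∂(nu u (rel μ 0))) ^ 2 ∂(PI u μ) =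
        vr (nu u (rel μ 0)) (F k) :=
      onx_int hu S.mu (fun s => (F k s - ∫ s, F k s ∂(nu u (rel μ 0))) ^ 2)
        (((hFc k).sub continuous_const).pow 2)
    have e3 : ∀ x : Fin 1 → ℝ, fderiv ℝ (fun x : Fin 1 → ℝ => F k (x 0)) x (ev 0) = deriv (F k) (x 0) := by
      intro x
      have hd : HasDerivAt (F k) (deriv (F k) (x 0)) (x 0) :=
        ((hF1 k).differentiable (by simp) (x 0)).hasDerivAt
      have h2 : HasFDerivAt (fun x : Fin 1 → ℝ => x 0) (ContinuousLinearMap.proj (R := ℝ) (φ := fun _ : Fin 1 => ℝ) 0) x :=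
        hasFDerivAt_apply 0 x
      have h3 := hd.comp_hasFDerivAt x h2
      have h4 : fderiv ℝ (fun x : Fin 1 → ℝ => F k (x 0)) x = _ := h3.fderiv
      rw [h4]
      simp [ev]
    have e4 : ∫ x : Fin 1 → ℝ, fderiv ℝ (fun x : Fin 1 → ℝ => F k (x 0)) x (ev 0) ^ 2 ∂(PI u μ) =
        ∫ x, (deriv (F k) x) ^ 2 ∂(nu u (rel μ 0)) := by
      simp only [e3]
      exact onx_int hu S.mu (fun s => deriv (F k) s ^ 2) ((hFd k).pow 2)
    rw [e4, e1, e2] at h1
    exact h1
  have ht1 : Tendsto (fun k => ∫ x, F k x ∂(nu u (rel μ 0))) atTop (𝓝 (∫ x, f x ∂(nu u (rel μ 0)))) :=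
    onx_tend1 hFc (C := C) (fun x => hC x) hF3
  have ht2 : Tendsto (fun k => vr (nu u (rel μ 0)) (F k)) atTop (𝓝 (vr (nu u (rel μ 0)) f)) :=
    onx_tend hFc (C := C) (fun x => hC x) hF3 ht1
  have ht3 : Tendsto (fun k => ∫ x, (deriv (F k) x) ^ 2 ∂(nu u (rel μ 0))) atTop
      (𝓝 (∫ x, (deriv f x) ^ 2 ∂(nu u (rel μ 0)))) := by
    have := onx_tend (ν := nu u (rel μ 0)) hFd (C := C') (fun x => hC' x) hF4
      (tendsto_const_nhds (x := (0 : ℝ)))
    simpa using this
  exact le_of_tendsto_of_tendsto' (ht2.const_mul δ) ht3 hk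

end Pool.Agent.SGP
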