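import Pool.Agent.SGP.FEL

/-!
# STI: stationarity in integral form

The map `(x, ω) ↦ G x t ω` is jointly measurable, and `π` is the law of `G x t ω` under `π ⊗ P`.
-/

open MeasureTheory ProbabilityTheory Set Filter Topology
open scoped ENNReal NNReal BoundedContinuousFunction

namespace Pool.Agent.SGP

open Pool.Agent.OYG

variable {n : ℕ} {Ω : Type*} [MeasurableSpace Ω] {P : Measure Ω} {μ : Fin (n + 1) → ℝ} {u : ℝ → ℝ}
  {B : Fin (n + 1) → ℝ≥0 → Ω → ℝ} {G : (Fin n → ℝ) → ℝ≥0 → Ω → Fin n → ℝ}

/-- joint measurability at a fixed time -/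
theorem gap_meas_uncurry (S : Sys P n μ u B G) (t : ℝ≥0) :
    Measurable fun p : (Fin n → ℝ) × Ω => G p.1 t p.2 := by
  have h := measurable_uncurry_of_continuous_of_measurable (ι := Fin n → ℝ)
    (u := fun x ω => G x t ω) (fun ω => by
      have := gap_cont S ω
      exact this.comp (continuous_const.prodMk continuous_id)) (fun x => (S.gap x).meas t)
  exact h

theorem measurable_law (S : Sys P n μ u B G) (t : ℝ≥0) {A : Set (Fin n → ℝ)} (hA : MeasurableSet A) :
    Measurable fun x => P.map (G x t) A := by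
  have hP := S.prob
  have h := measurable_measure_prodMk_left (ν := P) ((gap_meas_uncurry S t) hA)
  have e : (fun x => P.map (G x t) A) = fun x => P (Prod.mk x ⁻¹' ((fun p : (Fin n → ℝ) × Ω => G p.1 t p.2) ⁻¹' A)) := by
    funext x
    rw [Measure.map_apply ((S.gap x).meas t) hA]
    rfl
  rw [e]
  exact h

theorem stat_int (S : Sys P n μ u B G) {π : Measure (Fin n → ℝ)} (hπ : IsStat P G π) (t : ℝ≥0)
    (f : (Fin n → ℝ) →ᵇ ℝ) : ∫ y, ptb S t f y ∂π = ∫ y, f y ∂π := by
  have hP := S.prob
  have hπ1 := hπ.prob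
  have hm := gap_meas_uncurry S t
  have e : (π.prod P).map (fun p : (Fin n → ℝ) × Ω => G p.1 t p.2) = π := by
    ext A hA
    rw [Measure.map_apply hm hA, Measure.prod_apply (hm hA), ← hπ.stat t A hA]
    refine lintegral_congr fun x => ?_
    rw [Measure.map_apply ((S.gap x).meas t) hA]
    rfl
  have hi : Integrable (fun p : (Fin n → ℝ) × Ω => f (G p.1 t p.2)) (π.prod P) :=
    Integrable.of_bound ((f.continuous.measurable.comp hm).aestronglyMeasurable) ‖f‖
      (Eventually.of_forall fun p => f.norm_coe_le_norm _)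
  have h1 : ∫ y, f y ∂π = ∫ p : (Fin n → ℝ) × Ω, f (G p.1 t p.2) ∂(π.prod P) := by
    conv_lhs => rw [← e]
    exact integral_map hm.aemeasurable f.continuous.aestronglyMeasurable
  rw [h1, integral_prod _ hi]
  rfl

end Pool.Agent.SGP
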