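import Pool.Agent.SGP.PRE
import Pool.Agent.SGP.STI

/-!
# PRS: stationarity of the first `k` gaps

Proof. `prob`: `pre_PI` and `PI_prob`. `∫⁻ y, P.map (Gk y t) A d(PI')(y)` with `PI' = (PI).map pre` (`pre_PI`): `lintegral_map`
with `measurable_law` for the reduced system (`pre_sys`) gives `∫⁻ x, P.map (Gk (pre x) t) A d(PI)(x)`; by `pre_path`
`P.map (Gk (pre x) t) A = P.map (G x t) (pre⁻¹ A)` (`Measure.map_apply`, measurability from `(S.gap x).meas`), so
`hπ.stat` gives `PI (pre⁻¹ A) = PI' A`.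
-/

open MeasureTheory ProbabilityTheory Set Filter Topology
open scoped ENNReal NNReal BoundedContinuousFunction

namespace Pool.Agent.SGP

open Pool.Agent.OYG

variable {n k : ℕ} {Ω : Type*} [MeasurableSpace Ω] {P : Measure Ω} {μ : Fin (n + 1) → ℝ} {u : ℝ → ℝ}
  {B : Fin (n + 1) → ℝ≥0 → Ω → ℝ} {G : (Fin n → ℝ) → ℝ≥0 → Ω → Fin n → ℝ}

theorem pre_stat (hk : k ≤ n) (S : Sys P n μ u B G) (hπ : IsStat P G (PI u μ)) :
    IsStat P (Gk hk G) (PI u (muk hk μ)) := by
  have S' := pre_sys hk S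
  have hp : Measurable (pre hk) := measurable_pi_lambda _ fun i => measurable_pi_apply _
  refine ⟨PI_prob S'.pot S'.mu, fun t A hA => ?_⟩
  rw [← pre_PI hk S.pot S.mu, lintegral_map (measurable_law S' t hA) hp, Measure.map_apply hp hA,
    ← hπ.stat t (pre hk ⁻¹' A) (hp hA)]
  refine lintegral_congr fun x => ?_
  rw [Measure.map_apply ((S'.gap _).meas t) hA, Measure.map_apply ((S.gap x).meas t) (hp hA)]
  congr 1
  ext ω
  simp only [Set.mem_preimage]
  rw [pre_path hk S x t ω]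

end Pool.Agent.SGP
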