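import Pool.Agent.SGP.NLS
import Pool.Agent.SGP.DUA

/-!
# UPL: upper bound when the last gap is the strict minimum and is an eigenvalue

Proof. `λ = gap_l`, `(v, f, c)` from `eigen`, `V x = v (x_l)`, `∫ V^2 = 1`, `∫ V = 0`. Suppose `λ < δ` and `UnifErg` with
`C, W, δ`. Since `∫ V^2 = 1`, there is a bounded continuous `g` with `∫ g V ≠ 0` (density of bounded continuous functions in
`L²`, e.g. `g x = h (x_l)`); scaling `‖g‖ ≤ 1`. Put `D t x = ptb t g x - ∫ g`, `A_K = {x | ∀ t, |D t x| ≤ K exp (-δ t)}`: closed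
(`D t` is continuous), increasing in `K : ℕ`, and the union is everything (`UnifErg` applied to `g`:
`∫ g dP.map (G x t) = pt P G t g x`). By `dual` and `∫ V = 0`:
`exp (-λ t) |∫ g V| = |∫ D t * V| ≤ ∫_{A_K} |D t| |V| + ∫_{A_Kᶜ} |D t| |V| ≤ K exp (-δ t) ∫ |V| +
(∫ (D t)^2)^(1/2) (∫_{A_Kᶜ} V^2)^(1/2)`, and `(∫ (D t)^2)^(1/2) ≤ √C' exp (-λ t) (∫ (g - ∫ g)^2)^(1/2)` by `nls`. Multiply by
`exp (λ t)` and let `t → ∞`: `|∫ g V| ≤ √C' (∫ (g - ∫ g)^2)^(1/2) (∫_{A_Kᶜ} V^2)^(1/2)` for every `K`; as `K → ∞` the last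
factor tends to `0` (`tendsto_setIntegral_of_antitone` or dominated convergence), contradiction.
-/

open MeasureTheory ProbabilityTheory Set Filter Topology
open scoped ENNReal NNReal BoundedContinuousFunction

namespace Pool.Agent.SGP

open Pool.Agent.OYG

theorem upl_abs {E : Type*} [TopologicalSpace E] [MeasurableSpace E] [BorelSpace E] (π : Measure E)
    [IsProbabilityMeasure π] {V : E → ℝ} (hV : MemLp V 2 π) (D : ℝ≥0 → E →ᵇ ℝ) {lam δ Q I : ℝ}
    (hd : ∀ t : ℝ≥0, ∫ x, D t x * V x ∂π = Real.exp (-(lam * t)) * I)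
    (h2 : ∀ t : ℝ≥0, ∫ x, (D t x) ^ 2 ∂π ≤ Q * Real.exp (-(2 * lam * t)))
    (hp : ∀ x, ∃ K : ℝ, ∀ t : ℝ≥0, |D t x| ≤ K * Real.exp (-(δ * t)))
    (hlt : lam < δ) : I = 0 := by
  set A : ℕ → Set E := fun K => {x | ∀ t : ℝ≥0, |D t x| ≤ K * Real.exp (-(δ * t))} with hA
  have hAc : ∀ K, IsClosed (A K) := by
    intro K
    have : A K = ⋂ t : ℝ≥0, {x | |D t x| ≤ K * Real.exp (-(δ * t))} := by
      ext x; simp [hA]
    rw [this]
    exact isClosed_iInter fun t => isClosed_le ((D t).continuous.abs) continuous_const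
  have hAm : ∀ K, MeasurableSet (A K) := fun K => (hAc K).measurableSet
  have hmono : Monotone A := by
    intro K L hKL x hx t
    refine (hx t).trans ?_
    gcongr
  have hanti : Antitone fun K => (A K)ᶜ := fun K L h => compl_subset_compl.2 (hmono h)
  have hinter : ⋂ K, (A K)ᶜ = ∅ := by
    rw [← compl_iUnion, compl_empty_iff, eq_univ_iff_forall]
    intro x
    obtain ⟨K, hK⟩ := hp x
    obtain ⟨N, hN⟩ := exists_nat_ge K
    refine mem_iUnion.2 ⟨N, fun t => (hK t).trans ?_⟩
    gcongr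
  have hV2 : Integrable (fun x => V x ^ 2) π := hV.integrable_sq
  have hV1 : Integrable V π := hV.integrable (by norm_num)
  have hη : Tendsto (fun K => ∫ x in (A K)ᶜ, V x ^ 2 ∂π) atTop (𝓝 0) := by
    have := tendsto_setIntegral_of_antitone (μ := π) (f := fun x => V x ^ 2)
      (fun K => (hAm K).compl) hanti ⟨0, hV2.integrableOn⟩
    rw [hinter] at this
    simpa using this
  have key : ∀ (K : ℕ) (t : ℝ≥0) (α : ℝ), 0 < α →
      |I| ≤ K * (∫ x, |V x| ∂π) * Real.exp (-((δ - lam) * t)) +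
        (α * Q + (∫ x in (A K)ᶜ, V x ^ 2 ∂π) / α) / 2 := by
    intro K t α hα
    set a : ℝ := α * Real.exp (lam * t) with ha
    have ha0 : 0 < a := by positivity
    have hpt : ∀ x, |D t x * V x| ≤ K * Real.exp (-(δ * t)) * |V x| + (a / 2 * (D t x) ^ 2 +
        1 / (2 * a) * ((A K)ᶜ).indicator (fun x => V x ^ 2) x) := by
      intro x
      rw [abs_mul]
      by_cases hx : x ∈ A K
      · have h1 := hx t
        have h3 : 0 ≤ ((A K)ᶜ).indicator (fun x => V x ^ 2) x :=
          indicator_nonneg (fun y _ => sq_nonneg _) x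
        have h4 : |D t x| * |V x| ≤ K * Real.exp (-(δ * t)) * |V x| :=
          mul_le_mul_of_nonneg_right h1 (abs_nonneg _)
        have h5 : 0 ≤ a / 2 * (D t x) ^ 2 := by positivity
        have h6 : 0 ≤ 1 / (2 * a) * ((A K)ᶜ).indicator (fun x => V x ^ 2) x := by positivity
        linarith
      · have h1 : ((A K)ᶜ).indicator (fun x => V x ^ 2) x = V x ^ 2 := indicator_of_mem hx _
        rw [h1]
        have h2 : 0 ≤ K * Real.exp (-(δ * t)) * |V x| := by positivity
        have h3 : |D t x| * |V x| ≤ a / 2 * (D t x) ^ 2 + 1 / (2 * a) * V x ^ 2 := by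
          rw [← sq_abs (D t x), ← sq_abs (V x)]
          have h4 : a / 2 * |D t x| ^ 2 + 1 / (2 * a) * |V x| ^ 2 - |D t x| * |V x| =
              (a * |D t x| - |V x|) ^ 2 / (2 * a) := by
            field_simp
            ring
          have h5 : 0 ≤ (a * |D t x| - |V x|) ^ 2 / (2 * a) := by positivity
          linarith
        linarith
    have hDi : Integrable (fun x => (D t x) ^ 2) π := by
      have : (fun x => (D t x) ^ 2) = fun x => ((D t) * (D t)) x := by
        ext x; simp [sq]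
      rw [this]
      exact BoundedContinuousFunction.integrable π _
    have hind : Integrable (((A K)ᶜ).indicator (fun x => V x ^ 2)) π := hV2.indicator (hAm K).compl
    have hDV : Integrable (fun x => D t x * V x) π :=
      hV1.bdd_mul (c := ‖D t‖) (D t).continuous.aestronglyMeasurable
        (Eventually.of_forall fun x => (D t).norm_coe_le_norm x)
    have hJ1 : Integrable (fun x => K * Real.exp (-(δ * t)) * |V x|) π := hV1.abs.const_mul _
    have hJ2 : Integrable (fun x => a / 2 * (D t x) ^ 2) π := hDi.const_mul _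
    have hJ3 : Integrable (fun x => 1 / (2 * a) * ((A K)ᶜ).indicator (fun x => V x ^ 2) x) π :=
      hind.const_mul _
    have hJ23 : Integrable (fun x => a / 2 * (D t x) ^ 2 +
      1 / (2 * a) * ((A K)ᶜ).indicator (fun x => V x ^ 2) x) π := hJ2.add hJ3
    set η := ∫ x in (A K)ᶜ, V x ^ 2 ∂π with hη'
    set M := ∫ x, |V x| ∂π with hM
    have hval : ∫ x, (K * Real.exp (-(δ * t)) * |V x| + (a / 2 * (D t x) ^ 2 +
        1 / (2 * a) * ((A K)ᶜ).indicator (fun x => V x ^ 2) x)) ∂π =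
        K * Real.exp (-(δ * t)) * M + (a / 2 * (∫ x, (D t x) ^ 2 ∂π) + 1 / (2 * a) * η) := by
      rw [integral_add hJ1 hJ23, integral_add hJ2 hJ3, integral_const_mul, integral_const_mul,
        integral_const_mul, integral_indicator (hAm K).compl]
    have hI1 : |∫ x, D t x * V x ∂π| ≤
        K * Real.exp (-(δ * t)) * M + (a / 2 * (∫ x, (D t x) ^ 2 ∂π) + 1 / (2 * a) * η) := by
      rw [← hval]
      refine abs_integral_le_integral_abs.trans ?_
      exact integral_mono hDV.abs (hJ1.add hJ23) hpt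
    rw [hd t, abs_mul, abs_of_pos (Real.exp_pos _)] at hI1
    have h8 : |I| = Real.exp (lam * t) * (Real.exp (-(lam * t)) * |I|) := by
      rw [← mul_assoc, ← Real.exp_add]; simp
    rw [h8]
    have h9 : Real.exp (-(lam * t)) * |I| ≤ K * Real.exp (-(δ * t)) * M +
        (a / 2 * (Q * Real.exp (-(2 * lam * t))) + 1 / (2 * a) * η) := by
      refine hI1.trans ?_
      have := h2 t
      gcongr
    refine (mul_le_mul_of_nonneg_left h9 (Real.exp_pos _).le).trans (le_of_eq ?_)
    have e1 : Real.exp (-((δ - lam) * t)) = Real.exp (lam * t) * Real.exp (-(δ * t)) := by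
      rw [← Real.exp_add]; congr 1; ring
    have e2 : Real.exp (-(2 * lam * t)) = (Real.exp (lam * t))⁻¹ * (Real.exp (lam * t))⁻¹ := by
      rw [← Real.exp_neg, ← Real.exp_add]; congr 1; ring
    rw [e1, e2, ha]
    have hne : Real.exp (lam * t) ≠ 0 := (Real.exp_pos _).ne'
    field_simp
  have key2 : ∀ (K : ℕ) (α : ℝ), 0 < α →
      |I| ≤ (α * Q + (∫ x in (A K)ᶜ, V x ^ 2 ∂π) / α) / 2 := by
    intro K α hα
    have hlim : Tendsto (fun t : ℕ => K * (∫ x, |V x| ∂π) * Real.exp (-((δ - lam) * ((t : ℝ≥0) : ℝ))) +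
        (α * Q + (∫ x in (A K)ᶜ, V x ^ 2 ∂π) / α) / 2) atTop
        (𝓝 (K * (∫ x, |V x| ∂π) * 0 + (α * Q + (∫ x in (A K)ᶜ, V x ^ 2 ∂π) / α) / 2)) := by
      refine Tendsto.add_const _ (Tendsto.const_mul _ ?_)
      refine Real.tendsto_exp_atBot.comp ?_
      refine tendsto_neg_atTop_atBot.comp ?_
      refine Tendsto.const_mul_atTop (by linarith) ?_
      simpa using tendsto_natCast_atTop_atTop (R := ℝ)
    have := ge_of_tendsto' hlim fun t => key K t α hα
    simpa using this
  have key3 : ∀ α : ℝ, 0 < α → |I| ≤ (α * Q + 0 / α) / 2 := by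
    intro α hα
    have hlim : Tendsto (fun K : ℕ => (α * Q + (∫ x in (A K)ᶜ, V x ^ 2 ∂π) / α) / 2) atTop
        (𝓝 ((α * Q + 0 / α) / 2)) := ((hη.div_const α).const_add _).div_const 2
    exact ge_of_tendsto' hlim fun K => key2 K α hα
  have key4 : |I| ≤ (0 * Q) / 2 := by
    have hlim : Tendsto (fun α : ℝ => (α * Q) / 2) (𝓝[>] 0) (𝓝 ((0 * Q) / 2)) := by
      refine Tendsto.mono_left ?_ nhdsWithin_le_nhds
      exact (Continuous.tendsto (by fun_prop) 0)
    refine ge_of_tendsto hlim ?_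
    filter_upwards [self_mem_nhdsWithin] with α hα
    have := key3 α hα
    simpa using this
  have : |I| ≤ 0 := by simpa using key4
  exact abs_eq_zero.1 (le_antisymm this (abs_nonneg _))

theorem upl_dense {E : Type*} [TopologicalSpace E] [MeasurableSpace E] [BorelSpace E] [NormalSpace E]
    (π : Measure E) [IsProbabilityMeasure π] [π.WeaklyRegular] {V : E → ℝ} (hV : MemLp V 2 π)
    (hn : ∫ x, V x ^ 2 ∂π = 1) : ∃ g : E →ᵇ ℝ, ∫ x, g x * V x ∂π ≠ 0 := by
  by_contra hcon
  push Not at hcon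
  have hV' : MemLp V (ENNReal.ofReal 2) π := by simpa using hV
  obtain ⟨g, hg, -⟩ := hV'.exists_boundedContinuous_integral_rpow_sub_le (by norm_num : (0 : ℝ) < 2)
    (by norm_num : (0 : ℝ) < 1 / 2)
  have hV2 : Integrable (fun x => V x ^ 2) π := hV.integrable_sq
  have hV1 : Integrable V π := hV.integrable (by norm_num)
  have hg2 : Integrable (fun x => (g x) ^ 2) π := by
    have : (fun x => (g x) ^ 2) = fun x => (g * g) x := by
      ext x; simp [sq]
    rw [this]
    exact BoundedContinuousFunction.integrable π _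
  have hgV : Integrable (fun x => g x * V x) π :=
    hV1.bdd_mul (c := ‖g‖) g.continuous.aestronglyMeasurable
      (Eventually.of_forall fun x => g.norm_coe_le_norm x)
  have h1 : ∫ x, ‖V x - g x‖ ^ (2 : ℝ) ∂π = ∫ x, (V x ^ 2 + (g x) ^ 2 - 2 * (g x * V x)) ∂π := by
    refine integral_congr_ae (Eventually.of_forall fun x => ?_)
    simp only [Real.rpow_ofNat, Real.norm_eq_abs, sq_abs]
    ring
  have h2 : ∫ x, (V x ^ 2 + (g x) ^ 2 - 2 * (g x * V x)) ∂π =
      1 + (∫ x, (g x) ^ 2 ∂π) - 2 * 0 := by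
    have hs : Integrable (fun x => V x ^ 2 + (g x) ^ 2) π := hV2.add hg2
    rw [integral_sub hs (hgV.const_mul 2), integral_add hV2 hg2, integral_const_mul, hcon g, hn]
  have h3 : 0 ≤ ∫ x, (g x) ^ 2 ∂π := integral_nonneg fun x => sq_nonneg _
  rw [h1, h2] at hg
  linarith

variable {l : ℕ} {Ω : Type*} [MeasurableSpace Ω] {P : Measure Ω} {μ : Fin (l + 1 + 1) → ℝ} {u : ℝ → ℝ}
  {B : Fin (l + 1 + 1) → ℝ≥0 → Ω → ℝ} {G : (Fin (l + 1) → ℝ) → ℝ≥0 → Ω → Fin (l + 1) → ℝ}

theorem upper_last (S : Sys P (l + 1) μ u B G) (hπ : IsStat P G (PI u μ))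
    (hlt : ∀ i : Fin (l + 1), i ≠ Fin.last l → gap u (rel μ (Fin.last l)) < gap u (rel μ i))
    (hpos : 0 < gap u (rel μ (Fin.last l)))
    (hle : gap u (rel μ (Fin.last l)) < rel μ (Fin.last l) ^ 2 / 4) {δ : ℝ}
    (hδ : UnifErg P G (PI u μ) δ) : δ ≤ gap u (rel μ (Fin.last l)) := by
  have := hπ.prob
  by_contra hcon
  push Not at hcon
  set lam := gap u (rel μ (Fin.last l)) with hlam
  have hanti : StrictAnti μ := Fin.strictAnti_iff_succ_lt.2 S.mu
  have hm : 0 < rel μ (Fin.last l) := by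
    unfold rel; exact sub_pos.2 (hanti (Fin.succ_pos _))
  obtain ⟨v, f, c, hE⟩ := eigen S.pot hm hle
  have hV : MemLp (fun x : Fin (l + 1) → ℝ => v (x (Fin.last l))) 2 (PI u μ) :=
    memLp_last S.pot S.mu hE.l2
  have hV0 : ∫ x : Fin (l + 1) → ℝ, v (x (Fin.last l)) ∂(PI u μ) = 0 := by
    rw [← hE.mean]; exact integral_last S.pot S.mu v hE.meas
  have hVn : ∫ x : Fin (l + 1) → ℝ, v (x (Fin.last l)) ^ 2 ∂(PI u μ) = 1 := by
    rw [← hE.nz]; exact integral_last S.pot S.mu (fun s => v s ^ 2) (hE.meas.pow_const 2)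
  obtain ⟨g, hg⟩ := upl_dense (PI u μ) hV hVn
  obtain ⟨Q, hQ, hnl⟩ := nls S hπ hlt hpos
  obtain ⟨C, hC, W, hW, hTV⟩ := hδ
  set m0 := ∫ y, g y ∂(PI u μ) with hm0
  have hDa : ∀ (t : ℝ≥0) x, (ptb S t g - BoundedContinuousFunction.const (Fin (l + 1) → ℝ) m0) x =
      ptb S t g x - m0 := fun t x => by simp
  apply hg
  refine upl_abs (PI u μ) hV (fun t => ptb S t g - BoundedContinuousFunction.const _ m0) (lam := lam)
    (δ := δ) (Q := Q * ∫ x, (g x - m0) ^ 2 ∂(PI u μ)) ?_ ?_ ?_ hcon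
  · intro t
    have h1 := dual S hπ hpos.le hE t g
    have hV1 : Integrable (fun x : Fin (l + 1) → ℝ => v (x (Fin.last l))) (PI u μ) :=
      hV.integrable (by norm_num)
    have hgV : Integrable (fun x => ptb S t g x * v (x (Fin.last l))) (PI u μ) :=
      hV1.bdd_mul (c := ‖ptb S t g‖) (ptb S t g).continuous.aestronglyMeasurable
        (Eventually.of_forall fun x => (ptb S t g).norm_coe_le_norm x)
    have h2 : ∫ x, (ptb S t g - BoundedContinuousFunction.const (Fin (l + 1) → ℝ) m0) x *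
        v (x (Fin.last l)) ∂(PI u μ) =
        ∫ x, (ptb S t g x * v (x (Fin.last l)) - m0 * v (x (Fin.last l))) ∂(PI u μ) := by
      refine integral_congr_ae (Eventually.of_forall fun x => ?_)
      simp only [hDa]
      ring
    rw [h2, integral_sub hgV (hV1.const_mul m0), integral_const_mul, hV0, mul_zero, sub_zero]
    exact h1
  · intro t
    have h1 := hnl t g
    simp only [hDa]
    refine h1.trans (le_of_eq ?_)
    ring
  · intro x
    refine ⟨(‖g‖ + 1) * (C * W x), fun t => ?_⟩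
    have hn : 0 < ‖g‖ + 1 := by positivity
    have hgm : Measurable (fun y => g y / (‖g‖ + 1)) := g.continuous.measurable.div_const _
    have h := hTV x t (fun y => g y / (‖g‖ + 1)) hgm (fun y => by
      rw [abs_div, abs_of_pos hn, div_le_one hn]
      have := g.norm_coe_le_norm y
      rw [Real.norm_eq_abs] at this
      linarith)
    rw [integral_div, integral_div, integral_map ((S.gap x).meas t).aemeasurable
      g.continuous.aestronglyMeasurable, ← sub_div, abs_div, abs_of_pos hn, div_le_iff₀ hn] at h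
    rw [hDa, ptb_apply, pt]
    refine h.trans (le_of_eq ?_)
    ring

end Pool.Agent.SGP
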