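import Pool.Agent.SGP.LOW
import Pool.Agent.SGP.UPL
import Pool.Agent.SGP.ONX
import Pool.Agent.SGP.GLE
import Pool.Agent.SGP.PRS
import Pool.Agent.SGP.IDN

/-!
# FIN: the exact rate
-/

open MeasureTheory ProbabilityTheory Set Filter Topology
open scoped ENNReal NNReal BoundedContinuousFunction

namespace Pool.Agent.SGP

open Pool.Agent.OYG

variable {n : ℕ} {Ω : Type*} [MeasurableSpace Ω] {P : Measure Ω} {μ : Fin (n + 1) → ℝ} {u : ℝ → ℝ}
  {B : Fin (n + 1) → ℝ≥0 → Ω → ℝ} {G : (Fin n → ℝ) → ℝ≥0 → Ω → Fin n → ℝ}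

/-- upper bound at the first index where the minimum is attained -/
theorem upper_at (S : Sys P n μ u B G) (hπ : IsStat P G (PI u μ)) {δ : ℝ} (hδ : UnifErg P G (PI u μ) δ)
    (j : Fin n) (hj : ∀ i : Fin n, i < j → gap u (rel μ j) < gap u (rel μ i)) : δ ≤ gap u (rel μ j) := by
  have hk : (j : ℕ) + 1 ≤ n := j.2
  have hS := pre_sys hk S
  have hst := pre_stat hk S hπ
  have her := pre_erg hk S hδ
  have hlast : Fin.castLE hk (Fin.last (j : ℕ)) = j := by
    ext; rfl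
  have hrl : rel (muk hk μ) (Fin.last (j : ℕ)) = rel μ j := by
    rw [pre_rel, hlast]
  rcases Nat.eq_zero_or_pos (j : ℕ) with h0 | h0
  · -- the first gap
    obtain ⟨j, hjn⟩ := j
    simp only at h0
    subst h0
    have := one_upper hS hst her
    have h2 : rel (muk hk μ) (0 : Fin 1) = rel μ ⟨0, hjn⟩ := hrl
    rw [h2] at this
    exact this
  · have hpos : 0 < gap u (rel μ j) := gap_pos S.pot (rel_pos S.mu j)
    have hlt : ∀ i : Fin ((j : ℕ) + 1), i ≠ Fin.last (j : ℕ) →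
        gap u (rel (muk hk μ) (Fin.last (j : ℕ))) < gap u (rel (muk hk μ) i) := by
      intro i hi
      rw [hrl, pre_rel]
      refine hj _ ?_
      have h1 : (i : ℕ) < (j : ℕ) := by
        rcases Nat.lt_succ_iff_lt_or_eq.1 i.2 with h | h
        · exact h
        · exact absurd (Fin.ext h) hi
      exact h1
    have hn : 0 < n := by omega
    have hj0 : (⟨0, hn⟩ : Fin n) < j := h0
    have hle : gap u (rel (muk hk μ) (Fin.last (j : ℕ))) < rel (muk hk μ) (Fin.last (j : ℕ)) ^ 2 / 4 := by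
      rw [hrl]
      have h1 := hj _ hj0
      have h2 := gap_le S.pot (rel_pos S.mu ⟨0, hn⟩)
      have h3 := rel_strictMono S.mu hj0
      have h4 := rel_pos S.mu ⟨0, hn⟩
      have h5 : rel μ ⟨0, hn⟩ ^ 2 < rel μ j ^ 2 := by
        exact pow_lt_pow_left₀ h3 h4.le (by norm_num)
      linarith
    have := upper_last hS hst hlt (by rw [hrl]; exact hpos) hle her
    rwa [hrl] at this

theorem exact_rate (P : Measure Ω) [IsProbabilityMeasure P] (n : ℕ) (hn : 0 < n) (μ : Fin (n + 1) → ℝ)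
    (hμ : ∀ i : Fin n, μ i.succ < μ i.castSucc) (u : ℝ → ℝ) (hu : Pot u)
    (B : Fin (n + 1) → ℝ≥0 → Ω → ℝ) (hB : IsBMd P n B) (G : (Fin n → ℝ) → ℝ≥0 → Ω → Fin n → ℝ)
    (hG : ∀ x, IsGap n μ u B x (G x)) (π : Measure (Fin n → ℝ)) (hπ : IsStat P G π) :
    IsLUB {δ : ℝ | 0 < δ ∧ UnifErg P G π δ} (⨅ i : Fin n, gap u (rel μ i)) := by
  haveI : Nonempty (Fin n) := ⟨⟨0, hn⟩⟩
  have S : Sys P n μ u B G := ⟨inferInstance, hu, hμ, hB, hG⟩
  have hpi : π = PI u μ := stat_eq S hπ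
  subst hpi
  have hfin : (Set.range fun i : Fin n => gap u (rel μ i)).Finite := Set.finite_range _
  have hbdd : BddBelow (Set.range fun i : Fin n => gap u (rel μ i)) := hfin.bddBelow
  -- the first minimizing index
  obtain ⟨i0, hi0⟩ := exists_eq_ciInf_of_finite (f := fun i : Fin n => gap u (rel μ i))
  have hne : ∃ k : ℕ, ∃ h : k < n, gap u (rel μ ⟨k, h⟩) = ⨅ i : Fin n, gap u (rel μ i) := ⟨i0, i0.2, hi0⟩
  classical
  obtain ⟨hjn, hj⟩ := Nat.find_spec hne
  have hmin : ∀ i : Fin n, i < (⟨Nat.find hne, hjn⟩ : Fin n) →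
      gap u (rel μ ⟨Nat.find hne, hjn⟩) < gap u (rel μ i) := by
    intro i hi
    rw [hj]
    refine lt_of_le_of_ne (ciInf_le hbdd i) ?_
    intro h
    exact Nat.find_min hne (show (i : ℕ) < Nat.find hne from hi) ⟨i.2, h.symm⟩
  have hposall : ∀ i : Fin n, 0 < gap u (rel μ i) := fun i => gap_pos hu (rel_pos hμ i)
  constructor
  · rintro δ ⟨_, hδ⟩
    rw [← hj]
    exact upper_at S hπ hδ _ hmin
  · intro b hb
    refine le_of_forall_lt fun c hc => ?_
    have h1 : (max c 0) < ⨅ i : Fin n, gap u (rel μ i) := by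
      refine max_lt hc ?_
      rw [← hj]
      exact hposall _
    obtain ⟨δ, hδ1, hδ2⟩ := exists_between h1
    have h3 : δ ≤ b := by
      refine hb ⟨lt_of_le_of_lt (le_max_right _ _) hδ1, ?_⟩
      exact lower_bound S hn hπ (lt_of_le_of_lt (le_max_right _ _) hδ1)
        (fun i => lt_of_lt_of_le hδ2 (ciInf_le hbdd i))
    exact lt_of_le_of_lt (le_max_left _ _) (lt_of_lt_of_le hδ1 h3)

end Pool.Agent.SGP
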