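import Pool.Agent.SGP.EOP

/-!
# FRM: bilinear forms; the weighted block norm

Proofs. Write `(f, g) = ∫ f g d(pi ν)`. `pq a b` is symmetric, idempotent, and `pq a b (pq a' b' f) = 0` unless
`(a, b) = (a', b')` (`pp_pp`, `qq_qq`, `pp_qq`, `es_symm`: `(P_{b+1} - P_b)(P_{b'+1} - P_{b'})` is `P_{b+1} - P_b` if
`b = b'` and `0` otherwise, the same for `Q`). `pq_sum`: telescoping, `P_n = Q_0 = id` and `P_0 = Q_n =` mean (`es_univ`,
`es_empty`, `es_comp`, `es_const`): `(id - mean)(id - mean) = id - mean`.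
`nnm_lower`: `f - mean = ∑ pq a b f`, `∫ (f - mean)^2 = ∫ f (f - mean) = ∑ ∫ f * pq a b f = ∑ ∫ (pq a b f)^2`, and
`M^(a+b) ≥ 1`. `bd`: `∫ (pq a b f)^2 = ∫ f * pq a b f ≤ (1/2)∫ f^2 + (1/2)∫ (pq a b f)^2`. (`frm_cs`) Cauchy-Schwarz from
`0 ≤ N (s f + g) (s f + g)` for all `s` (`discrim_le_zero` or the standard argument).
(`frm_tendsto`) `|N f g - N f' g'| ≤ |N (f - f') g| + |N f' (g - g')|`, `frm_cs`, `bd`.
-/

open MeasureTheory ProbabilityTheory Set Filter Topology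
open scoped ENNReal NNReal BoundedContinuousFunction

namespace Pool.Agent.SGP

variable {n : ℕ}

/-- a symmetric positive semidefinite form, bounded in `L²(π)` -/
structure Frm (π : Measure (Fin n → ℝ)) (N : ((Fin n → ℝ) →ᵇ ℝ) → ((Fin n → ℝ) →ᵇ ℝ) → ℝ) : Prop where
  add : ∀ f g h, N (f + g) h = N f h + N g h
  smul : ∀ (c : ℝ) f g, N (c • f) g = c * N f g
  symm : ∀ f g, N f g = N g f
  pos : ∀ f, 0 ≤ N f f
  bd : ∃ C : ℝ, 0 ≤ C ∧ ∀ f, N f f ≤ C * ∫ x, f x ^ 2 ∂π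

theorem frm_cs {π : Measure (Fin n → ℝ)} {N : ((Fin n → ℝ) →ᵇ ℝ) → ((Fin n → ℝ) →ᵇ ℝ) → ℝ} (hN : Frm π N)
    (f g : (Fin n → ℝ) →ᵇ ℝ) : N f g ^ 2 ≤ N f f * N g g := by
  have h : ∀ s : ℝ, 0 ≤ N f f * (s * s) + (2 * N f g) * s + N g g := by
    intro s
    have h1 := hN.pos (s • f + g)
    have h2 : N (s • f + g) (s • f + g) = N f f * (s * s) + (2 * N f g) * s + N g g := by
      rw [hN.add, hN.symm (s • f) (s • f + g), hN.symm g (s • f + g), hN.add, hN.add, hN.smul, hN.smul,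
        hN.symm f (s • f), hN.smul, hN.symm g (s • f), hN.smul]
      ring
    rwa [h2] at h1
  have h3 := discrim_le_zero h
  unfold discrim at h3
  nlinarith

private theorem frm_sub {π : Measure (Fin n → ℝ)} {N : ((Fin n → ℝ) →ᵇ ℝ) → ((Fin n → ℝ) →ᵇ ℝ) → ℝ}
    (hN : Frm π N) (f g h : (Fin n → ℝ) →ᵇ ℝ) : N (f - g) h = N f h - N g h := by
  have : f - g = f + (-1 : ℝ) • g := by
    ext x
    simp
    ring
  rw [this, hN.add, hN.smul]
  ring

theorem frm_tendsto {π : Measure (Fin n → ℝ)} [IsFiniteMeasure π]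
    {N : ((Fin n → ℝ) →ᵇ ℝ) → ((Fin n → ℝ) →ᵇ ℝ) → ℝ} (hN : Frm π N) {f g : (Fin n → ℝ) →ᵇ ℝ}
    {F H : ℕ → ((Fin n → ℝ) →ᵇ ℝ)} (hF : Tendsto (fun k => ∫ x, (F k x - f x) ^ 2 ∂π) atTop (𝓝 0))
    (hH : Tendsto (fun k => ∫ x, (H k x - g x) ^ 2 ∂π) atTop (𝓝 0)) :
    Tendsto (fun k => N (F k) (H k)) atTop (𝓝 (N f g)) := by
  obtain ⟨C, hC, hbd⟩ := hN.bd
  have key : ∀ (G : ℕ → ((Fin n → ℝ) →ᵇ ℝ)) (u : (Fin n → ℝ) →ᵇ ℝ) (v : (Fin n → ℝ) →ᵇ ℝ),
      Tendsto (fun k => ∫ x, (G k x - u x) ^ 2 ∂π) atTop (𝓝 0) →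
      Tendsto (fun k => N (G k - u) v) atTop (𝓝 0) := by
    intro G u v hG
    have h1 : Tendsto (fun k => Real.sqrt ((C * ∫ x, (G k x - u x) ^ 2 ∂π) * N v v)) atTop (𝓝 0) := by
      have h2 : Tendsto (fun k => (C * ∫ x, (G k x - u x) ^ 2 ∂π) * N v v) atTop (𝓝 ((C * 0) * N v v)) :=
        (hG.const_mul C).mul_const _
      have h3 := (Real.continuous_sqrt.tendsto _).comp h2
      simpa [Function.comp_def] using h3
    apply squeeze_zero_norm _ h1
    intro k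
    rw [Real.norm_eq_abs]
    apply Real.abs_le_sqrt
    refine (frm_cs hN _ _).trans ?_
    apply mul_le_mul_of_nonneg_right _ (hN.pos v)
    have := hbd (G k - u)
    simpa using this
  have h1 := key F f g hF
  have h2 := key H g f hH
  have h3 : Tendsto (fun k => N (F k - f) (H k - g)) atTop (𝓝 0) := by
    have h1 : Tendsto (fun k => Real.sqrt ((C * ∫ x, (F k x - f x) ^ 2 ∂π) *
        (C * ∫ x, (H k x - g x) ^ 2 ∂π))) atTop (𝓝 0) := by
      have h2 : Tendsto (fun k => (C * ∫ x, (F k x - f x) ^ 2 ∂π) * (C * ∫ x, (H k x - g x) ^ 2 ∂π)) atTop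
          (𝓝 ((C * 0) * (C * 0))) := (hF.const_mul C).mul (hH.const_mul C)
      have h3 := (Real.continuous_sqrt.tendsto _).comp h2
      simpa [Function.comp_def] using h3
    apply squeeze_zero_norm _ h1
    intro k
    rw [Real.norm_eq_abs]
    apply Real.abs_le_sqrt
    refine (frm_cs hN _ _).trans ?_
    have e1 := hbd (F k - f)
    have e2 := hbd (H k - g)
    simp only [BoundedContinuousFunction.coe_sub, Pi.sub_apply] at e1 e2
    exact mul_le_mul e1 e2 (hN.pos _) ((hN.pos _).trans e1)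
  have h4 : (fun k => N (F k) (H k)) =
      fun k => N f g + (N (F k - f) g + (N (H k - g) f + N (F k - f) (H k - g))) := by
    funext k
    rw [frm_sub hN (F k) f g, frm_sub hN (F k) f (H k - g), hN.symm (F k) (H k - g), hN.symm f (H k - g),
      frm_sub hN (H k) g (F k), frm_sub hN (H k) g f, hN.symm (H k) (F k), hN.symm g (F k), hN.symm g f]
    ring
  rw [h4]
  have h5 := tendsto_const_nhds (x := N f g) (f := (atTop : Filter ℕ)) |>.add (h1.add (h2.add h3))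
  simpa using h5

/-- the plain `L²` form -/
theorem frm_l2 (π : Measure (Fin n → ℝ)) [IsFiniteMeasure π] : Frm π fun f g => ∫ x, f x * g x ∂π where
  add f g h := by
    have h1 : Integrable (fun x => f x * h x) π := (f * h).integrable π
    have h2 : Integrable (fun x => g x * h x) π := (g * h).integrable π
    rw [← integral_add h1 h2]
    congr 1
    funext x
    simp
    ring
  smul c f g := by
    rw [← integral_const_mul]
    congr 1
    funext x
    simp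
    ring
  symm f g := by
    congr 1
    funext x
    ring
  pos f := integral_nonneg fun x => mul_self_nonneg _
  bd := ⟨1, zero_le_one, fun f => by
    rw [one_mul]
    apply le_of_eq
    congr 1
    funext x
    ring⟩

variable (ν : Fin n → Measure ℝ) [∀ i, IsProbabilityMeasure (ν i)]

private noncomputable def dP (b : ℕ) : ((Fin n → ℝ) →ᵇ ℝ) →ₗ[ℝ] ((Fin n → ℝ) →ᵇ ℝ) := Pp ν (b + 1) - Pp ν b

private noncomputable def dQ (a : ℕ) : ((Fin n → ℝ) →ᵇ ℝ) →ₗ[ℝ] ((Fin n → ℝ) →ᵇ ℝ) := Qtl ν a - Qtl ν (a + 1)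

private theorem pq_eq' (a b : ℕ) (f : (Fin n → ℝ) →ᵇ ℝ) : pq ν a b f = dP ν b (dQ ν a f) := rfl

private theorem dP_apply (b : ℕ) (f : (Fin n → ℝ) →ᵇ ℝ) : dP ν b f = Pp ν (b + 1) f - Pp ν b f := rfl

private theorem dQ_apply (a : ℕ) (f : (Fin n → ℝ) →ᵇ ℝ) : dQ ν a f = Qtl ν a f - Qtl ν (a + 1) f := rfl

private theorem pq_eq (a b : ℕ) (f : (Fin n → ℝ) →ᵇ ℝ) : pq ν a b f =
    Pp ν (b + 1) (Qtl ν a f) - Pp ν (b + 1) (Qtl ν (a + 1) f) - (Pp ν b (Qtl ν a f) - Pp ν b (Qtl ν (a + 1) f)) := by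
  rw [pq_eq', dP_apply, dQ_apply, map_sub, map_sub]

private theorem pq_comm (a b : ℕ) (f : (Fin n → ℝ) →ᵇ ℝ) : dP ν b (dQ ν a f) = dQ ν a (dP ν b f) := by
  simp only [dP_apply, dQ_apply, map_sub]
  rw [pp_qq, pp_qq, pp_qq, pp_qq]
  abel

private theorem int_sub_mul (u v g : (Fin n → ℝ) →ᵇ ℝ) :
    ∫ x, (u - v) x * g x ∂(Measure.pi ν) = ∫ x, u x * g x ∂(Measure.pi ν) - ∫ x, v x * g x ∂(Measure.pi ν) := by
  have h1 : Integrable (fun x => u x * g x) (Measure.pi ν) := (u * g).integrable _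
  have h2 : Integrable (fun x => v x * g x) (Measure.pi ν) := (v * g).integrable _
  rw [← integral_sub h1 h2]
  congr 1
  funext x
  simp
  ring

private theorem int_mul_sub (g u v : (Fin n → ℝ) →ᵇ ℝ) :
    ∫ x, g x * (u - v) x ∂(Measure.pi ν) = ∫ x, g x * u x ∂(Measure.pi ν) - ∫ x, g x * v x ∂(Measure.pi ν) := by
  have h1 : Integrable (fun x => g x * u x) (Measure.pi ν) := (g * u).integrable _
  have h2 : Integrable (fun x => g x * v x) (Measure.pi ν) := (g * v).integrable _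
  rw [← integral_sub h1 h2]
  congr 1
  funext x
  simp
  ring

private theorem dP_symm (b : ℕ) (f g : (Fin n → ℝ) →ᵇ ℝ) :
    ∫ x, dP ν b f x * g x ∂(Measure.pi ν) = ∫ x, f x * dP ν b g x ∂(Measure.pi ν) := by
  rw [dP_apply, dP_apply, int_sub_mul, int_mul_sub]
  unfold Pp
  rw [es_symm, es_symm]

private theorem dQ_symm (a : ℕ) (f g : (Fin n → ℝ) →ᵇ ℝ) :
    ∫ x, dQ ν a f x * g x ∂(Measure.pi ν) = ∫ x, f x * dQ ν a g x ∂(Measure.pi ν) := by
  rw [dQ_apply, dQ_apply, int_sub_mul, int_mul_sub]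
  unfold Qtl
  rw [es_symm, es_symm]

theorem pq_symm (a b : ℕ) (f g : (Fin n → ℝ) →ᵇ ℝ) :
    ∫ x, pq ν a b f x * g x ∂(Measure.pi ν) = ∫ x, f x * pq ν a b g x ∂(Measure.pi ν) := by
  rw [pq_eq', pq_eq', dP_symm, dQ_symm, pq_comm]

theorem pq_idem (a b : ℕ) (f : (Fin n → ℝ) →ᵇ ℝ) : pq ν a b (pq ν a b f) = pq ν a b f := by
  have hP : ∀ h : (Fin n → ℝ) →ᵇ ℝ, dP ν b (dP ν b h) = dP ν b h := by
    intro h
    simp only [dP_apply, map_sub]
    rw [pp_pp, pp_pp, pp_pp, pp_pp]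
    simp
  have hQ : ∀ h : (Fin n → ℝ) →ᵇ ℝ, dQ ν a (dQ ν a h) = dQ ν a h := by
    intro h
    simp only [dQ_apply, map_sub]
    rw [qq_qq, qq_qq, qq_qq, qq_qq]
    simp
  rw [pq_eq', pq_eq', ← pq_comm ν a b (dQ ν a f), hP, hQ]

theorem pq_orth {a b a' b' : ℕ} (h : (a, b) ≠ (a', b')) (f : (Fin n → ℝ) →ᵇ ℝ) :
    pq ν a b (pq ν a' b' f) = 0 := by
  by_cases hb : b = b'
  · have ha : a ≠ a' := fun e => h (by rw [e, hb])
    have hQ : ∀ h : (Fin n → ℝ) →ᵇ ℝ, dQ ν a (dQ ν a' h) = 0 := by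
      intro h
      simp only [dQ_apply, map_sub]
      rw [qq_qq, qq_qq, qq_qq, qq_qq]
      rcases lt_or_gt_of_ne ha with h1 | h1
      · rw [max_eq_right (by omega : a ≤ a'), max_eq_right (by omega : a ≤ a' + 1),
          max_eq_right (by omega : a + 1 ≤ a'), max_eq_right (by omega : a + 1 ≤ a' + 1)]
        abel
      · rw [max_eq_left (by omega : a' ≤ a), max_eq_left (by omega : a' + 1 ≤ a),
          max_eq_left (by omega : a' ≤ a + 1), max_eq_left (by omega : a' + 1 ≤ a + 1)]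
        abel
    rw [pq_eq', pq_eq', pq_comm ν a' b' f, hQ, map_zero]
  · have hP : ∀ h : (Fin n → ℝ) →ᵇ ℝ, dP ν b (dP ν b' h) = 0 := by
      intro h
      simp only [dP_apply, map_sub]
      rw [pp_pp, pp_pp, pp_pp, pp_pp]
      rcases lt_or_gt_of_ne hb with h1 | h1
      · rw [min_eq_left (by omega : b + 1 ≤ b' + 1), min_eq_left (by omega : b + 1 ≤ b'),
          min_eq_left (by omega : b ≤ b' + 1), min_eq_left (by omega : b ≤ b')]
        abel
      · rw [min_eq_right (by omega : b' + 1 ≤ b + 1), min_eq_right (by omega : b' ≤ b + 1),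
          min_eq_right (by omega : b' + 1 ≤ b), min_eq_right (by omega : b' ≤ b)]
        abel
    rw [pq_eq', pq_eq', pq_comm ν a b, hP, map_zero]

private theorem pp_qq_empty {a b : ℕ} (h : b ≤ a) (f : (Fin n → ℝ) →ᵇ ℝ) :
    Pp ν b (Qtl ν a f) = ES ν ∅ f := by
  unfold Pp Qtl
  rw [es_comp]
  congr 2
  ext i
  simp
  omega

theorem pq_gt {a b : ℕ} (h : b < a) (f : (Fin n → ℝ) →ᵇ ℝ) : pq ν a b f = 0 := by
  rw [pq_eq, pp_qq_empty ν (by omega), pp_qq_empty ν (by omega), pp_qq_empty ν (by omega),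
    pp_qq_empty ν (by omega)]
  abel

theorem pq_sum (f : (Fin n → ℝ) →ᵇ ℝ) : ∑ a ∈ Finset.range n, ∑ b ∈ Finset.range n, pq ν a b f =
    f - BoundedContinuousFunction.const _ (∫ y, f y ∂(Measure.pi ν)) := by
  have hb : ∀ a, ∑ b ∈ Finset.range n, pq ν a b f = Pp ν n (Qtl ν a f - Qtl ν (a + 1) f) -
      Pp ν 0 (Qtl ν a f - Qtl ν (a + 1) f) := by
    intro a
    simp only [pq_eq', dP_apply, dQ_apply]
    exact Finset.sum_range_sub (fun b => Pp ν b (Qtl ν a f - Qtl ν (a + 1) f)) n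
  simp only [hb]
  rw [Finset.sum_sub_distrib, ← map_sum, ← map_sum, Finset.sum_range_sub']
  have e1 : ∀ g : (Fin n → ℝ) →ᵇ ℝ, Pp ν n g = g := by
    intro g
    have : (Finset.univ.filter fun i : Fin n => (i : ℕ) < n) = Finset.univ := by
      ext i
      simp
    unfold Pp
    rw [this, es_univ]
  have e2 : ∀ g : (Fin n → ℝ) →ᵇ ℝ, Pp ν 0 g = ES ν ∅ g := by
    intro g
    have : (Finset.univ.filter fun i : Fin n => (i : ℕ) < 0) = ∅ := by
      ext i
      simp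
    unfold Pp
    rw [this]
  have e3 : ∀ g : (Fin n → ℝ) →ᵇ ℝ, Qtl ν 0 g = g := by
    intro g
    have : (Finset.univ.filter fun i : Fin n => 0 ≤ (i : ℕ)) = Finset.univ := by
      ext i
      simp
    unfold Qtl
    rw [this, es_univ]
  have e4 : ∀ g : (Fin n → ℝ) →ᵇ ℝ, Qtl ν n g = ES ν ∅ g := by
    intro g
    have : (Finset.univ.filter fun i : Fin n => n ≤ (i : ℕ)) = ∅ := by
      ext i
      simp
    unfold Qtl
    rw [this]
  rw [e1, e2, e3, e4, map_sub, es_comp, Finset.inter_self, sub_self, sub_zero, es_empty]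

private theorem pq_const (a b : ℕ) (c : ℝ) : pq ν a b (BoundedContinuousFunction.const _ c) = 0 := by
  rw [pq_eq', dQ_apply]
  unfold Qtl
  rw [es_const, es_const, sub_self, map_zero]

private theorem pq_int (a b : ℕ) (f g : (Fin n → ℝ) →ᵇ ℝ) :
    ∫ x, pq ν a b f x * pq ν a b g x ∂(Measure.pi ν) = ∫ x, f x * pq ν a b g x ∂(Measure.pi ν) := by
  rw [pq_symm, pq_idem]

private theorem pq_l2 (a b : ℕ) (f : (Fin n → ℝ) →ᵇ ℝ) :
    ∫ x, pq ν a b f x * pq ν a b f x ∂(Measure.pi ν) ≤ ∫ x, f x ^ 2 ∂(Measure.pi ν) := by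
  have hi1 : Integrable (fun x => f x ^ 2) (Measure.pi ν) := by
    have h := (f * f).integrable (Measure.pi ν)
    have e : (fun x => f x ^ 2) = ⇑(f * f) := by
      funext x
      simp [sq]
    rw [e]
    exact h
  have hi2 : Integrable (fun x => pq ν a b f x * pq ν a b f x) (Measure.pi ν) :=
    (pq ν a b f * pq ν a b f).integrable (Measure.pi ν)
  have hi3 : Integrable (fun x => f x * pq ν a b f x) (Measure.pi ν) :=
    (f * pq ν a b f).integrable (Measure.pi ν)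
  have h1 : ∫ x, f x * pq ν a b f x ∂(Measure.pi ν) ≤
      ∫ x, ((1 / 2) * f x ^ 2 + (1 / 2) * (pq ν a b f x * pq ν a b f x)) ∂(Measure.pi ν) := by
    apply integral_mono hi3 ((hi1.const_mul _).add (hi2.const_mul _))
    intro x
    simp only [Pi.add_apply]
    nlinarith [sq_nonneg (f x - pq ν a b f x)]
  rw [integral_add (hi1.const_mul _) (hi2.const_mul _), integral_const_mul, integral_const_mul,
    ← pq_int] at h1
  linarith

private theorem gen_frm (c : ℕ → ℕ → ℝ) (hc : ∀ a b, 0 ≤ c a b) : Frm (Measure.pi ν) fun f g =>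
    ∑ a ∈ Finset.range n, ∑ b ∈ Finset.range n,
      c a b * ∫ x, pq ν a b f x * pq ν a b g x ∂(Measure.pi ν) where
  add f g h := by
    rw [← Finset.sum_add_distrib]
    refine Finset.sum_congr rfl fun a _ => ?_
    rw [← Finset.sum_add_distrib]
    refine Finset.sum_congr rfl fun b _ => ?_
    rw [map_add, (frm_l2 (Measure.pi ν)).add]
    ring
  smul r f g := by
    rw [Finset.mul_sum]
    refine Finset.sum_congr rfl fun a _ => ?_
    rw [Finset.mul_sum]
    refine Finset.sum_congr rfl fun b _ => ?_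
    rw [map_smul, (frm_l2 (Measure.pi ν)).smul]
    ring
  symm f g := by
    refine Finset.sum_congr rfl fun a _ => ?_
    refine Finset.sum_congr rfl fun b _ => ?_
    rw [(frm_l2 (Measure.pi ν)).symm]
  pos f := by
    refine Finset.sum_nonneg fun a _ => ?_
    refine Finset.sum_nonneg fun b _ => ?_
    exact mul_nonneg (hc a b) (integral_nonneg fun x => mul_self_nonneg _)
  bd := by
    refine ⟨∑ a ∈ Finset.range n, ∑ b ∈ Finset.range n, c a b,
      Finset.sum_nonneg fun a _ => Finset.sum_nonneg fun b _ => hc a b, fun f => ?_⟩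
    rw [Finset.sum_mul]
    refine Finset.sum_le_sum fun a _ => ?_
    rw [Finset.sum_mul]
    refine Finset.sum_le_sum fun b _ => ?_
    exact mul_le_mul_of_nonneg_left (pq_l2 ν a b f) (hc a b)

/-- the weighted norm -/
noncomputable def NNM (M : ℝ) (f g : (Fin n → ℝ) →ᵇ ℝ) : ℝ :=
  ∑ a ∈ Finset.range n, ∑ b ∈ Finset.range n, M ^ (a + b) * ∫ x, pq ν a b f x * pq ν a b g x ∂(Measure.pi ν)

theorem nnm_frm {M : ℝ} (hM : 0 ≤ M) : Frm (Measure.pi ν) (NNM ν M) :=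
  gen_frm ν (fun a b => M ^ (a + b)) fun _ _ => pow_nonneg hM _

theorem nnm_lower {M : ℝ} (hM : 1 ≤ M) (f : (Fin n → ℝ) →ᵇ ℝ) :
    ∫ x, (f x - ∫ y, f y ∂(Measure.pi ν)) ^ 2 ∂(Measure.pi ν) ≤ NNM ν M f f := by
  set h : (Fin n → ℝ) →ᵇ ℝ := f - BoundedContinuousFunction.const _ (∫ y, f y ∂(Measure.pi ν)) with hh
  have h1 : ∫ x, (f x - ∫ y, f y ∂(Measure.pi ν)) ^ 2 ∂(Measure.pi ν) = ∫ x, h x * h x ∂(Measure.pi ν) := by
    congr 1
    funext x
    simp [hh]
    ring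
  have hl2 := frm_l2 (Measure.pi ν)
  have hsum : ∀ (s : Finset ℕ) (F : ℕ → ((Fin n → ℝ) →ᵇ ℝ)),
      ∫ x, (∑ a ∈ s, F a) x * h x ∂(Measure.pi ν) = ∑ a ∈ s, ∫ x, F a x * h x ∂(Measure.pi ν) := by
    intro s F
    induction s using Finset.induction_on with
    | empty => simp
    | insert a s ha ih => rw [Finset.sum_insert ha, Finset.sum_insert ha, hl2.add, ih]
  have h2 : ∫ x, h x * h x ∂(Measure.pi ν) = ∑ a ∈ Finset.range n, ∑ b ∈ Finset.range n,
      ∫ x, pq ν a b f x * pq ν a b f x ∂(Measure.pi ν) := by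
    have h3 : ∫ x, h x * h x ∂(Measure.pi ν) =
        ∫ x, (∑ a ∈ Finset.range n, ∑ b ∈ Finset.range n, pq ν a b f) x * h x ∂(Measure.pi ν) := by
      rw [pq_sum]
    rw [h3, hsum]
    refine Finset.sum_congr rfl fun a _ => ?_
    rw [hsum]
    refine Finset.sum_congr rfl fun b _ => ?_
    rw [pq_symm, hh, map_sub, pq_const, sub_zero, pq_int]
  rw [h1, h2]
  unfold NNM
  refine Finset.sum_le_sum fun a _ => ?_
  refine Finset.sum_le_sum fun b _ => ?_
  exact le_mul_of_one_le_left (integral_nonneg fun x => mul_self_nonneg _) (one_le_pow₀ hM)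

theorem nnm_right (M : ℝ) (f g : (Fin n → ℝ) →ᵇ ℝ) : NNM ν M f g =
    ∑ a ∈ Finset.range n, ∑ b ∈ Finset.range n, M ^ (a + b) * ∫ x, f x * pq ν a b g x ∂(Measure.pi ν) := by
  unfold NNM
  refine Finset.sum_congr rfl fun a _ => ?_
  refine Finset.sum_congr rfl fun b _ => ?_
  rw [pq_int]

/-- the same form without the block `(l, l)` -/
noncomputable def NNX (M : ℝ) (l : ℕ) (f g : (Fin n → ℝ) →ᵇ ℝ) : ℝ :=
  ∑ a ∈ Finset.range n, ∑ b ∈ Finset.range n, if a = l ∧ b = l then 0 else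
    M ^ (a + b) * ∫ x, pq ν a b f x * pq ν a b g x ∂(Measure.pi ν)

theorem nnx_frm {M : ℝ} (hM : 0 ≤ M) (l : ℕ) : Frm (Measure.pi ν) (NNX ν M l) := by
  have h := gen_frm ν (fun a b => if a = l ∧ b = l then 0 else M ^ (a + b)) fun a b => by
    split_ifs
    · exact le_refl _
    · exact pow_nonneg hM _
  have e : NNX ν M l = fun f g => ∑ a ∈ Finset.range n, ∑ b ∈ Finset.range n,
      (if a = l ∧ b = l then 0 else M ^ (a + b)) * ∫ x, pq ν a b f x * pq ν a b g x ∂(Measure.pi ν) := by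
    funext f g
    unfold NNX
    refine Finset.sum_congr rfl fun a _ => ?_
    refine Finset.sum_congr rfl fun b _ => ?_
    split_ifs
    · rw [zero_mul]
    · rfl
  rw [e]
  exact h

end Pool.Agent.SGP
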