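import Pool.Agent.SGP.BKS
import Pool.Agent.OYG.WOS
import Pool.Agent.OYG.WPR

/-!
# GSX: Taylor expansion of a Gaussian expectation

`W = P.map (blk B _ 0)`; `nz w 1 i = w (i+1) 1 - w i 1`.

The end points `w k 1` are independent standard normal, so everything is an integral over
`Measure.pi (gaussianReal 0 1)`; third order Taylor expansion with Lipschitz second derivative.
-/

open MeasureTheory ProbabilityTheory Set Filter Topology
open scoped ENNReal NNReal BoundedContinuousFunction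

namespace Pool.Agent.SGP

open Pool.Agent.OYG

variable {n : ℕ} {Ω : Type*} [MeasurableSpace Ω] {P : Measure Ω} {B : Fin (n + 1) → ℝ≥0 → Ω → ℝ}

/-! ### Gaussian moments -/

private noncomputable abbrev gm (n : ℕ) : Measure (Fin (n + 1) → ℝ) :=
  Measure.pi fun _ => gaussianReal 0 1

private def zz (η : Fin (n + 1) → ℝ) : Fin n → ℝ := fun i => η i.succ - η i.castSucc

private theorem gm_mem (p : ℝ≥0) (k : Fin (n + 1)) : MemLp (fun η : Fin (n + 1) → ℝ => η k) p (gm n) := by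
  have h1 : MemLp (id : ℝ → ℝ) p (gaussianReal 0 1) := memLp_id_gaussianReal p
  exact h1.comp_measurePreserving (measurePreserving_eval (fun _ : Fin (n + 1) => gaussianReal 0 1) k)

private theorem gm_comp (k : Fin (n + 1)) (f : ℝ → ℝ) (hf : Measurable f) :
    ∫ η, f (η k) ∂(gm n) = ∫ x, f x ∂(gaussianReal 0 1) := by
  have h1 := (measurePreserving_eval (fun _ : Fin (n + 1) => gaussianReal 0 1) k)
  have h2 : (gm n).map (fun η : Fin (n + 1) → ℝ => η k) = gaussianReal 0 1 := h1.map_eq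
  have hm : Measurable (fun η : Fin (n + 1) → ℝ => η k) := measurable_pi_apply k
  rw [← h2, integral_map hm.aemeasurable hf.aestronglyMeasurable]

private theorem gm_mean (k : Fin (n + 1)) : ∫ η, η k ∂(gm n) = 0 := by
  have h := gm_comp k (fun x => x) measurable_id
  rw [integral_id_gaussianReal] at h
  exact h

private theorem gm_sq (k : Fin (n + 1)) : ∫ η, η k * η k ∂(gm n) = 1 := by
  have h3 : ∫ x, x * x ∂(gaussianReal 0 1) = 1 := by
    have h4 := variance_eq_sub (X := (id : ℝ → ℝ)) (μ := gaussianReal 0 1)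
      (memLp_id_gaussianReal 2)
    rw [variance_id_gaussianReal] at h4
    have h5 : ∫ x, (id : ℝ → ℝ) x ∂(gaussianReal 0 1) = 0 := integral_id_gaussianReal
    rw [h5] at h4
    have h6 : ∫ x, ((id : ℝ → ℝ) ^ 2) x ∂(gaussianReal 0 1) = ∫ x, x * x ∂(gaussianReal 0 1) := by
      refine integral_congr_ae (Eventually.of_forall fun x => ?_)
      simp [pow_two]
    rw [h6] at h4
    simp at h4
    exact h4.symm
  rw [gm_comp k (fun x => x * x) (measurable_id.mul measurable_id), h3]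

private theorem gm_cross {k l : Fin (n + 1)} (h : k ≠ l) : ∫ η, η k * η l ∂(gm n) = 0 := by
  have h1 : iIndepFun (fun (k : Fin (n + 1)) (η : Fin (n + 1) → ℝ) => η k) (gm n) :=
    iIndepFun_pi (μ := fun _ : Fin (n + 1) => gaussianReal 0 1) (X := fun _ => (id : ℝ → ℝ))
      (fun _ => aemeasurable_id)
  have h2 : IndepFun (fun η : Fin (n + 1) → ℝ => η k) (fun η => η l) (gm n) := h1.indepFun h
  have h3 := h2.integral_mul_eq_mul_integral (gm_mem 2 k).aestronglyMeasurable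
    (gm_mem 2 l).aestronglyMeasurable
  have h4 : ∫ η, η k * η l ∂(gm n) = (∫ η, η k ∂(gm n)) * ∫ η, η l ∂(gm n) := h3
  rw [h4, gm_mean, gm_mean, mul_zero]

private theorem gm_mul (k l : Fin (n + 1)) : ∫ η, η k * η l ∂(gm n) = if k = l then 1 else 0 := by
  by_cases h : k = l
  · subst h
    rw [gm_sq, if_pos rfl]
  · rw [gm_cross h, if_neg h]

private theorem gm_int (k : Fin (n + 1)) : Integrable (fun η : Fin (n + 1) → ℝ => η k) (gm n) :=
  (gm_mem 2 k).integrable (by norm_num)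

private theorem gm_int2 (k l : Fin (n + 1)) :
    Integrable (fun η : Fin (n + 1) → ℝ => η k * η l) (gm n) :=
  MemLp.integrable_mul (p := 2) (q := 2) (gm_mem 2 k) (gm_mem 2 l)

/-! ### Linear and bilinear functionals of the Gaussian vector -/

private theorem eq_sum_ev (x : Fin n → ℝ) : x = ∑ i, x i • ev i := by
  funext j
  simp [Finset.sum_apply, ev, Pi.single_apply]

private theorem lin_ev (L : (Fin n → ℝ) →L[ℝ] ℝ) (x : Fin n → ℝ) : L x = ∑ i, x i * L (ev i) := by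
  conv_lhs => rw [eq_sum_ev x]
  simp [map_sum]

private theorem bil_ev (T : (Fin n → ℝ) →L[ℝ] (Fin n → ℝ) →L[ℝ] ℝ) (x : Fin n → ℝ) :
    T x x = ∑ i, ∑ j, (x i * x j) * T (ev i) (ev j) := by
  have h0 : T x = ∑ i, x i • T (ev i) := by
    conv_lhs => rw [eq_sum_ev x]
    simp only [map_sum, map_smul]
  have h1 : T x x = ∑ i, x i * (T (ev i)) x := by
    calc T x x = (∑ i, x i • T (ev i)) x := congrArg (fun L => L x) h0
      _ = ∑ i, x i * (T (ev i)) x := by simp
  rw [h1]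
  refine Finset.sum_congr rfl fun i _ => ?_
  rw [lin_ev (T (ev i)) x, Finset.mul_sum]
  refine Finset.sum_congr rfl fun j _ => ?_
  ring

private theorem zz_int (i : Fin n) : Integrable (fun η : Fin (n + 1) → ℝ => zz η i) (gm n) :=
  (gm_int i.succ).sub (gm_int i.castSucc)

private theorem zz_mean (i : Fin n) : ∫ η, zz η i ∂(gm n) = 0 := by
  have h : ∫ η, zz η i ∂(gm n) = (∫ η, η i.succ ∂(gm n)) - ∫ η, η i.castSucc ∂(gm n) :=
    integral_sub (gm_int i.succ) (gm_int i.castSucc)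
  rw [h, gm_mean, gm_mean, sub_zero]

private theorem zz_int2 (i j : Fin n) :
    Integrable (fun η : Fin (n + 1) → ℝ => zz η i * zz η j) (gm n) := by
  have h : (fun η : Fin (n + 1) → ℝ => zz η i * zz η j) = fun η =>
      (η i.succ * η j.succ - η i.succ * η j.castSucc) - (η i.castSucc * η j.succ -
        η i.castSucc * η j.castSucc) := by
    funext η
    simp only [zz]
    ring
  rw [h]
  exact ((gm_int2 _ _).sub (gm_int2 _ _)).sub ((gm_int2 _ _).sub (gm_int2 _ _))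

private theorem int4 {α : Type*} [MeasurableSpace α] {m : Measure α} {f1 f2 f3 f4 : α → ℝ}
    (h1 : Integrable f1 m) (h2 : Integrable f2 m) (h3 : Integrable f3 m) (h4 : Integrable f4 m) :
    ∫ x, ((f1 x - f2 x) - (f3 x - f4 x)) ∂m =
      (∫ x, f1 x ∂m - ∫ x, f2 x ∂m) - (∫ x, f3 x ∂m - ∫ x, f4 x ∂m) := by
  have c := integral_sub (h1.sub h2) (h3.sub h4)
  rw [← integral_sub h1 h2, ← integral_sub h3 h4]
  exact c

private theorem int5 {α : Type*} [MeasurableSpace α] {m : Measure α} [IsProbabilityMeasure m]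
    {f1 f2 f3 f4 : α → ℝ} (c : ℝ)
    (h1 : Integrable f1 m) (h2 : Integrable f2 m) (h3 : Integrable f3 m) (h4 : Integrable f4 m) :
    ∫ x, (c + (f1 x + (f2 x + (f3 x + f4 x)))) ∂m =
      c + (∫ x, f1 x ∂m + (∫ x, f2 x ∂m + (∫ x, f3 x ∂m + ∫ x, f4 x ∂m))) := by
  have e1 := integral_add (integrable_const (μ := m) c) (h1.add (h2.add (h3.add h4)))
  have e2 := integral_add h1 (h2.add (h3.add h4))
  have e3 := integral_add h2 (h3.add h4)
  have e4 := integral_add h3 h4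
  have e0 : ∫ _, c ∂m = c := by simp
  rw [e0] at e1
  rw [← e4]
  refine e1.trans ?_
  congr 1
  refine e2.trans ?_
  congr 1

private theorem zz_cov (i j : Fin n) : ∫ η, zz η i * zz η j ∂(gm n) =
    (if (i : ℕ) = j then 2 else 0) - (if (i : ℕ) + 1 = j then 1 else 0) -
      (if (j : ℕ) + 1 = i then 1 else 0) := by
  have h : (fun η : Fin (n + 1) → ℝ => zz η i * zz η j) = fun η =>
      (η i.succ * η j.succ - η i.succ * η j.castSucc) - (η i.castSucc * η j.succ -
        η i.castSucc * η j.castSucc) := by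
    funext η
    simp only [zz]
    ring
  rw [h, int4 (gm_int2 _ _) (gm_int2 _ _) (gm_int2 _ _) (gm_int2 _ _), gm_mul, gm_mul, gm_mul, gm_mul]
  simp only [Fin.ext_iff, Fin.val_succ, Fin.val_castSucc]
  split_ifs <;> first | omega | norm_num

private theorem lin_fun (L : (Fin n → ℝ) →L[ℝ] ℝ) :
    (fun η : Fin (n + 1) → ℝ => L (zz η)) = fun η => ∑ i, zz η i * L (ev i) :=
  funext fun _ => lin_ev L _

private theorem bil_fun (T : (Fin n → ℝ) →L[ℝ] (Fin n → ℝ) →L[ℝ] ℝ) :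
    (fun η : Fin (n + 1) → ℝ => T (zz η) (zz η)) =
      fun η => ∑ i, ∑ j, (zz η i * zz η j) * T (ev i) (ev j) :=
  funext fun _ => bil_ev T _

private theorem lin_int (L : (Fin n → ℝ) →L[ℝ] ℝ) :
    Integrable (fun η : Fin (n + 1) → ℝ => L (zz η)) (gm n) := by
  rw [lin_fun]
  exact integrable_finsetSum _ fun i _ => (zz_int i).mul_const _

private theorem lin_zero (L : (Fin n → ℝ) →L[ℝ] ℝ) : ∫ η, L (zz η) ∂(gm n) = 0 := by
  rw [lin_fun, integral_finsetSum _ fun i _ => (zz_int i).mul_const _]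
  refine Finset.sum_eq_zero fun i _ => ?_
  rw [integral_mul_const, zz_mean, zero_mul]

private theorem bil_int (T : (Fin n → ℝ) →L[ℝ] (Fin n → ℝ) →L[ℝ] ℝ) :
    Integrable (fun η : Fin (n + 1) → ℝ => T (zz η) (zz η)) (gm n) := by
  rw [bil_fun]
  exact integrable_finsetSum _ fun i _ => integrable_finsetSum _ fun j _ =>
    (zz_int2 i j).mul_const _

private theorem bil_mean (T : (Fin n → ℝ) →L[ℝ] (Fin n → ℝ) →L[ℝ] ℝ)
    (hT : ∀ v w, T v w = T w v) :
    ∫ η, T (zz η) (zz η) ∂(gm n) = 2 * ∑ i, T (ev i) (dv i) := by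
  rw [bil_fun, integral_finsetSum _ fun i _ => integrable_finsetSum _ fun j _ =>
    (zz_int2 i j).mul_const _]
  have h1 : ∀ i : Fin n, ∫ η, ∑ j, (zz η i * zz η j) * T (ev i) (ev j) ∂(gm n) =
      ∑ j : Fin n, ((if (i : ℕ) = j then 2 else 0) - (if (i : ℕ) + 1 = j then 1 else 0) -
      (if (j : ℕ) + 1 = i then 1 else 0)) * T (ev i) (ev j) := by
    intro i
    rw [integral_finsetSum _ fun j _ => (zz_int2 i j).mul_const _]
    refine Finset.sum_congr rfl fun j _ => ?_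
    rw [integral_mul_const, zz_cov]
  rw [Finset.sum_congr rfl fun i _ => h1 i]
  have h2 : ∀ i : Fin n, T (ev i) (dv i) =
      ∑ j : Fin n, ((if (i : ℕ) = j then 1 else 0) - (if (i : ℕ) + 1 = j then 1 else 0)) *
        T (ev i) (ev j) := by
    intro i
    simp only [sub_mul, Finset.sum_sub_distrib, ite_mul, one_mul, zero_mul]
    have e1 : ∑ j : Fin n, (if (i : ℕ) = j then T (ev i) (ev j) else 0) = T (ev i) (ev i) := by
      rw [Finset.sum_eq_single i]
      · simp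
      · intro j _ hj
        rw [if_neg]
        intro h
        exact hj (Fin.ext h.symm)
      · intro h
        exact absurd (Finset.mem_univ i) h
    have e2 : ∑ j : Fin n, (if (i : ℕ) + 1 = j then T (ev i) (ev j) else 0) =
        T (ev i) (if h : (i : ℕ) + 1 < n then ev ⟨(i : ℕ) + 1, h⟩ else 0) := by
      by_cases h : (i : ℕ) + 1 < n
      · rw [dif_pos h, Finset.sum_eq_single ⟨(i : ℕ) + 1, h⟩]
        · simp
        · intro j _ hj
          rw [if_neg]
          intro h'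
          exact hj (Fin.ext h'.symm)
        · intro h'
          exact absurd (Finset.mem_univ _) h'
      · rw [dif_neg h, map_zero]
        refine Finset.sum_eq_zero fun j _ => ?_
        rw [if_neg]
        intro h'
        exact h (h' ▸ j.2)
    rw [e1, e2, dv, map_sub]
  simp only [h2]
  have h3 : ∑ i : Fin n, ∑ j : Fin n, (if (j : ℕ) + 1 = i then T (ev i) (ev j) else 0) =
      ∑ i : Fin n, ∑ j : Fin n, (if (i : ℕ) + 1 = j then T (ev i) (ev j) else 0) := by
    rw [Finset.sum_comm]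
    refine Finset.sum_congr rfl fun i _ => Finset.sum_congr rfl fun j _ => ?_
    rw [hT (ev j) (ev i)]
  have h4 : ∑ i : Fin n, ∑ j : Fin n, ((if (i : ℕ) = j then 2 else 0) -
      (if (i : ℕ) + 1 = j then 1 else 0) - (if (j : ℕ) + 1 = i then 1 else 0)) * T (ev i) (ev j) =
      (∑ i : Fin n, ∑ j : Fin n, ((if (i : ℕ) = j then 2 else 0) * T (ev i) (ev j))) -
      (∑ i : Fin n, ∑ j : Fin n, (if (i : ℕ) + 1 = j then T (ev i) (ev j) else 0)) -
      (∑ i : Fin n, ∑ j : Fin n, (if (j : ℕ) + 1 = i then T (ev i) (ev j) else 0)) := by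
    rw [← Finset.sum_sub_distrib, ← Finset.sum_sub_distrib]
    refine Finset.sum_congr rfl fun i _ => ?_
    rw [← Finset.sum_sub_distrib, ← Finset.sum_sub_distrib]
    refine Finset.sum_congr rfl fun j _ => ?_
    rw [sub_mul, sub_mul, ite_mul (P := (i : ℕ) + 1 = j), ite_mul (P := (j : ℕ) + 1 = i)]
    simp only [one_mul, zero_mul]
  rw [h4, h3, Finset.mul_sum]
  rw [← Finset.sum_sub_distrib, ← Finset.sum_sub_distrib]
  refine Finset.sum_congr rfl fun i _ => ?_
  rw [← Finset.sum_sub_distrib, ← Finset.sum_sub_distrib, Finset.mul_sum]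
  refine Finset.sum_congr rfl fun j _ => ?_
  split_ifs <;> ring

/-! ### Taylor expansion -/

private theorem c1 {φ : (Fin n → ℝ) → ℝ} (hφ : IsTest φ) :
    ContDiff ℝ ((⊤ : ℕ∞) : WithTop ℕ∞) (fderiv ℝ φ) := hφ.1.fderiv_right (by simp)

private theorem c2 {φ : (Fin n → ℝ) → ℝ} (hφ : IsTest φ) :
    ContDiff ℝ ((⊤ : ℕ∞) : WithTop ℕ∞) (fderiv ℝ (fderiv ℝ φ)) := (c1 hφ).fderiv_right (by simp)

private theorem hd {φ : (Fin n → ℝ) → ℝ} (hφ : IsTest φ) (v x : Fin n → ℝ) :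
    HasFDerivAt (fun y => fderiv ℝ φ y v) ((fderiv ℝ (fderiv ℝ φ) x).flip v) x := by
  have h1 : HasFDerivAt (fderiv ℝ φ) (fderiv ℝ (fderiv ℝ φ) x) x :=
    ((c1 hφ).differentiable (by simp) x).hasFDerivAt
  have h2 := h1.clm_apply (hasFDerivAt_const v x)
  simpa using h2

private theorem fd_fd {φ : (Fin n → ℝ) → ℝ} (hφ : IsTest φ) (v w x : Fin n → ℝ) :
    fderiv ℝ (fun y => fderiv ℝ φ y v) x w = fderiv ℝ (fderiv ℝ φ) x w v := by
  rw [(hd hφ v x).fderiv]
  rfl

private theorem sym2 {φ : (Fin n → ℝ) → ℝ} (hφ : IsTest φ) (v w x : Fin n → ℝ) :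
    fderiv ℝ (fderiv ℝ φ) x v w = fderiv ℝ (fderiv ℝ φ) x w v :=
  (hφ.1.contDiffAt.isSymmSndFDerivAt (by
    rw [minSmoothness_of_isRCLikeNormedField]
    exact WithTop.coe_le_coe.2 le_top)).eq v w

private theorem lipE {E F : Type*} [NormedAddCommGroup E] [NormedSpace ℝ E] [NormedAddCommGroup F]
    [NormedSpace ℝ F] {f : E → F} (hf : HasCompactSupport f)
    (h : ContDiff ℝ ((⊤ : ℕ∞) : WithTop ℕ∞) f) : ∃ K, LipschitzWith K f :=
  ContDiff.lipschitzWith_of_hasCompactSupport hf h (by simp)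

private theorem lip2 {φ : (Fin n → ℝ) → ℝ} (hφ : IsTest φ) :
    ∃ K, LipschitzWith K (fderiv ℝ (fderiv ℝ φ)) := by
  have h1 : HasCompactSupport (fderiv ℝ φ) := hφ.2.fderiv ℝ
  have h2 : HasCompactSupport (fderiv ℝ (fderiv ℝ φ)) := h1.fderiv ℝ
  exact lipE h2 (c2 hφ)

private theorem taylor3 {φ : (Fin n → ℝ) → ℝ} (hφ : IsTest φ) : ∃ C : ℝ, 0 ≤ C ∧ ∀ x δ : Fin n → ℝ,
    |φ (x + δ) - (φ x + fderiv ℝ φ x δ + (1 / 2) * fderiv ℝ (fderiv ℝ φ) x δ δ)| ≤ C * ‖δ‖ ^ 3 := by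
  obtain ⟨K, hK⟩ := lip2 hφ
  refine ⟨K, K.2, fun x δ => ?_⟩
  set T := fderiv ℝ (fderiv ℝ φ) with hT
  have hline : ∀ s : ℝ, HasDerivAt (fun s : ℝ => x + s • δ) δ s := by
    intro s
    have := ((hasDerivAt_id s).smul_const δ).const_add x
    simpa using this
  have hbd : ∀ s ∈ Icc (0 : ℝ) 1, |T (x + s • δ) δ δ - T x δ δ| ≤ K * ‖δ‖ ^ 3 := by
    intro s hs
    have h1 : T (x + s • δ) δ δ - T x δ δ = (T (x + s • δ) - T x) δ δ := by simp
    have h2 : ‖T (x + s • δ) - T x‖ ≤ K * (s * ‖δ‖) := by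
      have h3 := hK.dist_le_mul (x + s • δ) x
      rw [dist_eq_norm, dist_eq_norm] at h3
      have h4 : x + s • δ - x = s • δ := by abel
      rw [h4, norm_smul, Real.norm_eq_abs, abs_of_nonneg hs.1] at h3
      exact h3
    rw [h1, ← Real.norm_eq_abs]
    calc ‖(T (x + s • δ) - T x) δ δ‖ ≤ ‖T (x + s • δ) - T x‖ * ‖δ‖ * ‖δ‖ :=
          ContinuousLinearMap.le_opNorm₂ _ _ _
      _ ≤ (K * (s * ‖δ‖)) * ‖δ‖ * ‖δ‖ := by gcongr
      _ = s * (K * ‖δ‖ ^ 3) := by ring
      _ ≤ 1 * (K * ‖δ‖ ^ 3) := by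
          refine mul_le_mul_of_nonneg_right hs.2 ?_
          exact mul_nonneg K.2 (pow_nonneg (norm_nonneg _) _)
      _ = K * ‖δ‖ ^ 3 := one_mul _
  have hK3 : 0 ≤ (K : ℝ) * ‖δ‖ ^ 3 := mul_nonneg K.2 (pow_nonneg (norm_nonneg _) _)
  have hG1 : ∀ s : ℝ, HasDerivAt (fun s : ℝ => fderiv ℝ φ (x + s • δ) δ - fderiv ℝ φ x δ - s * T x δ δ)
      (T (x + s • δ) δ δ - T x δ δ) s := by
    intro s
    have h1 : HasDerivAt (fun s : ℝ => fderiv ℝ φ (x + s • δ) δ) (T (x + s • δ) δ δ) s := by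
      have h2 := (hd hφ δ (x + s • δ)).comp_hasDerivAt s (hline s)
      exact h2
    have h3 : HasDerivAt (fun s : ℝ => s * T x δ δ) (T x δ δ) s := by
      simpa using (hasDerivAt_id s).mul_const (T x δ δ)
    exact (h1.sub_const _).sub h3
  have hb1 : ∀ s ∈ Icc (0 : ℝ) 1, |fderiv ℝ φ (x + s • δ) δ - fderiv ℝ φ x δ - s * T x δ δ| ≤
      K * ‖δ‖ ^ 3 := by
    intro s hs
    have h1 := norm_image_sub_le_of_norm_deriv_le_segment' (f := fun s : ℝ =>
      fderiv ℝ φ (x + s • δ) δ - fderiv ℝ φ x δ - s * T x δ δ) (a := 0) (b := 1)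
      (f' := fun s => T (x + s • δ) δ δ - T x δ δ) (C := K * ‖δ‖ ^ 3)
      (fun s _ => (hG1 s).hasDerivWithinAt) (fun s hs => hbd s ⟨hs.1, hs.2.le⟩) s hs
    simp only [zero_smul, add_zero, sub_self, zero_mul, sub_zero] at h1
    calc |fderiv ℝ φ (x + s • δ) δ - fderiv ℝ φ x δ - s * T x δ δ| ≤ K * ‖δ‖ ^ 3 * s := h1
      _ ≤ K * ‖δ‖ ^ 3 * 1 := mul_le_mul_of_nonneg_left hs.2 hK3
      _ = K * ‖δ‖ ^ 3 := mul_one _
  have hG0 : ∀ s : ℝ, HasDerivAt (fun s : ℝ => φ (x + s • δ) - φ x - s * fderiv ℝ φ x δ -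
      s ^ 2 / 2 * T x δ δ) (fderiv ℝ φ (x + s • δ) δ - fderiv ℝ φ x δ - s * T x δ δ) s := by
    intro s
    have h1 : HasDerivAt (fun s : ℝ => φ (x + s • δ)) (fderiv ℝ φ (x + s • δ) δ) s := by
      have h2 := ((hφ.1.differentiable (by simp) (x + s • δ)).hasFDerivAt).comp_hasDerivAt s (hline s)
      exact h2
    have h3 : HasDerivAt (fun s : ℝ => s * fderiv ℝ φ x δ) (fderiv ℝ φ x δ) s := by
      simpa using (hasDerivAt_id s).mul_const (fderiv ℝ φ x δ)
    have h4 : HasDerivAt (fun s : ℝ => s ^ 2 / 2 * T x δ δ) (s * T x δ δ) s := by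
      have h5 := ((hasDerivAt_pow 2 s).div_const 2).mul_const (T x δ δ)
      refine h5.congr_deriv ?_
      simp
    exact ((h1.sub_const _).sub h3).sub h4
  have h1 := norm_image_sub_le_of_norm_deriv_le_segment' (f := fun s : ℝ =>
      φ (x + s • δ) - φ x - s * fderiv ℝ φ x δ - s ^ 2 / 2 * T x δ δ) (a := 0) (b := 1)
      (f' := fun s => fderiv ℝ φ (x + s • δ) δ - fderiv ℝ φ x δ - s * T x δ δ) (C := K * ‖δ‖ ^ 3)
      (fun s _ => (hG0 s).hasDerivWithinAt) (fun s hs => hb1 s ⟨hs.1, hs.2.le⟩) 1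
      (right_mem_Icc.2 zero_le_one)
  simp only [one_smul, zero_smul, add_zero, sub_self, zero_mul, sub_zero, one_mul, one_pow, mul_one,
    ne_eq, OfNat.ofNat_ne_zero, not_false_eq_true, zero_pow, zero_div] at h1
  rw [Real.norm_eq_abs] at h1
  refine le_trans (le_of_eq ?_) h1
  congr 1
  ring

private theorem bddE {E F : Type*} [NormedAddCommGroup E] [NormedAddCommGroup F] {f : E → F}
    (hf : HasCompactSupport f) (h : Continuous f) : ∃ M : ℝ, 0 ≤ M ∧ ∀ x, ‖f x‖ ≤ M := by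
  obtain ⟨M, hM⟩ := hf.exists_bound_of_continuous h
  exact ⟨M, le_trans (norm_nonneg _) (hM 0), hM⟩

private theorem bdd2 {φ : (Fin n → ℝ) → ℝ} (hφ : IsTest φ) :
    ∃ M : ℝ, 0 ≤ M ∧ ∀ x, ‖fderiv ℝ (fderiv ℝ φ) x‖ ≤ M := by
  have h1 : HasCompactSupport (fderiv ℝ φ) := hφ.2.fderiv ℝ
  have h2 : HasCompactSupport (fderiv ℝ (fderiv ℝ φ)) := h1.fderiv ℝ
  have h3 : Continuous (fderiv ℝ (fderiv ℝ φ)) := (c2 hφ).continuous
  exact bddE (E := Fin n → ℝ) (F := (Fin n → ℝ) →L[ℝ] (Fin n → ℝ) →L[ℝ] ℝ) h2 h3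

/-! ### Third moments -/

private noncomputable def ss (η : Fin (n + 1) → ℝ) : ℝ := 1 + 2 * ∑ k, |η k|

private theorem ss_one (η : Fin (n + 1) → ℝ) : 1 ≤ ss η := by
  have : 0 ≤ ∑ k, |η k| := Finset.sum_nonneg fun k _ => abs_nonneg _
  unfold ss
  linarith

private theorem zz_norm (η : Fin (n + 1) → ℝ) : 1 + ‖zz η‖ ≤ ss η := by
  have h0 : 0 ≤ ∑ k, |η k| := Finset.sum_nonneg fun k _ => abs_nonneg _
  have h1 : ‖zz η‖ ≤ 2 * ∑ k, |η k| := by
    rw [pi_norm_le_iff_of_nonneg (by linarith)]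
    intro i
    have h2 : ∀ k, |η k| ≤ ∑ k, |η k| := fun k =>
      Finset.single_le_sum (fun k _ => abs_nonneg (η k)) (Finset.mem_univ k)
    calc ‖zz η i‖ = |η i.succ - η i.castSucc| := rfl
      _ ≤ |η i.succ| + |η i.castSucc| := abs_sub _ _
      _ ≤ (∑ k, |η k|) + ∑ k, |η k| := add_le_add (h2 _) (h2 _)
      _ = 2 * ∑ k, |η k| := by ring
  unfold ss
  linarith

private theorem ss_int : Integrable (fun η : Fin (n + 1) → ℝ => ss η ^ 3) (gm n) := by
  have h1 : MemLp (fun η : Fin (n + 1) → ℝ => ss η) 3 (gm n) := by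
    refine (memLp_const (1 : ℝ)).add ?_
    have h2 : MemLp (fun η : Fin (n + 1) → ℝ => ∑ k, |η k|) 3 (gm n) :=
      memLp_finsetSum _ fun k _ => (gm_mem 3 k).norm
    exact h2.const_mul 2
  have h3 := h1.integrable_norm_pow (p := 3) (by norm_num)
  refine h3.congr (Eventually.of_forall fun η => ?_)
  show ‖ss η‖ ^ 3 = ss η ^ 3
  rw [Real.norm_eq_abs, abs_of_nonneg (le_trans zero_le_one (ss_one η))]

/-! ### Law of the end points -/

private theorem law_end {P : Measure Ω} [IsProbabilityMeasure P] (hB : IsBMd P n B) :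
    (P.map (blk B hB.cont 0)).map (fun (w : Blk n) (i : Fin (n + 1)) => w i 1) = gm n := by
  have hev : Measurable fun (w : Blk n) (i : Fin (n + 1)) => w i 1 :=
    measurable_pi_lambda _ fun i =>
      (continuous_eval_const (F := C(unitInterval, ℝ)) (1 : unitInterval)).measurable.comp
        (measurable_pi_apply i)
  rw [Measure.map_map hev (measurable_blk hB 0)]
  have h0 : (fun (w : Blk n) (i : Fin (n + 1)) => w i 1) ∘ (blk B hB.cont 0) =
      fun ω i => B i 1 ω := by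
    funext ω i
    have key : ∀ q : ℝ≥0, B i (((0 : ℕ) : ℝ≥0) + q) ω - B i ((0 : ℕ) : ℝ≥0) ω =
        B i q ω := fun q => by rw [Nat.cast_zero, zero_add, hB.zero, sub_zero]
    exact key 1
  rw [h0]
  have h1 : iIndepFun (fun (j : Fin (n + 1)) ω => B j 1 ω) P :=
    hB.indep.comp (fun _ (f : ℝ≥0 → ℝ) => f 1) (fun _ => measurable_pi_apply 1)
  have h3 := (iIndepFun_iff_map_fun_eq_pi_map (fun j : Fin (n + 1) =>
    (hB.meas j 1).aemeasurable)).mp h1
  rw [h3]
  congr 1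
  funext j
  exact ((hB.brownian j).toIsPreBrownianReal.hasLaw_eval 1).map_eq

private theorem transfer {P : Measure Ω} [IsProbabilityMeasure P] (hB : IsBMd P n B)
    {F : (Fin n → ℝ) → ℝ} (hF : Continuous F) :
    ∫ w, F (nz w 1) ∂(P.map (blk B hB.cont 0)) = ∫ η, F (zz η) ∂(gm n) := by
  have hev : Measurable fun (w : Blk n) (i : Fin (n + 1)) => w i 1 :=
    measurable_pi_lambda _ fun i =>
      (continuous_eval_const (F := C(unitInterval, ℝ)) (1 : unitInterval)).measurable.comp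
        (measurable_pi_apply i)
  have hzz : Continuous fun η : Fin (n + 1) → ℝ => zz η :=
    continuous_pi fun i => (continuous_apply _).sub (continuous_apply _)
  have h0 : ∫ η, F (zz η) ∂(Measure.map (fun (w : Blk n) (i : Fin (n + 1)) => w i 1)
      (P.map (blk B hB.cont 0))) = ∫ w : Blk n, F (zz fun i => w i 1) ∂(P.map (blk B hB.cont 0)) :=
    integral_map hev.aemeasurable (hF.comp hzz).measurable.aestronglyMeasurable
  rw [← law_end hB, h0]
  refine integral_congr_ae (Eventually.of_forall fun w => ?_)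
  have h1 : nz w 1 = zz fun i => w i 1 := by
    funext i
    simp only [nz, zz]
    have h2 : projIcc (0 : ℝ) 1 zero_le_one 1 = (1 : unitInterval) := projIcc_right zero_le_one
    rw [h2]
  show F (nz w 1) = F (zz fun i => w i 1)
  rw [h1]

theorem gauss_taylor [IsProbabilityMeasure P] (hB : IsBMd P n B) (φ : (Fin n → ℝ) → ℝ) (hφ : IsTest φ) :
    ∃ C : ℝ, 0 ≤ C ∧ ∀ (x b : Fin n → ℝ) (h : ℝ), 0 < h → h ≤ 1 →
      |(∫ w, φ (x + h • b + √h • nz w 1) ∂(P.map (blk B hB.cont 0))) - φ x -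
        h * ((∑ i, fderiv ℝ (fun y => fderiv ℝ φ y (dv i)) x (ev i)) + fderiv ℝ φ x b)| ≤
      C * (h * √h) * (1 + ‖b‖) ^ 3 := by
  obtain ⟨C3, hC3, hT3⟩ := taylor3 hφ
  obtain ⟨M, hM0, hM⟩ := bdd2 hφ
  have hφc : Continuous φ := hφ.1.continuous
  set m3 : ℝ := ∫ η, ss η ^ 3 ∂(gm n) with hm3
  have hm30 : 0 ≤ m3 := integral_nonneg fun η => by
    have := ss_one η
    positivity
  refine ⟨C3 * m3 + M, by positivity, fun x b h hh hh1 => ?_⟩
  set T := fderiv ℝ (fderiv ℝ φ) x with hT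
  set L := fderiv ℝ φ x with hL
  have hsq : √h * √h = h := Real.mul_self_sqrt hh.le
  have hs0 : 0 ≤ √h := Real.sqrt_nonneg h
  have hsh : h ≤ √h := by
    have h1 : √h ≤ 1 := Real.sqrt_le_one.2 hh1
    calc h = √h * √h := hsq.symm
      _ ≤ √h * 1 := mul_le_mul_of_nonneg_left h1 hs0
      _ = √h := mul_one _
  have hb0 : 0 ≤ ‖b‖ := norm_nonneg b
  -- the integral over the Gaussian vector
  have e1 : ∫ w, φ (x + h • b + √h • nz w 1) ∂(P.map (blk B hB.cont 0)) =
      ∫ η, φ (x + (h • b + √h • zz η)) ∂(gm n) := by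
    have h1 := transfer hB (F := fun z => φ (x + (h • b + √h • z))) (by fun_prop)
    rw [← h1]
    simp only [add_assoc]
  -- the Taylor polynomial
  set Q : (Fin (n + 1) → ℝ) → ℝ := fun η => φ x + L (h • b + √h • zz η) +
    (1 / 2) * T (h • b + √h • zz η) (h • b + √h • zz η) with hQ
  have hQe : Q = fun η => (φ x + h * L b + (1 / 2) * (h ^ 2 * T b b)) + (√h * L (zz η) +
      ((1 / 2) * (h * √h) * (T b) (zz η) + ((1 / 2) * (h * √h) * (T.flip b) (zz η) +
        (1 / 2) * h * T (zz η) (zz η)))) := by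
    funext η
    have h1 : h * √h * √h = h * h := by rw [mul_assoc, hsq]
    simp only [hQ, map_add, map_smul, add_apply, smul_apply,
      smul_eq_mul, ContinuousLinearMap.flip_apply]
    linear_combination (1 / 2) * T (zz η) (zz η) * hsq
  have i1 : Integrable (fun η : Fin (n + 1) → ℝ => √h * L (zz η)) (gm n) := (lin_int L).const_mul _
  have i2 : Integrable (fun η : Fin (n + 1) → ℝ => (1 / 2) * (h * √h) * (T b) (zz η)) (gm n) :=
    (lin_int (T b)).const_mul _
  have i3 : Integrable (fun η : Fin (n + 1) → ℝ => (1 / 2) * (h * √h) * (T.flip b) (zz η)) (gm n) :=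
    (lin_int (T.flip b)).const_mul _
  have i4 : Integrable (fun η : Fin (n + 1) → ℝ => (1 / 2) * h * T (zz η) (zz η)) (gm n) :=
    (bil_int T).const_mul _
  have hQi : Integrable Q (gm n) := by
    rw [hQe]
    exact (integrable_const _).add (i1.add (i2.add (i3.add i4)))
  have hQint : ∫ η, Q η ∂(gm n) = φ x + h * L b + (1 / 2) * (h ^ 2 * T b b) +
      h * ∑ i, T (ev i) (dv i) := by
    rw [hQe, int5 _ i1 i2 i3 i4, integral_const_mul, integral_const_mul, integral_const_mul,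
      integral_const_mul, lin_zero, lin_zero, lin_zero, bil_mean T (fun v w => sym2 hφ v w x)]
    ring
  have hzz : Continuous fun η : Fin (n + 1) → ℝ => zz η :=
    continuous_pi fun i => (continuous_apply _).sub (continuous_apply _)
  obtain ⟨Cφ, hCφ⟩ := hφ.2.exists_bound_of_continuous hφc
  have hφi : Integrable (fun η : Fin (n + 1) → ℝ => φ (x + (h • b + √h • zz η))) (gm n) := by
    refine Integrable.of_bound (C := Cφ) ?_ (Eventually.of_forall fun η => hCφ _)
    have h1 : Continuous fun η : Fin (n + 1) → ℝ => √h • zz η := (continuous_const_smul (√h)).comp hzz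
    have h2 : Continuous fun η : Fin (n + 1) → ℝ => φ (x + (h • b + √h • zz η)) :=
      hφc.comp (continuous_const.add (continuous_const.add h1))
    exact h2.aestronglyMeasurable
  have hrem : |∫ η, (φ (x + (h • b + √h • zz η)) - Q η) ∂(gm n)| ≤
      C3 * (h * √h) * (1 + ‖b‖) ^ 3 * m3 := by
    rw [← Real.norm_eq_abs]
    calc ‖∫ η, (φ (x + (h • b + √h • zz η)) - Q η) ∂(gm n)‖ ≤
        ∫ η, C3 * (h * √h) * (1 + ‖b‖) ^ 3 * ss η ^ 3 ∂(gm n) := by
          refine norm_integral_le_of_norm_le (ss_int.const_mul _) (Eventually.of_forall fun η => ?_)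
          rw [Real.norm_eq_abs]
          have h1 : ‖h • b + √h • zz η‖ ≤ √h * ((1 + ‖b‖) * ss η) := by
            calc ‖h • b + √h • zz η‖ ≤ ‖h • b‖ + ‖√h • zz η‖ := norm_add_le _ _
              _ = h * ‖b‖ + √h * ‖zz η‖ := by
                  rw [norm_smul, norm_smul, Real.norm_eq_abs, Real.norm_eq_abs, abs_of_pos hh,
                    abs_of_nonneg hs0]
              _ ≤ √h * ‖b‖ + √h * ‖zz η‖ := by
                  have := mul_le_mul_of_nonneg_right hsh hb0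
                  linarith
              _ = √h * (‖b‖ + ‖zz η‖) := by ring
              _ ≤ √h * ((1 + ‖b‖) * ss η) := by
                  refine mul_le_mul_of_nonneg_left ?_ hs0
                  have h2 := zz_norm η
                  have h3 : 0 ≤ ‖zz η‖ := norm_nonneg _
                  have h4 := ss_one η
                  nlinarith
          calc |φ (x + (h • b + √h • zz η)) - Q η| ≤ C3 * ‖h • b + √h • zz η‖ ^ 3 := hT3 x _
            _ ≤ C3 * (√h * ((1 + ‖b‖) * ss η)) ^ 3 :=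
                mul_le_mul_of_nonneg_left (pow_le_pow_left₀ (norm_nonneg _) h1 3) hC3
            _ = C3 * ((√h * √h) * √h) * (1 + ‖b‖) ^ 3 * ss η ^ 3 := by ring
            _ = C3 * (h * √h) * (1 + ‖b‖) ^ 3 * ss η ^ 3 := by rw [hsq]
      _ = C3 * (h * √h) * (1 + ‖b‖) ^ 3 * m3 := integral_const_mul _ _
  have hsplit : ∫ η, φ (x + (h • b + √h • zz η)) ∂(gm n) =
      (∫ η, (φ (x + (h • b + √h • zz η)) - Q η) ∂(gm n)) + ∫ η, Q η ∂(gm n) := by
    rw [integral_sub hφi hQi]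
    ring
  have hfd : (∑ i, fderiv ℝ (fun y => fderiv ℝ φ y (dv i)) x (ev i)) = ∑ i, T (ev i) (dv i) :=
    Finset.sum_congr rfl fun i _ => fd_fd hφ (dv i) (ev i) x
  rw [e1, hsplit, hQint, hfd]
  have hTb : |T b b| ≤ M * (1 + ‖b‖) ^ 3 := by
    rw [← Real.norm_eq_abs]
    calc ‖T b b‖ ≤ ‖T‖ * ‖b‖ * ‖b‖ := ContinuousLinearMap.le_opNorm₂ _ _ _
      _ ≤ M * ‖b‖ * ‖b‖ := by
          have := hM x
          gcongr
      _ = M * (‖b‖ * ‖b‖) := by ring
      _ ≤ M * (1 + ‖b‖) ^ 3 := by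
          refine mul_le_mul_of_nonneg_left ?_ hM0
          nlinarith [mul_nonneg hb0 hb0, mul_nonneg (mul_nonneg hb0 hb0) hb0]
  have hhh : h ^ 2 ≤ h * √h := by
    rw [pow_two]
    exact mul_le_mul_of_nonneg_left hsh hh.le
  have h2 : |(1 / 2) * (h ^ 2 * T b b)| ≤ M * (h * √h) * (1 + ‖b‖) ^ 3 := by
    rw [abs_mul, abs_mul, abs_of_nonneg (by norm_num : (0 : ℝ) ≤ 1 / 2),
      abs_of_nonneg (by positivity : (0 : ℝ) ≤ h ^ 2)]
    have h3 : 0 ≤ M * (1 + ‖b‖) ^ 3 := by positivity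
    calc 1 / 2 * (h ^ 2 * |T b b|) ≤ 1 * (h ^ 2 * |T b b|) := by
          refine mul_le_mul_of_nonneg_right (by norm_num) (by positivity)
      _ ≤ 1 * ((h * √h) * (M * (1 + ‖b‖) ^ 3)) := by
          refine mul_le_mul_of_nonneg_left ?_ zero_le_one
          exact mul_le_mul hhh hTb (abs_nonneg _) (by positivity)
      _ = M * (h * √h) * (1 + ‖b‖) ^ 3 := by ring
  have h4 : (∫ η, (φ (x + (h • b + √h • zz η)) - Q η) ∂(gm n)) + (φ x + h * L b +
      (1 / 2) * (h ^ 2 * T b b) + h * ∑ i, T (ev i) (dv i)) - φ x -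
      h * (∑ i, T (ev i) (dv i) + L b) =
      (∫ η, (φ (x + (h • b + √h • zz η)) - Q η) ∂(gm n)) + (1 / 2) * (h ^ 2 * T b b) := by ring
  rw [h4]
  calc |(∫ η, (φ (x + (h • b + √h • zz η)) - Q η) ∂(gm n)) + (1 / 2) * (h ^ 2 * T b b)| ≤
      |∫ η, (φ (x + (h • b + √h • zz η)) - Q η) ∂(gm n)| + |(1 / 2) * (h ^ 2 * T b b)| :=
        abs_add_le _ _
    _ ≤ C3 * (h * √h) * (1 + ‖b‖) ^ 3 * m3 + M * (h * √h) * (1 + ‖b‖) ^ 3 := add_le_add hrem h2
    _ = (C3 * m3 + M) * (h * √h) * (1 + ‖b‖) ^ 3 := by ring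

end Pool.Agent.SGP
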