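import Mathlib

/-!
# HL1: a weighted Hardy inequality on a half-line

Proof of `half_right`. `F = c ψ² ρ` has derivative `F' = c' ψ² ρ + 2 c ψ ψ' ρ - c ψ² w ρ`, and
`(ψ'² - κ ψ²) ρ - F' = ((ψ' - c ψ)² + (c w - c' - c² - κ) ψ²) ρ ≥ 0` on the half-line. Integrate over `[a, b]`,
`F a = 0`, and let `b → ∞`: `F b → 0`. `half_left`: the same on `[b, a]`.
-/

open MeasureTheory Set Filter Topology

namespace Pool.Agent.SGP

theorem half_deriv {ρ w c c' : ℝ → ℝ} (hρ : ∀ g, HasDerivAt ρ (-(w g) * ρ g) g)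
    (hc : ∀ g, HasDerivAt c (c' g) g) {ψ : ℝ → ℝ} (hψ : ContDiff ℝ 1 ψ) (g : ℝ) :
    HasDerivAt (fun g => c g * ψ g ^ 2 * ρ g)
      ((c' g * ψ g ^ 2 + c g * (2 * ψ g * deriv ψ g)) * ρ g + c g * ψ g ^ 2 * (-(w g) * ρ g)) g := by
  have h1 : HasDerivAt ψ (deriv ψ g) g := (hψ.differentiable one_ne_zero g).hasDerivAt
  have h2 : HasDerivAt (fun g => ψ g ^ 2) (2 * ψ g * deriv ψ g) g := by
    have h3 := h1.fun_pow 2
    have e : ((2 : ℕ) : ℝ) * ψ g ^ (2 - 1) * deriv ψ g = 2 * ψ g * deriv ψ g := by norm_num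
    rw [e] at h3
    exact h3
  exact ((hc g).mul h2).mul (hρ g)

theorem half_cont {ρ w c c' : ℝ → ℝ} (hρ : ∀ g, HasDerivAt ρ (-(w g) * ρ g) g)
    (hw : Continuous w) (hc : ∀ g, HasDerivAt c (c' g) g) (hc' : Continuous c') {ψ : ℝ → ℝ} (hψ : ContDiff ℝ 1 ψ) :
    Continuous fun g => (c' g * ψ g ^ 2 + c g * (2 * ψ g * deriv ψ g)) * ρ g + c g * ψ g ^ 2 * (-(w g) * ρ g) := by
  have h1 : Continuous ρ := continuous_iff_continuousAt.mpr fun g => (hρ g).continuousAt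
  have h2 : Continuous c := continuous_iff_continuousAt.mpr fun g => (hc g).continuousAt
  have h3 : Continuous (deriv ψ) := hψ.continuous_deriv le_rfl
  have h4 : Continuous ψ := hψ.continuous
  fun_prop

theorem half_pt {r w c c' κ p q : ℝ} (hr : 0 < r) (hκ : κ ≤ c * w - c' - c ^ 2) :
    (c' * p ^ 2 + c * (2 * p * q)) * r + c * p ^ 2 * (-w * r) ≤ (q ^ 2 - κ * p ^ 2) * r := by
  have h : 0 ≤ ((q - c * p) ^ 2 + (c * w - c' - c ^ 2 - κ) * p ^ 2) * r := by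
    have h1 : 0 ≤ (c * w - c' - c ^ 2 - κ) * p ^ 2 := mul_nonneg (by linarith) (sq_nonneg p)
    have h2 := sq_nonneg (q - c * p)
    positivity
  nlinarith [h]

theorem half_int {ρ : ℝ → ℝ} {s : Set ℝ} {κ : ℝ} (hint : IntegrableOn ρ s) {ψ : ℝ → ℝ}
    (hψ : ContDiff ℝ 1 ψ) (hb : ∃ K, ∀ g, |ψ g| ≤ K) (hb' : ∃ K, ∀ g, |deriv ψ g| ≤ K) :
    IntegrableOn (fun g => ψ g ^ 2 * ρ g) s ∧ IntegrableOn (fun g => deriv ψ g ^ 2 * ρ g) s ∧
      IntegrableOn (fun g => (deriv ψ g ^ 2 - κ * ψ g ^ 2) * ρ g) s := by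
  obtain ⟨K, hK⟩ := hb
  obtain ⟨K', hK'⟩ := hb'
  have h3 : Continuous (deriv ψ) := hψ.continuous_deriv le_rfl
  have h4 : Continuous ψ := hψ.continuous
  have key : ∀ (f : ℝ → ℝ) (M : ℝ), Continuous f → (∀ g, |f g| ≤ M) → IntegrableOn (fun g => f g ^ 2 * ρ g) s := by
    intro f M hf hM
    have hM0 : 0 ≤ M := (abs_nonneg _).trans (hM 0)
    refine Integrable.bdd_mul (c := M ^ 2) hint (hf.pow 2).aestronglyMeasurable ?_
    refine Eventually.of_forall fun g => ?_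
    rw [Real.norm_eq_abs, abs_pow]
    exact pow_le_pow_left₀ (abs_nonneg _) (hM g) 2
  have i1 := key ψ K h4 hK
  have i2 := key (deriv ψ) K' h3 hK'
  refine ⟨i1, i2, ?_⟩
  have i3 : IntegrableOn (fun g => deriv ψ g ^ 2 * ρ g - κ * (ψ g ^ 2 * ρ g)) s := i2.sub (i1.const_mul κ)
  refine i3.congr_fun_ae (Eventually.of_forall fun g => ?_)
  show _ = _
  ring

theorem half_lim {ρ c : ℝ → ℝ} {l : Filter ℝ} {K : ℝ} (hpos : ∀ g, 0 < ρ g) (hcb : ∀ᶠ g in l, |c g| ≤ K)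
    (hlim : Tendsto ρ l (𝓝 0)) {ψ : ℝ → ℝ} (hb : ∃ K, ∀ g, |ψ g| ≤ K) :
    Tendsto (fun g => c g * ψ g ^ 2 * ρ g) l (𝓝 0) := by
  obtain ⟨M, hM⟩ := hb
  have h1 : Tendsto (fun g => |K| * M ^ 2 * ρ g) l (𝓝 0) := by
    simpa using hlim.const_mul (|K| * M ^ 2)
  refine squeeze_zero_norm' ?_ h1
  filter_upwards [hcb] with g hg
  rw [Real.norm_eq_abs, abs_mul, abs_mul, abs_pow, abs_of_pos (hpos g)]
  refine mul_le_mul_of_nonneg_right ?_ (hpos g).le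
  exact mul_le_mul (hg.trans (le_abs_self K)) (pow_le_pow_left₀ (abs_nonneg _) (hM g) 2) (by positivity)
    (abs_nonneg K)

theorem half_right {ρ w c c' : ℝ → ℝ} {a κ : ℝ} (hρ : ∀ g, HasDerivAt ρ (-(w g) * ρ g) g) (hpos : ∀ g, 0 < ρ g)
    (hw : Continuous w) (hc : ∀ g, HasDerivAt c (c' g) g) (hc' : Continuous c')
    (hcb : ∃ K, ∀ g, a ≤ g → |c g| ≤ K) (hκ : ∀ g, a ≤ g → κ ≤ c g * w g - c' g - c g ^ 2)
    (hint : IntegrableOn ρ (Ioi a)) (hlim : Tendsto ρ atTop (𝓝 0)) {ψ : ℝ → ℝ} (hψ : ContDiff ℝ 1 ψ)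
    (hb : ∃ K, ∀ g, |ψ g| ≤ K) (hb' : ∃ K, ∀ g, |deriv ψ g| ≤ K) (h0 : ψ a = 0) :
    κ * ∫ g in Ioi a, ψ g ^ 2 * ρ g ≤ ∫ g in Ioi a, deriv ψ g ^ 2 * ρ g := by
  have hρc : Continuous ρ := continuous_iff_continuousAt.mpr fun g => (hρ g).continuousAt
  obtain ⟨K, hK⟩ := hcb
  obtain ⟨i1, i2, i3⟩ := half_int (κ := κ) hint hψ hb hb'
  have hF := half_cont hρ hw hc hc' hψ
  have hDc : Continuous fun g => (deriv ψ g ^ 2 - κ * ψ g ^ 2) * ρ g := by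
    have h3 : Continuous (deriv ψ) := hψ.continuous_deriv le_rfl
    have h4 : Continuous ψ := hψ.continuous
    fun_prop
  have hL := half_lim hpos (l := atTop) (K := K) (eventually_atTop.mpr ⟨a, hK⟩) hlim hb
  have hT := intervalIntegral_tendsto_integral_Ioi a i3 tendsto_id
  have hle : ∀ b, a ≤ b → c b * ψ b ^ 2 * ρ b ≤ ∫ g in a..b, (deriv ψ g ^ 2 - κ * ψ g ^ 2) * ρ g := by
    intro b hab
    have h1 := intervalIntegral.integral_eq_sub_of_hasDerivAt (a := a) (b := b)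
      (fun x _ => half_deriv hρ hc hψ x) (hF.intervalIntegrable a b)
    have h2 : c b * ψ b ^ 2 * ρ b - c a * ψ a ^ 2 * ρ a = c b * ψ b ^ 2 * ρ b := by
      rw [h0]
      ring
    rw [h2] at h1
    rw [← h1]
    exact intervalIntegral.integral_mono_on hab (hF.intervalIntegrable a b) (hDc.intervalIntegrable a b)
      fun x hx => half_pt (hpos x) (hκ x hx.1)
  have h := le_of_tendsto_of_tendsto hL hT (eventually_atTop.mpr ⟨a, fun b hb => hle b hb⟩)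
  have e : ∫ g in Ioi a, (deriv ψ g ^ 2 - κ * ψ g ^ 2) * ρ g =
      (∫ g in Ioi a, deriv ψ g ^ 2 * ρ g) - κ * ∫ g in Ioi a, ψ g ^ 2 * ρ g := by
    rw [← integral_const_mul, ← integral_sub i2 (i1.const_mul κ)]
    refine integral_congr_ae (Eventually.of_forall fun g => ?_)
    show _ = _
    ring
  rw [e] at h
  linarith

theorem half_left {ρ w c c' : ℝ → ℝ} {a κ : ℝ} (hρ : ∀ g, HasDerivAt ρ (-(w g) * ρ g) g) (hpos : ∀ g, 0 < ρ g)
    (hw : Continuous w) (hc : ∀ g, HasDerivAt c (c' g) g) (hc' : Continuous c')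
    (hcb : ∃ K, ∀ g, g ≤ a → |c g| ≤ K) (hκ : ∀ g, g ≤ a → κ ≤ c g * w g - c' g - c g ^ 2)
    (hint : IntegrableOn ρ (Iic a)) (hlim : Tendsto ρ atBot (𝓝 0)) {ψ : ℝ → ℝ} (hψ : ContDiff ℝ 1 ψ)
    (hb : ∃ K, ∀ g, |ψ g| ≤ K) (hb' : ∃ K, ∀ g, |deriv ψ g| ≤ K) (h0 : ψ a = 0) :
    κ * ∫ g in Iic a, ψ g ^ 2 * ρ g ≤ ∫ g in Iic a, deriv ψ g ^ 2 * ρ g := by
  have hρc : Continuous ρ := continuous_iff_continuousAt.mpr fun g => (hρ g).continuousAt
  obtain ⟨K, hK⟩ := hcb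
  obtain ⟨i1, i2, i3⟩ := half_int (κ := κ) hint hψ hb hb'
  have hF := half_cont hρ hw hc hc' hψ
  have hDc : Continuous fun g => (deriv ψ g ^ 2 - κ * ψ g ^ 2) * ρ g := by
    have h3 : Continuous (deriv ψ) := hψ.continuous_deriv le_rfl
    have h4 : Continuous ψ := hψ.continuous
    fun_prop
  have hL := (half_lim hpos (l := atBot) (K := K) (eventually_atBot.mpr ⟨a, hK⟩) hlim hb).neg
  rw [neg_zero] at hL
  have hT := intervalIntegral_tendsto_integral_Iic a i3 tendsto_id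
  have hle : ∀ b, b ≤ a → -(c b * ψ b ^ 2 * ρ b) ≤ ∫ g in b..a, (deriv ψ g ^ 2 - κ * ψ g ^ 2) * ρ g := by
    intro b hab
    have h1 := intervalIntegral.integral_eq_sub_of_hasDerivAt (a := b) (b := a)
      (fun x _ => half_deriv hρ hc hψ x) (hF.intervalIntegrable b a)
    have h2 : c a * ψ a ^ 2 * ρ a - c b * ψ b ^ 2 * ρ b = -(c b * ψ b ^ 2 * ρ b) := by
      rw [h0]
      ring
    rw [h2] at h1
    rw [← h1]
    exact intervalIntegral.integral_mono_on hab (hF.intervalIntegrable b a) (hDc.intervalIntegrable b a)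
      fun x hx => half_pt (hpos x) (hκ x hx.2)
  have h := le_of_tendsto_of_tendsto hL hT (eventually_atBot.mpr ⟨a, fun b hb => hle b hb⟩)
  have e : ∫ g in Iic a, (deriv ψ g ^ 2 - κ * ψ g ^ 2) * ρ g =
      (∫ g in Iic a, deriv ψ g ^ 2 * ρ g) - κ * ∫ g in Iic a, ψ g ^ 2 * ρ g := by
    rw [← integral_const_mul, ← integral_sub i2 (i1.const_mul κ)]
    refine integral_congr_ae (Eventually.of_forall fun g => ?_)
    show _ = _
    ring
  rw [e] at h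
  linarith

end Pool.Agent.SGP
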