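import Pool.Agent.SGP.DN2

/-!
# IBP: integration by parts for the generator

Proof. By `integral_PI` the left side is `∑_i ∫ [∂_i F_i - w_i F_i] h RH dx` with `F_i = Dφ(dv i)` (smooth, compact
support), `w_i = rel μ i - u (x_i)`. Integrate by parts in direction `ev i` with respect to Lebesgue measure
(`integral_mul_fderiv_eq_neg_fderiv_mul_of_integrable` or `integral_bilinear_hasLineDerivAt_right_eq_neg_left_of_integrable`;
all functions are `C^1` and one factor has compact support):
`∫ ∂_i F_i (h RH) = -∫ F_i ∂_i (h RH) = -∫ F_i (∂_i h) RH + ∫ F_i h w_i RH` by `RH_fderiv`. The `w_i` terms cancel.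
(`int_LL`) is the case `h = 1`.
-/

open MeasureTheory ProbabilityTheory Set Filter Topology
open scoped ENNReal NNReal BoundedContinuousFunction

namespace Pool.Agent.SGP

variable {n : ℕ} {μ : Fin (n + 1) → ℝ} {u : ℝ → ℝ}

theorem ibp_aux (hu : Pot u) {F : (Fin n → ℝ) → ℝ} (hF : IsTest F)
    {h : (Fin n → ℝ) → ℝ} (hh : ContDiff ℝ 1 h) (i : Fin n) :
    ∫ x, (fderiv ℝ F x (ev i) - (rel μ i - u (x i)) * F x) * h x * RH u μ x =
      -∫ x, F x * fderiv ℝ h x (ev i) * RH u μ x := by
  have hR : ContDiff ℝ 1 (RH u μ) := RH_contDiff hu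
  have hRc : Continuous (RH u μ) := RH_cont hu
  have hhc : Continuous h := hh.continuous
  have hRd : Differentiable ℝ (RH u μ) := hR.differentiable (by simp)
  have hhd : Differentiable ℝ h := hh.differentiable (by simp)
  have hhd' : Continuous fun x => fderiv ℝ h x (ev i) :=
    (hh.continuous_fderiv (by simp)).clm_apply continuous_const
  have huc : Continuous fun x : Fin n → ℝ => rel μ i - u (x i) :=
    continuous_const.sub (hu.lip.continuous.comp (continuous_apply i))
  -- derivative of the product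
  have hprod : ∀ x, fderiv ℝ (fun y => h y * RH u μ y) x (ev i) =
      fderiv ℝ h x (ev i) * RH u μ x - h x * (rel μ i - u (x i)) * RH u μ x := by
    intro x
    have h1 : HasFDerivAt (fun y => h y * RH u μ y)
        (h x • fderiv ℝ (RH u μ) x + RH u μ x • fderiv ℝ h x) x :=
      (hhd x).hasFDerivAt.mul (hRd x).hasFDerivAt
    rw [h1.fderiv]
    simp only [add_apply, smul_apply, smul_eq_mul, RH_fderiv hu]
    ring
  have hpc : Continuous fun x => fderiv ℝ (fun y => h y * RH u μ y) x (ev i) := by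
    have : (fun x => fderiv ℝ (fun y => h y * RH u μ y) x (ev i)) = fun x =>
        fderiv ℝ h x (ev i) * RH u μ x - h x * (rel μ i - u (x i)) * RH u μ x := funext hprod
    rw [this]
    exact (hhd'.mul hRc).sub ((hhc.mul huc).mul hRc)
  have hparts := integral_mul_fderiv_eq_neg_fderiv_mul_of_integrable (μ := (volume : Measure (Fin n → ℝ)))
    (f := fun y => h y * RH u μ y) (g := F) (v := ev i)
    ((hpc.mul hF.cont).integrable_of_hasCompactSupport (hF.2.mul_left))
    (((hhc.mul hRc).mul (hF.dcont (ev i))).integrable_of_hasCompactSupport ((hF.dsupp (ev i)).mul_left))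
    (((hhc.mul hRc).mul hF.cont).integrable_of_hasCompactSupport (hF.2.mul_left))
    (fun x _ => ((hhd x).mul (hRd x))) (fun x _ => hF.diff x)
  have i1 : Integrable (fun x => h x * RH u μ x * fderiv ℝ F x (ev i)) :=
    ((hhc.mul hRc).mul (hF.dcont (ev i))).integrable_of_hasCompactSupport ((hF.dsupp (ev i)).mul_left)
  have i2 : Integrable (fun x => (h x * (rel μ i - u (x i)) * RH u μ x) * F x) :=
    ((((hhc.mul huc).mul hRc).mul hF.cont).integrable_of_hasCompactSupport (hF.2.mul_left))
  have i3 : Integrable (fun x => (fderiv ℝ h x (ev i) * RH u μ x) * F x) :=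
    (((hhd'.mul hRc).mul hF.cont).integrable_of_hasCompactSupport (hF.2.mul_left))
  calc ∫ x, (fderiv ℝ F x (ev i) - (rel μ i - u (x i)) * F x) * h x * RH u μ x
      = ∫ x, (h x * RH u μ x * fderiv ℝ F x (ev i) - (h x * (rel μ i - u (x i)) * RH u μ x) * F x) := by
        refine integral_congr_ae (Eventually.of_forall fun x => ?_)
        show _ = _
        ring
    _ = (∫ x, h x * RH u μ x * fderiv ℝ F x (ev i)) -
          ∫ x, (h x * (rel μ i - u (x i)) * RH u μ x) * F x := integral_sub i1 i2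
    _ = (-∫ x, fderiv ℝ (fun y => h y * RH u μ y) x (ev i) * F x) -
          ∫ x, (h x * (rel μ i - u (x i)) * RH u μ x) * F x := by rw [hparts]
    _ = (-((∫ x, (fderiv ℝ h x (ev i) * RH u μ x) * F x) -
          ∫ x, (h x * (rel μ i - u (x i)) * RH u μ x) * F x)) -
          ∫ x, (h x * (rel μ i - u (x i)) * RH u μ x) * F x := by
        rw [← integral_sub i3 i2]
        congr 2
        refine integral_congr_ae (Eventually.of_forall fun x => ?_)
        show fderiv ℝ (fun y => h y * RH u μ y) x (ev i) * F x = _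
        rw [hprod]
        ring
    _ = -∫ x, (fderiv ℝ h x (ev i) * RH u μ x) * F x := by ring
    _ = -∫ x, F x * fderiv ℝ h x (ev i) * RH u μ x := by
        congr 1
        refine integral_congr_ae (Eventually.of_forall fun x => ?_)
        show _ = _
        ring

theorem ibp (hu : Pot u) (hμ : ∀ i : Fin n, μ i.succ < μ i.castSucc) {φ : (Fin n → ℝ) → ℝ} (hφ : IsTest φ)
    {h : (Fin n → ℝ) → ℝ} (hh : ContDiff ℝ 1 h) :
    ∫ x, LL u μ φ x * h x ∂(PI u μ) =
      -∑ i, ∫ x, fderiv ℝ φ x (dv i) * fderiv ℝ h x (ev i) ∂(PI u μ) := by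
  have hRc : Continuous (RH u μ) := RH_cont hu
  have hhc : Continuous h := hh.continuous
  rw [integral_PI hu hμ]
  have e1 : ∀ i : Fin n, ∫ x, fderiv ℝ φ x (dv i) * fderiv ℝ h x (ev i) ∂(PI u μ) =
      ∫ x, fderiv ℝ φ x (dv i) * fderiv ℝ h x (ev i) * RH u μ x := fun i => integral_PI hu hμ _
  simp only [e1]
  have e2 : (fun x => LL u μ φ x * h x * RH u μ x) = fun x => ∑ i,
      (fderiv ℝ (fun y => fderiv ℝ φ y (dv i)) x (ev i) -
        (rel μ i - u (x i)) * fderiv ℝ φ x (dv i)) * h x * RH u μ x := by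
    funext x
    rw [LL, Finset.sum_mul, Finset.sum_mul]
  rw [e2, integral_finsetSum, ← Finset.sum_neg_distrib]
  · exact Finset.sum_congr rfl fun i _ => ibp_aux hu (hφ.deriv (dv i)) hh i
  · intro i _
    have huc : Continuous fun x : Fin n → ℝ => rel μ i - u (x i) :=
      continuous_const.sub (hu.lip.continuous.comp (continuous_apply i))
    have hc : Continuous fun x => fderiv ℝ (fun y => fderiv ℝ φ y (dv i)) x (ev i) -
        (rel μ i - u (x i)) * fderiv ℝ φ x (dv i) :=
      ((hφ.deriv (dv i)).dcont (ev i)).sub (huc.mul (hφ.dcont (dv i)))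
    have hs : HasCompactSupport fun x => fderiv ℝ (fun y => fderiv ℝ φ y (dv i)) x (ev i) -
        (rel μ i - u (x i)) * fderiv ℝ φ x (dv i) :=
      ((hφ.deriv (dv i)).dsupp (ev i)).sub ((hφ.dsupp (dv i)).mul_left)
    exact ((hc.mul hhc).mul hRc).integrable_of_hasCompactSupport ((hs.mul_right).mul_right)

theorem int_LL (hu : Pot u) (hμ : ∀ i : Fin n, μ i.succ < μ i.castSucc) {φ : (Fin n → ℝ) → ℝ} (hφ : IsTest φ) :
    ∫ x, LL u μ φ x ∂(PI u μ) = 0 := by
  have h1 := ibp hu hμ hφ (h := fun _ => (1 : ℝ)) contDiff_const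
  simpa using h1

end Pool.Agent.SGP
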