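import Pool.Agent.SGP.GSX
import Pool.Agent.SGP.EXT

/-!
# LEX: local expansion of the semigroup on test functions

Proofs. (`LL_drift`) `LL u μ φ x = ∑ ∂_i(∂_i - ∂_{i+1})φ + Dφ x (drift n μ u x)`: summation by parts,
`drift_i = -(m_i - u(x_i)) + (m_{i-1} - u(x_{i-1}))` for `i > 0`, `drift_0 = -(m_0 - u (x_0))`, `m_i = rel μ i`
(`m_{i-1} - m_i = μ (i+1) - μ i`), and `drift = ∑ drift_i • ev i`.
(`local_exp`) Let `‖x‖ ≤ R`, `b = drift n μ u x`, `K, M0` Lipschitz constant and bound of the drift on the ball of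
radius `R + 1`. With `Z = nz (blks B _ 0 h ω) 1`: `G x h ω = x + ∫_0^h drift (G x q ω) dq + √h • Z` (equation of the
gap process at time `h`, `B i 0 = 0`). On the event `E(ρ)` that `‖G x q ω - x‖ < ρ` for all `q ≤ h` (`ρ ≤ 1`):
`‖G x h ω - (x + h • b + √h • Z)‖ ≤ h K ρ`. So `|φ (G x h ω) - φ (x + h • b + √h • Z)| ≤ Lip(φ) h K ρ` on `E(ρ)` and
`≤ 2 ‖φ‖` off it, `P(E(ρ)^c) ≤ C h² / ρ⁴` by `exit_prob` (for `M h ≤ ρ`). Choose first `ρ` with
`Lip(φ) K ρ ≤ ε / 3`, then `h0` with `2 ‖φ‖ C h / ρ⁴ ≤ ε/3` and the error `C' √h (1 + M0)^3 ≤ ε/3` of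
`gauss_taylor` (law of `blks B _ 0 h` by `law_blks`). `h = 0` is trivial (`gap_zero`).
(`LL_cont`, support) `LL u μ φ` is continuous (u continuous) and vanishes off the support of `φ`.
-/

open MeasureTheory ProbabilityTheory Set Filter Topology
open scoped ENNReal NNReal BoundedContinuousFunction

namespace Pool.Agent.SGP

open Pool.Agent.OYG

variable {n : ℕ} {Ω : Type*} [MeasurableSpace Ω] {P : Measure Ω} {μ : Fin (n + 1) → ℝ} {u : ℝ → ℝ}
  {B : Fin (n + 1) → ℝ≥0 → Ω → ℝ} {G : (Fin n → ℝ) → ℝ≥0 → Ω → Fin n → ℝ}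

private theorem dv_val (i j : Fin n) : dv i j = (if i = j then 1 else 0) - (if (i : ℕ) + 1 = j then 1 else 0) := by
  unfold dv ev
  rw [Pi.sub_apply, Pi.single_apply]
  congr 1
  · by_cases h : i = j
    · rw [if_pos h, if_pos h.symm]
    · rw [if_neg h, if_neg (Ne.symm h)]
  · by_cases h : (i : ℕ) + 1 < n
    · rw [dif_pos h, Pi.single_apply]
      by_cases h2 : (i : ℕ) + 1 = j
      · rw [if_pos h2, if_pos]
        exact Fin.ext h2.symm
      · rw [if_neg h2, if_neg]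
        intro h3
        exact h2 (by rw [h3])
    · rw [dif_neg h, Pi.zero_apply, if_neg]
      intro h2
      exact h (h2 ▸ j.2)

private theorem drift_dv (μ : Fin (n + 1) → ℝ) (u : ℝ → ℝ) (x : Fin n → ℝ) :
    drift n μ u x = ∑ i, (-(rel μ i - u (x i))) • dv i := by
  funext j
  rw [Finset.sum_apply]
  simp only [Pi.smul_apply, smul_eq_mul, dv_val, mul_sub, Finset.sum_sub_distrib]
  have h1 : ∑ i : Fin n, (-(rel μ i - u (x i))) * (if i = j then (1 : ℝ) else 0) =
      -(rel μ j - u (x j)) := by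
    simp
  have h2 : ∑ i : Fin n, (-(rel μ i - u (x i))) * (if (i : ℕ) + 1 = j then (1 : ℝ) else 0) =
      if 0 < (j : ℕ) then -(rel μ ⟨(j : ℕ) - 1, by omega⟩ - u (x ⟨(j : ℕ) - 1, by omega⟩)) else 0 := by
    by_cases hj : 0 < (j : ℕ)
    · rw [if_pos hj, Finset.sum_eq_single ⟨(j : ℕ) - 1, by omega⟩]
      · rw [if_pos (by show (j : ℕ) - 1 + 1 = j; omega), mul_one]
      · intro i _ hi
        rw [if_neg, mul_zero]
        intro h3
        exact hi (Fin.ext (by show (i : ℕ) = (j : ℕ) - 1; omega))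
      · intro h3
        exact absurd (Finset.mem_univ _) h3
    · rw [if_neg hj]
      refine Finset.sum_eq_zero fun i _ => ?_
      rw [if_neg (by omega), mul_zero]
  have h3 : ∑ i : Fin n, (-(rel μ i - u (x i))) * ((if i = j then (1 : ℝ) else 0) -
      (if (i : ℕ) + 1 = j then (1 : ℝ) else 0)) = -(rel μ j - u (x j)) -
      if 0 < (j : ℕ) then -(rel μ ⟨(j : ℕ) - 1, by omega⟩ - u (x ⟨(j : ℕ) - 1, by omega⟩)) else 0 := by
    simp only [mul_sub, Finset.sum_sub_distrib]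
    rw [h1, h2]
  simp only [mul_sub, Finset.sum_sub_distrib] at h3
  rw [h3]
  unfold drift rel
  by_cases hj : 0 < (j : ℕ)
  · rw [if_pos hj, if_pos hj]
    have h4 : (⟨(j : ℕ) - 1, by omega⟩ : Fin n).succ = j.castSucc := by
      apply Fin.ext
      show (j : ℕ) - 1 + 1 = j
      omega
    rw [h4]
    ring
  · rw [if_neg hj, if_neg hj]
    have h4 : j.castSucc = 0 := by
      apply Fin.ext
      show (j : ℕ) = 0
      omega
    rw [h4]
    ring

theorem LL_drift (μ : Fin (n + 1) → ℝ) (u : ℝ → ℝ) (φ : (Fin n → ℝ) → ℝ) (x : Fin n → ℝ) :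
    LL u μ φ x = (∑ i, fderiv ℝ (fun y => fderiv ℝ φ y (dv i)) x (ev i)) + fderiv ℝ φ x (drift n μ u x) := by
  have h1 : fderiv ℝ φ x (drift n μ u x) = ∑ i, -(rel μ i - u (x i)) * fderiv ℝ φ x (dv i) := by
    rw [drift_dv, map_sum]
    refine Finset.sum_congr rfl fun i _ => ?_
    rw [map_smul, smul_eq_mul]
  rw [h1, ← Finset.sum_add_distrib]
  unfold LL
  refine Finset.sum_congr rfl fun i _ => ?_
  ring

/-- the main estimate -/
private theorem main_est (S : Sys P n μ u B G) (φ : (Fin n → ℝ) → ℝ) (hφ : IsTest φ) (R : ℝ) :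
    ∃ M C1 C2 C3 : ℝ, 0 < M ∧ 0 ≤ C1 ∧ 0 ≤ C2 ∧ 0 ≤ C3 ∧ ∀ (ρ : ℝ) (h : ℝ≥0) (x : Fin n → ℝ), 0 < ρ → ρ ≤ 1 →
      0 < h → (h : ℝ) ≤ 1 → M * h ≤ ρ → ‖x‖ ≤ R →
      |pt P G h φ x - φ x - h * LL u μ φ x| ≤ C1 * ρ * h + C2 * h ^ 2 / ρ ^ 4 + C3 * (h * √(h : ℝ)) := by
  have hP := S.prob
  obtain ⟨M0, hM0, hM0b⟩ := drift_bdd μ S.pot.lip (R + 1)
  obtain ⟨K, hK0, hK⟩ := drift_lip μ S.pot.lip (R + 1)
  obtain ⟨M, C, hM, hC, hexit⟩ := exit_prob S R
  obtain ⟨C', hC', hgt⟩ := gauss_taylor S.bm φ hφ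
  have hφc : Continuous φ := hφ.1.continuous
  obtain ⟨Cφ, hCφ⟩ := hφ.2.exists_bound_of_continuous hφc
  have hCφ0 : 0 ≤ Cφ := (norm_nonneg _).trans (hCφ 0)
  obtain ⟨L, hL⟩ := ContDiff.lipschitzWith_of_hasCompactSupport hφ.2 hφ.1 (by simp)
  refine ⟨M, L * K, 2 * Cφ * C, C' * (1 + M0) ^ 3, hM, by positivity, by positivity, by positivity,
    fun ρ h x hρ hρ1 hh hh1 hMh hx => ?_⟩
  have hpos : (0 : ℝ) < h := hh
  set b := drift n μ u x with hb
  have hx1 : ‖x‖ ≤ R + 1 := by linarith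
  have hbM : ‖b‖ ≤ M0 := hM0b x hx1
  have hsq0 : 0 < √(h : ℝ) := Real.sqrt_pos.2 hpos
  -- the Gaussian approximation on the probability space
  set F : Ω → (Fin n → ℝ) := fun ω => x + (h : ℝ) • b + √(h : ℝ) • nz (blks B S.bm.cont 0 h ω) 1 with hF
  have hnzc : Continuous fun w : Blk n => x + (h : ℝ) • b + √(h : ℝ) • nz w 1 := by
    have h1 : Continuous fun w : Blk n => √(h : ℝ) • nz w 1 :=
      (continuous_const_smul (√(h : ℝ))).comp (continuous_nz 1)
    exact continuous_const.add h1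
  have hFm : Measurable F := by
    have hnzm : Measurable fun w : Blk n => x + (h : ℝ) • b + √(h : ℝ) • nz w 1 := by
      refine measurable_pi_lambda _ fun i => ?_
      have h2 : ∀ k : Fin (n + 1), Measurable fun w : Blk n => w k (projIcc 0 1 zero_le_one 1) :=
        fun k => (continuous_eval_const (F := C(unitInterval, ℝ))
          (projIcc (0 : ℝ) 1 zero_le_one 1)).measurable.comp (measurable_pi_apply k)
      exact measurable_const.add (((h2 _).sub (h2 _)).const_mul _)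
    exact hnzm.comp (measurable_blks S.bm 0 h)
  have hW : ∫ w, φ (x + (h : ℝ) • b + √(h : ℝ) • nz w 1) ∂(P.map (blk B S.bm.cont 0)) =
      ∫ ω, φ (F ω) ∂P := by
    have hnzm : Measurable fun w : Blk n => φ (x + (h : ℝ) • b + √(h : ℝ) • nz w 1) := by
      refine hφc.measurable.comp ?_
      refine measurable_pi_lambda _ fun i => ?_
      have h2 : ∀ k : Fin (n + 1), Measurable fun w : Blk n => w k (projIcc 0 1 zero_le_one 1) :=
        fun k => (continuous_eval_const (F := C(unitInterval, ℝ))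
          (projIcc (0 : ℝ) 1 zero_le_one 1)).measurable.comp (measurable_pi_apply k)
      exact measurable_const.add (((h2 _).sub (h2 _)).const_mul _)
    rw [← law_blks S.bm 0 hh, integral_map (measurable_blks S.bm 0 h).aemeasurable
      hnzm.aestronglyMeasurable]
  have hG := hgt x b h hpos hh1
  rw [hW, ← LL_drift] at hG
  -- the path
  have hpath : ∀ ω, (∀ q ≤ h, ‖G x q ω - x‖ < ρ) → ‖G x h ω - F ω‖ ≤ K * ρ * h := by
    intro ω hω
    rw [pi_norm_le_iff_of_nonneg (by positivity)]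
    intro i
    have heq := (S.gap x).eq ω h i
    have hgc : Continuous fun s : ℝ => drift n μ u (G x s.toNNReal ω) i := by
      have h1 : Continuous (drift n μ u) := drift_cont μ S.pot.lip
      exact (continuous_apply i).comp (h1.comp (((S.gap x).cont ω).comp continuous_real_toNNReal))
    have hnz : √(h : ℝ) * nz (blks B S.bm.cont 0 h ω) 1 i = B i.succ h ω - B i.castSucc h ω := by
      have h1 : ∀ k : Fin (n + 1), blks B S.bm.cont 0 h ω k (projIcc 0 1 zero_le_one 1) =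
          B k h ω / √(h : ℝ) := by
        intro k
        have h2 : projIcc (0 : ℝ) 1 zero_le_one 1 = (1 : unitInterval) := projIcc_right zero_le_one
        rw [h2]
        have h3 : ∀ q : ℝ≥0, (B k (0 + h * q) ω - B k 0 ω) / √(h : ℝ) = B k (h * q) ω / √(h : ℝ) :=
          fun q => by rw [zero_add, S.bm.zero, sub_zero]
        have h4 := h3 1
        rw [mul_one] at h4
        have h5 : (h * ⟨((1 : unitInterval) : ℝ), (1 : unitInterval).2.1⟩ : ℝ≥0) = h * 1 := rfl
        have h6 : blks B S.bm.cont 0 h ω k 1 = (B k (0 + h * 1) ω - B k 0 ω) / √(h : ℝ) := rfl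
        rw [h6, mul_one, zero_add, S.bm.zero, sub_zero]
      show √(h : ℝ) * (blks B S.bm.cont 0 h ω i.succ (projIcc 0 1 zero_le_one 1) -
        blks B S.bm.cont 0 h ω i.castSucc (projIcc 0 1 zero_le_one 1)) = _
      rw [h1, h1]
      field_simp
    have h1 : (G x h ω - F ω) i = ∫ s in (0 : ℝ)..h, (drift n μ u (G x s.toNNReal ω) i - b i) := by
      rw [intervalIntegral.integral_sub (hgc.intervalIntegrable _ _)
        (continuous_const.intervalIntegrable _ _), intervalIntegral.integral_const, Pi.sub_apply, heq]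
      have h2 : F ω i = x i + h * b i + √(h : ℝ) * nz (blks B S.bm.cont 0 h ω) 1 i := rfl
      rw [h2, hnz, smul_eq_mul]
      ring
    rw [h1]
    have h3 := intervalIntegral.norm_integral_le_of_norm_le_const (a := 0) (b := (h : ℝ))
      (C := K * ρ) (f := fun s => drift n μ u (G x s.toNNReal ω) i - b i) (fun s hs => by
        rw [uIoc_of_le hpos.le] at hs
        have h4 : s.toNNReal ≤ h := by
          rw [Real.toNNReal_le_iff_le_coe]
          exact hs.2
        have h5 := hω _ h4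
        have h6 : ‖G x s.toNNReal ω‖ ≤ R + 1 := by
          have h7 : G x s.toNNReal ω = x + (G x s.toNNReal ω - x) := by abel
          rw [h7]
          refine (norm_add_le _ _).trans ?_
          linarith
        calc ‖drift n μ u (G x s.toNNReal ω) i - b i‖ =
            ‖(drift n μ u (G x s.toNNReal ω) - drift n μ u x) i‖ := rfl
          _ ≤ ‖drift n μ u (G x s.toNNReal ω) - drift n μ u x‖ := norm_le_pi_norm _ i
          _ ≤ K * ‖G x s.toNNReal ω - x‖ := hK _ _ h6 hx1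
          _ ≤ K * ρ := mul_le_mul_of_nonneg_left h5.le hK0)
    rw [sub_zero, abs_of_pos hpos] at h3
    exact h3
  set E : Set Ω := {ω | ∃ t ≤ h, ρ ≤ ‖G x t ω - x‖} with hE
  set D : Set Ω := toMeasurable P E with hD
  have hDm : MeasurableSet D := measurableSet_toMeasurable P E
  have hPD : (P D).toReal ≤ C * (h : ℝ) ^ 2 / ρ ^ 4 := by
    rw [hD, measure_toMeasurable]
    refine ENNReal.toReal_le_of_le_ofReal (by positivity) ?_
    exact hexit x ρ h hx hρ hρ1 hMh
  have hpt : ∀ ω, |φ (G x h ω) - φ (F ω)| ≤ L * K * ρ * h + 2 * Cφ * D.indicator (fun _ => (1 : ℝ)) ω := by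
    intro ω
    by_cases hω : ω ∈ D
    · rw [indicator_of_mem hω]
      have h1 := hCφ (G x h ω)
      have h2 := hCφ (F ω)
      rw [Real.norm_eq_abs] at h1 h2
      have h3 : |φ (G x h ω) - φ (F ω)| ≤ |φ (G x h ω)| + |φ (F ω)| := abs_sub _ _
      have h4 : 0 ≤ L * K * ρ * (h : ℝ) := by positivity
      linarith
    · rw [indicator_of_notMem hω]
      have h0 : ω ∉ E := fun h => hω (subset_toMeasurable P E h)
      have h1 : ∀ q ≤ h, ‖G x q ω - x‖ < ρ := by
        intro q hq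
        by_contra h2
        rw [not_lt] at h2
        exact h0 ⟨q, hq, h2⟩
      have h3 := hpath ω h1
      have h4 := hL.dist_le_mul (G x h ω) (F ω)
      rw [dist_eq_norm, dist_eq_norm, Real.norm_eq_abs] at h4
      calc |φ (G x h ω) - φ (F ω)| ≤ L * ‖G x h ω - F ω‖ := h4
        _ ≤ L * (K * ρ * h) := mul_le_mul_of_nonneg_left h3 L.2
        _ = L * K * ρ * h + 2 * Cφ * 0 := by ring
  have hi1 : Integrable (fun ω => φ (G x h ω)) P :=
    Integrable.of_bound (hφc.measurable.comp ((S.gap x).meas h)).aestronglyMeasurable Cφ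
      (Eventually.of_forall fun ω => hCφ _)
  have hi2 : Integrable (fun ω => φ (F ω)) P :=
    Integrable.of_bound (hφc.measurable.comp hFm).aestronglyMeasurable Cφ
      (Eventually.of_forall fun ω => hCφ _)
  have hdiff : |pt P G h φ x - ∫ ω, φ (F ω) ∂P| ≤ L * K * ρ * h + 2 * Cφ * (C * (h : ℝ) ^ 2 / ρ ^ 4) := by
    have h1 : pt P G h φ x - ∫ ω, φ (F ω) ∂P = ∫ ω, (φ (G x h ω) - φ (F ω)) ∂P := by
      rw [integral_sub hi1 hi2]
      rfl
    rw [h1, ← Real.norm_eq_abs]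
    have hind : Integrable (fun ω => D.indicator (fun _ => (1 : ℝ)) ω) P :=
      (integrable_const (1 : ℝ)).indicator hDm
    calc ‖∫ ω, (φ (G x h ω) - φ (F ω)) ∂P‖ ≤
        ∫ ω, (L * K * ρ * h + 2 * Cφ * D.indicator (fun _ => (1 : ℝ)) ω) ∂P := by
          refine norm_integral_le_of_norm_le ((integrable_const _).add (hind.const_mul _))
            (Eventually.of_forall fun ω => ?_)
          rw [Real.norm_eq_abs]
          exact hpt ω
      _ = L * K * ρ * h + 2 * Cφ * (P D).toReal := by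
          have e1 : ∫ ω, 2 * Cφ * D.indicator (fun _ => (1 : ℝ)) ω ∂P = 2 * Cφ * (P D).toReal := by
            rw [integral_const_mul, integral_indicator hDm]
            simp [Measure.real]
          rw [integral_add (integrable_const _) (hind.const_mul _), e1]
          simp
      _ ≤ L * K * ρ * h + 2 * Cφ * (C * (h : ℝ) ^ 2 / ρ ^ 4) := by
          have h2 : 2 * Cφ * (P D).toReal ≤ 2 * Cφ * (C * (h : ℝ) ^ 2 / ρ ^ 4) :=
            mul_le_mul_of_nonneg_left hPD (by positivity)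
          linarith
  have hG2 : C' * ((h : ℝ) * √(h : ℝ)) * (1 + ‖b‖) ^ 3 ≤ C' * (1 + M0) ^ 3 * (h * √(h : ℝ)) := by
    have h1 : (1 + ‖b‖) ^ 3 ≤ (1 + M0) ^ 3 :=
      pow_le_pow_left₀ (by positivity) (by linarith) 3
    calc C' * ((h : ℝ) * √(h : ℝ)) * (1 + ‖b‖) ^ 3 ≤ C' * ((h : ℝ) * √(h : ℝ)) * (1 + M0) ^ 3 :=
          mul_le_mul_of_nonneg_left h1 (by positivity)
      _ = C' * (1 + M0) ^ 3 * (h * √(h : ℝ)) := by ring
  have hsplit : pt P G h φ x - φ x - h * LL u μ φ x =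
      (pt P G h φ x - ∫ ω, φ (F ω) ∂P) + ((∫ ω, φ (F ω) ∂P) - φ x - h * LL u μ φ x) := by ring
  rw [hsplit]
  refine (abs_add_le _ _).trans ?_
  have h9 : 2 * Cφ * (C * (h : ℝ) ^ 2 / ρ ^ 4) = 2 * Cφ * C * h ^ 2 / ρ ^ 4 := by ring
  linarith [hG.trans hG2]

theorem local_exp (S : Sys P n μ u B G) (φ : (Fin n → ℝ) → ℝ) (hφ : IsTest φ) (R : ℝ) {ε : ℝ} (hε : 0 < ε) :
    ∃ h0 : ℝ≥0, 0 < h0 ∧ ∀ h ≤ h0, ∀ x : Fin n → ℝ, ‖x‖ ≤ R →
      |pt P G h φ x - φ x - h * LL u μ φ x| ≤ ε * h := by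
  have hP := S.prob
  obtain ⟨M, C1, C2, C3, hM, hC1, hC2, hC3, hmain⟩ := main_est S φ hφ R
  set ρ : ℝ := min 1 (ε / (3 * (C1 + 1))) with hρd
  have hρ : 0 < ρ := lt_min one_pos (by positivity)
  have hρ1 : ρ ≤ 1 := min_le_left _ _
  have hρ2 : C1 * ρ ≤ ε / 3 := by
    have h1 : ρ ≤ ε / (3 * (C1 + 1)) := min_le_right _ _
    calc C1 * ρ ≤ (C1 + 1) * (ε / (3 * (C1 + 1))) := by
          refine mul_le_mul (by linarith) h1 hρ.le (by linarith)
      _ = ε / 3 := by
          field_simp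
  set h1 : ℝ := min (min 1 (ρ / M)) (min (ε * ρ ^ 4 / (3 * (C2 + 1))) ((ε / (3 * (C3 + 1))) ^ 2)) with hh1d
  have hh1 : 0 < h1 := by
    refine lt_min (lt_min one_pos (by positivity)) (lt_min (by positivity) (by positivity))
  refine ⟨h1.toNNReal, Real.toNNReal_pos.2 hh1, fun h hh x hx => ?_⟩
  rcases eq_or_ne h 0 with h0 | h0
  · have h2 : pt P G 0 φ x = φ x := by
      have h3 : ∀ ω', G x 0 ω' = x := fun ω' => gap_zero S _ ω'
      simp only [pt, h3]
      simp
    rw [h0, h2]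
    simp
  have hpos : 0 < h := pos_iff_ne_zero.mpr h0
  have hposr : (0 : ℝ) < h := hpos
  have hle : (h : ℝ) ≤ h1 := by
    have := (NNReal.coe_le_coe.2 hh)
    rwa [Real.coe_toNNReal _ hh1.le] at this
  have ha : (h : ℝ) ≤ 1 := hle.trans ((min_le_left _ _).trans (min_le_left _ _))
  have hb : (h : ℝ) ≤ ρ / M := hle.trans ((min_le_left _ _).trans (min_le_right _ _))
  have hc : (h : ℝ) ≤ ε * ρ ^ 4 / (3 * (C2 + 1)) := hle.trans ((min_le_right _ _).trans (min_le_left _ _))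
  have hd : (h : ℝ) ≤ (ε / (3 * (C3 + 1))) ^ 2 := hle.trans ((min_le_right _ _).trans (min_le_right _ _))
  have hb' : M * h ≤ ρ := by
    rw [le_div_iff₀ hM] at hb
    linarith
  have hc' : C2 * h ^ 2 / ρ ^ 4 ≤ ε / 3 * h := by
    rw [div_le_iff₀ (by positivity)]
    rw [le_div_iff₀ (by positivity)] at hc
    have h3 : C2 * (h : ℝ) ≤ ε / 3 * ρ ^ 4 := by nlinarith
    calc C2 * (h : ℝ) ^ 2 = (C2 * h) * h := by ring
      _ ≤ (ε / 3 * ρ ^ 4) * h := mul_le_mul_of_nonneg_right h3 hposr.le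
      _ = ε / 3 * h * ρ ^ 4 := by ring
  have hd' : C3 * (h * √(h : ℝ)) ≤ ε / 3 * h := by
    have h3 : √(h : ℝ) ≤ ε / (3 * (C3 + 1)) := by
      rw [Real.sqrt_le_left (by positivity)]
      exact hd
    have h4 : C3 * √(h : ℝ) ≤ ε / 3 := by
      calc C3 * √(h : ℝ) ≤ (C3 + 1) * (ε / (3 * (C3 + 1))) := by
            refine mul_le_mul (by linarith) h3 (Real.sqrt_nonneg _) (by linarith)
        _ = ε / 3 := by
            field_simp
    calc C3 * (h * √(h : ℝ)) = (C3 * √(h : ℝ)) * h := by ring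
      _ ≤ ε / 3 * h := mul_le_mul_of_nonneg_right h4 hposr.le
  have he' : C1 * ρ * h ≤ ε / 3 * h := mul_le_mul_of_nonneg_right hρ2 hposr.le
  have := hmain ρ h x hρ hρ1 hpos ha hb' hx
  linarith

end Pool.Agent.SGP
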