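import Pool.Agent.SGP.IBP
import Pool.Agent.SGP.MLE
import Pool.Agent.SGP.CFM

/-!
# LI1: energy inequality for an infinitesimally invariant probability measure

Proof. `M = ml η π 1 ≥ 0`, `V = M / RH ≥ 0`, `z = log (1 + V)`, all `C^1`. Apply `mollified` with `α = 0`, `v = 1`,
`σ = π`, `Ψ = χ² h(V)`, `h(s) = -1/(1+s)`, `h'(s) = 1/(1+s)²`. As in CO1, `∂_i M + ml η π (w_i) = RH V_i + r_i`,
`r_i x = ∫ η(x-y) (w_i y - w_i x) dπ(y)`, so `|r_i x| ≤ K ε M x = K ε RH V` for `x` in the support of `χ` (hypothesis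
`hK`). With `z_i = V_i/(1+V)`: `h'(V) V_i² = z_i²`, `|h(V) V_i| = |z_i|`, `V/(1+V) ≤ 1`:
`∑ ∫ χ² RH (z_i - z_{i+1}) z_i = -∑ ∫ 2χ h(V) (χ_i - χ_{i+1}) RH V_i - ∑ ∫ [χ² h'(V)(V_i - V_{i+1}) + 2 χ h(V)(χ_i - χ_{i+1})] r_i`,
the terms on the right are bounded by `2 |χ| RH |∑ (χ_i - χ_{i+1}) z_i|`, by
`χ² ∑ |z_i - z_{i+1}| K ε RH` and by `2 |χ| ∑ |χ_i - χ_{i+1}| K ε RH`. Use `coer` on the left and AM-GM (`coer_abs` or
termwise) on the right.
-/

open MeasureTheory ProbabilityTheory Set Filter Topology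
open scoped ENNReal NNReal BoundedContinuousFunction

namespace Pool.Agent.SGP

/-- coercivity with a positive constant in all dimensions -/
theorem li1_coer {n : ℕ} (Z : Fin n → ℝ) :
    (1 / (2 * ((n : ℝ) + 1) ^ 2)) * ∑ i, Z i ^ 2 ≤ ∑ i, (Z i - nxt Z i) * Z i := by
  rcases Nat.eq_zero_or_pos n with h0 | hn
  · subst h0
    simp
  · have hn' : (0 : ℝ) < n := by exact_mod_cast hn
    refine le_trans (mul_le_mul_of_nonneg_right ?_ (Finset.sum_nonneg fun i _ => sq_nonneg _)) (coer Z)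
    refine one_div_le_one_div_of_le (by positivity) ?_
    nlinarith

/-- the algebra of the energy inequality -/
theorem li1_alg {n : ℕ} (Z X t : Fin n → ℝ) (a κ : ℝ) (hκ : a ≠ 0 → ∀ i, |t i| ≤ κ) {c : ℝ} (hc : 0 < c)
    (hco : c * ∑ i, Z i ^ 2 ≤ ∑ i, (Z i - nxt Z i) * Z i) :
    (c / 2) * (a ^ 2 * ∑ i, Z i ^ 2) ≤
      ∑ i, (a ^ 2 * (Z i - nxt Z i) - 2 * a * (X i - nxt X i)) * (Z i + t i) +
        ((4 / c + c / 4) * n * κ ^ 2 * a ^ 2 + 32 / c * ∑ i, X i ^ 2) := by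
  have hX0 : 0 ≤ ∑ i, X i ^ 2 := Finset.sum_nonneg fun i _ => sq_nonneg _
  have hZ0 : 0 ≤ ∑ i, Z i ^ 2 := Finset.sum_nonneg fun i _ => sq_nonneg _
  rcases eq_or_ne a 0 with ha | ha
  · subst ha
    have e : ∑ i, ((0 : ℝ) ^ 2 * (Z i - nxt Z i) - 2 * 0 * (X i - nxt X i)) * (Z i + t i) = 0 :=
      Finset.sum_eq_zero fun i _ => by ring
    rw [e]
    have : 0 ≤ 32 / c * ∑ i, X i ^ 2 := by positivity
    nlinarith
  have ht := hκ ha
  have hSt : ∑ i, t i ^ 2 ≤ n * κ ^ 2 := by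
    calc ∑ i, t i ^ 2 ≤ ∑ _i : Fin n, κ ^ 2 := by
          refine Finset.sum_le_sum fun i _ => ?_
          rw [← sq_abs]
          exact pow_le_pow_left₀ (abs_nonneg _) (ht i) 2
      _ = n * κ ^ 2 := by rw [Finset.sum_const, Finset.card_univ, Fintype.card_fin, nsmul_eq_mul]
  have hSt0 : 0 ≤ ∑ i, t i ^ 2 := Finset.sum_nonneg fun i _ => sq_nonneg _
  -- splitting
  have e1 : ∑ i, (a ^ 2 * (Z i - nxt Z i) - 2 * a * (X i - nxt X i)) * (Z i + t i) =
      a ^ 2 * (∑ i, (Z i - nxt Z i) * Z i) + a ^ 2 * (∑ i, (Z i - nxt Z i) * t i) -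
        2 * ∑ i, (X i - nxt X i) * (a * (Z i + t i)) := by
    rw [Finset.mul_sum, Finset.mul_sum, Finset.mul_sum, ← Finset.sum_add_distrib, ← Finset.sum_sub_distrib]
    exact Finset.sum_congr rfl fun i _ => by ring
  have h1 := coer_abs Z t (show 0 < c / 4 by positivity)
  have h2 := coer_abs X (fun i => a * (Z i + t i)) (show 0 < 16 / c by positivity)
  have h3 : ∑ i, (a * (Z i + t i)) ^ 2 ≤ 2 * a ^ 2 * (∑ i, Z i ^ 2 + ∑ i, t i ^ 2) := by
    rw [← Finset.sum_add_distrib, Finset.mul_sum]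
    refine Finset.sum_le_sum fun i _ => ?_
    have : 0 ≤ a ^ 2 * (Z i - t i) ^ 2 := by positivity
    nlinarith
  have h4 : -(∑ i, (Z i - nxt Z i) * t i) ≤ c / 4 * ∑ i, Z i ^ 2 + 1 / (c / 4) * ∑ i, t i ^ 2 :=
    (neg_le_abs _).trans h1
  have h5 : ∑ i, (X i - nxt X i) * (a * (Z i + t i)) ≤
      16 / c * ∑ i, X i ^ 2 + 1 / (16 / c) * ∑ i, (a * (Z i + t i)) ^ 2 := (le_abs_self _).trans h2
  have e2 : 1 / (c / 4) = 4 / c := by field_simp
  have e3 : 1 / (16 / c) = c / 16 := by field_simp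
  rw [e2] at h4
  rw [e3] at h5
  have h6 : c / 16 * ∑ i, (a * (Z i + t i)) ^ 2 ≤ c / 16 * (2 * a ^ 2 * (∑ i, Z i ^ 2 + ∑ i, t i ^ 2)) :=
    mul_le_mul_of_nonneg_left h3 (by positivity)
  have ha2 : 0 ≤ a ^ 2 := sq_nonneg a
  have h7 := mul_le_mul_of_nonneg_left hco ha2
  have h8 := mul_le_mul_of_nonneg_left h4 ha2
  have h9 : (4 / c + c / 4) * a ^ 2 * ∑ i, t i ^ 2 ≤ (4 / c + c / 4) * a ^ 2 * (n * κ ^ 2) :=
    mul_le_mul_of_nonneg_left hSt (by positivity)
  rw [e1]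
  have e4 : 16 / c * ∑ i, X i ^ 2 + 16 / c * ∑ i, X i ^ 2 = 32 / c * ∑ i, X i ^ 2 := by ring
  nlinarith

theorem li1_nxt {n : ℕ} (Z X : Fin n → ℝ) (p q : ℝ) (i : Fin n) :
    nxt (fun j => p * Z j - q * X j) i = p * nxt Z i - q * nxt X i := by
  unfold nxt
  split_ifs <;> ring

/-- integration of a pointwise inequality -/
theorem li1_int {α : Type*} [MeasurableSpace α] {ν : Measure α} {A D P Q : α → ℝ} {k p q : ℝ}
    (hA : Integrable A ν) (hD : Integrable D ν) (hP : Integrable P ν) (hQ : Integrable Q ν)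
    (h : ∀ x, k * A x ≤ D x + (p * P x + q * Q x)) (h0 : ∫ x, D x ∂ν = 0) :
    k * ∫ x, A x ∂ν ≤ p * (∫ x, P x ∂ν) + q * ∫ x, Q x ∂ν := by
  have h1 : ∫ x, k * A x ∂ν ≤ ∫ x, (D x + (p * P x + q * Q x)) ∂ν :=
    integral_mono (hA.const_mul k) (hD.add ((hP.const_mul p).add (hQ.const_mul q))) h
  have h2 : ∫ x, (D x + (p * P x + q * Q x)) ∂ν = ∫ x, D x ∂ν + ∫ x, (p * P x + q * Q x) ∂ν :=
    integral_add hD ((hP.const_mul p).add (hQ.const_mul q))
  have h3 : ∫ x, (p * P x + q * Q x) ∂ν = ∫ x, p * P x ∂ν + ∫ x, q * Q x ∂ν :=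
    integral_add (hP.const_mul p) (hQ.const_mul q)
  rw [integral_const_mul, h2, h0, zero_add, h3, integral_const_mul, integral_const_mul] at h1
  exact h1

theorem lio_energy (n : ℕ) : ∃ C : ℝ, 0 < C ∧ ∀ {u : ℝ → ℝ} (_ : Pot u) {μ : Fin (n + 1) → ℝ}
    (_ : ∀ i : Fin n, μ i.succ < μ i.castSucc) {π : Measure (Fin n → ℝ)} (_ : IsProbabilityMeasure π)
    (_ : ∀ φ : (Fin n → ℝ) → ℝ, IsTest φ → ∫ y, LL u μ φ y ∂π = 0)
    {χ η : (Fin n → ℝ) → ℝ} (_ : IsTest χ) (_ : IsTest η) (_ : ∀ x, 0 ≤ η x) {ε K : ℝ} (_ : 0 ≤ ε) (_ : 0 ≤ K)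
    (_ : ∀ x, η x ≠ 0 → ‖x‖ ≤ ε)
    (_ : ∀ x y : Fin n → ℝ, χ x ≠ 0 → ‖x - y‖ ≤ ε → ∀ i, |u (x i) - u (y i)| ≤ K * ‖x - y‖),
    ∫ x, χ x ^ 2 * (∑ i, fderiv ℝ (fun y => Real.log (1 + ml η π (fun _ => 1) y / RH u μ y)) x (ev i) ^ 2) *
        RH u μ x ≤
      C * ((∫ x, (∑ i, fderiv ℝ χ x (ev i) ^ 2) * RH u μ x) + K ^ 2 * ε ^ 2 * ∫ x, χ x ^ 2 * RH u μ x) := by
  set c : ℝ := 1 / (2 * ((n : ℝ) + 1) ^ 2) with hc
  have hc0 : 0 < c := by positivity
  refine ⟨2 / c * (32 / c + (4 / c + c / 4) * n), by positivity, ?_⟩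
  intro u hu μ hμ π hπ hsol χ η hχ hη hη0 ε K hε hK hηε hKu
  set M : (Fin n → ℝ) → ℝ := ml η π (fun _ => 1) with hM
  have hMd : ContDiff ℝ 1 M := ml_contDiff hη (integrable_const _)
  have hM0 : ∀ x, 0 ≤ M x := fun x => integral_nonneg fun y => mul_nonneg (hη0 _) zero_le_one
  have hRp := RH_pos (μ := μ) hu hμ
  have hRd : ContDiff ℝ 1 (RH u μ) := RH_contDiff hu
  set V : (Fin n → ℝ) → ℝ := fun x => M x / RH u μ x with hV
  have hVd : ContDiff ℝ 1 V := hMd.div hRd fun x => (hRp x).ne'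
  have hV0 : ∀ x, 0 ≤ V x := fun x => div_nonneg (hM0 x) (hRp x).le
  have hV1 : ∀ x, 0 < 1 + V x := fun x => by linarith [hV0 x]
  set z : (Fin n → ℝ) → ℝ := fun x => Real.log (1 + V x) with hz
  have hzd : ContDiff ℝ 1 z := (contDiff_const.add hVd).log fun x => (hV1 x).ne'
  have hVf : ∀ x, HasFDerivAt V (fderiv ℝ V x) x := fun x => (hVd.differentiable one_ne_zero x).hasFDerivAt
  have hRf : ∀ x, HasFDerivAt (RH u μ) (fderiv ℝ (RH u μ) x) x := fun x =>
    (hRd.differentiable one_ne_zero x).hasFDerivAt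
  have hχf : ∀ x, HasFDerivAt χ (fderiv ℝ χ x) x := fun x => (hχ.diff x).hasFDerivAt
  -- derivative of z
  have hz1 : ∀ x v, fderiv ℝ z x v = fderiv ℝ V x v / (1 + V x) := by
    intro x v
    have h1 : HasFDerivAt (fun x => 1 + V x) (fderiv ℝ V x) x := (hVf x).const_add 1
    have h2 := h1.log (hV1 x).ne'
    rw [hz, h2.fderiv]
    simp only [smul_apply, smul_eq_mul]
    ring
  -- derivative of M
  have hM1 : ∀ x i, fderiv ℝ M x (ev i) = RH u μ x * fderiv ℝ V x (ev i) - (rel μ i - u (x i)) * M x := by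
    intro x i
    have e : M = fun x => V x * RH u μ x := by
      funext x
      rw [hV]
      exact (div_mul_cancel₀ _ (hRp x).ne').symm
    have h1 : HasFDerivAt (fun x => V x * RH u μ x) (V x • fderiv ℝ (RH u μ) x + RH u μ x • fderiv ℝ V x) x :=
      (hVf x).mul (hRf x)
    have e2 : M x = V x * RH u μ x := congrFun e x
    conv_lhs => rw [e]
    rw [h1.fderiv]
    simp only [add_apply, smul_apply, smul_eq_mul, RH_fderiv hu]
    rw [e2]
    ring
  -- the test function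
  set Ψ : (Fin n → ℝ) → ℝ := fun x => χ x ^ 2 * (-(1 + V x)⁻¹) with hΨ
  have hΨd : ContDiff ℝ 1 Ψ := by
    refine ContDiff.mul ((hχ.1.of_le (by simp)).pow 2) ?_
    exact ((contDiff_const.add hVd).inv fun x => (hV1 x).ne').neg
  have hΨc : HasCompactSupport Ψ := by
    refine HasCompactSupport.mul_right (f := fun x => χ x ^ 2) ?_
    exact hχ.2.comp_left (g := fun t : ℝ => t ^ 2) (by norm_num)
  have hΨ1 : ∀ x v, fderiv ℝ Ψ x v = (1 + V x)⁻¹ * (χ x ^ 2 * fderiv ℝ z x v - 2 * χ x * fderiv ℝ χ x v) := by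
    intro x v
    have h1 : HasFDerivAt (fun x => 1 + V x) (fderiv ℝ V x) x := (hVf x).const_add 1
    have h2 : HasFDerivAt (fun x => (1 + V x)⁻¹) (-((1 + V x) ^ 2)⁻¹ • fderiv ℝ V x) x := by
      have := (hasDerivAt_inv (hV1 x).ne').comp_hasFDerivAt x h1
      exact this
    have h3 : HasFDerivAt (fun x => χ x ^ 2) ((2 * χ x) • fderiv ℝ χ x) x := by
      have := (hχf x).pow 2
      simpa using this
    have h4 : HasFDerivAt Ψ (χ x ^ 2 • (-(-((1 + V x) ^ 2)⁻¹ • fderiv ℝ V x)) +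
        (-(1 + V x)⁻¹) • ((2 * χ x) • fderiv ℝ χ x)) x := h3.mul h2.neg
    rw [h4.fderiv, hz1]
    simp only [add_apply, smul_apply, neg_apply, smul_eq_mul]
    have := (hV1 x).ne'
    field_simp
    ring
  -- the mollified weights
  set W : Fin n → (Fin n → ℝ) → ℝ := fun i => ml η π (fun y => (rel μ i - u (y i)) * 1) with hW
  have hWc : ∀ i, Continuous (W i) := fun i => ml_weight_cont hu hη (integrable_const _) i
  have huc : Continuous u := hu.lip.continuous
  have hr : ∀ x i, χ x ≠ 0 → |W i x - (rel μ i - u (x i)) * M x| ≤ K * ε * M x := by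
    intro x i hx
    have hcs : HasCompactSupport fun y => η (x - y) := hη.2.comp_homeomorph (Homeomorph.subLeft x)
    have hcc : Continuous fun y => η (x - y) := hη.cont.comp (continuous_const.sub continuous_id)
    have i1 : Integrable (fun y => η (x - y) * ((rel μ i - u (y i)) * 1)) π := by
      refine Continuous.integrable_of_hasCompactSupport ?_ hcs.mul_right
      refine hcc.mul ?_
      exact (continuous_const.sub (huc.comp (continuous_apply i))).mul continuous_const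
    have i2 : Integrable (fun y => η (x - y) * 1) π :=
      Continuous.integrable_of_hasCompactSupport (hcc.mul continuous_const) hcs.mul_right
    have e : W i x - (rel μ i - u (x i)) * M x = ∫ y, η (x - y) * (u (x i) - u (y i)) ∂π := by
      have e1 : (rel μ i - u (x i)) * M x = ∫ y, (rel μ i - u (x i)) * (η (x - y) * 1) ∂π :=
        (integral_const_mul _ _).symm
      have e2 : W i x = ∫ y, η (x - y) * ((rel μ i - u (y i)) * 1) ∂π := rfl
      rw [e1, e2, ← integral_sub i1 (i2.const_mul _)]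
      exact integral_congr_ae (Eventually.of_forall fun y => by ring)
    rw [e, ← Real.norm_eq_abs]
    have e3 : K * ε * M x = ∫ y, K * ε * (η (x - y) * 1) ∂π := (integral_const_mul _ _).symm
    rw [e3]
    refine norm_integral_le_of_norm_le (i2.const_mul _) (Eventually.of_forall fun y => ?_)
    rw [Real.norm_eq_abs, abs_mul, abs_of_nonneg (hη0 _), mul_one]
    rcases eq_or_ne (η (x - y)) 0 with h0 | h0
    · rw [h0]
      simp
    · have h1 := hηε _ h0
      have h2 := hKu x y hx h1 i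
      have h3 : |u (x i) - u (y i)| ≤ K * ε := h2.trans (mul_le_mul_of_nonneg_left h1 hK)
      calc η (x - y) * |u (x i) - u (y i)| ≤ η (x - y) * (K * ε) := mul_le_mul_of_nonneg_left h3 (hη0 _)
        _ = K * ε * η (x - y) := mul_comm _ _
  -- the pointwise inequality
  set F : Fin n → (Fin n → ℝ) → ℝ := fun i x => fderiv ℝ M x (ev i) + W i x with hF
  have pt : ∀ x, c / 2 * (χ x ^ 2 * (∑ i, fderiv ℝ z x (ev i) ^ 2) * RH u μ x) ≤
      (∑ i, fderiv ℝ Ψ x (dv i) * F i x) +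
        ((4 / c + c / 4) * n * (K * ε) ^ 2 * (χ x ^ 2 * RH u μ x) +
          32 / c * ((∑ i, fderiv ℝ χ x (ev i) ^ 2) * RH u μ x)) := by
    intro x
    set Z : Fin n → ℝ := fun i => fderiv ℝ z x (ev i) with hZ
    set X : Fin n → ℝ := fun i => fderiv ℝ χ x (ev i) with hX
    set t : Fin n → ℝ := fun i => (W i x - (rel μ i - u (x i)) * M x) / ((1 + V x) * RH u μ x) with ht
    have hden : 0 < (1 + V x) * RH u μ x := mul_pos (hV1 x) (hRp x)
    have hκ : χ x ≠ 0 → ∀ i, |t i| ≤ K * ε := by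
      intro hx i
      rw [ht]
      show |(W i x - (rel μ i - u (x i)) * M x) / ((1 + V x) * RH u μ x)| ≤ K * ε
      rw [abs_div, abs_of_pos hden, div_le_iff₀ hden]
      refine (hr x i hx).trans ?_
      refine mul_le_mul_of_nonneg_left ?_ (mul_nonneg hK hε)
      have e : V x * RH u μ x = M x := div_mul_cancel₀ _ (hRp x).ne'
      rw [add_mul, e]
      linarith [hRp x]
    have h := li1_alg Z X t (χ x) (K * ε) hκ hc0 (li1_coer Z)
    have h2 := mul_le_mul_of_nonneg_right h (hRp x).le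
    have e1 : ∑ i, fderiv ℝ Ψ x (dv i) * F i x =
        (∑ i, (χ x ^ 2 * (Z i - nxt Z i) - 2 * χ x * (X i - nxt X i)) * (Z i + t i)) * RH u μ x := by
      rw [Finset.sum_mul]
      refine Finset.sum_congr rfl fun i _ => ?_
      have e2 : fderiv ℝ Ψ x (dv i) = (1 + V x)⁻¹ *
          (χ x ^ 2 * (Z i - nxt Z i) - 2 * χ x * (X i - nxt X i)) := by
        rw [clm_dv]
        have e3 : (fun j => fderiv ℝ Ψ x (ev j)) = fun j =>
            ((1 + V x)⁻¹ * χ x ^ 2) * Z j - ((1 + V x)⁻¹ * (2 * χ x)) * X j := by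
          funext j
          rw [hΨ1]
          ring
        rw [e3, li1_nxt, hΨ1]
        ring
      have e4 : F i x = (1 + V x) * RH u μ x * (Z i + t i) := by
        have e5 : Z i = fderiv ℝ V x (ev i) / (1 + V x) := hz1 x (ev i)
        rw [mul_add]
        have e6 : (1 + V x) * RH u μ x * t i = W i x - (rel μ i - u (x i)) * M x :=
          mul_div_cancel₀ _ hden.ne'
        have e7 : (1 + V x) * RH u μ x * Z i = RH u μ x * fderiv ℝ V x (ev i) := by
          rw [e5]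
          have := (hV1 x).ne'
          field_simp
        rw [e6, e7]
        show fderiv ℝ M x (ev i) + W i x = _
        rw [hM1]
        ring
      rw [e2, e4]
      have := (hV1 x).ne'
      field_simp
    rw [e1]
    have e8 : c / 2 * (χ x ^ 2 * (∑ i, Z i ^ 2) * RH u μ x) = c / 2 * (χ x ^ 2 * ∑ i, Z i ^ 2) * RH u μ x := by
      ring
    rw [e8]
    refine h2.trans (le_of_eq ?_)
    ring
  -- integrate
  have hRc : Continuous (RH u μ) := RH_cont hu
  have hzc : Continuous fun x => ∑ i, fderiv ℝ z x (ev i) ^ 2 := by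
    refine continuous_finsetSum _ fun i _ => ?_
    exact ((hzd.continuous_fderiv one_ne_zero).clm_apply continuous_const).pow 2
  have hχ2 : HasCompactSupport fun x => χ x ^ 2 := hχ.2.comp_left (g := fun t : ℝ => t ^ 2) (by norm_num)
  have j1 : Integrable fun x => χ x ^ 2 * (∑ i, fderiv ℝ z x (ev i) ^ 2) * RH u μ x :=
    (((hχ.cont.pow 2).mul hzc).mul hRc).integrable_of_hasCompactSupport (hχ2.mul_right.mul_right)
  have j2 : ∀ i, Integrable fun x => fderiv ℝ Ψ x (dv i) * F i x := by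
    intro i
    refine Continuous.integrable_of_hasCompactSupport ?_ (hΨc.fderiv_apply ℝ (dv i)).mul_right
    refine ((hΨd.continuous_fderiv one_ne_zero).clm_apply continuous_const).mul ?_
    exact ((hMd.continuous_fderiv one_ne_zero).clm_apply continuous_const).add (hWc i)
  have j3 : Integrable fun x => χ x ^ 2 * RH u μ x :=
    ((hχ.cont.pow 2).mul hRc).integrable_of_hasCompactSupport hχ2.mul_right
  have j4 : Integrable fun x => (∑ i, fderiv ℝ χ x (ev i) ^ 2) * RH u μ x := by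
    have e : (fun x => (∑ i, fderiv ℝ χ x (ev i) ^ 2) * RH u μ x) =
        fun x => ∑ i, fderiv ℝ χ x (ev i) ^ 2 * RH u μ x := by
      funext x
      rw [Finset.sum_mul]
    rw [e]
    refine integrable_finsetSum _ fun i _ => ?_
    have k1 : Continuous fun x => fderiv ℝ χ x (ev i) ^ 2 * RH u μ x := ((hχ.dcont (ev i)).pow 2).mul hRc
    have k2 : HasCompactSupport fun x => fderiv ℝ χ x (ev i) ^ 2 := by
      have e2 : (fun x => fderiv ℝ χ x (ev i) ^ 2) = fun x => fderiv ℝ χ x (ev i) * fderiv ℝ χ x (ev i) := by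
        funext x
        ring
      rw [e2]
      exact HasCompactSupport.mul_right (hχ.dsupp (ev i))
    have k3 : HasCompactSupport fun x => fderiv ℝ χ x (ev i) ^ 2 * RH u μ x := HasCompactSupport.mul_right k2
    exact k1.integrable_of_hasCompactSupport k3
  have hsol' : ∀ φ : (Fin n → ℝ) → ℝ, IsTest φ → ∫ y, (0 * φ y - LL u μ φ y) * (1 : ℝ) ∂π = 0 := by
    intro φ hφ
    have e : ∀ y, (0 * φ y - LL u μ φ y) * (1 : ℝ) = -LL u μ φ y := fun y => by ring
    rw [integral_congr_ae (Eventually.of_forall e), integral_neg, hsol φ hφ, neg_zero]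
  have hmol0 : ∑ i, ∫ x, fderiv ℝ Ψ x (dv i) * F i x = 0 := by
    have h1 := mollified hu (σ := π) (v := fun _ => (1 : ℝ)) (integrable_const _) 0 hsol' hη hΨd hΨc
    rw [zero_mul, zero_add] at h1
    exact h1
  have hmol : ∫ x, (∑ i, fderiv ℝ Ψ x (dv i) * F i x) = 0 := by
    rw [integral_finsetSum _ fun i _ => j2 i]
    exact hmol0
  have hint := li1_int j1 (integrable_finsetSum _ fun i _ => j2 i) j3 j4 pt hmol
  set A := ∫ x, χ x ^ 2 * (∑ i, fderiv ℝ z x (ev i) ^ 2) * RH u μ x with hA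
  set B1 := ∫ x, χ x ^ 2 * RH u μ x with hB1
  set B2 := ∫ x, (∑ i, fderiv ℝ χ x (ev i) ^ 2) * RH u μ x with hB2
  have hB10 : 0 ≤ B1 := integral_nonneg fun x => mul_nonneg (sq_nonneg _) (hRp x).le
  have hB20 : 0 ≤ B2 := integral_nonneg fun x =>
    mul_nonneg (Finset.sum_nonneg fun i _ => sq_nonneg _) (hRp x).le
  have hfin : A ≤ 2 / c * ((4 / c + c / 4) * n * (K * ε) ^ 2 * B1 + 32 / c * B2) := by
    have e : A = 2 / c * (c / 2 * A) := by
      field_simp
    rw [e]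
    exact mul_le_mul_of_nonneg_left hint (by positivity)
  refine hfin.trans ?_
  have hn0 : (0 : ℝ) ≤ n := Nat.cast_nonneg n
  have e : 2 / c * (32 / c + (4 / c + c / 4) * n) * (B2 + K ^ 2 * ε ^ 2 * B1) -
      2 / c * ((4 / c + c / 4) * n * (K * ε) ^ 2 * B1 + 32 / c * B2) =
      2 / c * (32 / c * (K ^ 2 * ε ^ 2 * B1) + (4 / c + c / 4) * n * B2) := by ring
  have hp : 0 ≤ 2 / c * (32 / c * (K ^ 2 * ε ^ 2 * B1) + (4 / c + c / 4) * n * B2) := by positivity
  linarith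

end Pool.Agent.SGP
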