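import Pool.Agent.SGP.PO1
import Pool.Agent.SGP.DN2
import Pool.Agent.SGP.EOP

/-!
# POI: Poincaré inequality in one coordinate, integrated

Proof. `ν_i = nu u (rel μ i)`, `π = pi ν = PI u μ`. For fixed `x` apply `poincare'` to `f s = F (update x a s)` (`C^1` since
`D` is continuous; constant for `|s| ≥ R`), `deriv f s = D (update x a s)`:
`gap ∫ (F (update x a s) - mean)^2 dν_a(s) ≤ ∫ D (update x a s)^2 dν_a(s)`, where
`mean = ∫ F (update x a r) dν_a(r) = ES (univ.erase a) F x` (`mix_erase`; `∫ F (update x a (y a)) dπ(y)`, and `y ↦ y a` maps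
`π` to `ν_a`, `measurePreserving_eval`), and `ES (univ.erase a) F (update x a s)` does not depend on `s`. Integrate over
`x ∈ π`: `∫ ∫ H (update x a s) dν_a(s) dπ(x) = ∫ H dπ` for bounded continuous `H` (`mix_mp` with `S = univ.erase a`,
`mix_erase`), applied to `H = (F - ES (univ.erase a) F)^2` and `H = D^2`.
-/

open MeasureTheory ProbabilityTheory Set Filter Topology
open scoped ENNReal NNReal BoundedContinuousFunction

namespace Pool.Agent.SGP

variable {n : ℕ} {μ : Fin (n + 1) → ℝ} {u : ℝ → ℝ}

/-- the one-dimensional factors of `PI u μ` -/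
noncomputable def nf (u : ℝ → ℝ) (μ : Fin (n + 1) → ℝ) (i : Fin n) : Measure ℝ := nu u (rel μ i)

theorem nf_prob (hu : Pot u) (hμ : ∀ i : Fin n, μ i.succ < μ i.castSucc) (i : Fin n) :
    IsProbabilityMeasure (nf u μ i) := nu_prob hu (rel_pos hμ i)

theorem PI_nf : PI u μ = Measure.pi (nf u μ) := rfl

/-- only coordinate `a` is integrated -/
theorem poi_es (ν : Fin n → Measure ℝ) [∀ i, IsProbabilityMeasure (ν i)] (a : Fin n) (H : (Fin n → ℝ) →ᵇ ℝ)
    (x : Fin n → ℝ) : ES ν (Finset.univ.erase a) H x = ∫ s, H (Function.update x a s) ∂(ν a) := by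
  rw [es_apply]
  have h1 : (fun y => H (mix (Finset.univ.erase a) x y)) = fun y : Fin n → ℝ => H (Function.update x a (y a)) := by
    funext y
    rw [mix_erase]
  have hc : Continuous fun s : ℝ => H (Function.update x a s) :=
    H.continuous.comp (continuous_const.update a continuous_id)
  have h2 : (Measure.pi ν).map (fun y : Fin n → ℝ => y a) = ν a := (measurePreserving_eval ν a).map_eq
  rw [h1, ← h2, integral_map (measurable_pi_apply a).aemeasurable hc.aestronglyMeasurable]

theorem poi_es_update (ν : Fin n → Measure ℝ) [∀ i, IsProbabilityMeasure (ν i)] (a : Fin n)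
    (H : (Fin n → ℝ) →ᵇ ℝ) (x : Fin n → ℝ) (s : ℝ) :
    ES ν (Finset.univ.erase a) H (Function.update x a s) = ES ν (Finset.univ.erase a) H x := by
  rw [poi_es, poi_es]
  simp only [Function.update_idem]

theorem poi (hu : Pot u) (hμ : ∀ i : Fin n, μ i.succ < μ i.castSucc) [∀ i, IsProbabilityMeasure (nf u μ i)]
    (a : Fin n) (F D : (Fin n → ℝ) →ᵇ ℝ)
    (hD : ∀ x s, HasDerivAt (fun r => F (Function.update x a r)) (D (Function.update x a s)) s)
    (K : (Fin n → ℝ) → ℝ) (R : ℝ) (hK : ∀ x s, R ≤ |s| → F (Function.update x a s) = K x) :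
    gap u (rel μ a) * ∫ x, (F x - ES (nf u μ) (Finset.univ.erase a) F x) ^ 2 ∂(PI u μ) ≤
      ∫ x, D x ^ 2 ∂(PI u μ) := by
  set E := ES (nf u μ) (Finset.univ.erase a) F with hE
  have key : ∀ x, gap u (rel μ a) * ES (nf u μ) (Finset.univ.erase a) ((F - E) * (F - E)) x ≤
      ES (nf u μ) (Finset.univ.erase a) (D * D) x := by
    intro x
    rw [poi_es, poi_es]
    have hd : deriv (fun r => F (Function.update x a r)) = fun s => D (Function.update x a s) :=
      funext fun s => (hD x s).deriv
    have hf : ContDiff ℝ 1 fun r => F (Function.update x a r) := by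
      rw [contDiff_one_iff_deriv]
      refine ⟨fun s => (hD x s).differentiableAt, ?_⟩
      rw [hd]
      exact D.continuous.comp (continuous_const.update a continuous_id)
    have h := poincare' hu (rel_pos hμ a) hf (c := K x) (R := R) (fun s hs => hK x s hs)
    rw [hd] at h
    have hv : vr (nu u (rel μ a)) (fun r => F (Function.update x a r)) =
        ∫ s, ((F - E) * (F - E)) (Function.update x a s) ∂(nf u μ a) := by
      unfold vr
      refine integral_congr_ae (Filter.Eventually.of_forall fun s => ?_)
      have e1 : E (Function.update x a s) = ∫ y, F (Function.update x a y) ∂(nu u (rel μ a)) := by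
        rw [hE, poi_es_update, poi_es]
        rfl
      simp only [BoundedContinuousFunction.coe_mul, BoundedContinuousFunction.coe_sub, Pi.mul_apply,
        Pi.sub_apply]
      rw [e1, sq]
    rw [hv] at h
    refine h.trans (le_of_eq ?_)
    refine integral_congr_ae (Filter.Eventually.of_forall fun s => ?_)
    simp only [BoundedContinuousFunction.coe_mul, Pi.mul_apply]
    rw [sq]
  have m1 := es_mean (nf u μ) (Finset.univ.erase a) ((F - E) * (F - E))
  have m2 := es_mean (nf u μ) (Finset.univ.erase a) (D * D)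
  have i1 : Integrable (fun x => ES (nf u μ) (Finset.univ.erase a) ((F - E) * (F - E)) x)
      (Measure.pi (nf u μ)) := BoundedContinuousFunction.integrable _ _
  have i2 : Integrable (fun x => ES (nf u μ) (Finset.univ.erase a) (D * D) x)
      (Measure.pi (nf u μ)) := BoundedContinuousFunction.integrable _ _
  have h3 := integral_mono (i1.const_mul (gap u (rel μ a))) i2 key
  rw [integral_const_mul, m1, m2] at h3
  have e3 : ∫ x, ((F - E) * (F - E)) x ∂(Measure.pi (nf u μ)) = ∫ x, (F x - E x) ^ 2 ∂(PI u μ) := by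
    rw [PI_nf]
    refine integral_congr_ae (Filter.Eventually.of_forall fun x => ?_)
    simp only [BoundedContinuousFunction.coe_mul, BoundedContinuousFunction.coe_sub, Pi.mul_apply,
      Pi.sub_apply]
    rw [sq]
  have e4 : ∫ x, (D * D) x ∂(Measure.pi (nf u μ)) = ∫ x, D x ^ 2 ∂(PI u μ) := by
    rw [PI_nf]
    refine integral_congr_ae (Filter.Eventually.of_forall fun x => ?_)
    simp only [BoundedContinuousFunction.coe_mul, Pi.mul_apply]
    rw [sq]
  rw [e3, e4] at h3
  exact h3

end Pool.Agent.SGP
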