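import Pool.Agent.SGP.FRM
import Pool.Agent.SGP.DER
import Pool.Agent.SGP.POI
import Pool.Agent.SGP.IBP
import Pool.Agent.SGP.CFM

/-!
# NIN: the energy inequality for the block norm

Proof. `ν = nf u μ`, `π = PI u μ`. By `nnm_right` and `ibp` with `h = pq a b φ` (`pq_contDiff`), `clm_dv`, `pq_der`:
`NNM (LL φ) φ = ∑ M^(a+b) ∫ LL φ * pq a b φ = -∑_{a,b} M^(a+b) ∑_i ∫ (∂_i φ - ∂_{i+1} φ) * PQi i a b (∂_i φ)` with
`∂_i φ = db hφ (ev i)`. Apply `hil` with `V` = bounded continuous functions, `ip f g = ∫ f g dπ`, `P = Pp ν`, `Q = Qtl ν`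
(`pp_pp`, `qq_qq`, `pp_qq`, `es_symm`), `u i = db hφ (ev i)` for `i < n` and `0` else (`Finset.sum_range` to pass between
`range n` and `Fin n`; `nxt`). So
`NNM (LL φ) φ ≤ -(1 - 6/√M) ∑ M^(a+b) (‖PQi a a b ∂_a φ‖² + ‖PQi b a b ∂_b φ‖²)/2`. Finally `poi` with `F = pq a b φ`,
coordinate `a`, `D = PQi a a b (∂_a φ)` (`line_deriv`, `pq_der`, `pq_const_out`): `gap_a ∫ (pq a b φ)^2 ≤ ‖PQi a a b ∂_a φ‖²`,
because `ES (univ.erase a) (pq a b φ) = 0`: `ES (univ.erase a) P_c Q_a = ES (univ.erase a) P_c Q_{a+1}` (`es_comp`, the two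
sets agree). The same for the coordinate `b`: `ES (univ.erase b) P_{b+1} Q_d = ES (univ.erase b) P_b Q_d`. Use
`1 - 6/√M ≥ 0` for `M ≥ 36`.
-/

open MeasureTheory ProbabilityTheory Set Filter Topology
open scoped ENNReal NNReal BoundedContinuousFunction

namespace Pool.Agent.SGP

variable {n : ℕ} {μ : Fin (n + 1) → ℝ} {u : ℝ → ℝ}

/-- the gap number `a` as a function of a natural number -/
noncomputable def gpn (u : ℝ → ℝ) (μ : Fin (n + 1) → ℝ) (a : ℕ) : ℝ :=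
  if h : a < n then gap u (rel μ ⟨a, h⟩) else 0

theorem erase_pq_a (ν : Fin n → Measure ℝ) [∀ i, IsProbabilityMeasure (ν i)] (a b : ℕ) (ha : a < n)
    (f : (Fin n → ℝ) →ᵇ ℝ) : ES ν (Finset.univ.erase (⟨a, ha⟩ : Fin n)) (pq ν a b f) = 0 := by
  have key : ∀ c, ES ν (Finset.univ.erase (⟨a, ha⟩ : Fin n)) (Pp ν c (Qtl ν a f)) =
      ES ν (Finset.univ.erase (⟨a, ha⟩ : Fin n)) (Pp ν c (Qtl ν (a + 1) f)) := by
    intro c
    rw [ppqq, ppqq, es_comp, es_comp]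
    congr 2
    ext i
    simp only [Finset.mem_inter, Finset.mem_erase, Finset.mem_filter, Finset.mem_univ, true_and, and_true, ne_eq,
      Fin.ext_iff]
    omega
  rw [pq_expand, map_add, map_sub, map_sub, key, key]
  abel

theorem erase_pq_b (ν : Fin n → Measure ℝ) [∀ i, IsProbabilityMeasure (ν i)] (a b : ℕ) (hb : b < n)
    (f : (Fin n → ℝ) →ᵇ ℝ) : ES ν (Finset.univ.erase (⟨b, hb⟩ : Fin n)) (pq ν a b f) = 0 := by
  have key : ∀ d, ES ν (Finset.univ.erase (⟨b, hb⟩ : Fin n)) (Pp ν (b + 1) (Qtl ν d f)) =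
      ES ν (Finset.univ.erase (⟨b, hb⟩ : Fin n)) (Pp ν b (Qtl ν d f)) := by
    intro d
    rw [ppqq, ppqq, es_comp, es_comp]
    congr 2
    ext i
    simp only [Finset.mem_inter, Finset.mem_erase, Finset.mem_filter, Finset.mem_univ, true_and, and_true, ne_eq,
      Fin.ext_iff]
    omega
  rw [pq_expand, map_add, map_sub, map_sub, key, key]
  abel

theorem nin_poi (hu : Pot u) (hμ : ∀ i : Fin n, μ i.succ < μ i.castSucc) [∀ i, IsProbabilityMeasure (nf u μ i)]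
    (a b : ℕ) (c : Fin n) {φ : (Fin n → ℝ) → ℝ} (hφ : IsTest φ)
    (h0 : ES (nf u μ) (Finset.univ.erase c) (pq (nf u μ) a b (tb hφ)) = 0) :
    gap u (rel μ c) * ∫ x, pq (nf u μ) a b (tb hφ) x ^ 2 ∂(PI u μ) ≤
      ∫ x, PQi (Pp (nf u μ)) (Qtl (nf u μ)) c a b (db hφ (ev c)) x *
        PQi (Pp (nf u μ)) (Qtl (nf u μ)) c a b (db hφ (ev c)) x ∂(PI u μ) := by
  obtain ⟨K, R, hK⟩ := pq_const_out (nf u μ) a b hφ c
  have h1 := poi hu hμ c (pq (nf u μ) a b (tb hφ)) (PQi (Pp (nf u μ)) (Qtl (nf u μ)) c a b (db hφ (ev c)))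
    (fun x s => by
      have h2 := line_deriv (pq (nf u μ) a b (tb hφ)) (pq_contDiff (nf u μ) a b hφ) c x s
      rw [pq_der] at h2
      exact h2) K R hK
  rw [h0] at h1
  have e1 : ∫ x, (pq (nf u μ) a b (tb hφ) x - (0 : (Fin n → ℝ) →ᵇ ℝ) x) ^ 2 ∂(PI u μ) =
      ∫ x, pq (nf u μ) a b (tb hφ) x ^ 2 ∂(PI u μ) := by
    refine integral_congr_ae (Eventually.of_forall fun x => ?_)
    show (pq (nf u μ) a b (tb hφ) x - 0) ^ 2 = pq (nf u μ) a b (tb hφ) x ^ 2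
    rw [sub_zero]
  rw [e1] at h1
  refine h1.trans (le_of_eq ?_)
  refine integral_congr_ae (Eventually.of_forall fun x => ?_)
  exact sq _

theorem nin (hu : Pot u) (hμ : ∀ i : Fin n, μ i.succ < μ i.castSucc) [∀ i, IsProbabilityMeasure (nf u μ i)]
    {M : ℝ} (hM : 36 ≤ M) {φ : (Fin n → ℝ) → ℝ} (hφ : IsTest φ) :
    NNM (nf u μ) M (Lb hu μ hφ) (tb hφ) ≤ -((1 - 6 / √M) * ∑ a ∈ Finset.range n, ∑ b ∈ Finset.range n,
      M ^ (a + b) * ((gpn u μ a + gpn u μ b) / 2) * ∫ x, pq (nf u μ) a b (tb hφ) x ^ 2 ∂(PI u μ)) := by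
  have hp : IsProbabilityMeasure (PI u μ) := PI_prob hu hμ
  obtain ⟨ip, hip⟩ : ∃ ip : ((Fin n → ℝ) →ᵇ ℝ) → ((Fin n → ℝ) →ᵇ ℝ) → ℝ,
    ip = fun f g => ∫ x, f x * g x ∂(PI u μ) := ⟨_, rfl⟩
  obtain ⟨U, hU⟩ : ∃ U : ℕ → ((Fin n → ℝ) →ᵇ ℝ), U = fun i => if h : i < n then db hφ (ev ⟨i, h⟩) else 0 := ⟨_, rfl⟩
  have hUi : ∀ i : Fin n, U i = db hφ (ev i) := fun i => by
    rw [hU]
    simp
  have hUx : ∀ (i : Fin n) (x : Fin n → ℝ), U ((i : ℕ) + 1) x = nxt (fun j => fderiv ℝ φ x (ev j)) i := by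
    intro i x
    rw [hU]
    unfold nxt
    by_cases h : (i : ℕ) + 1 < n
    · simp [h]
    · simp [h]
  have hfrm : Frm (PI u μ) ip := by rw [hip]; exact frm_l2 (PI u μ)
  have hPs : ∀ b f g, ip (Pp (nf u μ) b f) g = ip f (Pp (nf u μ) b g) := fun b f g => by
    rw [hip]
    exact es_symm (nf u μ) _ f g
  have hQs : ∀ a f g, ip (Qtl (nf u μ) a f) g = ip f (Qtl (nf u μ) a g) := fun a f g => by
    rw [hip]
    exact es_symm (nf u μ) _ f g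
  have hM1 : (1 : ℝ) ≤ M := by linarith
  have hhil := hil ip hfrm.add hfrm.smul hfrm.symm hfrm.pos (Pp (nf u μ)) (Qtl (nf u μ))
    (fun b c f => pp_pp (nf u μ) b c f) (fun a c f => qq_qq (nf u μ) a c f)
    (fun a b f => pp_qq (nf u μ) a b f) hPs hQs n U (fun i hi => by
      rw [hU]
      simp [not_lt.mpr hi]) hM1
  -- the left side
  have hL : NNM (nf u μ) M (Lb hu μ hφ) (tb hφ) = -∑ a ∈ Finset.range n, ∑ b ∈ Finset.range n, M ^ (a + b) *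
      ∑ i ∈ Finset.range n, ip (U i - U (i + 1)) (PQi (Pp (nf u μ)) (Qtl (nf u μ)) i a b (U i)) := by
    rw [nnm_right, ← Finset.sum_neg_distrib]
    refine Finset.sum_congr rfl fun a _ => ?_
    rw [← Finset.sum_neg_distrib]
    refine Finset.sum_congr rfl fun b _ => ?_
    rw [← mul_neg]
    congr 1
    have h1 := ibp hu hμ hφ (h := pq (nf u μ) a b (tb hφ)) (pq_contDiff (nf u μ) a b hφ)
    refine h1.trans ?_
    congr 1
    rw [Finset.sum_range]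
    refine Finset.sum_congr rfl fun i _ => ?_
    rw [hip]
    refine integral_congr_ae (Eventually.of_forall fun x => ?_)
    show fderiv ℝ φ x (dv i) * fderiv ℝ (pq (nf u μ) a b (tb hφ)) x (ev i) =
      (U (i : ℕ) x - U ((i : ℕ) + 1) x) * PQi (Pp (nf u μ)) (Qtl (nf u μ)) i a b (U i) x
    rw [pq_der, clm_dv, hUx, hUi]
    rfl
  rw [hL, neg_le_neg_iff]
  refine le_trans ?_ hhil
  have hc : 0 ≤ 1 - 6 / √M := by
    have h1 : (6 : ℝ) ≤ √M := by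
      rw [show (6 : ℝ) = √36 by rw [show (36 : ℝ) = 6 ^ 2 by norm_num, Real.sqrt_sq (by norm_num)]]
      exact Real.sqrt_le_sqrt hM
    have h2 : 6 / √M ≤ 1 := by
      rw [div_le_one (by linarith)]
      exact h1
    linarith
  refine mul_le_mul_of_nonneg_left ?_ hc
  refine Finset.sum_le_sum fun a ha => Finset.sum_le_sum fun b hb => ?_
  have ha' : a < n := Finset.mem_range.mp ha
  have hb' : b < n := Finset.mem_range.mp hb
  rw [mul_assoc]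
  refine mul_le_mul_of_nonneg_left ?_ (pow_nonneg (by linarith) _)
  have h1 := nin_poi hu hμ a b ⟨a, ha'⟩ hφ (erase_pq_a (nf u μ) a b ha' (tb hφ))
  have h2 := nin_poi hu hμ a b ⟨b, hb'⟩ hφ (erase_pq_b (nf u μ) a b hb' (tb hφ))
  have e1 : gpn u μ a = gap u (rel μ ⟨a, ha'⟩) := by
    unfold gpn
    simp [ha']
  have e2 : gpn u μ b = gap u (rel μ ⟨b, hb'⟩) := by
    unfold gpn
    simp [hb']
  have e3 : ip (PQi (Pp (nf u μ)) (Qtl (nf u μ)) a a b (U a)) (PQi (Pp (nf u μ)) (Qtl (nf u μ)) a a b (U a)) =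
      ∫ x, PQi (Pp (nf u μ)) (Qtl (nf u μ)) a a b (db hφ (ev ⟨a, ha'⟩)) x *
        PQi (Pp (nf u μ)) (Qtl (nf u μ)) a a b (db hφ (ev ⟨a, ha'⟩)) x ∂(PI u μ) := by
    have := hUi ⟨a, ha'⟩
    rw [hip, ← this]
  have e4 : ip (PQi (Pp (nf u μ)) (Qtl (nf u μ)) b a b (U b)) (PQi (Pp (nf u μ)) (Qtl (nf u μ)) b a b (U b)) =
      ∫ x, PQi (Pp (nf u μ)) (Qtl (nf u μ)) b a b (db hφ (ev ⟨b, hb'⟩)) x *
        PQi (Pp (nf u μ)) (Qtl (nf u μ)) b a b (db hφ (ev ⟨b, hb'⟩)) x ∂(PI u μ) := by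
    have := hUi ⟨b, hb'⟩
    rw [hip, ← this]
  rw [e1, e2, e3, e4]
  linarith

end Pool.Agent.SGP
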