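import Pool.Agent.SGP.SM1

/-!
# SMV: smoothing: `P_1 (x, ·)` has a bounded density with respect to `π`

Proof. By linearity it suffices to bound `pt P G 1 f x` for `f ≥ 0` (then `|pt 1 f x| ≤ pt 1 |f| x`, `|f|` as a bounded continuous function).
Let `R = ‖x‖ + 1`, `M, K, h0` of `smooth_step` for `R`. For `0 < b ≤ 1` (`b = 2^{-k}`) consider the points `‖y‖ ≤ ‖x‖ + 1 - b` and the times
`1 - 4a/3 (1 - b²) ≤ s ≤ 1`, the step `h = a b²`, the radius `r = b / 4`, with `a > 0` so small that `a ≤ h0`, `M a ≤ 1/4`, `a ≤ 3/8` and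
`θ := 256 K a² ≤ 2^{-n-1}`. `smooth_step` and induction over `j` give `pt s f y ≤ 2 K a^{-n/2} b^{-n} ∫ f dπ + θ^j ‖f‖`. `j → ∞`, `b = 1`.
-/

open MeasureTheory ProbabilityTheory Set Filter Topology
open scoped ENNReal NNReal BoundedContinuousFunction

namespace Pool.Agent.SGP

open Pool.Agent.OYG

variable {n : ℕ} {Ω : Type*} [MeasurableSpace Ω] {P : Measure Ω} {μ : Fin (n + 1) → ℝ} {u : ℝ → ℝ}
  {B : Fin (n + 1) → ℝ≥0 → Ω → ℝ} {G : (Fin n → ℝ) → ℝ≥0 → Ω → Fin n → ℝ}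

/-- a small parameter -/
theorem small_param (n : ℕ) {M K h0 : ℝ} (hM : 0 < M) (hK : 0 < K) (hh : 0 < h0) :
    ∃ a : ℝ, 0 < a ∧ a ≤ h0 ∧ M * a ≤ 1 / 4 ∧ a ≤ 3 / 8 ∧ 2 * (256 * K * a ^ 2) * 2 ^ n ≤ 1 := by
  have h2 : (0 : ℝ) < 512 * K * 2 ^ n := by positivity
  refine ⟨min (min h0 (1 / (4 * M))) (min (3 / 8) (1 / (512 * K * 2 ^ n))), ?_, ?_, ?_, ?_, ?_⟩
  · refine lt_min (lt_min hh (by positivity)) (lt_min (by norm_num) (by positivity))
  · exact (min_le_left _ _).trans (min_le_left _ _)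
  · have h1 : min (min h0 (1 / (4 * M))) (min (3 / 8) (1 / (512 * K * 2 ^ n))) ≤ 1 / (4 * M) :=
      (min_le_left _ _).trans (min_le_right _ _)
    calc M * _ ≤ M * (1 / (4 * M)) := mul_le_mul_of_nonneg_left h1 hM.le
      _ = 1 / 4 := by field_simp
  · exact (min_le_right _ _).trans (min_le_left _ _)
  · set a := min (min h0 (1 / (4 * M))) (min (3 / 8) (1 / (512 * K * 2 ^ n))) with ha
    have ha0 : 0 < a := lt_min (lt_min hh (by positivity)) (lt_min (by norm_num) (by positivity))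
    have h1 : a ≤ 1 / (512 * K * 2 ^ n) := (min_le_right _ _).trans (min_le_right _ _)
    have h3 : a ≤ 3 / 8 := (min_le_right _ _).trans (min_le_left _ _)
    have h4 : a ^ 2 ≤ a := by nlinarith
    have h5 : 512 * K * 2 ^ n * a ≤ 1 := by
      calc 512 * K * 2 ^ n * a ≤ 512 * K * 2 ^ n * (1 / (512 * K * 2 ^ n)) :=
          mul_le_mul_of_nonneg_left h1 h2.le
        _ = 1 := by field_simp
    calc 2 * (256 * K * a ^ 2) * 2 ^ n = 512 * K * 2 ^ n * a ^ 2 := by ring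
      _ ≤ 512 * K * 2 ^ n * a := mul_le_mul_of_nonneg_left h4 h2.le
      _ ≤ 1 := h5

theorem smoothing_nonneg (S : Sys P n μ u B G) (π : Measure (Fin n → ℝ)) [IsProbabilityMeasure π]
    (hinv : ∀ (t : ℝ≥0) (f : (Fin n → ℝ) →ᵇ ℝ), ∫ x, ptb S t f x ∂π = ∫ x, f x ∂π)
    (hlow : ∀ R : ℝ, ∃ c : ℝ, 0 < c ∧ ∀ A : Set (Fin n → ℝ), MeasurableSet A →
      A ⊆ Metric.closedBall 0 R → ENNReal.ofReal c * volume A ≤ π A) (x : Fin n → ℝ) :
    ∃ C : ℝ, 0 < C ∧ ∀ f : (Fin n → ℝ) →ᵇ ℝ, (∀ z, 0 ≤ f z) → pt P G 1 f x ≤ C * ∫ y, f y ∂π := by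
  obtain ⟨M, K, h0, hM, hK, hh0, hst⟩ := smooth_step S π hinv hlow (‖x‖ + 1)
  obtain ⟨a, ha, hah, hMa, ha8, haK⟩ := small_param n hM hK (show (0 : ℝ) < h0 from hh0)
  set θ : ℝ := 256 * K * a ^ 2 with hθ
  have hθ0 : 0 ≤ θ := by positivity
  have hsa : 0 < √a := Real.sqrt_pos.2 ha
  have h2n : (1 : ℝ) ≤ 2 ^ n := one_le_pow₀ (by norm_num)
  have hθ1 : θ ≤ 1 / 2 := by
    have : θ * 1 ≤ θ * 2 ^ n := mul_le_mul_of_nonneg_left h2n hθ0
    linarith
  set D : ℝ := K / √a ^ n with hD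
  have hD0 : 0 < D := by positivity
  refine ⟨2 * D, by positivity, fun f hf => ?_⟩
  set I := ∫ y, f y ∂π with hI
  have hI0 : 0 ≤ I := integral_nonneg hf
  have key : ∀ (j : ℕ) (b : ℝ), 0 < b → b ≤ 1 → ∀ (y : Fin n → ℝ) (s : ℝ≥0), ‖y‖ ≤ ‖x‖ + 1 - b →
      1 - 4 * a / 3 * (1 - b ^ 2) ≤ s → (s : ℝ) ≤ 1 →
      pt P G s f y ≤ 2 * D * (1 / b) ^ n * I + θ ^ j * ‖f‖ := by
    intro j
    induction j with
    | zero =>
      intro b hb _ y s _ _ _
      have h1 : 0 ≤ 2 * D * (1 / b) ^ n * I := by positivity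
      have h2 := (le_abs_self _).trans (pt_le S f s y)
      rw [pow_zero, one_mul]
      linarith
    | succ j ih =>
      intro b hb hb1 y s hy hs hs1
      have hb2 : b ^ 2 ≤ 1 := by nlinarith
      have hb2' : 0 < b ^ 2 := by positivity
      set h : ℝ≥0 := ⟨a * b ^ 2, by positivity⟩ with hh
      have hhr : (h : ℝ) = a * b ^ 2 := rfl
      have hhle : a * b ^ 2 ≤ a := by nlinarith
      have c1 : 0 < h := by
        have : (0 : ℝ) < (h : ℝ) := by rw [hhr]; positivity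
        exact this
      have c2 : h ≤ h0 := by
        have : (h : ℝ) ≤ (h0 : ℝ) := by rw [hhr]; linarith
        exact this
      have c3 : M * (h : ℝ) ≤ b / 4 := by
        rw [hhr]
        have h1 : M * (a * b ^ 2) = (M * a) * b ^ 2 := by ring
        have h2 : (M * a) * b ^ 2 ≤ 1 / 4 * b ^ 2 := mul_le_mul_of_nonneg_right hMa hb2'.le
        have h3 : b ^ 2 ≤ b := by nlinarith
        linarith
      have hT : (1 : ℝ) / 2 ≤ s := by
        have h1 : 4 * a / 3 * (1 - b ^ 2) ≤ 4 * a / 3 * 1 :=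
          mul_le_mul_of_nonneg_left (by linarith) (by positivity)
        linarith
      have c4 : h ≤ s := by
        have : (h : ℝ) ≤ (s : ℝ) := by rw [hhr]; linarith
        exact this
      have hb' : (1 / (b / 2)) ^ n = 2 ^ n * (1 / b) ^ n := by
        rw [← mul_pow]
        congr 1
        field_simp
      set m : ℝ := 2 * D * (1 / (b / 2)) ^ n * I + θ ^ j * ‖f‖ with hm
      have hm0 : 0 ≤ m := by positivity
      have h5 := hst y (b / 4) h s f m (by linarith) (by positivity) (by linarith) c1 c2 c3 c4 hf hm0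
        (by
          intro z hz q hq1 hq2
          refine ih (b / 2) (by positivity) (by linarith) z q ?_ ?_ ?_
          · have h6 : ‖z‖ ≤ ‖z - y‖ + ‖y‖ := by
              have := norm_add_le (z - y) y
              rwa [sub_add_cancel] at this
            linarith
          · have h7 : (s : ℝ) ≤ (q : ℝ) + (h : ℝ) := by exact_mod_cast hq1
            rw [hhr] at h7
            have h8 : 1 - 4 * a / 3 * (1 - (b / 2) ^ 2) = 1 - 4 * a / 3 * (1 - b ^ 2) - a * b ^ 2 := by ring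
            linarith
          · have h7 : (q : ℝ) ≤ (s : ℝ) := by exact_mod_cast hq2
            linarith)
      have e1 : K / √(h : ℝ) ^ n = D * (1 / b) ^ n := by
        rw [hhr, Real.sqrt_mul ha.le, Real.sqrt_sq hb.le, mul_pow, hD]
        rw [one_div, inv_pow, ← div_eq_mul_inv, div_div]
      have e2 : K * (h : ℝ) ^ 2 / (b / 4) ^ 4 = θ := by
        rw [hhr, hθ]
        field_simp
        ring
      rw [e1, e2] at h5
      refine h5.trans ?_
      have e3 : θ * m = (2 * θ * 2 ^ n) * (D * (1 / b) ^ n * I) + θ ^ (j + 1) * ‖f‖ := by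
        rw [hm, hb', pow_succ]
        ring
      rw [e3]
      have h9 : (2 * θ * 2 ^ n) * (D * (1 / b) ^ n * I) ≤ 1 * (D * (1 / b) ^ n * I) :=
        mul_le_mul_of_nonneg_right haK (by positivity)
      linarith
  have hlim : Tendsto (fun j : ℕ => 2 * D * (1 / 1) ^ n * I + θ ^ j * ‖f‖) atTop
      (𝓝 (2 * D * (1 / 1) ^ n * I + 0 * ‖f‖)) :=
    ((tendsto_pow_atTop_nhds_zero_of_lt_one hθ0 (by linarith)).mul_const _).const_add _
  have := ge_of_tendsto' hlim fun j => key j 1 one_pos le_rfl x 1 (by linarith) (by simp) (by simp)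
  simpa using this

theorem smoothing (S : Sys P n μ u B G) (π : Measure (Fin n → ℝ)) [IsProbabilityMeasure π]
    (hinv : ∀ (t : ℝ≥0) (f : (Fin n → ℝ) →ᵇ ℝ), ∫ x, ptb S t f x ∂π = ∫ x, f x ∂π)
    (hlow : ∀ R : ℝ, ∃ c : ℝ, 0 < c ∧ ∀ A : Set (Fin n → ℝ), MeasurableSet A →
      A ⊆ Metric.closedBall 0 R → ENNReal.ofReal c * volume A ≤ π A) (x : Fin n → ℝ) :
    ∃ C : ℝ, 0 < C ∧ ∀ f : (Fin n → ℝ) →ᵇ ℝ, |pt P G 1 f x| ≤ C * ∫ y, |f y| ∂π := by
  obtain ⟨C, hC, h⟩ := smoothing_nonneg S π hinv hlow x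
  refine ⟨C, hC, fun f => ?_⟩
  have h1 := h |f| (fun z => by rw [BoundedContinuousFunction.coe_abs]; exact abs_nonneg _)
  simp only [BoundedContinuousFunction.coe_abs, Pi.abs_apply] at h1
  refine le_trans ?_ h1
  unfold pt
  exact abs_integral_le_integral_abs

end Pool.Agent.SGP
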