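import Pool.Agent.OYG.Defs

/-!
# TVC: total variation from bounded continuous functions
-/

open MeasureTheory ProbabilityTheory Set Filter Topology
open scoped ENNReal NNReal BoundedContinuousFunction

namespace Pool.Agent.SGP

open Pool.Agent.OYG

theorem tvle_of_bcf {n : ℕ} (ν₁ ν₂ : Measure (Fin n → ℝ)) [IsProbabilityMeasure ν₁] [IsProbabilityMeasure ν₂]
    {r : ℝ} (h : ∀ f : (Fin n → ℝ) →ᵇ ℝ, ‖f‖ ≤ 1 → |∫ y, f y ∂ν₁ - ∫ y, f y ∂ν₂| ≤ r) : TVle ν₁ ν₂ r := by
  intro g hg hg1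
  refine le_of_forall_pos_le_add fun ε hε => ?_
  have hint : Integrable g (ν₁ + ν₂) :=
    Integrable.of_bound hg.aestronglyMeasurable 1 (Eventually.of_forall fun y => hg1 y)
  obtain ⟨f, hf, -⟩ := hint.exists_boundedContinuous_integral_sub_le hε
  have hcont : Continuous fun y : Fin n → ℝ => max (-1) (min 1 (f y)) :=
    continuous_const.max (continuous_const.min f.continuous)
  have hbd : ∀ y, ‖max (-1) (min 1 (f y))‖ ≤ 1 := fun y => by
    rw [Real.norm_eq_abs, abs_le]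
    exact ⟨le_max_left _ _, max_le (by norm_num) (min_le_left _ _)⟩
  let F : (Fin n → ℝ) →ᵇ ℝ := BoundedContinuousFunction.ofNormedAddCommGroup _ hcont 1 hbd
  have hF : ∀ y, F y = max (-1) (min 1 (f y)) := fun y => rfl
  have hF1 : ‖F‖ ≤ 1 := BoundedContinuousFunction.norm_ofNormedAddCommGroup_le _ zero_le_one hbd
  have hcl : ∀ y, ‖g y - F y‖ ≤ ‖g y - f y‖ := fun y => by
    have h1 := abs_le.mp (hg1 y)
    rw [hF y, Real.norm_eq_abs, Real.norm_eq_abs]
    rcases le_total (f y) (-1) with h2 | h2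
    · rw [min_eq_right (by linarith), max_eq_left h2, abs_of_nonneg (by linarith),
        abs_of_nonneg (by linarith)]
      linarith
    · rcases le_total (f y) 1 with h3 | h3
      · rw [min_eq_right h3, max_eq_right h2]
      · rw [min_eq_left h3, max_eq_right (by norm_num), abs_of_nonpos (by linarith),
          abs_of_nonpos (by linarith)]
        linarith
  have hi1 : Integrable g ν₁ := hint.left_of_add_measure
  have hi2 : Integrable g ν₂ := hint.right_of_add_measure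
  have hd1 : Integrable (fun y => ‖g y - F y‖) ν₁ := (hi1.sub (F.integrable ν₁)).norm
  have hd2 : Integrable (fun y => ‖g y - F y‖) ν₂ := (hi2.sub (F.integrable ν₂)).norm
  have hs : ∫ y, ‖g y - F y‖ ∂ν₁ + ∫ y, ‖g y - F y‖ ∂ν₂ ≤ ε := by
    rw [← integral_add_measure hd1 hd2]
    refine le_trans (integral_mono ((hint.sub (F.integrable _)).norm) ((hint.sub (f.integrable _)).norm) hcl) hf
  have e1 : ∫ y, g y ∂ν₁ = ∫ y, F y ∂ν₁ + ∫ y, (g y - F y) ∂ν₁ := by
    rw [integral_sub hi1 (F.integrable ν₁)]; ring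
  have e2 : ∫ y, g y ∂ν₂ = ∫ y, F y ∂ν₂ + ∫ y, (g y - F y) ∂ν₂ := by
    rw [integral_sub hi2 (F.integrable ν₂)]; ring
  have b1 : |∫ y, (g y - F y) ∂ν₁| ≤ ∫ y, ‖g y - F y‖ ∂ν₁ := by
    rw [← Real.norm_eq_abs]; exact norm_integral_le_integral_norm _
  have b2 : |∫ y, (g y - F y) ∂ν₂| ≤ ∫ y, ‖g y - F y‖ ∂ν₂ := by
    rw [← Real.norm_eq_abs]; exact norm_integral_le_integral_norm _
  have b3 := h F hF1
  rw [e1, e2]
  rw [abs_le] at b1 b2 b3 ⊢
  constructor <;> linarith

end Pool.Agent.SGP
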