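import Pool.Agent.SGP.DEC
import Pool.Agent.SGP.NIN
import Pool.Agent.SGP.SMV
import Pool.Agent.SGP.TVC

/-!
# LOW: uniform ergodicity with every exponent below the minimum of the gaps

Proof. `γ = min_i gap u (rel μ i) > δ`; choose `M ≥ 36` with `κ = (1 - 6/√M) γ ≥ δ`. `nin` gives
`NNM (LL φ) φ ≤ -κ NNM φ φ` (all `gpn a ≥ γ` for `a < n`, `NNM φ φ = ∑ M^(a+b) ∫ (pq a b φ)^2`). `decay` with `N1 = N2 = NNM`
and the set of all functions: `NNM (ptb t f) ≤ exp (-2 κ t) NNM f f`. By `nnm_lower` and stationarity (`stat_int`)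
`∫ (ptb t f - ∫ f)^2 ≤ exp (-2 κ t) NNM f f ≤ exp (-2 κ t) C ‖f‖^2` (`bd`). For `t ≥ 1`, `‖f‖ ≤ 1`:
`pt t f x - ∫ f = pt 1 (ptb (t-1) f - const ∫ f) x` (`ptb_semigroup`, `ptb_const`), so `smoothing` (`hinv` from `stat_int`,
`hlow` from `PI_lower`) and Cauchy-Schwarz: `|pt t f x - ∫ f| ≤ C_x ∫ |ptb (t-1) f - ∫ f| ≤ C_x √C exp (-κ (t-1))`.
For `t ≤ 1` use the trivial bound `2 ≤ 2 exp δ exp (-δ t)`. So with `W x = max 1 C_x` (choice) `UnifErg` holds; `TVle` by
`tvle_of_bcf` (`∫ f dP.map (G x t) = pt P G t f x`, `integral_map`).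
-/

open MeasureTheory ProbabilityTheory Set Filter Topology
open scoped ENNReal NNReal BoundedContinuousFunction

namespace Pool.Agent.SGP

open Pool.Agent.OYG

variable {n : ℕ} {Ω : Type*} [MeasurableSpace Ω] {P : Measure Ω} {μ : Fin (n + 1) → ℝ} {u : ℝ → ℝ}
  {B : Fin (n + 1) → ℝ≥0 → Ω → ℝ} {G : (Fin n → ℝ) → ℝ≥0 → Ω → Fin n → ℝ}

/-- exponential decay of the block norm -/
theorem nnm_decay (S : Sys P n μ u B G) (hπ : IsStat P G (PI u μ)) [∀ i, IsProbabilityMeasure (nf u μ i)] {γ M : ℝ}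
    (hγ0 : 0 ≤ γ) (hγ : ∀ i, γ ≤ gap u (rel μ i)) (hM : 36 ≤ M) (t : ℝ≥0) (f : (Fin n → ℝ) →ᵇ ℝ) :
    NNM (nf u μ) M (ptb S t f) (ptb S t f) ≤
      Real.exp (-(2 * ((1 - 6 / √M) * γ) * t)) * NNM (nf u μ) M f f := by
  have hM0 : 0 ≤ M := by linarith
  have h36 : (6 : ℝ) ≤ √M := Real.le_sqrt_of_sq_le (by linarith)
  have h6 : 0 ≤ 1 - 6 / √M := by
    have h : 6 / √M ≤ 1 := by
      rw [div_le_one (by linarith)]
      exact h36
    linarith
  have hfr : Frm (PI u μ) (NNM (nf u μ) M) := nnm_frm (nf u μ) hM0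
  refine decay S hπ hfr hfr (mul_nonneg h6 hγ0) ?_ Set.univ (fun f _ => le_rfl) (fun _ _ _ => Set.mem_univ _)
    (fun _ _ _ _ => Set.mem_univ _) t (Set.mem_univ f)
  intro φ hφ
  refine (nin S.pot S.mu hM hφ).trans ?_
  rw [neg_le_neg_iff, mul_assoc]
  refine mul_le_mul_of_nonneg_left ?_ h6
  unfold NNM
  rw [Finset.mul_sum]
  refine Finset.sum_le_sum fun a ha => ?_
  rw [Finset.mul_sum]
  refine Finset.sum_le_sum fun b hb => ?_
  have ga : γ ≤ gpn u μ a := by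
    unfold gpn
    rw [dif_pos (Finset.mem_range.1 ha)]
    exact hγ _
  have gb : γ ≤ gpn u μ b := by
    unfold gpn
    rw [dif_pos (Finset.mem_range.1 hb)]
    exact hγ _
  have e : ∫ x, pq (nf u μ) a b (tb hφ) x * pq (nf u μ) a b (tb hφ) x ∂(Measure.pi (nf u μ)) =
      ∫ x, pq (nf u μ) a b (tb hφ) x ^ 2 ∂(PI u μ) := by
    refine integral_congr_ae (Eventually.of_forall fun x => ?_)
    exact (sq _).symm
  rw [e]
  have hI : 0 ≤ ∫ x, pq (nf u μ) a b (tb hφ) x ^ 2 ∂(PI u μ) := integral_nonneg fun x => sq_nonneg _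
  have hMp : 0 ≤ M ^ (a + b) := pow_nonneg hM0 _
  calc γ * (M ^ (a + b) * ∫ x, pq (nf u μ) a b (tb hφ) x ^ 2 ∂(PI u μ)) =
      M ^ (a + b) * γ * ∫ x, pq (nf u μ) a b (tb hφ) x ^ 2 ∂(PI u μ) := by ring
    _ ≤ M ^ (a + b) * ((gpn u μ a + gpn u μ b) / 2) * ∫ x, pq (nf u μ) a b (tb hφ) x ^ 2 ∂(PI u μ) :=
        mul_le_mul_of_nonneg_right (mul_le_mul_of_nonneg_left (by linarith) hMp) hI

/-- Cauchy-Schwarz for a probability measure -/
private theorem low_l1 (π : Measure (Fin n → ℝ)) [IsProbabilityMeasure π] (g : (Fin n → ℝ) →ᵇ ℝ) :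
    ∫ x, |g x| ∂π ≤ √(∫ x, g x ^ 2 ∂π) := by
  refine Real.le_sqrt_of_sq_le ?_
  set m := ∫ x, |g x| ∂π with hm
  have i1 : Integrable (fun x => |g x|) π := (g.integrable π).abs
  have i2 : Integrable (fun x => g x ^ 2) π := by
    have h := (g * g).integrable π
    refine h.congr (Eventually.of_forall fun x => ?_)
    show g x * g x = g x ^ 2
    exact (sq _).symm
  have h3 : 0 ≤ ∫ x, (|g x| - m) ^ 2 ∂π := integral_nonneg fun x => sq_nonneg _
  have h4 : ∫ x, (|g x| - m) ^ 2 ∂π = ∫ x, g x ^ 2 ∂π - 2 * m * m + m ^ 2 := by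
    have e : (fun x => (|g x| - m) ^ 2) = fun x => (g x ^ 2 - 2 * m * |g x|) + m ^ 2 := by
      funext x
      have : |g x| ^ 2 = g x ^ 2 := sq_abs _
      linear_combination this
    have i3 : Integrable (fun x => g x ^ 2 - 2 * m * |g x|) π := i2.sub (i1.const_mul _)
    rw [e, integral_add i3 (integrable_const _), integral_sub i2 (i1.const_mul _), integral_const_mul, ← hm]
    simp
  rw [h4] at h3
  linarith

/-- the trivial bound -/
private theorem low_triv (ν : Measure (Fin n → ℝ)) [IsProbabilityMeasure ν] {f : (Fin n → ℝ) →ᵇ ℝ}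
    (hf : ‖f‖ ≤ 1) : |∫ x, f x ∂ν| ≤ 1 := by
  have h := norm_integral_le_of_norm_le_const (μ := ν) (f := fun x => f x) (C := 1)
    (Eventually.of_forall fun x => (f.norm_coe_le_norm x).trans hf)
  simpa using h

theorem lower_bound (S : Sys P n μ u B G) (hn : 0 < n) (hπ : IsStat P G (PI u μ)) {δ : ℝ} (hδ0 : 0 < δ)
    (hδ : ∀ i, δ < gap u (rel μ i)) : UnifErg P G (PI u μ) δ := by
  have hP := S.prob
  have hp : IsProbabilityMeasure (PI u μ) := hπ.prob
  have hpr : ∀ i, IsProbabilityMeasure (nf u μ i) := nf_prob S.pot S.mu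
  -- the minimum of the gaps
  obtain ⟨i0, -, hi0⟩ := Finset.exists_min_image (Finset.univ : Finset (Fin n)) (fun i => gap u (rel μ i))
    ⟨⟨0, hn⟩, Finset.mem_univ _⟩
  obtain ⟨γ, hγe⟩ : ∃ γ : ℝ, γ = gap u (rel μ i0) := ⟨_, rfl⟩
  have hγδ : δ < γ := by rw [hγe]; exact hδ i0
  have hγ : ∀ i, γ ≤ gap u (rel μ i) := fun i => by rw [hγe]; exact hi0 i (Finset.mem_univ i)
  have hγ0 : 0 < γ := hδ0.trans hγδ
  have hd : 0 < γ - δ := sub_pos.2 hγδ
  -- the weight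
  obtain ⟨r, hr⟩ : ∃ r : ℝ, r = 6 * γ / (γ - δ) := ⟨_, rfl⟩
  have hr6 : 6 ≤ r := by
    rw [hr, le_div_iff₀ hd]
    linarith
  have hr0 : 0 < r := by linarith
  obtain ⟨M, hMe⟩ : ∃ M : ℝ, M = r ^ 2 := ⟨_, rfl⟩
  have hM : 36 ≤ M := by
    rw [hMe]
    nlinarith
  have hsM : √M = r := by rw [hMe, Real.sqrt_sq hr0.le]
  have hκ : (1 - 6 / √M) * γ = δ := by
    rw [hsM, hr]
    field_simp
    ring
  have hM0 : 0 ≤ M := by linarith
  have hM1 : 1 ≤ M := by linarith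
  obtain ⟨C, hC0, hC⟩ := (nnm_frm (nf u μ) hM0).bd
  -- decay of the variance
  have hvar : ∀ (t : ℝ≥0) (f : (Fin n → ℝ) →ᵇ ℝ), ‖f‖ ≤ 1 →
      ∫ x, (ptb S t f x - ∫ y, f y ∂(PI u μ)) ^ 2 ∂(PI u μ) ≤ Real.exp (-(2 * δ * t)) * C := by
    intro t f hf
    have h1 := nnm_lower (nf u μ) hM1 (ptb S t f)
    have h2 := nnm_decay S hπ hγ0.le hγ hM t f
    rw [hκ] at h2
    have h3 := hC f
    have h4 : ∫ y, ptb S t f y ∂(Measure.pi (nf u μ)) = ∫ y, f y ∂(PI u μ) := stat_int S hπ t f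
    rw [h4] at h1
    have h5 : ∫ x, f x ^ 2 ∂(Measure.pi (nf u μ)) ≤ 1 := by
      have i2 : Integrable (fun x => f x ^ 2) (Measure.pi (nf u μ)) := by
        have h := (f * f).integrable (Measure.pi (nf u μ))
        refine h.congr (Eventually.of_forall fun x => ?_)
        show f x * f x = f x ^ 2
        exact (sq _).symm
      calc ∫ x, f x ^ 2 ∂(Measure.pi (nf u μ)) ≤ ∫ x, (1 : ℝ) ∂(Measure.pi (nf u μ)) := by
            refine integral_mono i2 (integrable_const _) fun x => ?_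
            have h6 : |f x| ≤ 1 := (f.norm_coe_le_norm x).trans hf
            show f x ^ 2 ≤ 1
            rw [← sq_abs]
            exact pow_le_one₀ (abs_nonneg _) h6
        _ = 1 := by simp
    have h6 : NNM (nf u μ) M f f ≤ C := h3.trans (by nlinarith)
    exact h1.trans (h2.trans (mul_le_mul_of_nonneg_left h6 (Real.exp_pos _).le))
  have hl1 : ∀ (t : ℝ≥0) (f : (Fin n → ℝ) →ᵇ ℝ), ‖f‖ ≤ 1 →
      ∫ x, |(ptb S t f - BoundedContinuousFunction.const (Fin n → ℝ) (∫ y, f y ∂(PI u μ))) x| ∂(PI u μ) ≤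
        √C * Real.exp (-(δ * t)) := by
    intro t f hf
    refine (low_l1 (PI u μ) _).trans ?_
    have h1 := hvar t f hf
    have h2 : Real.exp (-(2 * δ * t)) * C = (√C * Real.exp (-(δ * t))) ^ 2 := by
      rw [mul_pow, Real.sq_sqrt hC0, ← Real.exp_nat_mul]
      have : -(2 * δ * (t : ℝ)) = ((2 : ℕ) : ℝ) * -(δ * t) := by push_cast; ring
      rw [this, mul_comm]
    have h3 : 0 ≤ √C * Real.exp (-(δ * t)) := mul_nonneg (Real.sqrt_nonneg _) (Real.exp_pos _).le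
    refine Real.sqrt_le_iff.2 ⟨h3, ?_⟩
    rw [← h2]
    exact h1
  -- smoothing constants
  choose Cx hCx0 hCx using smoothing S (PI u μ) (stat_int S hπ) (PI_lower S.pot S.mu)
  refine ⟨(2 + √C) * Real.exp δ, by positivity, fun x => max 1 (Cx x), fun x => le_max_left _ _, fun x t => ?_⟩
  have hmeas : Measurable (G x t) := (gap_meas_uncurry S t).comp measurable_prodMk_left
  have hpm : IsProbabilityMeasure (P.map (G x t)) := Measure.isProbabilityMeasure_map hmeas.aemeasurable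
  refine tvle_of_bcf _ _ fun f hf => ?_
  have hmap : ∫ y, f y ∂(P.map (G x t)) = pt P G t f x :=
    integral_map hmeas.aemeasurable f.continuous.aestronglyMeasurable
  have hsC : 0 ≤ √C := Real.sqrt_nonneg _
  have hW : 1 ≤ max 1 (Cx x) := le_max_left _ _
  have hW2 : Cx x ≤ max 1 (Cx x) := le_max_right _ _
  rcases le_total 1 t with ht | ht
  · -- large times
    rw [hmap]
    have hte : 1 + (t - 1) = t := add_tsub_cancel_of_le ht
    have e1 : ptb S t f = ptb S 1 (ptb S (t - 1) f) := by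
      rw [← ptb_semigroup, hte]
    have e2 : pt P G t f x - ∫ y, f y ∂(PI u μ) =
        pt P G 1 (ptb S (t - 1) f - BoundedContinuousFunction.const (Fin n → ℝ) (∫ y, f y ∂(PI u μ))) x := by
      have h3 : ptb S 1 (ptb S (t - 1) f - BoundedContinuousFunction.const (Fin n → ℝ) (∫ y, f y ∂(PI u μ))) =
          ptb S t f - BoundedContinuousFunction.const (Fin n → ℝ) (∫ y, f y ∂(PI u μ)) := by
        rw [ptb_sub, ptb_const, ← e1]
      have h4 := congrArg (fun g : (Fin n → ℝ) →ᵇ ℝ => g x) h3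
      exact h4.symm
    rw [e2]
    refine (hCx x (ptb S (t - 1) f - BoundedContinuousFunction.const (Fin n → ℝ) (∫ y, f y ∂(PI u μ)))).trans ?_
    beta_reduce
    have h5 := hl1 (t - 1) f hf
    have h6 : ((t - 1 : ℝ≥0) : ℝ) = (t : ℝ) - 1 := by
      rw [NNReal.coe_sub ht, NNReal.coe_one]
    rw [h6] at h5
    have h7 : Real.exp (-(δ * ((t : ℝ) - 1))) = Real.exp δ * Real.exp (-(δ * t)) := by
      rw [← Real.exp_add]
      congr 1
      ring
    rw [h7] at h5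
    have h8 : 0 ≤ √C * (Real.exp δ * Real.exp (-(δ * t))) := by positivity
    calc Cx x * _ ≤ Cx x * (√C * (Real.exp δ * Real.exp (-(δ * t)))) :=
          mul_le_mul_of_nonneg_left h5 (hCx0 x).le
      _ ≤ max 1 (Cx x) * (√C * (Real.exp δ * Real.exp (-(δ * t)))) := mul_le_mul_of_nonneg_right hW2 h8
      _ ≤ (2 + √C) * Real.exp δ * max 1 (Cx x) * Real.exp (-(δ * t)) := by
          have h9 : 0 ≤ max 1 (Cx x) * (Real.exp δ * Real.exp (-(δ * t))) := by positivity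
          nlinarith
  · -- small times
    have h1 := low_triv (P.map (G x t)) hf
    have h2 := low_triv (PI u μ) hf
    have h3 : |∫ y, f y ∂(P.map (G x t)) - ∫ y, f y ∂(PI u μ)| ≤ 2 := by
      have := abs_sub (∫ y, f y ∂(P.map (G x t))) (∫ y, f y ∂(PI u μ))
      linarith
    refine h3.trans ?_
    have ht' : (t : ℝ) ≤ 1 := by exact_mod_cast ht
    have h4 : 1 ≤ Real.exp δ * Real.exp (-(δ * t)) := by
      rw [← Real.exp_add]
      refine Real.one_le_exp ?_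
      nlinarith
    have h5 : 1 ≤ (Real.exp δ * Real.exp (-(δ * t))) * max 1 (Cx x) := by nlinarith
    calc (2 : ℝ) ≤ (2 + √C) * ((Real.exp δ * Real.exp (-(δ * t))) * max 1 (Cx x)) := by nlinarith
      _ = (2 + √C) * Real.exp δ * max 1 (Cx x) * Real.exp (-(δ * t)) := by ring

end Pool.Agent.SGP
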