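import Pool.Agent.SGP.DEC
import Pool.Agent.SGP.NLA

/-!
# MNV: the invariant subspace of functions whose expectation given the last coordinate is constant

Proofs. (`nl_decay`) `decay` with `N1 = N2 = NL`, `κ = gap_l` (`nla`, `nl_frm`, `gap_nonneg`), the set of all functions.
(`msub_ptb`) if `ql f = 0` then `NL f f = 0`, so `NL (ptb f) (ptb f) = 0` (`nl_decay`, `Frm.pos`):
`∫ (ql (ptb f))^2 = 0`, `ql (ptb f)` is continuous and `PI` charges open sets (`PI_open`), so `ql (ptb f) = 0`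
(`Measure.IsOpenPosMeasure`-like argument: the open set where it is `≠ 0` has measure `0`). (`msub_rs`) the same with
`decay_res`.
-/

open MeasureTheory ProbabilityTheory Set Filter Topology
open scoped ENNReal NNReal BoundedContinuousFunction

namespace Pool.Agent.SGP

open Pool.Agent.OYG

variable {l : ℕ} {Ω : Type*} [MeasurableSpace Ω] {P : Measure Ω} {μ : Fin (l + 1 + 1) → ℝ} {u : ℝ → ℝ}
  {B : Fin (l + 1 + 1) → ℝ≥0 → Ω → ℝ} {G : (Fin (l + 1) → ℝ) → ℝ≥0 → Ω → Fin (l + 1) → ℝ}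

theorem bcf_zero {n : ℕ} {μ : Fin (n + 1) → ℝ} (hu : Pot u) (hμ : ∀ i : Fin n, μ i.succ < μ i.castSucc)
    (g : (Fin n → ℝ) →ᵇ ℝ) (hg : ∫ x, g x * g x ∂(PI u μ) ≤ 0) : g = 0 := by
  have hp : IsProbabilityMeasure (PI u μ) := PI_prob hu hμ
  have h0 : ∫ x, g x * g x ∂(PI u μ) = 0 := le_antisymm hg (integral_nonneg fun x => mul_self_nonneg _)
  have h1 := (integral_eq_zero_iff_of_nonneg (μ := PI u μ) (f := fun x => g x * g x)
    (fun x => mul_self_nonneg _) ((g * g).integrable (PI u μ))).mp h0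
  ext x
  by_contra hx
  have hO : IsOpen {y : Fin n → ℝ | g y ≠ 0} := isOpen_ne_fun g.continuous continuous_const
  have h2 := PI_open hu hμ {y : Fin n → ℝ | g y ≠ 0} hO ⟨x, hx⟩
  have h3 : PI u μ {y : Fin n → ℝ | g y ≠ 0} = 0 := by
    have h4 : PI u μ {y : Fin n → ℝ | ¬ (fun x => g x * g x) y = (0 : (Fin n → ℝ) → ℝ) y} = 0 := h1
    refine measure_mono_null (fun y hy => ?_) h4
    show ¬ g y * g y = 0
    exact fun h => hy (mul_self_eq_zero.mp h)
  rw [h3] at h2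
  exact lt_irrefl _ h2

theorem nl_decay (S : Sys P (l + 1) μ u B G) (hπ : IsStat P G (PI u μ)) [∀ i, IsProbabilityMeasure (nf u μ i)]
    (t : ℝ≥0) (f : (Fin (l + 1) → ℝ) →ᵇ ℝ) :
    NL (nf u μ) (ptb S t f) (ptb S t f) ≤
      Real.exp (-(2 * gap u (rel μ (Fin.last l)) * t)) * NL (nf u μ) f f :=
  decay S hπ (nl_frm (nf u μ)) (nl_frm (nf u μ)) (gap_nonneg u _) (fun φ hφ => nla S.pot S.mu hφ) Set.univ
    (fun f _ => le_rfl) (fun t f _ => mem_univ _) (fun α hα f _ => mem_univ _) t (mem_univ f)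

theorem msub_ptb (S : Sys P (l + 1) μ u B G) (hπ : IsStat P G (PI u μ)) [∀ i, IsProbabilityMeasure (nf u μ i)]
    (t : ℝ≥0) {f : (Fin (l + 1) → ℝ) →ᵇ ℝ} (hf : ql (nf u μ) f = 0) : ql (nf u μ) (ptb S t f) = 0 := by
  have h1 := nl_decay S hπ t f
  have h2 : NL (nf u μ) f f = 0 := by
    unfold NL
    rw [hf]
    simp
  rw [h2, mul_zero] at h1
  exact bcf_zero S.pot S.mu _ h1

theorem msub_rs (S : Sys P (l + 1) μ u B G) (hπ : IsStat P G (PI u μ)) [∀ i, IsProbabilityMeasure (nf u μ i)]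
    {α : ℝ} (hα : 0 < α) {f : (Fin (l + 1) → ℝ) →ᵇ ℝ} (hf : ql (nf u μ) f = 0) :
    ql (nf u μ) (rs S hα f) = 0 := by
  have h1 := decay_res S hπ (nl_frm (nf u μ)) (nl_frm (nf u μ)) (gap_nonneg u (rel μ (Fin.last l)))
    (fun φ hφ => nla S.pot S.mu hφ) hα f
  have h2 : NL (nf u μ) f f = 0 := by
    unfold NL
    rw [hf]
    simp
  rw [h2, mul_zero] at h1
  exact bcf_zero S.pot S.mu _ h1

end Pool.Agent.SGP
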