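import Pool.Agent.SGP.TRM

/-!
# MON: for convex `U'` the gap is non-decreasing in `m`

Proofs. `T` from `exists_T`, `ρ = dn u m`, `ρ' = dn u m'`, `E x = ρ' (T x) - ρ x`, `T' x = ρ x / ρ' (T x)`.
(`contraction`) claim `E ≥ 0`. `E → 0` at `±∞` (`dn_tendsto_top`, `dn_tendsto_bot`, `T → ±∞`), `E` is differentiable with
`E' x = -(m' - u (T x)) ρ' (T x) T' x + (m - u x) ρ x = -ρ x * a x`, `a x = (m' - m) - (u (T x) - u x)`. Suppose `E < 0`
somewhere; then `E` has a global minimum at some `x0`, `E x0 < 0`, `a x0 = 0`. On any interval where `E < 0`, `T' > 1`, so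
`T x2 - T x1 ≥ x2 - x1` for `x1 < x2` (mean value), and `a x1 ≤ a x2`: `u (T x1) - u (T x2) ≥ u (T x2 - (x2 - x1)) - u (T x2) ≥
u (x2 - (x2 - x1)) - u x2 = u x1 - u x2` (`u` antitone; convexity and `T x2 ≤ x2`). Let `β = inf {x ≥ x0 | 0 ≤ E x}` (if the set
is non-empty, `E β ≥ 0` and `E < 0` on `[x0, β)`). On `[x0, β)`: `a ≥ 0`, so `E' ≤ 0` and `E ≤ E x0 < 0`, by continuity `E β < 0`,
contradiction. So `E < 0` on `[x0, ∞)`, `E ≤ E x0 < 0` there, contradicting `E → 0`. (`u` convex, `u ≥ 0`, `u → 0` at `+∞` imply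
`u` antitone on `ℝ`.)
(`gap_mono`) for `f` `C^1` with compact support put `h = f ∘ T` (`C^1`: `T` has a continuous derivative; compact support:
`T → ±∞`). `vr (nu u m) h = vr (nu u m') f` and `∫ h'^2 d(nu m) = ∫ f'(T x)^2 T'(x)^2 ≤ ∫ f'(T x)^2 d(nu m) = ∫ f'^2 d(nu m')`
(`integral_map` with `map_T`, `0 < T' ≤ 1`). So `gap u m * vr (nu u m') f ≤ ∫ f'^2 d(nu u m')` by `poincare`, and
`le_csInf` (`gap_set_nonempty`) gives `gap u m ≤ gap u m'`.
-/

open MeasureTheory ProbabilityTheory Set Filter Topology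
open scoped ENNReal NNReal

namespace Pool.Agent.SGP

variable {u : ℝ → ℝ} {m m' : ℝ}

theorem pot_antitone (hu : Pot u) (hc : ConvexOn ℝ univ u) : Antitone u := by
  intro x y hxy
  rcases hxy.eq_or_lt with h | h
  · rw [h]
  by_contra hlt
  have hlt' : u x < u y := not_le.mp hlt
  have hy0 : 0 < u y := lt_of_le_of_lt (hu.nonneg x) hlt'
  have h1 : ∀ᶠ t in atTop, u t < u y := hu.top.eventually (gt_mem_nhds hy0)
  obtain ⟨t, ht1, ht2⟩ := (h1.and (eventually_gt_atTop y)).exists
  have h2 := hc.slope_mono_adjacent (mem_univ x) (mem_univ t) h ht2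
  have h3 : 0 < (u y - u x) / (y - x) := div_pos (by linarith) (by linarith)
  have h4 : 0 < (u t - u y) / (t - y) := lt_of_lt_of_le h3 h2
  have h5 : 0 < u t - u y := by
    by_contra h6
    have h7 : u t - u y ≤ 0 := not_lt.mp h6
    have h8 : (u t - u y) / (t - y) ≤ 0 := div_nonpos_of_nonpos_of_nonneg h7 (by linarith)
    linarith
  linarith

theorem convex_incr (hc : ConvexOn ℝ univ u) {a b d : ℝ} (hab : a ≤ b) (hd : 0 ≤ d) :
    u (a + d) - u a ≤ u (b + d) - u b := by
  rcases (add_nonneg (sub_nonneg.mpr hab) hd).eq_or_lt with h | h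
  · have h1 : a = b := by linarith
    rw [h1]
  · obtain ⟨l, hl⟩ : ∃ l, l = d / (b - a + d) := ⟨_, rfl⟩
    have hl0 : 0 ≤ l := by rw [hl]; positivity
    have hl1 : 0 ≤ 1 - l := by
      rw [hl, sub_nonneg, div_le_one h]
      linarith
    have hld : l * (b - a + d) = d := by rw [hl]; exact div_mul_cancel₀ _ h.ne'
    have h1 := hc.2 (mem_univ a) (mem_univ (b + d)) hl1 hl0 (by ring)
    have h2 := hc.2 (mem_univ a) (mem_univ (b + d)) hl0 hl1 (by ring)
    simp only [smul_eq_mul] at h1 h2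
    have e1 : (1 - l) * a + l * (b + d) = a + d := by
      have : (1 - l) * a + l * (b + d) = a + l * (b - a + d) := by ring
      rw [this, hld]
    have e2 : l * a + (1 - l) * (b + d) = b := by
      have : l * a + (1 - l) * (b + d) = b + d - l * (b - a + d) := by ring
      rw [this, hld]
      ring
    rw [e1] at h1
    rw [e2] at h2
    linarith

theorem contraction (hu : Pot u) (hc : ConvexOn ℝ univ u) (hm : 0 < m) (hmm : m < m') {T : ℝ → ℝ}
    (hT1 : StrictMono T) (hT2 : Continuous T) (hT3 : Tendsto T atTop atTop) (hT4 : Tendsto T atBot atBot)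
    (hT5 : ∀ x, T x ≤ x) (hT6 : ∀ x, HasDerivAt T (dn u m x / dn u m' (T x)) x) (x : ℝ) :
    dn u m x ≤ dn u m' (T x) := by
  have hm' : 0 < m' := hm.trans hmm
  have hanti := pot_antitone hu hc
  have hr : ∀ x, 0 < dn u m x := fun x => dn_pos hu hm x
  have hr' : ∀ x, 0 < dn u m' x := fun x => dn_pos hu hm' x
  obtain ⟨E, hE⟩ : ∃ E : ℝ → ℝ, E = fun x => dn u m' (T x) - dn u m x := ⟨_, rfl⟩
  have hEx : ∀ x, E x = dn u m' (T x) - dn u m x := fun x => by rw [hE]
  have hEd : ∀ x, HasDerivAt E (-(dn u m x * ((m' - m) - (u (T x) - u x)))) x := by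
    intro x
    have h1 : HasDerivAt (fun x => dn u m' (T x)) (-(m' - u (T x)) * dn u m' (T x) * (dn u m x / dn u m' (T x))) x :=
      (dn_hasDerivAt hu m' (T x)).comp x (hT6 x)
    have h2 := h1.sub (dn_hasDerivAt hu m x)
    rw [hE]
    refine h2.congr_deriv ?_
    have h3 := (hr' (T x)).ne'
    field_simp
    ring
  have hEc : Continuous E := continuous_iff_continuousAt.mpr fun x => (hEd x).continuousAt
  have htop : Tendsto E atTop (𝓝 0) := by
    have h1 := ((dn_tendsto_top hu hm').comp hT3).sub (dn_tendsto_top hu hm)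
    rw [sub_zero] at h1
    rw [hE]
    exact h1
  have hbot : Tendsto E atBot (𝓝 0) := by
    have h1 := ((dn_tendsto_bot hu hm').comp hT4).sub (dn_tendsto_bot hu hm)
    rw [sub_zero] at h1
    rw [hE]
    exact h1
  by_contra hneg
  have hx1 : E x < 0 := by
    rw [hEx]
    have := not_le.mp hneg
    linarith
  obtain ⟨x0, hx0⟩ : ∃ x0, ∀ y, E x0 ≤ E y := by
    refine hEc.exists_forall_le' x ?_
    rw [cocompact_eq_atBot_atTop, eventually_sup]
    exact ⟨(hbot.eventually (lt_mem_nhds hx1)).mono fun _ h => h.le,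
      (htop.eventually (lt_mem_nhds hx1)).mono fun _ h => h.le⟩
  have hE0 : E x0 < 0 := lt_of_le_of_lt (hx0 x) hx1
  have ha0 : (m' - m) - (u (T x0) - u x0) = 0 := by
    have h1 : IsLocalMin E x0 := Eventually.of_forall fun y => hx0 y
    have h2 := h1.hasDerivAt_eq_zero (hEd x0)
    rw [neg_eq_zero, mul_eq_zero] at h2
    rcases h2 with h2 | h2
    · exact absurd h2 (hr x0).ne'
    · exact h2
  -- the key step
  have key : ∀ b, x0 ≤ b → (∀ y ∈ Ico x0 b, E y < 0) → E b ≤ E x0 := by
    intro b hb hneg'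
    have hant : AntitoneOn E (Icc x0 b) := by
      refine antitoneOn_of_deriv_nonpos (convex_Icc x0 b) hEc.continuousOn
        (fun y _ => (hEd y).differentiableAt.differentiableWithinAt) fun y hy => ?_
      rw [interior_Icc] at hy
      rw [(hEd y).deriv, neg_nonpos]
      refine mul_nonneg (hr y).le ?_
      have hmono : MonotoneOn (fun z => T z - z) (Icc x0 y) := by
        refine monotoneOn_of_deriv_nonneg (convex_Icc x0 y) (hT2.sub continuous_id).continuousOn
          (fun z _ => ((hT6 z).sub (hasDerivAt_id z)).differentiableAt.differentiableWithinAt) fun z hz => ?_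
        rw [interior_Icc] at hz
        have h1 : HasDerivAt (fun z => T z - z) (dn u m z / dn u m' (T z) - 1) z := (hT6 z).sub (hasDerivAt_id z)
        rw [h1.deriv, sub_nonneg, one_le_div (hr' _)]
        have h2 := hneg' z ⟨hz.1.le, hz.2.trans hy.2⟩
        rw [hEx] at h2
        linarith
      have h3 := hmono (left_mem_Icc.mpr hy.1.le) (right_mem_Icc.mpr hy.1.le) hy.1.le
      have h4 : T x0 + (y - x0) ≤ T y := by
        have : T x0 - x0 ≤ T y - y := h3
        linarith
      have h5 := hanti h4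
      have h6 := convex_incr hc (hT5 x0) (sub_nonneg.mpr hy.1.le)
      have h7 : x0 + (y - x0) = y := by ring
      rw [h7] at h6
      linarith
    exact hant (left_mem_Icc.mpr hb) (right_mem_Icc.mpr hb) hb
  have hall : ∀ y, x0 ≤ y → E y < 0 := by
    by_contra hcon
    push Not at hcon
    obtain ⟨y1, hy1, hy2⟩ := hcon
    obtain ⟨S, hS⟩ : ∃ S : Set ℝ, S = Ici x0 ∩ E ⁻¹' (Ici 0) := ⟨_, rfl⟩
    have hSc : IsClosed S := by
      rw [hS]
      exact isClosed_Ici.inter (isClosed_Ici.preimage hEc)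
    have hSn : S.Nonempty := ⟨y1, by rw [hS]; exact ⟨hy1, hy2⟩⟩
    have hSb : BddBelow S := ⟨x0, fun z hz => by rw [hS] at hz; exact hz.1⟩
    have hβ := hSc.csInf_mem hSn hSb
    obtain ⟨β, hβe⟩ : ∃ β, β = sInf S := ⟨_, rfl⟩
    rw [← hβe] at hβ
    have hβ' : β ∈ Ici x0 ∩ E ⁻¹' (Ici 0) := by rw [← hS]; exact hβ
    have h1 : ∀ y ∈ Ico x0 β, E y < 0 := by
      intro y hy
      by_contra h2
      have h3 : y ∈ S := by
        rw [hS]
        exact ⟨hy.1, not_lt.mp h2⟩
      have h4 := csInf_le hSb h3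
      rw [← hβe] at h4
      exact absurd hy.2 (not_lt.mpr h4)
    have h2 := key β hβ'.1 h1
    have h3 : 0 ≤ E β := hβ'.2
    linarith
  have hle : ∀ y, x0 ≤ y → E y ≤ E x0 := fun y hy => key y hy fun z hz => hall z hz.1
  have h1 : ∀ᶠ y in atTop, E x0 < E y := htop.eventually (lt_mem_nhds hE0)
  obtain ⟨y, hy1, hy2⟩ := (h1.and (eventually_ge_atTop x0)).exists
  exact absurd hy1 (not_lt.mpr (hle y hy2))

theorem gap_mono (hu : Pot u) (hc : ConvexOn ℝ univ u) (hm : 0 < m) (hmm : m ≤ m') : gap u m ≤ gap u m' := by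
  rcases hmm.eq_or_lt with h | hmm
  · rw [h]
  have hm' : 0 < m' := hm.trans hmm
  obtain ⟨T, hT1, hT2, hT3, hT4, hT5, hT6, hT7⟩ := exists_T hu hm hmm
  have hcon := contraction hu hc hm hmm hT1 hT2 hT3 hT4 hT5 hT6
  have hr : ∀ x, 0 < dn u m x := fun x => dn_pos hu hm x
  have hr' : ∀ x, 0 < dn u m' x := fun x => dn_pos hu hm' x
  have hp := nu_prob hu hm
  have hp' := nu_prob hu hm'
  have hTd : deriv T = fun x => dn u m x / dn u m' (T x) := funext fun x => (hT6 x).deriv
  have hTdc : Continuous fun x => dn u m x / dn u m' (T x) :=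
    (dn_cont hu m).div₀ ((dn_cont hu m').comp hT2) fun x => (hr' _).ne'
  have hTC : ContDiff ℝ 1 T := by
    rw [contDiff_one_iff_deriv, hTd]
    exact ⟨fun x => (hT6 x).differentiableAt, hTdc⟩
  refine le_csInf (gap_set_nonempty hu hm') ?_
  rintro r ⟨f, hf, hfc, hv, rfl⟩
  rw [le_div_iff₀ hv]
  have hh : ContDiff ℝ 1 fun x => f (T x) := hf.comp hTC
  have hhc : HasCompactSupport fun x => f (T x) := by
    obtain ⟨R, hR⟩ := hfc.isBounded.exists_norm_le
    have hout : ∀ y, R < |y| → f y = 0 := by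
      intro y hy
      by_contra h
      have := hR y (subset_tsupport f h)
      rw [Real.norm_eq_abs] at this
      linarith
    obtain ⟨A, hA⟩ := eventually_atTop.mp (hT3.eventually (eventually_gt_atTop R))
    obtain ⟨A', hA'⟩ := eventually_atBot.mp (hT4.eventually (eventually_lt_atBot (-R)))
    refine HasCompactSupport.intro (K := Icc A' A) isCompact_Icc fun x hx => ?_
    refine hout _ ?_
    by_cases h1 : x < A'
    · have := hA' x h1.le
      have h2 := neg_abs_le (T x)
      linarith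
    · have h2 : A < x := by
        by_contra h3
        exact hx ⟨not_lt.mp h1, not_lt.mp h3⟩
      have := hA x h2.le
      have h3 := le_abs_self (T x)
      linarith
  have h1 := poincare u m hh hhc
  have hTm : AEMeasurable T (nu u m) := hT2.measurable.aemeasurable
  have hint : ∀ {F : ℝ → ℝ}, Continuous F → ∫ y, F y ∂(nu u m') = ∫ x, F (T x) ∂(nu u m) := by
    intro F hF
    rw [← hT7, integral_map hTm hF.aestronglyMeasurable]
  have e1 : vr (nu u m') f = vr (nu u m) fun x => f (T x) := by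
    unfold vr
    rw [hint hf.continuous]
    exact hint ((hf.continuous.sub continuous_const).pow 2)
  have hfd : Continuous (deriv f) := hf.continuous_deriv (by simp)
  have e2 : ∀ x, deriv (fun x => f (T x)) x = deriv f (T x) * (dn u m x / dn u m' (T x)) := by
    intro x
    have h2 : HasDerivAt f (deriv f (T x)) (T x) := (hf.differentiable (by simp) _).hasDerivAt
    exact (h2.comp x (hT6 x)).deriv
  have e3 : ∫ y, deriv f y ^ 2 ∂(nu u m') = ∫ x, deriv f (T x) ^ 2 ∂(nu u m) := hint (hfd.pow 2)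
  have hbd : ∃ M, ∀ y, ‖deriv f y ^ 2‖ ≤ M := by
    have hs : HasCompactSupport fun y => deriv f y ^ 2 := by
      have h2 : HasCompactSupport fun y => deriv f y * deriv f y := (hfc.deriv).mul_left
      have h3 : (fun y => deriv f y ^ 2) = fun y => deriv f y * deriv f y := funext fun y => sq _
      rw [h3]
      exact h2
    exact hs.exists_bound_of_continuous (hfd.pow 2)
  have i1 : Integrable (fun x => deriv f (T x) ^ 2) (nu u m) := by
    obtain ⟨M, hM⟩ := hbd
    exact Integrable.of_bound ((hfd.comp hT2).pow 2).aestronglyMeasurable M (Eventually.of_forall fun x => hM _)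
  rw [e1, e3]
  refine h1.trans ?_
  refine integral_mono_of_nonneg (Eventually.of_forall fun x => sq_nonneg _) i1 (Eventually.of_forall fun x => ?_)
  show deriv (fun x => f (T x)) x ^ 2 ≤ deriv f (T x) ^ 2
  rw [e2, mul_pow]
  have h2 : dn u m x / dn u m' (T x) ≤ 1 := (div_le_one (hr' _)).mpr (hcon x)
  have h3 : 0 ≤ dn u m x / dn u m' (T x) := div_nonneg (hr x).le (hr' _).le
  have h4 : (dn u m x / dn u m' (T x)) ^ 2 ≤ 1 := pow_le_one₀ h3 h2
  nlinarith [sq_nonneg (deriv f (T x))]

end Pool.Agent.SGP
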