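import Pool.Agent.SGP.MNV

/-!
# NLS: decay with the exact rate of the last coordinate

`λ = gap_l < gap_i` for all `i < l`. `ql f = pq l l f`, so `NNM f f = NNX f f + M^(2l) NL f f`, `NNX (f - ql f) = NNX f`,
`NNM (f - ql f) = NNX f`. Let `γ > λ` be a lower bound of `gap_i`, `i < l`, and `M ≥ 36` with
`ρ = (1 - 6/√M)(λ + γ)/2 > λ`. `nin` gives `NNM (LL φ) φ ≤ -ρ NNX φ φ`; `decay` on `{ql f = 0}`.
With `a_k = √(NL f_k f_k)`, `s_k = √(NNX f_k f_k)`, `f_k = ptb k f`: `a_k ≤ exp (-λ k) a_0`,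
`s_{k+1} ≤ √C0 a_k + exp (-ρ) s_k`, hence `s_k ≤ exp (-λ k) (s_0 + A a_0)`.
-/

open MeasureTheory ProbabilityTheory Set Filter Topology
open scoped ENNReal NNReal BoundedContinuousFunction

namespace Pool.Agent.SGP

open Pool.Agent.OYG

section alg

variable {l : ℕ} (ν : Fin (l + 1) → Measure ℝ) [∀ i, IsProbabilityMeasure (ν i)]

private theorem nls_ql (f : (Fin (l + 1) → ℝ) →ᵇ ℝ) : ql ν f = pq ν l l f := by
  have e1 : ∀ g : (Fin (l + 1) → ℝ) →ᵇ ℝ, Pp ν (l + 1) g = g := by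
    intro g
    have : (Finset.univ.filter fun i : Fin (l + 1) => (i : ℕ) < l + 1) = Finset.univ := by
      ext i
      have := i.2
      simp
      omega
    unfold Pp
    rw [this, es_univ]
  have e2 : ∀ c, l ≤ c → Pp ν l (Qtl ν c f) = ES ν ∅ f := by
    intro c hc
    unfold Pp Qtl
    rw [es_comp]
    congr 2
    ext i
    simp
    omega
  show Qtl ν l f - Qtl ν (l + 1) f =
    Pp ν (l + 1) (Qtl ν l f - Qtl ν (l + 1) f) - Pp ν l (Qtl ν l f - Qtl ν (l + 1) f)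
  rw [e1, map_sub, e2 l le_rfl, e2 (l + 1) (by omega), sub_self, sub_zero]

private theorem nls_ql_ql (f : (Fin (l + 1) → ℝ) →ᵇ ℝ) : ql ν (ql ν f) = ql ν f := by
  rw [nls_ql, nls_ql, pq_idem]

private theorem nls_ql_r (f : (Fin (l + 1) → ℝ) →ᵇ ℝ) : ql ν (f - ql ν f) = 0 := by
  rw [map_sub, nls_ql_ql, sub_self]

private theorem nls_nnm (M : ℝ) (f : (Fin (l + 1) → ℝ) →ᵇ ℝ) :
    NNM ν M f f = NNX ν M l f f + M ^ (l + l) * NL ν f f := by
  unfold NNM NNX NL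
  rw [nls_ql]
  have h : ∀ a ∈ Finset.range (l + 1), ∀ b ∈ Finset.range (l + 1),
      M ^ (a + b) * ∫ x, pq ν a b f x * pq ν a b f x ∂(Measure.pi ν) =
      (if a = l ∧ b = l then 0 else M ^ (a + b) * ∫ x, pq ν a b f x * pq ν a b f x ∂(Measure.pi ν)) +
      (if a = l ∧ b = l then M ^ (a + b) * ∫ x, pq ν a b f x * pq ν a b f x ∂(Measure.pi ν) else 0) := by
    intro a _ b _
    split_ifs
    · rw [zero_add]
    · rw [add_zero]
  rw [Finset.sum_congr rfl fun a ha => Finset.sum_congr rfl fun b hb => h a ha b hb]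
  simp only [Finset.sum_add_distrib]
  congr 1
  rw [Finset.sum_eq_single l, Finset.sum_eq_single l]
  · simp
  · intro b _ hb
    simp [hb]
  · intro h
    simp at h
  · intro a _ ha
    refine Finset.sum_eq_zero fun b _ => ?_
    simp [ha]
  · intro h
    simp at h

private theorem nls_nnx_r (M : ℝ) (f : (Fin (l + 1) → ℝ) →ᵇ ℝ) :
    NNX ν M l (f - ql ν f) (f - ql ν f) = NNX ν M l f f := by
  unfold NNX
  refine Finset.sum_congr rfl fun a _ => Finset.sum_congr rfl fun b _ => ?_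
  split_ifs with h
  · rfl
  · have h1 : pq ν a b (f - ql ν f) = pq ν a b f := by
      rw [map_sub, nls_ql, pq_orth ν (a := a) (b := b) (a' := l) (b' := l) (fun e => h (by
        rw [Prod.mk.injEq] at e
        exact e)), sub_zero]
    rw [h1]

private theorem nls_nl0 {f : (Fin (l + 1) → ℝ) →ᵇ ℝ} (hf : ql ν f = 0) : NL ν f f = 0 := by
  unfold NL
  rw [hf]
  simp

private theorem nls_nnm_r (M : ℝ) (f : (Fin (l + 1) → ℝ) →ᵇ ℝ) :
    NNM ν M (f - ql ν f) (f - ql ν f) = NNX ν M l f f := by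
  rw [nls_nnm, nls_nl0 ν (nls_ql_r ν f), nls_nnx_r, mul_zero, add_zero]

private theorem nls_nnx_le {M : ℝ} (hM : 0 ≤ M) (f : (Fin (l + 1) → ℝ) →ᵇ ℝ) :
    NNX ν M l f f ≤ NNM ν M f f := by
  rw [nls_nnm]
  have h1 : 0 ≤ NL ν f f := integral_nonneg fun x => mul_self_nonneg _
  have h2 : 0 ≤ M ^ (l + l) := pow_nonneg hM _
  have := mul_nonneg h2 h1
  linarith

end alg

private theorem nls_tri {n : ℕ} {π : Measure (Fin n → ℝ)} {N : ((Fin n → ℝ) →ᵇ ℝ) → ((Fin n → ℝ) →ᵇ ℝ) → ℝ}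
    (hN : Frm π N) (f g : (Fin n → ℝ) →ᵇ ℝ) : √(N (f + g) (f + g)) ≤ √(N f f) + √(N g g) := by
  have h1 : N (f + g) (f + g) = N f f + 2 * N f g + N g g := by
    rw [hN.add, hN.symm f (f + g), hN.symm g (f + g), hN.add, hN.add, hN.symm g f]
    ring
  have h2 : |N f g| ≤ √(N f f * N g g) := Real.abs_le_sqrt (frm_cs hN f g)
  rw [Real.sqrt_mul (hN.pos f)] at h2
  have h3 := le_abs_self (N f g)
  refine Real.sqrt_le_iff.mpr ⟨by positivity, ?_⟩
  rw [h1, add_sq, Real.sq_sqrt (hN.pos f), Real.sq_sqrt (hN.pos g)]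
  linarith

private theorem nls_min {ι : Type*} [DecidableEq ι] (s : Finset ι) (g : ι → ℝ) (c : ℝ) (h : ∀ i ∈ s, c < g i) :
    ∃ γ, c < γ ∧ ∀ i ∈ s, γ ≤ g i := by
  induction s using Finset.induction_on with
  | empty => exact ⟨c + 1, by linarith, fun i hi => absurd hi (Finset.notMem_empty i)⟩
  | insert a s ha ih =>
    obtain ⟨γ, h1, h2⟩ := ih fun i hi => h i (Finset.mem_insert_of_mem hi)
    refine ⟨min γ (g a), lt_min h1 (h a (Finset.mem_insert_self a s)), fun i hi => ?_⟩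
    rcases Finset.mem_insert.mp hi with e | e
    · rw [e]
      exact min_le_right _ _
    · exact (min_le_left _ _).trans (h2 i e)

private theorem nls_M {c γ : ℝ} (hc : 0 < c) (h : c < γ) : ∃ M : ℝ, 36 ≤ M ∧ c < (1 - 6 / √M) * ((c + γ) / 2) := by
  have hd : 0 < γ - c := by linarith
  have hs : 0 < γ + c := by linarith
  set R := 12 * (γ + c) / (γ - c) + 6 with hR
  have hR6 : 6 ≤ R := by
    have : 0 ≤ 12 * (γ + c) / (γ - c) := by positivity
    linarith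
  refine ⟨R ^ 2, by nlinarith, ?_⟩
  rw [Real.sqrt_sq (by linarith)]
  have h1 : 12 * (γ + c) < R * (γ - c) := by
    have e : R * (γ - c) = 12 * (γ + c) + 6 * (γ - c) := by
      rw [hR, add_mul, div_mul_cancel₀ _ hd.ne']
    rw [e]
    linarith
  have h2 : 6 / R * R = 6 := div_mul_cancel₀ _ (by linarith)
  have h3 : 6 / R * (c + γ) < γ - c := by
    have hRp : 0 < R := by linarith
    have : R * (6 / R * (c + γ)) < R * (γ - c) := by
      calc R * (6 / R * (c + γ)) = 6 / R * R * (c + γ) := by ring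
        _ = 6 * (c + γ) := by rw [h2]
        _ < R * (γ - c) := by linarith
    exact lt_of_mul_lt_mul_left this hRp.le
  linarith

variable {l : ℕ} {Ω : Type*} [MeasurableSpace Ω] {P : Measure Ω} {μ : Fin (l + 1 + 1) → ℝ} {u : ℝ → ℝ}
  {B : Fin (l + 1 + 1) → ℝ≥0 → Ω → ℝ} {G : (Fin (l + 1) → ℝ) → ℝ≥0 → Ω → Fin (l + 1) → ℝ}

private theorem nls_gen (hu : Pot u) (hμ : ∀ i : Fin (l + 1), μ i.succ < μ i.castSucc)
    [∀ i, IsProbabilityMeasure (nf u μ i)] {M γ : ℝ} (hM : 36 ≤ M)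
    (hγ : gap u (rel μ (Fin.last l)) < γ) (hγ2 : ∀ i : Fin (l + 1), i ≠ Fin.last l → γ ≤ gap u (rel μ i))
    {φ : (Fin (l + 1) → ℝ) → ℝ} (hφ : IsTest φ) :
    NNM (nf u μ) M (Lb hu μ hφ) (tb hφ) ≤
      -((1 - 6 / √M) * ((gap u (rel μ (Fin.last l)) + γ) / 2) * NNX (nf u μ) M l (tb hφ) (tb hφ)) := by
  refine (nin hu hμ hM hφ).trans ?_
  have hq : 0 ≤ 1 - 6 / √M := by
    have h1 : 6 ≤ √M := Real.le_sqrt_of_sq_le (by linarith)
    have h2 : 6 / √M ≤ 1 := (div_le_one (by linarith)).mpr h1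
    linarith
  rw [neg_le_neg_iff, mul_assoc]
  refine mul_le_mul_of_nonneg_left ?_ hq
  unfold NNX
  rw [Finset.mul_sum]
  refine Finset.sum_le_sum fun a ha => ?_
  rw [Finset.mul_sum]
  refine Finset.sum_le_sum fun b hb => ?_
  rw [Finset.mem_range] at ha hb
  have hMp : 0 ≤ M ^ (a + b) := pow_nonneg (by linarith) _
  have hI : 0 ≤ ∫ x, pq (nf u μ) a b (tb hφ) x ^ 2 ∂(PI u μ) := integral_nonneg fun x => sq_nonneg _
  have hga : gpn u μ a = gap u (rel μ ⟨a, ha⟩) := dif_pos ha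
  have hgb : gpn u μ b = gap u (rel μ ⟨b, hb⟩) := dif_pos hb
  split_ifs with h
  · rw [mul_zero]
    have h1 := gap_nonneg u (rel μ ⟨a, ha⟩)
    have h2 := gap_nonneg u (rel μ ⟨b, hb⟩)
    rw [hga, hgb]
    exact mul_nonneg (mul_nonneg hMp (by linarith)) hI
  · rcases lt_or_ge b a with hab | hab
    · rw [pq_gt (nf u μ) hab]
      simp
    · have hal : a < l := by
        by_contra hc
        exact h ⟨by omega, by omega⟩
      have h1 : γ ≤ gap u (rel μ ⟨a, ha⟩) := hγ2 _ (by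
        intro e
        have := congrArg Fin.val e
        simp at this
        omega)
      have h2 : gap u (rel μ (Fin.last l)) ≤ gap u (rel μ ⟨b, hb⟩) := by
        by_cases e : (⟨b, hb⟩ : Fin (l + 1)) = Fin.last l
        · rw [e]
        · exact hγ.le.trans (hγ2 _ e)
      have e1 : ∫ x, pq (nf u μ) a b (tb hφ) x * pq (nf u μ) a b (tb hφ) x ∂(Measure.pi (nf u μ)) =
          ∫ x, pq (nf u μ) a b (tb hφ) x ^ 2 ∂(PI u μ) := by
        refine integral_congr_ae (Eventually.of_forall fun x => ?_)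
        show _ = _
        ring
      rw [e1, hga, hgb]
      have h3 : (gap u (rel μ (Fin.last l)) + γ) / 2 ≤ (gap u (rel μ ⟨a, ha⟩) + gap u (rel μ ⟨b, hb⟩)) / 2 := by
        linarith
      have h4 := mul_le_mul_of_nonneg_left h3 (mul_nonneg hMp hI)
      linarith

/-- one step -/
private theorem nls_step (S : Sys P (l + 1) μ u B G) (hπ : IsStat P G (PI u μ))
    [∀ i, IsProbabilityMeasure (nf u μ i)] {M γ C0 : ℝ} (hM : 36 ≤ M)
    (hγ : gap u (rel μ (Fin.last l)) < γ) (hγ2 : ∀ i : Fin (l + 1), i ≠ Fin.last l → γ ≤ gap u (rel μ i))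
    (hC0 : 0 ≤ C0) (hC : ∀ f, NNX (nf u μ) M l f f ≤ C0 * ∫ x, f x ^ 2 ∂(PI u μ))
    (g : (Fin (l + 1) → ℝ) →ᵇ ℝ) :
    √(NNX (nf u μ) M l (ptb S 1 g) (ptb S 1 g)) ≤ √C0 * √(NL (nf u μ) g g) +
      Real.exp (-((1 - 6 / √M) * ((gap u (rel μ (Fin.last l)) + γ) / 2))) * √(NNX (nf u μ) M l g g) := by
  set ρ := (1 - 6 / √M) * ((gap u (rel μ (Fin.last l)) + γ) / 2) with hρ
  have hM0 : (0 : ℝ) ≤ M := by linarith
  have hX := nnx_frm (nf u μ) hM0 l
  have hN := nnm_frm (nf u μ) hM0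
  have hq : 0 ≤ 1 - 6 / √M := by
    have h1 : 6 ≤ √M := Real.le_sqrt_of_sq_le (by linarith)
    have h2 : 6 / √M ≤ 1 := (div_le_one (by linarith)).mpr h1
    linarith
  have hρ0 : 0 ≤ ρ := by
    have := gap_nonneg u (rel μ (Fin.last l))
    exact mul_nonneg hq (by linarith)
  set ν := nf u μ with hν
  have e : ptb S 1 g = ptb S 1 (ql ν g) + ptb S 1 (g - ql ν g) := by
    rw [← ptb_add]
    congr 1
    abel
  have h1 := nls_tri hX (ptb S 1 (ql ν g)) (ptb S 1 (g - ql ν g))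
  rw [← e] at h1
  have h2 : √(NNX ν M l (ptb S 1 (ql ν g)) (ptb S 1 (ql ν g))) ≤ √C0 * √(NL ν g g) := by
    rw [← Real.sqrt_mul hC0]
    refine Real.sqrt_le_sqrt ((hC _).trans (mul_le_mul_of_nonneg_left ?_ hC0))
    refine (contr S hπ 1 (ql ν g)).trans (le_of_eq ?_)
    refine integral_congr_ae (Eventually.of_forall fun x => ?_)
    show _ = _
    ring
  have h3 : √(NNX ν M l (ptb S 1 (g - ql ν g)) (ptb S 1 (g - ql ν g))) ≤ Real.exp (-ρ) * √(NNX ν M l g g) := by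
    have h4 := decay S hπ hN hX hρ0 (fun φ hφ => nls_gen S.pot S.mu hM hγ hγ2 hφ) {f | ql ν f = 0}
      (fun f hf => by
        rw [nls_nnm, nls_nl0 ν hf, mul_zero, add_zero])
      (fun t f hf => msub_ptb S hπ t hf) (fun α hα f hf => msub_rs S hπ hα hf) 1
      (f := g - ql ν g) (nls_ql_r ν g)
    rw [nls_nnm_r] at h4
    have h5 := (nls_nnx_le ν hM0 (ptb S 1 (g - ql ν g))).trans h4
    have e2 : Real.exp (-(2 * ρ * ((1 : ℝ≥0) : ℝ))) = Real.exp (-ρ) ^ 2 := by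
      rw [← Real.exp_nat_mul]
      congr 1
      push_cast
      ring
    rw [e2] at h5
    refine (Real.sqrt_le_sqrt h5).trans (le_of_eq ?_)
    rw [Real.sqrt_mul (sq_nonneg _), Real.sqrt_sq (Real.exp_pos _).le]
  linarith

theorem nls (S : Sys P (l + 1) μ u B G) (hπ : IsStat P G (PI u μ))
    (hlt : ∀ i : Fin (l + 1), i ≠ Fin.last l → gap u (rel μ (Fin.last l)) < gap u (rel μ i))
    (hpos : 0 < gap u (rel μ (Fin.last l))) : ∃ C : ℝ, 0 ≤ C ∧ ∀ (t : ℝ≥0) (f : (Fin (l + 1) → ℝ) →ᵇ ℝ),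
      ∫ x, (ptb S t f x - ∫ y, f y ∂(PI u μ)) ^ 2 ∂(PI u μ) ≤
        C * Real.exp (-(2 * gap u (rel μ (Fin.last l)) * t)) * ∫ x, (f x - ∫ y, f y ∂(PI u μ)) ^ 2 ∂(PI u μ) := by
  have hpr : ∀ i, IsProbabilityMeasure (nf u μ i) := nf_prob S.pot S.mu
  have hp := hπ.prob
  set ν := nf u μ with hν
  set c := gap u (rel μ (Fin.last l)) with hc
  obtain ⟨γ, hγ, hγ2⟩ := nls_min (Finset.univ.filter fun i : Fin (l + 1) => i ≠ Fin.last l)
    (fun i => gap u (rel μ i)) c fun i hi => hlt i (Finset.mem_filter.mp hi).2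
  have hγ3 : ∀ i : Fin (l + 1), i ≠ Fin.last l → γ ≤ gap u (rel μ i) := fun i hi =>
    hγ2 i (Finset.mem_filter.mpr ⟨Finset.mem_univ i, hi⟩)
  obtain ⟨M, hM, hρ⟩ := nls_M hpos hγ
  set ρ := (1 - 6 / √M) * ((c + γ) / 2) with hρd
  have hM0 : (0 : ℝ) ≤ M := by linarith
  have hX := nnx_frm ν hM0 l
  obtain ⟨C0, hC0, hC0b⟩ := hX.bd
  obtain ⟨C1, hC1, hC1b⟩ := (nl_frm ν).bd
  set A := √C0 / (Real.exp (-c) - Real.exp (-ρ)) with hA
  have hex : 0 < Real.exp (-c) - Real.exp (-ρ) := by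
    have : Real.exp (-ρ) < Real.exp (-c) := Real.exp_lt_exp.mpr (by linarith)
    linarith
  have hA0 : 0 ≤ A := div_nonneg (Real.sqrt_nonneg _) hex.le
  have hA1 : √C0 + Real.exp (-ρ) * A = Real.exp (-c) * A := by
    have : (Real.exp (-c) - Real.exp (-ρ)) * A = √C0 := by
      rw [hA, mul_div_cancel₀ _ hex.ne']
    linarith
  set C2 := 2 * C0 + (2 * A ^ 2 + M ^ (l + l)) * C1 with hC2
  have hC20 : 0 ≤ C2 := by positivity
  refine ⟨C2 * Real.exp (2 * c), by positivity, ?_⟩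
  intro t f
  set m := ∫ y, f y ∂(PI u μ) with hm
  set h : (Fin (l + 1) → ℝ) →ᵇ ℝ := f - BoundedContinuousFunction.const _ m with hh
  -- integer steps
  have hak : ∀ k : ℕ, NL ν (ptb S k h) (ptb S k h) ≤ Real.exp (-(c * k)) ^ 2 * NL ν h h := by
    intro k
    refine (nl_decay S hπ (k : ℝ≥0) h).trans (le_of_eq ?_)
    rw [← Real.exp_nat_mul]
    congr 2
    push_cast
    ring
  have hak' : ∀ k : ℕ, √(NL ν (ptb S k h) (ptb S k h)) ≤ Real.exp (-(c * k)) * √(NL ν h h) := by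
    intro k
    refine (Real.sqrt_le_sqrt (hak k)).trans (le_of_eq ?_)
    rw [Real.sqrt_mul (sq_nonneg _), Real.sqrt_sq (Real.exp_pos _).le]
  set s0 := √(NNX ν M l h h) with hs0
  set a0 := √(NL ν h h) with ha0
  have hsk : ∀ k : ℕ, √(NNX ν M l (ptb S k h) (ptb S k h)) ≤ Real.exp (-(c * k)) * (s0 + A * a0) := by
    intro k
    induction k with
    | zero =>
      have : ptb S ((0 : ℕ) : ℝ≥0) h = h := by
        rw [Nat.cast_zero, ptb_zero]
      rw [this]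
      simp only [Nat.cast_zero, mul_zero, neg_zero, Real.exp_zero, one_mul]
      have := mul_nonneg hA0 (Real.sqrt_nonneg (NL ν h h))
      linarith
    | succ k ih =>
      have e : ptb S ((k + 1 : ℕ) : ℝ≥0) h = ptb S 1 (ptb S k h) := by
        rw [← ptb_semigroup]
        congr 1
        push_cast
        ring
      rw [e]
      have h1 := nls_step S hπ hM hγ hγ3 hC0 hC0b (ptb S k h)
      have h2 := mul_le_mul_of_nonneg_left (hak' k) (Real.sqrt_nonneg C0)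
      have h3 := mul_le_mul_of_nonneg_left ih (Real.exp_pos (-ρ)).le
      have e2 : Real.exp (-(c * ((k + 1 : ℕ) : ℝ))) = Real.exp (-(c * k)) * Real.exp (-c) := by
        rw [← Real.exp_add]
        congr 1
        push_cast
        ring
      rw [e2]
      have h4 : √C0 * (Real.exp (-(c * k)) * a0) + Real.exp (-ρ) * (Real.exp (-(c * k)) * (s0 + A * a0)) =
          Real.exp (-(c * k)) * (Real.exp (-ρ) * s0 + (√C0 + Real.exp (-ρ) * A) * a0) := by ring
      have h5 : Real.exp (-ρ) * s0 ≤ Real.exp (-c) * s0 :=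
        mul_le_mul_of_nonneg_right (by linarith) (Real.sqrt_nonneg _)
      have h6 : Real.exp (-(c * k)) * (Real.exp (-ρ) * s0 + (√C0 + Real.exp (-ρ) * A) * a0) ≤
          Real.exp (-(c * k)) * (Real.exp (-c) * s0 + Real.exp (-c) * A * a0) := by
        refine mul_le_mul_of_nonneg_left ?_ (Real.exp_pos _).le
        rw [hA1]
        linarith
      calc _ ≤ _ := h1
        _ ≤ √C0 * (Real.exp (-(c * k)) * a0) + Real.exp (-ρ) * (Real.exp (-(c * k)) * (s0 + A * a0)) :=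
          add_le_add h2 h3
        _ = _ := h4
        _ ≤ _ := h6
        _ = _ := by ring
  have hmean : ∫ y, h y ∂(PI u μ) = 0 := by
    have e : ∀ y, h y = f y - m := fun y => rfl
    simp only [e]
    rw [integral_sub (f.integrable _) (integrable_const m), integral_const, ← hm]
    simp
  have hI : 0 ≤ ∫ x, h x ^ 2 ∂(PI u μ) := integral_nonneg fun x => sq_nonneg _
  have hk : ∀ k : ℕ, ∫ x, ptb S k h x ^ 2 ∂(PI u μ) ≤ C2 * Real.exp (-(c * k)) ^ 2 * ∫ x, h x ^ 2 ∂(PI u μ) := by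
    intro k
    have h1 := nnm_lower ν (M := M) (by linarith) (ptb S k h)
    have h2 : ∫ y, ptb S k h y ∂(Measure.pi ν) = 0 := by
      have := stat_int S hπ (k : ℝ≥0) h
      rw [hmean] at this
      exact this
    rw [h2] at h1
    simp only [sub_zero] at h1
    refine h1.trans ?_
    rw [nls_nnm]
    set E := Real.exp (-(c * k)) with hE
    have hEp : 0 < E := Real.exp_pos _
    have h3 : NNX ν M l (ptb S k h) (ptb S k h) ≤ (E * (s0 + A * a0)) ^ 2 := by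
      rw [← Real.sq_sqrt (hX.pos (ptb S k h))]
      exact pow_le_pow_left₀ (Real.sqrt_nonneg _) (hsk k) 2
    have h4 := mul_le_mul_of_nonneg_left (hak k) (pow_nonneg hM0 (l + l))
    have h5 : s0 ^ 2 ≤ C0 * ∫ x, h x ^ 2 ∂(PI u μ) := by
      rw [hs0, Real.sq_sqrt (hX.pos h)]
      exact hC0b h
    have hNL : 0 ≤ NL ν h h := (nl_frm ν).pos h
    have h6 : a0 ^ 2 = NL ν h h := by
      rw [ha0, Real.sq_sqrt hNL]
    have h7 : NL ν h h ≤ C1 * ∫ x, h x ^ 2 ∂(PI u μ) := hC1b h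
    have h8 : (E * (s0 + A * a0)) ^ 2 ≤ E ^ 2 * (2 * s0 ^ 2 + 2 * A ^ 2 * a0 ^ 2) := by
      have : 0 ≤ E ^ 2 * (s0 - A * a0) ^ 2 := by positivity
      nlinarith
    have h9 : E ^ 2 * (2 * s0 ^ 2 + 2 * A ^ 2 * a0 ^ 2) + M ^ (l + l) * (E ^ 2 * NL ν h h) ≤
        E ^ 2 * (2 * (C0 * ∫ x, h x ^ 2 ∂(PI u μ)) + (2 * A ^ 2 + M ^ (l + l)) * (C1 * ∫ x, h x ^ 2 ∂(PI u μ))) := by
      rw [h6]
      have h10 : (2 * A ^ 2 + M ^ (l + l)) * NL ν h h ≤ (2 * A ^ 2 + M ^ (l + l)) * (C1 * ∫ x, h x ^ 2 ∂(PI u μ)) :=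
        mul_le_mul_of_nonneg_left h7 (by positivity)
      have h11 : E ^ 2 * (2 * s0 ^ 2 + 2 * A ^ 2 * NL ν h h) + M ^ (l + l) * (E ^ 2 * NL ν h h) =
          E ^ 2 * (2 * s0 ^ 2 + (2 * A ^ 2 + M ^ (l + l)) * NL ν h h) := by ring
      rw [h11]
      refine mul_le_mul_of_nonneg_left ?_ (sq_nonneg E)
      linarith
    have e3 : C2 * E ^ 2 * ∫ x, h x ^ 2 ∂(PI u μ) =
        E ^ 2 * (2 * (C0 * ∫ x, h x ^ 2 ∂(PI u μ)) + (2 * A ^ 2 + M ^ (l + l)) * (C1 * ∫ x, h x ^ 2 ∂(PI u μ))) := by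
      rw [hC2]
      ring
    rw [e3]
    linarith
  -- general time
  set k := ⌊(t : ℝ)⌋₊ with hkd
  have hkt : (k : ℝ) ≤ t := Nat.floor_le t.2
  have hkt2 : (t : ℝ) < k + 1 := Nat.lt_floor_add_one _
  have hkt' : (k : ℝ≥0) ≤ t := by
    rw [← NNReal.coe_le_coe]
    simpa using hkt
  have e1 : ptb S t h = ptb S (t - k) (ptb S k h) := by
    rw [← ptb_semigroup, tsub_add_cancel_of_le hkt']
  have e2 : ∀ x, ptb S t f x - m = ptb S t h x := by
    intro x
    rw [hh, ptb_sub, ptb_const]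
    rfl
  have e3 : ∀ x, f x - m = h x := fun x => rfl
  simp only [e2, e3]
  rw [e1]
  refine (contr S hπ (t - k) (ptb S k h)).trans ((hk k).trans ?_)
  refine mul_le_mul_of_nonneg_right ?_ hI
  rw [mul_assoc]
  refine mul_le_mul_of_nonneg_left ?_ hC20
  rw [← Real.exp_nat_mul, ← Real.exp_add, Real.exp_le_exp]
  push_cast
  nlinarith

end Pool.Agent.SGP
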