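import Pool.Agent.SGP.SYM

/-!
# ON1: one gap: uniform ergodicity implies exponential decay in `L²`

Proof. `π = PI u μ`, `E f = ∫ f dπ`. Let `C, W` be from `UnifErg`, `A_K = {x | ∀ k : ℕ, ∀ g bounded continuous, ‖g‖ ≤ 1 →
|ptb k g x - E g| ≤ K exp (-δ k)}` (closed, increasing in `K : ℕ`, union everything; for a fixed `s` use the times `k s`:
`A_K = {x | ∀ k : ℕ, ∀ g, ‖g‖ ≤ 1 → |ptb (k s) g x - E g| ≤ K exp (-δ k s)}`). Let `f` be bounded continuous and
`F = f 1_{A_K}`, `b = ‖f‖`. Choose bounded continuous `h_j` with `‖h_j‖ ≤ b`, `∫ (h_j - F)^2 → 0` (density and truncation), and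
`g_j = h_j - E h_j`. For even times (`2 k`): `∫ (ptb (k s) g_j)^2 = ∫ ptb (2 k s) g_j * g_j` (`sym_ptb`, semigroup)
`= ∫ (ptb (2 k s) h_j - E h_j) F + ∫ (ptb (2ks) h_j - E h_j)(h_j - F)` (`∫ ptb g_j * const = 0`); the first is
`≤ b K exp (-2 δ k s) b`, the second `≤ (∫ (g_j)^2)^(1/2) (∫ (h_j - F)^2)^(1/2) → 0`. Hence
`limsup_j ∫ (ptb (k s) g_j)^2 ≤ b² K exp (-2 δ k s)` and with `log_convex`:
`(∫ (ptb s g_j)^2)^k ≤ (∫ g_j^2)^(k-1) ∫ (ptb (k s) g_j)^2`. Let `j → ∞`: `g_j → F - E F` and `ptb s g_j` is Cauchy; with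
`Y = lim_j ∫ (ptb s g_j)^2` and `X = ∫ (F - E F)^2 = lim ∫ g_j^2`: `Y^k ≤ X^(k-1) b² K exp (-2 δ k s)` for all `k ≥ 1`. If
`X = 0` then `Y ≤ X = 0`; else take `k`-th roots, `k → ∞`: `Y ≤ X exp (-2 δ s)`. Finally `K → ∞`: `F_K → f` in `L²`
(dominated convergence), choose a diagonal sequence of `g_j`, or use `contr` to compare:
`(∫ (ptb s (f - E f))^2)^(1/2) ≤ (∫ (ptb s g_j)^2)^(1/2) + (∫ (f - E f - g_j)^2)^(1/2)`. So
`∫ (ptb s f - E f)^2 ≤ exp (-2 δ s) ∫ (f - E f)^2`.
-/

open MeasureTheory ProbabilityTheory Set Filter Topology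
open scoped ENNReal NNReal BoundedContinuousFunction

namespace Pool.Agent.SGP

open Pool.Agent.OYG


private theorem on_pw {x y M q : ℝ} (hx : 0 ≤ x) (hq : 0 < q)
    (h : ∀ k : ℕ, 1 ≤ k → y ^ k ≤ x ^ (k - 1) * (M * q ^ k)) : y ≤ q * x := by
  by_contra hc
  rw [not_le] at hc
  rcases hx.eq_or_lt with h0 | h0
  · rw [← h0, mul_zero] at hc
    have h2 := h 2 (by norm_num)
    rw [← h0] at h2
    have h3 : (0 : ℝ) < y ^ 2 := by positivity
    norm_num at h2
    linarith
  · have hqx : 0 < q * x := mul_pos hq h0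
    have h1 : 1 < y / (q * x) := (one_lt_div hqx).mpr hc
    have h2 := tendsto_pow_atTop_atTop_of_one_lt h1
    obtain ⟨k, hk⟩ := ((h2.eventually_gt_atTop (M / x)).and (eventually_ge_atTop 1)).exists
    have h3 := h k hk.2
    obtain ⟨l, rfl⟩ : ∃ l, k = l + 1 := ⟨k - 1, by omega⟩
    rw [Nat.add_sub_cancel] at h3
    have h4 : (y / (q * x)) ^ (l + 1) ≤ M / x := by
      rw [div_pow, div_le_div_iff₀ (pow_pos hqx _) h0]
      calc y ^ (l + 1) * x ≤ x ^ l * (M * q ^ (l + 1)) * x := mul_le_mul_of_nonneg_right h3 h0.le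
        _ = M * (q * x) ^ (l + 1) := by ring
    linarith [hk.1]

/-- approximation in `L¹` keeping the bound -/
private theorem on_approx (ν : Measure (Fin 1 → ℝ)) [IsProbabilityMeasure ν] {F : (Fin 1 → ℝ) → ℝ}
    (hF : Measurable F) {b : ℝ} (hb : 0 ≤ b) (hFb : ∀ x, |F x| ≤ b) {η : ℝ} (hη : 0 < η) :
    ∃ h : (Fin 1 → ℝ) →ᵇ ℝ, ‖h‖ ≤ b ∧ ∫ x, |F x - h x| ∂ν ≤ η := by
  have hint : Integrable F ν :=
    Integrable.of_bound hF.aestronglyMeasurable b (Eventually.of_forall fun y => hFb y)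
  obtain ⟨f, hf, -⟩ := hint.exists_boundedContinuous_integral_sub_le hη
  have hcont : Continuous fun y : Fin 1 → ℝ => max (-b) (min b (f y)) :=
    continuous_const.max (continuous_const.min f.continuous)
  have hbd : ∀ y, ‖max (-b) (min b (f y))‖ ≤ b := fun y => by
    rw [Real.norm_eq_abs, abs_le]
    exact ⟨le_max_left _ _, max_le (by linarith) (min_le_left _ _)⟩
  refine ⟨BoundedContinuousFunction.ofNormedAddCommGroup _ hcont b hbd,
    BoundedContinuousFunction.norm_ofNormedAddCommGroup_le _ hb hbd, ?_⟩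
  refine le_trans (integral_mono_of_nonneg (Eventually.of_forall fun x => abs_nonneg _)
    ((hint.sub (f.integrable _)).norm) (Eventually.of_forall fun y => ?_)) hf
  show |F y - max (-b) (min b (f y))| ≤ ‖F y - f y‖
  have h1 := abs_le.mp (hFb y)
  rw [Real.norm_eq_abs]
  rcases le_total (f y) (-b) with h2 | h2
  · rw [min_eq_right (by linarith), max_eq_left h2, abs_of_nonneg (by linarith),
      abs_of_nonneg (by linarith)]
    linarith
  · rcases le_total (f y) b with h3 | h3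
    · rw [min_eq_right h3, max_eq_right h2]
    · rw [min_eq_left h3, max_eq_right (by linarith), abs_of_nonpos (by linarith),
        abs_of_nonpos (by linarith)]
      linarith

variable {Ω : Type*} [MeasurableSpace Ω] {P : Measure Ω} {μ : Fin 2 → ℝ} {u : ℝ → ℝ}
  {B : Fin 2 → ℝ≥0 → Ω → ℝ} {G : (Fin 1 → ℝ) → ℝ≥0 → Ω → Fin 1 → ℝ}

/-- `L¹` contraction -/
private theorem on_l1 (S : Sys P 1 μ u B G) {π : Measure (Fin 1 → ℝ)} (hπ : IsStat P G π) (t : ℝ≥0)
    (f : (Fin 1 → ℝ) →ᵇ ℝ) : ∫ x, |ptb S t f x| ∂π ≤ ∫ x, |f x| ∂π := by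
  have hp := hπ.prob
  have hP := S.prob
  set g : (Fin 1 → ℝ) →ᵇ ℝ := BoundedContinuousFunction.ofNormedAddCommGroup (fun x => |f x|)
    f.continuous.abs ‖f‖ (fun x => by
      rw [Real.norm_eq_abs, abs_abs]; exact f.norm_coe_le_norm x) with hg
  have h1 := stat_int S hπ t g
  have h2 : ∫ x, |f x| ∂π = ∫ x, g x ∂π := rfl
  rw [h2, ← h1]
  refine integral_mono ((ptb S t f).integrable π).abs ((ptb S t g).integrable π) fun x => ?_
  show |∫ ω, f (G x t ω) ∂P| ≤ ∫ ω, |f (G x t ω)| ∂P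
  exact abs_integral_le_integral_abs

/-- comparison of the variances along the semigroup in `L¹` -/
private theorem on_cmp (S : Sys P 1 μ u B G) {π : Measure (Fin 1 → ℝ)} (hπ : IsStat P G π) (t : ℝ≥0)
    {b : ℝ} (f h : (Fin 1 → ℝ) →ᵇ ℝ) (hf : ‖f‖ ≤ b) (hh : ‖h‖ ≤ b) :
    |∫ x, (ptb S t f x - ∫ y, f y ∂π) ^ 2 ∂π - ∫ x, (ptb S t h x - ∫ y, h y ∂π) ^ 2 ∂π| ≤
      8 * b * ∫ x, |f x - h x| ∂π := by
  have hp := hπ.prob
  have hb : 0 ≤ b := (norm_nonneg f).trans hf
  set ef := ∫ y, f y ∂π with hef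
  set eh := ∫ y, h y ∂π with heh
  have b1 : ∀ (g : (Fin 1 → ℝ) →ᵇ ℝ), ‖g‖ ≤ b → |∫ y, g y ∂π| ≤ b := by
    intro g hg
    have h1 := norm_integral_le_of_norm_le_const (μ := π) (f := fun y => g y) (C := b)
      (Eventually.of_forall fun y => (g.norm_coe_le_norm y).trans hg)
    simpa using h1
  have b2 : ∀ (g : (Fin 1 → ℝ) →ᵇ ℝ), ‖g‖ ≤ b → ∀ x, |ptb S t g x| ≤ b := by
    intro g hg x
    exact (pt_le S g t x).trans hg
  have i1 : Integrable (fun x => (ptb S t f x - ef) ^ 2) π := by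
    have := ((ptb S t f - BoundedContinuousFunction.const _ ef) *
      (ptb S t f - BoundedContinuousFunction.const _ ef)).integrable π
    refine this.congr (Eventually.of_forall fun x => ?_)
    show (ptb S t f x - ef) * (ptb S t f x - ef) = _
    ring
  have i2 : Integrable (fun x => (ptb S t h x - eh) ^ 2) π := by
    have := ((ptb S t h - BoundedContinuousFunction.const _ eh) *
      (ptb S t h - BoundedContinuousFunction.const _ eh)).integrable π
    refine this.congr (Eventually.of_forall fun x => ?_)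
    show (ptb S t h x - eh) * (ptb S t h x - eh) = _
    ring
  have i3 : Integrable (fun x => |ptb S t (f - h) x|) π := ((ptb S t (f - h)).integrable π).abs
  rw [← integral_sub i1 i2]
  have h3 : |ef - eh| ≤ ∫ x, |f x - h x| ∂π := by
    rw [hef, heh, ← integral_sub (f.integrable π) (h.integrable π)]
    exact abs_integral_le_integral_abs
  have h4 : ∫ x, |ptb S t (f - h) x| ∂π ≤ ∫ x, |f x - h x| ∂π := on_l1 S hπ t (f - h)
  calc |∫ x, ((ptb S t f x - ef) ^ 2 - (ptb S t h x - eh) ^ 2) ∂π|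
      ≤ ∫ x, |(ptb S t f x - ef) ^ 2 - (ptb S t h x - eh) ^ 2| ∂π := abs_integral_le_integral_abs
    _ ≤ ∫ x, 4 * b * (|ptb S t (f - h) x| + |ef - eh|) ∂π := by
        refine integral_mono (i1.sub i2).abs ((i3.add (integrable_const _)).const_mul _) fun x => ?_
        show |(ptb S t f x - ef) ^ 2 - (ptb S t h x - eh) ^ 2| ≤ 4 * b * (|ptb S t (f - h) x| + |ef - eh|)
        have e1 : (ptb S t f x - ef) ^ 2 - (ptb S t h x - eh) ^ 2 =
            ((ptb S t f x - ef) + (ptb S t h x - eh)) * (ptb S t (f - h) x - (ef - eh)) := by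
          rw [ptb_sub]
          show _ = _ * (ptb S t f x - ptb S t h x - (ef - eh))
          ring
        rw [e1, abs_mul]
        have h5 := abs_le.mp (b2 f hf x)
        have h6 := abs_le.mp (b2 h hh x)
        have h7 := abs_le.mp (b1 f hf)
        have h8 := abs_le.mp (b1 h hh)
        refine mul_le_mul ?_ (abs_sub _ _) (abs_nonneg _) (by positivity)
        rw [abs_le]
        constructor <;> linarith
    _ = 4 * b * (∫ x, |ptb S t (f - h) x| ∂π + |ef - eh|) := by
        rw [integral_const_mul, integral_add i3 (integrable_const _)]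
        simp
    _ ≤ 8 * b * ∫ x, |f x - h x| ∂π := by nlinarith

/-- the sets of points with a given constant of ergodicity -/
private def onA (S : Sys P 1 μ u B G) (δ : ℝ) (s : ℝ≥0) (b : ℝ) (K : ℕ) : Set (Fin 1 → ℝ) :=
  {x | ∀ (k : ℕ) (g : (Fin 1 → ℝ) →ᵇ ℝ), ‖g‖ ≤ b →
    |ptb S ((k : ℝ≥0) * s + (k : ℝ≥0) * s) g x - ∫ y, g y ∂(PI u μ)| ≤ (K : ℝ) * Real.exp (-(2 * δ * s)) ^ k}

private theorem onA_closed (S : Sys P 1 μ u B G) (δ : ℝ) (s : ℝ≥0) (b : ℝ) (K : ℕ) :
    IsClosed (onA S δ s b K) := by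
  have e : onA S δ s b K = ⋂ (k : ℕ), ⋂ (g : (Fin 1 → ℝ) →ᵇ ℝ), ⋂ (_ : ‖g‖ ≤ b),
      {x | |ptb S ((k : ℝ≥0) * s + (k : ℝ≥0) * s) g x - ∫ y, g y ∂(PI u μ)| ≤
        (K : ℝ) * Real.exp (-(2 * δ * s)) ^ k} := by
    ext x
    simp [onA]
  rw [e]
  refine isClosed_iInter fun k => isClosed_iInter fun g => isClosed_iInter fun _ => ?_
  exact isClosed_le ((BoundedContinuousFunction.continuous _).sub continuous_const).abs continuous_const

private theorem onA_mono (S : Sys P 1 μ u B G) (δ : ℝ) (s : ℝ≥0) (b : ℝ) : Monotone (onA S δ s b) := by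
  intro K K' hK x hx k g hg
  refine (hx k g hg).trans (mul_le_mul_of_nonneg_right (by exact_mod_cast hK) (by positivity))

private theorem onA_cover (S : Sys P 1 μ u B G) {δ : ℝ} (hδ : UnifErg P G (PI u μ) δ) (s : ℝ≥0) {b : ℝ}
    (hb : 0 < b) (x : Fin 1 → ℝ) : ∃ K, x ∈ onA S δ s b K := by
  obtain ⟨C, hC, W, hW, h⟩ := hδ
  refine ⟨⌈b * (C * W x)⌉₊, fun k g hg => ?_⟩
  have hgb : ∀ y, |g y / b| ≤ 1 := fun y => by
    rw [abs_div, abs_of_pos hb, div_le_one hb]
    exact (g.norm_coe_le_norm y).trans hg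
  have h1 := h x ((k : ℝ≥0) * s + (k : ℝ≥0) * s) (fun y => g y / b)
    (g.continuous.measurable.div_const b) hgb
  rw [integral_div, integral_div, ← sub_div, abs_div, abs_of_pos hb, div_le_iff₀ hb,
    integral_map ((S.gap x).meas _).aemeasurable g.continuous.aestronglyMeasurable] at h1
  have e : Real.exp (-(δ * ((((k : ℝ≥0) * s + (k : ℝ≥0) * s : ℝ≥0)) : ℝ))) = Real.exp (-(2 * δ * s)) ^ k := by
    rw [← Real.exp_nat_mul]
    congr 1
    push_cast
    ring
  rw [e] at h1
  refine h1.trans ?_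
  calc C * W x * Real.exp (-(2 * δ * s)) ^ k * b = b * (C * W x) * Real.exp (-(2 * δ * s)) ^ k := by ring
    _ ≤ _ := mul_le_mul_of_nonneg_right (Nat.le_ceil _) (by positivity)

/-- the remainders tend to `0` -/
private theorem onA_rem (S : Sys P 1 μ u B G) [IsFiniteMeasure (PI u μ)] {δ : ℝ} (hδ : UnifErg P G (PI u μ) δ)
    (s : ℝ≥0) {b : ℝ} (hb : 0 < b) (f : (Fin 1 → ℝ) →ᵇ ℝ) :
    Tendsto (fun K : ℕ => ∫ x, |f x - (onA S δ s b K).indicator (⇑f) x| ∂(PI u μ)) atTop (𝓝 0) := by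
  have h0 : (0 : ℝ) = ∫ x : Fin 1 → ℝ, (0 : ℝ) ∂(PI u μ) := by simp
  rw [h0]
  refine tendsto_integral_of_dominated_convergence (fun _ => ‖f‖) (fun K => ?_)
    (integrable_const _) (fun K => Eventually.of_forall fun x => ?_) (Eventually.of_forall fun x => ?_)
  · exact ((f.continuous.measurable.sub (f.continuous.measurable.indicator
      (onA_closed S δ s b K).measurableSet)).norm).aestronglyMeasurable
  · rw [Real.norm_eq_abs, abs_abs]
    by_cases hx : x ∈ onA S δ s b K
    · rw [indicator_of_mem hx, sub_self, abs_zero]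
      exact norm_nonneg _
    · rw [indicator_of_notMem hx, sub_zero]
      exact f.norm_coe_le_norm x
  · obtain ⟨K, hK⟩ := onA_cover S hδ s hb x
    refine tendsto_const_nhds.congr' ?_
    filter_upwards [eventually_ge_atTop K] with K' hK'
    rw [indicator_of_mem (onA_mono S δ s b hK' hK), sub_self, abs_zero]

/-- the bound for approximations of `f 1_A` -/
private theorem on_step (S : Sys P 1 μ u B G) (hπ : IsStat P G (PI u μ)) (δ : ℝ) (s : ℝ≥0) {b : ℝ}
    (hb : 0 < b) (K : ℕ) {F : (Fin 1 → ℝ) → ℝ} (hF : Measurable F) (hFb : ∀ x, |F x| ≤ b)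
    (hFA : ∀ x, x ∉ onA S δ s b K → F x = 0) (h : (Fin 1 → ℝ) →ᵇ ℝ) (hh : ‖h‖ ≤ b) {η : ℝ}
    (hη : ∫ x, |F x - h x| ∂(PI u μ) ≤ η) (k : ℕ) (hk : 1 ≤ k) :
    (∫ x, (ptb S s h x - ∫ y, h y ∂(PI u μ)) ^ 2 ∂(PI u μ)) ^ k ≤
      (∫ x, (h x - ∫ y, h y ∂(PI u μ)) ^ 2 ∂(PI u μ)) ^ (k - 1) *
        (b * K * Real.exp (-(2 * δ * s)) ^ k + 2 * b * η) := by
  have hp := hπ.prob
  set c := ∫ y, h y ∂(PI u μ) with hc
  set g : (Fin 1 → ℝ) →ᵇ ℝ := h - BoundedContinuousFunction.const _ c with hg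
  have e1 : ∀ t : ℝ≥0, ∀ x, ptb S t g x = ptb S t h x - c := by
    intro t x
    rw [hg, ptb_sub, ptb_const]
    rfl
  have h1 := log_convex S hπ s g k hk
  simp only [e1] at h1
  have e2 : ∀ x, g x = h x - c := fun x => rfl
  simp only [e2] at h1
  refine h1.trans (mul_le_mul_of_nonneg_left ?_ (pow_nonneg (integral_nonneg fun x => sq_nonneg _) _))
  set T : ℝ≥0 := (k : ℝ≥0) * s with hT
  have h2 : ∫ x, (ptb S T h x - c) ^ 2 ∂(PI u μ) = ∫ x, (ptb S (T + T) h x - c) * h x ∂(PI u μ) := by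
    have h3 := sym_ptb S hπ T (ptb S T g) g
    rw [← ptb_semigroup] at h3
    have h4 : ∫ x, (ptb S T h x - c) ^ 2 ∂(PI u μ) = ∫ x, ptb S T g x * ptb S T g x ∂(PI u μ) := by
      refine integral_congr_ae (Eventually.of_forall fun x => ?_)
      show (ptb S T h x - c) ^ 2 = ptb S T g x * ptb S T g x
      rw [e1]
      ring
    rw [h4, ← h3]
    have h5 : ∀ x, ptb S (T + T) g x * g x = (ptb S (T + T) h x - c) * h x - (ptb S (T + T) h x - c) * c := by
      intro x
      rw [e1, e2]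
      ring
    simp only [h5]
    have i1 : Integrable (fun x => (ptb S (T + T) h x - c) * h x) (PI u μ) := by
      have := (ptb S (T + T) g * h).integrable (PI u μ)
      refine this.congr (Eventually.of_forall fun x => ?_)
      show ptb S (T + T) g x * h x = _
      rw [e1]
    have i2 : Integrable (fun x => (ptb S (T + T) h x - c)) (PI u μ) := by
      have := (ptb S (T + T) g).integrable (PI u μ)
      refine this.congr (Eventually.of_forall fun x => ?_)
      exact e1 _ _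
    rw [integral_sub i1 (i2.mul_const c), integral_mul_const, integral_sub ((ptb S (T + T) h).integrable _)
      (integrable_const _), stat_int S hπ]
    simp [← hc]
  rw [h2]
  have hbd1 : ∀ x, |ptb S (T + T) h x - c| ≤ 2 * b := by
    intro x
    have h3 := (pt_le S h (T + T) x).trans hh
    have h4 : |c| ≤ b := by
      have h1 := norm_integral_le_of_norm_le_const (μ := PI u μ) (f := fun y => h y) (C := b)
        (Eventually.of_forall fun y => (h.norm_coe_le_norm y).trans hh)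
      simpa using h1
    calc |ptb S (T + T) h x - c| ≤ |ptb S (T + T) h x| + |c| := abs_sub _ _
      _ ≤ 2 * b := by rw [ptb_apply]; linarith
  have hm1 : Measurable fun x => ptb S (T + T) h x - c :=
    (ptb S (T + T) h).continuous.measurable.sub_const c
  have hib : ∀ {φ : (Fin 1 → ℝ) → ℝ}, Measurable φ → ∀ C : ℝ, (∀ x, |φ x| ≤ C) → Integrable φ (PI u μ) :=
    fun hφ C hC => Integrable.of_bound hφ.aestronglyMeasurable C (Eventually.of_forall hC)
  have iA : Integrable (fun x => (ptb S (T + T) h x - c) * F x) (PI u μ) := by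
    refine hib (hm1.mul hF) (2 * b * b) fun x => ?_
    rw [abs_mul]
    exact mul_le_mul (hbd1 x) (hFb x) (abs_nonneg _) (by positivity)
  have iB : Integrable (fun x => F x - h x) (PI u μ) := by
    refine hib (hF.sub h.continuous.measurable) (2 * b) fun x => ?_
    calc |F x - h x| ≤ |F x| + |h x| := abs_sub _ _
      _ ≤ 2 * b := by
        have := (h.norm_coe_le_norm x).trans hh
        rw [Real.norm_eq_abs] at this
        linarith [hFb x]
  have iC : Integrable (fun x => (ptb S (T + T) h x - c) * (F x - h x)) (PI u μ) := by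
    refine Integrable.bdd_mul iB hm1.aestronglyMeasurable (c := 2 * b) ?_
    exact Eventually.of_forall hbd1
  have h6 : ∫ x, (ptb S (T + T) h x - c) * h x ∂(PI u μ) =
      ∫ x, (ptb S (T + T) h x - c) * F x ∂(PI u μ) - ∫ x, (ptb S (T + T) h x - c) * (F x - h x) ∂(PI u μ) := by
    rw [← integral_sub iA iC]
    refine integral_congr_ae (Eventually.of_forall fun x => ?_)
    show (ptb S (T + T) h x - c) * h x = (ptb S (T + T) h x - c) * F x - (ptb S (T + T) h x - c) * (F x - h x)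
    ring
  rw [h6]
  have h7 : ∫ x, (ptb S (T + T) h x - c) * F x ∂(PI u μ) ≤ b * K * Real.exp (-(2 * δ * s)) ^ k := by
    have h8 : ∀ x, (ptb S (T + T) h x - c) * F x ≤ b * K * Real.exp (-(2 * δ * s)) ^ k := by
      intro x
      by_cases hx : x ∈ onA S δ s b K
      · have h9 := hx k h hh
        calc (ptb S (T + T) h x - c) * F x ≤ |(ptb S (T + T) h x - c) * F x| := le_abs_self _
          _ = |ptb S (T + T) h x - c| * |F x| := abs_mul _ _
          _ ≤ ((K : ℝ) * Real.exp (-(2 * δ * s)) ^ k) * b :=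
            mul_le_mul h9 (hFb x) (abs_nonneg _) (by positivity)
          _ = _ := by ring
      · rw [hFA x hx, mul_zero]
        positivity
    calc ∫ x, (ptb S (T + T) h x - c) * F x ∂(PI u μ) ≤
        ∫ _, b * K * Real.exp (-(2 * δ * s)) ^ k ∂(PI u μ) := integral_mono iA (integrable_const _) h8
      _ = _ := by simp
  have h10 : |∫ x, (ptb S (T + T) h x - c) * (F x - h x) ∂(PI u μ)| ≤ 2 * b * η := by
    calc |∫ x, (ptb S (T + T) h x - c) * (F x - h x) ∂(PI u μ)|
        ≤ ∫ x, |(ptb S (T + T) h x - c) * (F x - h x)| ∂(PI u μ) := abs_integral_le_integral_abs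
      _ ≤ ∫ x, 2 * b * |F x - h x| ∂(PI u μ) := by
          refine integral_mono iC.abs (iB.abs.const_mul _) fun x => ?_
          show |(ptb S (T + T) h x - c) * (F x - h x)| ≤ 2 * b * |F x - h x|
          rw [abs_mul]
          exact mul_le_mul_of_nonneg_right (hbd1 x) (abs_nonneg _)
      _ = 2 * b * ∫ x, |F x - h x| ∂(PI u μ) := integral_const_mul _ _
      _ ≤ 2 * b * η := mul_le_mul_of_nonneg_left hη (by positivity)
  have h11 := (abs_le.mp h10).1
  linarith

theorem one_decay (S : Sys P 1 μ u B G) (hπ : IsStat P G (PI u μ)) {δ : ℝ} (hδ : UnifErg P G (PI u μ) δ)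
    (s : ℝ≥0) (f : (Fin 1 → ℝ) →ᵇ ℝ) :
    ∫ x, (ptb S s f x - ∫ y, f y ∂(PI u μ)) ^ 2 ∂(PI u μ) ≤
      Real.exp (-(2 * δ * s)) * ∫ x, (f x - ∫ y, f y ∂(PI u μ)) ^ 2 ∂(PI u μ) := by
  have hp := hπ.prob
  set b : ℝ := ‖f‖ + 1 with hb'
  have hb : 0 < b := by positivity
  have hfb : ‖f‖ ≤ b := by linarith
  set q := Real.exp (-(2 * δ * s)) with hq
  have hq0 : 0 < q := Real.exp_pos _
  set Y := ∫ x, (ptb S s f x - ∫ y, f y ∂(PI u μ)) ^ 2 ∂(PI u μ) with hY
  set X := ∫ x, (f x - ∫ y, f y ∂(PI u μ)) ^ 2 ∂(PI u μ) with hX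
  have hX0 : 0 ≤ X := integral_nonneg fun x => sq_nonneg _
  set r : ℕ → ℝ := fun K => ∫ x, |f x - (onA S δ s b K).indicator (⇑f) x| ∂(PI u μ) with hr
  have hr0 : ∀ K, 0 ≤ r K := fun K => integral_nonneg fun x => abs_nonneg _
  have hrt : Tendsto r atTop (𝓝 0) := onA_rem S hδ s hb f
  -- the inequality for fixed K
  have main : ∀ K : ℕ, max (Y - 8 * b * r K) 0 ≤ q * (X + 8 * b * r K) := by
    intro K
    have hxn : 0 ≤ X + 8 * b * r K := by have := hr0 K; positivity
    refine on_pw (M := b * K) hxn hq0 fun k hk => ?_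
    set F : (Fin 1 → ℝ) → ℝ := (onA S δ s b K).indicator (⇑f) with hF
    have hFm : Measurable F := f.continuous.measurable.indicator (onA_closed S δ s b K).measurableSet
    have hFb : ∀ x, |F x| ≤ b := by
      intro x
      by_cases hx : x ∈ onA S δ s b K
      · rw [hF, indicator_of_mem hx]
        exact (f.norm_coe_le_norm x).trans hfb
      · rw [hF, indicator_of_notMem hx, abs_zero]
        exact hb.le
    have hFA : ∀ x, x ∉ onA S δ s b K → F x = 0 := fun x hx => by rw [hF, indicator_of_notMem hx]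
    have hη : ∀ η : ℝ, 0 < η → max (Y - 8 * b * (r K + η)) 0 ^ k ≤
        (X + 8 * b * (r K + η)) ^ (k - 1) * (b * K * q ^ k + 2 * b * η) := by
      intro η hη
      obtain ⟨h, hh, hη2⟩ := on_approx (PI u μ) hFm hb.le hFb hη
      have h1 := on_step S hπ δ s hb K hFm hFb hFA h hh hη2 k hk
      have hd : ∫ x, |f x - h x| ∂(PI u μ) ≤ r K + η := by
        have hi1 : Integrable (fun x => |f x - F x|) (PI u μ) := by
          refine Integrable.of_bound ((f.continuous.measurable.sub hFm).norm).aestronglyMeasurable (b + b)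
            (Eventually.of_forall fun x => ?_)
          rw [Real.norm_eq_abs, abs_abs]
          exact (abs_sub _ _).trans (add_le_add ((f.norm_coe_le_norm x).trans hfb) (hFb x))
        have hi2 : Integrable (fun x => |F x - h x|) (PI u μ) := by
          refine Integrable.of_bound ((hFm.sub h.continuous.measurable).norm).aestronglyMeasurable (b + b)
            (Eventually.of_forall fun x => ?_)
          rw [Real.norm_eq_abs, abs_abs]
          exact (abs_sub _ _).trans (add_le_add (hFb x) ((h.norm_coe_le_norm x).trans hh))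
        calc ∫ x, |f x - h x| ∂(PI u μ) ≤ ∫ x, (|f x - F x| + |F x - h x|) ∂(PI u μ) := by
              refine integral_mono ((f - h).integrable _).abs (hi1.add hi2) fun x => ?_
              exact abs_sub_le _ _ _
          _ = ∫ x, |f x - F x| ∂(PI u μ) + ∫ x, |F x - h x| ∂(PI u μ) := integral_add hi1 hi2
          _ ≤ r K + η := add_le_add (le_refl _) hη2
      have hc1 := on_cmp S hπ s f h hfb hh
      have hc2 := on_cmp S hπ 0 f h hfb hh
      rw [ptb_zero, ptb_zero] at hc2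
      have hd2 : 8 * b * ∫ x, |f x - h x| ∂(PI u μ) ≤ 8 * b * (r K + η) :=
        mul_le_mul_of_nonneg_left hd (by positivity)
      have hy := (abs_le.mp (hc1.trans hd2)).2
      have hx := (abs_le.mp (hc2.trans hd2)).1
      have hy0 : 0 ≤ ∫ x, (ptb S s h x - ∫ y, h y ∂(PI u μ)) ^ 2 ∂(PI u μ) :=
        integral_nonneg fun x => sq_nonneg _
      calc max (Y - 8 * b * (r K + η)) 0 ^ k ≤
          (∫ x, (ptb S s h x - ∫ y, h y ∂(PI u μ)) ^ 2 ∂(PI u μ)) ^ k :=
            pow_le_pow_left₀ (le_max_right _ _) (max_le (by linarith) hy0) k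
        _ ≤ _ := h1
        _ ≤ _ := by
            refine mul_le_mul_of_nonneg_right ?_ (by positivity)
            exact pow_le_pow_left₀ (integral_nonneg fun x => sq_nonneg _) (by linarith) _
    have hc1 : Continuous fun η : ℝ => max (Y - 8 * b * (r K + η)) 0 ^ k := by fun_prop
    have hc2 : Continuous fun η : ℝ => (X + 8 * b * (r K + η)) ^ (k - 1) * (b * K * q ^ k + 2 * b * η) := by
      fun_prop
    have ht1 : Tendsto (fun η : ℝ => max (Y - 8 * b * (r K + η)) 0 ^ k) (𝓝[>] 0)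
        (𝓝 (max (Y - 8 * b * (r K + 0)) 0 ^ k)) := (hc1.tendsto 0).mono_left nhdsWithin_le_nhds
    have ht2 : Tendsto (fun η : ℝ => (X + 8 * b * (r K + η)) ^ (k - 1) * (b * K * q ^ k + 2 * b * η)) (𝓝[>] 0)
        (𝓝 ((X + 8 * b * (r K + 0)) ^ (k - 1) * (b * K * q ^ k + 2 * b * 0))) :=
      (hc2.tendsto 0).mono_left nhdsWithin_le_nhds
    have h3 := le_of_tendsto_of_tendsto ht1 ht2 (by
      filter_upwards [self_mem_nhdsWithin] with η hη'
      exact hη η hη')
    simpa using h3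
  have ht3 : Tendsto (fun K => Y - 8 * b * r K) atTop (𝓝 (Y - 8 * b * 0)) :=
    tendsto_const_nhds.sub (hrt.const_mul _)
  have ht4 : Tendsto (fun K => q * (X + 8 * b * r K)) atTop (𝓝 (q * (X + 8 * b * 0))) :=
    (tendsto_const_nhds.add (hrt.const_mul _)).const_mul q
  have h4 := le_of_tendsto_of_tendsto ht3 ht4 (Eventually.of_forall fun K => (le_max_left _ _).trans (main K))
  simpa using h4

end Pool.Agent.SGP
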