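import Pool.Agent.SGP.ON1
import Pool.Agent.SGP.PO1

/-!
# ONE: one gap: every exponent of uniform ergodicity is at most the gap

Proof. (`one_poincare`) Let `φ` be a test function on `Fin 1 → ℝ`, `c = E φ`, `y s = ∫ (ptb s φ - c)^2 = ∫ (ptb s φ)^2 - c^2`.
By `one_decay` `y s ≤ exp (-2 δ s) y 0`. On the other hand `φ = rs α (α φ - LL φ)` (`rs_test`), so by `ptb_l2d` and `l2d_frm`
at `r = 0`, `y` has the right derivative `2 ∫ LL φ * φ = -2 ∫ (∂ φ)^2` (`sym_test`) at `0`. Comparing with the derivative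
`-2 δ y 0` of the majorant at `0`: `-2 ∫ (∂φ)^2 ≤ -2 δ y 0`.
-/

open MeasureTheory ProbabilityTheory Set Filter Topology
open scoped ENNReal NNReal BoundedContinuousFunction

namespace Pool.Agent.SGP

open Pool.Agent.OYG

variable {Ω : Type*} [MeasurableSpace Ω] {P : Measure Ω} {μ : Fin 2 → ℝ} {u : ℝ → ℝ}
  {B : Fin 2 → ℝ≥0 → Ω → ℝ} {G : (Fin 1 → ℝ) → ℝ≥0 → Ω → Fin 1 → ℝ}

theorem one_poincare (S : Sys P 1 μ u B G) (hπ : IsStat P G (PI u μ)) {δ : ℝ} (hδ : UnifErg P G (PI u μ) δ)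
    {φ : (Fin 1 → ℝ) → ℝ} (hφ : IsTest φ) :
    δ * ∫ x, (φ x - ∫ y, φ y ∂(PI u μ)) ^ 2 ∂(PI u μ) ≤ ∫ x, fderiv ℝ φ x (ev 0) ^ 2 ∂(PI u μ) := by
  have hp : IsProbabilityMeasure (PI u μ) := hπ.prob
  obtain ⟨c, hc⟩ : ∃ c, c = ∫ y, φ y ∂(PI u μ) := ⟨_, rfl⟩
  obtain ⟨y0, hy0⟩ : ∃ y0, y0 = ∫ x, (φ x - c) ^ 2 ∂(PI u μ) := ⟨_, rfl⟩
  obtain ⟨D, hD⟩ : ∃ D, D = ∫ x, fderiv ℝ φ x (ev 0) ^ 2 ∂(PI u μ) := ⟨_, rfl⟩
  rw [← hc, ← hy0, ← hD]
  -- the curve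
  have h1 := ptb_l2d S hπ (α := 1) one_pos ((1 : ℝ) • tb hφ - Lb S.pot μ hφ) (r := 0) le_rfl
  rw [rs_test S one_pos hφ, Real.toNNReal_zero, ptb_zero] at h1
  have e1 : (1 : ℝ) • tb hφ - ((1 : ℝ) • tb hφ - Lb S.pot μ hφ) = Lb S.pot μ hφ := by abel
  rw [e1] at h1
  have h2 := l2d_frm (frm_l2 (PI u μ)) h1 h1
  simp only [Real.toNNReal_zero, ptb_zero] at h2
  have e2 : ∫ x, Lb S.pot μ hφ x * tb hφ x ∂(PI u μ) + ∫ x, tb hφ x * Lb S.pot μ hφ x ∂(PI u μ) = -(2 * D) := by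
    have h3 := sym_test S.pot S.mu hφ hφ
    have h4 : ∫ x, tb hφ x * Lb S.pot μ hφ x ∂(PI u μ) = ∫ x, LL u μ φ x * φ x ∂(PI u μ) := by
      refine integral_congr_ae (Eventually.of_forall fun x => ?_)
      show φ x * LL u μ φ x = LL u μ φ x * φ x
      ring
    have h5 : ∫ x, Lb S.pot μ hφ x * tb hφ x ∂(PI u μ) = ∫ x, LL u μ φ x * φ x ∂(PI u μ) := rfl
    have h6 : ∫ x, fderiv ℝ φ x (ev 0) * fderiv ℝ φ x (ev 0) ∂(PI u μ) = D := by
      rw [hD]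
      refine integral_congr_ae (Eventually.of_forall fun x => ?_)
      show fderiv ℝ φ x (ev 0) * fderiv ℝ φ x (ev 0) = fderiv ℝ φ x (ev 0) ^ 2
      ring
    rw [h4, h5, h3, h6]
    ring
  rw [e2] at h2
  -- the variance
  have hvar : ∀ s : ℝ≥0, ∫ x, (ptb S s (tb hφ) x - c) ^ 2 ∂(PI u μ) =
      ∫ x, ptb S s (tb hφ) x * ptb S s (tb hφ) x ∂(PI u μ) - c ^ 2 := by
    intro s
    have i1 : Integrable (fun x => ptb S s (tb hφ) x * ptb S s (tb hφ) x) (PI u μ) :=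
      (ptb S s (tb hφ) * ptb S s (tb hφ)).integrable (PI u μ)
    have i2 : Integrable (fun x => ptb S s (tb hφ) x) (PI u μ) := (ptb S s (tb hφ)).integrable (PI u μ)
    have h3 : ∫ x, ptb S s (tb hφ) x ∂(PI u μ) = c := by
      rw [stat_int S hπ, hc]
      rfl
    have h4 : ∫ x, (ptb S s (tb hφ) x - c) ^ 2 ∂(PI u μ) =
        ∫ x, (ptb S s (tb hφ) x * ptb S s (tb hφ) x + (-(2 * c) * ptb S s (tb hφ) x + c ^ 2)) ∂(PI u μ) := by
      refine integral_congr_ae (Eventually.of_forall fun x => ?_)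
      show (ptb S s (tb hφ) x - c) ^ 2 =
        ptb S s (tb hφ) x * ptb S s (tb hφ) x + (-(2 * c) * ptb S s (tb hφ) x + c ^ 2)
      ring
    have i3 : Integrable (fun x => -(2 * c) * ptb S s (tb hφ) x + c ^ 2) (PI u μ) :=
      (i2.const_mul _).add (integrable_const _)
    rw [h4, integral_add i1 i3, integral_add (i2.const_mul _) (integrable_const _), integral_const_mul, h3,
      integral_const]
    simp
    ring
  have hdec : ∀ s : ℝ, 0 ≤ s → ∫ x, ptb S s.toNNReal (tb hφ) x * ptb S s.toNNReal (tb hφ) x ∂(PI u μ) - c ^ 2 ≤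
      Real.exp (-(2 * δ * s)) * y0 := by
    intro s hs
    have h3 := one_decay S hπ hδ s.toNNReal (tb hφ)
    have h4 : ∫ y, tb hφ y ∂(PI u μ) = c := by rw [hc]; rfl
    rw [h4, hvar, Real.coe_toNNReal s hs] at h3
    rw [hy0]
    exact h3
  -- comparison of derivatives
  obtain ⟨F, hF⟩ : ∃ F : ℝ → ℝ, F = fun s => ∫ x, ptb S s.toNNReal (tb hφ) x * ptb S s.toNNReal (tb hφ) x ∂(PI u μ) -
      Real.exp (-(2 * δ * s)) * y0 := ⟨_, rfl⟩
  have hFd : HasDerivWithinAt F (-(2 * D) + 2 * δ * y0) (Ici 0) 0 := by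
    have h3 : HasDerivAt (fun s : ℝ => Real.exp (-(2 * δ * s)) * y0) (-(2 * δ) * y0) 0 := by
      have h4 : HasDerivAt (fun s : ℝ => -(2 * δ * s)) (-(2 * δ)) 0 := by
        have h0 := ((hasDerivAt_id (0 : ℝ)).const_mul (2 * δ)).fun_neg
        simpa using h0
      have h5 := (h4.exp).mul_const y0
      simpa using h5
    have h4 := h2.sub h3.hasDerivWithinAt
    rw [hF]
    refine h4.congr_deriv ?_
    ring
  have hF0 : F 0 = c ^ 2 := by
    rw [hF]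
    show ∫ x, ptb S (0 : ℝ).toNNReal (tb hφ) x * ptb S (0 : ℝ).toNNReal (tb hφ) x ∂(PI u μ) -
      Real.exp (-(2 * δ * 0)) * y0 = c ^ 2
    have h3 := hvar 0
    rw [ptb_zero] at h3
    have h4 : ∫ x, (tb hφ x - c) ^ 2 ∂(PI u μ) = y0 := by rw [hy0]; rfl
    rw [h4] at h3
    rw [Real.toNNReal_zero, ptb_zero, mul_zero, neg_zero, Real.exp_zero, one_mul]
    linarith
  have hFle : ∀ s, 0 < s → F s ≤ c ^ 2 := by
    intro s hs
    rw [hF]
    have := hdec s hs.le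
    show ∫ x, ptb S s.toNNReal (tb hφ) x * ptb S s.toNNReal (tb hφ) x ∂(PI u μ) -
      Real.exp (-(2 * δ * s)) * y0 ≤ c ^ 2
    linarith
  have hFd' : HasDerivWithinAt F (-(2 * D) + 2 * δ * y0) (Ioi 0) 0 := hFd.mono Ioi_subset_Ici_self
  rw [hasDerivWithinAt_iff_tendsto_slope' (by simp)] at hFd'
  have hle : -(2 * D) + 2 * δ * y0 ≤ 0 := by
    refine le_of_tendsto hFd' ?_
    filter_upwards [self_mem_nhdsWithin] with s hs
    have hs' : (0 : ℝ) < s := hs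
    rw [slope_def_field, hF0]
    have := hFle s hs'
    exact div_nonpos_of_nonpos_of_nonneg (by linarith) (by linarith)
  linarith

end Pool.Agent.SGP
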