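import Pool.Agent.SGP.Defs

/-!
# PIE: exchanging coordinates of two independent copies

`mix S x y` has the coordinates of `x` in `S` and those of `y` outside `S`.

Proof. (`mix_swap`) Transport `(pi ν) ⊗ (pi ν)` to `pi (ν_i ⊗ ν_i)` with `measurePreserving_arrowProdEquivProdArrow` (and its
inverse); there the map acts coordinatewise, by the identity for `i ∈ S` and by `Prod.swap` for `i ∉ S`, so
`measurePreserving_pi` and `Measure.measurePreserving_swap` apply. Alternative: `Measure.prod_eq`-like argument on boxes
(`(pi ν).prod (pi ν)` of the preimage of `(∏ s_i) × (∏ t_i)`, which is again such a box, since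
`x_i ∈ s_i, y_i ∈ t_i` for `i ∈ S` and `y_i ∈ s_i, x_i ∈ t_i` for `i ∉ S`).
(`mix_mp`) first component of `mix_swap`: compose with `measurePreserving_fst`.
-/

open MeasureTheory ProbabilityTheory Set Filter Topology
open scoped ENNReal NNReal BoundedContinuousFunction

namespace Pool.Agent.SGP

variable {n : ℕ}

/-- the coordinates in `S` from `x`, the others from `y` -/
def mix (S : Finset (Fin n)) (x y : Fin n → ℝ) : Fin n → ℝ := fun i => if i ∈ S then x i else y i

theorem mix_cont (S : Finset (Fin n)) : Continuous fun p : (Fin n → ℝ) × (Fin n → ℝ) => mix S p.1 p.2 := by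
  refine continuous_pi fun i => ?_
  unfold mix
  by_cases h : i ∈ S
  · simp only [if_pos h]
    exact (continuous_apply i).comp continuous_fst
  · simp only [if_neg h]
    exact (continuous_apply i).comp continuous_snd

/-- for functions depending only on the coordinates in `S` one can take any second argument -/
theorem mix_mix (S T : Finset (Fin n)) (x y z : Fin n → ℝ) : mix T (mix S x y) z = mix (S ∩ T) x (mix T y z) := by
  funext i
  unfold mix
  by_cases h1 : i ∈ T <;> by_cases h2 : i ∈ S <;> simp [h1, h2]

private theorem mix_meas (S : Finset (Fin n)) :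
    Measurable fun p : (Fin n → ℝ) × (Fin n → ℝ) => mix S p.1 p.2 := by
  refine measurable_pi_lambda _ fun i => ?_
  unfold mix
  by_cases h : i ∈ S
  · simp only [if_pos h]
    exact (measurable_pi_apply i).comp measurable_fst
  · simp only [if_neg h]
    exact (measurable_pi_apply i).comp measurable_snd

private theorem mix_box (S : Finset (Fin n)) (s t : Fin n → Set ℝ) (p : (Fin n → ℝ) × (Fin n → ℝ)) :
    (mix S p.1 p.2 ∈ Set.univ.pi s ∧ mix S p.2 p.1 ∈ Set.univ.pi t) ↔
      (p.1 ∈ Set.univ.pi fun i => if i ∈ S then s i else t i) ∧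
      (p.2 ∈ Set.univ.pi fun i => if i ∈ S then t i else s i) := by
  simp only [mem_univ_pi, mix]
  constructor
  · rintro ⟨h1, h2⟩
    constructor
    · intro i
      by_cases h : i ∈ S
      · have := h1 i
        simpa [h] using this
      · have := h2 i
        simpa [h] using this
    · intro i
      by_cases h : i ∈ S
      · have := h2 i
        simpa [h] using this
      · have := h1 i
        simpa [h] using this
  · rintro ⟨h1, h2⟩
    constructor
    · intro i
      by_cases h : i ∈ S
      · have := h1 i
        simpa [h] using this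
      · have := h2 i
        simpa [h] using this
    · intro i
      by_cases h : i ∈ S
      · have := h2 i
        simpa [h] using this
      · have := h1 i
        simpa [h] using this

theorem mix_swap (ν : Fin n → Measure ℝ) [∀ i, IsProbabilityMeasure (ν i)] (S : Finset (Fin n)) :
    MeasurePreserving (fun p : (Fin n → ℝ) × (Fin n → ℝ) => (mix S p.1 p.2, mix S p.2 p.1))
      ((Measure.pi ν).prod (Measure.pi ν)) ((Measure.pi ν).prod (Measure.pi ν)) := by
  have hm : Measurable (fun p : (Fin n → ℝ) × (Fin n → ℝ) => (mix S p.1 p.2, mix S p.2 p.1)) :=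
    (mix_meas S).prodMk ((mix_meas S).comp measurable_swap)
  refine ⟨hm, ?_⟩
  symm
  -- boxes generate
  have huniv : (Set.univ : Set (Fin n → ℝ)) ∈ Set.pi Set.univ ''
      Set.pi Set.univ fun _ : Fin n => {s : Set ℝ | MeasurableSet s} :=
    ⟨fun _ => Set.univ, fun i _ => (MeasurableSet.univ : MeasurableSet (Set.univ : Set ℝ)), by simp⟩
  refine Measure.prod_eq_generateFrom generateFrom_pi generateFrom_pi isPiSystem_pi isPiSystem_pi
    (Measure.FiniteSpanningSetsIn.mk (fun _ => Set.univ) (fun _ => huniv) (fun _ => measure_lt_top _ _)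
      (iUnion_const _))
    (Measure.FiniteSpanningSetsIn.mk (fun _ => Set.univ) (fun _ => huniv) (fun _ => measure_lt_top _ _)
      (iUnion_const _)) ?_
  rintro _ ⟨s, hs, rfl⟩ _ ⟨t, ht, rfl⟩
  have hs' : ∀ i, MeasurableSet (s i) := fun i => hs i (mem_univ i)
  have ht' : ∀ i, MeasurableSet (t i) := fun i => ht i (mem_univ i)
  have hpre : (fun p : (Fin n → ℝ) × (Fin n → ℝ) => (mix S p.1 p.2, mix S p.2 p.1)) ⁻¹'
      ((Set.univ.pi s) ×ˢ (Set.univ.pi t)) =
      (Set.univ.pi fun i => if i ∈ S then s i else t i) ×ˢ
        (Set.univ.pi fun i => if i ∈ S then t i else s i) := by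
    ext p
    exact mix_box S s t p
  rw [Measure.map_apply hm ((MeasurableSet.univ_pi hs').prod (MeasurableSet.univ_pi ht')), hpre,
    Measure.prod_prod, Measure.pi_pi, Measure.pi_pi, Measure.pi_pi, Measure.pi_pi,
    ← Finset.prod_mul_distrib, ← Finset.prod_mul_distrib]
  refine Finset.prod_congr rfl fun i _ => ?_
  by_cases h : i ∈ S
  · simp only [if_pos h]
  · simp only [if_neg h]
    exact mul_comm _ _

theorem mix_mp (ν : Fin n → Measure ℝ) [∀ i, IsProbabilityMeasure (ν i)] (S : Finset (Fin n)) :
    MeasurePreserving (fun p : (Fin n → ℝ) × (Fin n → ℝ) => mix S p.1 p.2)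
      ((Measure.pi ν).prod (Measure.pi ν)) (Measure.pi ν) :=
  measurePreserving_fst.comp (mix_swap ν S)

/-- only coordinate `a` from the second variable -/
theorem mix_erase (a : Fin n) (x y : Fin n → ℝ) : mix (Finset.univ.erase a) x y = Function.update x a (y a) := by
  funext i
  unfold mix
  by_cases h : i = a
  · subst h
    simp
  · simp [h]

end Pool.Agent.SGP
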