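import Pool.Agent.SGP.LOC
import Pool.Agent.SGP.DN2

/-!
# PRE: reduction to the first `k` gaps

Proofs. (`gap_unique`) two solutions with the same starting point and noise: the difference `D t = Y t ω - Z t ω` satisfies
`D t = ∫_0^t (drift (Y s) - drift (Z s)) ds`; on `[0,T]` both paths stay in a ball, where the drift is Lipschitz
(`drift_lip`, LOC.lean), so `D = 0` by Gronwall (`norm_le_gronwallBound_of_norm_deriv_right_le`, `dist_le_of_trajectories_ODE`-like, or iterate
`sup_{[0,t]} ‖D‖ ≤ K t sup ‖D‖`).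
(`pre_sys`) the drift of the gap `i < k` depends only on the gaps `≤ i`; `IsBMd` restricts (sub-family of an independent
family: `iIndepFun.precomp`), `Fin.castLE` commutes with `succ`, `castSucc`.
(`pre_path`) `pre (G x t ω) = G (exz (pre x)) t ω` restricted: both are gap processes with `k` gaps started at `pre x`, so
`gap_unique` applies. (`pre_PI`) marginal of a product of probability measures (`measurePreserving_pi`.. or
`Measure.pi_map_..`; or `Measure.pi_eq` on boxes). (`pre_stat`): `∫⁻ y, P.map (Gk y t) A d(PI')(y) =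
∫⁻ x, P.map (Gk (pre x) t) A d(PI)(x) = ∫⁻ x, P.map (G x t) (pre⁻¹ A) d(PI) = PI (pre⁻¹ A) = PI' A` (`lintegral_map'` needs
measurability of `y ↦ P.map (Gk y t) A`: `measurable_law` for the reduced system, from STI; or the theorem is stated with
this hypothesis). (`pre_erg`) test functions `g ∘ pre`; `W' y = W (exz y)`.
-/

open MeasureTheory ProbabilityTheory Set Filter Topology
open scoped ENNReal NNReal BoundedContinuousFunction

namespace Pool.Agent.SGP

open Pool.Agent.OYG

variable {n k : ℕ}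

/-- restriction to the first `k` coordinates -/
def pre (hk : k ≤ n) (x : Fin n → ℝ) : Fin k → ℝ := fun i => x (Fin.castLE hk i)

/-- extension by zero -/
def exz (n : ℕ) (y : Fin k → ℝ) : Fin n → ℝ := fun i => if h : (i : ℕ) < k then y ⟨i, h⟩ else 0

/-- the first `k + 1` drifts -/
def muk (hk : k ≤ n) (μ : Fin (n + 1) → ℝ) : Fin (k + 1) → ℝ := fun i => μ (Fin.castLE (Nat.succ_le_succ hk) i)

/-- the first `k + 1` Brownian motions -/
def Bk {Ω : Type*} (hk : k ≤ n) (B : Fin (n + 1) → ℝ≥0 → Ω → ℝ) : Fin (k + 1) → ℝ≥0 → Ω → ℝ :=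
  fun i => B (Fin.castLE (Nat.succ_le_succ hk) i)

/-- the process of the first `k` gaps -/
def Gk {Ω : Type*} (hk : k ≤ n) (G : (Fin n → ℝ) → ℝ≥0 → Ω → Fin n → ℝ) :
    (Fin k → ℝ) → ℝ≥0 → Ω → Fin k → ℝ := fun y t ω => pre hk (G (exz n y) t ω)

theorem pre_exz (hk : k ≤ n) (y : Fin k → ℝ) : pre hk (exz n y) = y := by
  funext i
  show (if h : ((Fin.castLE hk i : Fin n) : ℕ) < k then y ⟨((Fin.castLE hk i : Fin n) : ℕ), h⟩ else 0) = y i
  have h : ((Fin.castLE hk i : Fin n) : ℕ) < k := i.2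
  rw [dif_pos h]
  rfl

theorem pre_rel (hk : k ≤ n) (μ : Fin (n + 1) → ℝ) (i : Fin k) : rel (muk hk μ) i = rel μ (Fin.castLE hk i) := by
  rfl

theorem pre_PI (hk : k ≤ n) {μ : Fin (n + 1) → ℝ} {u : ℝ → ℝ} (hu : Pot u)
    (hμ : ∀ i : Fin n, μ i.succ < μ i.castSucc) : (PI u μ).map (pre hk) = PI u (muk hk μ) := by
  have hprob : ∀ i, IsProbabilityMeasure (nu u (rel μ i)) := fun i => nu_prob hu (rel_pos hμ i)
  have hp : Measurable (pre (k := k) hk) := measurable_pi_lambda _ fun i => measurable_pi_apply _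
  symm
  unfold PI
  have hprob' : ∀ i, IsProbabilityMeasure (nu u (rel (muk hk μ) i)) := fun i => by
    rw [pre_rel]
    exact hprob _
  refine Measure.pi_eq fun s hs => ?_
  rw [Measure.map_apply hp (MeasurableSet.univ_pi hs)]
  have e : pre hk ⁻¹' (Set.pi univ s) =
      Set.pi univ (fun j : Fin n => if h : (j : ℕ) < k then s ⟨j, h⟩ else univ) := by
    ext x
    simp only [Set.mem_preimage, Set.mem_pi, Set.mem_univ, true_imp_iff]
    constructor
    · intro h j
      by_cases hj : (j : ℕ) < k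
      · rw [dif_pos hj]
        exact h ⟨j, hj⟩
      · rw [dif_neg hj]
        exact Set.mem_univ _
    · intro h i
      have h1 := h (Fin.castLE hk i)
      have h2 : ((Fin.castLE hk i : Fin n) : ℕ) < k := i.2
      rw [dif_pos h2] at h1
      exact h1
  rw [e, Measure.pi_pi]
  obtain ⟨r, rfl⟩ := Nat.exists_eq_add_of_le hk
  rw [Fin.prod_univ_add]
  have h2 : ∏ i : Fin r, (nu u (rel μ (Fin.natAdd k i)))
      (if h : ((Fin.natAdd k i : Fin (k + r)) : ℕ) < k then s ⟨((Fin.natAdd k i : Fin (k + r)) : ℕ), h⟩ else univ) = 1 := by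
    refine Finset.prod_eq_one fun i _ => ?_
    have h3 : ¬ ((Fin.natAdd k i : Fin (k + r)) : ℕ) < k := by simp
    rw [dif_neg h3]
    exact (hprob _).measure_univ
  rw [h2, mul_one]
  refine Finset.prod_congr rfl fun i _ => ?_
  have h3 : ((Fin.castAdd r i : Fin (k + r)) : ℕ) < k := i.2
  rw [dif_pos h3]
  rfl

variable {Ω : Type*} [MeasurableSpace Ω] {P : Measure Ω} {μ : Fin (n + 1) → ℝ} {u : ℝ → ℝ}
  {B : Fin (n + 1) → ℝ≥0 → Ω → ℝ} {G : (Fin n → ℝ) → ℝ≥0 → Ω → Fin n → ℝ}

theorem gap_unique (hu : Pot u) {x : Fin n → ℝ} {Y Z : ℝ≥0 → Ω → Fin n → ℝ} (hY : IsGap n μ u B x Y)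
    (hZ : IsGap n μ u B x Z) (t : ℝ≥0) (ω : Ω) : Y t ω = Z t ω := by
  have hdc : Continuous (drift n μ u) := drift_cont μ hu.lip
  set ψ : ℝ → Fin n → ℝ := fun q => drift n μ u (Y q.toNNReal ω) - drift n μ u (Z q.toNNReal ω) with hψ
  have cY : Continuous fun q : ℝ => drift n μ u (Y q.toNNReal ω) := hdc.comp ((hY.cont ω).comp continuous_real_toNNReal)
  have cZ : Continuous fun q : ℝ => drift n μ u (Z q.toNNReal ω) := hdc.comp ((hZ.cont ω).comp continuous_real_toNNReal)
  have hψc : Continuous ψ := cY.sub cZ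
  set f : ℝ → Fin n → ℝ := fun s => ∫ q in (0 : ℝ)..s, ψ q with hf
  have hfd : ∀ s, HasDerivAt f (ψ s) s := fun s =>
    intervalIntegral.integral_hasDerivAt_right (hψc.intervalIntegrable 0 s)
      (hψc.stronglyMeasurableAtFilter _ _) hψc.continuousAt
  have hfc : Continuous f := continuous_iff_continuousAt.mpr fun s => (hfd s).continuousAt
  have hfe : ∀ t : ℝ≥0, f t = Y t ω - Z t ω := fun t => by
    funext i
    have hcomm : (∫ q in (0 : ℝ)..t, ψ q) i = ∫ q in (0 : ℝ)..t, ψ q i := by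
      have := (ContinuousLinearMap.proj (R := ℝ) (φ := fun _ : Fin n => ℝ) i
        ).intervalIntegral_comp_comm (hψc.intervalIntegrable (μ := volume) 0 (t : ℝ))
      simpa using this.symm
    have ciY : IntervalIntegrable (fun q : ℝ => drift n μ u (Y q.toNNReal ω) i) volume 0 t :=
      ((continuous_apply i).comp cY).intervalIntegrable _ _
    have ciZ : IntervalIntegrable (fun q : ℝ => drift n μ u (Z q.toNNReal ω) i) volume 0 t :=
      ((continuous_apply i).comp cZ).intervalIntegrable _ _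
    have hsub : ∫ q in (0 : ℝ)..t, ψ q i = (∫ q in (0 : ℝ)..t, drift n μ u (Y q.toNNReal ω) i) -
        ∫ q in (0 : ℝ)..t, drift n μ u (Z q.toNNReal ω) i := by
      rw [← intervalIntegral.integral_sub ciY ciZ]
      rfl
    have e1 := hY.eq ω t i
    have e2 := hZ.eq ω t i
    show (∫ q in (0 : ℝ)..t, ψ q) i = Y t ω i - Z t ω i
    rw [hcomm, hsub, e1, e2]
    ring
  obtain ⟨R1, hR1⟩ := (isCompact_Icc (a := (0 : ℝ≥0)) (b := t)).exists_bound_of_continuousOn
    (hY.cont ω).continuousOn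
  obtain ⟨R2, hR2⟩ := (isCompact_Icc (a := (0 : ℝ≥0)) (b := t)).exists_bound_of_continuousOn
    (hZ.cont ω).continuousOn
  obtain ⟨K, hK0, hK⟩ := drift_lip μ hu.lip (max R1 R2)
  have hf0 : ‖f 0‖ ≤ 0 := by
    show ‖∫ q in (0 : ℝ)..0, ψ q‖ ≤ 0
    rw [intervalIntegral.integral_same, norm_zero]
  have hg := norm_le_gronwallBound_of_norm_deriv_right_le (f := f) (f' := ψ) (δ := 0)
    (K := K) (ε := 0) (a := 0) (b := t) hfc.continuousOn
    (fun r _ => (hfd r).hasDerivWithinAt) hf0 (fun r hr => by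
      have hrt : r.toNNReal ≤ t := by
        rw [Real.toNNReal_le_iff_le_coe]
        exact hr.2.le
      have h2 : f r = Y r.toNNReal ω - Z r.toNNReal ω := by
        have := hfe r.toNNReal
        rwa [Real.coe_toNNReal r hr.1] at this
      rw [add_zero, h2]
      exact hK _ _ ((hR1 _ ⟨zero_le, hrt⟩).trans (le_max_left _ _)) ((hR2 _ ⟨zero_le, hrt⟩).trans (le_max_right _ _)))
    t ⟨NNReal.coe_nonneg t, le_rfl⟩
  rw [gronwallBound_ε0, zero_mul] at hg
  rw [hfe t] at hg
  exact sub_eq_zero.mp (norm_le_zero_iff.mp hg)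

theorem pre_isGap (hk : k ≤ n) (S : Sys P n μ u B G) (x : Fin n → ℝ) :
    IsGap k (muk hk μ) u (Bk hk B) (pre hk x) (fun t ω => pre hk (G x t ω)) := by
  have hp : Measurable (pre (k := k) hk) := measurable_pi_lambda _ fun i => measurable_pi_apply _
  have hpc : Continuous (pre (k := k) hk) := continuous_pi fun i => continuous_apply _
  refine ⟨fun t => hp.comp ((S.gap x).meas t), fun ω => hpc.comp ((S.gap x).cont ω), fun ω t i => ?_⟩
  have h := (S.gap x).eq ω t (Fin.castLE hk i)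
  exact h

theorem pre_sys (hk : k ≤ n) (S : Sys P n μ u B G) : Sys P k (muk hk μ) u (Bk hk B) (Gk hk G) := by
  refine ⟨S.prob, S.pot, fun i => S.mu (Fin.castLE hk i), ⟨fun i t => S.bm.meas _ t, fun i => S.bm.brownian _,
    fun i ω => S.bm.cont _ ω, fun i ω => S.bm.zero _ ω, ?_⟩, fun y => ?_⟩
  · exact S.bm.indep.precomp (Fin.castLE_injective (Nat.succ_le_succ hk))
  · have h := pre_isGap hk S (exz n y)
    rw [pre_exz] at h
    exact h

theorem pre_path (hk : k ≤ n) (S : Sys P n μ u B G) (x : Fin n → ℝ) (t : ℝ≥0) (ω : Ω) :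
    pre hk (G x t ω) = Gk hk G (pre hk x) t ω :=
  gap_unique S.pot (pre_isGap hk S x) ((pre_sys hk S).gap (pre hk x)) t ω

theorem pre_erg (hk : k ≤ n) (S : Sys P n μ u B G) {δ : ℝ} (h : UnifErg P G (PI u μ) δ) :
    UnifErg P (Gk hk G) (PI u (muk hk μ)) δ := by
  obtain ⟨C, hC, W, hW, hE⟩ := h
  have hp : Measurable (pre (k := k) hk) := measurable_pi_lambda _ fun i => measurable_pi_apply _
  refine ⟨C, hC, fun y => W (exz n y), fun y => hW _, fun y t g hg hg1 => ?_⟩
  have h1 := hE (exz n y) t (fun x => g (pre hk x)) (hg.comp hp) (fun x => hg1 _)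
  have e1 : ∫ z, g z ∂(P.map (Gk hk G y t)) = ∫ x, g (pre hk x) ∂(P.map (G (exz n y) t)) := by
    have hm : Measurable (G (exz n y) t) := (S.gap _).meas t
    have hm2 : Measurable (Gk hk G y t) := hp.comp hm
    have e3 : ∫ z, g z ∂(P.map (Gk hk G y t)) = ∫ ω, g (Gk hk G y t ω) ∂P :=
      integral_map hm2.aemeasurable hg.aestronglyMeasurable
    have e4 : ∫ x, g (pre hk x) ∂(P.map (G (exz n y) t)) = ∫ ω, g (pre hk (G (exz n y) t ω)) ∂P :=
      integral_map hm.aemeasurable (hg.comp hp).aestronglyMeasurable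
    rw [e3, e4]
    rfl
  have e2 : ∫ z, g z ∂(PI u (muk hk μ)) = ∫ x, g (pre hk x) ∂(PI u μ) := by
    rw [← pre_PI hk S.pot S.mu, integral_map hp.aemeasurable hg.aestronglyMeasurable]
  rw [e1, e2]
  exact h1

end Pool.Agent.SGP
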