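import Pool.Agent.SGP.MAR

/-!
# RS1: the resolvent: definition, commutation, semigroup increments

`rs S α f x = ∫_0^∞ exp (-α t) pt t f x dt`, `α > 0`.

Proofs. (`rs_fun_cont`) dominated convergence, `|pt t f x| ≤ ‖f‖`, `pt_cont`. (`rs_comm`) Fubini:
`pt t (rs f) x = ∫ ω, ∫ s, exp (-α s) pt s f (G x t ω) = ∫ s, exp (-α s) pt t (ptb s f) x` and
`ptb t (ptb s f) = ptb (t+s) f = ptb s (ptb t f)` (`ptb_semigroup`, `add_comm`); joint measurability from `pt_cont` and
measurability of `G x t`. (`rs_dyn`) `g t := pt t (rs f) x = ∫_0^∞ exp (-α s) pt (t+s) f x ds =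
exp (α t) ∫_t^∞ exp (-α s) pt s f x ds = exp (α t) (rs f x - ∫_0^t exp (-α s) pt s f x ds)`, differentiable in `t` with
derivative `α g t - pt t f x = pt t (α rs f - f) x` (continuous in `t`): fundamental theorem of calculus.
-/

open MeasureTheory ProbabilityTheory Set Filter Topology
open scoped ENNReal NNReal BoundedContinuousFunction

namespace Pool.Agent.SGP

open Pool.Agent.OYG

variable {n : ℕ} {Ω : Type*} [MeasurableSpace Ω] {P : Measure Ω} {μ : Fin (n + 1) → ℝ} {u : ℝ → ℝ}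
  {B : Fin (n + 1) → ℝ≥0 → Ω → ℝ} {G : (Fin n → ℝ) → ℝ≥0 → Ω → Fin n → ℝ}

theorem rs_exp_int {α : ℝ} (hα : 0 < α) (c : ℝ) : IntegrableOn (fun t : ℝ => Real.exp (-(α * t))) (Ioi c) := by
  refine (exp_neg_integrableOn_Ioi c hα).congr (Eventually.of_forall fun t => ?_)
  show Real.exp (-α * t) = Real.exp (-(α * t))
  rw [neg_mul]

theorem rs_exp_integral {α : ℝ} (hα : 0 < α) : ∫ t in Ioi (0 : ℝ), Real.exp (-(α * t)) = α⁻¹ := by
  have h1 := integral_exp_mul_Ioi (a := -α) (by linarith) 0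
  rw [mul_zero, Real.exp_zero] at h1
  have h2 : ∀ t : ℝ, Real.exp (-(α * t)) = Real.exp (-α * t) := fun t => by rw [neg_mul]
  simp only [h2]
  rw [h1, neg_div_neg_eq, one_div]

theorem rs_h_cont (S : Sys P n μ u B G) (f : (Fin n → ℝ) →ᵇ ℝ) (x : Fin n → ℝ) :
    Continuous fun t : ℝ => pt P G t.toNNReal f x :=
  (pt_cont S f).comp (continuous_real_toNNReal.prodMk continuous_const)

theorem rs_e_cont (α : ℝ) : Continuous fun t : ℝ => Real.exp (-(α * t)) :=
  Real.continuous_exp.comp (continuous_const.mul continuous_id).neg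

theorem rs_integrable (S : Sys P n μ u B G) {α : ℝ} (hα : 0 < α) (f : (Fin n → ℝ) →ᵇ ℝ) (x : Fin n → ℝ) :
    IntegrableOn (fun t : ℝ => Real.exp (-(α * t)) * pt P G t.toNNReal f x) (Ioi 0) := by
  refine Integrable.mono' ((rs_exp_int hα 0).mul_const ‖f‖)
    ((rs_e_cont α).mul (rs_h_cont S f x)).aestronglyMeasurable (Eventually.of_forall fun t => ?_)
  rw [norm_mul, Real.norm_eq_abs, Real.norm_eq_abs, abs_of_pos (Real.exp_pos _)]
  exact mul_le_mul_of_nonneg_left (pt_le S f _ x) (Real.exp_pos _).le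

theorem rs_fun_cont (S : Sys P n μ u B G) {α : ℝ} (hα : 0 < α) (f : (Fin n → ℝ) →ᵇ ℝ) :
    Continuous fun x => ∫ t in Ioi (0 : ℝ), Real.exp (-(α * t)) * pt P G t.toNNReal f x := by
  refine continuous_of_dominated (bound := fun t => Real.exp (-(α * t)) * ‖f‖) (fun x => ?_) (fun x => ?_)
    ((rs_exp_int hα 0).mul_const ‖f‖) (Eventually.of_forall fun t => ?_)
  · exact ((rs_e_cont α).mul (rs_h_cont S f x)).aestronglyMeasurable
  · refine Eventually.of_forall fun t => ?_
    rw [norm_mul, Real.norm_eq_abs, Real.norm_eq_abs, abs_of_pos (Real.exp_pos _)]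
    exact mul_le_mul_of_nonneg_left (pt_le S f _ x) (Real.exp_pos _).le
  · exact continuous_const.mul ((pt_cont S f).comp (Continuous.prodMk_right t.toNNReal))

theorem rs_fun_bound (S : Sys P n μ u B G) {α : ℝ} (hα : 0 < α) (f : (Fin n → ℝ) →ᵇ ℝ) (x : Fin n → ℝ) :
    ‖∫ t in Ioi (0 : ℝ), Real.exp (-(α * t)) * pt P G t.toNNReal f x‖ ≤ α⁻¹ * ‖f‖ := by
  have h1 : ‖∫ t in Ioi (0 : ℝ), Real.exp (-(α * t)) * pt P G t.toNNReal f x‖ ≤
      ∫ t in Ioi (0 : ℝ), Real.exp (-(α * t)) * ‖f‖ := by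
    refine norm_integral_le_of_norm_le ((rs_exp_int hα 0).mul_const ‖f‖) (Eventually.of_forall fun t => ?_)
    rw [norm_mul, Real.norm_eq_abs, Real.norm_eq_abs, abs_of_pos (Real.exp_pos _)]
    exact mul_le_mul_of_nonneg_left (pt_le S f _ x) (Real.exp_pos _).le
  rw [integral_mul_const, rs_exp_integral hα] at h1
  exact h1

/-- the resolvent -/
noncomputable def rs (S : Sys P n μ u B G) {α : ℝ} (hα : 0 < α) (f : (Fin n → ℝ) →ᵇ ℝ) : (Fin n → ℝ) →ᵇ ℝ :=
  BoundedContinuousFunction.ofNormedAddCommGroup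
    (fun x => ∫ t in Ioi (0 : ℝ), Real.exp (-(α * t)) * pt P G t.toNNReal f x)
    (rs_fun_cont S hα f) (α⁻¹ * ‖f‖) (rs_fun_bound S hα f)

theorem rs_apply (S : Sys P n μ u B G) {α : ℝ} (hα : 0 < α) (f : (Fin n → ℝ) →ᵇ ℝ) (x : Fin n → ℝ) :
    rs S hα f x = ∫ t in Ioi (0 : ℝ), Real.exp (-(α * t)) * pt P G t.toNNReal f x := rfl

theorem rs_norm (S : Sys P n μ u B G) {α : ℝ} (hα : 0 < α) (f : (Fin n → ℝ) →ᵇ ℝ) : ‖rs S hα f‖ ≤ α⁻¹ * ‖f‖ := by
  rw [BoundedContinuousFunction.norm_le (by positivity)]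
  intro x
  exact rs_fun_bound S hα f x

theorem rs_add (S : Sys P n μ u B G) {α : ℝ} (hα : 0 < α) (f g : (Fin n → ℝ) →ᵇ ℝ) :
    rs S hα (f + g) = rs S hα f + rs S hα g := by
  ext x
  rw [BoundedContinuousFunction.add_apply, rs_apply, rs_apply, rs_apply,
    ← integral_add (rs_integrable S hα f x) (rs_integrable S hα g x)]
  refine integral_congr_ae (Eventually.of_forall fun t => ?_)
  have h1 : pt P G t.toNNReal (⇑(f + g)) x = pt P G t.toNNReal f x + pt P G t.toNNReal g x := by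
    have := DFunLike.congr_fun (ptb_add S t.toNNReal f g) x
    exact this
  show Real.exp (-(α * t)) * pt P G t.toNNReal (⇑(f + g)) x =
    Real.exp (-(α * t)) * pt P G t.toNNReal f x + Real.exp (-(α * t)) * pt P G t.toNNReal g x
  rw [h1, mul_add]

theorem rs_smul (S : Sys P n μ u B G) {α : ℝ} (hα : 0 < α) (c : ℝ) (f : (Fin n → ℝ) →ᵇ ℝ) :
    rs S hα (c • f) = c • rs S hα f := by
  ext x
  rw [BoundedContinuousFunction.smul_apply, rs_apply, rs_apply, smul_eq_mul, ← integral_const_mul]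
  refine integral_congr_ae (Eventually.of_forall fun t => ?_)
  have h1 : pt P G t.toNNReal (⇑(c • f)) x = c * pt P G t.toNNReal f x := by
    have := DFunLike.congr_fun (ptb_smul S t.toNNReal c f) x
    exact this
  show Real.exp (-(α * t)) * pt P G t.toNNReal (⇑(c • f)) x =
    c * (Real.exp (-(α * t)) * pt P G t.toNNReal f x)
  rw [h1]
  ring

theorem rs_sub (S : Sys P n μ u B G) {α : ℝ} (hα : 0 < α) (f g : (Fin n → ℝ) →ᵇ ℝ) :
    rs S hα (f - g) = rs S hα f - rs S hα g := by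
  ext x
  rw [BoundedContinuousFunction.sub_apply, rs_apply, rs_apply, rs_apply,
    ← integral_sub (rs_integrable S hα f x) (rs_integrable S hα g x)]
  refine integral_congr_ae (Eventually.of_forall fun t => ?_)
  have h1 : pt P G t.toNNReal (⇑(f - g)) x = pt P G t.toNNReal f x - pt P G t.toNNReal g x := by
    have := DFunLike.congr_fun (ptb_sub S t.toNNReal f g) x
    exact this
  show Real.exp (-(α * t)) * pt P G t.toNNReal (⇑(f - g)) x =
    Real.exp (-(α * t)) * pt P G t.toNNReal f x - Real.exp (-(α * t)) * pt P G t.toNNReal g x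
  rw [h1, mul_sub]

theorem rs_const (S : Sys P n μ u B G) {α : ℝ} (hα : 0 < α) (c : ℝ) :
    rs S hα (BoundedContinuousFunction.const _ c) = BoundedContinuousFunction.const _ (α⁻¹ * c) := by
  ext x
  rw [rs_apply]
  have h1 : ∀ t : ℝ, pt P G t.toNNReal (⇑(BoundedContinuousFunction.const (Fin n → ℝ) c)) x = c := fun t => by
    have := DFunLike.congr_fun (ptb_const S t.toNNReal c) x
    exact this
  simp only [h1]
  rw [integral_mul_const, rs_exp_integral hα]
  rfl

/-- the semigroup applied to the semigroup -/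
theorem pt_pt (S : Sys P n μ u B G) (s h : ℝ≥0) (f : (Fin n → ℝ) →ᵇ ℝ) (x : Fin n → ℝ) :
    pt P G s (ptb S h f) x = pt P G (s + h) f x := by
  have := DFunLike.congr_fun (ptb_semigroup S s h f) x
  exact this.symm

theorem rs_comm (S : Sys P n μ u B G) {α : ℝ} (hα : 0 < α) (t : ℝ≥0) (f : (Fin n → ℝ) →ᵇ ℝ) :
    ptb S t (rs S hα f) = rs S hα (ptb S t f) := by
  have hP := S.prob
  ext x
  have hm : Measurable fun p : Ω × ℝ => Real.exp (-(α * p.2)) * pt P G p.2.toNNReal f (G x t p.1) := by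
    refine ((rs_e_cont α).measurable.comp measurable_snd).mul ?_
    exact (pt_cont S f).measurable.comp
      ((measurable_real_toNNReal.comp measurable_snd).prodMk (((S.gap x).meas t).comp measurable_fst))
  have hi : Integrable (Function.uncurry fun (ω : Ω) (s : ℝ) =>
      Real.exp (-(α * s)) * pt P G s.toNNReal f (G x t ω)) (P.prod (volume.restrict (Ioi (0 : ℝ)))) := by
    have h1 : Integrable (fun p : Ω × ℝ => Real.exp (-(α * p.2)) * ‖f‖) (P.prod (volume.restrict (Ioi (0 : ℝ)))) :=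
      Integrable.comp_snd ((rs_exp_int hα 0).mul_const ‖f‖) P
    refine h1.mono' hm.aestronglyMeasurable (Eventually.of_forall fun p => ?_)
    show ‖Real.exp (-(α * p.2)) * pt P G p.2.toNNReal f (G x t p.1)‖ ≤ _
    rw [norm_mul, Real.norm_eq_abs, Real.norm_eq_abs, abs_of_pos (Real.exp_pos _)]
    exact mul_le_mul_of_nonneg_left (pt_le S f _ _) (Real.exp_pos _).le
  calc ptb S t (rs S hα f) x = ∫ ω, (∫ s in Ioi (0 : ℝ), Real.exp (-(α * s)) * pt P G s.toNNReal f (G x t ω)) ∂P := rfl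
    _ = ∫ s in Ioi (0 : ℝ), ∫ ω, Real.exp (-(α * s)) * pt P G s.toNNReal f (G x t ω) ∂P :=
        integral_integral_swap hi
    _ = ∫ s in Ioi (0 : ℝ), Real.exp (-(α * s)) * pt P G s.toNNReal (ptb S t f) x := by
        refine integral_congr_ae (Eventually.of_forall fun s => ?_)
        show ∫ ω, Real.exp (-(α * s)) * pt P G s.toNNReal f (G x t ω) ∂P =
          Real.exp (-(α * s)) * pt P G s.toNNReal (ptb S t f) x
        rw [integral_const_mul, pt_pt S, add_comm, ← pt_pt S]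
        rfl
    _ = rs S hα (ptb S t f) x := rfl

theorem rs_shift (S : Sys P n μ u B G) {α : ℝ} (hα : 0 < α) (f : (Fin n → ℝ) →ᵇ ℝ) (x : Fin n → ℝ) {t : ℝ}
    (ht : 0 ≤ t) : ptb S t.toNNReal (rs S hα f) x = Real.exp (α * t) * (rs S hα f x -
      ∫ s in (0 : ℝ)..t, Real.exp (-(α * s)) * pt P G s.toNNReal f x) := by
  rw [rs_comm, rs_apply, rs_apply]
  have h1 : ∀ s ∈ Ioi (0 : ℝ), Real.exp (-(α * s)) * pt P G s.toNNReal (ptb S t.toNNReal f) x =
      Real.exp (α * t) * (Real.exp (-(α * (s + t))) * pt P G (s + t).toNNReal f x) := by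
    intro s hs
    have hs' : (0 : ℝ) < s := hs
    rw [pt_pt S, Real.toNNReal_add hs'.le ht, ← mul_assoc, ← Real.exp_add]
    congr 2
    ring
  rw [setIntegral_congr_fun measurableSet_Ioi h1, integral_const_mul]
  congr 1
  have h2 : (fun s : ℝ => s + t) ⁻¹' Ioi t = Ioi 0 := by
    ext s
    simp
  have h3 := (measurePreserving_add_right (volume : Measure ℝ) t).setIntegral_preimage_emb
    (measurableEmbedding_addRight t) (fun s => Real.exp (-(α * s)) * pt P G s.toNNReal f x) (Ioi t)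
  rw [h2] at h3
  rw [h3]
  have h4 := intervalIntegral.integral_Ioi_sub_Ioi (rs_integrable S hα f x) ht
  rw [← h4]
  ring

theorem rs_dyn (S : Sys P n μ u B G) {α : ℝ} (hα : 0 < α) (t : ℝ≥0) (f : (Fin n → ℝ) →ᵇ ℝ) (x : Fin n → ℝ) :
    ptb S t (rs S hα f) x - rs S hα f x =
      ∫ s in (0 : ℝ)..t, pt P G s.toNNReal (α • rs S hα f - f) x := by
  obtain ⟨h, hh⟩ : ∃ h : ℝ → ℝ, h = fun s => pt P G s.toNNReal f x := ⟨_, rfl⟩
  have hhc : Continuous h := by rw [hh]; exact rs_h_cont S f x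
  obtain ⟨A, hA⟩ : ∃ A : ℝ → ℝ, A = fun t => Real.exp (α * t) * (rs S hα f x -
      ∫ s in (0 : ℝ)..t, Real.exp (-(α * s)) * h s) := ⟨_, rfl⟩
  have hAt : ∀ s : ℝ, 0 ≤ s → ptb S s.toNNReal (rs S hα f) x = A s := fun s hs => by
    rw [hA, hh]
    exact rs_shift S hα f x hs
  have hgc : Continuous fun s => Real.exp (-(α * s)) * h s := (rs_e_cont α).mul hhc
  have hAd : ∀ s, HasDerivAt A (α * A s - h s) s := by
    intro s
    have h1 : HasDerivAt (fun t => ∫ s in (0 : ℝ)..t, Real.exp (-(α * s)) * h s) (Real.exp (-(α * s)) * h s) s :=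
      intervalIntegral.integral_hasDerivAt_right (hgc.intervalIntegrable _ _)
        (hgc.stronglyMeasurableAtFilter _ _) hgc.continuousAt
    have h2 : HasDerivAt (fun t => Real.exp (α * t)) (Real.exp (α * s) * α) s := by
      have := ((hasDerivAt_id s).const_mul α).exp
      simpa using this
    have h3 := h2.mul (h1.const_sub (rs S hα f x))
    rw [hA]
    refine h3.congr_deriv ?_
    have h4 : Real.exp (α * s) * Real.exp (-(α * s)) = 1 := by
      rw [← Real.exp_add, add_neg_cancel, Real.exp_zero]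
    have h5 : Real.exp (α * s) * -(Real.exp (-(α * s)) * h s) = -h s := by
      rw [mul_neg, ← mul_assoc, h4, one_mul]
    rw [h5]
    ring
  have hAc : Continuous A := continuous_iff_continuousAt.mpr fun s => (hAd s).continuousAt
  have hftc : ∫ s in (0 : ℝ)..t, (α * A s - h s) = A t - A 0 :=
    intervalIntegral.integral_eq_sub_of_hasDerivAt (fun s _ => hAd s)
      (((continuous_const.mul hAc).sub hhc).intervalIntegrable _ _)
  have h0 : rs S hα f x = A 0 := by
    rw [hA]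
    simp
  have h1 : ptb S t (rs S hα f) x = A t := by
    have := hAt t t.2
    rwa [Real.toNNReal_coe] at this
  rw [h1, h0, ← hftc]
  refine intervalIntegral.integral_congr fun s hs => ?_
  rw [uIcc_of_le (show (0 : ℝ) ≤ (t : ℝ) from t.2)] at hs
  have h2 : pt P G s.toNNReal (⇑(α • rs S hα f - f)) x =
      α * ptb S s.toNNReal (rs S hα f) x - pt P G s.toNNReal f x := by
    have h3 := DFunLike.congr_fun (ptb_sub S s.toNNReal (α • rs S hα f) f) x
    have h4 := DFunLike.congr_fun (ptb_smul S s.toNNReal α (rs S hα f)) x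
    have h5 : ptb S s.toNNReal (α • rs S hα f - f) x =
      ptb S s.toNNReal (α • rs S hα f) x - ptb S s.toNNReal f x := h3
    have h6 : ptb S s.toNNReal (α • rs S hα f) x = α * ptb S s.toNNReal (rs S hα f) x := h4
    rw [h6] at h5
    exact h5
  show α * A s - h s = pt P G s.toNNReal (⇑(α • rs S hα f - f)) x
  rw [h2, hAt s hs.1, hh]

end Pool.Agent.SGP
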