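import Pool.Agent.SGP.RS1
import Pool.Agent.SGP.CTR
import Pool.Agent.SGP.DYN
import Pool.Agent.SGP.COR
import Pool.Agent.SGP.FRM

/-!
# RS2: the resolvent on test functions, in `L²`, and as `α → ∞`; approximation by test functions
-/

open MeasureTheory ProbabilityTheory Set Filter Topology
open scoped ENNReal NNReal BoundedContinuousFunction

namespace Pool.Agent.SGP

open Pool.Agent.OYG

variable {n : ℕ} {Ω : Type*} [MeasurableSpace Ω] {P : Measure Ω} {μ : Fin (n + 1) → ℝ} {u : ℝ → ℝ}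
  {B : Fin (n + 1) → ℝ≥0 → Ω → ℝ} {G : (Fin n → ℝ) → ℝ≥0 → Ω → Fin n → ℝ}

theorem pt_cont_real (S : Sys P n μ u B G) (f : (Fin n → ℝ) →ᵇ ℝ) :
    Continuous fun p : (Fin n → ℝ) × ℝ => pt P G p.2.toNNReal f p.1 := by
  have h1 : Continuous fun p : (Fin n → ℝ) × ℝ => (p.2.toNNReal, p.1) :=
    (continuous_real_toNNReal.comp continuous_snd).prodMk continuous_fst
  exact (pt_cont S f).comp h1

theorem rs_test (S : Sys P n μ u B G) {α : ℝ} (hα : 0 < α) {φ : (Fin n → ℝ) → ℝ} (hφ : IsTest φ) :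
    rs S hα (α • tb hφ - Lb S.pot μ hφ) = tb hφ := by
  ext x
  rw [rs_apply]
  set k : ℝ → ℝ := fun s => pt P G s.toNNReal (LL u μ φ) x with hk
  have hkc : Continuous k := (pt_cont_real S (Lb S.pot μ hφ)).comp (continuous_const.prodMk continuous_id)
  set g : ℝ → ℝ := fun t => φ x + ∫ s in (0 : ℝ)..t, k s with hg
  have hgd : ∀ t, HasDerivAt g (k t) t := fun t =>
    (intervalIntegral.integral_hasDerivAt_right (hkc.intervalIntegrable _ _)
      (hkc.stronglyMeasurableAtFilter _ _) hkc.continuousAt).const_add _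
  have hgp : ∀ t, 0 ≤ t → g t = pt P G t.toNNReal φ x := fun t ht => by
    have h1 := dynkin S φ hφ t.toNNReal x
    rw [Real.coe_toNNReal t ht] at h1
    have h2 : g t = φ x + ∫ s in (0 : ℝ)..t, pt P G s.toNNReal (LL u μ φ) x := rfl
    linarith
  have hFd : ∀ t, HasDerivAt (fun t => -(Real.exp (-(α * t)) * g t))
      (Real.exp (-(α * t)) * (α * g t - k t)) t := fun t => by
    have h1 : HasDerivAt (fun t : ℝ => -(α * t)) (-α) t := by
      have h0 := ((hasDerivAt_id t).const_mul α).fun_neg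
      simpa using h0
    have h2 := ((h1.exp).fun_mul (hgd t)).fun_neg
    refine h2.congr_deriv ?_
    ring
  have hint : ∀ t ∈ Ioi (0 : ℝ), Real.exp (-(α * t)) * pt P G t.toNNReal (⇑(α • tb hφ - Lb S.pot μ hφ)) x =
      Real.exp (-(α * t)) * (α * g t - k t) := fun t ht => by
    have h1 : pt P G t.toNNReal (⇑(α • tb hφ - Lb S.pot μ hφ)) x =
        (ptb S t.toNNReal (α • tb hφ - Lb S.pot μ hφ)) x := rfl
    have h2 : (α • ptb S t.toNNReal (tb hφ) - ptb S t.toNNReal (Lb S.pot μ hφ)) x =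
        α * pt P G t.toNNReal φ x - pt P G t.toNNReal (LL u μ φ) x := rfl
    rw [h1, ptb_sub, ptb_smul, h2, hgp t (le_of_lt ht)]
  have hi := rs_integrable S hα (α • tb hφ - Lb S.pot μ hφ) x
  have hi2 : IntegrableOn (fun t => Real.exp (-(α * t)) * (α * g t - k t)) (Ioi 0) :=
    hi.congr_fun hint measurableSet_Ioi
  rw [setIntegral_congr_fun measurableSet_Ioi hint]
  have hlim : Tendsto (fun t => -(Real.exp (-(α * t)) * g t)) atTop (𝓝 0) := by
    have h1 : Tendsto (fun t : ℝ => Real.exp (-(α * t)) * ‖tb hφ‖) atTop (𝓝 0) := by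
      have h2 : Tendsto (fun t : ℝ => -(α * t)) atTop atBot :=
        tendsto_neg_atTop_atBot.comp (tendsto_id.const_mul_atTop hα)
      have h3 := (Real.tendsto_exp_atBot.comp h2).mul_const ‖tb hφ‖
      rw [zero_mul] at h3
      exact h3
    refine squeeze_zero_norm' ?_ h1
    filter_upwards [eventually_ge_atTop 0] with t ht
    rw [norm_neg, norm_mul, Real.norm_eq_abs, abs_of_pos (Real.exp_pos _)]
    refine mul_le_mul_of_nonneg_left ?_ (Real.exp_pos _).le
    rw [hgp t ht, Real.norm_eq_abs]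
    exact pt_le S (tb hφ) t.toNNReal x
  rw [integral_Ioi_of_hasDerivAt_of_tendsto (hFd 0).continuousAt.continuousWithinAt
    (fun t _ => hFd t) hi2 hlim]
  simp [hg]

theorem int_exp_Ioi {α : ℝ} (hα : 0 < α) : ∫ t in Ioi (0 : ℝ), Real.exp (-(α * t)) = α⁻¹ := by
  have h := integral_exp_mul_Ioi (neg_neg_of_pos hα) 0
  have h2 : ∀ t : ℝ, Real.exp (-(α * t)) = Real.exp (-α * t) := fun t => by rw [neg_mul]
  simp only [h2]
  rw [h]
  simp

theorem integrable_exp_Ioi {α : ℝ} (hα : 0 < α) :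
    Integrable (fun t : ℝ => Real.exp (-(α * t))) (volume.restrict (Ioi 0)) := by
  have h := exp_neg_integrableOn_Ioi 0 hα
  have h2 : ∀ t : ℝ, Real.exp (-(α * t)) = Real.exp (-α * t) := fun t => by rw [neg_mul]
  simp only [h2]
  exact h

/-- the mean of the resolvent -/
theorem rs_mean (S : Sys P n μ u B G) {π : Measure (Fin n → ℝ)} (hπ : IsStat P G π) {α : ℝ} (hα : 0 < α)
    (f : (Fin n → ℝ) →ᵇ ℝ) : ∫ x, rs S hα f x ∂π = α⁻¹ * ∫ x, f x ∂π := by
  have hp := hπ.prob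
  simp only [rs_apply]
  rw [integral_integral_swap]
  · have h1 : ∀ t : ℝ, ∫ x, Real.exp (-(α * t)) * pt P G t.toNNReal f x ∂π =
        Real.exp (-(α * t)) * ∫ x, f x ∂π := fun t => by
      rw [integral_const_mul]
      congr 1
      exact stat_int S hπ t.toNNReal f
    simp only [h1]
    rw [integral_mul_const, int_exp_Ioi hα]
  · have h2 : Integrable (fun p : (Fin n → ℝ) × ℝ => Real.exp (-(α * p.2)) * ‖f‖)
        (π.prod (volume.restrict (Ioi 0))) := ((integrable_exp_Ioi hα).mul_const ‖f‖).comp_snd π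
    refine h2.mono' ?_ (Eventually.of_forall fun p => ?_)
    · have h3 : Continuous fun p : (Fin n → ℝ) × ℝ =>
          Real.exp (-(α * p.2)) * pt P G p.2.toNNReal f p.1 :=
        (Real.continuous_exp.comp (continuous_const.mul continuous_snd).neg).mul (pt_cont_real S f)
      exact h3.aestronglyMeasurable
    · show ‖Real.exp (-(α * p.2)) * pt P G p.2.toNNReal f p.1‖ ≤ Real.exp (-(α * p.2)) * ‖f‖
      rw [norm_mul, Real.norm_eq_abs, Real.norm_eq_abs, abs_of_pos (Real.exp_pos _)]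
      exact mul_le_mul_of_nonneg_left (pt_le S f _ _) (Real.exp_pos _).le

theorem rs_sq_le (S : Sys P n μ u B G) {α : ℝ} (hα : 0 < α) (f : (Fin n → ℝ) →ᵇ ℝ) (x : Fin n → ℝ) :
    rs S hα f x ^ 2 ≤ α⁻¹ * rs S hα (f * f) x := by
  have hP := S.prob
  set c : ℝ := α * rs S hα f x with hc
  have hpos : 0 ≤ rs S hα (f * f - (2 * c) • f + BoundedContinuousFunction.const _ (c ^ 2)) x := by
    rw [rs_apply]
    refine integral_nonneg fun t => mul_nonneg (Real.exp_pos _).le ?_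
    show 0 ≤ ∫ ω, (f * f - (2 * c) • f + BoundedContinuousFunction.const _ (c ^ 2) : (Fin n → ℝ) →ᵇ ℝ)
      (G x t.toNNReal ω) ∂P
    refine integral_nonneg fun ω => ?_
    show 0 ≤ (f (G x t.toNNReal ω) * f (G x t.toNNReal ω) - 2 * c * f (G x t.toNNReal ω)) + c ^ 2
    nlinarith [sq_nonneg (f (G x t.toNNReal ω) - c)]
  rw [rs_add, rs_sub, rs_smul, rs_const] at hpos
  have h1 : (rs S hα (f * f) - (2 * c) • rs S hα f +
      BoundedContinuousFunction.const _ (α⁻¹ * c ^ 2) : (Fin n → ℝ) →ᵇ ℝ) x =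
      rs S hα (f * f) x - 2 * c * rs S hα f x + α⁻¹ * c ^ 2 := rfl
  rw [h1] at hpos
  have h2 : rs S hα (f * f) x - 2 * c * rs S hα f x + α⁻¹ * c ^ 2 =
      rs S hα (f * f) x - α * rs S hα f x ^ 2 := by
    rw [hc]; field_simp; ring
  rw [h2] at hpos
  have h3 : 0 ≤ α⁻¹ * (rs S hα (f * f) x - α * rs S hα f x ^ 2) := mul_nonneg (inv_pos.mpr hα).le hpos
  have h4 : α⁻¹ * (rs S hα (f * f) x - α * rs S hα f x ^ 2) =
      α⁻¹ * rs S hα (f * f) x - rs S hα f x ^ 2 := by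
    field_simp
  linarith

theorem rs_l2 (S : Sys P n μ u B G) {π : Measure (Fin n → ℝ)} (hπ : IsStat P G π) {α : ℝ} (hα : 0 < α)
    (f : (Fin n → ℝ) →ᵇ ℝ) : ∫ x, rs S hα f x ^ 2 ∂π ≤ (α⁻¹) ^ 2 * ∫ x, f x ^ 2 ∂π := by
  have hp := hπ.prob
  have h1 : ∫ x, rs S hα f x ^ 2 ∂π ≤ ∫ x, α⁻¹ * rs S hα (f * f) x ∂π := by
    have h2 : Integrable (fun x => rs S hα f x ^ 2) π := by
      have := (rs S hα f * rs S hα f).integrable π
      refine this.congr (Eventually.of_forall fun x => ?_)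
      show rs S hα f x * rs S hα f x = rs S hα f x ^ 2
      ring
    exact integral_mono h2 (((rs S hα (f * f)).integrable π).const_mul _) fun x => rs_sq_le S hα f x
  rw [integral_const_mul, rs_mean S hπ hα] at h1
  have h3 : ∫ x, (f * f) x ∂π = ∫ x, f x ^ 2 ∂π := by
    refine integral_congr_ae (Eventually.of_forall fun x => ?_)
    show f x * f x = f x ^ 2
    ring
  rw [h3] at h1
  linarith [h1]

theorem rs_lim (S : Sys P n μ u B G) {π : Measure (Fin n → ℝ)} (hπ : IsStat P G π) (f : (Fin n → ℝ) →ᵇ ℝ) :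
    Tendsto (fun k : ℕ => ∫ x, (((k : ℝ) + 1) * rs S (Nat.cast_add_one_pos k : (0 : ℝ) < (k : ℝ) + 1) f x - f x) ^ 2 ∂π)
      atTop (𝓝 0) := by
  have hp := hπ.prob
  have h0 : (0 : ℝ) = ∫ x, (0 : ℝ) ∂π := by simp
  rw [h0]
  refine tendsto_integral_of_dominated_convergence (fun _ => (2 * ‖f‖) ^ 2) (fun k => ?_)
    (integrable_const _) (fun k => Eventually.of_forall fun x => ?_) (Eventually.of_forall fun x => ?_)
  · exact (((continuous_const.mul (rs S _ f).continuous).sub f.continuous).pow 2).aestronglyMeasurable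
  · have hk : (0 : ℝ) < (k : ℝ) + 1 := Nat.cast_add_one_pos k
    have h1 : |rs S hk f x| ≤ ((k : ℝ) + 1)⁻¹ * ‖f‖ :=
      ((rs S hk f).norm_coe_le_norm x).trans (rs_norm S hk f)
    have h2 : |((k : ℝ) + 1) * rs S hk f x| ≤ ‖f‖ := by
      rw [abs_mul, abs_of_pos hk]
      calc ((k : ℝ) + 1) * |rs S hk f x| ≤ ((k : ℝ) + 1) * (((k : ℝ) + 1)⁻¹ * ‖f‖) :=
            mul_le_mul_of_nonneg_left h1 hk.le
        _ = ‖f‖ := by field_simp
    have h3 : |f x| ≤ ‖f‖ := f.norm_coe_le_norm x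
    rw [Real.norm_eq_abs, abs_of_nonneg (sq_nonneg _)]
    have h2' := abs_le.mp h2
    have h3' := abs_le.mp h3
    exact sq_le_sq' (by linarith) (by linarith)
  · have hf : ∀ k : ℕ, ((k : ℝ) + 1) * rs S (Nat.cast_add_one_pos k : (0 : ℝ) < (k : ℝ) + 1) f x =
        ∫ s in Ioi (0 : ℝ), Real.exp (-s) * pt P G (s / ((k : ℝ) + 1)).toNNReal f x := fun k => by
      have hk : (0 : ℝ) < (k : ℝ) + 1 := Nat.cast_add_one_pos k
      have h1 := integral_comp_mul_left_Ioi'
        (fun s => Real.exp (-s) * pt P G (s / ((k : ℝ) + 1)).toNNReal f x) 0 hk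
      rw [mul_zero, smul_eq_mul] at h1
      rw [← h1, rs_apply]
      congr 1
      refine setIntegral_congr_fun measurableSet_Ioi fun t _ => ?_
      have h2 : ((k : ℝ) + 1) * t / ((k : ℝ) + 1) = t := by field_simp
      show Real.exp (-(((k : ℝ) + 1) * t)) * pt P G t.toNNReal f x =
        Real.exp (-(((k : ℝ) + 1) * t)) * pt P G (((k : ℝ) + 1) * t / ((k : ℝ) + 1)).toNNReal f x
      rw [h2]
    have hlim : Tendsto (fun k : ℕ => ∫ s in Ioi (0 : ℝ),
        Real.exp (-s) * pt P G (s / ((k : ℝ) + 1)).toNNReal f x) atTop (𝓝 (f x)) := by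
      have h1 : f x = ∫ s in Ioi (0 : ℝ), Real.exp (-s) * f x := by
        rw [integral_mul_const, integral_exp_neg_Ioi_zero, one_mul]
      rw [h1]
      have he : Integrable (fun s : ℝ => Real.exp (-s)) (volume.restrict (Ioi 0)) := by
        have := integrable_exp_Ioi one_pos
        simpa using this
      refine tendsto_integral_of_dominated_convergence (fun s => Real.exp (-s) * ‖f‖) (fun k => ?_)
        (he.mul_const _) (fun k => Eventually.of_forall fun s => ?_)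
        (Eventually.of_forall fun s => ?_)
      · have h3 : Continuous fun s : ℝ => pt P G (s / ((k : ℝ) + 1)).toNNReal f x :=
          (pt_cont_real S f).comp (continuous_const.prodMk (continuous_id.div_const _))
        exact ((Real.continuous_exp.comp continuous_neg).mul h3).aestronglyMeasurable
      · rw [norm_mul, Real.norm_eq_abs, Real.norm_eq_abs, abs_of_pos (Real.exp_pos _)]
        exact mul_le_mul_of_nonneg_left (pt_le S f _ _) (Real.exp_pos _).le
      · refine Tendsto.const_mul _ ?_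
        have h3 : Continuous fun t : ℝ => pt P G t.toNNReal f x :=
          (pt_cont_real S f).comp (continuous_const.prodMk continuous_id)
        have h4 : Tendsto (fun k : ℕ => s / ((k : ℝ) + 1)) atTop (𝓝 0) := by
          have h5 := (tendsto_one_div_add_atTop_nhds_zero_nat (𝕜 := ℝ)).const_mul s
          rw [mul_zero] at h5
          refine h5.congr fun k => ?_
          ring
        have h6 := (h3.tendsto 0).comp h4
        have h7 : pt P G (0 : ℝ).toNNReal f x = f x := by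
          rw [Real.toNNReal_zero, ← ptb_apply S, ptb_zero]
        rw [h7] at h6
        exact h6
    have h8 := (hlim.sub_const (f x)).pow 2
    rw [sub_self, zero_pow two_ne_zero] at h8
    refine h8.congr fun k => ?_
    rw [← hf k]

theorem gen_approx (S : Sys P n μ u B G) (hπ : IsStat P G (PI u μ)) {α : ℝ} (hα : 0 < α) (f : (Fin n → ℝ) →ᵇ ℝ) :
    ∃ (φ : ℕ → (Fin n → ℝ) → ℝ) (hφ : ∀ k, IsTest (φ k)),
      Tendsto (fun k => ∫ x, (tb (hφ k) x - rs S hα f x) ^ 2 ∂(PI u μ)) atTop (𝓝 0) ∧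
      Tendsto (fun k => ∫ x, (Lb S.pot μ (hφ k) x - (α • rs S hα f - f) x) ^ 2 ∂(PI u μ)) atTop (𝓝 0) := by
  have hp := hπ.prob
  have hcd : ∀ k : ℕ, ∃ φ : (Fin n → ℝ) → ℝ, IsTest φ ∧
      ∫ x, (f x - (α * φ x - LL u μ φ x)) ^ 2 ∂(PI u μ) < 1 / ((k : ℝ) + 1) := fun k =>
    core_dense S.pot S.mu hα f (by positivity)
  choose φ hφ hd using hcd
  have hlim : Tendsto (fun k : ℕ => ∫ x, (f x - (α * φ k x - LL u μ (φ k) x)) ^ 2 ∂(PI u μ)) atTop (𝓝 0) :=
    squeeze_zero (fun k => integral_nonneg fun x => sq_nonneg _) (fun k => (hd k).le)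
      tendsto_one_div_add_atTop_nhds_zero_nat
  set d : ℕ → ((Fin n → ℝ) →ᵇ ℝ) := fun k => f - (α • tb (hφ k) - Lb S.pot μ (hφ k)) with hdd
  have hdx : ∀ k x, d k x = f x - (α * φ k x - LL u μ (φ k) x) := fun k x => rfl
  have hrs : ∀ k, rs S hα (d k) = rs S hα f - tb (hφ k) := fun k => by
    rw [hdd]
    show rs S hα (f - (α • tb (hφ k) - Lb S.pot μ (hφ k))) = _
    rw [rs_sub, rs_test]
  have hd2 : ∀ k, ∫ x, d k x ^ 2 ∂(PI u μ) = ∫ x, (f x - (α * φ k x - LL u μ (φ k) x)) ^ 2 ∂(PI u μ) :=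
    fun k => rfl
  have isq : ∀ h : (Fin n → ℝ) →ᵇ ℝ, Integrable (fun x => h x ^ 2) (PI u μ) := fun h => by
    refine ((h * h).integrable (PI u μ)).congr (Eventually.of_forall fun x => ?_)
    show h x * h x = h x ^ 2
    ring
  refine ⟨φ, hφ, ?_, ?_⟩
  · have h1 : Tendsto (fun k => (α⁻¹) ^ 2 * ∫ x, d k x ^ 2 ∂(PI u μ)) atTop (𝓝 0) := by
      have h0 := hlim.const_mul ((α⁻¹) ^ 2)
      rw [mul_zero] at h0
      exact h0
    refine squeeze_zero (fun k => integral_nonneg fun x => sq_nonneg _) (fun k => ?_) h1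
    refine le_trans (le_of_eq ?_) (rs_l2 S hπ hα (d k))
    refine integral_congr_ae (Eventually.of_forall fun x => ?_)
    show (tb (hφ k) x - rs S hα f x) ^ 2 = rs S hα (d k) x ^ 2
    rw [hrs k]
    show (tb (hφ k) x - rs S hα f x) ^ 2 = (rs S hα f x - tb (hφ k) x) ^ 2
    ring
  · have h1 : Tendsto (fun k => 4 * ∫ x, d k x ^ 2 ∂(PI u μ)) atTop (𝓝 0) := by
      simpa [hd2] using hlim.const_mul 4
    refine squeeze_zero (fun k => integral_nonneg fun x => sq_nonneg _) (fun k => ?_) h1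
    have h2 : ∫ x, (Lb S.pot μ (hφ k) x - (α • rs S hα f - f) x) ^ 2 ∂(PI u μ) ≤
        ∫ x, (2 * d k x ^ 2 + 2 * α ^ 2 * rs S hα (d k) x ^ 2) ∂(PI u μ) := by
      refine integral_mono (isq (Lb S.pot μ (hφ k) - (α • rs S hα f - f)))
        (((isq (d k)).const_mul 2).add ((isq (rs S hα (d k))).const_mul (2 * α ^ 2))) fun x => ?_
      have h3 : (Lb S.pot μ (hφ k) x - (α • rs S hα f - f) x) = d k x - α * rs S hα (d k) x := by
        rw [hrs k]
        show LL u μ (φ k) x - (α * rs S hα f x - f x) =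
          (f x - (α * φ k x - LL u μ (φ k) x)) - α * (rs S hα f x - φ k x)
        ring
      show (Lb S.pot μ (hφ k) x - (α • rs S hα f - f) x) ^ 2 ≤
        2 * d k x ^ 2 + 2 * α ^ 2 * rs S hα (d k) x ^ 2
      rw [h3]
      nlinarith [sq_nonneg (d k x + α * rs S hα (d k) x)]
    refine h2.trans ?_
    rw [integral_add ((isq (d k)).const_mul 2) ((isq (rs S hα (d k))).const_mul (2 * α ^ 2)),
      integral_const_mul, integral_const_mul]
    have h4 := rs_l2 S hπ hα (d k)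
    have h5 : 2 * α ^ 2 * ∫ x, rs S hα (d k) x ^ 2 ∂(PI u μ) ≤
        2 * α ^ 2 * ((α⁻¹) ^ 2 * ∫ x, d k x ^ 2 ∂(PI u μ)) :=
      mul_le_mul_of_nonneg_left h4 (by positivity)
    have h6 : 2 * α ^ 2 * ((α⁻¹) ^ 2 * ∫ x, d k x ^ 2 ∂(PI u μ)) = 2 * ∫ x, d k x ^ 2 ∂(PI u μ) := by
      field_simp
    linarith

theorem gen_form (S : Sys P n μ u B G) (hπ : IsStat P G (PI u μ)) {α : ℝ} (hα : 0 < α) (f : (Fin n → ℝ) →ᵇ ℝ)
    {N1 N2 : ((Fin n → ℝ) →ᵇ ℝ) → ((Fin n → ℝ) →ᵇ ℝ) → ℝ} (h1 : Frm (PI u μ) N1) (h2 : Frm (PI u μ) N2) {κ : ℝ}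
    (hN : ∀ (φ : (Fin n → ℝ) → ℝ) (hφ : IsTest φ), N1 (Lb S.pot μ hφ) (tb hφ) ≤ -(κ * N2 (tb hφ) (tb hφ))) :
    N1 (α • rs S hα f - f) (rs S hα f) ≤ -(κ * N2 (rs S hα f) (rs S hα f)) := by
  have hp := hπ.prob
  obtain ⟨φ, hφ, ha, hb⟩ := gen_approx S hπ hα f
  have t1 := frm_tendsto h1 hb ha
  have t2 := (frm_tendsto h2 ha ha).const_mul κ |>.neg
  exact le_of_tendsto_of_tendsto' t1 t2 fun k => hN (φ k) (hφ k)

end Pool.Agent.SGP
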