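import Pool.Agent.SGP.Defs
import Pool.Agent.OYG.WLA
import Pool.Agent.OYG.IPR

/-!
# RSM: resampling the end points of the lines `1, …, n` of a block

`resa w η`: line `0` of `w` is kept, line `j + 1` is replaced by the line with the same bridge and end point `η j`.

Proofs. (`resample_all`) as OYG.WRI (`indep_end`) and OYG.WRE (`resample`), for all lines at once. Under `P`, put for every line `k`
`X k ω = B k 1 ω` if `k ≠ 0`, `0` if `k = 0`, and `Y k ω s = B k s ω - s * B k 1 ω` if `k ≠ 0`, `B 0 s ω` if `k = 0` (`s ∈ [0,1]`). `X k` and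
`Y k` are independent (`wri_line` in WRI, private there: copy it), the pairs are independent over `k`, so by `OYG.indep_pairs` the
vector `(B j.succ 1)_j` is independent of `resa (blk B _ 0 ω) 0` (measurable w.r.t. `Y`: `measurable_path`). The law of
`(B j.succ 1)_j` is `Measure.pi fun _ => gaussianReal 0 1` (`hB.indep`, `iIndepFun_iff_map_fun_eq_pi_map`,
`hasLaw_eval 1`), and `w = resa (resa w 0) (fun j => w j.succ 1)`, `resa (resa w 0) η = resa w η`. Then
`lintegral_map`, `lintegral_prod`.
(`nz_resa`, `TT_sub`) direct. (`TT_lower`) `η i = ∑_{j ≤ i} (TT η) j`.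
-/

open MeasureTheory ProbabilityTheory Set Filter Topology
open scoped ENNReal NNReal BoundedContinuousFunction

namespace Pool.Agent.SGP

open Pool.Agent.OYG

variable {n : ℕ}

/-- replace the end points of the lines `1, …, n` by `η`, keeping the bridges -/
noncomputable def resa (w : Blk n) (η : Fin n → ℝ) : Blk n :=
  Fin.cases (w 0) fun j => w j.succ + (η j - w j.succ 1) • idp

/-- `(TT η) i = η i - η (i - 1)` -/
def TT (η : Fin n → ℝ) : Fin n → ℝ := fun i =>
  η i - (if 0 < (i : ℕ) then η ⟨(i : ℕ) - 1, by omega⟩ else 0)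

theorem resa_zero_line (w : Blk n) (η : Fin n → ℝ) : resa w η 0 = w 0 := rfl

theorem resa_succ (w : Blk n) (η : Fin n → ℝ) (j : Fin n) :
    resa w η j.succ = w j.succ + (η j - w j.succ 1) • idp := rfl

theorem resa_resa (w : Blk n) (η : Fin n → ℝ) : resa (resa w 0) η = resa w η := by
  funext k
  refine Fin.cases rfl (fun j => ?_) k
  rw [resa_succ, resa_succ, resa_succ]
  ext s
  simp [idp]
  ring

theorem resa_self (w : Blk n) : resa w (fun j => w j.succ 1) = w := by
  funext k
  refine Fin.cases rfl (fun j => ?_) k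
  rw [resa_succ, sub_self, zero_smul, add_zero]

theorem TT_sub (η η' : Fin n → ℝ) : TT (η - η') = TT η - TT η' := by
  funext i
  simp only [TT, Pi.sub_apply]
  by_cases hi : 0 < (i : ℕ)
  · simp only [hi, if_true]
    ring
  · simp only [hi, if_false]
    ring

theorem TT_lower (η : Fin n → ℝ) : ‖η‖ ≤ ((n : ℝ) + 1) * ‖TT η‖ := by
  have key : ∀ k : ℕ, ∀ hk : k < n, |η ⟨k, hk⟩| ≤ ((k : ℝ) + 1) * ‖TT η‖ := by
    intro k
    induction k with
    | zero =>
      intro hk
      have h1 : |TT η ⟨0, hk⟩| ≤ ‖TT η‖ := norm_le_pi_norm (TT η) ⟨0, hk⟩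
      have h2 : TT η ⟨0, hk⟩ = η ⟨0, hk⟩ := by simp [TT]
      rw [h2] at h1
      simpa using h1
    | succ k ih =>
      intro hk
      have h1 : |TT η ⟨k + 1, hk⟩| ≤ ‖TT η‖ := norm_le_pi_norm (TT η) ⟨k + 1, hk⟩
      have h2 : TT η ⟨k + 1, hk⟩ = η ⟨k + 1, hk⟩ - η ⟨k, by omega⟩ := by simp [TT]
      have h3 := ih (by omega)
      have h4 : η ⟨k + 1, hk⟩ = TT η ⟨k + 1, hk⟩ + η ⟨k, by omega⟩ := by rw [h2]; ring
      rw [h4]
      refine (abs_add_le _ _).trans ?_
      push_cast
      linarith
  rw [pi_norm_le_iff_of_nonneg (by positivity)]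
  intro i
  have h1 := key i i.2
  have h2 : ((i : ℕ) : ℝ) ≤ n := by exact_mod_cast i.2.le
  rw [Real.norm_eq_abs]
  refine h1.trans (mul_le_mul_of_nonneg_right (by linarith) (norm_nonneg _))

theorem nz_resa (w : Blk n) (η : Fin n → ℝ) {r : ℝ} (hr : r ∈ Icc (0 : ℝ) 1) :
    nz (resa w η) r = nz (resa w 0) r + r • TT η := by
  have hp : projIcc (0 : ℝ) 1 zero_le_one r = ⟨r, hr⟩ := projIcc_of_mem _ hr
  have hs : ∀ (η : Fin n → ℝ) (j : Fin n), resa w η j.succ ⟨r, hr⟩ =
      w j.succ ⟨r, hr⟩ + (η j - w j.succ 1) * r := fun η j => by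
    rw [resa_succ]
    rfl
  funext i
  simp only [nz, hp, Pi.add_apply, Pi.smul_apply, smul_eq_mul, TT]
  rw [hs, hs]
  by_cases hi : 0 < (i : ℕ)
  · have hc : i.castSucc = Fin.succ ⟨(i : ℕ) - 1, by omega⟩ := by
      ext
      simp only [Fin.val_castSucc, Fin.val_succ]
      omega
    rw [hc, hs, hs]
    simp only [hi, if_true, Pi.zero_apply]
    ring
  · have hc : i.castSucc = 0 := by
      ext
      simp only [Fin.val_castSucc, Fin.val_zero]
      omega
    rw [hc, resa_zero_line, resa_zero_line]
    simp only [hi, if_false, Pi.zero_apply]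
    ring

theorem measurable_resa : Measurable fun p : Blk n × (Fin n → ℝ) => resa p.1 p.2 := by
  have hc : ∀ k : Fin (n + 1), Measurable fun p : Blk n × (Fin n → ℝ) => p.1 k := fun k =>
    (measurable_pi_apply k).comp measurable_fst
  refine measurable_pi_lambda _ fun k => ?_
  refine Fin.cases ?_ (fun j => ?_) k
  · exact hc 0
  · refine measurable_path _ fun s => ?_
    have hev : ∀ t : unitInterval, Measurable fun p : Blk n × (Fin n → ℝ) => p.1 j.succ t := fun t =>
      (continuous_eval_const (F := C(unitInterval, ℝ)) t).measurable.comp (hc j.succ)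
    have hη : Measurable fun p : Blk n × (Fin n → ℝ) => p.2 j :=
      (measurable_pi_apply j).comp measurable_snd
    exact (hev s).add ((hη.sub (hev 1)).mul_const _)

private def rsF (s : unitInterval) : ℝ≥0 := ⟨(s : ℝ), s.2.1⟩

private theorem rs_line {Ω : Type*} [MeasurableSpace Ω] {P : Measure Ω} [IsProbabilityMeasure P]
    {X : ℝ≥0 → Ω → ℝ} (h : IsBrownianReal X P) :
    IndepFun (fun ω => X 1 ω) (fun ω (s : unitInterval) => X (rsF s) ω - (s : ℝ) * X 1 ω) P := by
  have hG := h.isGaussianProcess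
  have key : IndepFun (fun ω (u : Unit) => X 1 ω)
      (fun ω (s : unitInterval) => X (rsF s) ω - (s : ℝ) * X 1 ω) P := by
    refine IsGaussianProcess.indepFun_of_covariance_eq_zero
      (X := fun (_ : Unit) ω => X 1 ω)
      (Y := fun (s : unitInterval) ω => X (rsF s) ω - (s : ℝ) * X 1 ω) ?_ ?_ ?_ ?_
    · apply hG.of_isGaussianProcess
      rintro (u | s)
      · exact ⟨{1}, { toFun x := x ⟨1, by simp⟩
                      map_add' x y := by simp
                      map_smul' c x := by simp }, by simp⟩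
      · exact ⟨{rsF s, 1}, { toFun x := x ⟨rsF s, by simp⟩ - (s : ℝ) * x ⟨1, by simp⟩
                             map_add' x y := by simp; ring
                             map_smul' c x := by simp; ring }, by simp⟩
    · intro _
      exact h.aemeasurable 1
    · intro s
      exact (h.aemeasurable _).sub ((h.aemeasurable 1).const_mul _)
    · intro _ s
      have m1 : MemLp (X 1) 2 P := (hG.hasGaussianLaw_eval 1).memLp_two
      have m2 : MemLp (X (rsF s)) 2 P := (hG.hasGaussianLaw_eval _).memLp_two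
      have e1 : cov[fun ω => X 1 ω, fun ω => X (rsF s) ω - (s : ℝ) * X 1 ω; P] =
          cov[X 1, X (rsF s); P] - (s : ℝ) * cov[X 1, X 1; P] := by
        rw [covariance_fun_sub_right m1 m2 (m1.const_mul _), covariance_const_mul_right]
      rw [e1, h.covariance_eval, h.covariance_eval]
      have e2 : min (1 : ℝ≥0) (rsF s) = rsF s := min_eq_right s.2.2
      rw [e2, min_self]
      have e3 : ((rsF s : ℝ≥0) : ℝ) = (s : ℝ) := rfl
      rw [e3, NNReal.coe_one, mul_one, sub_self]
  exact key.comp (φ := fun f : Unit → ℝ => f ()) (ψ := id) (measurable_pi_apply _) measurable_id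

theorem indep_ends {Ω : Type*} [MeasurableSpace Ω] {P : Measure Ω} [IsProbabilityMeasure P]
    {B : Fin (n + 1) → ℝ≥0 → Ω → ℝ} (hB : IsBMd P n B) :
    IndepFun (fun ω => resa (blk B hB.cont 0 ω) 0) (fun ω (j : Fin n) => B j.succ 1 ω) P := by
  let c : Fin (n + 1) → ℝ := fun k => if k = 0 then 0 else 1
  let X : Fin (n + 1) → Ω → ℝ := fun k ω => c k * B k 1 ω
  let Y : Fin (n + 1) → Ω → (unitInterval → ℝ) := fun k ω s =>
    B k (rsF s) ω - c k * ((s : ℝ) * B k 1 ω)
  have hXm : ∀ k, Measurable (X k) := fun k => (hB.meas k 1).const_mul _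
  have hYm : ∀ k, Measurable (Y k) := fun k =>
    measurable_pi_lambda _ fun s => (hB.meas k _).sub (((hB.meas k 1).const_mul _).const_mul _)
  have h1 : iIndepFun (fun k ω => (X k ω, Y k ω)) P := by
    have h2 := hB.indep.comp (fun k (f : ℝ≥0 → ℝ) => ((c k * f 1 : ℝ),
      (fun s : unitInterval => f (rsF s) - c k * ((s : ℝ) * f 1)))) (by
        intro k
        refine Measurable.prodMk ((measurable_pi_apply _).const_mul _) ?_
        refine measurable_pi_lambda _ fun s => ?_
        exact (measurable_pi_apply _).sub (((measurable_pi_apply _).const_mul _).const_mul _))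
    exact h2
  have h2 : ∀ k, IndepFun (X k) (Y k) P := by
    intro k
    by_cases hk : k = 0
    · have e1 : X k = fun _ => (0 : ℝ) := by
        funext ω
        simp [X, c, hk]
      rw [e1]
      exact indepFun_const_left _ _
    · have h3 := rs_line (hB.brownian k)
      have e1 : X k = fun ω => B k 1 ω := by
        funext ω
        simp [X, c, hk]
      have e2 : Y k = fun ω (s : unitInterval) => B k (rsF s) ω - (s : ℝ) * B k 1 ω := by
        funext ω s
        simp [Y, c, hk]
      rw [e1, e2]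
      exact h3
  have h3 := indep_pairs X Y hXm hYm h1 h2
  have hind : Indep (MeasurableSpace.comap (fun ω k => Y k ω) inferInstance)
      (MeasurableSpace.comap (fun ω k => X k ω) inferInstance) P := h3.symm
  have hle1 : MeasurableSpace.comap (fun ω (j : Fin n) => B j.succ 1 ω) inferInstance ≤
      MeasurableSpace.comap (fun ω k => X k ω) inferInstance := by
    have h4 : Measurable[MeasurableSpace.comap (fun ω k => X k ω) inferInstance]
        (fun ω (j : Fin n) => B j.succ 1 ω) := by
      have h5 : (fun ω (j : Fin n) => B j.succ 1 ω) =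
          (fun (f : Fin (n + 1) → ℝ) (j : Fin n) => f j.succ) ∘ (fun ω k => X k ω) := by
        funext ω j
        simp [X, c]
      rw [h5]
      exact (measurable_pi_lambda _ fun j => measurable_pi_apply j.succ).comp (comap_measurable _)
    exact h4.comap_le
  have hle2 : MeasurableSpace.comap (fun ω => resa (blk B hB.cont 0 ω) 0) inferInstance ≤
      MeasurableSpace.comap (fun ω k => Y k ω) inferInstance := by
    have h4 : Measurable[MeasurableSpace.comap (fun ω k => Y k ω) inferInstance]
        (fun ω => resa (blk B hB.cont 0 ω) 0) := by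
      refine @measurable_pi_lambda _ _ _ (MeasurableSpace.comap (fun ω k => Y k ω) inferInstance)
        _ _ fun k => ?_
      refine @measurable_path _ (MeasurableSpace.comap (fun ω k => Y k ω) inferInstance) _
        fun s => ?_
      have hb : ∀ (ω : Ω) (s : unitInterval), blk B hB.cont 0 ω k s = B k (rsF s) ω := fun ω s => by
        have key : ∀ q : ℝ≥0, B k (((0 : ℕ) : ℝ≥0) + q) ω - B k ((0 : ℕ) : ℝ≥0) ω = B k q ω :=
          fun q => by rw [Nat.cast_zero, zero_add, hB.zero, sub_zero]
        exact key (rsF s)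
      have h5 : (fun ω => (resa (blk B hB.cont 0 ω) 0 k) s) =
          (fun f : Fin (n + 1) → unitInterval → ℝ => f k s) ∘ (fun ω k => Y k ω) := by
        funext ω
        have e0 : rsF 1 = 1 := NNReal.coe_injective rfl
        revert hb
        refine Fin.cases (fun hb => ?_) (fun j hb => ?_) k
        · show blk B hB.cont 0 ω 0 s = B 0 (rsF s) ω - c 0 * ((s : ℝ) * B 0 1 ω)
          rw [hb ω s]
          simp [c]
        · show (resa (blk B hB.cont 0 ω) 0 j.succ) s =
            B j.succ (rsF s) ω - c j.succ * ((s : ℝ) * B j.succ 1 ω)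
          rw [resa_succ]
          show blk B hB.cont 0 ω j.succ s + ((0 : Fin n → ℝ) j - blk B hB.cont 0 ω j.succ 1) * (s : ℝ) = _
          rw [hb ω s, hb ω 1, e0]
          simp [c]
          ring
      rw [h5]
      exact ((measurable_pi_apply s).comp (measurable_pi_apply k)).comp (comap_measurable _)
    exact h4.comap_le
  exact indep_of_indep_of_le_left (indep_of_indep_of_le_right hind hle1) hle2

theorem law_ends {Ω : Type*} [MeasurableSpace Ω] {P : Measure Ω} [IsProbabilityMeasure P]
    {B : Fin (n + 1) → ℝ≥0 → Ω → ℝ} (hB : IsBMd P n B) :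
    P.map (fun ω (j : Fin n) => B j.succ 1 ω) = Measure.pi fun _ : Fin n => gaussianReal 0 1 := by
  have h1 : iIndepFun (fun (j : Fin n) ω => B j.succ 1 ω) P := by
    have h2 := hB.indep.comp (fun _ (f : ℝ≥0 → ℝ) => f 1) (fun _ => measurable_pi_apply 1)
    exact h2.precomp (Fin.succ_injective n)
  have h3 := (iIndepFun_iff_map_fun_eq_pi_map (fun j : Fin n =>
    (hB.meas j.succ 1).aemeasurable)).mp h1
  rw [h3]
  congr 1
  funext j
  exact ((hB.brownian j.succ).toIsPreBrownianReal.hasLaw_eval 1).map_eq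

theorem resample_all {Ω : Type*} [MeasurableSpace Ω] {P : Measure Ω} [IsProbabilityMeasure P]
    {B : Fin (n + 1) → ℝ≥0 → Ω → ℝ} (hB : IsBMd P n B) (F : Blk n → ℝ≥0∞) (hF : Measurable F) :
    ∫⁻ w, F w ∂(P.map (blk B hB.cont 0)) =
      ∫⁻ w, (∫⁻ η, F (resa w η) ∂(Measure.pi fun _ : Fin n => gaussianReal 0 1)) ∂(P.map (blk B hB.cont 0)) := by
  have hmb : Measurable (blk B hB.cont 0) := measurable_blk hB 0
  have hG : Measurable fun p : Blk n × (Fin n → ℝ) => F (resa p.1 p.2) := hF.comp measurable_resa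
  have hmu : Measurable fun ω => resa (blk B hB.cont 0 ω) (0 : Fin n → ℝ) :=
    measurable_resa.comp (hmb.prodMk measurable_const)
  have hme : Measurable fun ω (j : Fin n) => B j.succ 1 ω :=
    measurable_pi_lambda _ fun j => hB.meas j.succ 1
  have hprod : P.map (fun ω => (resa (blk B hB.cont 0 ω) (0 : Fin n → ℝ), fun j : Fin n => B j.succ 1 ω)) =
      (P.map (fun ω => resa (blk B hB.cont 0 ω) (0 : Fin n → ℝ))).prod
        (Measure.pi fun _ : Fin n => gaussianReal 0 1) := by
    rw [← law_ends hB]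
    exact (indepFun_iff_map_prod_eq_prod_map_map hmu.aemeasurable hme.aemeasurable).1 (indep_ends hB)
  have hinner : Measurable fun w : Blk n =>
      ∫⁻ η, F (resa w η) ∂(Measure.pi fun _ : Fin n => gaussianReal 0 1) :=
    hG.lintegral_prod_right'
  have hone : ∀ ω (j : Fin n), blk B hB.cont 0 ω j.succ 1 = B j.succ 1 ω := fun ω j => by
    have key : ∀ q : ℝ≥0, B j.succ (((0 : ℕ) : ℝ≥0) + q) ω - B j.succ ((0 : ℕ) : ℝ≥0) ω =
        B j.succ q ω := fun q => by rw [Nat.cast_zero, zero_add, hB.zero, sub_zero]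
    exact key 1
  calc ∫⁻ w, F w ∂(P.map (blk B hB.cont 0)) = ∫⁻ ω, F (blk B hB.cont 0 ω) ∂P :=
        lintegral_map hF hmb
    _ = ∫⁻ ω, F (resa (resa (blk B hB.cont 0 ω) 0) (fun j : Fin n => B j.succ 1 ω)) ∂P := by
        refine lintegral_congr fun ω => ?_
        rw [resa_resa]
        congr 1
        have h1 := resa_self (blk B hB.cont 0 ω)
        simp only [hone] at h1
        exact h1.symm
    _ = ∫⁻ p, F (resa p.1 p.2) ∂(P.map (fun ω => (resa (blk B hB.cont 0 ω) (0 : Fin n → ℝ),
          fun j : Fin n => B j.succ 1 ω))) :=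
        (lintegral_map hG (hmu.prodMk hme)).symm
    _ = ∫⁻ v, (∫⁻ η, F (resa v η) ∂(Measure.pi fun _ : Fin n => gaussianReal 0 1))
          ∂(P.map (fun ω => resa (blk B hB.cont 0 ω) (0 : Fin n → ℝ))) := by
        rw [hprod, lintegral_prod _ hG.aemeasurable]
    _ = ∫⁻ ω, (∫⁻ η, F (resa (resa (blk B hB.cont 0 ω) 0) η)
          ∂(Measure.pi fun _ : Fin n => gaussianReal 0 1)) ∂P :=
        lintegral_map hinner hmu
    _ = ∫⁻ ω, (∫⁻ η, F (resa (blk B hB.cont 0 ω) η)
          ∂(Measure.pi fun _ : Fin n => gaussianReal 0 1)) ∂P := by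
        simp_rw [resa_resa]
    _ = ∫⁻ w, (∫⁻ η, F (resa w η) ∂(Measure.pi fun _ : Fin n => gaussianReal 0 1))
          ∂(P.map (blk B hB.cont 0)) :=
        (lintegral_map hinner hmb).symm

end Pool.Agent.SGP
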