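import Pool.Agent.SGP.EXD
import Pool.Agent.SGP.DBC
import Pool.Agent.SGP.EXT

/-!
# SM1: one step of the smoothing estimate

Proof. Let `f ≥ 0`, `‖y‖ ≤ R`, `E = {∀ q ≤ h, ‖G y q - y‖ ≤ r}` (in the past of `h`). Split `pt s f y = ∫_E + ∫_{Eᶜ}`.
Stay part: `∫_E f (G y s) = ∫_E pt (s - h) f (G y h)` (`markov`). The measure `ρ A = P (E ∩ {G y h ∈ A})` satisfies
`ρ A ≤ C / √h ^ n * volume (A ∩ closedBall 0 (R+1))` by `dens` with `s = 0` (`gap_zero`; `r ≤ 1`; on `E` the point `G y h` is in the ball of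
radius `R + 1`), and `≤ C / (c √h ^ n) * π A` by `hlow` for the radius `R + 1`. So
`∫_E pt (s-h) f (G y h) ≤ C / (c √h ^ n) ∫ pt (s-h) f dπ = C / (c √h ^ n) ∫ f dπ` by `hinv` (`pt (s-h) f ≥ 0`; integrate the inequality
of measures, `lintegral_mono'` / `integral_mono_measure`).
Exit part: `exit_part` gives `≤ m * P (Eᶜ)`, `P (Eᶜ) ≤ C' h² / r⁴` by `exit_prob` (`Eᶜ` is contained in `{∃ t ≤ h, r ≤ ‖G y t - y‖}`).
-/

open MeasureTheory ProbabilityTheory Set Filter Topology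
open scoped ENNReal NNReal BoundedContinuousFunction

namespace Pool.Agent.SGP

open Pool.Agent.OYG

variable {n : ℕ} {Ω : Type*} [MeasurableSpace Ω] {P : Measure Ω} {μ : Fin (n + 1) → ℝ} {u : ℝ → ℝ}
  {B : Fin (n + 1) → ℝ≥0 → Ω → ℝ} {G : (Fin n → ℝ) → ℝ≥0 → Ω → Fin n → ℝ}

/-- a non-negative bounded continuous function integrated against a measure below a multiple of `π` -/
theorem int_le_of_measure_le {ρ π : Measure (Fin n → ℝ)} [IsProbabilityMeasure π] {D : ℝ} (hD : 0 ≤ D)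
    (hρ : ρ ≤ ENNReal.ofReal D • π) (g : (Fin n → ℝ) →ᵇ ℝ) (hg : ∀ z, 0 ≤ g z) :
    ∫ z, g z ∂ρ ≤ D * ∫ z, g z ∂π := by
  have hi : Integrable (fun z => g z) (ENNReal.ofReal D • π) :=
    (g.integrable π).smul_measure ENNReal.ofReal_ne_top
  have h1 : ∫ z, g z ∂ρ ≤ ∫ z, g z ∂(ENNReal.ofReal D • π) :=
    integral_mono_measure hρ (Eventually.of_forall hg) hi
  rw [integral_smul_measure, ENNReal.toReal_ofReal hD, smul_eq_mul] at h1
  exact h1

theorem smooth_step (S : Sys P n μ u B G) (π : Measure (Fin n → ℝ)) [IsProbabilityMeasure π]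
    (hinv : ∀ (t : ℝ≥0) (f : (Fin n → ℝ) →ᵇ ℝ), ∫ x, ptb S t f x ∂π = ∫ x, f x ∂π)
    (hlow : ∀ R : ℝ, ∃ c : ℝ, 0 < c ∧ ∀ A : Set (Fin n → ℝ), MeasurableSet A →
      A ⊆ Metric.closedBall 0 R → ENNReal.ofReal c * volume A ≤ π A) (R : ℝ) :
    ∃ (M K : ℝ) (h0 : ℝ≥0), 0 < M ∧ 0 < K ∧ 0 < h0 ∧
      ∀ (y : Fin n → ℝ) (r : ℝ) (h s : ℝ≥0) (f : (Fin n → ℝ) →ᵇ ℝ) (m : ℝ), ‖y‖ ≤ R → 0 < r → r ≤ 1 →
        0 < h → h ≤ h0 → M * h ≤ r → h ≤ s → (∀ z, 0 ≤ f z) → 0 ≤ m →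
        (∀ z, ‖z - y‖ ≤ 2 * r → ∀ q : ℝ≥0, s ≤ q + h → q ≤ s → pt P G q f z ≤ m) →
        pt P G s f y ≤ K / √(h : ℝ) ^ n * (∫ z, f z ∂π) + K * (h : ℝ) ^ 2 / r ^ 4 * m := by
  have := S.prob
  obtain ⟨M, C', hM, hC', hex⟩ := exit_prob S R
  obtain ⟨h0, C, hh0, hC, hdens⟩ := dens S R
  obtain ⟨c, hc, hlow⟩ := hlow (R + 1)
  refine ⟨M, C / c + C', h0, hM, by positivity, hh0, ?_⟩
  intro y r h s f m hy hr hr1 hh hhh hMh hhs hf hm hmz
  set E : Set Ω := {ω | ∀ q ≤ h, ‖G y q ω - y‖ ≤ r} with hE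
  have hEp : MeasurableSet[past B h] E := measurableSet_stay S y y r h
  have hEm : MeasurableSet E := past_le S.bm h _ hEp
  have hGm : ∀ t, Measurable (G y t) := (S.gap y).meas
  have hfi : ∀ t, Integrable (fun ω => f (G y t ω)) P := fun t =>
    Integrable.of_bound ((f.continuous.measurable.comp (hGm t)).aestronglyMeasurable) ‖f‖
      (Eventually.of_forall fun ω => f.norm_coe_le_norm _)
  have hsp : pt P G s f y = (∫ ω in E, f (G y s ω) ∂P) + ∫ ω in Eᶜ, f (G y s ω) ∂P :=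
    (integral_add_compl hEm (hfi s)).symm
  -- the exit part
  have hEc : Eᶜ = {ω | ¬ ∀ q ≤ h, ‖G y q ω - y‖ ≤ r} := rfl
  have hx1 : ∫ ω in Eᶜ, f (G y s ω) ∂P ≤ m * P.real Eᶜ := by
    rw [hEc]
    exact exit_part S f y hr hh hhs hmz
  have hq : (0 : ℝ) ≤ (h : ℝ) ^ 2 / r ^ 4 := by positivity
  have hx2 : P.real Eᶜ ≤ C' * (h : ℝ) ^ 2 / r ^ 4 := by
    have h1 : P Eᶜ ≤ ENNReal.ofReal (C' * (h : ℝ) ^ 2 / r ^ 4) := by
      refine (measure_mono ?_).trans (hex y r h hy hr hr1 hMh)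
      intro ω hω
      rw [hEc] at hω
      have hω' : ¬ ∀ q ≤ h, ‖G y q ω - y‖ ≤ r := hω
      push Not at hω'
      obtain ⟨q, h1, h2⟩ := hω'
      exact ⟨q, h1, h2.le⟩
    have h2 := ENNReal.toReal_mono ENNReal.ofReal_ne_top h1
    rw [ENNReal.toReal_ofReal (by positivity)] at h2
    exact h2
  -- the stay part
  have hsh : h + (s - h) = s := add_tsub_cancel_of_le hhs
  have hst : ∫ ω in E, f (G y s ω) ∂P = ∫ ω in E, ptb S (s - h) f (G y h ω) ∂P := by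
    have := markov S y h (s - h) f E hEp
    rw [hsh] at this
    exact this
  set g := ptb S (s - h) f with hg
  have hg0 : ∀ z, 0 ≤ g z := fun z => integral_nonneg fun ω => hf _
  set D : ℝ := C / √(h : ℝ) ^ n / c with hD
  have hD0 : 0 ≤ D := by positivity
  have hρ : (P.restrict E).map (G y h) ≤ ENNReal.ofReal D • π := by
    refine Measure.le_iff.2 fun A hA => ?_
    rw [Measure.map_apply (hGm h) hA, Measure.restrict_apply ((hGm h) hA), Measure.smul_apply, smul_eq_mul]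
    set A' := A ∩ Metric.closedBall (0 : Fin n → ℝ) (R + 1) with hA'
    have hA'm : MeasurableSet A' := hA.inter Metric.isClosed_closedBall.measurableSet
    have h1 : P (G y h ⁻¹' A ∩ E) ≤ ENNReal.ofReal (C / √(h : ℝ) ^ n) * volume A' := by
      refine le_trans (measure_mono ?_) (hdens y 0 h hh hhh A')
      rintro ω ⟨h1, h2⟩
      have h3 : ∀ q ≤ h, ‖G y q ω - y‖ ≤ r := h2
      have h4 := h3 h le_rfl
      have h5 : G y h ω ∈ A' := by
        refine ⟨h1, ?_⟩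
        rw [mem_closedBall_zero_iff]
        calc ‖G y h ω‖ = ‖(G y h ω - y) + y‖ := by rw [sub_add_cancel]
          _ ≤ ‖G y h ω - y‖ + ‖y‖ := norm_add_le _ _
          _ ≤ R + 1 := by linarith
      refine ⟨?_, ?_, ?_⟩
      · rw [gap_zero S y ω]
        exact hy
      · intro q hq
        rw [zero_add, gap_zero S y ω]
        exact (h3 q hq).trans hr1
      · rw [zero_add]
        exact h5
    have h2 : volume A' ≤ ENNReal.ofReal (1 / c) * π A := by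
      have h3 := hlow A' hA'm inter_subset_right
      have h4 : ENNReal.ofReal (1 / c) * (ENNReal.ofReal c * volume A') ≤ ENNReal.ofReal (1 / c) * π A :=
        mul_le_mul_right (h3.trans (measure_mono inter_subset_left)) _
      rwa [← mul_assoc, ← ENNReal.ofReal_mul (by positivity), one_div_mul_cancel hc.ne', ENNReal.ofReal_one,
        one_mul] at h4
    calc P (G y h ⁻¹' A ∩ E) ≤ ENNReal.ofReal (C / √(h : ℝ) ^ n) * volume A' := h1
      _ ≤ ENNReal.ofReal (C / √(h : ℝ) ^ n) * (ENNReal.ofReal (1 / c) * π A) := mul_le_mul_right h2 _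
      _ = ENNReal.ofReal D * π A := by
        rw [← mul_assoc, ← ENNReal.ofReal_mul (by positivity), hD, mul_one_div]
  have hst2 : ∫ ω in E, g (G y h ω) ∂P ≤ D * ∫ z, f z ∂π := by
    have h1 : ∫ ω in E, g (G y h ω) ∂P = ∫ z, g z ∂((P.restrict E).map (G y h)) := by
      rw [integral_map (hGm h).aemeasurable g.continuous.measurable.aestronglyMeasurable]
    rw [h1, ← hinv (s - h) f]
    exact int_le_of_measure_le hD0 hρ g hg0
  have hfp : 0 ≤ ∫ z, f z ∂π := integral_nonneg hf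
  have hDK : D ≤ (C / c + C') / √(h : ℝ) ^ n := by
    rw [hD, div_right_comm]
    exact div_le_div_of_nonneg_right (by linarith) (by positivity)
  rw [hsp, hst]
  have k1 : D * ∫ z, f z ∂π ≤ (C / c + C') / √(h : ℝ) ^ n * ∫ z, f z ∂π :=
    mul_le_mul_of_nonneg_right hDK hfp
  have k2 : m * P.real Eᶜ ≤ (C / c + C') * (h : ℝ) ^ 2 / r ^ 4 * m := by
    have h1 : C' * (h : ℝ) ^ 2 / r ^ 4 ≤ (C / c + C') * (h : ℝ) ^ 2 / r ^ 4 := by
      rw [mul_div_assoc, mul_div_assoc]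
      exact mul_le_mul_of_nonneg_right (by linarith [show 0 ≤ C / c by positivity]) hq
    calc m * P.real Eᶜ ≤ m * ((C / c + C') * (h : ℝ) ^ 2 / r ^ 4) :=
        mul_le_mul_of_nonneg_left (hx2.trans h1) hm
      _ = _ := mul_comm _ _
  linarith

end Pool.Agent.SGP
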