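import Pool.Agent.SGP.BKS
import Pool.Agent.OYG.WOS

/-!
# SUP: fourth moment bound for the maximum of the Brownian increments over a short interval

Proof. `h = 0`: the increment is `0 < a`, the event is empty. `h > 0`: on the event there is `i` and `r ≤ h` with
`a / √h ≤ |blks B _ s h ω i (r/h)| ≤ ‖blks B _ s h ω i‖ ≤ osc (blks ..)` (`OYG.osc`). By `law_blks` and Markov's
inequality (`mul_meas_ge_le_lintegral₀` or `meas_ge_le_lintegral_div`) the probability is at most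
`(h^2 / a^4) ∫⁻ ofReal (osc w ^ 4) dW` with `W = P.map (blk B _ 0)`, finite because `x^4 ≤ 24 exp x` for `x ≥ 0` and
`OYG.osc_exp` (WOS.lean) with `c = 1`. Take `C` = that integral (`toReal`). Outer measure: the event is contained in the
measurable event `{a / √h ≤ osc (blks ..)}` (`measure_mono`).
-/

open MeasureTheory ProbabilityTheory Set Filter Topology
open scoped ENNReal NNReal BoundedContinuousFunction

namespace Pool.Agent.SGP

open Pool.Agent.OYG

variable {n : ℕ} {Ω : Type*} [MeasurableSpace Ω] {P : Measure Ω} {B : Fin (n + 1) → ℝ≥0 → Ω → ℝ}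

theorem osc_four [IsProbabilityMeasure P] (hB : IsBMd P n B) :
    ∫⁻ w, ENNReal.ofReal (osc w ^ 4) ∂(P.map (blk B hB.cont 0)) < ∞ := by
  have h1 := osc_exp hB 1
  have h2 : ∀ w : Blk n, ENNReal.ofReal (osc w ^ 4) ≤
      ENNReal.ofReal 24 * ENNReal.ofReal (Real.exp (1 * osc w)) := fun w => by
    have hw : 0 ≤ osc w := Finset.sum_nonneg fun i _ => norm_nonneg _
    rw [← ENNReal.ofReal_mul (by norm_num), one_mul]
    refine ENNReal.ofReal_le_ofReal ?_
    have := Real.pow_div_factorial_le_exp (osc w) hw 4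
    have h4 : ((Nat.factorial 4 : ℕ) : ℝ) = 24 := by norm_num [Nat.factorial]
    rw [h4, div_le_iff₀ (by norm_num)] at this
    linarith
  refine lt_of_le_of_lt (lintegral_mono h2) ?_
  rw [lintegral_const_mul' _ _ ENNReal.ofReal_ne_top]
  exact ENNReal.mul_lt_top ENNReal.ofReal_lt_top h1

theorem sup_prob [IsProbabilityMeasure P] (hB : IsBMd P n B) : ∃ C : ℝ, 0 ≤ C ∧ ∀ (s h : ℝ≥0) (a : ℝ), 0 < a →
    P {ω | ∃ r : ℝ≥0, r ≤ h ∧ ∃ i, a ≤ |B i (s + r) ω - B i s ω|} ≤ ENNReal.ofReal (C * (h : ℝ) ^ 2 / a ^ 4) := by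
  set K : ℝ≥0∞ := ∫⁻ w, ENNReal.ofReal (osc w ^ 4) ∂(P.map (blk B hB.cont 0)) with hK
  have hKf : K < ∞ := osc_four hB
  refine ⟨K.toReal, ENNReal.toReal_nonneg, fun s h a ha => ?_⟩
  rcases eq_or_ne h 0 with h0 | h0
  · have hem : {ω | ∃ r : ℝ≥0, r ≤ h ∧ ∃ i, a ≤ |B i (s + r) ω - B i s ω|} = ∅ := by
      ext ω
      simp only [mem_empty_iff_false, iff_false]
      rintro ⟨t, ht, i, hi⟩
      rw [h0] at ht
      have : t = 0 := le_antisymm ht zero_le
      rw [this, add_zero, sub_self, abs_zero] at hi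
      exact absurd hi (not_le.mpr ha)
    rw [hem, measure_empty]
    exact zero_le
  have hh : 0 < h := pos_iff_ne_zero.mpr h0
  have hpos : (0 : ℝ) < h := hh
  have hsq : 0 < √(h : ℝ) := Real.sqrt_pos.mpr hpos
  have hbm := measurable_blks hB s h
  have hom : Measurable fun w : Blk n => osc w := by
    unfold osc
    exact Finset.measurable_sum _ fun k _ => (measurable_pi_apply k).norm
  have hfm : Measurable fun w : Blk n => ENNReal.ofReal (osc w ^ 4) := (hom.pow_const 4).ennreal_ofReal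
  have hsub : {ω | ∃ r : ℝ≥0, r ≤ h ∧ ∃ i, a ≤ |B i (s + r) ω - B i s ω|} ⊆
      {ω | ENNReal.ofReal (a ^ 4 / (h : ℝ) ^ 2) ≤ ENNReal.ofReal (osc (blks B hB.cont s h ω) ^ 4)} := by
    rintro ω ⟨t, ht, i, hi⟩
    show ENNReal.ofReal (a ^ 4 / (h : ℝ) ^ 2) ≤ ENNReal.ofReal (osc (blks B hB.cont s h ω) ^ 4)
    refine ENNReal.ofReal_le_ofReal ?_
    have hu : (t : ℝ) / h ∈ unitInterval := by
      constructor
      · positivity
      · rw [div_le_one hpos]
        exact_mod_cast ht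
    have h1 : |blks B hB.cont s h ω i ⟨(t : ℝ) / h, hu⟩| ≤ ‖blks B hB.cont s h ω i‖ :=
      (blks B hB.cont s h ω i).norm_coe_le_norm _
    have h1' : ‖blks B hB.cont s h ω i‖ ≤ osc (blks B hB.cont s h ω) :=
      Finset.single_le_sum (f := fun k => ‖blks B hB.cont s h ω k‖) (fun k _ => norm_nonneg _)
        (Finset.mem_univ i)
    have hq0 : (0 : ℝ) ≤ (t : ℝ) / h := by positivity
    have e1 : (h * ⟨(t : ℝ) / h, hq0⟩ : ℝ≥0) = t := by
      refine NNReal.eq ?_
      show (h : ℝ) * ((t : ℝ) / h) = t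
      field_simp
    have h2 : blks B hB.cont s h ω i ⟨(t : ℝ) / h, hu⟩ = (B i (s + t) ω - B i s ω) / √(h : ℝ) := by
      show (B i (s + h * ⟨(t : ℝ) / h, hq0⟩) ω - B i s ω) / √(h : ℝ) = _
      rw [e1]
    rw [h2, abs_div, abs_of_pos hsq] at h1
    have h3 : a / √(h : ℝ) ≤ osc (blks B hB.cont s h ω) :=
      (div_le_div_of_nonneg_right hi hsq.le).trans (h1.trans h1')
    have h4 : (a / √(h : ℝ)) ^ 4 = a ^ 4 / (h : ℝ) ^ 2 := by
      rw [div_pow]
      congr 1
      have : √(h : ℝ) ^ 4 = (√(h : ℝ) ^ 2) ^ 2 := by ring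
      rw [this, Real.sq_sqrt hpos.le]
    rw [← h4]
    exact pow_le_pow_left₀ (by positivity) h3 4
  have hKi : ∫⁻ ω, ENNReal.ofReal (osc (blks B hB.cont s h ω) ^ 4) ∂P = K := by
    rw [hK, ← law_blks hB s hh, lintegral_map hfm hbm]
  have hmar := mul_meas_ge_le_lintegral₀ (μ := P)
    (f := fun ω => ENNReal.ofReal (osc (blks B hB.cont s h ω) ^ 4)) (hfm.comp hbm).aemeasurable
    (ENNReal.ofReal (a ^ 4 / (h : ℝ) ^ 2))
  rw [hKi] at hmar
  have hq : 0 < a ^ 4 / (h : ℝ) ^ 2 := by positivity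
  refine (measure_mono hsub).trans ?_
  have hne : ENNReal.ofReal (a ^ 4 / (h : ℝ) ^ 2) ≠ 0 := (ENNReal.ofReal_pos.mpr hq).ne'
  have h5 : P {ω | ENNReal.ofReal (a ^ 4 / (h : ℝ) ^ 2) ≤
      ENNReal.ofReal (osc (blks B hB.cont s h ω) ^ 4)} ≤ K / ENNReal.ofReal (a ^ 4 / (h : ℝ) ^ 2) := by
    rw [ENNReal.le_div_iff_mul_le (Or.inl hne) (Or.inl ENNReal.ofReal_ne_top), mul_comm]
    exact hmar
  refine h5.trans (le_of_eq ?_)
  rw [← ENNReal.ofReal_toReal hKf.ne, ← ENNReal.ofReal_div_of_pos hq,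
    ENNReal.toReal_ofReal ENNReal.toReal_nonneg]
  congr 1
  field_simp

end Pool.Agent.SGP
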