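import Pool.Agent.SGP.GDR
import Pool.Agent.SGP.IBP

/-!
# SYM: with one gap the semigroup is symmetric

Proofs. (`sym_test`) `∫ LL φ * ψ = -∫ φ' ψ'` (`ibp` with `n = 1`: `dv 0 = ev 0`), symmetric in `φ, ψ`.
(`sym_gen`) with `h = rs f`, `k = rs g`: `∫ (α h - f) k = ∫ h (α k - g)`, by `gen_approx` for `f` and `g` and `sym_test`
(pass to the limit with `frm_l2`, `frm_tendsto`); `α = 1` is enough.
(`sym_rs`) `z s = ∫ ptb s h * ptb (T - s) k`, `0 ≤ s ≤ T`: by `ptb_l2d`, `l2d_refl`, `l2d_frm` (for `frm_l2`) its derivative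
within `[0,T]` is `∫ ptb s (h - f) * ptb (T-s) k - ∫ ptb s h * ptb (T-s) (k - g) = 0`, by `sym_gen` applied to `ptb s f`,
`ptb (T-s) g` (`rs_comm`, linearity of `ptb`). So `z 0 = z T`: `∫ h * ptb T k = ∫ ptb T h * k` for `h, k` in the range of
`rs 1`. (`sym_ptb`) the same holds for `rs α` with every `α > 0` (or the range of `rs α` is dense as `α → ∞`): take
`h_k = (k+1) rs (k+1) f`, `g_k` similarly, `rs_lim`, `contr`, `frm_tendsto`. State `sym_rs` for every `α`.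
(`log_convex`) `‖ptb s f‖² = ∫ f ptb (2s) f` etc.; `a_j = ∫ (ptb (j s) f)^2`, `a_{j+1}^2 ≤ a_j a_{j+2}`, since
`a_{j+1} = ∫ ptb (j s) f * ptb ((j+2) s) f` (move one `ptb s` to the other factor). So `a_1^k ≤ a_0^(k-1) a_k`.
-/

open MeasureTheory ProbabilityTheory Set Filter Topology
open scoped ENNReal NNReal BoundedContinuousFunction

namespace Pool.Agent.SGP

open Pool.Agent.OYG

variable {Ω : Type*} [MeasurableSpace Ω] {P : Measure Ω} {μ : Fin 2 → ℝ} {u : ℝ → ℝ}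
  {B : Fin 2 → ℝ≥0 → Ω → ℝ} {G : (Fin 1 → ℝ) → ℝ≥0 → Ω → Fin 1 → ℝ}

theorem sym_test (hu : Pot u) (hμ : ∀ i : Fin 1, μ i.succ < μ i.castSucc) {φ ψ : (Fin 1 → ℝ) → ℝ}
    (hφ : IsTest φ) (hψ : IsTest ψ) :
    ∫ x, LL u μ φ x * ψ x ∂(PI u μ) = -∫ x, fderiv ℝ φ x (ev 0) * fderiv ℝ ψ x (ev 0) ∂(PI u μ) := by
  have h := ibp hu hμ hφ (h := ψ) (hψ.1.of_le (by exact_mod_cast le_top))
  rw [h, Fin.sum_univ_one]
  have e : (dv 0 : Fin 1 → ℝ) = ev 0 := by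
    unfold dv
    simp
  rw [e]

private theorem sym_test2 (hu : Pot u) (hμ : ∀ i : Fin 1, μ i.succ < μ i.castSucc) {φ ψ : (Fin 1 → ℝ) → ℝ}
    (hφ : IsTest φ) (hψ : IsTest ψ) :
    ∫ x, LL u μ φ x * ψ x ∂(PI u μ) = ∫ x, φ x * LL u μ ψ x ∂(PI u μ) := by
  rw [sym_test hu hμ hφ hψ]
  have h1 := sym_test hu hμ hψ hφ
  have e1 : ∫ x, φ x * LL u μ ψ x ∂(PI u μ) = ∫ x, LL u μ ψ x * φ x ∂(PI u μ) := by
    refine integral_congr_ae (Eventually.of_forall fun x => ?_)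
    exact mul_comm _ _
  rw [e1, h1]
  congr 1
  refine integral_congr_ae (Eventually.of_forall fun x => ?_)
  exact mul_comm _ _

theorem sym_gen (S : Sys P 1 μ u B G) (hπ : IsStat P G (PI u μ)) {α : ℝ} (hα : 0 < α)
    (f g : (Fin 1 → ℝ) →ᵇ ℝ) :
    ∫ x, (α • rs S hα f - f) x * rs S hα g x ∂(PI u μ) = ∫ x, rs S hα f x * (α • rs S hα g - g) x ∂(PI u μ) := by
  have hpr : IsProbabilityMeasure (PI u μ) := hπ.prob
  obtain ⟨φ, hφ, hφ1, hφ2⟩ := gen_approx S hπ hα f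
  obtain ⟨ψ, hψ, hψ1, hψ2⟩ := gen_approx S hπ hα g
  have h1 := frm_tendsto (frm_l2 (PI u μ)) hφ2 hψ1
  have h2 := frm_tendsto (frm_l2 (PI u μ)) hφ1 hψ2
  refine tendsto_nhds_unique h1 ?_
  refine h2.congr fun k => ?_
  exact (sym_test2 S.pot S.mu (hφ k) (hψ k)).symm

theorem sym_rs (S : Sys P 1 μ u B G) (hπ : IsStat P G (PI u μ)) {α : ℝ} (hα : 0 < α) (t : ℝ≥0)
    (f g : (Fin 1 → ℝ) →ᵇ ℝ) :
    ∫ x, ptb S t (rs S hα f) x * rs S hα g x ∂(PI u μ) = ∫ x, rs S hα f x * ptb S t (rs S hα g) x ∂(PI u μ) := by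
  have hpr : IsProbabilityMeasure (PI u μ) := hπ.prob
  have hd : ∀ r ∈ Icc (0 : ℝ) (t : ℝ), HasDerivWithinAt
      (fun s : ℝ => ∫ x, ptb S s.toNNReal (rs S hα f) x * ptb S ((t : ℝ) - s).toNNReal (rs S hα g) x ∂(PI u μ))
      0 (Icc (0 : ℝ) (t : ℝ)) r := by
    intro r hr
    have hA0 := ptb_l2d S hπ hα f hr.1
    have hA : L2D (PI u μ) (fun s : ℝ => ptb S s.toNNReal (rs S hα f))
        (ptb S r.toNNReal (α • rs S hα f - f)) (Icc (0 : ℝ) (t : ℝ)) r := by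
      intro ε hε
      obtain ⟨δ, hδ, h⟩ := hA0 ε hε
      exact ⟨δ, hδ, fun s hs => h s (mem_Ici.mpr hs.1)⟩
    have hC0 := ptb_l2d S hπ hα g (show (0 : ℝ) ≤ (t : ℝ) - r by linarith [hr.2])
    have hC := l2d_refl (s' := Icc (0 : ℝ) (t : ℝ)) hC0 (fun s hs => mem_Ici.mpr (by linarith [hs.2]))
    have h := l2d_frm (frm_l2 (PI u μ)) hA hC
    have e : (∫ x, ptb S r.toNNReal (α • rs S hα f - f) x * ptb S ((t : ℝ) - r).toNNReal (rs S hα g) x ∂(PI u μ)) +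
        ∫ x, ptb S r.toNNReal (rs S hα f) x * (-ptb S ((t : ℝ) - r).toNNReal (α • rs S hα g - g)) x ∂(PI u μ) = 0 := by
      have h3 : ptb S r.toNNReal (α • rs S hα f - f) =
          α • rs S hα (ptb S r.toNNReal f) - ptb S r.toNNReal f := by
        rw [ptb_sub, ptb_smul, rs_comm]
      have h4 : ptb S ((t : ℝ) - r).toNNReal (α • rs S hα g - g) =
          α • rs S hα (ptb S ((t : ℝ) - r).toNNReal g) - ptb S ((t : ℝ) - r).toNNReal g := by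
        rw [ptb_sub, ptb_smul, rs_comm]
      have h5 := sym_gen S hπ hα (ptb S r.toNNReal f) (ptb S ((t : ℝ) - r).toNNReal g)
      rw [h3, h4, rs_comm, rs_comm, h5]
      have h6 : ∫ x, rs S hα (ptb S r.toNNReal f) x *
          (-(α • rs S hα (ptb S ((t : ℝ) - r).toNNReal g) - ptb S ((t : ℝ) - r).toNNReal g)) x ∂(PI u μ) =
          -∫ x, rs S hα (ptb S r.toNNReal f) x *
          (α • rs S hα (ptb S ((t : ℝ) - r).toNNReal g) - ptb S ((t : ℝ) - r).toNNReal g) x ∂(PI u μ) := by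
        rw [← integral_neg]
        refine integral_congr_ae (Eventually.of_forall fun x => ?_)
        show _ * (-_) = -(_ * _)
        rw [mul_neg]
      rw [h6]
      ring
    have h7 := h.congr_deriv e
    exact h7
  have hconst := Convex.norm_image_sub_le_of_norm_hasDerivWithin_le (C := 0) hd
    (fun r _ => by simp) (convex_Icc (0 : ℝ) (t : ℝ)) (left_mem_Icc.mpr t.2) (right_mem_Icc.mpr t.2)
  rw [zero_mul, norm_le_zero_iff, sub_eq_zero] at hconst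
  simp only [sub_self, sub_zero, Real.toNNReal_zero, Real.toNNReal_coe] at hconst
  rw [ptb_zero, ptb_zero] at hconst
  exact hconst

private theorem sym_smul_apply (c : ℝ) (h : (Fin 1 → ℝ) →ᵇ ℝ) (x : Fin 1 → ℝ) : (c • h) x = c * h x := rfl

theorem sym_ptb (S : Sys P 1 μ u B G) (hπ : IsStat P G (PI u μ)) (t : ℝ≥0) (f g : (Fin 1 → ℝ) →ᵇ ℝ) :
    ∫ x, ptb S t f x * g x ∂(PI u μ) = ∫ x, f x * ptb S t g x ∂(PI u μ) := by
  have hpr : IsProbabilityMeasure (PI u μ) := hπ.prob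
  set F : ((Fin 1 → ℝ) →ᵇ ℝ) → ℕ → ((Fin 1 → ℝ) →ᵇ ℝ) := fun f k =>
    ((k : ℝ) + 1) • rs S (Nat.cast_add_one_pos k : (0 : ℝ) < (k : ℝ) + 1) f with hF
  have h1 : ∀ f, Tendsto (fun k => ∫ x, (F f k x - f x) ^ 2 ∂(PI u μ)) atTop (𝓝 0) := fun f => rs_lim S hπ f
  have h2 : ∀ f, Tendsto (fun k => ∫ x, (ptb S t (F f k) x - ptb S t f x) ^ 2 ∂(PI u μ)) atTop (𝓝 0) := by
    intro f
    refine squeeze_zero (fun k => integral_nonneg fun x => sq_nonneg _) (fun k => ?_) (h1 f)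
    have h3 := contr S hπ t (F f k - f)
    rw [ptb_sub] at h3
    exact h3
  have h3 := frm_tendsto (frm_l2 (PI u μ)) (h2 f) (h1 g)
  have h4 := frm_tendsto (frm_l2 (PI u μ)) (h1 f) (h2 g)
  refine tendsto_nhds_unique h3 (h4.congr fun k => ?_)
  have h5 := sym_rs S hπ (Nat.cast_add_one_pos k : (0 : ℝ) < (k : ℝ) + 1) t f g
  have e1 : ∫ x, F f k x * ptb S t (F g k) x ∂(PI u μ) = ((k : ℝ) + 1) ^ 2 *
      ∫ x, rs S (Nat.cast_add_one_pos k : (0 : ℝ) < (k : ℝ) + 1) f x *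
        ptb S t (rs S (Nat.cast_add_one_pos k : (0 : ℝ) < (k : ℝ) + 1) g) x ∂(PI u μ) := by
    rw [← integral_const_mul]
    refine integral_congr_ae (Eventually.of_forall fun x => ?_)
    simp only [hF]
    rw [ptb_smul, sym_smul_apply, sym_smul_apply]
    ring
  have e2 : ∫ x, ptb S t (F f k) x * F g k x ∂(PI u μ) = ((k : ℝ) + 1) ^ 2 *
      ∫ x, ptb S t (rs S (Nat.cast_add_one_pos k : (0 : ℝ) < (k : ℝ) + 1) f) x *
        rs S (Nat.cast_add_one_pos k : (0 : ℝ) < (k : ℝ) + 1) g x ∂(PI u μ) := by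
    rw [← integral_const_mul]
    refine integral_congr_ae (Eventually.of_forall fun x => ?_)
    simp only [hF]
    rw [ptb_smul, sym_smul_apply, sym_smul_apply]
    ring
  show ∫ x, F f k x * ptb S t (F g k) x ∂(PI u μ) = ∫ x, ptb S t (F f k) x * F g k x ∂(PI u μ)
  rw [e1, e2, h5]

private theorem sym_seq (a : ℕ → ℝ) (h0 : ∀ j, 0 ≤ a j) (h : ∀ j, a (j + 1) ^ 2 ≤ a j * a (j + 2)) (k : ℕ) :
    a 1 * a k ≤ a 0 * a (k + 1) := by
  induction k with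
  | zero => rw [mul_comm]
  | succ k ih =>
    rcases (h0 (k + 1)).eq_or_lt with h1 | h1
    · rw [← h1, mul_zero]
      exact mul_nonneg (h0 _) (h0 _)
    · have h2 := h k
      have h3 : 0 < a k := by
        rcases (h0 k).eq_or_lt with h4 | h4
        · rw [← h4, zero_mul] at h2
          nlinarith
        · exact h4
      have h5 : a 1 * a (k + 1) * a k ≤ a 0 * a (k + 2) * a k := by
        have h6 : a 1 * a k * a (k + 1) ≤ a 0 * a (k + 1) * a (k + 1) := mul_le_mul_of_nonneg_right ih h1.le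
        have h7 : a 0 * a (k + 1) ^ 2 ≤ a 0 * (a k * a (k + 2)) := mul_le_mul_of_nonneg_left h2 (h0 0)
        nlinarith
      exact le_of_mul_le_mul_right h5 h3

private theorem sym_seq2 (a : ℕ → ℝ) (h0 : ∀ j, 0 ≤ a j) (h : ∀ j, a (j + 1) ^ 2 ≤ a j * a (j + 2)) (k : ℕ) :
    a 1 ^ (k + 1) ≤ a 0 ^ k * a (k + 1) := by
  induction k with
  | zero => simp
  | succ k ih =>
    calc a 1 ^ (k + 1 + 1) = a 1 * a 1 ^ (k + 1) := by ring
      _ ≤ a 1 * (a 0 ^ k * a (k + 1)) := mul_le_mul_of_nonneg_left ih (h0 1)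
      _ = a 0 ^ k * (a 1 * a (k + 1)) := by ring
      _ ≤ a 0 ^ k * (a 0 * a (k + 1 + 1)) :=
        mul_le_mul_of_nonneg_left (sym_seq a h0 h (k + 1)) (pow_nonneg (h0 0) k)
      _ = a 0 ^ (k + 1) * a (k + 1 + 1) := by ring

theorem log_convex (S : Sys P 1 μ u B G) (hπ : IsStat P G (PI u μ)) (s : ℝ≥0) (f : (Fin 1 → ℝ) →ᵇ ℝ) (k : ℕ)
    (hk : 1 ≤ k) : (∫ x, ptb S s f x ^ 2 ∂(PI u μ)) ^ k ≤
      (∫ x, f x ^ 2 ∂(PI u μ)) ^ (k - 1) * ∫ x, ptb S (k * s) f x ^ 2 ∂(PI u μ) := by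
  have hpr : IsProbabilityMeasure (PI u μ) := hπ.prob
  set a : ℕ → ℝ := fun j => ∫ x, ptb S ((j : ℝ≥0) * s) f x ^ 2 ∂(PI u μ) with ha
  have h0 : ∀ j, 0 ≤ a j := fun j => integral_nonneg fun x => sq_nonneg _
  have hstep : ∀ j : ℕ, ptb S (((j + 1 : ℕ) : ℝ≥0) * s) f = ptb S s (ptb S ((j : ℝ≥0) * s) f) := by
    intro j
    rw [← ptb_semigroup]
    congr 1
    push_cast
    ring
  have h : ∀ j, a (j + 1) ^ 2 ≤ a j * a (j + 2) := by
    intro j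
    have e1 : a (j + 1) = ∫ x, ptb S ((j : ℝ≥0) * s) f x * ptb S (((j + 2 : ℕ) : ℝ≥0) * s) f x ∂(PI u μ) := by
      have e2 : a (j + 1) = ∫ x, ptb S s (ptb S ((j : ℝ≥0) * s) f) x *
          ptb S (((j + 1 : ℕ) : ℝ≥0) * s) f x ∂(PI u μ) := by
        simp only [ha]
        refine integral_congr_ae (Eventually.of_forall fun x => ?_)
        show ptb S (((j + 1 : ℕ) : ℝ≥0) * s) f x ^ 2 = ptb S s (ptb S ((j : ℝ≥0) * s) f) x *
          ptb S (((j + 1 : ℕ) : ℝ≥0) * s) f x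
        rw [← hstep j, sq]
      rw [e2, sym_ptb S hπ s (ptb S ((j : ℝ≥0) * s) f) (ptb S (((j + 1 : ℕ) : ℝ≥0) * s) f), ← hstep (j + 1)]
    have h1 := frm_cs (frm_l2 (PI u μ)) (ptb S ((j : ℝ≥0) * s) f) (ptb S (((j + 2 : ℕ) : ℝ≥0) * s) f)
    have e3 : ∀ i : ℕ, ∫ x, ptb S ((i : ℝ≥0) * s) f x * ptb S ((i : ℝ≥0) * s) f x ∂(PI u μ) = a i := by
      intro i
      simp only [ha]
      refine integral_congr_ae (Eventually.of_forall fun x => ?_)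
      exact (sq _).symm
    have h2 : (∫ x, ptb S ((j : ℝ≥0) * s) f x * ptb S (((j + 2 : ℕ) : ℝ≥0) * s) f x ∂(PI u μ)) ^ 2 ≤
        (∫ x, ptb S ((j : ℝ≥0) * s) f x * ptb S ((j : ℝ≥0) * s) f x ∂(PI u μ)) *
        ∫ x, ptb S (((j + 2 : ℕ) : ℝ≥0) * s) f x * ptb S (((j + 2 : ℕ) : ℝ≥0) * s) f x ∂(PI u μ) := h1
    rw [e3 j, e3 (j + 2), ← e1] at h2
    exact h2
  obtain ⟨l, rfl⟩ : ∃ l, k = l + 1 := ⟨k - 1, by omega⟩
  have hfin := sym_seq2 a h0 h l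
  have ea1 : a 1 = ∫ x, ptb S s f x ^ 2 ∂(PI u μ) := by
    simp only [ha, Nat.cast_one, one_mul]
  have ea0 : a 0 = ∫ x, f x ^ 2 ∂(PI u μ) := by
    simp only [ha, Nat.cast_zero, zero_mul]
    rw [ptb_zero]
  rw [ea1, ea0] at hfin
  rw [Nat.add_sub_cancel]
  exact hfin

end Pool.Agent.SGP
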