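import Pool.Agent.SGP.HDY

/-!
# TAL: near-minimizers of the Rayleigh quotient have small tails if `gap < m² / 4`
-/

open MeasureTheory ProbabilityTheory Set Filter Topology
open scoped ENNReal NNReal BoundedContinuousFunction

namespace Pool.Agent.SGP

variable {u : ℝ → ℝ} {m : ℝ}

/-- cut-off angle -/
noncomputable def angT (R x : ℝ) : ℝ := Real.pi / 2 * Real.smoothTransition ((x / R) ^ 2 - 1)

theorem angT_contDiff (R : ℝ) : ContDiff ℝ 1 (angT R) := by
  unfold angT
  exact contDiff_const.mul (Real.smoothTransition.contDiff.comp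
    (((contDiff_id.div_const R).pow 2).sub contDiff_const))

theorem angT_zero {R x : ℝ} (hR : 0 < R) (hx : |x| ≤ R) : angT R x = 0 := by
  unfold angT
  rw [Real.smoothTransition.zero_of_nonpos, mul_zero]
  have h1 : |x / R| ≤ 1 := by
    rw [abs_div, abs_of_pos hR, div_le_one hR]; exact hx
  have h2 : (x / R) ^ 2 ≤ 1 := by
    rw [← sq_abs]
    nlinarith [abs_nonneg (x / R)]
  linarith

theorem angT_one {R x : ℝ} (hR : 0 < R) (hx : 2 * R ≤ |x|) : angT R x = Real.pi / 2 := by
  unfold angT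
  rw [Real.smoothTransition.one_of_one_le, mul_one]
  have h1 : 2 ≤ |x / R| := by
    rw [abs_div, abs_of_pos hR, le_div_iff₀ hR]; exact hx
  have h2 : 4 ≤ (x / R) ^ 2 := by
    rw [← sq_abs]
    nlinarith
  linarith

theorem angT_deriv : ∃ C : ℝ, 0 ≤ C ∧ ∀ R : ℝ, 0 < R → ∀ x, |deriv (angT R) x| ≤ C / R := by
  have hc : Continuous (deriv (angT 1)) := (angT_contDiff 1).continuous_deriv le_rfl
  have hs : HasCompactSupport (deriv (angT 1)) := by
    refine HasCompactSupport.intro (K := Icc (-2) 2) isCompact_Icc fun y hy => ?_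
    have h1 : 2 < |y| := by
      by_contra h
      push Not at h
      exact hy (abs_le.mp h)
    have h2 : angT 1 =ᶠ[𝓝 y] fun _ => Real.pi / 2 := by
      have h3 : ∀ᶠ z in 𝓝 y, 2 < |z| := continuous_abs.continuousAt.eventually (lt_mem_nhds h1)
      filter_upwards [h3] with z hz
      exact angT_one one_pos (by linarith)
    rw [h2.deriv_eq]
    simp
  obtain ⟨C, hC⟩ := hs.exists_bound_of_continuous hc
  refine ⟨C, (norm_nonneg _).trans (hC 0), fun R hR x => ?_⟩
  have h1 : angT R = fun x => angT 1 (x / R) := by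
    funext x; simp [angT]
  have h2 : HasDerivAt (angT 1) (deriv (angT 1) (x / R)) (x / R) :=
    ((angT_contDiff 1).differentiable (by simp) _).hasDerivAt
  have h3 : HasDerivAt (fun x : ℝ => x / R) (1 / R) x := (hasDerivAt_id x).div_const R
  have h4 : HasDerivAt (angT 1 ∘ fun x : ℝ => x / R) (deriv (angT 1) (x / R) * (1 / R)) x :=
    HasDerivAt.comp x h2 h3
  have h4' : HasDerivAt (fun x => angT 1 (x / R)) (deriv (angT 1) (x / R) * (1 / R)) x := h4
  rw [h1, h4'.deriv, abs_mul, abs_of_pos (show (0 : ℝ) < 1 / R by positivity)]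
  have h5 := hC (x / R)
  rw [Real.norm_eq_abs] at h5
  calc |deriv (angT 1) (x / R)| * (1 / R) ≤ C * (1 / R) :=
        mul_le_mul_of_nonneg_right h5 (by positivity)
    _ = C / R := by ring

theorem tail_int (hu : Pot u) (hm : 0 < m) :
    Tendsto (fun k : ℕ => ∫ x, (1 - Real.cos (angT ((k : ℝ) + 1) x)) ^ 2 ∂(nu u m)) atTop (𝓝 0) := by
  have hp := nu_prob hu hm
  have h0 : (0 : ℝ) = ∫ x, (0 : ℝ) ∂(nu u m) := by simp
  rw [h0]
  refine tendsto_integral_of_dominated_convergence (fun _ => 4) (fun k => ?_) (integrable_const _)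
    (fun k => Eventually.of_forall fun x => ?_) (Eventually.of_forall fun x => ?_)
  · exact ((continuous_const.sub (Real.continuous_cos.comp
      (angT_contDiff ((k : ℝ) + 1)).continuous)).pow 2).aestronglyMeasurable
  · rw [Real.norm_eq_abs, abs_of_nonneg (sq_nonneg _)]
    nlinarith [Real.cos_le_one (angT ((k : ℝ) + 1) x), Real.neg_one_le_cos (angT ((k : ℝ) + 1) x)]
  · refine tendsto_const_nhds.congr' ?_
    obtain ⟨K, hK⟩ := exists_nat_ge |x|
    filter_upwards [eventually_ge_atTop K] with k hk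
    have h1 : (K : ℝ) ≤ k := by exact_mod_cast hk
    rw [angT_zero (by positivity) (by linarith)]
    simp

/-- the localization estimate -/
theorem loc_est (hu : Pot u) (hm : 0 < m) {R Q θ C : ℝ} (hR : 0 < R) (hC : 0 ≤ C)
    (hCR : ∀ x, |deriv (angT R) x| ≤ C / R)
    (hH : ∀ ψ : ℝ → ℝ, ContDiff ℝ 1 ψ → (∃ K, ∀ g, |ψ g| ≤ K) → (∃ K, ∀ g, |deriv ψ g| ≤ K) →
      (∀ g, |g| ≤ R → ψ g = 0) → (gap u m + θ) * ∫ g, ψ g ^ 2 ∂(nu u m) ≤ ∫ g, deriv ψ g ^ 2 ∂(nu u m))
    (hQ : ∫ x, (1 - Real.cos (angT R x)) ^ 2 ∂(nu u m) ≤ Q) {f : ℝ → ℝ} (hf : ContDiff ℝ 1 f)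
    (hfc : HasCompactSupport f) (hv : vr (nu u m) f = 1) :
    gap u m + θ * ∫ x, (Real.sin (angT R x) * (f x - ∫ y, f y ∂(nu u m))) ^ 2 ∂(nu u m) ≤
      ∫ x, deriv f x ^ 2 ∂(nu u m) + (gap u m * Q + (C / R) ^ 2) := by
  have hp := nu_prob hu hm
  have hg0 := gap_nonneg u m
  set c : ℝ := ∫ y, f y ∂(nu u m) with hc
  have hac := angT_contDiff R
  have hac0 : Continuous (angT R) := hac.continuous
  have hdac : Continuous (deriv (angT R)) := hac.continuous_deriv le_rfl
  have hdf : Continuous (deriv f) := hf.continuous_deriv le_rfl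
  obtain ⟨K1, hK1⟩ := hfc.exists_bound_of_continuous hf.continuous
  obtain ⟨K2, hK2⟩ := hfc.deriv.exists_bound_of_continuous hdf
  simp only [Real.norm_eq_abs] at hK1 hK2
  have hK2' : 0 ≤ K2 := (abs_nonneg _).trans (hK2 0)
  have hgb : ∀ x, |f x - c| ≤ K1 + |c| := fun x => (abs_sub _ _).trans (by linarith [hK1 x])
  have hgb0 : 0 ≤ K1 + |c| := (abs_nonneg _).trans (hgb 0)
  have ib : ∀ φ : ℝ → ℝ, Continuous φ → ∀ K : ℝ, (∀ x, |φ x| ≤ K) → Integrable φ (nu u m) :=
    fun φ h1 K h2 => Integrable.of_bound h1.aestronglyMeasurable K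
      (Eventually.of_forall fun x => h2 x)
  have ib2 : ∀ φ : ℝ → ℝ, Continuous φ → ∀ K : ℝ, (∀ x, |φ x| ≤ K) →
      Integrable (fun x => φ x ^ 2) (nu u m) := fun φ h1 K h2 =>
    ib _ (h1.pow 2) (K ^ 2) fun x => by
      rw [abs_of_nonneg (sq_nonneg _), ← sq_abs]
      exact pow_le_pow_left₀ (abs_nonneg _) (h2 x) 2
  have hsin : ∀ x, |Real.sin (angT R x)| ≤ 1 := fun x => Real.abs_sin_le_one _
  have hcos : ∀ x, |Real.cos (angT R x)| ≤ 1 := fun x => Real.abs_cos_le_one _
  -- the two pieces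
  have hfx : ∀ x, HasDerivAt f (deriv f x) x := fun x => (hf.differentiable (by simp) x).hasDerivAt
  have hax : ∀ x, HasDerivAt (angT R) (deriv (angT R) x) x := fun x =>
    (hac.differentiable (by simp) x).hasDerivAt
  have hd1 : ∀ x, HasDerivAt (fun x => Real.sin (angT R x) * (f x - c))
      (Real.cos (angT R x) * deriv (angT R) x * (f x - c) + Real.sin (angT R x) * deriv f x) x :=
    fun x => (hax x).sin.mul ((hfx x).sub_const c)
  have hd2 : ∀ x, HasDerivAt (fun x => Real.cos (angT R x) * (f x - c))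
      (-Real.sin (angT R x) * deriv (angT R) x * (f x - c) + Real.cos (angT R x) * deriv f x) x :=
    fun x => (hax x).cos.mul ((hfx x).sub_const c)
  have hc1 : ContDiff ℝ 1 (fun x => Real.sin (angT R x) * (f x - c)) :=
    (Real.contDiff_sin.comp hac).mul (hf.sub contDiff_const)
  have hc2 : ContDiff ℝ 1 (fun x => Real.cos (angT R x) * (f x - c)) :=
    (Real.contDiff_cos.comp hac).mul (hf.sub contDiff_const)
  have hb1 : ∀ x, |Real.sin (angT R x) * (f x - c)| ≤ K1 + |c| := fun x => by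
    rw [abs_mul]
    calc |Real.sin (angT R x)| * |f x - c| ≤ 1 * (K1 + |c|) :=
          mul_le_mul (hsin x) (hgb x) (abs_nonneg _) zero_le_one
      _ = K1 + |c| := one_mul _
  have hb2 : ∀ x, |Real.cos (angT R x) * (f x - c)| ≤ K1 + |c| := fun x => by
    rw [abs_mul]
    calc |Real.cos (angT R x)| * |f x - c| ≤ 1 * (K1 + |c|) :=
          mul_le_mul (hcos x) (hgb x) (abs_nonneg _) zero_le_one
      _ = K1 + |c| := one_mul _
  have hCR0 : 0 ≤ C / R := by positivity
  have hbd1 : ∀ x, |Real.cos (angT R x) * deriv (angT R) x * (f x - c) +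
      Real.sin (angT R x) * deriv f x| ≤ C / R * (K1 + |c|) + K2 := fun x => by
    refine (abs_add_le _ _).trans (add_le_add ?_ ?_)
    · rw [abs_mul, abs_mul]
      refine mul_le_mul ?_ (hgb x) (abs_nonneg _) hCR0
      calc |Real.cos (angT R x)| * |deriv (angT R) x| ≤ 1 * (C / R) :=
            mul_le_mul (hcos x) (hCR x) (abs_nonneg _) zero_le_one
        _ = C / R := one_mul _
    · rw [abs_mul]
      calc |Real.sin (angT R x)| * |deriv f x| ≤ 1 * K2 :=
            mul_le_mul (hsin x) (hK2 x) (abs_nonneg _) zero_le_one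
        _ = K2 := one_mul _
  have hbd2 : ∀ x, |-Real.sin (angT R x) * deriv (angT R) x * (f x - c) +
      Real.cos (angT R x) * deriv f x| ≤ C / R * (K1 + |c|) + K2 := fun x => by
    refine (abs_add_le _ _).trans (add_le_add ?_ ?_)
    · rw [abs_mul, abs_mul, abs_neg]
      refine mul_le_mul ?_ (hgb x) (abs_nonneg _) hCR0
      calc |Real.sin (angT R x)| * |deriv (angT R) x| ≤ 1 * (C / R) :=
            mul_le_mul (hsin x) (hCR x) (abs_nonneg _) zero_le_one
        _ = C / R := one_mul _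
    · rw [abs_mul]
      calc |Real.cos (angT R x)| * |deriv f x| ≤ 1 * K2 :=
            mul_le_mul (hcos x) (hK2 x) (abs_nonneg _) zero_le_one
        _ = K2 := one_mul _
  have hsc : HasCompactSupport (fun x => Real.cos (angT R x) * (f x - c)) := by
    refine HasCompactSupport.intro (K := Icc (-(2 * R)) (2 * R)) isCompact_Icc fun y hy => ?_
    have h1 : 2 * R < |y| := by
      by_contra h
      push Not at h
      exact hy (abs_le.mp h)
    rw [angT_one hR h1.le]
    simp
  have hardy1 := hH _ hc1 ⟨_, hb1⟩ ⟨C / R * (K1 + |c|) + K2, fun x => by rw [(hd1 x).deriv]; exact hbd1 x⟩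
    (fun x hx => by rw [angT_zero hR hx]; simp)
  have poin2 := poincare u m hc2 hsc
  have hcsin : Continuous fun x => Real.sin (angT R x) := Real.continuous_sin.comp hac0
  have hccos : Continuous fun x => Real.cos (angT R x) := Real.continuous_cos.comp hac0
  have hcg : Continuous fun x => f x - c := hf.continuous.sub continuous_const
  -- integrals
  have i1 : Integrable (fun x => (Real.sin (angT R x) * (f x - c)) ^ 2) (nu u m) :=
    ib2 _ (hcsin.mul hcg) _ hb1
  have i2 : Integrable (fun x => (Real.cos (angT R x) * (f x - c)) ^ 2) (nu u m) :=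
    ib2 _ (hccos.mul hcg) _ hb2
  have i2' : Integrable (fun x => Real.cos (angT R x) * (f x - c)) (nu u m) :=
    ib _ (hccos.mul hcg) _ hb2
  have ig : Integrable (fun x => f x - c) (nu u m) := ib _ hcg _ hgb
  have ig2 : Integrable (fun x => (f x - c) ^ 2) (nu u m) := ib2 _ hcg _ hgb
  have iD1 : Integrable (fun x => (Real.cos (angT R x) * deriv (angT R) x * (f x - c) +
      Real.sin (angT R x) * deriv f x) ^ 2) (nu u m) :=
    ib2 _ (((hccos.mul hdac).mul hcg).add (hcsin.mul hdf)) _ hbd1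
  have iD2 : Integrable (fun x => (-Real.sin (angT R x) * deriv (angT R) x * (f x - c) +
      Real.cos (angT R x) * deriv f x) ^ 2) (nu u m) :=
    ib2 _ (((hcsin.neg.mul hdac).mul hcg).add (hccos.mul hdf)) _ hbd2
  have iT : Integrable (fun x => (deriv (angT R) x * (f x - c)) ^ 2) (nu u m) :=
    ib2 _ (hdac.mul hcg) (C / R * (K1 + |c|)) fun x => by
      rw [abs_mul]; exact mul_le_mul (hCR x) (hgb x) (abs_nonneg _) hCR0
  have iF : Integrable (fun x => deriv f x ^ 2) (nu u m) := ib2 _ hdf _ hK2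
  have hv' : ∫ x, (f x - c) ^ 2 ∂(nu u m) = 1 := hv
  have e1 : ∫ x, (Real.sin (angT R x) * (f x - c)) ^ 2 ∂(nu u m) +
      ∫ x, (Real.cos (angT R x) * (f x - c)) ^ 2 ∂(nu u m) = 1 := by
    rw [← integral_add i1 i2, ← hv']
    refine integral_congr_ae (Eventually.of_forall fun x => ?_)
    have := Real.sin_sq_add_cos_sq (angT R x)
    show (Real.sin (angT R x) * (f x - c)) ^ 2 + (Real.cos (angT R x) * (f x - c)) ^ 2 = (f x - c) ^ 2
    linear_combination (f x - c) ^ 2 * this
  have e2 : ∫ x, deriv (fun x => Real.sin (angT R x) * (f x - c)) x ^ 2 ∂(nu u m) +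
      ∫ x, deriv (fun x => Real.cos (angT R x) * (f x - c)) x ^ 2 ∂(nu u m) =
      ∫ x, (deriv (angT R) x * (f x - c)) ^ 2 ∂(nu u m) + ∫ x, deriv f x ^ 2 ∂(nu u m) := by
    have h1 : ∀ x, deriv (fun x => Real.sin (angT R x) * (f x - c)) x =
        Real.cos (angT R x) * deriv (angT R) x * (f x - c) + Real.sin (angT R x) * deriv f x :=
      fun x => (hd1 x).deriv
    have h2 : ∀ x, deriv (fun x => Real.cos (angT R x) * (f x - c)) x =
        -Real.sin (angT R x) * deriv (angT R) x * (f x - c) + Real.cos (angT R x) * deriv f x :=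
      fun x => (hd2 x).deriv
    simp only [h1, h2]
    rw [← integral_add iD1 iD2, ← integral_add iT iF]
    refine integral_congr_ae (Eventually.of_forall fun x => ?_)
    have := Real.sin_sq_add_cos_sq (angT R x)
    show (Real.cos (angT R x) * deriv (angT R) x * (f x - c) + Real.sin (angT R x) * deriv f x) ^ 2 +
      (-Real.sin (angT R x) * deriv (angT R) x * (f x - c) + Real.cos (angT R x) * deriv f x) ^ 2 =
      (deriv (angT R) x * (f x - c)) ^ 2 + deriv f x ^ 2
    linear_combination ((deriv (angT R) x * (f x - c)) ^ 2 + deriv f x ^ 2) * this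
  have e3 : ∫ x, (deriv (angT R) x * (f x - c)) ^ 2 ∂(nu u m) ≤ (C / R) ^ 2 := by
    calc ∫ x, (deriv (angT R) x * (f x - c)) ^ 2 ∂(nu u m)
        ≤ ∫ x, (C / R) ^ 2 * (f x - c) ^ 2 ∂(nu u m) := by
          refine integral_mono iT (ig2.const_mul _) fun x => ?_
          show (deriv (angT R) x * (f x - c)) ^ 2 ≤ (C / R) ^ 2 * (f x - c) ^ 2
          rw [mul_pow]
          refine mul_le_mul_of_nonneg_right ?_ (sq_nonneg _)
          rw [← sq_abs]
          exact pow_le_pow_left₀ (abs_nonneg _) (hCR x) 2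
      _ = (C / R) ^ 2 := by rw [integral_const_mul, hv', mul_one]
  -- the mean of the second piece
  have e4 : vr (nu u m) (fun x => Real.cos (angT R x) * (f x - c)) =
      ∫ x, (Real.cos (angT R x) * (f x - c)) ^ 2 ∂(nu u m) -
        (∫ x, Real.cos (angT R x) * (f x - c) ∂(nu u m)) ^ 2 := by
    refine vr_eq ?_
    exact MemLp.of_bound (hccos.mul hcg).aestronglyMeasurable (K1 + |c|)
      (Eventually.of_forall fun x => hb2 x)
  have i0 : ∫ x, (f x - c) ∂(nu u m) = 0 := by
    rw [integral_sub (ib _ hf.continuous _ hK1) (integrable_const _)]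
    simp [← hc]
  have hb3 : ∀ x, |1 - Real.cos (angT R x)| ≤ 2 := fun x => by
    rw [abs_le]
    constructor <;> linarith [Real.cos_le_one (angT R x), Real.neg_one_le_cos (angT R x)]
  have i3 : Integrable (fun x => (1 - Real.cos (angT R x)) * (f x - c)) (nu u m) := by
    refine ib _ ((continuous_const.sub hccos).mul hcg) (2 * (K1 + |c|)) fun x => ?_
    rw [abs_mul]
    exact mul_le_mul (hb3 x) (hgb x) (abs_nonneg _) (by norm_num)
  have i4 : Integrable (fun x => (1 - Real.cos (angT R x)) ^ 2) (nu u m) :=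
    ib2 _ (continuous_const.sub hccos) 2 hb3
  set t : ℝ := ∫ x, (1 - Real.cos (angT R x)) * (f x - c) ∂(nu u m) with ht
  have e5 : ∫ x, Real.cos (angT R x) * (f x - c) ∂(nu u m) = -t := by
    have h1 : ∫ x, Real.cos (angT R x) * (f x - c) ∂(nu u m) + t = ∫ x, (f x - c) ∂(nu u m) := by
      rw [ht, ← integral_add i2' i3]
      refine integral_congr_ae (Eventually.of_forall fun x => ?_)
      show Real.cos (angT R x) * (f x - c) + (1 - Real.cos (angT R x)) * (f x - c) = f x - c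
      ring
    rw [i0] at h1
    linarith
  have e6 : t ^ 2 ≤ Q := by
    have h1 : (0 : ℝ) ≤ ∫ x, ((1 - Real.cos (angT R x)) - t * (f x - c)) ^ 2 ∂(nu u m) :=
      integral_nonneg fun x => sq_nonneg _
    have h2 : ∫ x, ((1 - Real.cos (angT R x)) - t * (f x - c)) ^ 2 ∂(nu u m) =
        ∫ x, (1 - Real.cos (angT R x)) ^ 2 ∂(nu u m) - t ^ 2 := by
      have e : (fun x => ((1 - Real.cos (angT R x)) - t * (f x - c)) ^ 2) = fun x =>
          ((1 - Real.cos (angT R x)) ^ 2 - (2 * t) * ((1 - Real.cos (angT R x)) * (f x - c))) +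
            t ^ 2 * (f x - c) ^ 2 := by
        funext x; ring
      have i5 : Integrable (fun x => (1 - Real.cos (angT R x)) ^ 2 -
          (2 * t) * ((1 - Real.cos (angT R x)) * (f x - c))) (nu u m) := i4.sub (i3.const_mul _)
      rw [e, integral_add i5 (ig2.const_mul _), integral_sub i4 (i3.const_mul _),
        integral_const_mul, integral_const_mul, ← ht, hv']
      ring
    linarith
  rw [e4, e5] at poin2
  nlinarith

theorem tail_small (hu : Pot u) (hm : 0 < m) (hg : gap u m < m ^ 2 / 4) {ε : ℝ} (hε : 0 < ε) :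
    ∃ R κ : ℝ, 0 < R ∧ 0 < κ ∧ ∀ f : ℝ → ℝ, ContDiff ℝ 1 f → HasCompactSupport f → vr (nu u m) f = 1 →
      ∫ x, deriv f x ^ 2 ∂(nu u m) ≤ gap u m + κ →
      ∫ x in {x | R < |x|}, (f x - ∫ y, f y ∂(nu u m)) ^ 2 ∂(nu u m) ≤ ε := by
  have hp := nu_prob hu hm
  set θ : ℝ := (m ^ 2 / 4 - gap u m) / 2 with hθ
  have hθ0 : 0 < θ := by rw [hθ]; linarith
  obtain ⟨R0, hR0, hardy0⟩ := hardy hu hm hθ0
  obtain ⟨C, hC, hCd⟩ := angT_deriv
  have hlim1 := tail_int hu hm
  have hlim2 : Tendsto (fun k : ℕ => C / ((k : ℝ) + 1)) atTop (𝓝 0) := by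
    have h1 := (tendsto_one_div_add_atTop_nhds_zero_nat (𝕜 := ℝ)).const_mul C
    rw [mul_zero] at h1
    refine h1.congr fun k => ?_
    ring
  have hlim : Tendsto (fun k : ℕ => gap u m * (∫ x, (1 - Real.cos (angT ((k : ℝ) + 1) x)) ^ 2 ∂(nu u m)) +
      (C / ((k : ℝ) + 1)) ^ 2) atTop (𝓝 0) := by
    have := (hlim1.const_mul (gap u m)).add (hlim2.pow 2)
    simpa using this
  have hev : ∀ᶠ k : ℕ in atTop, gap u m * (∫ x, (1 - Real.cos (angT ((k : ℝ) + 1) x)) ^ 2 ∂(nu u m)) +
      (C / ((k : ℝ) + 1)) ^ 2 < θ * ε / 2 := hlim.eventually (gt_mem_nhds (by positivity))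
  obtain ⟨K, hK⟩ := exists_nat_ge R0
  obtain ⟨k, hk1, hk2⟩ := (hev.and (eventually_ge_atTop K)).exists
  have hkK : (K : ℝ) ≤ k := by exact_mod_cast hk2
  set R : ℝ := (k : ℝ) + 1 with hR
  have hRpos : 0 < R := by positivity
  refine ⟨2 * R, θ * ε / 2, by positivity, by positivity, fun f hf hfc hv hE => ?_⟩
  have hH : ∀ ψ : ℝ → ℝ, ContDiff ℝ 1 ψ → (∃ K, ∀ g, |ψ g| ≤ K) → (∃ K, ∀ g, |deriv ψ g| ≤ K) →
      (∀ g, |g| ≤ R → ψ g = 0) → (gap u m + θ) * ∫ g, ψ g ^ 2 ∂(nu u m) ≤ ∫ g, deriv ψ g ^ 2 ∂(nu u m) := by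
    intro ψ h1 h2 h3 h4
    have h5 := hardy0 ψ h1 h2 h3 fun g hg => h4 g (by rw [hR]; linarith)
    have h6 : m ^ 2 / 4 - θ = gap u m + θ := by rw [hθ]; ring
    rwa [h6] at h5
  have h1 := loc_est hu hm hRpos hC (hCd R hRpos) hH le_rfl hf hfc hv
  set c : ℝ := ∫ y, f y ∂(nu u m) with hc
  set J : ℝ := ∫ x, (Real.sin (angT R x) * (f x - c)) ^ 2 ∂(nu u m) with hJ
  have h2 : θ * J ≤ θ * ε := by linarith
  have h3 : J ≤ ε := le_of_mul_le_mul_left h2 hθ0
  refine le_trans ?_ h3
  obtain ⟨K1, hK1⟩ := hfc.exists_bound_of_continuous hf.continuous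
  simp only [Real.norm_eq_abs] at hK1
  have hgb : ∀ x, |f x - c| ≤ K1 + |c| := fun x => (abs_sub _ _).trans (by linarith [hK1 x])
  have hcont : Continuous fun x => Real.sin (angT R x) * (f x - c) :=
    (Real.continuous_sin.comp (angT_contDiff R).continuous).mul (hf.continuous.sub continuous_const)
  have hi : Integrable (fun x => (Real.sin (angT R x) * (f x - c)) ^ 2) (nu u m) := by
    refine Integrable.of_bound (hcont.pow 2).aestronglyMeasurable ((K1 + |c|) ^ 2)
      (Eventually.of_forall fun x => ?_)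
    rw [Real.norm_eq_abs, abs_of_nonneg (sq_nonneg _), ← sq_abs]
    refine pow_le_pow_left₀ (abs_nonneg _) ?_ 2
    rw [abs_mul]
    calc |Real.sin (angT R x)| * |f x - c| ≤ 1 * (K1 + |c|) :=
          mul_le_mul (Real.abs_sin_le_one _) (hgb x) (abs_nonneg _) zero_le_one
      _ = K1 + |c| := one_mul _
  have hms : MeasurableSet {x : ℝ | 2 * R < |x|} :=
    (isOpen_lt continuous_const continuous_abs).measurableSet
  calc ∫ x in {x | 2 * R < |x|}, (f x - c) ^ 2 ∂(nu u m)
      = ∫ x in {x | 2 * R < |x|}, (Real.sin (angT R x) * (f x - c)) ^ 2 ∂(nu u m) := by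
        refine setIntegral_congr_fun hms fun x hx => ?_
        have hx' : 2 * R < |x| := hx
        show (f x - c) ^ 2 = (Real.sin (angT R x) * (f x - c)) ^ 2
        rw [angT_one hRpos hx'.le, Real.sin_pi_div_two, one_mul]
    _ ≤ J := setIntegral_le_integral hi (Eventually.of_forall fun x => sq_nonneg _)

end Pool.Agent.SGP
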