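import Pool.Agent.SGP.HDY

/-!
# TRM: the monotone transport map between the measures for two values of `m`

`0 < m < m'`; `F m x = ∫_{s ≤ x} dn u m s`.

Proofs. (`cdf_*`) `dn u m` is positive, continuous, integrable with integral `1` (DN1): `F` is strictly increasing,
`F' = dn u m` (`F x = F 0 + ∫_0^x`), `F → 0`, `F → 1`. (`exists_T`) for every `x` there is a unique `y` with `F m' y = F m x`
(intermediate value theorem, strict monotonicity); `T` is strictly increasing and surjective (the same with `m, m'`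
exchanged), hence continuous (`StrictMono.orderIsoOfSurjective`, `OrderIso.continuous`) and tends to `±∞` at `±∞`. Derivative: `F m' (T x) = F m x`,
`T' x = dn u m x / dn u m' (T x)` by `HasDerivAt.of_local_left_inverse` (for the inverse function of `F m'`) or directly from
the difference quotient. (`T_le`) `F m x ≤ F m' x` for all `x` (stochastic order): `dn u m' / dn u m = c exp (-(m'-m) g)` is
decreasing with both integrals equal to `1`: let `g0` be the point where the ratio is `1`. For `x ≤ g0`: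
`F m' x - F m x = ∫_{-∞}^x (dn' - dn) ≥ 0`; for `x ≥ g0`: `= ∫_x^∞ (dn - dn') ≥ 0`. So `F m' (T x) = F m x ≤ F m' x`, `T x ≤ x`.
(`map_T`) both measures have the same distribution function: `Measure.ext_of_Iic`, `{x | T x ≤ T z} = Iic z`, surjectivity.
-/

open MeasureTheory ProbabilityTheory Set Filter Topology
open scoped ENNReal NNReal

namespace Pool.Agent.SGP

variable {u : ℝ → ℝ} {m m' : ℝ}

/-- distribution function -/
noncomputable def cdf1 (u : ℝ → ℝ) (m x : ℝ) : ℝ := ∫ s in Iic x, dn u m s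

private theorem cdf1_sub (hu : Pot u) (hm : 0 < m) (a b : ℝ) :
    cdf1 u m b - cdf1 u m a = ∫ s in a..b, dn u m s :=
  intervalIntegral.integral_Iic_sub_Iic (dn_integrable hu hm).integrableOn (dn_integrable hu hm).integrableOn

theorem cdf1_hasDerivAt (hu : Pot u) (hm : 0 < m) (x : ℝ) : HasDerivAt (cdf1 u m) (dn u m x) x := by
  have hc := dn_cont hu m
  have h1 : HasDerivAt (fun x => ∫ s in (0 : ℝ)..x, dn u m s) (dn u m x) x :=
    intervalIntegral.integral_hasDerivAt_right (hc.intervalIntegrable 0 x)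
      (hc.stronglyMeasurableAtFilter _ _) hc.continuousAt
  have h2 : cdf1 u m = fun x => cdf1 u m 0 + ∫ s in (0 : ℝ)..x, dn u m s := by
    funext y
    rw [← cdf1_sub hu hm 0 y]
    ring
  rw [h2]
  exact h1.const_add _

theorem cdf1_strictMono (hu : Pot u) (hm : 0 < m) : StrictMono (cdf1 u m) :=
  strictMono_of_deriv_pos fun x => by
    rw [(cdf1_hasDerivAt hu hm x).deriv]
    exact dn_pos hu hm x

private theorem cdf1_compl (hu : Pot u) (hm : 0 < m) (x : ℝ) :
    cdf1 u m x = 1 - ∫ s in Ioi x, dn u m s := by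
  have h := intervalIntegral.integral_Iic_add_Ioi (μ := volume) (b := x) (f := dn u m)
    (dn_integrable hu hm).integrableOn (dn_integrable hu hm).integrableOn
  rw [dn_integral hu hm] at h
  rw [cdf1]
  linarith

theorem cdf1_bot (hu : Pot u) (hm : 0 < m) : Tendsto (cdf1 u m) atBot (𝓝 0) := by
  have h1 : Tendsto (fun x => ∫ s in Ioi x, dn u m s) atBot (𝓝 (∫ s, dn u m s)) :=
    (aecover_Ioi (μ := volume) (tendsto_id (α := ℝ) (x := atBot))).integral_tendsto_of_countably_generated
      (dn_integrable hu hm)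
  rw [dn_integral hu hm] at h1
  have h2 := h1.const_sub 1
  rw [sub_self] at h2
  refine h2.congr fun x => ?_
  rw [cdf1_compl hu hm]

theorem cdf1_top (hu : Pot u) (hm : 0 < m) : Tendsto (cdf1 u m) atTop (𝓝 1) := by
  have h1 : Tendsto (fun x => ∫ s in Iic x, dn u m s) atTop (𝓝 (∫ s, dn u m s)) :=
    (aecover_Iic (μ := volume) (tendsto_id (α := ℝ) (x := atTop))).integral_tendsto_of_countably_generated
      (dn_integrable hu hm)
  rw [dn_integral hu hm] at h1
  exact h1

/-- stochastic order -/
theorem cdf1_le (hu : Pot u) (hm : 0 < m) (hmm : m < m') (x : ℝ) : cdf1 u m x ≤ cdf1 u m' x := by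
  have hm' : 0 < m' := hm.trans hmm
  have hZ := Zc_pos hu hm
  have hZ' := Zc_pos hu hm'
  have hd : 0 < m' - m := sub_pos.mpr hmm
  set L : ℝ := Real.log (Zc u m' / Zc u m) with hL
  have hLe : Real.exp L = Zc u m' / Zc u m := Real.exp_log (div_pos hZ' hZ)
  have hfac : ∀ g, dn u m' g = dn u m g * Real.exp (-(m' - m) * g - L) := by
    intro g
    have h1 : den u m' g = den u m g * Real.exp (-(m' - m) * g) := by
      rw [den, den, ← Real.exp_add]
      congr 1
      ring
    rw [dn, dn, h1, Real.exp_sub, hLe]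
    field_simp
  have hlo : ∀ g, g ≤ -L / (m' - m) → dn u m g ≤ dn u m' g := by
    intro g hg
    rw [hfac g]
    refine le_mul_of_one_le_right (dn_pos hu hm g).le (Real.one_le_exp ?_)
    rw [le_div_iff₀ hd] at hg
    linarith
  have hhi : ∀ g, -L / (m' - m) ≤ g → dn u m' g ≤ dn u m g := by
    intro g hg
    rw [hfac g]
    refine mul_le_of_le_one_right (dn_pos hu hm g).le (Real.exp_le_one_iff.mpr ?_)
    rw [div_le_iff₀ hd] at hg
    linarith
  rcases le_total x (-L / (m' - m)) with hx | hx
  · refine setIntegral_mono_on (dn_integrable hu hm).integrableOn (dn_integrable hu hm').integrableOn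
      measurableSet_Iic fun g hg => hlo g (le_trans hg hx)
  · rw [cdf1_compl hu hm, cdf1_compl hu hm']
    have := setIntegral_mono_on (dn_integrable hu hm').integrableOn (dn_integrable hu hm).integrableOn
      (measurableSet_Ioi (a := x)) fun g hg => hhi g (le_trans hx (le_of_lt hg))
    linarith

private theorem cdf1_pos (hu : Pot u) (hm : 0 < m) (x : ℝ) : 0 < cdf1 u m x := by
  have h1 : (0 : ℝ) ≤ cdf1 u m (x - 1) :=
    (cdf1_strictMono hu hm).monotone.le_of_tendsto (cdf1_bot hu hm) (x - 1)
  exact lt_of_le_of_lt h1 (cdf1_strictMono hu hm (by linarith))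

private theorem cdf1_lt_one (hu : Pot u) (hm : 0 < m) (x : ℝ) : cdf1 u m x < 1 := by
  have h1 : cdf1 u m (x + 1) ≤ 1 := (cdf1_strictMono hu hm).monotone.ge_of_tendsto (cdf1_top hu hm) (x + 1)
  exact lt_of_lt_of_le (cdf1_strictMono hu hm (by linarith)) h1

private theorem cdf1_surj (hu : Pot u) (hm : 0 < m) {c : ℝ} (hc0 : 0 < c) (hc1 : c < 1) :
    ∃ y, cdf1 u m y = c := by
  have hcont : Continuous (cdf1 u m) :=
    continuous_iff_continuousAt.mpr fun x => (cdf1_hasDerivAt hu hm x).continuousAt
  have h1 : ∃ a, cdf1 u m a < c := ((cdf1_bot hu hm).eventually_lt_const hc0).exists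
  have h2 : ∃ b, c < cdf1 u m b := ((cdf1_top hu hm).eventually_const_lt hc1).exists
  obtain ⟨a, ha⟩ := h1
  obtain ⟨b, hb⟩ := h2
  exact mem_range_of_exists_le_of_exists_ge hcont ⟨a, ha.le⟩ ⟨b, hb.le⟩

private theorem nu_Iic (hu : Pot u) (hm : 0 < m) (x : ℝ) :
    nu u m (Iic x) = ENNReal.ofReal (cdf1 u m x) := by
  rw [nu, withDensity_apply _ measurableSet_Iic, cdf1,
    ofReal_integral_eq_lintegral_ofReal (dn_integrable hu hm).integrableOn
      (Eventually.of_forall fun g => (dn_pos hu hm g).le)]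

theorem exists_T (hu : Pot u) (hm : 0 < m) (hmm : m < m') : ∃ T : ℝ → ℝ, StrictMono T ∧ Continuous T ∧
    Tendsto T atTop atTop ∧ Tendsto T atBot atBot ∧ (∀ x, T x ≤ x) ∧
    (∀ x, HasDerivAt T (dn u m x / dn u m' (T x)) x) ∧ (nu u m).map T = nu u m' := by
  have hm' : 0 < m' := hm.trans hmm
  choose T hT using fun x => cdf1_surj hu hm' (cdf1_pos hu hm x) (cdf1_lt_one hu hm x)
  have hF := cdf1_strictMono hu hm
  have hF' := cdf1_strictMono hu hm'
  have hmono : StrictMono T := by
    intro x z hxz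
    rw [← hF'.lt_iff_lt, hT, hT]
    exact hF hxz
  have hsurj : Function.Surjective T := by
    intro y
    obtain ⟨x, hx⟩ := cdf1_surj hu hm (cdf1_pos hu hm' y) (cdf1_lt_one hu hm' y)
    exact ⟨x, hF'.injective (by rw [hT, hx])⟩
  have hcont : Continuous T := (hmono.orderIsoOfSurjective T hsurj).continuous
  have htop : Tendsto T atTop atTop := (hmono.orderIsoOfSurjective T hsurj).tendsto_atTop
  have hbot : Tendsto T atBot atBot := (hmono.orderIsoOfSurjective T hsurj).tendsto_atBot
  have hle : ∀ x, T x ≤ x := by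
    intro x
    rw [← hF'.le_iff_le, hT]
    exact cdf1_le hu hm hmm x
  refine ⟨T, hmono, hcont, htop, hbot, hle, ?_, ?_⟩
  · intro x
    rw [hasDerivAt_iff_tendsto_slope]
    have h1 : Tendsto (slope (cdf1 u m) x) (𝓝[≠] x) (𝓝 (dn u m x)) :=
      hasDerivAt_iff_tendsto_slope.mp (cdf1_hasDerivAt hu hm x)
    have h2 : Tendsto (slope (cdf1 u m') (T x)) (𝓝[≠] (T x)) (𝓝 (dn u m' (T x))) :=
      hasDerivAt_iff_tendsto_slope.mp (cdf1_hasDerivAt hu hm' (T x))
    have h3 : Tendsto T (𝓝[≠] x) (𝓝[≠] (T x)) := by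
      refine tendsto_nhdsWithin_of_tendsto_nhds_of_eventually_within _
        (hcont.continuousAt.mono_left nhdsWithin_le_nhds) ?_
      filter_upwards [self_mem_nhdsWithin] with z hz
      exact fun h => hz (hmono.injective h)
    have h4 := h1.div (h2.comp h3) (dn_pos hu hm' (T x)).ne'
    refine h4.congr' ?_
    filter_upwards [self_mem_nhdsWithin] with z hz
    have hz' : z ≠ x := hz
    have hzx : z - x ≠ 0 := sub_ne_zero.mpr hz'
    have hTT : T z - T x ≠ 0 := sub_ne_zero.mpr fun h => hz' (hmono.injective h)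
    have hFF : cdf1 u m z - cdf1 u m x ≠ 0 := sub_ne_zero.mpr fun h => hz' (hF.injective h)
    simp only [Pi.div_apply, Function.comp_apply, slope_def_field, hT]
    field_simp
  · have := nu_prob hu hm
    have := nu_prob hu hm'
    have : IsFiniteMeasure ((nu u m).map T) := inferInstance
    refine Measure.ext_of_Iic _ _ fun a => ?_
    obtain ⟨z, rfl⟩ := hsurj a
    rw [Measure.map_apply hcont.measurable measurableSet_Iic]
    have hpre : T ⁻¹' Iic (T z) = Iic z := by
      ext w
      simp only [mem_preimage, mem_Iic, hmono.le_iff_le]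
    rw [hpre, nu_Iic hu hm, nu_Iic hu hm', hT]

end Pool.Agent.SGP
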