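import Mathlib

/-!
# WCP: weak sequential compactness in `L²(ν)`

Proof. `H = Lp ℝ 2 ν` is a separable Hilbert space (`Lp.SecondCountableTopology`, `ν` finite on a standard Borel space). The
classes of `h k` lie in a ball; their images in the dual under `InnerProductSpace.toDual` lie in a ball, which is
sequentially compact in the weak-* topology (`WeakDual.isSeqCompact_closedBall`). The limit functional is `⟪ω, ·⟫` for
some `ω ∈ H` (`toDual` is surjective). Weak-* convergence is pointwise convergence of the functionals on `H`, and the inner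
product of classes is the integral (`MeasureTheory.L2.inner_def`, `MemLp.coeFn_toLp`).
-/

open MeasureTheory Set Filter Topology
open scoped ENNReal NNReal

namespace Pool.Agent.SGP

theorem weak_seq (ν : Measure ℝ) [IsFiniteMeasure ν] (h : ℕ → ℝ → ℝ) (hh : ∀ k, MemLp (h k) 2 ν) (C : ℝ)
    (hC : ∀ k, ∫ x, h k x ^ 2 ∂ν ≤ C) : ∃ φ : ℕ → ℕ, StrictMono φ ∧ ∃ ω : ℝ → ℝ, MemLp ω 2 ν ∧
      ∀ g : ℝ → ℝ, MemLp g 2 ν → Tendsto (fun k => ∫ x, h (φ k) x * g x ∂ν) atTop (𝓝 (∫ x, ω x * g x ∂ν)) := by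
  have : Fact ((1 : ℝ≥0∞) ≤ 2) := ⟨by norm_num⟩
  have : Fact ((2 : ℝ≥0∞) ≠ ∞) := ⟨by norm_num⟩
  -- inner product as an integral
  have hin : ∀ (f g : ℝ → ℝ) (hf : MemLp f 2 ν) (hg : MemLp g 2 ν),
      inner ℝ (hf.toLp f) (hg.toLp g) = ∫ x, f x * g x ∂ν := by
    intro f g hf hg
    rw [MeasureTheory.L2.inner_def]
    refine integral_congr_ae ?_
    filter_upwards [hf.coeFn_toLp, hg.coeFn_toLp] with x h1 h2
    rw [h1, h2]
    simp [mul_comm]
  have hin2 : ∀ (f : Lp ℝ 2 ν) (g : ℝ → ℝ) (hg : MemLp g 2 ν),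
      inner ℝ f (hg.toLp g) = ∫ x, f x * g x ∂ν := by
    intro f g hg
    rw [MeasureTheory.L2.inner_def]
    refine integral_congr_ae ?_
    filter_upwards [hg.coeFn_toLp] with x h2
    rw [h2]
    simp [mul_comm]
  set F : ℕ → Lp ℝ 2 ν := fun k => (hh k).toLp (h k) with hF
  have hnorm : ∀ k, ‖F k‖ ≤ Real.sqrt C := by
    intro k
    have e : ‖F k‖ ^ 2 = ∫ x, h k x ^ 2 ∂ν := by
      rw [← real_inner_self_eq_norm_sq, hF]
      simp only []
      rw [hin]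
      refine integral_congr_ae (ae_of_all _ fun x => ?_)
      simp only []
      ring
    have h2 : ‖F k‖ ^ 2 ≤ C := by rw [e]; exact hC k
    exact Real.le_sqrt_of_sq_le h2
  let T : Lp ℝ 2 ν ≃ₗᵢ⋆[ℝ] StrongDual ℝ (Lp ℝ 2 ν) := InnerProductSpace.toDual ℝ (Lp ℝ 2 ν)
  let W : ℕ → WeakDual ℝ (Lp ℝ 2 ν) := fun k => StrongDual.toWeakDual (T (F k))
  have hW : ∀ k, W k ∈ WeakDual.toStrongDual ⁻¹' Metric.closedBall (0 : StrongDual ℝ (Lp ℝ 2 ν)) (Real.sqrt C) := by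
    intro k
    show T (F k) ∈ Metric.closedBall (0 : StrongDual ℝ (Lp ℝ 2 ν)) (Real.sqrt C)
    rw [mem_closedBall_zero_iff, T.norm_map]
    exact hnorm k
  obtain ⟨w, -, φ, hφ, hlim⟩ := WeakDual.isSeqCompact_closedBall ℝ (Lp ℝ 2 ν) 0 (Real.sqrt C) hW
  refine ⟨φ, hφ, ?_⟩
  let om : Lp ℝ 2 ν := T.symm (WeakDual.toStrongDual w)
  refine ⟨om, Lp.memLp om, ?_⟩
  intro g hg
  have h1 := (tendsto_iff_forall_eval_tendsto_topDualPairing.1 hlim) (hg.toLp g)
  have e1 : ∀ k, (topDualPairing ℝ (Lp ℝ 2 ν) ((W ∘ φ) k)) (hg.toLp g) = ∫ x, h (φ k) x * g x ∂ν := by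
    intro k
    have : (topDualPairing ℝ (Lp ℝ 2 ν) ((W ∘ φ) k)) (hg.toLp g) = inner ℝ (F (φ k)) (hg.toLp g) := rfl
    rw [this, hF]
    exact hin _ _ _ _
  have e2 : (topDualPairing ℝ (Lp ℝ 2 ν) w) (hg.toLp g) = ∫ x, om x * g x ∂ν := by
    have h3 : T om = WeakDual.toStrongDual w := T.apply_symm_apply _
    have : (topDualPairing ℝ (Lp ℝ 2 ν) w) (hg.toLp g) = (T om) (hg.toLp g) := by
      rw [h3]; rfl
    rw [this]
    have h4 : (T om) (hg.toLp g) = inner ℝ om (hg.toLp g) := rfl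
    rw [h4]
    exact hin2 _ _ _
  rw [e2] at h1
  refine h1.congr fun k => ?_
  exact e1 k

end Pool.Agent.SGP
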